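import Mathlib

set_option autoImplicit false

/-!
# Integrals of the Dirichlet modes of an interval
-/

open MeasureTheory Set Real

namespace Pool.Agent.H45.LT.Di

variable {L : ℝ}

theorem Cint (hL : 0 < L) (k : ℤ) :
    ∫ x in (0:ℝ)..L, cos (2 * π * k * x / L) = if k = 0 then L else 0 := by
  split_ifs with h
  · subst h; simp
  · have hk : (k:ℝ) ≠ 0 := by exact_mod_cast h
    have hc : 2 * π * k / L ≠ 0 := by
      have := pi_pos
      positivity
    have h1 : ∀ x : ℝ, 2 * π * k * x / L = (2 * π * k / L) * x := fun x => by ring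
    simp only [h1]
    rw [intervalIntegral.integral_comp_mul_left (fun x => cos x) hc, integral_cos, mul_zero,
      sin_zero, sub_zero]
    have h2 : 2 * π * k / L * L = (2 * k : ℤ) * π := by
      push_cast
      field_simp
    rw [h2, sin_int_mul_pi]
    simp

/-- the square of the mode `j + 1` -/
noncomputable def A (L : ℝ) (j : ℕ) (x : ℝ) : ℝ := 2 / L * sin (π * (j + 1) * x / L) ^ 2

/-- the cosine with integer frequency -/
noncomputable def C (L : ℝ) (k : ℤ) (x : ℝ) : ℝ := cos (2 * π * k * x / L)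

theorem A_eq (L : ℝ) (j : ℕ) (x : ℝ) : A L j x = 1 / L * (1 - C L (j + 1 : ℤ) x) := by
  unfold A C
  have h : 2 * π * ((j + 1 : ℤ) : ℝ) * x / L = 2 * (π * (j + 1) * x / L) := by
    push_cast; ring
  rw [h, cos_two_mul]
  have := sin_sq_add_cos_sq (π * (j + 1) * x / L)
  linear_combination (2 / L) * this

theorem A_nonneg (hL : 0 < L) (j : ℕ) (x : ℝ) : 0 ≤ A L j x := by
  unfold A; positivity

theorem A_cont (L : ℝ) (j : ℕ) : Continuous (A L j) := by
  unfold A; fun_prop

theorem C_cont (L : ℝ) (k : ℤ) : Continuous (C L k) := by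
  unfold C; fun_prop

theorem CC (L : ℝ) (k l : ℤ) (x : ℝ) :
    C L k x * C L l x = 1 / 2 * (C L (k - l) x + C L (k + l) x) := by
  unfold C
  have h1 : 2 * π * ((k - l : ℤ) : ℝ) * x / L = 2 * π * k * x / L - 2 * π * l * x / L := by
    push_cast; ring
  have h2 : 2 * π * ((k + l : ℤ) : ℝ) * x / L = 2 * π * k * x / L + 2 * π * l * x / L := by
    push_cast; ring
  rw [h1, h2, cos_sub, cos_add]; ring

/-- indicator -/
noncomputable def ind (p : Prop) [Decidable p] : ℝ := if p then 1 else 0

theorem C_int (hL : 0 < L) (k : ℤ) : ∫ x in (0:ℝ)..L, C L k x = L * ind (k = 0) := by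
  have h := Cint hL k
  unfold C ind
  rw [h]
  split_ifs <;> simp

theorem C_ii (k : ℤ) (a b : ℝ) : IntervalIntegrable (C L k) volume a b :=
  (C_cont L k).intervalIntegrable a b

/-- the triple products -/
theorem triple (hL : 0 < L) (a b c : ℕ) :
    L ^ 2 * ∫ x in (0:ℝ)..L, A L a x * A L b x * A L c x =
      1 + 1 / 2 * (ind (a = b) + ind (b = c) + ind (a = c)) -
        1 / 4 * (ind (a + b + 1 = c) + ind (a + c + 1 = b) + ind (b + c + 1 = a)) := by
  have h1 : ∀ x, A L a x * A L b x * A L c x = 1 / L ^ 3 * (C L 0 x - C L (a + 1) x -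
      C L (b + 1) x - C L (c + 1) x + 1 / 2 * (C L (a - b) x + C L (a + b + 2) x) +
      1 / 2 * (C L (b - c) x + C L (b + c + 2) x) +
      1 / 2 * (C L (a - c) x + C L (a + c + 2) x) -
      1 / 4 * (C L (a - b - c - 1) x + C L (a - b + c + 1) x + C L (a + b - c + 1) x +
        C L (a + b + c + 3) x)) := by
    intro x
    have e0 : C L 0 x = 1 := by unfold C; simp
    have e1 := CC L (a + 1) (b + 1) x
    have e2 := CC L (b + 1) (c + 1) x
    have e3 := CC L (a + 1) (c + 1) x
    have e4 := CC L (a - b) (c + 1) x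
    have e5 := CC L (a + b + 2) (c + 1) x
    have f1 : ((a:ℤ) + 1 - (b + 1)) = a - b := by ring
    have f2 : ((a:ℤ) + 1 + (b + 1)) = a + b + 2 := by ring
    have f3 : ((b:ℤ) + 1 - (c + 1)) = b - c := by ring
    have f4 : ((b:ℤ) + 1 + (c + 1)) = b + c + 2 := by ring
    have f5 : ((a:ℤ) + 1 - (c + 1)) = a - c := by ring
    have f6 : ((a:ℤ) + 1 + (c + 1)) = a + c + 2 := by ring
    have f7 : ((a:ℤ) - b - (c + 1)) = a - b - c - 1 := by ring
    have f8 : ((a:ℤ) - b + (c + 1)) = a - b + c + 1 := by ring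
    have f9 : ((a:ℤ) + b + 2 - (c + 1)) = a + b - c + 1 := by ring
    have f10 : ((a:ℤ) + b + 2 + (c + 1)) = a + b + c + 3 := by ring
    rw [f1, f2] at e1
    rw [f3, f4] at e2
    rw [f5, f6] at e3
    rw [f7, f8] at e4
    rw [f9, f10] at e5
    rw [A_eq, A_eq, A_eq, e0]
    have hL3 : (1:ℝ) / L ^ 3 = 1 / L * (1 / L) * (1 / L) := by field_simp
    rw [hL3]
    linear_combination (1 / L * (1 / L) * (1 / L)) * (e1 + e2 + e3 - C L (c + 1) x * e1 -
      1 / 2 * e4 - 1 / 2 * e5)
  simp only [h1]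
  rw [intervalIntegral.integral_const_mul]
  have i : ∀ k : ℤ, IntervalIntegrable (C L k) volume 0 L := fun k => C_ii k 0 L
  have j2 : ∀ k l : ℤ, IntervalIntegrable (fun x => 1 / 2 * (C L k x + C L l x)) volume 0 L :=
    fun k l => ((i k).add (i l)).const_mul _
  have j4 : ∀ k l p q : ℤ, IntervalIntegrable
      (fun x => 1 / 4 * (C L k x + C L l x + C L p x + C L q x)) volume 0 L :=
    fun k l p q => ((((i k).add (i l)).add (i p)).add (i q)).const_mul _
  have s2 : ∀ k l : ℤ, ∫ x in (0:ℝ)..L, 1 / 2 * (C L k x + C L l x) =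
      1 / 2 * (L * ind (k = 0) + L * ind (l = 0)) := by
    intro k l
    rw [intervalIntegral.integral_const_mul, intervalIntegral.integral_add (i k) (i l), C_int hL,
      C_int hL]
  have s4 : ∀ k l p q : ℤ, ∫ x in (0:ℝ)..L,
      1 / 4 * (C L k x + C L l x + C L p x + C L q x) =
      1 / 4 * (L * ind (k = 0) + L * ind (l = 0) + L * ind (p = 0) + L * ind (q = 0)) := by
    intro k l p q
    rw [intervalIntegral.integral_const_mul,
      intervalIntegral.integral_add (((i k).add (i l)).add (i p)) (i q),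
      intervalIntegral.integral_add ((i k).add (i l)) (i p),
      intervalIntegral.integral_add (i k) (i l), C_int hL, C_int hL, C_int hL, C_int hL]
  rw [intervalIntegral.integral_sub ((((((i _).sub (i _)).sub (i _)).sub (i _)).add (j2 _ _)).add
      (j2 _ _) |>.add (j2 _ _)) (j4 _ _ _ _),
    intervalIntegral.integral_add ((((((i _).sub (i _)).sub (i _)).sub (i _)).add (j2 _ _)).add
      (j2 _ _)) (j2 _ _),
    intervalIntegral.integral_add (((((i _).sub (i _)).sub (i _)).sub (i _)).add (j2 _ _))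
      (j2 _ _),
    intervalIntegral.integral_add ((((i _).sub (i _)).sub (i _)).sub (i _)) (j2 _ _),
    intervalIntegral.integral_sub (((i _).sub (i _)).sub (i _)) (i _),
    intervalIntegral.integral_sub ((i _).sub (i _)) (i _),
    intervalIntegral.integral_sub (i _) (i _), s4, s2, s2, s2, C_int hL, C_int hL, C_int hL,
    C_int hL]
  have g0 : ind ((0:ℤ) = 0) = 1 := by unfold ind; simp
  have g1 : ∀ n : ℕ, ind ((n:ℤ) + 1 = 0) = 0 := fun n => by
    unfold ind; rw [if_neg (by omega)]
  have g2 : ∀ n p : ℕ, ind ((n:ℤ) + p + 2 = 0) = 0 := fun n p => by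
    unfold ind; rw [if_neg (by omega)]
  have g3 : ind ((a:ℤ) + b + c + 3 = 0) = 0 := by
    unfold ind; rw [if_neg (by omega)]
  have g4 : ∀ n p : ℕ, ind ((n:ℤ) - p = 0) = ind (n = p) := fun n p => by
    unfold ind
    by_cases h : n = p
    · rw [if_pos h, if_pos (by omega)]
    · rw [if_neg h, if_neg (by omega)]
  have g5 : ind ((a:ℤ) - b - c - 1 = 0) = ind (b + c + 1 = a) := by
    unfold ind
    by_cases h : b + c + 1 = a
    · rw [if_pos h, if_pos (by omega)]
    · rw [if_neg h, if_neg (by omega)]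
  have g6 : ind ((a:ℤ) - b + c + 1 = 0) = ind (a + c + 1 = b) := by
    unfold ind
    by_cases h : a + c + 1 = b
    · rw [if_pos h, if_pos (by omega)]
    · rw [if_neg h, if_neg (by omega)]
  have g7 : ind ((a:ℤ) + b - c + 1 = 0) = ind (a + b + 1 = c) := by
    unfold ind
    by_cases h : a + b + 1 = c
    · rw [if_pos h, if_pos (by omega)]
    · rw [if_neg h, if_neg (by omega)]
  rw [g0, g1, g1, g1, g2, g2, g2, g3, g4, g4, g4, g5, g6, g7]
  field_simp
  ring

/-- the sum of the squares of the first `n` modes -/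
noncomputable def sg (L : ℝ) (n : ℕ) (x : ℝ) : ℝ := ∑ a ∈ Finset.range n, A L a x

theorem sg_cont (L : ℝ) (n : ℕ) : Continuous (sg L n) := by
  unfold sg
  exact continuous_finsetSum _ fun a _ => A_cont L a

theorem sg_nonneg (hL : 0 < L) (n : ℕ) (x : ℝ) : 0 ≤ sg L n x :=
  Finset.sum_nonneg fun a _ => A_nonneg hL a x

theorem ind_sum (n : ℕ) : ∑ b ∈ Finset.range n, ∑ c ∈ Finset.range n, ind (b = c) = n := by
  unfold ind
  have h : ∀ b ∈ Finset.range n, ∑ c ∈ Finset.range n, (if b = c then (1:ℝ) else 0) = 1 := by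
    intro b hb
    rw [Finset.sum_ite_eq, if_pos hb]
  rw [Finset.sum_congr rfl h]
  simp

theorem ind_sum2 (n : ℕ) :
    ∑ b ∈ Finset.range n, ∑ c ∈ Finset.range n, ind (b + c + 1 = n) = n := by
  unfold ind
  have h : ∀ b ∈ Finset.range n, ∑ c ∈ Finset.range n, (if b + c + 1 = n then (1:ℝ) else 0) =
      1 := by
    intro b hb
    rw [Finset.mem_range] at hb
    have h1 : ∀ c ∈ Finset.range n, (if b + c + 1 = n then (1:ℝ) else 0) =
        if n - 1 - b = c then 1 else 0 := by
      intro c _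
      by_cases h : b + c + 1 = n
      · rw [if_pos h, if_pos (by omega)]
      · rw [if_neg h, if_neg (by omega)]
    rw [Finset.sum_congr rfl h1, Finset.sum_ite_eq, if_pos (Finset.mem_range.2 (by omega))]
  rw [Finset.sum_congr rfl h]
  simp

/-- `∫ (σ_(n+1)³ - σ_n³)` -/
theorem M_eq (hL : 0 < L) (n : ℕ) :
    L ^ 2 * ∫ x in (0:ℝ)..L, ((sg L n x + A L n x) ^ 3 - sg L n x ^ 3) =
      3 * (n:ℝ) ^ 2 + 21 / 4 * n + 5 / 2 := by
  have h1 : ∀ x, (sg L n x + A L n x) ^ 3 - sg L n x ^ 3 =
      3 * (∑ b ∈ Finset.range n, ∑ c ∈ Finset.range n, A L n x * A L b x * A L c x) +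
      3 * (∑ c ∈ Finset.range n, A L n x * A L n x * A L c x) +
      A L n x * A L n x * A L n x := by
    intro x
    have e1 : ∑ b ∈ Finset.range n, ∑ c ∈ Finset.range n, A L n x * A L b x * A L c x =
        A L n x * (sg L n x * sg L n x) := by
      unfold sg
      rw [Finset.sum_mul_sum, Finset.mul_sum]
      refine Finset.sum_congr rfl fun b _ => ?_
      rw [Finset.mul_sum]
      exact Finset.sum_congr rfl fun c _ => by ring
    have e2 : ∑ c ∈ Finset.range n, A L n x * A L n x * A L c x =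
        A L n x * A L n x * sg L n x := by
      unfold sg
      rw [Finset.mul_sum]
    rw [e1, e2]; ring
  have ii : ∀ a b c : ℕ, IntervalIntegrable (fun x => A L a x * A L b x * A L c x) volume 0 L :=
    fun a b c => (((A_cont L a).mul (A_cont L b)).mul (A_cont L c)).intervalIntegrable 0 L
  simp only [h1]
  have i1 : IntervalIntegrable (fun x => 3 * (∑ b ∈ Finset.range n, ∑ c ∈ Finset.range n,
      A L n x * A L b x * A L c x)) volume 0 L := by
    refine IntervalIntegrable.const_mul ?_ _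
    refine Continuous.intervalIntegrable ?_ 0 L
    exact continuous_finsetSum _ fun b _ => continuous_finsetSum _ fun c _ =>
      ((A_cont L n).mul (A_cont L b)).mul (A_cont L c)
  have i2 : IntervalIntegrable (fun x => 3 * (∑ c ∈ Finset.range n,
      A L n x * A L n x * A L c x)) volume 0 L := by
    refine IntervalIntegrable.const_mul ?_ _
    refine Continuous.intervalIntegrable ?_ 0 L
    exact continuous_finsetSum _ fun c _ => ((A_cont L n).mul (A_cont L n)).mul (A_cont L c)
  have i3 : ∀ b : ℕ, IntervalIntegrable (fun x => ∑ c ∈ Finset.range n,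
      A L n x * A L b x * A L c x) volume 0 L := by
    intro b
    refine Continuous.intervalIntegrable ?_ 0 L
    exact continuous_finsetSum _ fun c _ => ((A_cont L n).mul (A_cont L b)).mul (A_cont L c)
  rw [intervalIntegral.integral_add (i1.add i2) (ii n n n), intervalIntegral.integral_add i1 i2,
    intervalIntegral.integral_const_mul, intervalIntegral.integral_const_mul,
    intervalIntegral.integral_finsetSum fun b _ => i3 b,
    intervalIntegral.integral_finsetSum fun c _ => ii n n c, mul_add, mul_add]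
  have e3 : L ^ 2 * (3 * ∑ b ∈ Finset.range n, ∫ x in (0:ℝ)..L, ∑ c ∈ Finset.range n,
      A L n x * A L b x * A L c x) = 3 * ((n:ℝ) ^ 2 + 1 / 2 * n - 1 / 4 * n) := by
    have e4 : ∀ b ∈ Finset.range n, L ^ 2 * ∫ x in (0:ℝ)..L, ∑ c ∈ Finset.range n,
        A L n x * A L b x * A L c x = ∑ c ∈ Finset.range n,
          (1 + 1 / 2 * ind (b = c) - 1 / 4 * ind (b + c + 1 = n)) := by
      intro b hb
      rw [Finset.mem_range] at hb
      rw [intervalIntegral.integral_finsetSum fun c _ => ii n b c, Finset.mul_sum]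
      refine Finset.sum_congr rfl fun c hc => ?_
      rw [Finset.mem_range] at hc
      rw [triple hL]
      have g1 : ind (n = b) = 0 := by unfold ind; rw [if_neg (by omega)]
      have g2 : ind (n = c) = 0 := by unfold ind; rw [if_neg (by omega)]
      have g3 : ind (n + b + 1 = c) = 0 := by unfold ind; rw [if_neg (by omega)]
      have g4 : ind (n + c + 1 = b) = 0 := by unfold ind; rw [if_neg (by omega)]
      rw [g1, g2, g3, g4]; ring
    have e5 : L ^ 2 * (3 * ∑ b ∈ Finset.range n, ∫ x in (0:ℝ)..L, ∑ c ∈ Finset.range n,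
        A L n x * A L b x * A L c x) = 3 * ∑ b ∈ Finset.range n,
          (L ^ 2 * ∫ x in (0:ℝ)..L, ∑ c ∈ Finset.range n, A L n x * A L b x * A L c x) := by
      rw [← Finset.mul_sum]; ring
    rw [e5, Finset.sum_congr rfl e4]
    simp only [Finset.sum_sub_distrib, Finset.sum_add_distrib, ← Finset.mul_sum]
    rw [ind_sum, ind_sum2]
    simp
    ring
  have e6 : L ^ 2 * (3 * ∑ c ∈ Finset.range n, ∫ x in (0:ℝ)..L,
      A L n x * A L n x * A L c x) = 3 * (3 / 2 * (n:ℝ)) := by
    have e4 : ∀ c ∈ Finset.range n, L ^ 2 * ∫ x in (0:ℝ)..L,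
        A L n x * A L n x * A L c x = 3 / 2 := by
      intro c hc
      rw [Finset.mem_range] at hc
      rw [triple hL]
      have g0 : ind (n = n) = 1 := by unfold ind; rw [if_pos rfl]
      have g2 : ind (n = c) = 0 := by unfold ind; rw [if_neg (by omega)]
      have g3 : ind (n + n + 1 = c) = 0 := by unfold ind; rw [if_neg (by omega)]
      have g4 : ind (n + c + 1 = n) = 0 := by unfold ind; rw [if_neg (by omega)]
      rw [g0, g2, g3, g4]; ring
    have e5 : L ^ 2 * (3 * ∑ c ∈ Finset.range n, ∫ x in (0:ℝ)..L,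
      A L n x * A L n x * A L c x) = 3 * ∑ c ∈ Finset.range n,
          (L ^ 2 * ∫ x in (0:ℝ)..L, A L n x * A L n x * A L c x) := by
      rw [← Finset.mul_sum]; ring
    rw [e5, Finset.sum_congr rfl e4]
    simp
    ring
  have e7 : L ^ 2 * ∫ x in (0:ℝ)..L, A L n x * A L n x * A L n x = 5 / 2 := by
    rw [triple hL]
    have g0 : ind (n = n) = 1 := by unfold ind; rw [if_pos rfl]
    have g3 : ind (n + n + 1 = n) = 0 := by unfold ind; rw [if_neg (by omega)]
    rw [g0, g3]; ring
  rw [e3, e6, e7]; ring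

end Pool.Agent.H45.LT.Di
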