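import Mathlib
import Pool.Graph.R_seed8.Helper717.LT.P_core
import Pool.Graph.R_seed8.Helper717.LT.P_const_final
import Pool.Graph.R_seed8.Helper717.LT.P_final_thm

set_option autoImplicit false

/-!
# The semiclassical inequalities for finite families and their Gram matrices
-/

open MeasureTheory Set Filter Topology Real
open scoped Matrix
open LTd (pd bco pp cc Kcl Mat PSD T_all T_slice specP)

namespace Pool.Agent.H45.LT.Ly

theorem Kcl_eq {d : ℕ} (hd : 1 ≤ d) {t : ℝ} (ht : t = (d:ℝ) / 2) :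
    Kcl d = t / (1 + t) * (4 * π) * Gamma (t + 1) ^ (1 / t) := by
  have hd0 : (0:ℝ) < d := by exact_mod_cast hd
  have htp : 0 < t := by rw [ht]; positivity
  have hpi := Real.pi_pos
  have hG : 0 < Gamma (t + 1) := Real.Gamma_pos_of_pos (by positivity)
  have hne : Nonempty (Fin d) := ⟨⟨0, hd⟩⟩
  have hvol : (volume (Metric.ball (0 : EuclideanSpace ℝ (Fin d)) 1)).toReal
      = π ^ t / Gamma (t + 1) := by
    rw [EuclideanSpace.volume_ball]
    simp only [Fintype.card_fin, ENNReal.ofReal_one, one_pow, one_mul]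
    rw [← ht]
    have e3 : √π ^ d = π ^ t := by
      rw [Real.sqrt_eq_rpow, ← Real.rpow_natCast, ← Real.rpow_mul hpi.le]
      congr 1
      rw [ht]; ring
    rw [e3, ENNReal.toReal_ofReal (by positivity)]
  unfold Kcl
  rw [hvol]
  have e4 : ((2 : ℝ) / (d : ℝ)) = 1 / t := by
    rw [ht]; field_simp
  have hr : ∀ x : ℝ, 0 ≤ x → (x ^ t) ^ (1 / t) = x := by
    intro x hx
    rw [← Real.rpow_mul hx, mul_one_div_cancel htp.ne', Real.rpow_one]
  rw [e4, Real.div_rpow (by positivity) hG.le, hr π hpi.le]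
  have e6 : (d:ℝ) / ((d:ℝ) + 2) = t / (1 + t) := by
    rw [ht]; field_simp; ring
  rw [e6]
  have hGt : 0 < Gamma (t + 1) ^ (1 / t) := Real.rpow_pos_of_pos hG _
  field_simp
  ring

theorem const_two (m : ℕ) : bco (m / 2) 2 (2 * π) = Kcl (m + 2) := by
  set t : ℝ := ((m : ℝ) + 2) / 2 with ht
  have htp : 0 < t := by rw [ht]; positivity
  have hpi := Real.pi_pos
  have hG : 0 < Gamma (t + 1) := Real.Gamma_pos_of_pos (by positivity)
  rw [Kcl_eq (d := m + 2) (by omega) (t := t) (by rw [ht]; push_cast; ring)]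
  unfold bco LTd.JJ
  have e1 : (2 : ℝ) + (m : ℝ) / 2 = 1 + t := by rw [ht]; ring
  have e2 : (2 : ℝ) + 1 + (m : ℝ) / 2 = (t + 1) + 1 := by rw [ht]; ring
  have e3 : (m : ℝ) / 2 = t - 1 := by rw [ht]; ring
  have e7 : (1 / ((2 : ℝ) + (m : ℝ) / 2 - 1)) = 1 / t := by rw [e1]; congr 1; ring
  rw [e7, e1, e2, e3, Real.Gamma_add_one (by positivity)]
  have e5 : cc (1 + t) = (t / (1 + t)) ^ t / (1 + t) := by
    unfold cc
    rw [show (1 + t - 1) = t by ring, Real.rpow_add (by positivity), Real.rpow_one,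
      Real.div_rpow htp.le (by positivity)]
    field_simp
  have e8 : cc 2 = 1 / 4 := by
    unfold cc
    norm_num
  have e9 : Gamma (2 + 1 : ℝ) = 2 := by
    have := Real.Gamma_nat_eq_factorial 2
    norm_num at this ⊢
  have e10 : (4 * π : ℝ) ^ (t - 1) = (4 * π) ^ t / (4 * π) := by
    rw [Real.rpow_sub (by positivity), Real.rpow_one]
  have e11 : (2 * π : ℝ) ^ ((2:ℝ) - 1) = 2 * π := by
    norm_num
  rw [e5, e8, e9, e10, e11]
  have e12 : (t / (1 + t)) ^ t / (1 + t) * ((4 * π) ^ t / (4 * π)) * ((t + 1) * Gamma (t + 1)) /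
      (1 / 4 * 2) * (2 * π) = (t / (1 + t)) ^ t * (4 * π) ^ t * Gamma (t + 1) := by
    field_simp
    try ring
  rw [e12]
  have hr : ∀ x : ℝ, 0 ≤ x → (x ^ t) ^ (1 / t) = x := by
    intro x hx
    rw [← Real.rpow_mul hx, mul_one_div_cancel htp.ne', Real.rpow_one]
  rw [Real.mul_rpow (by positivity) hG.le, Real.mul_rpow (by positivity) (by positivity),
    hr _ (by positivity), hr _ (by positivity)]

theorem const_one (m : ℕ) : bco (m / 2) (3 / 2) (π ^ 2 / 3) = Kcl (m + 1) := by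
  have hpi := Real.pi_pos
  have h0 := LTd.const_final m
  have hm : (0:ℝ) ≤ m := Nat.cast_nonneg m
  -- scaling in `a`
  have h1 : bco (m / 2) (3 / 2) (π ^ 2 / 3) =
      (4 / 3 : ℝ) ^ (1 / ((m:ℝ) + 1)) * bco (m / 2) (3 / 2) (π ^ 2 / 4) := by
    unfold bco
    have hJ : 0 ≤ LTd.JJ ((m:ℝ) / 2) (3 / 2) := by
      unfold LTd.JJ
      have h1 : 0 < cc (3 / 2 + (m:ℝ) / 2) := LTd.bco_cc_pos (by linarith)
      have h2 : 0 < cc (3 / 2) := LTd.bco_cc_pos (by norm_num)
      have h3 : 0 < Gamma (3 / 2 + 1 + (m:ℝ) / 2) := Real.Gamma_pos_of_pos (by linarith)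
      have h4 : 0 < Gamma (3 / 2 + 1 : ℝ) := Real.Gamma_pos_of_pos (by norm_num)
      positivity
    have e1 : (π ^ 2 / 3 : ℝ) = 4 / 3 * (π ^ 2 / 4) := by ring
    have e2 : ((3:ℝ) / 2 - 1) = 1 / 2 := by norm_num
    have e3 : (4 / 3 : ℝ) ^ (1 / ((m:ℝ) + 1)) =
        ((4 / 3 : ℝ) ^ (1 / 2 : ℝ)) ^ (1 / (3 / 2 + (m:ℝ) / 2 - 1)) := by
      rw [← Real.rpow_mul (by norm_num)]
      congr 1
      have : (m:ℝ) + 1 ≠ 0 := by positivity
      have e4 : (3 / 2 + (m:ℝ) / 2 - 1) = ((m:ℝ) + 1) / 2 := by ring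
      rw [e4]
      field_simp
    rw [e1, e2, e3, Real.mul_rpow (x := (4 / 3 : ℝ)) (y := π ^ 2 / 4) (by norm_num)
      (by positivity)]
    have h2 : 0 ≤ LTd.JJ ((m:ℝ) / 2) (3 / 2) * (π ^ 2 / 4) ^ (1 / 2 : ℝ) :=
      mul_nonneg hJ (by positivity)
    rw [← Real.mul_rpow (by positivity) h2]
    congr 1
    ring
  rw [h1, h0, ← mul_assoc, ← Real.mul_rpow (by norm_num) (by norm_num)]
  norm_num

/-! ### Gram matrices -/

/-- the Gram matrix -/
noncomputable def Gr {m n : ℕ} (w : Fin n → (Fin m → ℝ) → ℝ) : Mat n :=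
  Matrix.of fun i j => ∫ x, w i x * w j x

theorem Gr_psd {m n : ℕ} (w : Fin n → (Fin m → ℝ) → ℝ) (hw : ∀ i, Continuous (w i))
    (hc : ∀ i, HasCompactSupport (w i)) : PSD (Gr w) := by
  refine ⟨fun i j => ?_, fun v => ?_⟩
  · simp only [Gr, Matrix.of_apply]
    congr 1; funext x; ring
  · have iW : ∀ i j, Integrable (fun z => w i z * w j z) volume := fun i j =>
      ((hw i).mul (hw j)).integrable_of_hasCompactSupport ((hc i).mul_right)
    have h1 : ∫ x, (∑ i, v i * w i x) ^ 2 = ∑ i, ∑ j, v i * v j * Gr w i j := by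
      have h2 : ∀ x, (∑ i, v i * w i x) ^ 2 = ∑ i, ∑ j, v i * v j * (w i x * w j x) := by
        intro x
        rw [sq, Finset.sum_mul_sum]
        refine Finset.sum_congr rfl fun i _ => Finset.sum_congr rfl fun j _ => ?_
        ring
      rw [integral_congr_ae (Eventually.of_forall h2), integral_finsetSum]
      · refine Finset.sum_congr rfl fun i _ => ?_
        rw [integral_finsetSum]
        · refine Finset.sum_congr rfl fun j _ => ?_
          rw [integral_const_mul]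
          rfl
        · intro j _
          exact (iW i j).const_mul _
      · intro i _
        exact integrable_finsetSum _ fun j _ => (iW i j).const_mul _
    rw [← h1]
    exact integral_nonneg fun x => sq_nonneg _

/-- the inequality with the square of the Gram matrix -/
theorem slice2 {m n : ℕ} (w : Fin n → (Fin m → ℝ) → ℝ) (hw : ∀ i, ContDiff ℝ 1 (w i))
    (hc : ∀ i, HasCompactSupport (w i)) :
    Kcl (m + 2) * ∫ x, (∑ i, w i x ^ 2) ^ (1 + 2 / ((m + 2 : ℕ) : ℝ)) ≤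
      (∫ x, ∑ k, ∑ i, pd k (w i) x ^ 2) + 2 * π * ∑ i, ∑ j, Gr w i j ^ 2 := by
  obtain ⟨V, r, hV, hV', hr, hR⟩ := specP (Gr_psd w (fun i => (hw i).continuous) hc)
  have h := T_slice (m := m) (n := n) (g := 2) (a := 2 * π) (by positivity)
    (T_all m 2 (by norm_num)) w hw hc V r hV hV' hR
  have e1 : pp (2 + (m:ℝ) / 2) = 1 + 2 / ((m + 2 : ℕ) : ℝ) := by
    unfold pp
    push_cast
    have h1 : (m : ℝ) + 2 ≠ 0 := by positivity
    have h2 : (2 + (m : ℝ) / 2 - 1) = ((m : ℝ) + 2) / 2 := by ring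
    rw [h2]
    field_simp
    ring
  have e2 : pp 2 = ((2:ℕ):ℝ) := by unfold pp; norm_num
  have e3 : ∑ i, r i ^ pp 2 = ∑ i, ∑ j, Gr w i j ^ 2 := by
    have e4 : Gr w * Gr w = V * Matrix.diagonal (fun i => r i ^ 2) * Vᵀ := by
      rw [hR]
      calc (V * Matrix.diagonal r * Vᵀ) * (V * Matrix.diagonal r * Vᵀ)
          = V * Matrix.diagonal r * (Vᵀ * V) * Matrix.diagonal r * Vᵀ := by
            simp only [Matrix.mul_assoc]
        _ = V * (Matrix.diagonal r * Matrix.diagonal r) * Vᵀ := by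
            rw [hV', Matrix.mul_one]; simp only [Matrix.mul_assoc]
        _ = _ := by
            rw [Matrix.diagonal_mul_diagonal]
            congr 3; funext i; ring
    have e5 : (Gr w * Gr w).trace = ∑ i, r i ^ 2 := by
      rw [e4, Matrix.trace_mul_comm, ← Matrix.mul_assoc, hV', Matrix.one_mul,
        Matrix.trace_diagonal]
    have e6 : (Gr w * Gr w).trace = ∑ i, ∑ j, Gr w i j ^ 2 := by
      rw [Matrix.trace]
      refine Finset.sum_congr rfl fun i _ => ?_
      rw [Matrix.diag_apply, Matrix.mul_apply]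
      refine Finset.sum_congr rfl fun j _ => ?_
      rw [(Gr_psd w (fun i => (hw i).continuous) hc).1 j i]; ring
    rw [← e6, e5, e2]
    simp only [Real.rpow_natCast]
  rw [const_two, e1, e3] at h
  exact h

/-- the inequality with the cube of the Gram matrix and the constant `π² / 3` -/
theorem slice1 {m n : ℕ} (w : Fin n → (Fin m → ℝ) → ℝ) (hw : ∀ i, ContDiff ℝ 1 (w i))
    (hc : ∀ i, HasCompactSupport (w i)) :
    Kcl (m + 1) * ∫ x, (∑ i, w i x ^ 2) ^ (1 + 2 / ((m + 1 : ℕ) : ℝ)) ≤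
      (∫ x, ∑ k, ∑ i, pd k (w i) x ^ 2) +
        π ^ 2 / 3 * ∑ i, ∑ j, ∑ l, Gr w i j * Gr w j l * Gr w l i := by
  obtain ⟨V, r, hV, hV', hr, hR⟩ := specP (Gr_psd w (fun i => (hw i).continuous) hc)
  have h := T_slice (m := m) (n := n) (g := 3 / 2) (a := π ^ 2 / 3) (by positivity)
    (T_all m (3 / 2) le_rfl) w hw hc V r hV hV' hR
  have e2 : pp (3 / 2) = ((3:ℕ):ℝ) := by unfold pp; norm_num
  have e3 : ∑ i, r i ^ pp (3 / 2) = ∑ i, ∑ j, ∑ l, Gr w i j * Gr w j l * Gr w l i := by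
    have e4 : Gr w * Gr w * Gr w = V * Matrix.diagonal (fun i => r i ^ 3) * Vᵀ := by
      have e4 : ∀ X Y : Mat n, (V * X * Vᵀ) * (V * Y * Vᵀ) = V * (X * Y) * Vᵀ := by
        intro X Y
        calc (V * X * Vᵀ) * (V * Y * Vᵀ) = V * X * (Vᵀ * V) * Y * Vᵀ := by
              simp only [Matrix.mul_assoc]
          _ = _ := by rw [hV', Matrix.mul_one]; simp only [Matrix.mul_assoc]
      rw [hR, e4, e4, Matrix.diagonal_mul_diagonal, Matrix.diagonal_mul_diagonal]
      congr 3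
      funext i
      ring
    have e5 : (Gr w * Gr w * Gr w).trace = ∑ i, r i ^ 3 := by
      rw [e4, Matrix.trace_mul_comm, ← Matrix.mul_assoc, hV', Matrix.one_mul,
        Matrix.trace_diagonal]
    have e6 : (Gr w * Gr w * Gr w).trace = ∑ i, ∑ j, ∑ l, Gr w i j * Gr w j l * Gr w l i := by
      rw [Matrix.trace]
      refine Finset.sum_congr rfl fun i _ => ?_
      rw [Matrix.diag_apply, Matrix.mul_apply]
      simp only [Matrix.mul_apply, Finset.sum_mul]
      rw [Finset.sum_comm]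
    rw [← e6, e5, e2]
    simp only [Real.rpow_natCast]
  rw [const_one, LTd.final_thm_pp, e3] at h
  exact h

end Pool.Agent.H45.LT.Ly
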