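import Mathlib

set_option autoImplicit false

/-!
# Hermite polynomials and Gaussian integrals of polynomials
-/

open MeasureTheory Set Real Polynomial

namespace Pool.Agent.H45.LT.Osc

/-- `∫ p(x) exp (-b x²) dx` -/
noncomputable def E (b : ℝ) (p : ℝ[X]) : ℝ := ∫ x : ℝ, p.eval x * Real.exp (-b * x ^ 2)

theorem gint {b : ℝ} (hb : 0 < b) (p : ℝ[X]) :
    Integrable fun x : ℝ => p.eval x * Real.exp (-b * x ^ 2) := by
  induction p using Polynomial.induction_on' with
  | add p q hp hq =>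
    refine (hp.add hq).congr (ae_of_all _ fun x => ?_)
    simp only [eval_add, Pi.add_apply]; ring
  | monomial n a =>
    have h := (integrable_rpow_mul_exp_neg_mul_sq hb
      (show (-1:ℝ) < (n:ℝ) by have : (0:ℝ) ≤ (n:ℝ) := Nat.cast_nonneg n; linarith)).const_mul a
    refine h.congr (ae_of_all _ fun x => ?_)
    simp only [eval_monomial, Real.rpow_natCast]; ring

theorem E_add {b : ℝ} (hb : 0 < b) (p q : ℝ[X]) : E b (p + q) = E b p + E b q := by
  rw [E, E, E, ← integral_add (gint hb p) (gint hb q)]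
  refine integral_congr_ae (ae_of_all _ fun x => ?_)
  simp only [eval_add]; ring

theorem E_C_mul (b c : ℝ) (p : ℝ[X]) : E b (C c * p) = c * E b p := by
  rw [E, E, ← integral_const_mul]
  refine integral_congr_ae (ae_of_all _ fun x => ?_)
  simp only [eval_mul, eval_C]; ring

theorem E_sub {b : ℝ} (hb : 0 < b) (p q : ℝ[X]) : E b (p - q) = E b p - E b q := by
  have h : p - q = p + C (-1) * q := by
    simp only [C_neg, C_1]; ring
  rw [h, E_add hb, E_C_mul]; ring

theorem E_one (b : ℝ) : E b 1 = √(π / b) := by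
  rw [E]
  simp only [eval_one, one_mul]
  exact integral_gaussian b

theorem E_deriv {b : ℝ} (hb : 0 < b) (p : ℝ[X]) :
    E b (derivative p) = 2 * b * E b (X * p) := by
  have h1 : ∀ x : ℝ, HasDerivAt (fun x : ℝ => p.eval x * Real.exp (-b * x ^ 2))
      ((derivative p - C (2 * b) * (X * p)).eval x * Real.exp (-b * x ^ 2)) x := by
    intro x
    have h2 : HasDerivAt (fun x : ℝ => Real.exp (-b * x ^ 2))
        (Real.exp (-b * x ^ 2) * (-b * (2 * x))) x := by
      have h3 : HasDerivAt (fun x : ℝ => -b * x ^ 2) (-b * (2 * x)) x := by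
        have := (hasDerivAt_pow 2 x).const_mul (-b)
        simpa using this
      exact h3.exp
    have h4 := (p.hasDerivAt x).mul h2
    refine h4.congr_deriv ?_
    simp only [eval_sub, eval_mul, eval_C, eval_X]; ring
  have h2 := integral_eq_zero_of_hasDerivAt_of_integrable h1
    (gint hb (derivative p - C (2 * b) * (X * p))) (gint hb p)
  have h3 : E b (derivative p - C (2 * b) * (X * p)) = 0 := h2
  rw [E_sub hb, E_C_mul] at h3
  linarith

/-! ### The Hermite polynomials -/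

theorem derivative_hermite (n : ℕ) :
    derivative (hermite (n + 1)) = C ((n : ℤ) + 1) * hermite n := by
  induction n with
  | zero => simp [hermite_succ, hermite_zero]
  | succ n ih =>
    have h2 : derivative (hermite (n + 2)) = derivative (X * hermite (n + 1) -
        derivative (hermite (n + 1))) := by rw [← hermite_succ]
    rw [h2, derivative_sub, derivative_mul, derivative_X, ih, derivative_C_mul]
    have h3 : derivative (hermite n) = X * hermite n - hermite (n + 1) := by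
      rw [hermite_succ]; ring
    rw [h3]
    push_cast
    simp only [C_add, C_1]
    ring

/-- `h_n(x) = P_n(x) exp (- x² / 2)` with the `n`-th normalized Hermite function `h_n` -/
noncomputable def P (n : ℕ) : ℝ[X] :=
  C (1 / √(n.factorial * √π)) * ((hermite n).map (Int.castRingHom ℝ)).comp (C √2 * X)

theorem P_zero : P 0 = C (1 / √(√π)) := by
  simp [P]

theorem sqrt_pi_pos : 0 < √π := Real.sqrt_pos.2 pi_pos

theorem nrm (n : ℕ) : 0 < √((n.factorial : ℝ) * √π) :=
  Real.sqrt_pos.2 (mul_pos (by exact_mod_cast n.factorial_pos) sqrt_pi_pos)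

theorem nrm_succ (n : ℕ) :
    √(((n + 1).factorial : ℝ) * √π) = √((n:ℝ) + 1) * √((n.factorial : ℝ) * √π) := by
  rw [Nat.factorial_succ, ← Real.sqrt_mul (by positivity)]
  push_cast
  congr 1
  ring

/-- `P_n' = √(2 n) P_(n-1)` -/
theorem P_deriv (n : ℕ) : derivative (P (n + 1)) = C (√2 * √((n:ℝ) + 1)) * P n := by
  have h0 : (0:ℝ) < (n:ℝ) + 1 := by positivity
  have hs : (0:ℝ) < √((n:ℝ) + 1) := Real.sqrt_pos.2 h0
  have h1 : derivative ((hermite (n + 1)).map (Int.castRingHom ℝ)) =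
      C ((n:ℝ) + 1) * (hermite n).map (Int.castRingHom ℝ) := by
    rw [derivative_map, derivative_hermite, Polynomial.map_mul, Polynomial.map_C]
    simp
  rw [P, P, derivative_C_mul, derivative_comp, h1, derivative_C_mul, derivative_X, mul_one,
    mul_comp, C_comp, nrm_succ]
  have h2 : (C (√2 * √((n:ℝ) + 1)) * (C (1 / √((n.factorial:ℝ) * √π)) *
      ((hermite n).map (Int.castRingHom ℝ)).comp (C √2 * X)) : ℝ[X]) =
      C (√2 * √((n:ℝ) + 1) * (1 / √((n.factorial:ℝ) * √π))) *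
      ((hermite n).map (Int.castRingHom ℝ)).comp (C √2 * X) := by
    rw [C_mul (a := √2 * √((n:ℝ) + 1))]; ring
  have h3 : (C (1 / (√((n:ℝ) + 1) * √((n.factorial:ℝ) * √π))) * (C √2 * (C ((n:ℝ) + 1) *
      ((hermite n).map (Int.castRingHom ℝ)).comp (C √2 * X))) : ℝ[X]) =
      C (1 / (√((n:ℝ) + 1) * √((n.factorial:ℝ) * √π)) * (√2 * ((n:ℝ) + 1))) *
      ((hermite n).map (Int.castRingHom ℝ)).comp (C √2 * X) := by
    rw [C_mul, C_mul]; ring
  rw [h2, h3]
  congr 2
  have hn := nrm n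
  have h4 : √((n:ℝ) + 1) * √((n:ℝ) + 1) = (n:ℝ) + 1 := Real.mul_self_sqrt h0.le
  field_simp
  nlinarith [h4]

/-- `√(n+2) P_(n+2) = √2 x P_(n+1) - √(n+1) P_n` -/
theorem P_rec (n : ℕ) : C √((n:ℝ) + 2) * P (n + 2) =
    C √2 * (X * P (n + 1)) - C √((n:ℝ) + 1) * P n := by
  have h0 : (0:ℝ) < (n:ℝ) + 1 := by positivity
  have h0' : (0:ℝ) < (n:ℝ) + 2 := by positivity
  have hs : (0:ℝ) < √((n:ℝ) + 1) := Real.sqrt_pos.2 h0
  have hs' : (0:ℝ) < √((n:ℝ) + 2) := Real.sqrt_pos.2 h0'
  have h4 : √((n:ℝ) + 1) * √((n:ℝ) + 1) = (n:ℝ) + 1 := Real.mul_self_sqrt h0.le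
  have h1 : (hermite (n + 2)).map (Int.castRingHom ℝ) =
      X * (hermite (n + 1)).map (Int.castRingHom ℝ) - C ((n:ℝ) + 1) *
        (hermite n).map (Int.castRingHom ℝ) := by
    rw [hermite_succ, derivative_hermite, Polynomial.map_sub, Polynomial.map_mul,
      Polynomial.map_mul, Polynomial.map_C, Polynomial.map_X]
    simp
  have hn := nrm n
  have e1 : √(((n + 1).factorial : ℝ) * √π) = √((n:ℝ) + 1) * √((n.factorial : ℝ) * √π) :=
    nrm_succ n
  have e2 : √(((n + 2).factorial : ℝ) * √π) =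
      √((n:ℝ) + 2) * (√((n:ℝ) + 1) * √((n.factorial : ℝ) * √π)) := by
    rw [nrm_succ (n + 1), e1]
    push_cast
    congr 2
    ring
  rw [P, P, P, h1, e1, e2, sub_comp, mul_comp, mul_comp, X_comp, C_comp]
  generalize hA : ((hermite (n + 1)).map (Int.castRingHom ℝ)).comp (C √2 * X) = A
  generalize hB : ((hermite n).map (Int.castRingHom ℝ)).comp (C √2 * X) = B
  set s := √((n.factorial : ℝ) * √π) with hsdef
  have c1 : √((n:ℝ) + 2) * (1 / (√((n:ℝ) + 2) * (√((n:ℝ) + 1) * s))) =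
      1 / (√((n:ℝ) + 1) * s) := by field_simp
  have c2 : √((n:ℝ) + 1) * (1 / s) = 1 / (√((n:ℝ) + 1) * s) * ((n:ℝ) + 1) := by
    field_simp
    nlinarith [h4]
  have h5 : (C √((n:ℝ) + 2) * (C (1 / (√((n:ℝ) + 2) * (√((n:ℝ) + 1) * s))) *
      (C √2 * X * A - C ((n:ℝ) + 1) * B)) : ℝ[X]) =
      C (√((n:ℝ) + 2) * (1 / (√((n:ℝ) + 2) * (√((n:ℝ) + 1) * s)))) *
      (C √2 * X * A) - C (√((n:ℝ) + 2) * (1 / (√((n:ℝ) + 2) * (√((n:ℝ) + 1) * s)))) *
        (C ((n:ℝ) + 1) * B) := by
    rw [C_mul]; ring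
  rw [h5, c1]
  have h6 : (C √((n:ℝ) + 1) * (C (1 / s) * B) : ℝ[X]) =
      C (1 / (√((n:ℝ) + 1) * s)) * (C ((n:ℝ) + 1) * B) := by
    rw [← mul_assoc, ← C_mul, c2, C_mul]; ring
  rw [h6]
  ring

/-- `P_1 = √2 x P_0` -/
theorem P_one : P 1 = C √2 * (X * P 0) := by
  have e1 : √(((0 + 1).factorial : ℝ) * √π) = √((0:ℝ) + 1) * √(((0:ℕ).factorial : ℝ) * √π) := by
    have := nrm_succ 0
    push_cast at this
    exact this
  simp only [P, hermite_one, hermite_zero]
  simp
  ring

end Pool.Agent.H45.LT.Osc
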