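import Mathlib
import Pool.Agent.H45.LT.Osc1

set_option autoImplicit false

/-!
# Orthonormality of the Hermite functions and the recursions for the quartic integrals
-/

open MeasureTheory Set Real Polynomial

namespace Pool.Agent.H45.LT.Osc

theorem P_rec' (n : ℕ) : C √((n:ℝ) + 1) * P (n + 1) =
    C √2 * (X * P n) - C √(n:ℝ) * P (n - 1) := by
  cases n with
  | zero => simp [P_one]
  | succ n =>
    have h := P_rec n
    push_cast
    rw [show (n:ℝ) + 1 + 1 = (n:ℝ) + 2 by ring]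
    exact h

theorem P_deriv' (n : ℕ) : derivative (P n) = C (√2 * √(n:ℝ)) * P (n - 1) := by
  cases n with
  | zero => simp [P_zero]
  | succ n =>
    rw [P_deriv]
    push_cast
    rfl

/-- `2 b ∫ x φ = ∫ φ'` and the product rule -/
theorem E_X {b : ℝ} (hb : 0 < b) (p : ℝ[X]) : 2 * b * E b (X * p) = E b (derivative p) :=
  (E_deriv hb p).symm

theorem sqrt2 : √2 * √2 = 2 := Real.mul_self_sqrt (by norm_num)

theorem ortho_step (m n : ℕ) :
    √((m:ℝ) + 1) * E 1 (P (m + 1) * P n) = √(n:ℝ) * E 1 (P m * P (n - 1)) := by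
  have h1 : C √((m:ℝ) + 1) * (P (m + 1) * P n) =
      C √2 * (X * (P m * P n)) - C √(m:ℝ) * (P (m - 1) * P n) := by
    linear_combination (P_rec' m) * P n
  have h2 : derivative (P m * P n) =
      C (√2 * √(m:ℝ)) * (P (m - 1) * P n) + C (√2 * √(n:ℝ)) * (P m * P (n - 1)) := by
    rw [derivative_mul, P_deriv', P_deriv']; ring
  have h3 := E_X one_pos (P m * P n)
  rw [h2, E_add one_pos, E_C_mul, E_C_mul] at h3
  have h4 : √((m:ℝ) + 1) * E 1 (P (m + 1) * P n) = √2 * E 1 (X * (P m * P n)) -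
      √(m:ℝ) * E 1 (P (m - 1) * P n) := by
    rw [← E_C_mul, ← E_C_mul, ← E_C_mul, ← E_sub one_pos, h1]
  rw [h4]
  have h5 := sqrt2
  have h6 : √2 * (2 * 1 * E 1 (X * (P m * P n))) = √2 * (√2 * √(m:ℝ) * E 1 (P (m - 1) * P n) +
      √2 * √(n:ℝ) * E 1 (P m * P (n - 1))) := by rw [h3]
  linear_combination (1 / 2) * h6 + (1 / 2) * (√(m:ℝ) * E 1 (P (m - 1) * P n) +
    √(n:ℝ) * E 1 (P m * P (n - 1))) * h5

theorem P_zero_sq : P 0 * P 0 = C (1 / √π) := by
  rw [P_zero, ← C_mul]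
  congr 1
  have h := Real.mul_self_sqrt (show 0 ≤ √π from Real.sqrt_nonneg _)
  have h1 : 0 < √(√π) := Real.sqrt_pos.2 sqrt_pi_pos
  rw [div_mul_div_comm, h, one_mul]

/-- orthonormality -/
theorem ortho : ∀ m n : ℕ, E 1 (P m * P n) = if m = n then 1 else 0
  | 0, 0 => by
    rw [P_zero_sq]
    have h : (C (1 / √π) : ℝ[X]) = C (1 / √π) * 1 := by rw [mul_one]
    rw [h, E_C_mul, E_one]
    simp [sqrt_pi_pos.ne']
  | 0, n + 1 => by
    have h := ortho_step n 0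
    simp only [Nat.cast_zero, Real.sqrt_zero, zero_mul] at h
    have h1 : (0:ℝ) < √((n:ℝ) + 1) := Real.sqrt_pos.2 (by positivity)
    rw [mul_comm (P 0)]
    simpa [h1.ne'] using h
  | m + 1, 0 => by
    have h := ortho_step m 0
    simp only [Nat.cast_zero, Real.sqrt_zero, zero_mul] at h
    have h1 : (0:ℝ) < √((m:ℝ) + 1) := Real.sqrt_pos.2 (by positivity)
    simpa [h1.ne'] using h
  | m + 1, n + 1 => by
    have h := ortho_step m (n + 1)
    have h1 : (0:ℝ) < √((m:ℝ) + 1) := Real.sqrt_pos.2 (by positivity)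
    have h2 : (0:ℝ) < √((n:ℝ) + 1) := Real.sqrt_pos.2 (by positivity)
    rw [Nat.add_sub_cancel, ortho m n] at h
    push_cast at h
    by_cases hmn : m = n
    · subst hmn
      rw [if_pos rfl, mul_one] at h
      rw [if_pos rfl]
      exact mul_left_cancel₀ h1.ne' (by rw [h, mul_one])
    · rw [if_neg hmn, mul_zero] at h
      rw [if_neg (by omega)]
      simpa [h1.ne'] using h

/-- the derivative of the Hermite function -/
theorem P_flow (n : ℕ) : derivative (P n) - X * P n =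
    C (1 / √2) * (C √(n:ℝ) * P (n - 1) - C √((n:ℝ) + 1) * P (n + 1)) := by
  have h := P_rec' n
  rw [P_deriv', h]
  have h1 : (C (1 / √2) * C √2 : ℝ[X]) = 1 := by
    rw [← C_mul]
    have : (0:ℝ) < √2 := Real.sqrt_pos.2 (by norm_num)
    rw [one_div, inv_mul_cancel₀ this.ne', C_1]
  have h2 : (C (1 / √2) * (C √(n:ℝ) * P (n - 1) - (C √2 * (X * P n) - C √(n:ℝ) * P (n - 1))) :
      ℝ[X]) = C (1 / √2) * C (2 * √(n:ℝ)) * P (n - 1) - (C (1 / √2) * C √2) * (X * P n) := by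
    rw [C_mul (a := (2:ℝ)), show (C (2:ℝ) : ℝ[X]) = 2 from rfl]; ring
  rw [h2, h1, one_mul, ← C_mul]
  congr 2
  have h3 := sqrt2
  have h4 : (0:ℝ) < √2 := Real.sqrt_pos.2 (by norm_num)
  congr 1
  field_simp
  rw [sq, h3]; ring

/-- `∫ (h_m') (h_n')` for `m = n` -/
theorem flow_sq (n : ℕ) : E 1 ((derivative (P n) - X * P n) * (derivative (P n) - X * P n)) =
    (n:ℝ) + 1 / 2 := by
  rw [P_flow]
  have h1 : ((C (1 / √2) * (C √(n:ℝ) * P (n - 1) - C √((n:ℝ) + 1) * P (n + 1))) *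
      (C (1 / √2) * (C √(n:ℝ) * P (n - 1) - C √((n:ℝ) + 1) * P (n + 1))) : ℝ[X]) =
      C (1 / √2 * (1 / √2) * (√(n:ℝ) * √(n:ℝ))) * (P (n - 1) * P (n - 1)) +
      C (1 / √2 * (1 / √2) * (√((n:ℝ) + 1) * √((n:ℝ) + 1))) * (P (n + 1) * P (n + 1)) -
      C (2 * (1 / √2 * (1 / √2) * (√(n:ℝ) * √((n:ℝ) + 1)))) * (P (n - 1) * P (n + 1)) := by
    simp only [C_mul, show (C (2:ℝ) : ℝ[X]) = 2 from rfl]; ring
  rw [h1, E_sub one_pos, E_add one_pos, E_C_mul, E_C_mul, E_C_mul, ortho, ortho, ortho,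
    if_pos rfl, if_pos rfl, if_neg (by omega), Real.mul_self_sqrt (by positivity),
    Real.mul_self_sqrt (by positivity)]
  have h2 : (1 / √2 * (1 / √2) : ℝ) = 1 / 2 := by
    rw [div_mul_div_comm, sqrt2, one_mul]
  rw [h2]; ring

/-! ### The quartic integrals -/

/-- `∫ h_a h_a' h_c ^ 2` -/
noncomputable def J (a a' c : ℕ) : ℝ := E 2 (P a * P a' * (P c * P c))

theorem J_symm (a a' c : ℕ) : J a a' c = J a' a c := by
  rw [J, J]; congr 1; ring

/-- `2 √(2 c) ∫ φ P_c P_(c-1) = ∫ φ' P_(c-1)²` -/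
theorem lad (φ : ℝ[X]) (c : ℕ) :
    2 * (√2 * √((c:ℝ) + 1)) * E 2 (φ * (P (c + 1) * P c)) =
      E 2 (derivative φ * (P c * P c)) := by
  have h1 : C √((c:ℝ) + 1) * (φ * (P (c + 1) * P c)) =
      C √2 * (X * (φ * (P c * P c))) - C √(c:ℝ) * (φ * (P c * P (c - 1))) := by
    linear_combination (P_rec' c) * (φ * P c)
  have h4 : √((c:ℝ) + 1) * E 2 (φ * (P (c + 1) * P c)) =
      √2 * E 2 (X * (φ * (P c * P c))) - √(c:ℝ) * E 2 (φ * (P c * P (c - 1))) := by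
    rw [← E_C_mul, ← E_C_mul, ← E_C_mul, ← E_sub two_pos, h1]
  have h2 : derivative (φ * (P c * P c)) =
      derivative φ * (P c * P c) + C (2 * (√2 * √(c:ℝ))) * (φ * (P c * P (c - 1))) := by
    rw [derivative_mul, derivative_mul, P_deriv' c, C_mul (a := (2:ℝ)),
      show (C (2:ℝ) : ℝ[X]) = 2 from rfl]; ring
  have h3 := E_X two_pos (φ * (P c * P c))
  rw [h2, E_add two_pos, E_C_mul] at h3
  have h5 := sqrt2
  linear_combination (2 * √2) * h4 + h3 + (2 * E 2 (X * (φ * (P c * P c)))) * h5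

/-- `4 ∫ x φ P_c² = ∫ φ' P_c² + ∫ φ' P_(c-1)²` -/
theorem quart (φ : ℝ[X]) (c : ℕ) :
    4 * E 2 (X * (φ * (P c * P c))) = E 2 (derivative φ * (P c * P c)) +
      (if c = 0 then 0 else E 2 (derivative φ * (P (c - 1) * P (c - 1)))) := by
  have h2 : derivative (φ * (P c * P c)) =
      derivative φ * (P c * P c) + C (2 * (√2 * √(c:ℝ))) * (φ * (P c * P (c - 1))) := by
    rw [derivative_mul, derivative_mul, P_deriv' c, C_mul (a := (2:ℝ)),
      show (C (2:ℝ) : ℝ[X]) = 2 from rfl]; ring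
  have h3 := E_X two_pos (φ * (P c * P c))
  rw [h2, E_add two_pos, E_C_mul] at h3
  cases c with
  | zero =>
    simp only [Nat.cast_zero, Real.sqrt_zero, mul_zero, zero_mul, add_zero] at h3
    rw [if_pos rfl]
    linarith
  | succ c =>
    have h4 := lad φ c
    rw [if_neg (by omega)]
    rw [Nat.add_sub_cancel] at h3 ⊢
    push_cast at h3
    linarith

/-- the recursion for the quartic integrals -/
theorem J_rec (a a' c : ℕ) :
    2 * √((a:ℝ) + 1) * J (a + 1) a' c =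
      √(a:ℝ) * (-J (a - 1) a' c + (if c = 0 then 0 else J (a - 1) a' (c - 1))) +
      √(a':ℝ) * (J a (a' - 1) c + (if c = 0 then 0 else J a (a' - 1) (c - 1))) := by
  have h1 : C √((a:ℝ) + 1) * (P (a + 1) * P a' * (P c * P c)) =
      C √2 * (X * (P a * P a' * (P c * P c))) - C √(a:ℝ) * (P (a - 1) * P a' * (P c * P c)) := by
    linear_combination (P_rec' a) * (P a' * (P c * P c))
  have h4 : √((a:ℝ) + 1) * J (a + 1) a' c =
      √2 * E 2 (X * (P a * P a' * (P c * P c))) - √(a:ℝ) * J (a - 1) a' c := by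
    rw [J, J, ← E_C_mul, ← E_C_mul, ← E_C_mul, ← E_sub two_pos, h1]
  have h2 : derivative (P a * P a') =
      C (√2 * √(a:ℝ)) * (P (a - 1) * P a') + C (√2 * √(a':ℝ)) * (P a * P (a' - 1)) := by
    rw [derivative_mul, P_deriv', P_deriv']; ring
  have h3 := quart (P a * P a') c
  have h6 : ∀ e : ℕ, E 2 (derivative (P a * P a') * (P e * P e)) =
      √2 * √(a:ℝ) * J (a - 1) a' e + √2 * √(a':ℝ) * J a (a' - 1) e := by
    intro e
    rw [h2, J, J, ← E_C_mul, ← E_C_mul, ← E_add two_pos]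
    congr 1; ring
  rw [h6, h6] at h3
  have h5 := sqrt2
  by_cases hc : c = 0
  · rw [if_pos hc] at h3
    rw [if_pos hc, if_pos hc]
    have h7 : √2 * (4 * E 2 (X * (P a * P a' * (P c * P c)))) = √2 * (√2 * √(a:ℝ) *
        J (a - 1) a' c + √2 * √(a':ℝ) * J a (a' - 1) c + 0) := by rw [h3]
    linear_combination 2 * h4 + (1 / 2) * h7 + (1 / 2) * (√(a:ℝ) * J (a - 1) a' c +
      √(a':ℝ) * J a (a' - 1) c) * h5
  · rw [if_neg hc] at h3
    rw [if_neg hc, if_neg hc]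
    have h7 : √2 * (4 * E 2 (X * (P a * P a' * (P c * P c)))) = √2 * (√2 * √(a:ℝ) *
        J (a - 1) a' c + √2 * √(a':ℝ) * J a (a' - 1) c + (√2 * √(a:ℝ) *
        J (a - 1) a' (c - 1) + √2 * √(a':ℝ) * J a (a' - 1) (c - 1))) := by rw [h3]
    linear_combination 2 * h4 + (1 / 2) * h7 + (1 / 2) * (√(a:ℝ) * J (a - 1) a' c +
      √(a':ℝ) * J a (a' - 1) c + √(a:ℝ) * J (a - 1) a' (c - 1) +
      √(a':ℝ) * J a (a' - 1) (c - 1)) * h5

/-! ### The base case -/

/-- `∫ h_c²` with the weight `exp (-x²)` in place of the product `h_0²` -/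
noncomputable def al (c : ℕ) : ℝ := E 2 (P c * P c)

noncomputable def be (c : ℕ) : ℝ := E 2 (P (c + 1) * P (c - 1))

theorem prodX (c : ℕ) :
    2 * (√2 * E 2 (X * (P (c + 1) * P c))) = √((c:ℝ) + 1) * al c + √(c:ℝ) * be c := by
  have h2 : derivative (P (c + 1) * P c) =
      C (√2 * √((c:ℝ) + 1)) * (P c * P c) + C (√2 * √(c:ℝ)) * (P (c + 1) * P (c - 1)) := by
    rw [derivative_mul, P_deriv, P_deriv']; ring
  have h3 := E_X two_pos (P (c + 1) * P c)
  rw [h2, E_add two_pos, E_C_mul, E_C_mul] at h3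
  have h5 := sqrt2
  have h6 : √2 * (2 * 2 * E 2 (X * (P (c + 1) * P c))) = √2 * (√2 * √((c:ℝ) + 1) *
      E 2 (P c * P c) + √2 * √(c:ℝ) * E 2 (P (c + 1) * P (c - 1))) := by rw [h3]
  rw [al, be]
  linear_combination (1 / 2) * h6 + (1 / 2) * (√((c:ℝ) + 1) *
      E 2 (P c * P c) + √(c:ℝ) * E 2 (P (c + 1) * P (c - 1))) * h5

theorem al_rec (c : ℕ) : 2 * √((c:ℝ) + 1) * al (c + 1) = √((c:ℝ) + 1) * al c - √(c:ℝ) * be c := by
  have h1 : C √((c:ℝ) + 1) * (P (c + 1) * P (c + 1)) =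
      C √2 * (X * (P (c + 1) * P c)) - C √(c:ℝ) * (P (c + 1) * P (c - 1)) := by
    linear_combination (P_rec' c) * P (c + 1)
  have h4 : √((c:ℝ) + 1) * al (c + 1) =
      √2 * E 2 (X * (P (c + 1) * P c)) - √(c:ℝ) * be c := by
    rw [al, be, ← E_C_mul, ← E_C_mul, ← E_C_mul, ← E_sub two_pos, h1]
  linear_combination 2 * h4 + prodX c

theorem be_rec (c : ℕ) :
    2 * √((c:ℝ) + 2) * be (c + 1) = √(c:ℝ) * be c - √((c:ℝ) + 1) * al c := by
  have h1 : C √((c:ℝ) + 2) * (P (c + 2) * P c) =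
      C √2 * (X * (P (c + 1) * P c)) - C √((c:ℝ) + 1) * (P c * P c) := by
    linear_combination (P_rec c) * P c
  have h4 : √((c:ℝ) + 2) * be (c + 1) =
      √2 * E 2 (X * (P (c + 1) * P c)) - √((c:ℝ) + 1) * al c := by
    rw [al, be, Nat.add_sub_cancel, ← E_C_mul, ← E_C_mul, ← E_C_mul, ← E_sub two_pos, ← h1]
  linear_combination 2 * h4 + prodX c

theorem be_eq (c : ℕ) : √((c:ℝ) + 1) * (√(c:ℝ) * be c) = -((c:ℝ) * al c) := by
  induction c with
  | zero => simp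
  | succ c ih =>
    have h1 : (0:ℝ) ≤ (c:ℝ) + 1 := by positivity
    have h2 := Real.mul_self_sqrt h1
    have hs : (0:ℝ) < √((c:ℝ) + 1) := Real.sqrt_pos.2 (by positivity)
    have h3 := al_rec c
    have h4 := be_rec c
    push_cast
    rw [show (c:ℝ) + 1 + 1 = (c:ℝ) + 2 by ring]
    -- `√(c+1)` times the goal
    have h5 : √((c:ℝ) + 1) * (2 * √((c:ℝ) + 2) * be (c + 1)) =
        √((c:ℝ) + 1) * (-(2 * √((c:ℝ) + 1) * al (c + 1))) := by
      linear_combination √((c:ℝ) + 1) * h4 + √((c:ℝ) + 1) * h3 + 0 * ih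
    have h6 : 2 * (√((c:ℝ) + 2) * (√((c:ℝ) + 1) * be (c + 1))) = -(2 * (((c:ℝ) + 1) *
        al (c + 1))) := by
      linear_combination h5 - 2 * al (c + 1) * h2
    linarith

theorem al_succ (c : ℕ) : 2 * ((c:ℝ) + 1) * al (c + 1) = (2 * (c:ℝ) + 1) * al c := by
  have h2 := Real.mul_self_sqrt (show (0:ℝ) ≤ (c:ℝ) + 1 by positivity)
  have h3 := al_rec c
  have h4 := be_eq c
  have h5 : √((c:ℝ) + 1) * (2 * √((c:ℝ) + 1) * al (c + 1)) =
      √((c:ℝ) + 1) * (√((c:ℝ) + 1) * al c - √(c:ℝ) * be c) := by rw [h3]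
  linear_combination h5 + (al c - 2 * al (c + 1)) * h2 - h4

theorem J_zero (c : ℕ) : J 0 0 c = 1 / √π * al c := by
  rw [J, al, P_zero_sq, E_C_mul]

theorem J_succ (c : ℕ) : 2 * ((c:ℝ) + 1) * J 0 0 (c + 1) = (2 * (c:ℝ) + 1) * J 0 0 c := by
  rw [J_zero, J_zero]
  linear_combination (1 / √π) * al_succ c

theorem J_start : 2 * π * J 0 0 0 ^ 2 = 1 := by
  have h : al 0 = 1 / √π * √(π / 2) := by
    rw [al, P_zero_sq]
    have h : (C (1 / √π) : ℝ[X]) = C (1 / √π) * 1 := by rw [mul_one]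
    rw [h, E_C_mul, E_one]
  rw [J_zero, h]
  have h1 : √(π / 2) ^ 2 = π / 2 := Real.sq_sqrt (by positivity)
  have h2 : √π ^ 2 = π := Real.sq_sqrt pi_pos.le
  have h3 : 2 * π * (1 / √π * (1 / √π * √(π / 2))) ^ 2 =
      2 * π * (√(π / 2) ^ 2 / (√π ^ 2 * √π ^ 2)) := by
    have := sqrt_pi_pos
    field_simp
  rw [h3, h1, h2]
  have := pi_pos
  field_simp

end Pool.Agent.H45.LT.Osc
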