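import Mathlib
import Pool.Agent.H45.LT.Osc2

set_option autoImplicit false

/-!
# The generating functions of the quartic integrals
-/

open MeasureTheory Set Real

namespace Pool.Agent.H45.LT.Osc

open PowerSeries

/-- `∑_c (∫ h_a h_a' h_c²) X ^ c` -/
noncomputable def JS (a a' : ℕ) : PowerSeries ℝ := PowerSeries.mk (J a a')

theorem JS_symm (a a' : ℕ) : JS a a' = JS a' a := by
  ext c; simp only [JS, coeff_mk]; exact J_symm a a' c

theorem JS_rec (a a' : ℕ) : (C (2 * √((a:ℝ) + 1)) : PowerSeries ℝ) * JS (a + 1) a' =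
    -((1 - X) * (C √(a:ℝ) * JS (a - 1) a')) + (1 + X) * (C √(a':ℝ) * JS a (a' - 1)) := by
  ext c
  cases c with
  | zero =>
    have h := J_rec a a' 0
    rw [if_pos rfl, if_pos rfl] at h
    simp only [JS, map_add, map_neg, map_sub, sub_mul, add_mul, one_mul, coeff_C_mul, coeff_mk,
      coeff_zero_X_mul]
    linarith
  | succ c =>
    have h := J_rec a a' (c + 1)
    rw [if_neg (by omega), if_neg (by omega), Nat.add_sub_cancel] at h
    simp only [JS, map_add, map_neg, map_sub, sub_mul, add_mul, one_mul, coeff_C_mul, coeff_mk,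
      coeff_succ_X_mul]
    linarith

/-- the base case: `2 π (1 - X) (∑_c (∫ h_0² h_c²) X ^ c)² = 1` -/
theorem JS_base : (C (2 * π) : PowerSeries ℝ) * ((1 - X) * (JS 0 0 * JS 0 0)) = 1 := by
  set f := JS 0 0 with hf
  have h1 : (2 : PowerSeries ℝ) * ((1 - X) * d⁄dX ℝ f) = f := by
    rw [show (2 : PowerSeries ℝ) = C (2:ℝ) from (map_ofNat C 2).symm]
    ext c
    cases c with
    | zero =>
      have h := J_succ 0
      simp only [sub_mul, one_mul, coeff_C_mul, map_sub, coeff_zero_X_mul, coeff_derivative, hf, JS,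
        coeff_mk]
      push_cast at h ⊢
      linarith
    | succ c =>
      have h := J_succ (c + 1)
      simp only [sub_mul, one_mul, coeff_C_mul, map_sub, coeff_succ_X_mul, coeff_derivative, hf, JS,
        coeff_mk]
      push_cast at h ⊢
      linarith
  have h2 : (C (2 * π) : PowerSeries ℝ) * ((1 - X) * (f * f)) = C (1:ℝ) := by
    apply derivative.ext (R := ℝ)
    · rw [derivative_C]
      have h3 : d⁄dX ℝ ((C (2 * π) : PowerSeries ℝ) * ((1 - X) * (f * f))) =
          C (2 * π) * (f * (2 * ((1 - X) * d⁄dX ℝ f) - f)) := by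
        simp only [Derivation.leibniz, smul_eq_mul, map_sub, derivative_C, derivative_X,
          derivative_one]
        ring
      rw [h3, h1]; ring
    · have h := J_start
      simp only [map_mul, map_sub, map_one, constantCoeff_X, constantCoeff_C, sub_zero, one_mul]
      have h4 : constantCoeff f = J 0 0 0 := by
        rw [← coeff_zero_eq_constantCoeff_apply, hf, JS, coeff_mk]
      rw [h4]; linarith
  rw [h2, map_one]

/-- the claim for the induction -/
def Good (a a' : ℕ) : Prop := ∃ q : Polynomial ℝ, JS a a' = (q : PowerSeries ℝ) * JS 0 0 ∧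
  (∀ i, a + a' < 2 * i → q.coeff i = 0) ∧ q.eval 1 = (if a = a' then 1 else 0) ∧
  (a = a' → 2 * (Polynomial.derivative q).eval 1 = (a:ℝ))

theorem Good.symm {a a' : ℕ} (h : Good a a') : Good a' a := by
  obtain ⟨q, h1, h2, h3, h4⟩ := h
  refine ⟨q, by rw [JS_symm, h1], fun i hi => h2 i (by omega), ?_, fun h => ?_⟩
  · rw [h3]; simp only [eq_comm]
  · rw [h4 h.symm, h]

theorem Good.step {a a' : ℕ} (h : ∀ b b', b + b' < a + 1 + a' → Good b b') : Good (a + 1) a' := by
  have ha : (0:ℝ) < √((a:ℝ) + 1) := Real.sqrt_pos.2 (by positivity)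
  -- the first term
  have H1 : ∃ r : Polynomial ℝ, (C √(a:ℝ) : PowerSeries ℝ) * JS (a - 1) a' =
      (r : PowerSeries ℝ) * JS 0 0 ∧ (∀ i, a + a' < 2 * i + 1 → r.coeff i = 0) ∧
      (a + 1 = a' → r.eval 1 = 0) := by
    rcases Nat.eq_zero_or_pos a with h0 | h0
    · refine ⟨0, ?_, fun i _ => by simp, fun _ => by simp⟩
      simp [h0]
    · obtain ⟨q, h1, h2, h3, -⟩ := h (a - 1) a' (by omega)
      refine ⟨Polynomial.C √(a:ℝ) * q, ?_, fun i hi => ?_, fun e => ?_⟩
      · rw [h1, Polynomial.coe_mul, Polynomial.coe_C]; ring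
      · rw [Polynomial.coeff_C_mul, h2 i (by omega), mul_zero]
      · rw [Polynomial.eval_mul, h3, if_neg (by omega), mul_zero]
  have H2 : ∃ r : Polynomial ℝ, (C √(a':ℝ) : PowerSeries ℝ) * JS a (a' - 1) =
      (r : PowerSeries ℝ) * JS 0 0 ∧ (∀ i, a + a' < 2 * i + 1 → r.coeff i = 0) ∧
      r.eval 1 = (if a + 1 = a' then √((a:ℝ) + 1) else 0) ∧
      (a + 1 = a' → 2 * (Polynomial.derivative r).eval 1 = √((a:ℝ) + 1) * a) := by
    rcases Nat.eq_zero_or_pos a' with h0 | h0
    · refine ⟨0, ?_, fun i _ => by simp, ?_, fun e => by omega⟩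
      · simp [h0]
      · rw [if_neg (by omega)]; simp
    · obtain ⟨q, h1, h2, h3, h4⟩ := h a (a' - 1) (by omega)
      refine ⟨Polynomial.C √(a':ℝ) * q, ?_, fun i hi => ?_, ?_, fun e => ?_⟩
      · rw [h1, Polynomial.coe_mul, Polynomial.coe_C]; ring
      · rw [Polynomial.coeff_C_mul, h2 i (by omega), mul_zero]
      · rw [Polynomial.eval_mul, h3, Polynomial.eval_C]
        by_cases e : a + 1 = a'
        · rw [if_pos (by omega), if_pos e, mul_one, ← e]; push_cast; rfl
        · rw [if_neg (by omega), if_neg e, mul_zero]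
      · have h5 := h4 (by omega)
        rw [Polynomial.derivative_C_mul, Polynomial.eval_mul, Polynomial.eval_C, ← e]
        push_cast
        linear_combination √((a:ℝ) + 1) * h5
  obtain ⟨r1, h11, h12, h13⟩ := H1
  obtain ⟨r2, h21, h22, h23, h24⟩ := H2
  have hrec := JS_rec a a'
  rw [h11, h21] at hrec
  refine ⟨Polynomial.C (1 / (2 * √((a:ℝ) + 1))) * (-((1 - Polynomial.X) * r1) +
    (1 + Polynomial.X) * r2), ?_, fun i hi => ?_, ?_, fun e => ?_⟩
  · have h5 : (C (1 / (2 * √((a:ℝ) + 1))) : PowerSeries ℝ) * C (2 * √((a:ℝ) + 1)) = 1 := by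
      rw [← map_mul, one_div, inv_mul_cancel₀ (by positivity), map_one]
    have h6 : JS (a + 1) a' = (C (1 / (2 * √((a:ℝ) + 1))) : PowerSeries ℝ) *
        (C (2 * √((a:ℝ) + 1)) * JS (a + 1) a') := by
      rw [← mul_assoc, h5, one_mul]
    rw [h6, hrec]
    push_cast
    ring
  · obtain ⟨j, rfl⟩ : ∃ j, i = j + 1 := ⟨i - 1, by omega⟩
    rw [Polynomial.coeff_C_mul]
    have h5 : (-((1 - Polynomial.X) * r1) + (1 + Polynomial.X) * r2) =
        -r1 + Polynomial.X * r1 + r2 + Polynomial.X * r2 := by ring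
    rw [h5]
    simp only [Polynomial.coeff_add, Polynomial.coeff_neg, Polynomial.coeff_X_mul]
    rw [h12 (j + 1) (by omega), h12 j (by omega), h22 (j + 1) (by omega), h22 j (by omega)]
    simp
  · simp only [Polynomial.eval_mul, Polynomial.eval_add, Polynomial.eval_neg, Polynomial.eval_sub,
      Polynomial.eval_one, Polynomial.eval_X, Polynomial.eval_C, h23]
    split_ifs with e
    · field_simp; ring
    · simp
  · have h5 := h13 e
    have h6 := h24 e
    rw [if_pos e] at h23
    simp only [Polynomial.derivative_mul, Polynomial.derivative_C, Polynomial.derivative_add,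
      Polynomial.derivative_neg, Polynomial.derivative_sub, Polynomial.derivative_one,
      Polynomial.derivative_X, Polynomial.eval_mul, Polynomial.eval_add, Polynomial.eval_neg,
      Polynomial.eval_sub, Polynomial.eval_one, Polynomial.eval_X, Polynomial.eval_C,
      Polynomial.eval_zero, h5, h23]
    have h7 : 2 * ((1 / (2 * √((a:ℝ) + 1))) * (√((a:ℝ) + 1) +
        2 * (Polynomial.derivative r2).eval 1)) = (a:ℝ) + 1 := by
      rw [h6]; field_simp; ring
    push_cast
    linarith

theorem good_zero : Good 0 0 :=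
  ⟨1, by simp, fun i hi => by
    rw [Polynomial.coeff_one]
    rw [if_neg (by omega)], by simp, fun _ => by simp⟩

theorem good : ∀ n a a' : ℕ, a + a' ≤ n → Good a a' := by
  intro n
  induction n with
  | zero =>
    intro a a' h
    obtain ⟨rfl, rfl⟩ : a = 0 ∧ a' = 0 := by omega
    exact good_zero
  | succ n ih =>
    intro a a' h
    rcases a with _ | a
    · rcases a' with _ | a'
      · exact good_zero
      · exact (Good.step fun b b' hb => ih b b' (by omega)).symm
    · exact Good.step fun b b' hb => ih b b' (by omega)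

/-- a weighted sum of the coefficients of `p / (1 - X)` -/
theorem wsum {S : PowerSeries ℝ} {p : Polynomial ℝ} (h : (1 - X) * S = (p : PowerSeries ℝ))
    (k : ℕ) : 2 * ∑ l ∈ Finset.range k, coeff l S + coeff k S =
      ∑ j ∈ Finset.range (k + 1), (2 * (k:ℝ) + 1 - 2 * j) * p.coeff j := by
  have h0 : coeff 0 S = p.coeff 0 := by
    have := congrArg (coeff 0) h
    rwa [sub_mul, one_mul, map_sub, coeff_zero_X_mul, sub_zero, Polynomial.coeff_coe] at this
  have h1 : ∀ l, coeff (l + 1) S = coeff l S + p.coeff (l + 1) := by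
    intro l
    have := congrArg (coeff (l + 1)) h
    rw [sub_mul, one_mul, map_sub, coeff_succ_X_mul, Polynomial.coeff_coe] at this
    linarith
  have h2 : ∀ l, coeff l S = ∑ j ∈ Finset.range (l + 1), p.coeff j := by
    intro l
    induction l with
    | zero => simp [h0]
    | succ l ih => rw [h1, ih, Finset.sum_range_succ _ (l + 1)]
  induction k with
  | zero => simp [h0]
  | succ k ih =>
    rw [Finset.sum_range_succ, Finset.sum_range_succ _ (k + 1)]
    have h3 : ∑ j ∈ Finset.range (k + 1), (2 * ((k + 1 : ℕ):ℝ) + 1 - 2 * j) * p.coeff j =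
        ∑ j ∈ Finset.range (k + 1), (2 * (k:ℝ) + 1 - 2 * j) * p.coeff j +
        2 * ∑ j ∈ Finset.range (k + 1), p.coeff j := by
      rw [Finset.mul_sum, ← Finset.sum_add_distrib]
      refine Finset.sum_congr rfl fun j _ => ?_
      push_cast; ring
    rw [h3, ← ih, h1, ← h2]
    push_cast; ring

theorem wsum' {p : Polynomial ℝ} {k : ℕ} (h : ∀ i, k < i → p.coeff i = 0) :
    ∑ j ∈ Finset.range (k + 1), (2 * (k:ℝ) + 1 - 2 * j) * p.coeff j =
      (2 * (k:ℝ) + 1) * p.eval 1 - 2 * (Polynomial.derivative p).eval 1 := by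
  have h1 : p = ∑ j ∈ Finset.range (k + 1), Polynomial.monomial j (p.coeff j) := by
    refine Polynomial.as_sum_range' p (k + 1) ?_
    rw [Nat.lt_succ_iff, Polynomial.natDegree_le_iff_coeff_eq_zero]
    exact fun i hi => h i hi
  have h2 : p.eval 1 = ∑ j ∈ Finset.range (k + 1), p.coeff j := by
    conv_lhs => rw [h1]
    rw [Polynomial.eval_finsetSum]
    simp
  have h3 : (Polynomial.derivative p).eval 1 = ∑ j ∈ Finset.range (k + 1), (j:ℝ) * p.coeff j := by
    conv_lhs => rw [h1]
    rw [Polynomial.derivative_sum, Polynomial.eval_finsetSum]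
    refine Finset.sum_congr rfl fun j _ => ?_
    rw [Polynomial.derivative_monomial]
    simp [mul_comm]
  rw [h2, h3, Finset.mul_sum, Finset.mul_sum, ← Finset.sum_sub_distrib]
  refine Finset.sum_congr rfl fun j _ => by ring

/-- `2 π ∫ Ψ_a Ψ_a' ρ_l` for the states `Ψ_a = h_a ⊗ h_(k-a)` of the level `k` and the density
`ρ_l` of the filled level `l` -/
noncomputable def W (k a a' l : ℕ) : ℝ :=
  2 * π * ∑ c ∈ Finset.range (l + 1), J a a' c * J (k - a) (k - a') (l - c)

/-- **The sum rule.** -/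
theorem sum_rule {k a a' : ℕ} (ha : a ≤ k) (ha' : a' ≤ k) :
    2 * ∑ l ∈ Finset.range k, W k a a' l + W k a a' k = if a = a' then (k:ℝ) + 1 else 0 := by
  obtain ⟨q, h1, h2, h3, h4⟩ := good _ a a' le_rfl
  obtain ⟨r, g1, g2, g3, g4⟩ := good _ (k - a) (k - a') le_rfl
  have hS : (1 - X) * ((C (2 * π) : PowerSeries ℝ) * (JS a a' * JS (k - a) (k - a'))) =
      ((q * r : Polynomial ℝ) : PowerSeries ℝ) := by
    have h := JS_base
    rw [h1, g1, Polynomial.coe_mul]
    linear_combination ((q : PowerSeries ℝ) * (r : PowerSeries ℝ)) * h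
  have hW : ∀ l, W k a a' l =
      coeff l ((C (2 * π) : PowerSeries ℝ) * (JS a a' * JS (k - a) (k - a'))) := by
    intro l
    rw [coeff_C_mul, coeff_mul, W]
    congr 1
    rw [Finset.Nat.sum_antidiagonal_eq_sum_range_succ_mk]
    simp only [JS, coeff_mk]
  have hdeg : ∀ i, k < i → (q * r).coeff i = 0 := by
    intro i hi
    rw [Polynomial.coeff_mul]
    refine Finset.sum_eq_zero fun x hx => ?_
    rw [Finset.HasAntidiagonal.mem_antidiagonal] at hx
    by_cases hx1 : a + a' < 2 * x.1
    · rw [h2 _ hx1, zero_mul]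
    · rw [g2 x.2 (by omega), mul_zero]
  have hsum := (wsum hS k).trans (wsum' hdeg)
  simp only [← hW] at hsum
  rw [hsum, Polynomial.derivative_mul, Polynomial.eval_add, Polynomial.eval_mul,
    Polynomial.eval_mul, Polynomial.eval_mul, h3, g3]
  by_cases e : a = a'
  · have e' : k - a = k - a' := by omega
    have h5 := h4 e
    have h6 := g4 e'
    rw [if_pos e, if_pos e', if_pos e]
    have h7 : ((k - a : ℕ):ℝ) = (k:ℝ) - a := by rw [Nat.cast_sub ha]
    rw [h7] at h6
    linarith
  · rw [if_neg e, if_neg (by omega), if_neg e]; ring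

end Pool.Agent.H45.LT.Osc
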