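import Mathlib
import Pool.Agent.H45.LT.Osc3

set_option autoImplicit false

/-!
# The stationary states of the two-dimensional oscillator
-/

open MeasureTheory Set Real Polynomial

namespace Pool.Agent.H45.LT.Osc

/-- the `n`-th Hermite function -/
noncomputable def h (n : ℕ) (x : ℝ) : ℝ := (P n).eval x * Real.exp (-x ^ 2 / 2)

/-- its derivative -/
noncomputable def h' (n : ℕ) (x : ℝ) : ℝ :=
  (derivative (P n) - X * P n).eval x * Real.exp (-x ^ 2 / 2)

theorem h_deriv (n : ℕ) (x : ℝ) : HasDerivAt (h n) (h' n x) x := by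
  have h2 : HasDerivAt (fun x : ℝ => Real.exp (-x ^ 2 / 2))
      (Real.exp (-x ^ 2 / 2) * (-x)) x := by
    have h3 : HasDerivAt (fun x : ℝ => -x ^ 2 / 2) (-x) x := by
      have h4 := ((hasDerivAt_pow 2 x).const_mul (-1/2 : ℝ))
      have h5 : (fun x : ℝ => -x ^ 2 / 2) = fun x : ℝ => (-1/2 : ℝ) * x ^ 2 := by
        funext x; ring
      rw [h5]
      refine h4.congr_deriv ?_
      push_cast; ring
    exact h3.exp
  have h4 := ((P n).hasDerivAt x).mul h2
  refine h4.congr_deriv ?_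
  simp only [h', eval_sub, eval_mul, eval_X]; ring

theorem exp2 (x : ℝ) : Real.exp (-x ^ 2 / 2) * Real.exp (-x ^ 2 / 2) = Real.exp (-1 * x ^ 2) := by
  rw [← Real.exp_add]; congr 1; ring

theorem exp4 (x : ℝ) : Real.exp (-1 * x ^ 2) * Real.exp (-1 * x ^ 2) = Real.exp (-2 * x ^ 2) := by
  rw [← Real.exp_add]; congr 1; ring

theorem int2 (f g : ℝ → ℝ) :
    ∫ x : Fin 2 → ℝ, f (x 0) * g (x 1) = (∫ t, f t) * ∫ t, g t := by
  have h := integral_fin_nat_prod_volume_eq_prod (𝕜 := ℝ) (n := 2) (E := fun _ => ℝ)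
    (fun i => if i = 0 then f else g)
  simpa [Fin.prod_univ_two] using h

theorem integrable2 {f g : ℝ → ℝ} (hf : Integrable f) (hg : Integrable g) :
    Integrable fun x : Fin 2 → ℝ => f (x 0) * g (x 1) := by
  have h := Integrable.fin_nat_prod (𝕜 := ℝ) (n := 2) (E := fun _ => ℝ)
    (μ := fun _ => volume) (f := fun i => if i = 0 then f else g) (by
      intro i
      split_ifs
      · exact hf
      · exact hg)
  have h2 : (fun x : Fin 2 → ℝ => f (x 0) * g (x 1)) =
      fun x : Fin 2 → ℝ => ∏ i, (if i = 0 then f else g) (x i) := by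
    funext x
    simp [Fin.prod_univ_two]
  rw [h2]
  exact h

/-- a product of polynomials and a Gaussian -/
noncomputable def G (b : ℝ) (p q : ℝ[X]) (x : Fin 2 → ℝ) : ℝ :=
  (p.eval (x 0) * Real.exp (-b * x 0 ^ 2)) * (q.eval (x 1) * Real.exp (-b * x 1 ^ 2))

theorem G_int {b : ℝ} (hb : 0 < b) (p q : ℝ[X]) : Integrable (G b p q) :=
  integrable2 (gint hb p) (gint hb q)

theorem G_eq (b : ℝ) (p q : ℝ[X]) : ∫ x, G b p q x = E b p * E b q :=
  int2 (fun t => p.eval t * Real.exp (-b * t ^ 2)) (fun t => q.eval t * Real.exp (-b * t ^ 2))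

/-- the products of the Hermite functions -/
noncomputable def Psi (k a : ℕ) (x : Fin 2 → ℝ) : ℝ := h a (x 0) * h (k - a) (x 1)

theorem Psi_mul (k a k' a' : ℕ) (x : Fin 2 → ℝ) :
    Psi k a x * Psi k' a' x = G 1 (P a * P a') (P (k - a) * P (k' - a')) x := by
  simp only [Psi, G, h, eval_mul, ← exp2]; ring

theorem Psi_four (k a a' l c : ℕ) (x : Fin 2 → ℝ) :
    Psi k a x * Psi k a' x * (Psi l c x * Psi l c x) =
      G 2 (P a * P a' * (P c * P c)) (P (k - a) * P (k - a') * (P (l - c) * P (l - c))) x := by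
  rw [Psi_mul, Psi_mul]
  simp only [G, eval_mul, ← exp4]; ring

/-- the density of the level `l` -/
noncomputable def rho (l : ℕ) (x : Fin 2 → ℝ) : ℝ :=
  ∑ c ∈ Finset.range (l + 1), Psi l c x * Psi l c x

theorem rho_nonneg (l : ℕ) (x : Fin 2 → ℝ) : 0 ≤ rho l x :=
  Finset.sum_nonneg fun _ _ => mul_self_nonneg _

theorem Psi_rho_int (k a a' l : ℕ) : Integrable fun x => Psi k a x * Psi k a' x * rho l x := by
  have h1 : (fun x => Psi k a x * Psi k a' x * rho l x) = fun x =>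
      ∑ c ∈ Finset.range (l + 1), G 2 (P a * P a' * (P c * P c))
        (P (k - a) * P (k - a') * (P (l - c) * P (l - c))) x := by
    funext x
    rw [rho, Finset.mul_sum]
    exact Finset.sum_congr rfl fun c _ => Psi_four k a a' l c x
  rw [h1]
  exact integrable_finsetSum _ fun c _ => G_int two_pos _ _

theorem Psi_rho (k a a' l : ℕ) :
    2 * π * ∫ x, Psi k a x * Psi k a' x * rho l x = W k a a' l := by
  rw [W]
  congr 1
  have h1 : (fun x => Psi k a x * Psi k a' x * rho l x) = fun x =>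
      ∑ c ∈ Finset.range (l + 1), G 2 (P a * P a' * (P c * P c))
        (P (k - a) * P (k - a') * (P (l - c) * P (l - c))) x := by
    funext x
    rw [rho, Finset.mul_sum]
    exact Finset.sum_congr rfl fun c _ => Psi_four k a a' l c x
  rw [h1, integral_finsetSum _ fun c _ => G_int two_pos _ _]
  exact Finset.sum_congr rfl fun c _ => G_eq _ _ _

/-- the density `2 ∑_(l < k) ρ_l + ρ_k` -/
noncomputable def dens (k : ℕ) (x : Fin 2 → ℝ) : ℝ :=
  2 * ∑ l ∈ Finset.range k, rho l x + rho k x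

theorem Psi_dens_eq (k a a' : ℕ) (x : Fin 2 → ℝ) : Psi k a x * Psi k a' x * dens k x =
    2 * ∑ l ∈ Finset.range k, Psi k a x * Psi k a' x * rho l x +
      Psi k a x * Psi k a' x * rho k x := by
  rw [dens, ← Finset.mul_sum]; ring

theorem Psi_dens_int (k a a' : ℕ) :
    Integrable fun x => Psi k a x * Psi k a' x * dens k x := by
  simp only [Psi_dens_eq]
  exact ((integrable_finsetSum _ fun l _ => Psi_rho_int k a a' l).const_mul 2).add
    (Psi_rho_int k a a' k)

theorem Psi_dens {k a a' : ℕ} (ha : a ≤ k) (ha' : a' ≤ k) :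
    2 * π * ∫ x, Psi k a x * Psi k a' x * dens k x = if a = a' then (k:ℝ) + 1 else 0 := by
  simp only [Psi_dens_eq]
  rw [integral_add ((integrable_finsetSum _ fun l _ => Psi_rho_int k a a' l).const_mul 2)
    (Psi_rho_int k a a' k), integral_const_mul,
    integral_finsetSum _ fun l _ => Psi_rho_int k a a' l, ← sum_rule ha ha', ← Psi_rho,
    mul_add, ← mul_assoc, mul_comm (2 * π) 2, mul_assoc 2 (2 * π), Finset.mul_sum]
  simp only [Psi_rho]

/-! ### Complex combinations -/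

theorem nsq (s : Finset ℕ) (c : ℕ → ℂ) (A : ℕ → ℝ) :
    ‖∑ a ∈ s, c a * (A a : ℂ)‖ ^ 2 =
      ∑ a ∈ s, ∑ b ∈ s, (c a * (starRingEnd ℂ) (c b)).re * (A a * A b) := by
  have h1 : (‖∑ a ∈ s, c a * (A a : ℂ)‖ ^ 2 : ℝ) =
      ((∑ a ∈ s, c a * (A a : ℂ)) * (starRingEnd ℂ) (∑ a ∈ s, c a * (A a : ℂ))).re := by
    rw [Complex.mul_conj, Complex.ofReal_re, Complex.normSq_eq_norm_sq]
  rw [h1, map_sum, Finset.sum_mul_sum, Complex.re_sum]
  refine Finset.sum_congr rfl fun a _ => ?_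
  rw [Complex.re_sum]
  refine Finset.sum_congr rfl fun b _ => ?_
  have h2 : c a * (A a : ℂ) * (starRingEnd ℂ) (c b * (A b : ℂ)) =
      c a * (starRingEnd ℂ) (c b) * ((A a * A b : ℝ) : ℂ) := by
    rw [map_mul, Complex.conj_ofReal]; push_cast; ring
  rw [h2, Complex.re_mul_ofReal]

theorem int_sq {s : Finset ℕ} (c : ℕ → ℂ) (A : ℕ → (Fin 2 → ℝ) → ℝ) (R : (Fin 2 → ℝ) → ℝ)
    (hi : ∀ a ∈ s, ∀ b ∈ s, Integrable fun x => A a x * A b x * R x) :
    Integrable (fun x => ‖∑ a ∈ s, c a * (A a x : ℂ)‖ ^ 2 * R x) ∧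
    ∫ x, ‖∑ a ∈ s, c a * (A a x : ℂ)‖ ^ 2 * R x =
      ∑ a ∈ s, ∑ b ∈ s, (c a * (starRingEnd ℂ) (c b)).re * ∫ x, A a x * A b x * R x := by
  have h1 : (fun x => ‖∑ a ∈ s, c a * (A a x : ℂ)‖ ^ 2 * R x) = fun x =>
      ∑ a ∈ s, ∑ b ∈ s, (c a * (starRingEnd ℂ) (c b)).re * (A a x * A b x * R x) := by
    funext x
    rw [nsq s c (fun a => A a x), Finset.sum_mul]
    refine Finset.sum_congr rfl fun a _ => ?_
    rw [Finset.sum_mul]
    refine Finset.sum_congr rfl fun b _ => by ring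
  have h2 : ∀ a ∈ s, ∀ b ∈ s, Integrable fun x =>
      (c a * (starRingEnd ℂ) (c b)).re * (A a x * A b x * R x) := fun a ha b hb =>
    (hi a ha b hb).const_mul _
  refine ⟨?_, ?_⟩
  · rw [h1]
    exact integrable_finsetSum _ fun a ha => integrable_finsetSum _ fun b hb => h2 a ha b hb
  · rw [h1, integral_finsetSum _ fun a ha => integrable_finsetSum _ fun b hb => h2 a ha b hb]
    refine Finset.sum_congr rfl fun a ha => ?_
    rw [integral_finsetSum _ fun b hb => h2 a ha b hb]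
    refine Finset.sum_congr rfl fun b hb => ?_
    rw [integral_const_mul]

theorem diag {s : Finset ℕ} (c : ℕ → ℂ) (w : ℕ → ℝ) :
    ∑ a ∈ s, ∑ b ∈ s, (c a * (starRingEnd ℂ) (c b)).re * (if a = b then w a else 0) =
      ∑ a ∈ s, w a * ‖c a‖ ^ 2 := by
  refine Finset.sum_congr rfl fun a ha => ?_
  rw [Finset.sum_eq_single_of_mem a ha fun b _ hb => by rw [if_neg (Ne.symm hb), mul_zero],
    if_pos rfl, Complex.mul_conj, Complex.ofReal_re, Complex.normSq_eq_norm_sq]
  ring

/-- the stationary state `∑ c_a h_a(x) h_(k-a)(y)` -/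
noncomputable def st (k : ℕ) (c : ℕ → ℂ) (x : Fin 2 → ℝ) : ℂ :=
  ∑ a ∈ Finset.range (k + 1), c a * (Psi k a x : ℂ)

theorem st_dens (k : ℕ) (c : ℕ → ℂ) :
    Integrable (fun x => ‖st k c x‖ ^ 2 * dens k x) ∧
    2 * π * ∫ x, ‖st k c x‖ ^ 2 * dens k x =
      ((k:ℝ) + 1) * ∑ a ∈ Finset.range (k + 1), ‖c a‖ ^ 2 := by
  have h := int_sq (s := Finset.range (k + 1)) c (fun a x => Psi k a x) (dens k)
    (fun a _ b _ => Psi_dens_int k a b)
  refine ⟨h.1, ?_⟩
  have h1 : ∫ x, ‖st k c x‖ ^ 2 * dens k x = _ := h.2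
  rw [h1, Finset.mul_sum, Finset.mul_sum, ← diag c fun _ => (k:ℝ) + 1]
  refine Finset.sum_congr rfl fun a ha => ?_
  rw [Finset.mul_sum]
  refine Finset.sum_congr rfl fun b hb => ?_
  rw [Finset.mem_range] at ha hb
  rw [← Psi_dens (show a ≤ k by omega) (show b ≤ k by omega)]
  ring

theorem h_cont (n : ℕ) : Continuous (h n) := by
  unfold h
  exact (P n).continuous.mul (by fun_prop)

theorem h'_cont (n : ℕ) : Continuous (h' n) := by
  unfold h'
  exact (Polynomial.continuous _).mul (by fun_prop)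

theorem Psi_cont (k a : ℕ) : Continuous (Psi k a) := by
  unfold Psi
  exact ((h_cont a).comp (continuous_apply 0)).mul ((h_cont (k - a)).comp (continuous_apply 1))

theorem st_cont (k : ℕ) (c : ℕ → ℂ) : Continuous (st k c) := by
  unfold st
  refine continuous_finsetSum _ fun a _ => ?_
  exact continuous_const.mul (Complex.continuous_ofReal.comp (Psi_cont k a))

/-- the inner products of two states of the same level -/
theorem st_inner (k : ℕ) (c d : ℕ → ℂ) :
    ∫ x, (starRingEnd ℂ) (st k c x) * st k d x =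
      ∑ a ∈ Finset.range (k + 1), (starRingEnd ℂ) (c a) * d a := by
  have h1 : ∀ x, (starRingEnd ℂ) (st k c x) * st k d x = ∑ a ∈ Finset.range (k + 1),
      ∑ b ∈ Finset.range (k + 1), ((starRingEnd ℂ) (c a) * d b) *
        ((G 1 (P a * P b) (P (k - a) * P (k - b)) x : ℝ) : ℂ) := by
    intro x
    rw [st, st, map_sum, Finset.sum_mul_sum]
    refine Finset.sum_congr rfl fun a _ => Finset.sum_congr rfl fun b _ => ?_
    rw [← Psi_mul, map_mul, Complex.conj_ofReal]
    push_cast; ring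
  simp only [h1]
  have hi : ∀ a b : ℕ, Integrable fun x => ((starRingEnd ℂ) (c a) * d b) *
        ((G 1 (P a * P b) (P (k - a) * P (k - b)) x : ℝ) : ℂ) := fun a b =>
    ((G_int one_pos (P a * P b) (P (k - a) * P (k - b))).ofReal).const_mul _
  rw [integral_finsetSum _ fun a _ => integrable_finsetSum _ fun b _ => hi a b]
  refine Finset.sum_congr rfl fun a ha => ?_
  rw [integral_finsetSum _ fun b _ => hi a b]
  rw [Finset.sum_eq_single_of_mem a ha]
  · rw [integral_const_mul, integral_complex_ofReal, G_eq, ortho, ortho, if_pos rfl, if_pos rfl]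
    simp
  · intro b _ hb
    rw [integral_const_mul, integral_complex_ofReal, G_eq, ortho, if_neg (Ne.symm hb)]
    simp

/-! ### The kinetic energy -/

/-- the derivatives of the products -/
noncomputable def dPsi (q : Fin 2) (k a : ℕ) (x : Fin 2 → ℝ) : ℝ :=
  if q = 0 then h' a (x 0) * h (k - a) (x 1) else h a (x 0) * h' (k - a) (x 1)

theorem Psi_fderiv (k a : ℕ) (x : Fin 2 → ℝ) :
    HasFDerivAt (Psi k a) (h a (x 0) • (h' (k - a) (x 1) •
      (ContinuousLinearMap.proj 1 : (Fin 2 → ℝ) →L[ℝ] ℝ)) +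
      h (k - a) (x 1) • (h' a (x 0) • (ContinuousLinearMap.proj 0 : (Fin 2 → ℝ) →L[ℝ] ℝ))) x := by
  have e0 : HasFDerivAt (fun x : Fin 2 → ℝ => x 0)
      (ContinuousLinearMap.proj 0 : (Fin 2 → ℝ) →L[ℝ] ℝ) x := hasFDerivAt_apply 0 x
  have e1 : HasFDerivAt (fun x : Fin 2 → ℝ => x 1)
      (ContinuousLinearMap.proj 1 : (Fin 2 → ℝ) →L[ℝ] ℝ) x := hasFDerivAt_apply 1 x
  have h0 := (h_deriv a (x 0)).comp_hasFDerivAt x e0
  have h1 := (h_deriv (k - a) (x 1)).comp_hasFDerivAt x e1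
  exact h0.mul h1

theorem st_fderiv (k : ℕ) (c : ℕ → ℂ) (x : Fin 2 → ℝ) (q : Fin 2) :
    fderiv ℝ (st k c) x (Pi.single q 1) =
      ∑ a ∈ Finset.range (k + 1), c a * (dPsi q k a x : ℂ) := by
  have h1 : ∀ a ∈ Finset.range (k + 1), HasFDerivAt (fun x => c a * (Psi k a x : ℂ))
      (c a • (Complex.ofRealCLM.comp (h a (x 0) • (h' (k - a) (x 1) •
      (ContinuousLinearMap.proj 1 : (Fin 2 → ℝ) →L[ℝ] ℝ)) +
      h (k - a) (x 1) • (h' a (x 0) • (ContinuousLinearMap.proj 0 : (Fin 2 → ℝ) →L[ℝ] ℝ))))) x := by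
    intro a _
    exact ((Complex.ofRealCLM.hasFDerivAt.comp x (Psi_fderiv k a x)).const_mul (c a))
  have h2 := HasFDerivAt.fun_sum h1
  have h3 : fderiv ℝ (st k c) x = _ := h2.fderiv
  rw [h3, _root_.sum_apply]
  refine Finset.sum_congr rfl fun a _ => ?_
  simp only [_root_.smul_apply, ContinuousLinearMap.comp_apply, smul_eq_mul]
  congr 1
  simp only [_root_.add_apply, _root_.smul_apply,
    ContinuousLinearMap.proj_apply, smul_eq_mul, Complex.ofRealCLM_apply, dPsi]
  congr 1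
  fin_cases q
  · simp; ring
  · simp

theorem h'_mul_h (a b : ℕ) (t : ℝ) : h' a t * h' b t =
    ((derivative (P a) - X * P a) * (derivative (P b) - X * P b)).eval t *
      Real.exp (-1 * t ^ 2) := by
  rw [h', h', eval_mul, ← exp2]; ring

theorem dPsi_mul_int (q : Fin 2) (k a b : ℕ) :
    Integrable fun x => dPsi q k a x * dPsi q k b x := by
  fin_cases q
  · have h1 : (fun x => dPsi 0 k a x * dPsi 0 k b x) =
        G 1 ((derivative (P a) - X * P a) * (derivative (P b) - X * P b))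
          (P (k - a) * P (k - b)) := by
      funext x
      simp only [dPsi, if_true, G, h, h', eval_mul, ← exp2]; ring
    exact h1 ▸ G_int one_pos _ _
  · have h1 : (fun x => dPsi 1 k a x * dPsi 1 k b x) =
        G 1 (P a * P b) ((derivative (P (k - a)) - X * P (k - a)) *
          (derivative (P (k - b)) - X * P (k - b))) := by
      funext x
      simp only [dPsi, if_neg (show ¬ ((1 : Fin 2) = 0) by decide), G, h, h', eval_mul, ← exp2]
      ring
    exact h1 ▸ G_int one_pos _ _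

theorem dPsi_mul (k : ℕ) {a b : ℕ} (ha : a ≤ k) (hb : b ≤ k) :
    (∫ x, dPsi 0 k a x * dPsi 0 k b x = if a = b then (a:ℝ) + 1 / 2 else 0) ∧
    (∫ x, dPsi 1 k a x * dPsi 1 k b x = if a = b then ((k:ℝ) - a) + 1 / 2 else 0) := by
  constructor
  · have h1 : (fun x => dPsi 0 k a x * dPsi 0 k b x) =
        G 1 ((derivative (P a) - X * P a) * (derivative (P b) - X * P b))
          (P (k - a) * P (k - b)) := by
      funext x
      simp only [dPsi, if_true, G, h, h', eval_mul, ← exp2]; ring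
    rw [h1, G_eq]
    by_cases e : a = b
    · subst e
      rw [flow_sq, ortho, if_pos rfl, if_pos rfl, mul_one]
    · rw [ortho (k - a), if_neg (by omega), if_neg e, mul_zero]
  · have h1 : (fun x => dPsi 1 k a x * dPsi 1 k b x) =
        G 1 (P a * P b) ((derivative (P (k - a)) - X * P (k - a)) *
          (derivative (P (k - b)) - X * P (k - b))) := by
      funext x
      simp only [dPsi, if_neg (show ¬ ((1 : Fin 2) = 0) by decide), G, h, h', eval_mul, ← exp2]
      ring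
    rw [h1, G_eq]
    by_cases e : a = b
    · subst e
      rw [flow_sq, ortho, if_pos rfl, if_pos rfl, one_mul, Nat.cast_sub ha]
    · rw [ortho a, if_neg e, if_neg e, zero_mul]

/-- the kinetic energy of a state is `(k + 1) ∑ |c_a|²` -/
theorem st_kin (k : ℕ) (c : ℕ → ℂ) :
    ∑ q : Fin 2, ∫ x, ‖fderiv ℝ (st k c) x (Pi.single q 1)‖ ^ 2 =
      ((k:ℝ) + 1) * ∑ a ∈ Finset.range (k + 1), ‖c a‖ ^ 2 := by
  have h1 : ∀ q : Fin 2, ∫ x, ‖fderiv ℝ (st k c) x (Pi.single q 1)‖ ^ 2 =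
      ∑ a ∈ Finset.range (k + 1), ∑ b ∈ Finset.range (k + 1),
        (c a * (starRingEnd ℂ) (c b)).re * ∫ x, dPsi q k a x * dPsi q k b x := by
    intro q
    have h2 := (int_sq (s := Finset.range (k + 1)) c (fun a x => dPsi q k a x) (fun _ => 1)
      (fun a _ b _ => by simpa only [mul_one] using dPsi_mul_int q k a b)).2
    simp only [mul_one] at h2
    simp only [st_fderiv]
    exact h2
  rw [Fin.sum_univ_two, h1, h1]
  have h3 : ∑ a ∈ Finset.range (k + 1), ∑ b ∈ Finset.range (k + 1),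
      (c a * (starRingEnd ℂ) (c b)).re * ∫ x, dPsi 0 k a x * dPsi 0 k b x =
      ∑ a ∈ Finset.range (k + 1), ((a:ℝ) + 1 / 2) * ‖c a‖ ^ 2 := by
    rw [← diag c fun a => (a:ℝ) + 1 / 2]
    refine Finset.sum_congr rfl fun a ha => Finset.sum_congr rfl fun b hb => ?_
    rw [Finset.mem_range] at ha hb
    rw [(dPsi_mul k (show a ≤ k by omega) (show b ≤ k by omega)).1]
  have h4 : ∑ a ∈ Finset.range (k + 1), ∑ b ∈ Finset.range (k + 1),
      (c a * (starRingEnd ℂ) (c b)).re * ∫ x, dPsi 1 k a x * dPsi 1 k b x =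
      ∑ a ∈ Finset.range (k + 1), (((k:ℝ) - a) + 1 / 2) * ‖c a‖ ^ 2 := by
    rw [← diag c fun a => ((k:ℝ) - a) + 1 / 2]
    refine Finset.sum_congr rfl fun a ha => Finset.sum_congr rfl fun b hb => ?_
    rw [Finset.mem_range] at ha hb
    rw [(dPsi_mul k (show a ≤ k by omega) (show b ≤ k by omega)).2]
  rw [h3, h4, ← Finset.sum_add_distrib, Finset.mul_sum]
  exact Finset.sum_congr rfl fun a _ => by ring

end Pool.Agent.H45.LT.Osc
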