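import Mathlib
import Pool.Agent.H45.LT.Osc4

set_option autoImplicit false

/-!
# The kinetic inequality for systems of stationary states
-/

open MeasureTheory Set Real

namespace Pool.Agent.H45.LT.Osc

/-! ### The ordering of the levels -/

theorem level_split {N : ℕ} (k : Fin N → ℕ) (f : Fin N → ℝ) (K : ℕ) :
    ∑ m, (if k m < K then f m else 0) =
      ∑ l ∈ Finset.range K, ∑ m, (if k m = l then f m else 0) := by
  rw [Finset.sum_comm]
  refine Finset.sum_congr rfl fun m _ => ?_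
  rw [Finset.sum_ite_eq]
  simp only [Finset.mem_range]

theorem order_sum {N : ℕ} (k : Fin N → ℕ) (f : Fin N → ℝ) :
    (∑ n, f n) ^ 2 = ∑ n, f n * (2 * ∑ l ∈ Finset.range (k n), ∑ m, (if k m = l then f m else 0) +
      ∑ m, (if k m = k n then f m else 0)) := by
  have h1 : (∑ n, f n) ^ 2 = ∑ n, ∑ m, f n * f m := by
    rw [sq, Finset.sum_mul_sum]
  have h2 : ∀ n m, f n * f m = (if k m < k n then f n * f m else 0) +
      (if k n < k m then f n * f m else 0) + (if k m = k n then f n * f m else 0) := by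
    intro n m
    rcases lt_trichotomy (k m) (k n) with h | h | h
    · rw [if_pos h, if_neg (by omega), if_neg (by omega)]; ring
    · rw [if_neg (by omega), if_neg (by omega), if_pos h]; ring
    · rw [if_neg (by omega), if_pos h, if_neg (by omega)]; ring
  have h3 : ∑ n, ∑ m, (if k n < k m then f n * f m else 0) =
      ∑ n, ∑ m, (if k m < k n then f n * f m else 0) := by
    rw [Finset.sum_comm]
    refine Finset.sum_congr rfl fun n _ => Finset.sum_congr rfl fun m _ => ?_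
    rw [mul_comm (f m)]
  rw [h1]
  have h4 : ∑ n, ∑ m, f n * f m = ∑ n, ∑ m, (if k m < k n then f n * f m else 0) +
      ∑ n, ∑ m, (if k n < k m then f n * f m else 0) +
      ∑ n, ∑ m, (if k m = k n then f n * f m else 0) := by
    rw [← Finset.sum_add_distrib, ← Finset.sum_add_distrib]
    refine Finset.sum_congr rfl fun n _ => ?_
    rw [← Finset.sum_add_distrib, ← Finset.sum_add_distrib]
    exact Finset.sum_congr rfl fun m _ => h2 n m
  rw [h4, h3, ← Finset.sum_add_distrib, ← Finset.sum_add_distrib]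
  refine Finset.sum_congr rfl fun n _ => ?_
  rw [← level_split]
  have h5 : ∑ m, (if k m < k n then f n * f m else 0) =
      f n * ∑ m, (if k m < k n then f m else 0) := by
    rw [Finset.mul_sum]
    exact Finset.sum_congr rfl fun m _ => by rw [mul_ite, mul_zero]
  have h6 : ∑ m, (if k m = k n then f n * f m else 0) =
      f n * ∑ m, (if k m = k n then f m else 0) := by
    rw [Finset.mul_sum]
    exact Finset.sum_congr rfl fun m _ => by rw [mul_ite, mul_zero]
  rw [h5, h6]; ring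

/-! ### Bessel's inequality -/

/-- the coefficient vector -/
noncomputable def vec (l : ℕ) (c : ℕ → ℂ) : EuclideanSpace ℂ (Fin (l + 1)) :=
  WithLp.toLp 2 fun a => c a

theorem vec_inner (l : ℕ) (c d : ℕ → ℂ) : inner ℂ (vec l c) (vec l d) =
    ∑ a ∈ Finset.range (l + 1), (starRingEnd ℂ) (c a) * d a := by
  rw [PiLp.inner_apply, Finset.sum_range]
  refine Finset.sum_congr rfl fun a _ => ?_
  simp only [vec, RCLike.inner_apply]
  ring

/-- the values of the basis functions at `x` -/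
noncomputable def pt (l : ℕ) (x : Fin 2 → ℝ) : EuclideanSpace ℂ (Fin (l + 1)) :=
  vec l fun a => (Psi l a x : ℂ)

theorem pt_norm (l : ℕ) (x : Fin 2 → ℝ) : ‖pt l x‖ ^ 2 = rho l x := by
  rw [EuclideanSpace.norm_sq_eq, rho, Finset.sum_range]
  refine Finset.sum_congr rfl fun a _ => ?_
  simp only [pt, vec, Complex.norm_real, Real.norm_eq_abs, sq_abs]
  ring

theorem pt_inner (l : ℕ) (c : ℕ → ℂ) (x : Fin 2 → ℝ) :
    ‖(inner ℂ (vec l c) (pt l x) : ℂ)‖ = ‖st l c x‖ := by
  rw [pt, vec_inner, st, ← RCLike.norm_conj (∑ a ∈ Finset.range (l + 1), c a * (Psi l a x : ℂ)),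
    map_sum]
  congr 1
  refine Finset.sum_congr rfl fun a _ => ?_
  rw [map_mul, Complex.conj_ofReal]

theorem bessel {N : ℕ} {k : Fin N → ℕ} {c : Fin N → ℕ → ℂ}
    (ho : ∀ n m, k n = k m →
      ∑ a ∈ Finset.range (k n + 1), (starRingEnd ℂ) (c n a) * c m a = if n = m then 1 else 0)
    (l : ℕ) (x : Fin 2 → ℝ) :
    ∑ m, (if k m = l then ‖st (k m) (c m) x‖ ^ 2 else 0) ≤ rho l x := by
  have hv : Orthonormal ℂ (fun m : {m : Fin N // k m = l} => vec l (c m)) := by
    rw [orthonormal_iff_ite]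
    intro m m'
    rw [vec_inner]
    have h := ho m m' (by rw [m.2, m'.2])
    rw [m.2] at h
    rw [h]
    simp only [Subtype.ext_iff]
  have h1 := hv.sum_inner_products_le (x := pt l x) (s := Finset.univ)
  rw [pt_norm] at h1
  refine le_trans (le_of_eq ?_) h1
  rw [← Finset.sum_filter]
  rw [Finset.sum_subtype (p := fun m => k m = l) (Finset.univ.filter fun m => k m = l)
    (fun m => by simp)]
  refine Finset.sum_congr rfl fun m _ => ?_
  rw [pt_inner, m.2]

theorem rho_cont (l : ℕ) : Continuous (rho l) := by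
  unfold rho
  exact continuous_finsetSum _ fun a _ => (Psi_cont l a).mul (Psi_cont l a)

theorem dens_cont (k : ℕ) : Continuous (dens k) := by
  unfold dens
  exact (continuous_const.mul (continuous_finsetSum _ fun l _ => rho_cont l)).add (rho_cont k)

/-- the data of a density matrix which commutes with the oscillator -/
structure Sys {N : ℕ} (k : Fin N → ℕ) (c : Fin N → ℕ → ℂ) (ν : Fin N → ℝ) : Prop where
  ortho : ∀ n m, k n = k m →
    ∑ a ∈ Finset.range (k n + 1), (starRingEnd ℂ) (c n a) * c m a = if n = m then 1 else 0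
  nonneg : ∀ n, 0 ≤ ν n
  le_one : ∀ n, ν n ≤ 1

variable {N : ℕ} {k : Fin N → ℕ} {c : Fin N → ℕ → ℂ} {ν : Fin N → ℝ}

theorem Sys.norm (H : Sys k c ν) (n : Fin N) :
    ∑ a ∈ Finset.range (k n + 1), ‖c n a‖ ^ 2 = 1 := by
  have h := H.ortho n n rfl
  rw [if_pos rfl] at h
  have h2 : ((∑ a ∈ Finset.range (k n + 1), ‖c n a‖ ^ 2 : ℝ) : ℂ) = 1 := by
    rw [← h]
    push_cast
    refine Finset.sum_congr rfl fun a _ => ?_
    rw [mul_comm, Complex.mul_conj, Complex.normSq_eq_norm_sq]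
    push_cast; rfl
  exact_mod_cast h2

/-- the weighted densities of the levels -/
noncomputable def lev (k : Fin N → ℕ) (c : Fin N → ℕ → ℂ) (ν : Fin N → ℝ) (l : ℕ)
    (x : Fin 2 → ℝ) : ℝ :=
  ∑ m, (if k m = l then ν m * ‖st (k m) (c m) x‖ ^ 2 else 0)

theorem Sys.lev_le (H : Sys k c ν) (l : ℕ) (x : Fin 2 → ℝ) : lev k c ν l x ≤ rho l x := by
  refine le_trans (Finset.sum_le_sum fun m _ => ?_) (bessel H.ortho l x)
  split_ifs
  · exact mul_le_of_le_one_left (sq_nonneg _) (H.le_one m)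
  · exact le_rfl

/-- the difference `2 ∑_(l < k) (ρ_l - ρ_l^ν) + (ρ_k - ρ_k^ν)` -/
noncomputable def gap (k : Fin N → ℕ) (c : Fin N → ℕ → ℂ) (ν : Fin N → ℝ) (K : ℕ)
    (x : Fin 2 → ℝ) : ℝ :=
  2 * ∑ l ∈ Finset.range K, (rho l x - lev k c ν l x) + (rho K x - lev k c ν K x)

theorem Sys.gap_nonneg (H : Sys k c ν) (K : ℕ) (x : Fin 2 → ℝ) : 0 ≤ gap k c ν K x := by
  have h1 : 0 ≤ ∑ l ∈ Finset.range K, (rho l x - lev k c ν l x) :=
    Finset.sum_nonneg fun l _ => sub_nonneg.2 (H.lev_le l x)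
  have h2 := sub_nonneg.2 (H.lev_le K x)
  unfold gap
  linarith

theorem point_eq (k : Fin N → ℕ) (c : Fin N → ℕ → ℂ) (ν : Fin N → ℝ) (x : Fin 2 → ℝ) :
    (∑ n, ν n * ‖st (k n) (c n) x‖ ^ 2) ^ 2 =
      ∑ n, ν n * (‖st (k n) (c n) x‖ ^ 2 * dens (k n) x) -
      ∑ n, ν n * (‖st (k n) (c n) x‖ ^ 2 * gap k c ν (k n) x) := by
  rw [order_sum k fun n => ν n * ‖st (k n) (c n) x‖ ^ 2, ← Finset.sum_sub_distrib]
  refine Finset.sum_congr rfl fun n _ => ?_
  have h1 : 2 * ∑ l ∈ Finset.range (k n), lev k c ν l x + lev k c ν (k n) x =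
      dens (k n) x - gap k c ν (k n) x := by
    unfold dens gap
    rw [Finset.sum_sub_distrib]; ring
  have h2 : (2 * ∑ l ∈ Finset.range (k n), ∑ m,
      (if k m = l then ν m * ‖st (k m) (c m) x‖ ^ 2 else 0) +
      ∑ m, (if k m = k n then ν m * ‖st (k m) (c m) x‖ ^ 2 else 0)) =
      dens (k n) x - gap k c ν (k n) x := h1
  rw [h2]; ring

theorem right_int (k : Fin N → ℕ) (c : Fin N → ℕ → ℂ) (ν : Fin N → ℝ) :
    Integrable fun x => ∑ n, ν n * (‖st (k n) (c n) x‖ ^ 2 * dens (k n) x) :=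
  integrable_finsetSum _ fun n _ => (st_dens (k n) (c n)).1.const_mul _

theorem Sys.right_eq (H : Sys k c ν) :
    2 * π * ∫ x, ∑ n, ν n * (‖st (k n) (c n) x‖ ^ 2 * dens (k n) x) =
      ∑ n, ν n * ((k n : ℝ) + 1) := by
  rw [integral_finsetSum _ fun n _ => (st_dens (k n) (c n)).1.const_mul _, Finset.mul_sum]
  refine Finset.sum_congr rfl fun n _ => ?_
  rw [integral_const_mul]
  have h := (st_dens (k n) (c n)).2
  rw [H.norm n, mul_one] at h
  rw [← h]; ring

theorem left_cont (k : Fin N → ℕ) (c : Fin N → ℕ → ℂ) (ν : Fin N → ℝ) :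
    Continuous fun x => ∑ n, ν n * ‖st (k n) (c n) x‖ ^ 2 :=
  continuous_finsetSum _ fun n _ => continuous_const.mul ((st_cont (k n) (c n)).norm.pow 2)

theorem lev_cont (k : Fin N → ℕ) (c : Fin N → ℕ → ℂ) (ν : Fin N → ℝ) (l : ℕ) :
    Continuous (lev k c ν l) := by
  unfold lev
  refine continuous_finsetSum _ fun n _ => ?_
  split_ifs
  · exact continuous_const.mul ((st_cont (k n) (c n)).norm.pow 2)
  · exact continuous_const

theorem Sys.point_le (H : Sys k c ν) (x : Fin 2 → ℝ) :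
    (∑ n, ν n * ‖st (k n) (c n) x‖ ^ 2) ^ 2 ≤
      ∑ n, ν n * (‖st (k n) (c n) x‖ ^ 2 * dens (k n) x) := by
  rw [point_eq]
  have h : 0 ≤ ∑ n, ν n * (‖st (k n) (c n) x‖ ^ 2 * gap k c ν (k n) x) :=
    Finset.sum_nonneg fun n _ => mul_nonneg (H.nonneg n)
      (mul_nonneg (sq_nonneg _) (H.gap_nonneg _ x))
  linarith

theorem Sys.left_int (H : Sys k c ν) :
    Integrable fun x => (∑ n, ν n * ‖st (k n) (c n) x‖ ^ 2) ^ 2 := by
  refine (right_int k c ν).mono' ((left_cont k c ν).pow 2).aestronglyMeasurable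
    (ae_of_all _ fun x => ?_)
  rw [Real.norm_eq_abs, abs_of_nonneg (sq_nonneg _)]
  exact H.point_le x

/-- **The kinetic inequality.** -/
theorem Sys.main (H : Sys k c ν) :
    2 * π * ∫ x, (∑ n, ν n * ‖st (k n) (c n) x‖ ^ 2) ^ 2 ≤ ∑ n, ν n * ((k n : ℝ) + 1) := by
  rw [← H.right_eq]
  refine mul_le_mul_of_nonneg_left ?_ (by positivity)
  exact integral_mono H.left_int (right_int k c ν) fun x => H.point_le x

theorem Sys.deficit (H : Sys k c ν) :
    ∑ n, ν n * ((k n : ℝ) + 1) - 2 * π * ∫ x, (∑ n, ν n * ‖st (k n) (c n) x‖ ^ 2) ^ 2 =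
      2 * π * ∫ x, ∑ n, ν n * (‖st (k n) (c n) x‖ ^ 2 * gap k c ν (k n) x) := by
  rw [← H.right_eq, ← mul_sub, ← integral_sub (right_int k c ν) H.left_int]
  congr 1
  refine integral_congr_ae (ae_of_all _ fun x => ?_)
  show ∑ n, ν n * (‖st (k n) (c n) x‖ ^ 2 * dens (k n) x) -
    (∑ n, ν n * ‖st (k n) (c n) x‖ ^ 2) ^ 2 = _
  rw [point_eq]; ring

end Pool.Agent.H45.LT.Osc
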