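import Mathlib
import Pool.Agent.H45.LT.Ly1
import Pool.Agent.H45.LT.Osc5

set_option autoImplicit false

/-!
# Complex families, and the ordering of the levels
-/

open MeasureTheory Set Filter Topology Real
open scoped Matrix
open LTd (pd Kcl Mat)

namespace Pool.Agent.H45.LT.Ly

theorem normsq (z : ℂ) : ‖z‖ ^ 2 = z.re ^ 2 + z.im ^ 2 := by
  rw [Complex.sq_norm, Complex.normSq_apply]; ring

/-- the real and the imaginary parts -/
noncomputable def RI {m N : ℕ} (v : Fin N → (Fin m → ℝ) → ℂ) : Fin (N + N) → (Fin m → ℝ) → ℝ :=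
  Fin.append (fun i x => (v i x).re) (fun i x => (v i x).im)

section

variable {m N : ℕ} {v : Fin N → (Fin m → ℝ) → ℂ}

theorem RI_l (v : Fin N → (Fin m → ℝ) → ℂ) (i : Fin N) :
    RI v (Fin.castAdd N i) = fun x => (v i x).re := Fin.append_left _ _ i

theorem RI_r (v : Fin N → (Fin m → ℝ) → ℂ) (i : Fin N) :
    RI v (Fin.natAdd N i) = fun x => (v i x).im := Fin.append_right _ _ i

theorem RI_d (hv : ∀ i, ContDiff ℝ 1 (v i)) (i : Fin (N + N)) : ContDiff ℝ 1 (RI v i) := by
  refine Fin.addCases (fun i => ?_) (fun i => ?_) i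
  · rw [RI_l]; exact Complex.reCLM.contDiff.comp (hv i)
  · rw [RI_r]; exact Complex.imCLM.contDiff.comp (hv i)

theorem RI_c (hc : ∀ i, HasCompactSupport (v i)) (i : Fin (N + N)) :
    HasCompactSupport (RI v i) := by
  refine Fin.addCases (fun i => ?_) (fun i => ?_) i
  · rw [RI_l]; exact (hc i).comp_left (g := Complex.re) Complex.zero_re
  · rw [RI_r]; exact (hc i).comp_left (g := Complex.im) Complex.zero_im

theorem RI_sq (v : Fin N → (Fin m → ℝ) → ℂ) (x : Fin m → ℝ) :
    ∑ i, RI v i x ^ 2 = ∑ i, ‖v i x‖ ^ 2 := by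
  rw [Fin.sum_univ_add, ← Finset.sum_add_distrib]
  simp only [RI_l, RI_r, normsq]

theorem fd_int (hv : ∀ i, ContDiff ℝ 1 (v i)) (hc : ∀ i, HasCompactSupport (v i)) (i : Fin N)
    (q : Fin m) : Integrable (fun x => ‖fderiv ℝ (v i) x (Pi.single q 1)‖ ^ 2) := by
  have h1 : Continuous fun x => fderiv ℝ (v i) x (Pi.single q 1) :=
    ((hv i).continuous_fderiv (by norm_num)).clm_apply continuous_const
  have h2 : HasCompactSupport fun x => fderiv ℝ (v i) x (Pi.single q 1) :=
    ((hc i).fderiv (𝕜 := ℝ)).comp_left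
      (g := fun L : (Fin m → ℝ) →L[ℝ] ℂ => L (Pi.single q 1)) (by simp)
  have h3 : HasCompactSupport fun x => ‖fderiv ℝ (v i) x (Pi.single q 1)‖ ^ 2 :=
    h2.comp_left (g := fun z : ℂ => ‖z‖ ^ 2) (by simp)
  exact (h1.norm.pow 2).integrable_of_hasCompactSupport h3

theorem RI_kin (hv : ∀ i, ContDiff ℝ 1 (v i)) (hc : ∀ i, HasCompactSupport (v i)) :
    ∫ x, ∑ q, ∑ i, pd q (RI v i) x ^ 2 =
      ∑ i, ∑ q, ∫ x, ‖fderiv ℝ (v i) x (Pi.single q 1)‖ ^ 2 := by
  have hpdl : ∀ i q x, pd q (fun x => (v i x).re) x = (fderiv ℝ (v i) x (Pi.single q 1)).re := by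
    intro i q x
    unfold pd
    have h1 : HasFDerivAt (fun x => (v i x).re) (Complex.reCLM.comp (fderiv ℝ (v i) x)) x :=
      Complex.reCLM.hasFDerivAt.comp x (((hv i).differentiable (by norm_num)) x).hasFDerivAt
    rw [h1.fderiv]
    rfl
  have hpdr : ∀ i q x, pd q (fun x => (v i x).im) x = (fderiv ℝ (v i) x (Pi.single q 1)).im := by
    intro i q x
    unfold pd
    have h1 : HasFDerivAt (fun x => (v i x).im) (Complex.imCLM.comp (fderiv ℝ (v i) x)) x :=
      Complex.imCLM.hasFDerivAt.comp x (((hv i).differentiable (by norm_num)) x).hasFDerivAt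
    rw [h1.fderiv]
    rfl
  have hGs : ∀ x, ∑ q, ∑ i, pd q (RI v i) x ^ 2 =
      ∑ i, ∑ q, ‖fderiv ℝ (v i) x (Pi.single q 1)‖ ^ 2 := by
    intro x
    rw [Finset.sum_comm, Fin.sum_univ_add, ← Finset.sum_add_distrib]
    refine Finset.sum_congr rfl fun i _ => ?_
    rw [← Finset.sum_add_distrib]
    simp only [RI_l, RI_r, hpdl, hpdr, normsq]
  rw [integral_congr_ae (Eventually.of_forall hGs),
    integral_finsetSum _ (fun i _ => integrable_finsetSum _ (fun q _ => fd_int hv hc i q))]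
  refine Finset.sum_congr rfl fun i _ => ?_
  rw [integral_finsetSum _ (fun q _ => fd_int hv hc i q)]

theorem slice2C (hv : ∀ i, ContDiff ℝ 1 (v i)) (hc : ∀ i, HasCompactSupport (v i)) :
    Kcl (m + 2) * ∫ x, (∑ i, ‖v i x‖ ^ 2) ^ (1 + 2 / ((m + 2 : ℕ) : ℝ)) ≤
      (∑ i, ∑ q, ∫ x, ‖fderiv ℝ (v i) x (Pi.single q 1)‖ ^ 2) +
        2 * π * ∑ i, ∑ j, Gr (RI v) i j ^ 2 := by
  have h := slice2 (RI v) (RI_d hv) (RI_c hc)
  simp only [RI_sq] at h
  rwa [RI_kin hv hc] at h

theorem slice1C (hv : ∀ i, ContDiff ℝ 1 (v i)) (hc : ∀ i, HasCompactSupport (v i)) :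
    Kcl (m + 1) * ∫ x, (∑ i, ‖v i x‖ ^ 2) ^ (1 + 2 / ((m + 1 : ℕ) : ℝ)) ≤
      (∑ i, ∑ q, ∫ x, ‖fderiv ℝ (v i) x (Pi.single q 1)‖ ^ 2) +
        π ^ 2 / 3 * ∑ i, ∑ j, ∑ l, Gr (RI v) i j * Gr (RI v) j l * Gr (RI v) l i := by
  have h := slice1 (RI v) (RI_d hv) (RI_c hc)
  simp only [RI_sq] at h
  rwa [RI_kin hv hc] at h

/-- the coefficients of a real function -/
theorem RI_coef (hv : ∀ i, Continuous (v i)) {f : (Fin m → ℝ) → ℝ}
    (hf : Continuous f) (hfs : HasCompactSupport f) (i : Fin N) :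
    (∫ x, f x * RI v (Fin.castAdd N i) x) ^ 2 + (∫ x, f x * RI v (Fin.natAdd N i) x) ^ 2 =
      ‖∫ x, (f x : ℂ) * v i x‖ ^ 2 := by
  have hint : Integrable (fun t : Fin m → ℝ => (f t : ℂ) * v i t) := by
    refine Continuous.integrable_of_hasCompactSupport ?_ ?_
    · exact (Complex.continuous_ofReal.comp hf).mul (hv i)
    · exact (hfs.comp_left (g := fun x : ℝ => (x : ℂ)) Complex.ofReal_zero).mul_right
  rw [normsq]
  have e1 : (∫ t : Fin m → ℝ, (f t : ℂ) * v i t).re = ∫ t, f t * RI v (Fin.castAdd N i) t := by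
    rw [RI_l]
    refine (integral_re hint).symm.trans ?_
    exact integral_congr_ae (Eventually.of_forall fun t => by simp)
  have e2 : (∫ t : Fin m → ℝ, (f t : ℂ) * v i t).im = ∫ t, f t * RI v (Fin.natAdd N i) t := by
    rw [RI_r]
    refine (integral_im hint).symm.trans ?_
    exact integral_congr_ae (Eventually.of_forall fun t => by simp)
  rw [e1, e2]

end

/-! ### The ordering of the levels -/

theorem order2 {ι : Type*} [Fintype ι] (k : ι → ℕ) (B : ι → ι → ℝ) (hB : ∀ i j, B i j = B j i) :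
    ∑ i, ∑ j, B i j = ∑ i, (2 * ∑ l ∈ Finset.range (k i), ∑ j, (if k j = l then B i j else 0) +
      ∑ j, (if k j = k i then B i j else 0)) := by
  have h2 : ∀ n m, B n m = (if k m < k n then B n m else 0) +
      (if k n < k m then B n m else 0) + (if k m = k n then B n m else 0) := by
    intro n m
    rcases lt_trichotomy (k m) (k n) with h | h | h
    · rw [if_pos h, if_neg (by omega), if_neg (by omega)]; ring
    · rw [if_neg (by omega), if_neg (by omega), if_pos h]; ring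
    · rw [if_neg (by omega), if_pos h, if_neg (by omega)]; ring
  have h3 : ∑ n, ∑ m, (if k n < k m then B n m else 0) =
      ∑ n, ∑ m, (if k m < k n then B n m else 0) := by
    rw [Finset.sum_comm]
    refine Finset.sum_congr rfl fun n _ => Finset.sum_congr rfl fun m _ => ?_
    rw [hB]
  have h4 : ∑ n, ∑ m, B n m = ∑ n, ∑ m, (if k m < k n then B n m else 0) +
      ∑ n, ∑ m, (if k n < k m then B n m else 0) +
      ∑ n, ∑ m, (if k m = k n then B n m else 0) := by
    rw [← Finset.sum_add_distrib, ← Finset.sum_add_distrib]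
    refine Finset.sum_congr rfl fun n _ => ?_
    rw [← Finset.sum_add_distrib, ← Finset.sum_add_distrib]
    exact Finset.sum_congr rfl fun m _ => h2 n m
  rw [h4, h3, ← Finset.sum_add_distrib, ← Finset.sum_add_distrib]
  refine Finset.sum_congr rfl fun n _ => ?_
  have h5 : ∑ l ∈ Finset.range (k n), ∑ m, (if k m = l then B n m else 0) =
      ∑ m, (if k m < k n then B n m else 0) := by
    rw [Finset.sum_comm]
    refine Finset.sum_congr rfl fun m _ => ?_
    rw [Finset.sum_ite_eq]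
    simp only [Finset.mem_range]
  rw [h5]; ring

/-- the square of the Gram matrix, if the operators of the levels are at most `s_l` -/
theorem gram2 {m N : ℕ} {v : Fin N → (Fin m → ℝ) → ℂ} (k : Fin N → ℕ)
    (hv : ∀ i, Continuous (v i)) (hc : ∀ i, HasCompactSupport (v i)) (s : ℕ → ℝ)
    (hb : ∀ (l : ℕ) (f : (Fin m → ℝ) → ℝ), Continuous f → HasCompactSupport f →
      ∑ n, (if k n = l then ‖∫ y, (f y : ℂ) * v n y‖ ^ 2 else 0) ≤ s l * ∫ y, f y ^ 2) :
    ∑ i, ∑ j, Gr (RI v) i j ^ 2 ≤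
      ∑ n, (2 * ∑ l ∈ Finset.range (k n), s l + s (k n)) * ∫ y, ‖v n y‖ ^ 2 := by
  have hRc : ∀ i, Continuous (RI v i) := by
    intro i
    refine Fin.addCases (fun i => ?_) (fun i => ?_) i
    · rw [RI_l]; exact Complex.continuous_re.comp (hv i)
    · rw [RI_r]; exact Complex.continuous_im.comp (hv i)
  have hsym := (Gr_psd (RI v) hRc (RI_c hc)).1
  set k' : Fin (N + N) → ℕ := Fin.append k k with hk'
  have hkl : ∀ i, k' (Fin.castAdd N i) = k i := fun i => Fin.append_left _ _ i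
  have hkr : ∀ i, k' (Fin.natAdd N i) = k i := fun i => Fin.append_right _ _ i
  rw [order2 k' (fun i j => Gr (RI v) i j ^ 2) (fun i j => by rw [hsym])]
  -- one level
  have hlev : ∀ (i : Fin (N + N)) (l : ℕ),
      ∑ j, (if k' j = l then Gr (RI v) i j ^ 2 else 0) ≤ s l * ∫ y, RI v i y ^ 2 := by
    intro i l
    refine le_trans (le_of_eq ?_) (hb l (RI v i) (hRc i) (RI_c hc i))
    rw [Fin.sum_univ_add, ← Finset.sum_add_distrib]
    refine Finset.sum_congr rfl fun n _ => ?_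
    rw [hkl, hkr]
    split_ifs
    · rw [← RI_coef hv (hRc i) (RI_c hc i)]
      rfl
    · ring
  have hI : ∀ i, Integrable fun y => RI v i y ^ 2 := fun i => by
    have h1 : Continuous fun y => RI v i y ^ 2 := (hRc i).pow 2
    have h2 : HasCompactSupport fun y => RI v i y ^ 2 :=
      (RI_c hc i).comp_left (g := fun t : ℝ => t ^ 2) (by norm_num)
    exact h1.integrable_of_hasCompactSupport h2
  have h1 : ∀ i, (2 * ∑ l ∈ Finset.range (k' i), ∑ j, (if k' j = l then Gr (RI v) i j ^ 2 else 0) +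
      ∑ j, (if k' j = k' i then Gr (RI v) i j ^ 2 else 0)) ≤
      (2 * ∑ l ∈ Finset.range (k' i), s l + s (k' i)) * ∫ y, RI v i y ^ 2 := by
    intro i
    have h2 := hlev i (k' i)
    have h3 : ∑ l ∈ Finset.range (k' i), ∑ j, (if k' j = l then Gr (RI v) i j ^ 2 else 0) ≤
        (∑ l ∈ Finset.range (k' i), s l) * ∫ y, RI v i y ^ 2 := by
      rw [Finset.sum_mul]
      exact Finset.sum_le_sum fun l _ => hlev i l
    linarith
  refine le_trans (Finset.sum_le_sum fun i _ => h1 i) (le_of_eq ?_)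
  rw [Fin.sum_univ_add, ← Finset.sum_add_distrib]
  refine Finset.sum_congr rfl fun n _ => ?_
  rw [hkl, hkr, ← mul_add, ← integral_add (hI _) (hI _)]
  congr 1
  refine integral_congr_ae (Eventually.of_forall fun y => ?_)
  simp only [RI_l, RI_r, normsq]

end Pool.Agent.H45.LT.Ly
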