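import Mathlib
import Pool.Agent.H45.LT.Ly2

set_option autoImplicit false

/-!
# The trace of the cube, ordering of the levels
-/

open MeasureTheory Set Filter Topology Real
open scoped Matrix
open LTd (pd Kcl Mat PSD)

namespace Pool.Agent.H45.LT.Di

open Pool.Agent.H45.LT.Ly (Gr Gr_psd)

section

variable {ι : Type*} [Fintype ι]

theorem sw12 (f : ι → ι → ι → ℝ) : ∑ i, ∑ j, ∑ l, f i j l = ∑ i, ∑ j, ∑ l, f j i l :=
  Finset.sum_comm

theorem sw23 (f : ι → ι → ι → ℝ) : ∑ i, ∑ j, ∑ l, f i j l = ∑ i, ∑ j, ∑ l, f i l j :=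
  Finset.sum_congr rfl fun _ _ => Finset.sum_comm

theorem sw13 (f : ι → ι → ι → ℝ) : ∑ i, ∑ j, ∑ l, f i j l = ∑ i, ∑ j, ∑ l, f l j i := by
  rw [sw12 f, sw23 (fun i j l => f j i l), sw12 (fun i j l => f l i j)]

theorem order3 (k : ι → ℕ) (B : ι → ι → ι → ℝ) (h1 : ∀ i j l, B i j l = B j i l)
    (h2 : ∀ i j l, B i j l = B i l j) :
    ∑ i, ∑ j, ∑ l, B i j l =
      3 * (∑ i, ∑ j, ∑ l, if k j < k i ∧ k l < k i then B i j l else 0) +
      3 * (∑ i, ∑ j, ∑ l, if k j = k i ∧ k l < k i then B i j l else 0) +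
      ∑ i, ∑ j, ∑ l, if k j = k i ∧ k l = k i then B i j l else 0 := by
  have h3 : ∀ i j l, B i j l = B l j i := fun i j l => by rw [h1, h2, h1]
  have key : ∀ i j l, B i j l =
      (if k j < k i ∧ k l < k i then B i j l else 0) +
      (if k i < k j ∧ k l < k j then B i j l else 0) +
      (if k j < k l ∧ k i < k l then B i j l else 0) +
      (if k j = k i ∧ k l < k i then B i j l else 0) +
      (if k l = k i ∧ k j < k i then B i j l else 0) +
      (if k j = k l ∧ k i < k l then B i j l else 0) +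
      (if k j = k i ∧ k l = k i then B i j l else 0) := by
    intro i j l
    rcases lt_trichotomy (k j) (k i) with h | h | h <;>
    rcases lt_trichotomy (k l) (k i) with h' | h' | h' <;>
    rcases lt_trichotomy (k l) (k j) with h'' | h'' | h'' <;>
    first
      | (exfalso; omega)
      | (split_ifs <;> first | (exfalso; omega) | ring)
  have e : ∑ i, ∑ j, ∑ l, B i j l =
      (∑ i, ∑ j, ∑ l, if k j < k i ∧ k l < k i then B i j l else 0) +
      (∑ i, ∑ j, ∑ l, if k i < k j ∧ k l < k j then B i j l else 0) +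
      (∑ i, ∑ j, ∑ l, if k j < k l ∧ k i < k l then B i j l else 0) +
      (∑ i, ∑ j, ∑ l, if k j = k i ∧ k l < k i then B i j l else 0) +
      (∑ i, ∑ j, ∑ l, if k l = k i ∧ k j < k i then B i j l else 0) +
      (∑ i, ∑ j, ∑ l, if k j = k l ∧ k i < k l then B i j l else 0) +
      (∑ i, ∑ j, ∑ l, if k j = k i ∧ k l = k i then B i j l else 0) := by
    simp only [← Finset.sum_add_distrib]
    exact Finset.sum_congr rfl fun i _ => Finset.sum_congr rfl fun j _ =>
      Finset.sum_congr rfl fun l _ => key i j l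
  have e2 : (∑ i, ∑ j, ∑ l, if k i < k j ∧ k l < k j then B i j l else 0) =
      ∑ i, ∑ j, ∑ l, if k j < k i ∧ k l < k i then B i j l else 0 := by
    rw [sw12]
    exact Finset.sum_congr rfl fun i _ => Finset.sum_congr rfl fun j _ =>
      Finset.sum_congr rfl fun l _ => by rw [← h1]
  have e3 : (∑ i, ∑ j, ∑ l, if k j < k l ∧ k i < k l then B i j l else 0) =
      ∑ i, ∑ j, ∑ l, if k j < k i ∧ k l < k i then B i j l else 0 := by
    rw [sw13]
    exact Finset.sum_congr rfl fun i _ => Finset.sum_congr rfl fun j _ =>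
      Finset.sum_congr rfl fun l _ => by rw [← h3]
  have e4 : (∑ i, ∑ j, ∑ l, if k l = k i ∧ k j < k i then B i j l else 0) =
      ∑ i, ∑ j, ∑ l, if k j = k i ∧ k l < k i then B i j l else 0 := by
    rw [sw23]
    exact Finset.sum_congr rfl fun i _ => Finset.sum_congr rfl fun j _ =>
      Finset.sum_congr rfl fun l _ => by rw [← h2]
  have e5 : (∑ i, ∑ j, ∑ l, if k j = k l ∧ k i < k l then B i j l else 0) =
      ∑ i, ∑ j, ∑ l, if k j = k i ∧ k l < k i then B i j l else 0 := by
    rw [sw13]
    exact Finset.sum_congr rfl fun i _ => Finset.sum_congr rfl fun j _ =>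
      Finset.sum_congr rfl fun l _ => by rw [← h3]
  rw [e, e2, e3, e4, e5]
  ring

end

variable {m n : ℕ}

/-- Cauchy-Schwarz for two functions of a family -/
theorem gcs (s : Finset (Fin n)) (a b : Fin n → ℝ) {X Y : ℝ} (hX : 0 ≤ X)
    (ha : ∑ j ∈ s, a j ^ 2 ≤ X) (hb : ∑ j ∈ s, b j ^ 2 ≤ Y) :
    (∑ j ∈ s, a j * b j) ^ 2 ≤ X * Y :=
  (Finset.sum_mul_sq_le_sq_mul_sq s a b).trans
    (mul_le_mul ha hb (Finset.sum_nonneg fun _ _ => sq_nonneg _) hX)

/-- two levels -/
theorem two_levels (w : Fin n → (Fin m → ℝ) → ℝ) (hw : ∀ i, Continuous (w i))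
    (hc : ∀ i, HasCompactSupport (w i)) (k : Fin n → ℕ)
    (hb : ∀ (b : ℕ) (f : (Fin m → ℝ) → ℝ), Continuous f → HasCompactSupport f →
      ∑ j ∈ Finset.univ.filter (fun j => k j = b), (∫ y, f y * w j y) ^ 2 ≤ ∫ y, f y ^ 2)
    (i : Fin n) (b c : ℕ) :
    ∑ j ∈ Finset.univ.filter (fun j => k j = b), ∑ l ∈ Finset.univ.filter (fun l => k l = c),
      Gr w i j * Gr w j l * Gr w l i ≤ Gr w i i := by
  have hsym := (Gr_psd w hw hc).1
  have iW : ∀ i j, Integrable (fun z => w i z * w j z) volume := fun i j =>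
      ((hw i).mul (hw j)).integrable_of_hasCompactSupport ((hc i).mul_right)
  set f : (Fin m → ℝ) → ℝ := fun y => ∑ j ∈ Finset.univ.filter (fun j => k j = b),
    Gr w i j * w j y with hf
  have hfc : Continuous f := continuous_finsetSum _ fun j _ => continuous_const.mul (hw j)
  have hfs : HasCompactSupport f := by
    refine HasCompactSupport.intro (isCompact_iUnion fun j => hc j) fun y hy => ?_
    refine Finset.sum_eq_zero fun j _ => ?_
    rw [image_eq_zero_of_notMem_tsupport fun h => hy (mem_iUnion.2 ⟨j, h⟩), mul_zero]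
  have hfw : ∀ (g : (Fin m → ℝ) → ℝ), Continuous g → HasCompactSupport g →
      ∫ y, f y * g y = ∑ j ∈ Finset.univ.filter (fun j => k j = b),
        Gr w i j * ∫ y, w j y * g y := by
    intro g hg hgs
    have h1 : ∀ y, f y * g y = ∑ j ∈ Finset.univ.filter (fun j => k j = b),
        Gr w i j * (w j y * g y) := by
      intro y
      rw [hf, Finset.sum_mul]
      exact Finset.sum_congr rfl fun j _ => by ring
    have iI : ∀ j, Integrable fun y => Gr w i j * (w j y * g y) := fun j => by
      have j1 : Continuous fun y => w j y * g y := (hw j).mul hg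
      have j2 : HasCompactSupport fun y => w j y * g y := (hc j).mul_right
      exact (j1.integrable_of_hasCompactSupport j2).const_mul _
    simp only [h1]
    rw [integral_finsetSum _ fun j _ => iI j]
    exact Finset.sum_congr rfl fun j _ => integral_const_mul _ _
  have hii : ∫ y, w i y ^ 2 = Gr w i i := by
    simp only [Gr, Matrix.of_apply]
    congr 1; funext y; ring
  have hii0 : 0 ≤ Gr w i i := by rw [← hii]; exact integral_nonneg fun y => sq_nonneg _
  have hB := hb b (w i) (hw i) (hc i)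
  have hC := hb c (w i) (hw i) (hc i)
  rw [hii] at hB hC
  set X : ℝ := ∫ y, f y ^ 2 with hX
  have hX0 : 0 ≤ X := integral_nonneg fun y => sq_nonneg _
  have hfB := hb b f hfc hfs
  have hfC := hb c f hfc hfs
  rw [← hX] at hfB hfC
  -- `X = ∑ G_ij ∫ f w_j`
  have hXe : X = ∑ j ∈ Finset.univ.filter (fun j => k j = b), Gr w i j * ∫ y, f y * w j y := by
    have h1 : X = ∫ y, f y * f y := by rw [hX]; congr 1; funext y; ring
    rw [h1, hfw f hfc hfs]
    refine Finset.sum_congr rfl fun j _ => ?_
    congr 1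
    congr 1; funext y; ring
  have hX2 : X ^ 2 ≤ Gr w i i * X := by
    have h1 := gcs (Finset.univ.filter (fun j => k j = b)) (fun j => Gr w i j)
      (fun j => ∫ y, f y * w j y) hii0 hB hfB
    rwa [← hXe] at h1
  have hXle : X ≤ Gr w i i := by
    rcases hX0.eq_or_lt with h | h
    · rw [← h]; exact hii0
    · exact le_of_mul_le_mul_right (by rw [← sq]; exact hX2) h
  -- the double sum
  have hS : ∑ j ∈ Finset.univ.filter (fun j => k j = b),
      ∑ l ∈ Finset.univ.filter (fun l => k l = c), Gr w i j * Gr w j l * Gr w l i =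
      ∑ l ∈ Finset.univ.filter (fun l => k l = c), (∫ y, f y * w l y) * Gr w i l := by
    rw [Finset.sum_comm]
    refine Finset.sum_congr rfl fun l _ => ?_
    rw [hfw (w l) (hw l) (hc l), Finset.sum_mul]
    refine Finset.sum_congr rfl fun j _ => ?_
    rw [hsym l i]
    rfl
  rw [hS]
  have h1 := gcs (Finset.univ.filter (fun l => k l = c)) (fun l => ∫ y, f y * w l y)
      (fun l => Gr w i l) hX0 hfC hC
  have h2 : X * Gr w i i ≤ Gr w i i ^ 2 := by
    rw [sq]; exact mul_le_mul_of_nonneg_right hXle hii0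
  exact abs_le_of_sq_le_sq' (h1.trans h2) hii0 |>.2

theorem split_lt (k : Fin n → ℕ) (K : ℕ) (f : Fin n → ℝ) :
    ∑ j, (if k j < K then f j else 0) =
      ∑ b ∈ Finset.range K, ∑ j ∈ Finset.univ.filter (fun j => k j = b), f j := by
  simp only [Finset.sum_filter]
  rw [Finset.sum_comm]
  refine Finset.sum_congr rfl fun m _ => ?_
  rw [Finset.sum_ite_eq]
  simp only [Finset.mem_range]

/-- **The trace of the cube.** -/
theorem gram3 (w : Fin n → (Fin m → ℝ) → ℝ) (hw : ∀ i, Continuous (w i))
    (hc : ∀ i, HasCompactSupport (w i)) (k : Fin n → ℕ)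
    (hb : ∀ (b : ℕ) (f : (Fin m → ℝ) → ℝ), Continuous f → HasCompactSupport f →
      ∑ j ∈ Finset.univ.filter (fun j => k j = b), (∫ y, f y * w j y) ^ 2 ≤ ∫ y, f y ^ 2)
    (A : ℕ → ℝ) (hA : ∀ a, 0 ≤ A a) :
    ∑ i, ∑ j, ∑ l, (A (k i) * A (k j) * A (k l)) * (Gr w i j * Gr w j l * Gr w l i) ≤
      ∑ i, Gr w i i * ((∑ a ∈ Finset.range (k i), A a + A (k i)) ^ 3 -
        (∑ a ∈ Finset.range (k i), A a) ^ 3) := by
  have hsym := (Gr_psd w hw hc).1
  set B : Fin n → Fin n → Fin n → ℝ := fun i j l =>
    (A (k i) * A (k j) * A (k l)) * (Gr w i j * Gr w j l * Gr w l i) with hB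
  have h1 : ∀ i j l, B i j l = B j i l := fun i j l => by
    simp only [hB]
    rw [hsym j i, hsym i l, hsym l j]; ring
  have h2 : ∀ i j l, B i j l = B i l j := fun i j l => by
    simp only [hB]
    rw [hsym i l, hsym l j, hsym j i]; ring
  have h0 := order3 k B h1 h2
  have hX : ∀ i b c, ∑ j ∈ Finset.univ.filter (fun j => k j = b),
      ∑ l ∈ Finset.univ.filter (fun l => k l = c), B i j l ≤ A (k i) * A b * A c * Gr w i i := by
    intro i b c
    have e : ∑ j ∈ Finset.univ.filter (fun j => k j = b),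
        ∑ l ∈ Finset.univ.filter (fun l => k l = c), B i j l =
        (A (k i) * A b * A c) * ∑ j ∈ Finset.univ.filter (fun j => k j = b),
        ∑ l ∈ Finset.univ.filter (fun l => k l = c), Gr w i j * Gr w j l * Gr w l i := by
      rw [Finset.mul_sum]
      refine Finset.sum_congr rfl fun j hj => ?_
      rw [Finset.mul_sum]
      refine Finset.sum_congr rfl fun l hl => ?_
      rw [Finset.mem_filter] at hj hl
      simp only [hB]
      rw [hj.2, hl.2]
    rw [e]
    exact mul_le_mul_of_nonneg_left (two_levels w hw hc k hb i b c)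
      (mul_nonneg (mul_nonneg (hA _) (hA _)) (hA _))
  have b1 : ∀ i, ∑ j, ∑ l, (if k j < k i ∧ k l < k i then B i j l else 0) ≤
      A (k i) * (∑ a ∈ Finset.range (k i), A a) ^ 2 * Gr w i i := by
    intro i
    have e1 : ∑ j, ∑ l, (if k j < k i ∧ k l < k i then B i j l else 0) =
        ∑ b ∈ Finset.range (k i), ∑ c ∈ Finset.range (k i),
          ∑ j ∈ Finset.univ.filter (fun j => k j = b),
          ∑ l ∈ Finset.univ.filter (fun l => k l = c), B i j l := by
      have e2 : ∀ j, ∑ l, (if k j < k i ∧ k l < k i then B i j l else 0) =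
          if k j < k i then ∑ c ∈ Finset.range (k i),
            ∑ l ∈ Finset.univ.filter (fun l => k l = c), B i j l else 0 := by
        intro j
        split_ifs with h
        · rw [← split_lt]
          exact Finset.sum_congr rfl fun l _ => by simp [h]
        · exact Finset.sum_eq_zero fun l _ => by rw [if_neg fun h' => h h'.1]
      simp only [e2]
      rw [split_lt]
      refine Finset.sum_congr rfl fun b _ => ?_
      rw [Finset.sum_comm]
    rw [e1]
    refine (Finset.sum_le_sum fun b _ => Finset.sum_le_sum fun c _ => hX i b c).trans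
      (le_of_eq ?_)
    rw [sq, Finset.sum_mul_sum, Finset.mul_sum, Finset.sum_mul]
    refine Finset.sum_congr rfl fun b _ => ?_
    rw [Finset.mul_sum, Finset.sum_mul]
    exact Finset.sum_congr rfl fun c _ => by ring
  have b2 : ∀ i, ∑ j, ∑ l, (if k j = k i ∧ k l < k i then B i j l else 0) ≤
      A (k i) ^ 2 * (∑ a ∈ Finset.range (k i), A a) * Gr w i i := by
    intro i
    have e1 : ∑ j, ∑ l, (if k j = k i ∧ k l < k i then B i j l else 0) =
        ∑ c ∈ Finset.range (k i), ∑ j ∈ Finset.univ.filter (fun j => k j = k i),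
          ∑ l ∈ Finset.univ.filter (fun l => k l = c), B i j l := by
      have e2 : ∀ j, ∑ l, (if k j = k i ∧ k l < k i then B i j l else 0) =
          if k j = k i then ∑ c ∈ Finset.range (k i),
            ∑ l ∈ Finset.univ.filter (fun l => k l = c), B i j l else 0 := by
        intro j
        split_ifs with h
        · rw [← split_lt]
          exact Finset.sum_congr rfl fun l _ => by simp [h]
        · exact Finset.sum_eq_zero fun l _ => by rw [if_neg fun h' => h h'.1]
      simp only [e2]
      rw [← Finset.sum_filter, Finset.sum_comm]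
    rw [e1]
    refine (Finset.sum_le_sum fun c _ => hX i (k i) c).trans (le_of_eq ?_)
    rw [Finset.mul_sum, Finset.sum_mul]
    exact Finset.sum_congr rfl fun c _ => by ring
  have b3 : ∀ i, ∑ j, ∑ l, (if k j = k i ∧ k l = k i then B i j l else 0) ≤
      A (k i) ^ 3 * Gr w i i := by
    intro i
    have e1 : ∑ j, ∑ l, (if k j = k i ∧ k l = k i then B i j l else 0) =
        ∑ j ∈ Finset.univ.filter (fun j => k j = k i),
          ∑ l ∈ Finset.univ.filter (fun l => k l = k i), B i j l := by
      simp only [Finset.sum_filter]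
      refine Finset.sum_congr rfl fun j _ => ?_
      split_ifs with h
      · exact Finset.sum_congr rfl fun l _ => by simp [h]
      · exact Finset.sum_eq_zero fun l _ => by rw [if_neg fun h' => h h'.1]
    rw [e1]
    refine (hX i (k i) (k i)).trans (le_of_eq ?_)
    ring
  have h3 : ∑ i, ∑ j, ∑ l, B i j l ≤
      3 * (∑ i, A (k i) * (∑ a ∈ Finset.range (k i), A a) ^ 2 * Gr w i i) +
      3 * (∑ i, A (k i) ^ 2 * (∑ a ∈ Finset.range (k i), A a) * Gr w i i) +
      ∑ i, A (k i) ^ 3 * Gr w i i := by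
    rw [h0]
    have c1 := Finset.sum_le_sum fun i (_ : i ∈ Finset.univ) => b1 i
    have c2 := Finset.sum_le_sum fun i (_ : i ∈ Finset.univ) => b2 i
    have c3 := Finset.sum_le_sum fun i (_ : i ∈ Finset.univ) => b3 i
    linarith
  refine h3.trans (le_of_eq ?_)
  rw [Finset.mul_sum, Finset.mul_sum, ← Finset.sum_add_distrib, ← Finset.sum_add_distrib]
  exact Finset.sum_congr rfl fun i _ => by ring

end Pool.Agent.H45.LT.Di
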