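import Mathlib
import Pool.Agent.H45.LT.Ly2

set_option autoImplicit false

/-!
# Bessel's inequality and the inequality on the slices
-/

open MeasureTheory Set Filter Topology Real
open scoped Matrix
open LTd (pd Kcl Mat)

namespace Pool.Agent.H45.LT.Ly

open Osc (st Psi rho dens vec pt vec_inner pt_norm)

/-- Bessel's inequality for square integrable functions with values in a Hilbert space -/
theorem bessel_Lp {m : ℕ} {E' : Type*} [NormedAddCommGroup E'] [InnerProductSpace ℂ E']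
    {ι : Type*} [Fintype ι] [DecidableEq ι] (Φ : ι → (Fin m → ℝ) → E')
    (hΦ : ∀ i, MemLp (Φ i) 2 volume)
    (ho : ∀ i j, ∫ y, inner ℂ (Φ i y) (Φ j y) = if i = j then (1:ℂ) else 0)
    (F : (Fin m → ℝ) → E') (hF : MemLp F 2 volume) :
    ∑ i, ‖∫ y, (inner ℂ (Φ i y) (F y) : ℂ)‖ ^ 2 ≤ ∫ y, ‖F y‖ ^ 2 := by
  have hinner : ∀ (f g : (Fin m → ℝ) → E') (hf : MemLp f 2 volume) (hg : MemLp g 2 volume),
      (inner ℂ (hf.toLp f) (hg.toLp g) : ℂ) = ∫ y, inner ℂ (f y) (g y) := by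
    intro f g hf hg
    rw [L2.inner_def]
    refine integral_congr_ae ?_
    filter_upwards [hf.coeFn_toLp, hg.coeFn_toLp] with y h1 h2
    rw [h1, h2]
  have hv : Orthonormal ℂ (fun i => (hΦ i).toLp (Φ i)) := by
    rw [orthonormal_iff_ite]
    intro i j
    rw [hinner]
    exact ho i j
  have h1 := hv.sum_inner_products_le (x := hF.toLp F) (s := Finset.univ)
  have h2 : ‖hF.toLp F‖ ^ 2 = ∫ y, ‖F y‖ ^ 2 := by
    have h3 := inner_self_eq_norm_sq_to_K (𝕜 := ℂ) (hF.toLp F)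
    rw [hinner] at h3
    have h4 : ∫ y, (inner ℂ (F y) (F y) : ℂ) = ((∫ y, ‖F y‖ ^ 2 : ℝ) : ℂ) := by
      rw [← integral_complex_ofReal]
      refine integral_congr_ae (Eventually.of_forall fun y => ?_)
      dsimp only
      rw [inner_self_eq_norm_sq_to_K]
      push_cast
      rfl
    rw [h4] at h3
    have h5 : ((∫ y, ‖F y‖ ^ 2 : ℝ) : ℂ) = ((‖hF.toLp F‖ ^ 2 : ℝ) : ℂ) := by
      rw [h3]; push_cast; rfl
    exact_mod_cast h5.symm
  rw [h2] at h1
  refine le_trans (le_of_eq ?_) h1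
  refine Finset.sum_congr rfl fun i _ => ?_
  rw [hinner]

theorem vec_cont {m : ℕ} (l : ℕ) {g : ℕ → (Fin m → ℝ) → ℂ} (hg : ∀ a, Continuous (g a)) :
    Continuous fun y => vec l fun a => g a y := by
  unfold vec
  exact (PiLp.continuous_toLp 2 _).comp (continuous_pi fun a => hg a)

theorem fam_cs {X Y : Type*} [TopologicalSpace X] [R1Space X] [Zero Y] {ι : Type*}
    (s : Finset ι) (f : ι → X → ℂ) (hc : ∀ i, HasCompactSupport (f i)) (F : X → Y)
    (h : ∀ x, (∀ i ∈ s, f i x = 0) → F x = 0) : HasCompactSupport F := by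
  refine HasCompactSupport.intro (s.isCompact_biUnion fun i _ => hc i) fun x hx => h x fun i hi => ?_
  exact image_eq_zero_of_notMem_tsupport fun h' => hx (mem_iUnion₂.2 ⟨i, hi, h'⟩)

theorem vec_cs {m : ℕ} (l : ℕ) {g : ℕ → (Fin m → ℝ) → ℂ} (hc : ∀ a, HasCompactSupport (g a)) :
    HasCompactSupport fun y => vec l fun a => g a y := by
  refine fam_cs (Finset.range (l + 1)) g hc _ fun y hy => ?_
  unfold vec
  have : (fun a : Fin (l + 1) => g a y) = 0 := by
    funext a
    exact hy a (Finset.mem_range.2 a.2)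
  rw [this]
  rfl

theorem inner_int {m : ℕ} (l : ℕ) {g g' : ℕ → (Fin m → ℝ) → ℂ} (hg : ∀ a, Continuous (g a))
    (hg' : ∀ a, Continuous (g' a)) (hc : ∀ a, HasCompactSupport (g a)) :
    ∫ y, (inner ℂ (vec l fun a => g a y) (vec l fun a => g' a y) : ℂ) =
      ∑ a ∈ Finset.range (l + 1), ∫ y, (starRingEnd ℂ) (g a y) * g' a y := by
  simp only [vec_inner]
  refine integral_finsetSum _ fun a _ => ?_
  have h1 : Continuous fun y => (starRingEnd ℂ) (g a y) * g' a y :=
    (Complex.continuous_conj.comp (hg a)).mul (hg' a)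
  have h2 : HasCompactSupport fun y => (starRingEnd ℂ) (g a y) * g' a y :=
    ((hc a).comp_left (g := fun z : ℂ => (starRingEnd ℂ) z) (by simp)).mul_right
  exact h1.integrable_of_hasCompactSupport h2

/-- the hypotheses on the transversal functions -/
structure SysY {m N : ℕ} (k : Fin N → ℕ) (φ : Fin N → ℕ → (Fin m → ℝ) → ℂ) (ν : Fin N → ℝ) :
    Prop where
  cd : ∀ n a, ContDiff ℝ 1 (φ n a)
  cs : ∀ n a, HasCompactSupport (φ n a)
  ortho : ∀ n n', k n = k n' → ∑ a ∈ Finset.range (k n + 1),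
    ∫ y, (starRingEnd ℂ) (φ n a y) * φ n' a y = if n = n' then 1 else 0
  nonneg : ∀ n, 0 ≤ ν n
  le_one : ∀ n, ν n ≤ 1

variable {m N : ℕ} {k : Fin N → ℕ} {φ : Fin N → ℕ → (Fin m → ℝ) → ℂ} {ν : Fin N → ℝ}

theorem st_y_cont (K : ℕ) {g : ℕ → (Fin m → ℝ) → ℂ} (hg : ∀ a, Continuous (g a))
    (x : Fin 2 → ℝ) : Continuous fun y => st K (fun a => g a y) x := by
  unfold st
  exact continuous_finsetSum _ fun a _ => (hg a).mul continuous_const

theorem st_y_cs (K : ℕ) {g : ℕ → (Fin m → ℝ) → ℂ} (hc : ∀ a, HasCompactSupport (g a))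
    (x : Fin 2 → ℝ) : HasCompactSupport fun y => st K (fun a => g a y) x := by
  refine fam_cs (Finset.range (K + 1)) g hc _ fun y hy => ?_
  unfold st
  refine Finset.sum_eq_zero fun a ha => ?_
  dsimp only
  rw [hy a ha, zero_mul]

theorem SysY.bessel (H : SysY k φ ν) (l : ℕ) (x : Fin 2 → ℝ) {f : (Fin m → ℝ) → ℝ}
    (hf : Continuous f) (hfs : HasCompactSupport f) :
    ∑ n, (if k n = l then ‖∫ y, (f y : ℂ) * st (k n) (fun a => φ n a y) x‖ ^ 2 else 0) ≤
      rho l x * ∫ y, f y ^ 2 := by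
  have hcont : ∀ n a, Continuous (φ n a) := fun n a => (H.cd n a).continuous
  have hΦ : ∀ n : {n : Fin N // k n = l}, MemLp (fun y => vec l fun a => φ n a y) 2 volume :=
    fun n => (vec_cont l (hcont n)).memLp_of_hasCompactSupport (vec_cs l (H.cs n))
  have hg' : ∀ a, Continuous fun y => (f y : ℂ) * (Psi l a x : ℂ) := fun a =>
    (Complex.continuous_ofReal.comp hf).mul continuous_const
  have hcs' : ∀ a : ℕ, HasCompactSupport fun y => (f y : ℂ) * (Psi l a x : ℂ) := fun a =>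
    (hfs.comp_left (g := fun t : ℝ => (t : ℂ)) Complex.ofReal_zero).mul_right
  have hF : MemLp (fun y => vec l fun a => (f y : ℂ) * (Psi l a x : ℂ)) 2 volume :=
    (vec_cont l hg').memLp_of_hasCompactSupport (vec_cs l hcs')
  have h := bessel_Lp (fun n : {n : Fin N // k n = l} => fun y => vec l fun a => φ n a y) hΦ
    (by
      intro n n'
      rw [inner_int l (hcont n) (hcont n') (H.cs n)]
      have h := H.ortho n n' (by rw [n.2, n'.2])
      rw [n.2] at h
      rw [h]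
      simp only [Subtype.ext_iff]) _ hF
  have h2 : ∫ y, ‖vec l fun a => (f y : ℂ) * (Psi l a x : ℂ)‖ ^ 2 = rho l x * ∫ y, f y ^ 2 := by
    rw [← integral_const_mul]
    refine integral_congr_ae (Eventually.of_forall fun y => ?_)
    dsimp only
    rw [EuclideanSpace.norm_sq_eq, rho, Finset.sum_mul, Finset.sum_range]
    refine Finset.sum_congr rfl fun a _ => ?_
    simp only [vec, norm_mul, Complex.norm_real, Real.norm_eq_abs, mul_pow, sq_abs]
    ring
  rw [h2] at h
  refine le_trans (le_of_eq ?_) h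
  rw [← Finset.sum_filter]
  rw [Finset.sum_subtype (p := fun n => k n = l) (Finset.univ.filter fun n => k n = l)
    (fun n => by simp)]
  refine Finset.sum_congr rfl fun n _ => ?_
  have h3 : ∫ y, (inner ℂ (vec l fun a => φ n a y)
      (vec l fun a => (f y : ℂ) * (Psi l a x : ℂ)) : ℂ) =
      (starRingEnd ℂ) (∫ y, (f y : ℂ) * st (k n) (fun a => φ n a y) x) := by
    rw [← integral_conj]
    refine integral_congr_ae (Eventually.of_forall fun y => ?_)
    dsimp only
    rw [vec_inner, n.2, map_mul, st, map_sum, Complex.conj_ofReal, Finset.mul_sum]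
    refine Finset.sum_congr rfl fun a _ => ?_
    rw [map_mul, Complex.conj_ofReal]
    ring
  rw [h3, RCLike.norm_conj]

theorem SysY.norm (H : SysY k φ ν) (n : Fin N) :
    ∑ a ∈ Finset.range (k n + 1), ∫ y, ‖φ n a y‖ ^ 2 = 1 := by
  have h := H.ortho n n rfl
  rw [if_pos rfl] at h
  have h2 : ((∑ a ∈ Finset.range (k n + 1), ∫ y, ‖φ n a y‖ ^ 2 : ℝ) : ℂ) = 1 := by
    rw [← h]
    push_cast
    refine Finset.sum_congr rfl fun a _ => ?_
    rw [← integral_complex_ofReal]
    refine integral_congr_ae (Eventually.of_forall fun y => ?_)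
    dsimp only
    rw [mul_comm, Complex.mul_conj, Complex.normSq_eq_norm_sq]
  exact_mod_cast h2

/-- the slices of the weighted functions -/
noncomputable def sl (k : Fin N → ℕ) (φ : Fin N → ℕ → (Fin m → ℝ) → ℂ) (ν : Fin N → ℝ)
    (x : Fin 2 → ℝ) (n : Fin N) (y : Fin m → ℝ) : ℂ :=
  (√(ν n) : ℂ) * st (k n) (fun a => φ n a y) x

theorem sl_norm (H : SysY k φ ν) (x : Fin 2 → ℝ) (n : Fin N) (y : Fin m → ℝ) :
    ‖sl k φ ν x n y‖ ^ 2 = ν n * ‖st (k n) (fun a => φ n a y) x‖ ^ 2 := by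
  rw [sl, norm_mul, mul_pow, Complex.norm_real, Real.norm_eq_abs, sq_abs,
    Real.sq_sqrt (H.nonneg n)]

theorem st_y_fderiv (K : ℕ) {g : ℕ → (Fin m → ℝ) → ℂ} (hg : ∀ a, ContDiff ℝ 1 (g a))
    (x : Fin 2 → ℝ) (y : Fin m → ℝ) :
    HasFDerivAt (fun y => st K (fun a => g a y) x)
      (∑ a ∈ Finset.range (K + 1), (Psi K a x : ℂ) • fderiv ℝ (g a) y) y := by
  unfold st
  refine HasFDerivAt.fun_sum fun a _ => ?_
  have h1 := (((hg a).differentiable (by norm_num)) y).hasFDerivAt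
  exact h1.mul_const (Psi K a x : ℂ)

theorem sl_fderiv (H : SysY k φ ν) (x : Fin 2 → ℝ) (n : Fin N) (y : Fin m → ℝ) (q : Fin m) :
    fderiv ℝ (sl k φ ν x n) y (Pi.single q 1) = (√(ν n) : ℂ) *
      st (k n) (fun a => fderiv ℝ (φ n a) y (Pi.single q 1)) x := by
  have h1 := (st_y_fderiv (k n) (H.cd n) x y).const_mul (√(ν n) : ℂ)
  have h2 : fderiv ℝ (sl k φ ν x n) y = _ := h1.fderiv
  rw [h2, _root_.smul_apply, _root_.sum_apply, smul_eq_mul]
  congr 1
  unfold st
  refine Finset.sum_congr rfl fun a _ => ?_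
  rw [_root_.smul_apply, smul_eq_mul, mul_comm]

theorem sl_cd (H : SysY k φ ν) (x : Fin 2 → ℝ) (n : Fin N) : ContDiff ℝ 1 (sl k φ ν x n) := by
  unfold sl st
  exact contDiff_const.mul (ContDiff.sum fun a _ => (H.cd n a).mul contDiff_const)

theorem sl_cs (H : SysY k φ ν) (x : Fin 2 → ℝ) (n : Fin N) :
    HasCompactSupport (sl k φ ν x n) :=
  (st_y_cs (k n) (H.cs n) x).mul_left

/-- **The inequality on the slices.** -/
theorem SysY.slice (H : SysY k φ ν) (x : Fin 2 → ℝ) :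
    Kcl (m + 2) * ∫ y, (∑ n, ν n * ‖st (k n) (fun a => φ n a y) x‖ ^ 2) ^
        (1 + 2 / ((m + 2 : ℕ) : ℝ)) ≤
      (∑ n, ν n * ∑ q, ∫ y, ‖st (k n) (fun a => fderiv ℝ (φ n a) y (Pi.single q 1)) x‖ ^ 2) +
      2 * π * ∑ n, ν n * ((∫ y, ‖st (k n) (fun a => φ n a y) x‖ ^ 2) * dens (k n) x) := by
  have h := slice2C (sl_cd H x) (sl_cs H x)
  have hcont : ∀ n a, Continuous (φ n a) := fun n a => (H.cd n a).continuous
  have hG := gram2 (v := sl k φ ν x) k (fun n => (sl_cd H x n).continuous) (sl_cs H x)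
    (fun l => rho l x) (by
      intro l f hf hfs
      refine le_trans (Finset.sum_le_sum fun n _ => ?_) (H.bessel l x hf hfs)
      split_ifs
      · have h1 : ∫ y, (f y : ℂ) * sl k φ ν x n y =
            (√(ν n) : ℂ) * ∫ y, (f y : ℂ) * st (k n) (fun a => φ n a y) x := by
          rw [← integral_const_mul]
          refine integral_congr_ae (Eventually.of_forall fun y => ?_)
          simp only [sl]; ring
        rw [h1, norm_mul, mul_pow, Complex.norm_real, Real.norm_eq_abs, sq_abs,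
          Real.sq_sqrt (H.nonneg n)]
        exact mul_le_of_le_one_left (sq_nonneg _) (H.le_one n)
      · exact le_rfl)
  simp only [sl_norm H] at h hG
  have e1 : ∑ n, ∑ q, ∫ y, ‖fderiv ℝ (sl k φ ν x n) y (Pi.single q 1)‖ ^ 2 =
      ∑ n, ν n * ∑ q, ∫ y, ‖st (k n) (fun a => fderiv ℝ (φ n a) y (Pi.single q 1)) x‖ ^ 2 := by
    refine Finset.sum_congr rfl fun n _ => ?_
    rw [Finset.mul_sum]
    refine Finset.sum_congr rfl fun q _ => ?_
    rw [← integral_const_mul]
    refine integral_congr_ae (Eventually.of_forall fun y => ?_)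
    dsimp only
    rw [sl_fderiv H, norm_mul, mul_pow, Complex.norm_real, Real.norm_eq_abs, sq_abs,
      Real.sq_sqrt (H.nonneg n)]
  rw [e1] at h
  have e2 : ∑ n, (2 * ∑ l ∈ Finset.range (k n), rho l x + rho (k n) x) *
      ∫ y, ν n * ‖st (k n) (fun a => φ n a y) x‖ ^ 2 =
      ∑ n, ν n * ((∫ y, ‖st (k n) (fun a => φ n a y) x‖ ^ 2) * dens (k n) x) := by
    refine Finset.sum_congr rfl fun n _ => ?_
    rw [integral_const_mul]
    unfold dens
    ring
  rw [e2] at hG
  have h3 := mul_le_mul_of_nonneg_left hG (show (0:ℝ) ≤ 2 * π by positivity)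
  linarith

end Pool.Agent.H45.LT.Ly
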