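import Mathlib
import Pool.Agent.H45.LT.Ly3
import Pool.Graph.R_pool_sql_team_seeded_63374d34.N674.LT.Const

set_option autoImplicit false

/-!
# Integration over the plane
-/

open MeasureTheory Set Filter Topology Real
open scoped Matrix
open LTd (pd Kcl Mat)

namespace Pool.Agent.H45.LT.Ly

open Osc (st Psi rho dens vec pt vec_inner pt_norm nsq Psi_mul G_int Psi_dens_int Psi_dens dPsi
  dPsi_mul_int dPsi_mul Psi_fderiv Psi_cont dens_cont)

/-- the plane times `ℝ^m` -/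
abbrev Sp (m : ℕ) : Type := (Fin 2 → ℝ) × (Fin m → ℝ)

variable {m : ℕ}

/-- the real parts of the inner products -/
noncomputable def co (g : ℕ → (Fin m → ℝ) → ℂ) (a b : ℕ) : ℝ :=
  ∫ y, (g a y * (starRingEnd ℂ) (g b y)).re

theorem co_int {g : ℕ → (Fin m → ℝ) → ℂ} (hg : ∀ a, Continuous (g a))
    (hc : ∀ a, HasCompactSupport (g a)) (a b : ℕ) :
    Integrable fun y => (g a y * (starRingEnd ℂ) (g b y)).re := by
  have h1 : Continuous fun y => (g a y * (starRingEnd ℂ) (g b y)).re :=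
    Complex.continuous_re.comp ((hg a).mul (Complex.continuous_conj.comp (hg b)))
  have h2 : HasCompactSupport fun y => (g a y * (starRingEnd ℂ) (g b y)).re :=
    ((hc a).mul_right (f' := fun y => (starRingEnd ℂ) (g b y))).comp_left
      (g := Complex.re) Complex.zero_re
  exact h1.integrable_of_hasCompactSupport h2

theorem co_self (g : ℕ → (Fin m → ℝ) → ℂ) (a : ℕ) : co g a a = ∫ y, ‖g a y‖ ^ 2 := by
  unfold co
  refine integral_congr_ae (Eventually.of_forall fun y => ?_)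
  dsimp only
  rw [Complex.mul_conj, Complex.ofReal_re, Complex.normSq_eq_norm_sq]

theorem co_diag (g : ℕ → (Fin m → ℝ) → ℂ) (s : Finset ℕ) (w : ℕ → ℝ) :
    ∑ a ∈ s, ∑ b ∈ s, co g a b * (if a = b then w a else 0) =
      ∑ a ∈ s, w a * ∫ y, ‖g a y‖ ^ 2 := by
  refine Finset.sum_congr rfl fun a ha => ?_
  rw [Finset.sum_eq_single_of_mem a ha fun b _ hb => by rw [if_neg (Ne.symm hb), mul_zero],
    if_pos rfl, co_self]
  ring

theorem ysq {g : ℕ → (Fin m → ℝ) → ℂ} (hg : ∀ a, Continuous (g a))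
    (hc : ∀ a, HasCompactSupport (g a)) (s : Finset ℕ) (A : ℕ → ℝ) :
    ∫ y, ‖∑ a ∈ s, g a y * (A a : ℂ)‖ ^ 2 = ∑ a ∈ s, ∑ b ∈ s, co g a b * (A a * A b) := by
  have h1 : ∀ y, ‖∑ a ∈ s, g a y * (A a : ℂ)‖ ^ 2 =
      ∑ a ∈ s, ∑ b ∈ s, (g a y * (starRingEnd ℂ) (g b y)).re * (A a * A b) := fun y =>
    nsq s (fun a => g a y) A
  simp only [h1]
  have hi := fun a b => (co_int hg hc a b).mul_const (A a * A b)
  rw [integral_finsetSum _ fun a _ => integrable_finsetSum _ fun b _ => hi a b]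
  refine Finset.sum_congr rfl fun a _ => ?_
  rw [integral_finsetSum _ fun b _ => hi a b]
  refine Finset.sum_congr rfl fun b _ => ?_
  rw [integral_mul_const]
  rfl

theorem prodsq {g : ℕ → (Fin m → ℝ) → ℂ} (hg : ∀ a, Continuous (g a))
    (hc : ∀ a, HasCompactSupport (g a)) (s : Finset ℕ) (A : ℕ → (Fin 2 → ℝ) → ℝ)
    (hA : ∀ a b, Integrable fun x => A a x * A b x) :
    Integrable (fun p : Sp m => ‖∑ a ∈ s, g a p.2 * (A a p.1 : ℂ)‖ ^ 2) ∧
    ∫ p : Sp m, ‖∑ a ∈ s, g a p.2 * (A a p.1 : ℂ)‖ ^ 2 =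
      ∑ a ∈ s, ∑ b ∈ s, co g a b * ∫ x, A a x * A b x := by
  have h1 : ∀ p : Sp m, ‖∑ a ∈ s, g a p.2 * (A a p.1 : ℂ)‖ ^ 2 =
      ∑ a ∈ s, ∑ b ∈ s, (A a p.1 * A b p.1) * (g a p.2 * (starRingEnd ℂ) (g b p.2)).re := by
    intro p
    rw [nsq s (fun a => g a p.2) fun a => A a p.1]
    exact Finset.sum_congr rfl fun a _ => Finset.sum_congr rfl fun b _ => mul_comm _ _
  simp only [h1]
  have hi : ∀ a b, Integrable fun p : Sp m =>
      (A a p.1 * A b p.1) * (g a p.2 * (starRingEnd ℂ) (g b p.2)).re := fun a b =>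
    (hA a b).mul_prod (co_int hg hc a b)
  refine ⟨integrable_finsetSum _ fun a _ => integrable_finsetSum _ fun b _ => hi a b, ?_⟩
  rw [integral_finsetSum _ fun a _ => integrable_finsetSum _ fun b _ => hi a b]
  refine Finset.sum_congr rfl fun a _ => ?_
  rw [integral_finsetSum _ fun b _ => hi a b]
  refine Finset.sum_congr rfl fun b _ => ?_
  have h2 := integral_prod_mul (μ := (volume : Measure (Fin 2 → ℝ)))
    (ν := (volume : Measure (Fin m → ℝ))) (fun x => A a x * A b x)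
    (fun y => (g a y * (starRingEnd ℂ) (g b y)).re)
  rw [mul_comm (co g a b)]
  exact h2

theorem PsiPsi_int (K a b : ℕ) : Integrable fun x => Psi K a x * Psi K b x := by
  simp only [Psi_mul]; exact G_int one_pos _ _

/-- the functions on the product space -/
noncomputable def UU (K : ℕ) (g : ℕ → (Fin m → ℝ) → ℂ) (p : Sp m) : ℂ :=
  st K (fun a => g a p.2) p.1

theorem UU_cont (K : ℕ) {g : ℕ → (Fin m → ℝ) → ℂ} (hg : ∀ a, Continuous (g a)) :
    Continuous (UU K g) := by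
  unfold UU st
  exact continuous_finsetSum _ fun a _ => ((hg a).comp continuous_snd).mul
    (Complex.continuous_ofReal.comp ((Psi_cont K a).comp continuous_fst))

theorem UU_sq (K : ℕ) {g : ℕ → (Fin m → ℝ) → ℂ} (hg : ∀ a, Continuous (g a))
    (hc : ∀ a, HasCompactSupport (g a)) : Integrable fun p : Sp m => ‖UU K g p‖ ^ 2 :=
  (prodsq hg hc (Finset.range (K + 1)) (fun a x => Psi K a x) (PsiPsi_int K)).1

theorem UU_fderiv (K : ℕ) {g : ℕ → (Fin m → ℝ) → ℂ} (hg : ∀ a, ContDiff ℝ 1 (g a)) (p : Sp m) :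
    HasFDerivAt (UU K g) (∑ a ∈ Finset.range (K + 1),
      (g a p.2 • ((Complex.ofRealCLM.comp (fderiv ℝ (Psi K a) p.1)).comp
        (ContinuousLinearMap.fst ℝ (Fin 2 → ℝ) (Fin m → ℝ))) +
      (Psi K a p.1 : ℂ) • ((fderiv ℝ (g a) p.2).comp
        (ContinuousLinearMap.snd ℝ (Fin 2 → ℝ) (Fin m → ℝ))))) p := by
  unfold UU st
  refine HasFDerivAt.fun_sum fun a _ => ?_
  have h1 : HasFDerivAt (fun p : Sp m => g a p.2) ((fderiv ℝ (g a) p.2).comp
      (ContinuousLinearMap.snd ℝ (Fin 2 → ℝ) (Fin m → ℝ))) p :=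
    (((hg a).differentiable (by norm_num)) p.2).hasFDerivAt.comp p hasFDerivAt_snd
  have h0 : HasFDerivAt (Psi K a) (fderiv ℝ (Psi K a) p.1) p.1 := by
    have := Psi_fderiv K a p.1
    exact this.differentiableAt.hasFDerivAt
  have h2 : HasFDerivAt (fun p : Sp m => (Psi K a p.1 : ℂ))
      ((Complex.ofRealCLM.comp (fderiv ℝ (Psi K a) p.1)).comp
        (ContinuousLinearMap.fst ℝ (Fin 2 → ℝ) (Fin m → ℝ))) p :=
    (Complex.ofRealCLM.hasFDerivAt.comp p.1 h0).comp p hasFDerivAt_fst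
  exact h1.mul h2

theorem Psi_fd (K a : ℕ) (x : Fin 2 → ℝ) (q : Fin 2) :
    fderiv ℝ (Psi K a) x (Pi.single q 1) = dPsi q K a x := by
  rw [(Psi_fderiv K a x).fderiv]
  simp only [_root_.add_apply, _root_.smul_apply, ContinuousLinearMap.proj_apply, smul_eq_mul, dPsi]
  fin_cases q
  · simp; ring
  · simp

theorem UU_dx (K : ℕ) {g : ℕ → (Fin m → ℝ) → ℂ} (hg : ∀ a, ContDiff ℝ 1 (g a)) (p : Sp m)
    (q : Fin 2) : fderiv ℝ (UU K g) p (Pi.single q 1, 0) =
      ∑ a ∈ Finset.range (K + 1), g a p.2 * (dPsi q K a p.1 : ℂ) := by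
  rw [(UU_fderiv K hg p).fderiv, _root_.sum_apply]
  refine Finset.sum_congr rfl fun a _ => ?_
  simp only [_root_.add_apply, _root_.smul_apply, ContinuousLinearMap.comp_apply,
    ContinuousLinearMap.coe_fst', ContinuousLinearMap.coe_snd', map_zero,
    Complex.ofRealCLM_apply, Psi_fd, smul_eq_mul, mul_zero, add_zero]

theorem UU_dy (K : ℕ) {g : ℕ → (Fin m → ℝ) → ℂ} (hg : ∀ a, ContDiff ℝ 1 (g a)) (p : Sp m)
    (q : Fin m) : fderiv ℝ (UU K g) p (0, Pi.single q 1) =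
      UU K (fun a y => fderiv ℝ (g a) y (Pi.single q 1)) p := by
  rw [(UU_fderiv K hg p).fderiv, _root_.sum_apply]
  unfold UU st
  refine Finset.sum_congr rfl fun a _ => ?_
  simp only [_root_.add_apply, _root_.smul_apply, ContinuousLinearMap.comp_apply,
    ContinuousLinearMap.coe_fst', ContinuousLinearMap.coe_snd', map_zero,
    smul_eq_mul, mul_zero, zero_add]
  ring

theorem UU_kx (K : ℕ) {g : ℕ → (Fin m → ℝ) → ℂ} (hg : ∀ a, ContDiff ℝ 1 (g a))
    (hc : ∀ a, HasCompactSupport (g a)) :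
    ∑ q : Fin 2, ∫ p, ‖fderiv ℝ (UU K g) p (Pi.single q 1, 0)‖ ^ 2 =
      ((K:ℝ) + 1) * ∑ a ∈ Finset.range (K + 1), ∫ y, ‖g a y‖ ^ 2 := by
  have hgc : ∀ a, Continuous (g a) := fun a => (hg a).continuous
  have h1 : ∀ q : Fin 2, ∫ p, ‖fderiv ℝ (UU K g) p (Pi.single q 1, 0)‖ ^ 2 =
      ∑ a ∈ Finset.range (K + 1), ∑ b ∈ Finset.range (K + 1),
        co g a b * ∫ x, dPsi q K a x * dPsi q K b x := by
    intro q
    simp only [UU_dx K hg]
    exact (prodsq hgc hc (Finset.range (K + 1)) (fun a x => dPsi q K a x)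
      (dPsi_mul_int q K)).2
  rw [Fin.sum_univ_two, h1, h1]
  have h3 : ∑ a ∈ Finset.range (K + 1), ∑ b ∈ Finset.range (K + 1),
      co g a b * ∫ x, dPsi 0 K a x * dPsi 0 K b x =
      ∑ a ∈ Finset.range (K + 1), ((a:ℝ) + 1 / 2) * ∫ y, ‖g a y‖ ^ 2 := by
    rw [← co_diag g (Finset.range (K + 1)) fun a => (a:ℝ) + 1 / 2]
    refine Finset.sum_congr rfl fun a ha => Finset.sum_congr rfl fun b hb => ?_
    rw [Finset.mem_range] at ha hb
    rw [(dPsi_mul K (show a ≤ K by omega) (show b ≤ K by omega)).1]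
  have h4 : ∑ a ∈ Finset.range (K + 1), ∑ b ∈ Finset.range (K + 1),
      co g a b * ∫ x, dPsi 1 K a x * dPsi 1 K b x =
      ∑ a ∈ Finset.range (K + 1), (((K:ℝ) - a) + 1 / 2) * ∫ y, ‖g a y‖ ^ 2 := by
    rw [← co_diag g (Finset.range (K + 1)) fun a => ((K:ℝ) - a) + 1 / 2]
    refine Finset.sum_congr rfl fun a ha => Finset.sum_congr rfl fun b hb => ?_
    rw [Finset.mem_range] at ha hb
    rw [(dPsi_mul K (show a ≤ K by omega) (show b ≤ K by omega)).2]
  rw [h3, h4, ← Finset.sum_add_distrib, Finset.mul_sum]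
  exact Finset.sum_congr rfl fun a _ => by ring

theorem mass_dens (K : ℕ) {g : ℕ → (Fin m → ℝ) → ℂ} (hg : ∀ a, Continuous (g a))
    (hc : ∀ a, HasCompactSupport (g a)) :
    Integrable (fun x => (∫ y, ‖st K (fun a => g a y) x‖ ^ 2) * dens K x) ∧
    2 * π * ∫ x, (∫ y, ‖st K (fun a => g a y) x‖ ^ 2) * dens K x =
      ((K:ℝ) + 1) * ∑ a ∈ Finset.range (K + 1), ∫ y, ‖g a y‖ ^ 2 := by
  have h1 : ∀ x, (∫ y, ‖st K (fun a => g a y) x‖ ^ 2) * dens K x =
      ∑ a ∈ Finset.range (K + 1), ∑ b ∈ Finset.range (K + 1),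
        co g a b * (Psi K a x * Psi K b x * dens K x) := by
    intro x
    have h2 : ∫ y, ‖st K (fun a => g a y) x‖ ^ 2 = _ :=
      ysq hg hc (Finset.range (K + 1)) fun a => Psi K a x
    rw [h2, Finset.sum_mul]
    refine Finset.sum_congr rfl fun a _ => ?_
    rw [Finset.sum_mul]
    refine Finset.sum_congr rfl fun b _ => by ring
  simp only [h1]
  have hi := fun a b => (Psi_dens_int K a b).const_mul (co g a b)
  refine ⟨integrable_finsetSum _ fun a _ => integrable_finsetSum _ fun b _ => hi a b, ?_⟩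
  rw [integral_finsetSum _ fun a _ => integrable_finsetSum _ fun b _ => hi a b, Finset.mul_sum,
    Finset.mul_sum, ← Finset.mul_sum _ _ ((K:ℝ) + 1), Finset.mul_sum,
    ← co_diag g (Finset.range (K + 1)) fun _ => (K:ℝ) + 1]
  refine Finset.sum_congr rfl fun a ha => ?_
  rw [integral_finsetSum _ fun b _ => hi a b, Finset.mul_sum]
  refine Finset.sum_congr rfl fun b hb => ?_
  rw [Finset.mem_range] at ha hb
  rw [integral_const_mul, ← Psi_dens (show a ≤ K by omega) (show b ≤ K by omega)]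
  ring

variable {N : ℕ} {k : Fin N → ℕ} {φ : Fin N → ℕ → (Fin m → ℝ) → ℂ} {ν : Fin N → ℝ}

theorem fd_cont {g : (Fin m → ℝ) → ℂ} (hg : ContDiff ℝ 1 g) (q : Fin m) :
    Continuous fun y => fderiv ℝ g y (Pi.single q 1) :=
  (hg.continuous_fderiv (by norm_num)).clm_apply continuous_const

theorem fd_cs {g : (Fin m → ℝ) → ℂ} (hc : HasCompactSupport g) (q : Fin m) :
    HasCompactSupport fun y => fderiv ℝ g y (Pi.single q 1) :=
  (hc.fderiv (𝕜 := ℝ)).comp_left
      (g := fun L : (Fin m → ℝ) →L[ℝ] ℂ => L (Pi.single q 1)) (by simp)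

/-- **The kinetic inequality**, density matrices which commute with a two-dimensional oscillator in
two of the variables. -/
theorem SysY.main (H : SysY k φ ν) :
    Integrable (fun p : Sp m => (∑ n, ν n * ‖UU (k n) (φ n) p‖ ^ 2) ^
      (1 + 2 / ((m + 2 : ℕ) : ℝ))) ∧
    Kcl (m + 2) * ∫ p : Sp m, (∑ n, ν n * ‖UU (k n) (φ n) p‖ ^ 2) ^
        (1 + 2 / ((m + 2 : ℕ) : ℝ)) ≤
      ∑ n, ν n * ((∑ q : Fin 2, ∫ p, ‖fderiv ℝ (UU (k n) (φ n)) p (Pi.single q 1, 0)‖ ^ 2) +
        ∑ q : Fin m, ∫ p, ‖fderiv ℝ (UU (k n) (φ n)) p (0, Pi.single q 1)‖ ^ 2) := by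
  have hK : 0 < Kcl (m + 2) := Pool.Agent.N674.LT.Kcl_pos (by omega)
  set pw : ℝ := 1 + 2 / ((m + 2 : ℕ) : ℝ) with hpw
  have hpw0 : 0 < pw := by rw [hpw]; positivity
  set F : Sp m → ℝ := fun p => (∑ n, ν n * ‖UU (k n) (φ n) p‖ ^ 2) ^ pw with hF
  have hcont : ∀ n a, Continuous (φ n a) := fun n a => (H.cd n a).continuous
  have hnn : ∀ p : Sp m, 0 ≤ ∑ n, ν n * ‖UU (k n) (φ n) p‖ ^ 2 := fun p =>
    Finset.sum_nonneg fun n _ => mul_nonneg (H.nonneg n) (sq_nonneg _)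
  have hF0 : ∀ p, 0 ≤ F p := fun p => Real.rpow_nonneg (hnn p) _
  have hFc : Continuous F := by
    refine Continuous.rpow_const ?_ fun p => Or.inr hpw0.le
    exact continuous_finsetSum _ fun n _ =>
      continuous_const.mul ((UU_cont (k n) (hcont n)).norm.pow 2)
  -- the right hand side on the slices
  have hdc : ∀ n a (q : Fin m), Continuous fun y => fderiv ℝ (φ n a) y (Pi.single q 1) :=
    fun n a q => fd_cont (H.cd n a) q
  have hds : ∀ n a (q : Fin m), HasCompactSupport fun y => fderiv ℝ (φ n a) y (Pi.single q 1) :=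
    fun n a q => fd_cs (H.cs n a) q
  have hyint : ∀ n (q : Fin m), Integrable fun p : Sp m =>
      ‖UU (k n) (fun a y => fderiv ℝ (φ n a) y (Pi.single q 1)) p‖ ^ 2 := fun n q =>
    UU_sq (k n) (fun a => hdc n a q) (fun a => hds n a q)
  set R1 : (Fin 2 → ℝ) → ℝ := fun x => ∑ n, ν n * ∑ q, ∫ y,
    ‖st (k n) (fun a => fderiv ℝ (φ n a) y (Pi.single q 1)) x‖ ^ 2 with hR1
  set R2 : (Fin 2 → ℝ) → ℝ := fun x => ∑ n, ν n *
    ((∫ y, ‖st (k n) (fun a => φ n a y) x‖ ^ 2) * dens (k n) x) with hR2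
  have i1' : ∀ n (q : Fin m), Integrable fun x => ∫ y,
      ‖st (k n) (fun a => fderiv ℝ (φ n a) y (Pi.single q 1)) x‖ ^ 2 := fun n q =>
    (hyint n q).integral_prod_left
  have i1 : Integrable R1 := integrable_finsetSum _ fun n _ =>
    (integrable_finsetSum _ fun q _ => i1' n q).const_mul _
  have i2 : Integrable R2 := integrable_finsetSum _ fun n _ =>
    (mass_dens (k n) (hcont n) (H.cs n)).1.const_mul _
  have i3 : Integrable fun x => R1 x + 2 * π * R2 x := i1.add (i2.const_mul _)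
  have hsl : ∀ x, Kcl (m + 2) * ∫ y, F (x, y) ≤ R1 x + 2 * π * R2 x := fun x => H.slice x
  have hsc : ∀ x, HasCompactSupport fun y => F (x, y) := by
    intro x
    refine HasCompactSupport.intro (K := ⋃ n, tsupport fun y => st (k n) (fun a => φ n a y) x)
      (isCompact_iUnion fun n => st_y_cs (k n) (H.cs n) x) fun y hy => ?_
    have h1 : ∀ n, st (k n) (fun a => φ n a y) x = 0 := fun n =>
      image_eq_zero_of_notMem_tsupport (f := fun y => st (k n) (fun a => φ n a y) x)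
        fun h => hy (mem_iUnion.2 ⟨n, h⟩)
    show (∑ n, ν n * ‖UU (k n) (φ n) (x, y)‖ ^ 2) ^ pw = 0
    rw [Finset.sum_eq_zero fun n _ => ?_, Real.zero_rpow hpw0.ne']
    unfold UU
    rw [h1 n]; simp
  have hFy : ∀ x, Integrable fun y => F (x, y) := fun x =>
    (hFc.comp (Continuous.prodMk_right x)).integrable_of_hasCompactSupport (hsc x)
  have hFi : Integrable F := by
    have hm : AEStronglyMeasurable F ((volume : Measure (Fin 2 → ℝ)).prod
      (volume : Measure (Fin m → ℝ))) := hFc.aestronglyMeasurable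
    refine (integrable_prod_iff hm).2 ⟨Eventually.of_forall hFy, ?_⟩
    have e1 : (fun x => ∫ y, ‖F (x, y)‖) = fun x => ∫ y, F (x, y) := by
      funext x
      refine integral_congr_ae (Eventually.of_forall fun y => ?_)
      exact Real.norm_of_nonneg (hF0 _)
    rw [e1]
    refine (i3.const_mul (Kcl (m + 2))⁻¹).mono' hm.integral_prod_right' ?_
    refine Eventually.of_forall fun x => ?_
    have h0 : 0 ≤ ∫ y, F (x, y) := integral_nonneg fun y => hF0 _
    rw [Real.norm_of_nonneg h0, ← div_eq_inv_mul, le_div_iff₀ hK, mul_comm]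
    exact hsl x
  refine ⟨hFi, ?_⟩
  have h1 : ∫ p, F p = ∫ x, ∫ y, F (x, y) := integral_prod F hFi
  rw [h1, ← integral_const_mul]
  have h2 : ∫ x, Kcl (m + 2) * ∫ y, F (x, y) ≤ ∫ x, (R1 x + 2 * π * R2 x) := by
    refine integral_mono ?_ i3 hsl
    exact (hFi.integral_prod_left).const_mul _
  refine h2.trans (le_of_eq ?_)
  rw [integral_add i1 (i2.const_mul _), integral_const_mul]
  have e1 : ∫ x, R1 x = ∑ n, ν n *
      ∑ q : Fin m, ∫ p, ‖fderiv ℝ (UU (k n) (φ n)) p (0, Pi.single q 1)‖ ^ 2 := by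
    rw [hR1, integral_finsetSum _ fun n _ =>
      (integrable_finsetSum _ fun q _ => i1' n q).const_mul _]
    refine Finset.sum_congr rfl fun n _ => ?_
    rw [integral_const_mul, integral_finsetSum _ fun q _ => i1' n q]
    congr 1
    refine Finset.sum_congr rfl fun q _ => ?_
    simp only [UU_dy (k n) (H.cd n)]
    exact (integral_prod _ (hyint n q)).symm
  have e2 : 2 * π * ∫ x, R2 x = ∑ n, ν n *
      ∑ q : Fin 2, ∫ p, ‖fderiv ℝ (UU (k n) (φ n)) p (Pi.single q 1, 0)‖ ^ 2 := by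
    rw [hR2, integral_finsetSum _ fun n _ =>
      (mass_dens (k n) (hcont n) (H.cs n)).1.const_mul _, Finset.mul_sum]
    refine Finset.sum_congr rfl fun n _ => ?_
    rw [integral_const_mul, UU_kx (k n) (H.cd n) (H.cs n),
      ← (mass_dens (k n) (hcont n) (H.cs n)).2]
    ring
  rw [e1, e2, ← Finset.sum_add_distrib]
  refine Finset.sum_congr rfl fun n _ => by ring

end Pool.Agent.H45.LT.Ly
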