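import Mathlib
import Pool.Graph.R_pool_sql_team_seeded_63374d34.N674.LT.Wrap

set_option autoImplicit false

/-!
# Fubini for the splitting into longitudinal and transversal coordinates
-/

open MeasureTheory Set Topology Real
open Filter hiding join
open Pool.Agent.N674.LT (join join_zero join_cons)
open LTd (slice_cont slice_int)

namespace Pool.Agent.H45.LT

theorem join_cont {m k : ℕ} :
    Continuous fun q : (Fin k → ℝ) × (Fin m → ℝ) => (join q.1 q.2 : Fin (m + k) → ℝ) := by
  refine continuous_pi fun j => ?_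
  by_cases h : (j : ℕ) < k
  · simp only [join, dif_pos h]
    fun_prop
  · simp only [join, dif_neg h]
    fun_prop

theorem norm_le_join_left {m k : ℕ} (t : Fin k → ℝ) (y : Fin m → ℝ) :
    ‖t‖ ≤ ‖(join t y : Fin (m + k) → ℝ)‖ := by
  refine (pi_norm_le_iff_of_nonneg (norm_nonneg _)).2 fun i => ?_
  have h := norm_le_pi_norm (join t y : Fin (m + k) → ℝ) ⟨i, by omega⟩
  simpa [join] using h

theorem norm_le_join_right {m k : ℕ} (t : Fin k → ℝ) (y : Fin m → ℝ) :
    ‖y‖ ≤ ‖(join t y : Fin (m + k) → ℝ)‖ := by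
  refine (pi_norm_le_iff_of_nonneg (norm_nonneg _)).2 fun i => ?_
  have h := norm_le_pi_norm (join t y : Fin (m + k) → ℝ) ⟨i + k, by omega⟩
  simpa [join] using h

/-- slices of a continuous function with compact support -/
theorem joinslice {m k : ℕ} {f : (Fin (m + k) → ℝ) → ℝ} (hf : Continuous f)
    (hc : HasCompactSupport f) :
    Continuous (fun t : Fin k → ℝ => ∫ y : Fin m → ℝ, f (join t y)) ∧
    HasCompactSupport (fun t : Fin k → ℝ => ∫ y : Fin m → ℝ, f (join t y)) ∧
    (∀ t : Fin k → ℝ, Continuous fun y : Fin m → ℝ => f (join t y)) ∧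
    (∀ t : Fin k → ℝ, HasCompactSupport fun y : Fin m → ℝ => f (join t y)) ∧
    ∃ M : ℝ, (∀ (t : Fin k → ℝ) (y : Fin m → ℝ), M < ‖t‖ → f (join t y) = 0) ∧
      ∀ (t : Fin k → ℝ) (y : Fin m → ℝ), M < ‖y‖ → f (join t y) = 0 := by
  have hF : Continuous fun q : (Fin k → ℝ) × (Fin m → ℝ) => f (join q.1 q.2) := hf.comp join_cont
  obtain ⟨M, hM⟩ := hc.isCompact.isBounded.subset_closedBall 0
  have hz : ∀ z : Fin (m + k) → ℝ, M < ‖z‖ → f z = 0 := by
    intro z hz
    by_contra h
    have h1 := hM (subset_tsupport f h)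
    rw [mem_closedBall_zero_iff] at h1
    linarith
  have h0 : ∀ (t : Fin k → ℝ) (y : Fin m → ℝ), M < ‖t‖ → f (join t y) = 0 := fun t y h =>
    hz _ (h.trans_le (norm_le_join_left t y))
  have h1 : ∀ (t : Fin k → ℝ) (y : Fin m → ℝ), M < ‖y‖ → f (join t y) = 0 := fun t y h =>
    hz _ (h.trans_le (norm_le_join_right t y))
  refine ⟨?_, ?_, ?_, ?_, M, h0, h1⟩
  · have h2 : (fun t : Fin k → ℝ => ∫ y : Fin m → ℝ, f (join t y)) =
        fun t => ∫ y in Metric.closedBall (0 : Fin m → ℝ) M, f (join t y) := by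
      funext t
      exact (setIntegral_eq_integral_of_forall_compl_eq_zero fun y hy => h1 t y (by
        rwa [mem_closedBall_zero_iff, not_le] at hy)).symm
    rw [h2]
    exact continuous_parametric_integral_of_continuous
      (f := fun (t : Fin k → ℝ) (y : Fin m → ℝ) => f (join t y)) hF (isCompact_closedBall 0 M)
  · refine HasCompactSupport.intro (isCompact_closedBall 0 M) fun t ht => ?_
    rw [mem_closedBall_zero_iff, not_le] at ht
    simp only [h0 t _ ht, integral_zero]
  · intro t
    exact hF.comp (Continuous.prodMk_right t)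
  · intro t
    refine HasCompactSupport.intro (isCompact_closedBall 0 M) fun y hy => ?_
    rw [mem_closedBall_zero_iff, not_le] at hy
    exact h1 t y hy

theorem fub {m : ℕ} : ∀ (k : ℕ) {f : (Fin (m + k) → ℝ) → ℝ}, Continuous f →
    HasCompactSupport f →
    ∫ z, f z = ∫ t : Fin k → ℝ, ∫ y : Fin m → ℝ, f (join t y)
  | 0, f, hf, hc => by
    have key : ∀ g : (Fin 0 → ℝ) → ℝ, ∫ x, g x = g default := by
      intro g
      rw [MeasureTheory.Measure.volume_pi_eq_dirac (default : Fin 0 → ℝ), integral_dirac]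
    rw [key]
    simp only [join_zero]
    rfl
  | k + 1, f, hf, hc => by
    have h1 := slice_int (m := m + k) hf hc
    have h2 := slice_int (m := k) (joinslice hf hc).1 (joinslice hf hc).2.1
    rw [h2]
    refine h1.trans ?_
    refine integral_congr_ae (ae_of_all _ fun x => ?_)
    have h3 := slice_cont (m := m + k) hf hc
    have h4 := fub k (h3.2.1 x) (h3.2.2.1 x)
    refine h4.trans ?_
    refine integral_congr_ae (ae_of_all _ fun t => ?_)
    refine integral_congr_ae (ae_of_all _ fun y => ?_)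
    show f (Fin.cons x (join t y) : Fin (m + k + 1) → ℝ) = f (join (Fin.cons x t) y)
    rw [join_cons, Fin.cons_zero, Fin.tail_cons]

end Pool.Agent.H45.LT
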