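import Mathlib
import Pool.Agent.H45.LT.Red1

set_option autoImplicit false

/-!
# Integrals of a slice against a square integrable function
-/

open MeasureTheory Set Topology Real
open Filter hiding join
open Pool.Agent.N674.LT (join join_zero join_cons)
open LTd (slice_cont slice_int pd pd_basic)

namespace Pool.Agent.H45.LT

/-- the index of a longitudinal coordinate -/
def emb {m k : ℕ} (l : Fin k) : Fin (m + k) := ⟨l, by omega⟩

/-- the index of a transversal coordinate -/
def emt {m k : ℕ} (l : Fin m) : Fin (m + k) := ⟨l + k, by omega⟩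

/-- the derivative of `t ↦ join t y` -/
noncomputable def jL (m k : ℕ) : (Fin k → ℝ) →L[ℝ] (Fin (m + k) → ℝ) :=
  ContinuousLinearMap.pi fun j : Fin (m + k) =>
    if h : (j : ℕ) < k then ContinuousLinearMap.proj (⟨j, h⟩ : Fin k) else 0

/-- the derivative of `y ↦ join t y` -/
noncomputable def jR (m k : ℕ) : (Fin m → ℝ) →L[ℝ] (Fin (m + k) → ℝ) :=
  ContinuousLinearMap.pi fun j : Fin (m + k) =>
    if h : (j : ℕ) < k then 0 else
      ContinuousLinearMap.proj (⟨j - k, by have := j.isLt; omega⟩ : Fin m)

theorem jL_fd {m k : ℕ} (t : Fin k → ℝ) (y : Fin m → ℝ) :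
    HasFDerivAt (fun t : Fin k → ℝ => (join t y : Fin (m + k) → ℝ)) (jL m k) t := by
  rw [hasFDerivAt_pi']
  intro j
  by_cases h : (j : ℕ) < k
  · simp only [join, dif_pos h, jL, ContinuousLinearMap.proj_pi]
    exact hasFDerivAt_apply _ t
  · simp only [join, dif_neg h, jL, ContinuousLinearMap.proj_pi]
    exact hasFDerivAt_const _ t

theorem jR_fd {m k : ℕ} (t : Fin k → ℝ) (y : Fin m → ℝ) :
    HasFDerivAt (fun y : Fin m → ℝ => (join t y : Fin (m + k) → ℝ)) (jR m k) y := by
  rw [hasFDerivAt_pi']
  intro j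
  by_cases h : (j : ℕ) < k
  · simp only [join, dif_pos h, jR, ContinuousLinearMap.proj_pi]
    exact hasFDerivAt_const _ y
  · simp only [join, dif_neg h, jR, ContinuousLinearMap.proj_pi]
    exact hasFDerivAt_apply _ y

theorem jL_single {m k : ℕ} (l : Fin k) :
    jL m k (Pi.single l 1) = Pi.single (emb l) 1 := by
  ext j
  by_cases h : (j : ℕ) < k
  · simp only [jL, ContinuousLinearMap.coe_pi', dif_pos h, ContinuousLinearMap.proj_apply,
      Pi.single_apply, emb, Fin.ext_iff]
  · simp only [jL, ContinuousLinearMap.coe_pi', dif_neg h, zero_apply,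
      Pi.single_apply, emb, Fin.ext_iff]
    rw [if_neg (by omega)]

theorem jR_single {m k : ℕ} (l : Fin m) :
    jR m k (Pi.single l 1) = Pi.single (emt l) 1 := by
  ext j
  by_cases h : (j : ℕ) < k
  · simp only [jR, ContinuousLinearMap.coe_pi', dif_pos h, zero_apply,
      Pi.single_apply, emt, Fin.ext_iff]
    rw [if_neg (by omega)]
  · simp only [jR, ContinuousLinearMap.coe_pi', dif_neg h, ContinuousLinearMap.proj_apply,
      Pi.single_apply, emt, Fin.ext_iff]
    by_cases h2 : (j : ℕ) - k = l
    · rw [if_pos h2, if_pos (by omega)]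
    · rw [if_neg h2, if_neg (by omega)]

theorem join_contDiff_right {m k : ℕ} (t : Fin k → ℝ) :
    ContDiff ℝ 1 (fun y : Fin m → ℝ => (join t y : Fin (m + k) → ℝ)) := by
  rw [contDiff_pi]
  intro j
  by_cases h : (j : ℕ) < k
  · simp only [join, dif_pos h]
    exact contDiff_const
  · simp only [join, dif_neg h]
    exact contDiff_apply ℝ ℝ _

/-- transversal slices -/
theorem tslice {m k : ℕ} {f : (Fin (m + k) → ℝ) → ℝ} (hf : ContDiff ℝ 1 f) (t : Fin k → ℝ) :
    (ContDiff ℝ 1 fun y : Fin m → ℝ => f (join t y)) ∧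
    ∀ (l : Fin m) (y : Fin m → ℝ), pd l (fun y : Fin m → ℝ => f (join t y)) y =
      pd (emt l) f (join t y) := by
  refine ⟨hf.comp (join_contDiff_right t), fun l y => ?_⟩
  have hd : HasFDerivAt f (fderiv ℝ f (join t y)) (join t y) :=
    (hf.differentiable (by norm_num)).differentiableAt.hasFDerivAt
  have h1 : HasFDerivAt (fun y : Fin m → ℝ => f (join t y))
      ((fderiv ℝ f (join t y)).comp (jR m k)) y := hd.comp y (jR_fd t y)
  unfold pd
  rw [h1.fderiv, ContinuousLinearMap.comp_apply, jR_single]

theorem ball_integrable {m : ℕ} {b : (Fin m → ℝ) → ℝ} (hb : MemLp b 2 volume) (C M : ℝ) :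
    Integrable (fun y => (Metric.closedBall (0 : Fin m → ℝ) M).indicator
      (fun y => C * |b y|) y) := by
  rw [integrable_indicator_iff measurableSet_closedBall]
  have : IsFiniteMeasure (volume.restrict (Metric.closedBall (0 : Fin m → ℝ) M)) :=
    ⟨by rw [Measure.restrict_apply_univ]; exact measure_closedBall_lt_top⟩
  exact (((hb.restrict _).integrable one_le_two).abs).const_mul C

theorem par {m k : ℕ} {w : (Fin (m + k) → ℝ) → ℝ} (hw : ContDiff ℝ 1 w)
    (hc : HasCompactSupport w) {b : (Fin m → ℝ) → ℝ} (hb : MemLp b 2 volume) :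
    ContDiff ℝ 1 (fun t : Fin k → ℝ => ∫ y, w (join t y) * b y) ∧
    HasCompactSupport (fun t : Fin k → ℝ => ∫ y, w (join t y) * b y) ∧
    ∀ (l : Fin k) (t : Fin k → ℝ), pd l (fun t : Fin k → ℝ => ∫ y, w (join t y) * b y) t =
      ∫ y, pd (emb l) w (join t y) * b y := by
  have hwc := hw.continuous
  obtain ⟨-, -, hs1, hs2, M, hM1, hM2⟩ := joinslice hwc hc
  have hfc : Continuous (fderiv ℝ w) := hw.continuous_fderiv (by norm_num)
  have hfs : HasCompactSupport (fderiv ℝ w) := hc.fderiv (𝕜 := ℝ)
  obtain ⟨C, hC⟩ := hfs.exists_bound_of_continuous hfc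
  obtain ⟨M', hM'⟩ := hfs.isCompact.isBounded.subset_closedBall 0
  have hz : ∀ (t : Fin k → ℝ) (y : Fin m → ℝ), M' < ‖y‖ → fderiv ℝ w (join t y) = 0 := by
    intro t y hy
    by_contra h
    have h1 := hM' (subset_tsupport _ h)
    rw [mem_closedBall_zero_iff] at h1
    have h2 := norm_le_join_right t y
    linarith
  -- the derivative of the integrand
  set F' : (Fin k → ℝ) → (Fin m → ℝ) → ((Fin k → ℝ) →L[ℝ] ℝ) := fun t y =>
    b y • ((fderiv ℝ w (join t y)).comp (jL m k)) with hF'
  have hder : ∀ (t : Fin k → ℝ) (y : Fin m → ℝ),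
      HasFDerivAt (fun t : Fin k → ℝ => w (join t y) * b y) (F' t y) t := by
    intro t y
    have hd : HasFDerivAt w (fderiv ℝ w (join t y)) (join t y) :=
      (hw.differentiable (by norm_num)).differentiableAt.hasFDerivAt
    exact (hd.comp t (jL_fd t y)).mul_const (b y)
  have hbm : AEStronglyMeasurable b volume := hb.1
  have hF'm : ∀ t, AEStronglyMeasurable (F' t) volume := by
    intro t
    refine hbm.smul ?_
    have h1 : Continuous fun y : Fin m → ℝ => (fderiv ℝ w (join t y)).comp (jL m k) :=
      ((hfc.comp (join_cont.comp (Continuous.prodMk_right t))).clm_comp continuous_const)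
    exact h1.aestronglyMeasurable
  have hC0 : 0 ≤ C := (norm_nonneg _).trans (hC 0)
  have hbd : ∀ t y, ‖F' t y‖ ≤ (Metric.closedBall (0 : Fin m → ℝ) M').indicator
      (fun y => (C * ‖jL m k‖) * |b y|) y := by
    intro t y
    by_cases hy : y ∈ Metric.closedBall (0 : Fin m → ℝ) M'
    · rw [Set.indicator_of_mem hy, hF']
      dsimp only
      rw [norm_smul, Real.norm_eq_abs, mul_comm]
      refine mul_le_mul_of_nonneg_right ?_ (abs_nonneg _)
      exact (ContinuousLinearMap.opNorm_comp_le _ _).trans
        (mul_le_mul_of_nonneg_right (hC _) (norm_nonneg _))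
    · rw [Set.indicator_of_notMem hy, hF']
      dsimp only
      rw [mem_closedBall_zero_iff, not_le] at hy
      rw [hz t y hy, ContinuousLinearMap.zero_comp, smul_zero, norm_zero]
  have hFm : ∀ t, AEStronglyMeasurable (fun y : Fin m → ℝ => w (join t y) * b y) volume := fun t =>
    ((hs1 t).aestronglyMeasurable).mul hbm
  have hFi : ∀ t, Integrable (fun y : Fin m → ℝ => w (join t y) * b y) := by
    intro t
    have h1 : MemLp (fun y : Fin m → ℝ => w (join t y)) 2 volume :=
      (hs1 t).memLp_of_hasCompactSupport (hs2 t)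
    exact h1.integrable_mul hb
  have hHD : ∀ t, HasFDerivAt (fun t : Fin k → ℝ => ∫ y, w (join t y) * b y)
      (∫ y, F' t y) t := fun t =>
    hasFDerivAt_integral_of_dominated_of_fderiv_le (s := Set.univ) Filter.univ_mem
      (Eventually.of_forall hFm) (hFi t) (hF'm t)
      (Eventually.of_forall fun y t _ => hbd t y) (ball_integrable hb _ _)
      (Eventually.of_forall fun y t _ => hder t y)
  have hfd : fderiv ℝ (fun t : Fin k → ℝ => ∫ y, w (join t y) * b y) = fun t => ∫ y, F' t y :=
    funext fun t => (hHD t).fderiv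
  refine ⟨?_, ?_, ?_⟩
  · rw [contDiff_one_iff_fderiv]
    refine ⟨fun t => (hHD t).differentiableAt, ?_⟩
    rw [hfd]
    refine continuous_of_dominated hF'm (fun t => Eventually.of_forall (hbd t))
      (ball_integrable hb _ _) (Eventually.of_forall fun y => ?_)
    exact ((hfc.comp (join_cont.comp (Continuous.prodMk_left y))).clm_comp
      continuous_const).const_smul (b y)
  · refine HasCompactSupport.intro (isCompact_closedBall 0 M) fun t ht => ?_
    rw [mem_closedBall_zero_iff, not_le] at ht
    simp only [hM1 t _ ht, zero_mul, integral_zero]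
  · intro l t
    unfold pd
    rw [hfd]
    have hint : Integrable (F' t) :=
      (ball_integrable hb (C * ‖jL m k‖) M').mono' (hF'm t) (Eventually.of_forall (hbd t))
    rw [ContinuousLinearMap.integral_apply hint]
    refine integral_congr_ae (Eventually.of_forall fun y => ?_)
    show (b y • ((fderiv ℝ w (join t y)).comp (jL m k))) (Pi.single l 1) = _
    rw [ContinuousLinearMap.smul_apply, ContinuousLinearMap.comp_apply, jL_single, smul_eq_mul,
      mul_comm]

end Pool.Agent.H45.LT
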