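import Mathlib

set_option autoImplicit false

/-!
# A countable orthonormal basis of the square integrable functions
-/

open MeasureTheory Set Topology Real Filter

namespace Pool.Agent.H45.LT

theorem orthonormal_countable {E ι : Type*} [NormedAddCommGroup E] [InnerProductSpace ℝ E]
    [TopologicalSpace.SeparableSpace E] {b : ι → E} (hb : Orthonormal ℝ b) : Countable ι := by
  refine Pairwise.countable_of_isOpen_disjoint (s := fun i => Metric.ball (b i) (1 / 2)) ?_
    (fun i => Metric.isOpen_ball) (fun i => ⟨b i, Metric.mem_ball_self (by norm_num)⟩)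
  intro i j hij
  refine Metric.ball_disjoint_ball ?_
  have h1 : ‖b i - b j‖ ^ 2 = 2 := by
    rw [@norm_sub_sq_real, hb.1 i, hb.1 j, hb.2 hij]
    norm_num
  rw [dist_eq_norm]
  nlinarith [norm_nonneg (b i - b j)]

theorem basis (m : ℕ) : ∃ (ι : Type) (_ : Countable ι) (b : ι → (Fin m → ℝ) → ℝ),
    (∀ i, MemLp (b i) 2 volume) ∧ ∀ f : (Fin m → ℝ) → ℝ, MemLp f 2 volume →
      HasSum (fun i => (∫ y, f y * b i y) ^ 2) (∫ y, f y ^ 2) := by
  have h2 : Fact ((2 : ENNReal) ≠ ⊤) := ⟨by norm_num⟩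
  have hsec : SecondCountableTopology (Lp ℝ 2 (volume : Measure (Fin m → ℝ))) :=
    Lp.SecondCountableTopology
  obtain ⟨w, B, hB⟩ := exists_hilbertBasis ℝ (Lp ℝ 2 (volume : Measure (Fin m → ℝ)))
  refine ⟨w, orthonormal_countable B.orthonormal, fun i => ⇑(B i), fun i => Lp.memLp (B i), ?_⟩
  intro f hf
  have h := B.hasSum_inner_mul_inner (hf.toLp f) (hf.toLp f)
  have e1 : ∀ i, inner ℝ (hf.toLp f) (B i) = ∫ y, f y * (B i) y := by
    intro i
    rw [L2.inner_def]
    refine integral_congr_ae ?_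
    filter_upwards [hf.coeFn_toLp] with y hy
    rw [hy]
    simp [mul_comm]
  have e2 : inner ℝ (hf.toLp f) (hf.toLp f) = ∫ y, f y ^ 2 := by
    rw [L2.inner_def]
    refine integral_congr_ae ?_
    filter_upwards [hf.coeFn_toLp] with y hy
    rw [hy]
    simp [sq]
  rw [e2] at h
  have e3 : (fun i => inner ℝ (hf.toLp f) (B i) * inner ℝ (B i) (hf.toLp f)) =
      fun i => (∫ y, f y * (B i) y) ^ 2 := by
    funext i
    rw [real_inner_comm (hf.toLp f) (B i), e1 i, sq]
  rw [e3] at h
  exact h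

end Pool.Agent.H45.LT
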