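import Mathlib
import Pool.Agent.H45.LT.Red2
import Pool.Agent.H45.LT.Red3
import Pool.Graph.R_seed8.Helper717.LT.P_core

set_option autoImplicit false

/-!
# The kinetic inequality for a reduced density matrix
-/

open MeasureTheory Set Topology Real
open Filter hiding join
open Pool.Agent.N674.LT (join join_zero join_cons)
open LTd (slice_cont slice_int pd pd_basic bco pp core)

namespace Pool.Agent.H45.LT

theorem pp_gt (K : ℕ) : 1 < pp (3 / 2 + (K:ℝ) / 2) := by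
  unfold pp
  have h0 : (0:ℝ) ≤ K := Nat.cast_nonneg K
  rw [lt_div_iff₀ (by linarith)]
  linarith

theorem pd_smul {d : ℕ} {f : (Fin d → ℝ) → ℝ} (hf : ContDiff ℝ 1 f) (c : ℝ) (l : Fin d)
    (x : Fin d → ℝ) : pd l (fun x => c * f x) x = c * pd l f x := by
  unfold pd
  have h := ((hf.differentiable (by norm_num)) x).hasFDerivAt.const_mul c
  rw [h.fderiv]
  rfl

/-- the inequality for a finite family with Gram matrix at most `Λ` -/
theorem coreF {K : ℕ} {α : Type*} [Fintype α] (w : α → (Fin (K + 1) → ℝ) → ℝ)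
    (hw : ∀ i, ContDiff ℝ 1 (w i)) (hc : ∀ i, HasCompactSupport (w i)) {Λ : ℝ} (hΛ : 0 < Λ)
    (hG : ∀ v : α → ℝ, ∫ x, (∑ i, v i * w i x) ^ 2 ≤ Λ * ∑ i, v i ^ 2) :
    bco (K / 2) (3 / 2) (π ^ 2 / 4) * ∫ x, (∑ i, w i x ^ 2) ^ pp (3 / 2 + K / 2) ≤
      Λ ^ (pp (3 / 2 + K / 2) - 1) * ∫ x, ∑ l, ∑ i, pd l (w i) x ^ 2 := by
  set e := Fintype.equivFin α with he
  set c : ℝ := (√Λ)⁻¹ with hcdef
  have hs : 0 < √Λ := Real.sqrt_pos.2 hΛ
  have hc2 : c ^ 2 = Λ⁻¹ := by rw [hcdef, inv_pow, Real.sq_sqrt hΛ.le]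
  have h := core K (Fintype.card α) (fun i x => c * w (e.symm i) x)
    (fun i => contDiff_const.mul (hw _)) (fun i => (hc _).mul_left) (by
      intro v
      have h1 : ∀ x, ∑ i, v i * (c * w (e.symm i) x) = c * ∑ i, v (e i) * w i x := by
        intro x
        rw [Finset.mul_sum, ← e.symm.sum_comp]
        exact Finset.sum_congr rfl fun i _ => by rw [e.apply_symm_apply]; ring
      simp only [h1, mul_pow, hc2]
      rw [integral_const_mul, inv_mul_le_iff₀ hΛ]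
      refine (hG fun i => v (e i)).trans (le_of_eq ?_)
      rw [e.sum_comp (fun i => v i ^ 2)])
  have h2 : ∀ x, ∑ i, (c * w (e.symm i) x) ^ 2 = Λ⁻¹ * ∑ i, w i x ^ 2 := by
    intro x
    rw [e.symm.sum_comp (fun i => (c * w i x) ^ 2), Finset.mul_sum]
    exact Finset.sum_congr rfl fun i _ => by rw [mul_pow, hc2]
  have h3 : ∀ x, ∑ l, ∑ i, pd l (fun x => c * w (e.symm i) x) x ^ 2 =
      Λ⁻¹ * ∑ l, ∑ i, pd l (w i) x ^ 2 := by
    intro x
    rw [Finset.mul_sum]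
    refine Finset.sum_congr rfl fun l _ => ?_
    simp only [pd_smul (hw _)]
    rw [e.symm.sum_comp (fun i => (c * pd l (w i) x) ^ 2), Finset.mul_sum]
    exact Finset.sum_congr rfl fun i _ => by rw [mul_pow, hc2]
  simp only [h2, h3] at h
  have h4 : ∀ x, (Λ⁻¹ * ∑ i, w i x ^ 2) ^ pp (3 / 2 + (K:ℝ) / 2) =
      Λ⁻¹ ^ pp (3 / 2 + (K:ℝ) / 2) * (∑ i, w i x ^ 2) ^ pp (3 / 2 + (K:ℝ) / 2) := fun x =>
    Real.mul_rpow (inv_nonneg.2 hΛ.le) (Finset.sum_nonneg fun i _ => sq_nonneg _)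
  simp only [h4] at h
  rw [integral_const_mul, integral_const_mul] at h
  set p : ℝ := pp (3 / 2 + (K:ℝ) / 2) with hp
  have hΛp : 0 < Λ ^ p := Real.rpow_pos_of_pos hΛ _
  have h5 : Λ ^ p * (Λ⁻¹) ^ p = 1 := by
    rw [Real.inv_rpow hΛ.le, mul_inv_cancel₀ hΛp.ne']
  have h6 : Λ ^ p * Λ⁻¹ = Λ ^ (p - 1) := by
    rw [Real.rpow_sub_one hΛ.ne', div_eq_mul_inv]
  have h7 := mul_le_mul_of_nonneg_left h hΛp.le
  calc bco (K / 2) (3 / 2) (π ^ 2 / 4) * ∫ x, (∑ i, w i x ^ 2) ^ p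
      = Λ ^ p * (bco (K / 2) (3 / 2) (π ^ 2 / 4) * ((Λ⁻¹) ^ p * ∫ x, (∑ i, w i x ^ 2) ^ p)) := by
        linear_combination (-(bco (K / 2) (3 / 2) (π ^ 2 / 4) * ∫ x, (∑ i, w i x ^ 2) ^ p)) * h5
    _ ≤ Λ ^ p * (Λ⁻¹ * ∫ x, ∑ l, ∑ i, pd l (w i) x ^ 2) := h7
    _ = _ := by rw [← mul_assoc, h6]

/-- the same with the dual hypothesis -/
theorem coreD {K : ℕ} {α : Type*} [Fintype α] (w : α → (Fin (K + 1) → ℝ) → ℝ)
    (hw : ∀ i, ContDiff ℝ 1 (w i)) (hc : ∀ i, HasCompactSupport (w i)) {Λ : ℝ} (hΛ : 0 < Λ)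
    (hD : ∀ f : (Fin (K + 1) → ℝ) → ℝ, Continuous f → HasCompactSupport f →
      ∑ i, (∫ x, f x * w i x) ^ 2 ≤ Λ * ∫ x, f x ^ 2) :
    bco (K / 2) (3 / 2) (π ^ 2 / 4) * ∫ x, (∑ i, w i x ^ 2) ^ pp (3 / 2 + K / 2) ≤
      Λ ^ (pp (3 / 2 + K / 2) - 1) * ∫ x, ∑ l, ∑ i, pd l (w i) x ^ 2 := by
  refine coreF w hw hc hΛ fun v => ?_
  set f : (Fin (K + 1) → ℝ) → ℝ := fun x => ∑ i, v i * w i x with hf
  have hfc : Continuous f := continuous_finsetSum _ fun i _ =>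
    continuous_const.mul (hw i).continuous
  have hfs : HasCompactSupport f := by
    refine HasCompactSupport.intro (isCompact_iUnion fun i => hc i) fun z hz => ?_
    refine Finset.sum_eq_zero fun i _ => ?_
    rw [image_eq_zero_of_notMem_tsupport fun h => hz (Set.mem_iUnion.2 ⟨i, h⟩), mul_zero]
  have h1 := hD f hfc hfs
  have hI : ∀ i, Integrable (fun x => f x * w i x) := fun i =>
    (hfc.mul (hw i).continuous).integrable_of_hasCompactSupport hfs.mul_right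
  have h2 : ∫ x, f x ^ 2 = ∑ i, v i * ∫ x, f x * w i x := by
    have h3 : ∀ x, f x ^ 2 = ∑ i, v i * (f x * w i x) := by
      intro x
      rw [sq]
      nth_rewrite 2 [hf]
      rw [Finset.mul_sum]
      exact Finset.sum_congr rfl fun i _ => by ring
    simp_rw [h3]
    rw [integral_finsetSum _ fun i _ => (hI i).const_mul _]
    exact Finset.sum_congr rfl fun i _ => integral_const_mul _ _
  have h3 := Finset.sum_mul_sq_le_sq_mul_sq Finset.univ v (fun i => ∫ x, f x * w i x)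
  rw [← h2] at h3
  have hA : 0 ≤ ∫ x, f x ^ 2 := integral_nonneg fun x => sq_nonneg _
  have hV : 0 ≤ ∑ i, v i ^ 2 := Finset.sum_nonneg fun i _ => sq_nonneg _
  have h4 : (∫ x, f x ^ 2) ^ 2 ≤ (∑ i, v i ^ 2) * (Λ * ∫ x, f x ^ 2) :=
    h3.trans (mul_le_mul_of_nonneg_left h1 hV)
  rcases hA.eq_or_lt with h0 | h0
  · rw [← h0]; positivity
  · have h5 : (∫ x, f x ^ 2) * (∫ x, f x ^ 2) ≤ (Λ * ∑ i, v i ^ 2) * ∫ x, f x ^ 2 := by
      calc (∫ x, f x ^ 2) * (∫ x, f x ^ 2) = (∫ x, f x ^ 2) ^ 2 := by ring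
        _ ≤ _ := h4
        _ = _ := by ring
    exact le_of_mul_le_mul_right h5 h0

end Pool.Agent.H45.LT
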