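import Mathlib
import Pool.Agent.H45.LT.Di1
import Pool.Agent.H45.LT.Di2
import Pool.Agent.H45.LT.Ly4
import Pool.Agent.H45.LT.Red4

set_option autoImplicit false

/-!
# The kinetic inequality on the strip
-/

open MeasureTheory Set Filter Topology Real
open scoped Matrix
open LTd (pd Kcl Mat PSD)

namespace Pool.Agent.H45.LT.Di

open Pool.Agent.H45.LT.Ly (Gr Gr_psd slice1 RI RI_l RI_r RI_d RI_c RI_sq RI_kin RI_coef normsq
  bessel_Lp fd_int)

/-- the normalized Dirichlet mode `j + 1` -/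
noncomputable def S (L : ℝ) (j : ℕ) (x : ℝ) : ℝ := √(2 / L) * sin (π * (j + 1) * x / L)

/-- its derivative -/
noncomputable def S' (L : ℝ) (j : ℕ) (x : ℝ) : ℝ :=
  √(2 / L) * (π * (j + 1) / L * cos (π * (j + 1) * x / L))

variable {L : ℝ}

theorem S_sq (hL : 0 < L) (j : ℕ) (x : ℝ) : S L j x ^ 2 = A L j x := by
  unfold S A
  rw [mul_pow, Real.sq_sqrt (by positivity)]

theorem S'_sq (hL : 0 < L) (j : ℕ) (x : ℝ) :
    S' L j x ^ 2 = (π * (j + 1) / L) ^ 2 * (2 / L - A L j x) := by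
  unfold S' A
  rw [mul_pow, Real.sq_sqrt (by positivity)]
  have h := sin_sq_add_cos_sq (π * (j + 1) * x / L)
  linear_combination (2 / L * (π * (j + 1) / L) ^ 2) * h

theorem S_deriv (L : ℝ) (j : ℕ) (x : ℝ) : HasDerivAt (S L j) (S' L j x) x := by
  have h1 : HasDerivAt (fun x : ℝ => π * (j + 1) * x / L) (π * (j + 1) / L) x := by
    have h2 := (hasDerivAt_id x).const_mul (π * ((j:ℝ) + 1) / L)
    have h3 : (fun x : ℝ => π * ((j:ℝ) + 1) * x / L) = fun x => π * ((j:ℝ) + 1) / L * id x := by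
      funext x; simp; ring
    rw [h3]
    refine h2.congr_deriv ?_
    ring
  have h4 := (h1.sin).const_mul √(2 / L)
  refine h4.congr_deriv ?_
  unfold S'
  ring

theorem S_cont (L : ℝ) (j : ℕ) : Continuous (S L j) := by unfold S; fun_prop

theorem A_one (hL : 0 < L) (j : ℕ) : ∫ x in (0:ℝ)..L, A L j x = 1 := by
  simp only [A_eq]
  rw [intervalIntegral.integral_const_mul, intervalIntegral.integral_sub
    intervalIntegrable_const (C_ii _ _ _), C_int hL]
  have : ind ((j:ℤ) + 1 = 0) = 0 := by unfold ind; rw [if_neg (by omega)]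
  rw [this]
  simp
  field_simp

/-- the measure on the interval -/
noncomputable def mu (L : ℝ) : Measure ℝ := volume.restrict (Ioo 0 L)

instance : IsFiniteMeasure (mu L) := by
  unfold mu
  exact ⟨by simp⟩

theorem mu_int (hL : 0 < L) (f : ℝ → ℝ) : ∫ x, f x ∂(mu L) = ∫ x in (0:ℝ)..L, f x := by
  unfold mu
  rw [intervalIntegral.integral_of_le hL.le, integral_Ioc_eq_integral_Ioo]

theorem mu_integrable (hL : 0 < L) {f : ℝ → ℝ} (hf : Continuous f) : Integrable f (mu L) := by
  have h := (hf.intervalIntegrable (μ := volume) 0 L).1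
  unfold mu
  rw [← IntegrableOn]
  exact h.mono_set Ioo_subset_Ioc_self

theorem SS_int (hL : 0 < L) (j : ℕ) : ∫ x, S L j x ^ 2 ∂(mu L) = 1 := by
  rw [mu_int hL]
  simp only [S_sq hL]
  exact A_one hL j

theorem S'S'_int (hL : 0 < L) (j : ℕ) : ∫ x, S' L j x ^ 2 ∂(mu L) = (π * (j + 1) / L) ^ 2 := by
  rw [mu_int hL]
  simp only [S'_sq hL]
  rw [intervalIntegral.integral_const_mul, intervalIntegral.integral_sub
    intervalIntegrable_const ((A_cont L j).intervalIntegrable 0 L), A_one hL]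
  simp
  field_simp
  norm_num

variable {m N : ℕ}

/-- the hypotheses -/
structure SysD (k : Fin N → ℕ) (φ : Fin N → (Fin m → ℝ) → ℂ) (ν : Fin N → ℝ) : Prop where
  cd : ∀ n, ContDiff ℝ 1 (φ n)
  cs : ∀ n, HasCompactSupport (φ n)
  ortho : ∀ n n', k n = k n' →
    ∫ y, (starRingEnd ℂ) (φ n y) * φ n' y = if n = n' then 1 else 0
  nonneg : ∀ n, 0 ≤ ν n
  le_one : ∀ n, ν n ≤ 1

variable {k : Fin N → ℕ} {φ : Fin N → (Fin m → ℝ) → ℂ} {ν : Fin N → ℝ}

/-- the weighted transversal functions -/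
noncomputable def wf (φ : Fin N → (Fin m → ℝ) → ℂ) (ν : Fin N → ℝ) (n : Fin N)
    (y : Fin m → ℝ) : ℂ := (√(ν n) : ℂ) * φ n y

theorem wf_norm (H : SysD k φ ν) (n : Fin N) (y : Fin m → ℝ) :
    ‖wf φ ν n y‖ ^ 2 = ν n * ‖φ n y‖ ^ 2 := by
  rw [wf, norm_mul, mul_pow, Complex.norm_real, Real.norm_eq_abs, sq_abs,
    Real.sq_sqrt (H.nonneg n)]

theorem wf_cd (H : SysD k φ ν) (n : Fin N) : ContDiff ℝ 1 (wf φ ν n) :=
  contDiff_const.mul (H.cd n)

theorem wf_cs (H : SysD k φ ν) (n : Fin N) : HasCompactSupport (wf φ ν n) :=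
  (H.cs n).mul_left

theorem wf_fderiv (H : SysD k φ ν) (n : Fin N) (y : Fin m → ℝ) (q : Fin m) :
    fderiv ℝ (wf φ ν n) y (Pi.single q 1) =
      (√(ν n) : ℂ) * fderiv ℝ (φ n) y (Pi.single q 1) := by
  have h1 := (((H.cd n).differentiable (by norm_num)) y).hasFDerivAt.const_mul (√(ν n) : ℂ)
  have h2 : fderiv ℝ (wf φ ν n) y = _ := h1.fderiv
  rw [h2]
  rfl

/-- Bessel's inequality on one level -/
theorem SysD.bessel (H : SysD k φ ν) (b : ℕ) {f : (Fin m → ℝ) → ℝ} (hf : Continuous f)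
    (hfs : HasCompactSupport f) :
    ∑ n ∈ Finset.univ.filter (fun n => k n = b), ‖∫ y, (f y : ℂ) * wf φ ν n y‖ ^ 2 ≤
      ∫ y, f y ^ 2 := by
  have hΦ : ∀ n : {n : Fin N // k n = b}, MemLp (φ n) 2 volume :=
    fun n => (H.cd n).continuous.memLp_of_hasCompactSupport (H.cs n)
  have hfc : Continuous fun y => (f y : ℂ) := Complex.continuous_ofReal.comp hf
  have hfcs : HasCompactSupport fun y => (f y : ℂ) :=
    hfs.comp_left (g := fun t : ℝ => (t : ℂ)) Complex.ofReal_zero
  have hF : MemLp (fun y => (f y : ℂ)) 2 volume := hfc.memLp_of_hasCompactSupport hfcs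
  have h := bessel_Lp (fun n : {n : Fin N // k n = b} => φ n) hΦ (by
      intro n n'
      have h := H.ortho n n' (by rw [n.2, n'.2])
      have h1 : ∫ y, (inner ℂ (φ n y) (φ n' y) : ℂ) = ∫ y, (starRingEnd ℂ) (φ n y) * φ n' y := by
        congr 1; funext y; rw [RCLike.inner_apply]; ring
      rw [h1, h]
      simp only [Subtype.ext_iff]) (fun y => (f y : ℂ)) hF
  have h2 : ∫ y, ‖(f y : ℂ)‖ ^ 2 = ∫ y, f y ^ 2 := by
    congr 1; funext y
    rw [Complex.norm_real, Real.norm_eq_abs, sq_abs]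
  rw [h2] at h
  refine le_trans ?_ h
  rw [Finset.sum_subtype (p := fun n => k n = b) (Finset.univ.filter fun n => k n = b)
    (fun n => by simp)]
  refine Finset.sum_le_sum fun n _ => ?_
  have h3 : ∫ y, (inner ℂ (φ n y) (f y : ℂ) : ℂ) =
      (starRingEnd ℂ) (∫ y, (f y : ℂ) * φ n y) := by
    rw [← integral_conj]
    refine integral_congr_ae (Eventually.of_forall fun y => ?_)
    dsimp only
    rw [map_mul, Complex.conj_ofReal, RCLike.inner_apply]
  have h4 : ∫ y, (f y : ℂ) * wf φ ν n y = (√(ν n) : ℂ) * ∫ y, (f y : ℂ) * φ n y := by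
    rw [← integral_const_mul]
    refine integral_congr_ae (Eventually.of_forall fun y => ?_)
    simp only [wf]; ring
  rw [h3, RCLike.norm_conj, h4, norm_mul, mul_pow, Complex.norm_real, Real.norm_eq_abs, sq_abs,
    Real.sq_sqrt (H.nonneg n)]
  exact mul_le_of_le_one_left (sq_nonneg _) (H.le_one n)

theorem SysD.norm (H : SysD k φ ν) (n : Fin N) : ∫ y, ‖φ n y‖ ^ 2 = 1 := by
  have h := H.ortho n n rfl
  rw [if_pos rfl] at h
  have h2 : ((∫ y, ‖φ n y‖ ^ 2 : ℝ) : ℂ) = 1 := by
    rw [← h, ← integral_complex_ofReal]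
    refine integral_congr_ae (Eventually.of_forall fun y => ?_)
    dsimp only
    rw [mul_comm, Complex.mul_conj, Complex.normSq_eq_norm_sq]
  exact_mod_cast h2

/-- **The inequality on the slices.** -/
theorem SysD.slice (H : SysD k φ ν) (hL : 0 < L) (x : ℝ) :
    Kcl (m + 1) * ∫ y, (∑ n, ν n * (A L (k n) x * ‖φ n y‖ ^ 2)) ^
        (1 + 2 / ((m + 1 : ℕ) : ℝ)) ≤
      (∑ n, ν n * (A L (k n) x * ∑ q, ∫ y, ‖fderiv ℝ (φ n) y (Pi.single q 1)‖ ^ 2)) +
      π ^ 2 / 3 * ∑ n, ν n * ((sg L (k n) x + A L (k n) x) ^ 3 - sg L (k n) x ^ 3) := by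
  set k' : Fin (N + N) → ℕ := Fin.append k k with hk'
  have hkl : ∀ i, k' (Fin.castAdd N i) = k i := fun i => Fin.append_left _ _ i
  have hkr : ∀ i, k' (Fin.natAdd N i) = k i := fun i => Fin.append_right _ _ i
  set w : Fin (N + N) → (Fin m → ℝ) → ℝ := RI (wf φ ν) with hw
  have hwd : ∀ i, ContDiff ℝ 1 (w i) := RI_d (wf_cd H)
  have hwc : ∀ i, HasCompactSupport (w i) := RI_c (wf_cs H)
  have hws : ∀ i, Continuous (w i) := fun i => (hwd i).continuous
  have h := slice1 (fun i y => S L (k' i) x * w i y) (fun i => contDiff_const.mul (hwd i))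
    (fun i => (hwc i).mul_left)
  -- the density
  have e1 : ∀ y, ∑ i, (S L (k' i) x * w i y) ^ 2 = ∑ n, ν n * (A L (k n) x * ‖φ n y‖ ^ 2) := by
    intro y
    rw [Fin.sum_univ_add, ← Finset.sum_add_distrib]
    refine Finset.sum_congr rfl fun n _ => ?_
    have h1 := wf_norm H n y
    rw [normsq] at h1
    rw [hkl, hkr, hw, RI_l, RI_r, mul_pow, mul_pow, S_sq hL]
    linear_combination (A L (k n) x) * h1
  -- the derivatives
  have e2 : ∫ y, ∑ q, ∑ i, pd q (fun y => S L (k' i) x * w i y) y ^ 2 =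
      ∑ n, ν n * (A L (k n) x * ∑ q, ∫ y, ‖fderiv ℝ (φ n) y (Pi.single q 1)‖ ^ 2) := by
    have hpdl : ∀ i q y, pd q (w (Fin.castAdd N i)) y =
        (fderiv ℝ (wf φ ν i) y (Pi.single q 1)).re := by
      intro i q y
      rw [hw, RI_l]
      unfold pd
      have h1 : HasFDerivAt (fun x => (wf φ ν i x).re)
          (Complex.reCLM.comp (fderiv ℝ (wf φ ν i) y)) y :=
        Complex.reCLM.hasFDerivAt.comp y (((wf_cd H i).differentiable (by norm_num)) y).hasFDerivAt
      rw [h1.fderiv]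
      rfl
    have hpdr : ∀ i q y, pd q (w (Fin.natAdd N i)) y =
        (fderiv ℝ (wf φ ν i) y (Pi.single q 1)).im := by
      intro i q y
      rw [hw, RI_r]
      unfold pd
      have h1 : HasFDerivAt (fun x => (wf φ ν i x).im)
          (Complex.imCLM.comp (fderiv ℝ (wf φ ν i) y)) y :=
        Complex.imCLM.hasFDerivAt.comp y (((wf_cd H i).differentiable (by norm_num)) y).hasFDerivAt
      rw [h1.fderiv]
      rfl
    have hpt : ∀ y, ∑ q, ∑ i, pd q (fun y => S L (k' i) x * w i y) y ^ 2 =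
        ∑ n, ∑ q, ν n * (A L (k n) x * ‖fderiv ℝ (φ n) y (Pi.single q 1)‖ ^ 2) := by
      intro y
      rw [Finset.sum_comm, Fin.sum_univ_add, ← Finset.sum_add_distrib]
      refine Finset.sum_congr rfl fun n _ => ?_
      rw [← Finset.sum_add_distrib]
      refine Finset.sum_congr rfl fun q _ => ?_
      rw [Pool.Agent.H45.LT.pd_smul (hwd _), Pool.Agent.H45.LT.pd_smul (hwd _), hpdl, hpdr, hkl,
        hkr, mul_pow, mul_pow, S_sq hL, ← mul_add, ← normsq, wf_fderiv H, norm_mul, mul_pow,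
        Complex.norm_real, Real.norm_eq_abs, sq_abs, Real.sq_sqrt (H.nonneg n)]
      ring
    rw [integral_congr_ae (Eventually.of_forall hpt)]
    have hI : ∀ n (q : Fin m), Integrable fun y =>
        ν n * (A L (k n) x * ‖fderiv ℝ (φ n) y (Pi.single q 1)‖ ^ 2) := fun n q =>
      ((fd_int H.cd H.cs n q).const_mul _).const_mul _
    rw [integral_finsetSum _ fun n _ => integrable_finsetSum _ fun q _ => hI n q]
    refine Finset.sum_congr rfl fun n _ => ?_
    rw [integral_finsetSum _ fun q _ => hI n q, Finset.mul_sum, Finset.mul_sum]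
    refine Finset.sum_congr rfl fun q _ => ?_
    rw [integral_const_mul, integral_const_mul]
  -- the Gram matrices
  have e3 : ∀ i j, Gr (fun i y => S L (k' i) x * w i y) i j =
      S L (k' i) x * S L (k' j) x * Gr w i j := by
    intro i j
    simp only [Gr, Matrix.of_apply]
    rw [← integral_const_mul]
    congr 1; funext y; ring
  have e4 : ∑ i, ∑ j, ∑ l, Gr (fun i y => S L (k' i) x * w i y) i j *
      Gr (fun i y => S L (k' i) x * w i y) j l * Gr (fun i y => S L (k' i) x * w i y) l i =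
      ∑ i, ∑ j, ∑ l, (A L (k' i) x * A L (k' j) x * A L (k' l) x) *
        (Gr w i j * Gr w j l * Gr w l i) := by
    refine Finset.sum_congr rfl fun i _ => Finset.sum_congr rfl fun j _ =>
      Finset.sum_congr rfl fun l _ => ?_
    rw [e3, e3, e3, ← S_sq hL, ← S_sq hL, ← S_sq hL]
    ring
  have hG := gram3 w hws hwc k' (by
    intro b f hf hfs
    refine le_trans (le_of_eq ?_) (H.bessel b hf hfs)
    simp only [Finset.sum_filter]
    rw [Fin.sum_univ_add, ← Finset.sum_add_distrib]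
    refine Finset.sum_congr rfl fun n _ => ?_
    rw [hkl, hkr]
    split_ifs
    · exact RI_coef (fun n => (wf_cd H n).continuous) hf hfs n
    · ring) (fun a => A L a x) (fun a => A_nonneg hL a x)
  have e5 : ∑ i, Gr w i i * ((∑ a ∈ Finset.range (k' i), A L a x + A L (k' i) x) ^ 3 -
        (∑ a ∈ Finset.range (k' i), A L a x) ^ 3) =
      ∑ n, ν n * ((sg L (k n) x + A L (k n) x) ^ 3 - sg L (k n) x ^ 3) := by
    rw [Fin.sum_univ_add, ← Finset.sum_add_distrib]
    refine Finset.sum_congr rfl fun n _ => ?_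
    rw [hkl, hkr]
    have hg : Gr w (Fin.castAdd N n) (Fin.castAdd N n) + Gr w (Fin.natAdd N n) (Fin.natAdd N n) =
        ν n := by
      simp only [Gr, Matrix.of_apply]
      have hI : ∀ i, Integrable fun y => w i y * w i y := fun i => by
        have j1 : Continuous fun y => w i y * w i y := (hws i).mul (hws i)
        have j2 : HasCompactSupport fun y => w i y * w i y := (hwc i).mul_right
        exact j1.integrable_of_hasCompactSupport j2
      rw [← integral_add (hI _) (hI _)]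
      have h1 : ∀ y, w (Fin.castAdd N n) y * w (Fin.castAdd N n) y +
          w (Fin.natAdd N n) y * w (Fin.natAdd N n) y = ν n * ‖φ n y‖ ^ 2 := by
        intro y
        rw [← wf_norm H, normsq, hw, RI_l, RI_r]; ring
      rw [integral_congr_ae (Eventually.of_forall h1), integral_const_mul, H.norm, mul_one]
    have hs : ∀ j, (∑ a ∈ Finset.range j, A L a x) = sg L j x := fun j => rfl
    rw [hs]
    linear_combination ((sg L (k n) x + A L (k n) x) ^ 3 - sg L (k n) x ^ 3) * hg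
  rw [e5] at hG
  simp only [e1] at h
  rw [e2, e4] at h
  have h3 := mul_le_mul_of_nonneg_left hG (show (0:ℝ) ≤ π ^ 2 / 3 by positivity)
  linarith

end Pool.Agent.H45.LT.Di
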