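import Mathlib
import Pool.Agent.H45.LT.Di3

set_option autoImplicit false

/-!
# Integration over the strip
-/

open MeasureTheory Set Filter Topology Real
open scoped Matrix
open LTd (pd Kcl Mat PSD)

namespace Pool.Agent.H45.LT.Di

open Pool.Agent.H45.LT.Ly (fd_int fd_cont fd_cs)

variable {L : ℝ} {m : ℕ}

/-- the line times `ℝ^m` -/
abbrev St (m : ℕ) : Type := ℝ × (Fin m → ℝ)

/-- the measure on the strip -/
noncomputable def ms (L : ℝ) (m : ℕ) : Measure (St m) :=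
  (mu L).prod (volume : Measure (Fin m → ℝ))

theorem ms_eq (L : ℝ) (m : ℕ) :
    ms L m = (volume : Measure (St m)).restrict (Ioo 0 L ×ˢ (univ : Set (Fin m → ℝ))) := by
  unfold ms mu
  have h := Measure.prod_restrict (μ := (volume : Measure ℝ))
    (ν := (volume : Measure (Fin m → ℝ))) (Ioo 0 L) univ
  rw [Measure.restrict_univ] at h
  rw [h]
  rfl

/-- a mode times a function -/
noncomputable def VV (L : ℝ) (j : ℕ) (g : (Fin m → ℝ) → ℂ) (p : St m) : ℂ :=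
  (S L j p.1 : ℂ) * g p.2

theorem VV_sq (hL : 0 < L) (j : ℕ) (g : (Fin m → ℝ) → ℂ) (p : St m) :
    ‖VV L j g p‖ ^ 2 = A L j p.1 * ‖g p.2‖ ^ 2 := by
  rw [VV, norm_mul, mul_pow, Complex.norm_real, Real.norm_eq_abs, sq_abs, S_sq hL]

theorem VV_cont (L : ℝ) (j : ℕ) {g : (Fin m → ℝ) → ℂ} (hg : Continuous g) :
    Continuous (VV L j g) :=
  (Complex.continuous_ofReal.comp ((S_cont L j).comp continuous_fst)).mul
    (hg.comp continuous_snd)

theorem VV_fderiv (L : ℝ) (j : ℕ) {g : (Fin m → ℝ) → ℂ} (hg : ContDiff ℝ 1 g) (p : St m) :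
    HasFDerivAt (VV L j g)
      ((S L j p.1 : ℂ) • ((fderiv ℝ g p.2).comp (ContinuousLinearMap.snd ℝ ℝ (Fin m → ℝ))) +
      (g p.2) • (Complex.ofRealCLM.comp (S' L j p.1 • (ContinuousLinearMap.fst ℝ ℝ (Fin m → ℝ)))))
      p := by
  have h1 : HasFDerivAt (fun p : St m => g p.2) ((fderiv ℝ g p.2).comp
      (ContinuousLinearMap.snd ℝ ℝ (Fin m → ℝ))) p :=
    ((hg.differentiable (by norm_num)) p.2).hasFDerivAt.comp p hasFDerivAt_snd
  have h0 : HasFDerivAt (fun p : St m => S L j p.1)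
      (S' L j p.1 • (ContinuousLinearMap.fst ℝ ℝ (Fin m → ℝ))) p :=
    (S_deriv L j p.1).comp_hasFDerivAt p hasFDerivAt_fst
  have h2 : HasFDerivAt (fun p : St m => (S L j p.1 : ℂ))
      (Complex.ofRealCLM.comp (S' L j p.1 • (ContinuousLinearMap.fst ℝ ℝ (Fin m → ℝ)))) p :=
    Complex.ofRealCLM.hasFDerivAt.comp p h0
  exact h2.mul h1

theorem VV_dx (hL : 0 < L) (j : ℕ) {g : (Fin m → ℝ) → ℂ} (hg : ContDiff ℝ 1 g) (p : St m) :
    ‖fderiv ℝ (VV L j g) p (1, 0)‖ ^ 2 = S' L j p.1 ^ 2 * ‖g p.2‖ ^ 2 := by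
  rw [(VV_fderiv L j hg p).fderiv]
  have h : ((S L j p.1 : ℂ) • ((fderiv ℝ g p.2).comp (ContinuousLinearMap.snd ℝ ℝ (Fin m → ℝ))) +
      (g p.2) • (Complex.ofRealCLM.comp
        (S' L j p.1 • (ContinuousLinearMap.fst ℝ ℝ (Fin m → ℝ))))) (1, 0) =
      g p.2 * (S' L j p.1 : ℂ) := by
    simp
  rw [h, norm_mul, mul_pow, Complex.norm_real, Real.norm_eq_abs, sq_abs]
  ring

theorem VV_dy (hL : 0 < L) (j : ℕ) {g : (Fin m → ℝ) → ℂ} (hg : ContDiff ℝ 1 g) (p : St m)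
    (q : Fin m) : ‖fderiv ℝ (VV L j g) p (0, Pi.single q 1)‖ ^ 2 =
      A L j p.1 * ‖fderiv ℝ g p.2 (Pi.single q 1)‖ ^ 2 := by
  rw [(VV_fderiv L j hg p).fderiv]
  have h : ((S L j p.1 : ℂ) • ((fderiv ℝ g p.2).comp (ContinuousLinearMap.snd ℝ ℝ (Fin m → ℝ))) +
      (g p.2) • (Complex.ofRealCLM.comp
        (S' L j p.1 • (ContinuousLinearMap.fst ℝ ℝ (Fin m → ℝ))))) (0, Pi.single q 1) =
      (S L j p.1 : ℂ) * fderiv ℝ g p.2 (Pi.single q 1) := by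
    simp
  rw [h, norm_mul, mul_pow, Complex.norm_real, Real.norm_eq_abs, sq_abs, S_sq hL]

theorem prod_int (f : ℝ → ℝ) (g : (Fin m → ℝ) → ℝ) :
    ∫ p : St m, f p.1 * g p.2 ∂(ms L m) = (∫ x, f x ∂(mu L)) * ∫ y, g y :=
  integral_prod_mul (μ := mu L) (ν := (volume : Measure (Fin m → ℝ))) f g

theorem VV_kx (hL : 0 < L) (j : ℕ) {g : (Fin m → ℝ) → ℂ} (hg : ContDiff ℝ 1 g) :
    ∫ p, ‖fderiv ℝ (VV L j g) p (1, 0)‖ ^ 2 ∂(ms L m) =
      (π * (j + 1) / L) ^ 2 * ∫ y, ‖g y‖ ^ 2 := by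
  simp only [VV_dx hL j hg]
  rw [prod_int (fun x => S' L j x ^ 2) (fun y => ‖g y‖ ^ 2), S'S'_int hL]

theorem VV_ky (hL : 0 < L) (j : ℕ) {g : (Fin m → ℝ) → ℂ} (hg : ContDiff ℝ 1 g) (q : Fin m) :
    ∫ p, ‖fderiv ℝ (VV L j g) p (0, Pi.single q 1)‖ ^ 2 ∂(ms L m) =
      ∫ y, ‖fderiv ℝ g y (Pi.single q 1)‖ ^ 2 := by
  simp only [VV_dy hL j hg]
  rw [prod_int (fun x => A L j x) (fun y => ‖fderiv ℝ g y (Pi.single q 1)‖ ^ 2), mu_int hL,
    A_one hL, one_mul]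

theorem VV_inner (hL : 0 < L) (j : ℕ) (g g' : (Fin m → ℝ) → ℂ) :
    ∫ p, (starRingEnd ℂ) (VV L j g p) * VV L j g' p ∂(ms L m) =
      ∫ y, (starRingEnd ℂ) (g y) * g' y := by
  have h1 : ∀ p : St m, (starRingEnd ℂ) (VV L j g p) * VV L j g' p =
      ((A L j p.1 : ℝ) : ℂ) * ((starRingEnd ℂ) (g p.2) * g' p.2) := by
    intro p
    unfold VV
    rw [map_mul, Complex.conj_ofReal, ← S_sq hL]
    push_cast; ring
  simp only [h1]
  have h2 := integral_prod_mul (μ := mu L) (ν := (volume : Measure (Fin m → ℝ)))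
    (fun x => ((A L j x : ℝ) : ℂ)) (fun y => (starRingEnd ℂ) (g y) * g' y)
  refine h2.trans ?_
  rw [integral_complex_ofReal, mu_int hL, A_one hL]
  simp

variable {N : ℕ} {k : Fin N → ℕ} {φ : Fin N → (Fin m → ℝ) → ℂ} {ν : Fin N → ℝ}

/-- **The kinetic inequality on the strip.** -/
theorem SysD.main (H : SysD k φ ν) (hL : 0 < L) :
    Integrable (fun p : St m => (∑ n, ν n * ‖VV L (k n) (φ n) p‖ ^ 2) ^
      (1 + 2 / ((m + 1 : ℕ) : ℝ))) (ms L m) ∧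
    Kcl (m + 1) * ∫ p : St m, (∑ n, ν n * ‖VV L (k n) (φ n) p‖ ^ 2) ^
        (1 + 2 / ((m + 1 : ℕ) : ℝ)) ∂(ms L m) +
      π ^ 2 / (12 * L ^ 2) * ∑ n, ν n * (3 * (k n : ℝ) + 2) ≤
      ∑ n, ν n * ((∫ p, ‖fderiv ℝ (VV L (k n) (φ n)) p (1, 0)‖ ^ 2 ∂(ms L m)) +
        ∑ q : Fin m, ∫ p, ‖fderiv ℝ (VV L (k n) (φ n)) p (0, Pi.single q 1)‖ ^ 2 ∂(ms L m)) := by
  have hK : 0 < Kcl (m + 1) := Pool.Agent.N674.LT.Kcl_pos (by omega)
  set pw : ℝ := 1 + 2 / ((m + 1 : ℕ) : ℝ) with hpw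
  have hpw0 : 0 < pw := by rw [hpw]; positivity
  set F : St m → ℝ := fun p => (∑ n, ν n * ‖VV L (k n) (φ n) p‖ ^ 2) ^ pw with hF
  have hcont : ∀ n, Continuous (φ n) := fun n => (H.cd n).continuous
  have hnn : ∀ p : St m, 0 ≤ ∑ n, ν n * ‖VV L (k n) (φ n) p‖ ^ 2 := fun p =>
    Finset.sum_nonneg fun n _ => mul_nonneg (H.nonneg n) (sq_nonneg _)
  have hF0 : ∀ p, 0 ≤ F p := fun p => Real.rpow_nonneg (hnn p) _
  have hFc : Continuous F := by
    refine Continuous.rpow_const ?_ fun p => Or.inr hpw0.le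
    exact continuous_finsetSum _ fun n _ =>
      continuous_const.mul ((VV_cont L (k n) (hcont n)).norm.pow 2)
  set R1 : ℝ → ℝ := fun x => ∑ n, ν n * (A L (k n) x *
    ∑ q, ∫ y, ‖fderiv ℝ (φ n) y (Pi.single q 1)‖ ^ 2) with hR1
  set R2 : ℝ → ℝ := fun x => ∑ n, ν n * ((sg L (k n) x + A L (k n) x) ^ 3 - sg L (k n) x ^ 3)
    with hR2
  have c1 : Continuous R1 := continuous_finsetSum _ fun n _ =>
    continuous_const.mul ((A_cont L (k n)).mul continuous_const)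
  have c2' : ∀ j : ℕ, Continuous fun x => (sg L j x + A L j x) ^ 3 - sg L j x ^ 3 := fun j =>
    (((sg_cont L j).add (A_cont L j)).pow 3).sub ((sg_cont L j).pow 3)
  have c2 : Continuous R2 := continuous_finsetSum _ fun n _ =>
    continuous_const.mul (c2' (k n))
  have c3 : Continuous fun x => R1 x + π ^ 2 / 3 * R2 x := c1.add (continuous_const.mul c2)
  have i3 : Integrable (fun x => R1 x + π ^ 2 / 3 * R2 x) (mu L) := mu_integrable hL c3
  have hsl : ∀ x, Kcl (m + 1) * ∫ y, F (x, y) ≤ R1 x + π ^ 2 / 3 * R2 x := by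
    intro x
    have h := H.slice hL x
    have e : ∀ y, F (x, y) = (∑ n, ν n * (A L (k n) x * ‖φ n y‖ ^ 2)) ^ pw := by
      intro y
      simp only [hF, VV_sq hL]
    simp only [e]
    exact h
  have hsc : ∀ x, HasCompactSupport fun y => F (x, y) := by
    intro x
    refine HasCompactSupport.intro (K := ⋃ n, tsupport (φ n))
      (isCompact_iUnion fun n => H.cs n) fun y hy => ?_
    have h1 : ∀ n, φ n y = 0 := fun n =>
      image_eq_zero_of_notMem_tsupport fun h => hy (mem_iUnion.2 ⟨n, h⟩)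
    show (∑ n, ν n * ‖VV L (k n) (φ n) (x, y)‖ ^ 2) ^ pw = 0
    rw [Finset.sum_eq_zero fun n _ => ?_, Real.zero_rpow hpw0.ne']
    unfold VV
    rw [h1 n]; simp
  have hFy : ∀ x, Integrable fun y => F (x, y) := fun x =>
    (hFc.comp (Continuous.prodMk_right x)).integrable_of_hasCompactSupport (hsc x)
  have hFi : Integrable F (ms L m) := by
    have hm : AEStronglyMeasurable F ((mu L).prod (volume : Measure (Fin m → ℝ))) :=
      hFc.aestronglyMeasurable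
    refine (integrable_prod_iff hm).2 ⟨Eventually.of_forall hFy, ?_⟩
    have e1 : (fun x => ∫ y, ‖F (x, y)‖) = fun x => ∫ y, F (x, y) := by
      funext x
      refine integral_congr_ae (Eventually.of_forall fun y => ?_)
      exact Real.norm_of_nonneg (hF0 _)
    rw [e1]
    refine (i3.const_mul (Kcl (m + 1))⁻¹).mono' hm.integral_prod_right' ?_
    refine Eventually.of_forall fun x => ?_
    have h0 : 0 ≤ ∫ y, F (x, y) := integral_nonneg fun y => hF0 _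
    rw [Real.norm_of_nonneg h0, ← div_eq_inv_mul, le_div_iff₀ hK, mul_comm]
    exact hsl x
  refine ⟨hFi, ?_⟩
  have h1 : ∫ p, F p ∂(ms L m) = ∫ x, (∫ y, F (x, y)) ∂(mu L) := integral_prod F hFi
  have h2 : ∫ x, (Kcl (m + 1) * ∫ y, F (x, y)) ∂(mu L) ≤
      ∫ x, (R1 x + π ^ 2 / 3 * R2 x) ∂(mu L) := by
    refine integral_mono ?_ i3 hsl
    exact (Integrable.integral_prod_left hFi).const_mul _
  have e0 : Kcl (m + 1) * ∫ p, F p ∂(ms L m) =
      ∫ x, (Kcl (m + 1) * ∫ y, F (x, y)) ∂(mu L) := by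
    rw [h1, integral_const_mul]
  have e1 : ∫ x, R1 x ∂(mu L) = ∑ n, ν n *
      ∑ q : Fin m, ∫ p, ‖fderiv ℝ (VV L (k n) (φ n)) p (0, Pi.single q 1)‖ ^ 2 ∂(ms L m) := by
    have i1 : ∀ n ∈ Finset.univ, Integrable (fun x => ν n * (A L (k n) x *
        ∑ q, ∫ y, ‖fderiv ℝ (φ n) y (Pi.single q 1)‖ ^ 2)) (mu L) := fun n _ => mu_integrable hL
      (continuous_const.mul ((A_cont L (k n)).mul continuous_const))
    refine (integral_finsetSum _ i1).trans ?_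
    refine Finset.sum_congr rfl fun n _ => ?_
    rw [integral_const_mul, integral_mul_const, mu_int hL, A_one hL, one_mul]
    congr 1
    refine Finset.sum_congr rfl fun q _ => ?_
    rw [VV_ky hL (k n) (H.cd n)]
  have e2 : ∫ x, R2 x ∂(mu L) =
      ∑ n, ν n * ((3 * (k n : ℝ) ^ 2 + 21 / 4 * k n + 5 / 2) / L ^ 2) := by
    have i2 : ∀ n ∈ Finset.univ, Integrable (fun x => ν n *
        ((sg L (k n) x + A L (k n) x) ^ 3 - sg L (k n) x ^ 3)) (mu L) :=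
      fun n _ => mu_integrable hL (continuous_const.mul (c2' (k n)))
    refine (integral_finsetSum _ i2).trans ?_
    refine Finset.sum_congr rfl fun n _ => ?_
    rw [integral_const_mul, mu_int hL]
    congr 1
    rw [eq_div_iff (by positivity), mul_comm]
    exact M_eq hL (k n)
  have e3 : ∫ x, (R1 x + π ^ 2 / 3 * R2 x) ∂(mu L) =
      ∫ x, R1 x ∂(mu L) + π ^ 2 / 3 * ∫ x, R2 x ∂(mu L) := by
    rw [integral_add (mu_integrable hL c1) ((mu_integrable hL c2).const_mul _),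
      integral_const_mul]
  rw [← e0, e3, e1, e2] at h2
  have e4 : ∑ n, ν n * ((∫ p, ‖fderiv ℝ (VV L (k n) (φ n)) p (1, 0)‖ ^ 2 ∂(ms L m)) +
        ∑ q : Fin m, ∫ p, ‖fderiv ℝ (VV L (k n) (φ n)) p (0, Pi.single q 1)‖ ^ 2 ∂(ms L m)) =
      ∑ n, ν n * ∑ q : Fin m, ∫ p, ‖fderiv ℝ (VV L (k n) (φ n)) p (0, Pi.single q 1)‖ ^ 2
        ∂(ms L m) + ∑ n, ν n * (π * (k n + 1) / L) ^ 2 := by
    rw [← Finset.sum_add_distrib]
    refine Finset.sum_congr rfl fun n _ => ?_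
    rw [VV_kx hL (k n) (H.cd n), H.norm n]; ring
  have e5 : π ^ 2 / 3 * ∑ n, ν n * ((3 * (k n : ℝ) ^ 2 + 21 / 4 * k n + 5 / 2) / L ^ 2) +
      π ^ 2 / (12 * L ^ 2) * ∑ n, ν n * (3 * (k n : ℝ) + 2) =
      ∑ n, ν n * (π * (k n + 1) / L) ^ 2 := by
    rw [Finset.mul_sum, Finset.mul_sum, ← Finset.sum_add_distrib]
    refine Finset.sum_congr rfl fun n _ => ?_
    field_simp
    ring
  rw [e4, ← e5]
  linarith

end Pool.Agent.H45.LT.Di
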