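import Mathlib
import Pool.Agent.H45.LT.Di4

set_option autoImplicit false

/-!
# The filled modes
-/

open MeasureTheory Set Filter Topology Real
open LTd (Kcl)

namespace Pool.Agent.H45.LT.Di

variable {L : ℝ}

theorem int_fin0 (f : (Fin 0 → ℝ) → ℝ) : ∫ y, f y = f 0 := by
  have h : (volume : Measure (Fin 0 → ℝ)) = Measure.dirac 0 := by
    rw [volume_pi, Measure.pi_of_empty]
    congr 1
    exact Subsingleton.elim _ _
  rw [h, integral_dirac]

theorem Kcl_one : Kcl 1 = π ^ 2 / 3 := by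
  have hv : (volume (Metric.ball (0 : EuclideanSpace ℝ (Fin 1)) 1)).toReal = 2 := by
    rw [EuclideanSpace.volume_ball]
    simp only [Fintype.card_fin]
    rw [ENNReal.toReal_mul]
    have : Gamma (((1:ℕ):ℝ) / 2 + 1) = √π / 2 := by
      rw [Real.Gamma_add_one (by norm_num)]
      have : ((1:ℕ):ℝ) / 2 = 1 / 2 := by norm_num
      rw [this, Real.Gamma_one_half_eq]
      ring
    rw [this]
    have hp : 0 < √π := Real.sqrt_pos.2 Real.pi_pos
    rw [ENNReal.toReal_ofReal (by positivity)]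
    simp
    field_simp
  rw [Kcl, hv]
  have : ((2:ℝ) / ((1:ℕ):ℝ)) = ((2:ℕ):ℝ) := by norm_num
  rw [this, Real.rpow_natCast]
  push_cast
  ring

theorem S_ortho (hL : 0 < L) (a b : ℕ) :
    ∫ x in (0:ℝ)..L, S L a x * S L b x = if a = b then 1 else 0 := by
  have h1 : ∀ x, S L a x * S L b x =
      1 / L * (cos (π * ((a:ℤ) - b : ℤ) * x / L) - cos (π * ((a:ℤ) + b + 2 : ℤ) * x / L)) := by
    intro x
    have e1 : π * ((a:ℤ) - b : ℤ) * x / L = π * (a + 1) * x / L - π * (b + 1) * x / L := by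
      push_cast; ring
    have e2 : π * ((a:ℤ) + b + 2 : ℤ) * x / L = π * (a + 1) * x / L + π * (b + 1) * x / L := by
      push_cast; ring
    rw [e1, e2, cos_sub, cos_add]
    unfold S
    have h2 : √(2 / L) * √(2 / L) = 2 / L := Real.mul_self_sqrt (by positivity)
    linear_combination (sin (π * (a + 1) * x / L) * sin (π * (b + 1) * x / L)) * h2
  have hc : ∀ k : ℤ, Continuous fun x : ℝ => cos (π * k * x / L) := fun k => by fun_prop
  have hI : ∀ k : ℤ, ∫ x in (0:ℝ)..L, cos (π * k * x / L) = if k = 0 then L else 0 := by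
    intro k
    split_ifs with h
    · subst h; simp
    · have hk : (k:ℝ) ≠ 0 := by exact_mod_cast h
      have hc : π * k / L ≠ 0 := by
        have := pi_pos
        positivity
      have h1 : ∀ x : ℝ, π * k * x / L = (π * k / L) * x := fun x => by ring
      simp only [h1]
      rw [intervalIntegral.integral_comp_mul_left (fun x => cos x) hc, integral_cos, mul_zero,
        sin_zero, sub_zero]
      have h2 : π * k / L * L = (k : ℤ) * π := by
        field_simp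
      rw [h2, sin_int_mul_pi]
      simp
  simp only [h1]
  rw [intervalIntegral.integral_const_mul, intervalIntegral.integral_sub
    ((hc _).intervalIntegrable _ _) ((hc _).intervalIntegrable _ _), hI, hI]
  rw [if_neg (show ¬ ((a:ℤ) + b + 2 = 0) by omega), sub_zero]
  by_cases h : a = b
  · rw [if_pos (show (a:ℤ) - b = 0 by omega), if_pos h]
    field_simp
  · rw [if_neg (show ¬ ((a:ℤ) - b = 0) by omega), if_neg h, mul_zero]

theorem VV_ortho (hL : 0 < L) {J : ℕ} (n n' : Fin J) :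
    ∫ p, (starRingEnd ℂ) (VV (m := 0) L (n : ℕ) (fun _ => 1) p) * VV L (n' : ℕ) (fun _ => 1) p
      ∂(ms L 0) = if n = n' then 1 else 0 := by
  have h1 : ∀ p : St 0, (starRingEnd ℂ) (VV (m := 0) L (n : ℕ) (fun _ => 1) p) *
      VV L (n' : ℕ) (fun _ => 1) p =
      ((S L (n : ℕ) p.1 * S L (n' : ℕ) p.1 : ℝ) : ℂ) * (fun _ => 1) p.2 := by
    intro p
    unfold VV
    rw [map_mul, Complex.conj_ofReal]
    simp
  simp only [h1]
  have h2 := integral_prod_mul (μ := mu L) (ν := (volume : Measure (Fin 0 → ℝ)))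
    (fun x => ((S L (n : ℕ) x * S L (n' : ℕ) x : ℝ) : ℂ)) (fun _ => (1:ℂ))
  refine h2.trans ?_
  rw [integral_complex_ofReal, mu_int hL, S_ortho hL]
  have h3 : ∫ y : Fin 0 → ℝ, (1:ℂ) = 1 := by
    have h : (volume : Measure (Fin 0 → ℝ)) = Measure.dirac 0 := by
      rw [volume_pi, Measure.pi_of_empty]
      congr 1
      exact Subsingleton.elim _ _
    rw [h, integral_dirac]
  rw [h3, mul_one]
  by_cases h : n = n'
  · rw [if_pos h, if_pos (by rw [h])]; simp
  · rw [if_neg h, if_neg (fun h' => h (Fin.ext h'))]; simp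

/-- the sum of the increments -/
theorem sg_tel (L : ℝ) (J : ℕ) (x : ℝ) :
    ∑ n : Fin J, ((sg L n x + A L n x) ^ 3 - sg L n x ^ 3) = sg L J x ^ 3 := by
  rw [Fin.sum_univ_eq_sum_range (fun n => (sg L n x + A L n x) ^ 3 - sg L n x ^ 3) J]
  have h : ∀ n, sg L n x + A L n x = sg L (n + 1) x := fun n => by
    unfold sg; rw [Finset.sum_range_succ]
  simp only [h]
  rw [Finset.sum_range_sub (fun n => sg L n x ^ 3) J]
  simp [sg]

/-- **Equality for the filled modes in dimension one.** -/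
theorem filled (hL : 0 < L) (J : ℕ) :
    Kcl 1 * ∫ p : St 0, (∑ n : Fin J, (1:ℝ) * ‖VV L (n : ℕ) (fun _ => 1) p‖ ^ 2) ^
        (1 + 2 / ((1 : ℕ) : ℝ)) ∂(ms L 0) +
      π ^ 2 / (12 * L ^ 2) * ∑ n : Fin J, (1:ℝ) * (3 * ((n : ℕ) : ℝ) + 2) =
      ∑ n : Fin J, (1:ℝ) * ((∫ p, ‖fderiv ℝ (VV (m := 0) L (n : ℕ) (fun _ => 1)) p (1, 0)‖ ^ 2
        ∂(ms L 0)) +
        ∑ q : Fin 0, ∫ p, ‖fderiv ℝ (VV (m := 0) L (n : ℕ) (fun _ => 1)) p
          (0, Pi.single q 1)‖ ^ 2 ∂(ms L 0)) := by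
  have hk : ∀ n : Fin J, ∫ p, ‖fderiv ℝ (VV (m := 0) L (n : ℕ) (fun _ => 1)) p (1, 0)‖ ^ 2
      ∂(ms L 0) = (π * ((n : ℕ) + 1) / L) ^ 2 := by
    intro n
    rw [VV_kx hL n contDiff_const, int_fin0]
    simp
  have hd : ∀ p : St 0, (∑ n : Fin J, (1:ℝ) * ‖VV L (n : ℕ) (fun _ => 1) p‖ ^ 2) ^
        (1 + 2 / ((1 : ℕ) : ℝ)) =
      (∑ n : Fin J, ((sg L n p.1 + A L n p.1) ^ 3 - sg L n p.1 ^ 3)) * (fun _ => 1) p.2 := by
    intro p
    have h1 : (1 + 2 / ((1 : ℕ) : ℝ)) = ((3 : ℕ) : ℝ) := by norm_num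
    rw [sg_tel, h1, Real.rpow_natCast, mul_one]
    congr 1
    unfold sg
    rw [← Fin.sum_univ_eq_sum_range (fun n => A L n p.1) J]
    refine Finset.sum_congr rfl fun n _ => ?_
    rw [VV_sq hL]
    simp
  simp only [hd]
  rw [prod_int (m := 0) (fun x => ∑ n : Fin J, ((sg L n x + A L n x) ^ 3 - sg L n x ^ 3))
    (fun _ => 1), int_fin0, mul_one]
  have c2' : ∀ j : ℕ, Continuous fun x => (sg L j x + A L j x) ^ 3 - sg L j x ^ 3 := fun j =>
    (((sg_cont L j).add (A_cont L j)).pow 3).sub ((sg_cont L j).pow 3)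
  have i1 : ∀ n ∈ (Finset.univ : Finset (Fin J)), Integrable (fun x =>
      (sg L n x + A L n x) ^ 3 - sg L n x ^ 3) (mu L) := fun n _ => mu_integrable hL (c2' n)
  have e1 : ∫ x, ∑ n : Fin J, ((sg L n x + A L n x) ^ 3 - sg L n x ^ 3) ∂(mu L) =
      ∑ n : Fin J, (3 * ((n : ℕ) : ℝ) ^ 2 + 21 / 4 * (n : ℕ) + 5 / 2) / L ^ 2 := by
    refine (integral_finsetSum _ i1).trans ?_
    refine Finset.sum_congr rfl fun n _ => ?_
    rw [mu_int hL, eq_div_iff (by positivity), mul_comm]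
    exact M_eq hL n
  rw [e1, Kcl_one, Finset.mul_sum, Finset.mul_sum, ← Finset.sum_add_distrib]
  refine Finset.sum_congr rfl fun n _ => ?_
  rw [hk, Finset.univ_eq_empty (α := Fin 0), Finset.sum_empty, add_zero]
  field_simp
  ring

end Pool.Agent.H45.LT.Di
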