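import Mathlib

set_option autoImplicit false

/-!
# A weighted Riesz mean of the eigenvalues of anisotropic oscillators
-/

open Finset

namespace Pool.Agent.H45.LT.Gn

/-- `w_n = (2n choose n) / 4^n` -/
noncomputable def w : ℕ → ℝ
  | 0 => 1
  | (n + 1) => w n * ((2 * (n:ℝ) + 1) / (2 * (n:ℝ) + 2))

theorem w_succ (n : ℕ) : (2 * (n:ℝ) + 2) * w (n + 1) = (2 * (n:ℝ) + 1) * w n := by
  rw [w]
  have : (2 * (n:ℝ) + 2) ≠ 0 := by positivity
  field_simp

theorem w_pos (n : ℕ) : 0 < w n := by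
  induction n with
  | zero => rw [w]; norm_num
  | succ n ih => rw [w]; positivity

theorem reflect (n : ℕ) (f : ℕ → ℝ) : ∑ k ∈ range (n + 1), w k * w (n - k) * f (n - k) =
    ∑ k ∈ range (n + 1), w k * w (n - k) * f k := by
  rw [← sum_range_reflect (fun k => w k * w (n - k) * f k)]
  refine sum_congr rfl fun k hk => ?_
  rw [mem_range] at hk
  have h1 : n + 1 - 1 - k = n - k := by omega
  rw [h1, show n - (n - k) = k by omega]
  ring

theorem shift (n : ℕ) (f : ℕ → ℝ) :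
    ∑ k ∈ range (n + 2), w k * w (n + 1 - k) * ((k:ℝ) * f k) =
    ∑ k ∈ range (n + 1), w k * w (n - k) * (((k:ℝ) + 1 / 2) * f (k + 1)) := by
  rw [sum_range_succ']
  simp only [Nat.cast_zero, zero_mul, mul_zero, add_zero]
  refine sum_congr rfl fun k hk => ?_
  rw [show n + 1 - (k + 1) = n - k by omega]
  have h := w_succ k
  push_cast
  linear_combination (w (n - k) * f (k + 1) / 2) * h

theorem sum_zero (n : ℕ) : ∑ k ∈ range (n + 1), w k * w (n - k) = 1 ∧
    ∑ k ∈ range (n + 1), w k * w (n - k) * (k:ℝ) = n / 2 := by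
  have hr : ∀ n, ∑ k ∈ range (n + 1), w k * w (n - k) * (k:ℝ) =
      n / 2 * ∑ k ∈ range (n + 1), w k * w (n - k) := by
    intro n
    have h1 := reflect n fun k => (k:ℝ)
    have h2 : ∑ k ∈ range (n + 1), w k * w (n - k) * ((n - k : ℕ) : ℝ) =
        n * ∑ k ∈ range (n + 1), w k * w (n - k) -
          ∑ k ∈ range (n + 1), w k * w (n - k) * (k:ℝ) := by
      rw [mul_sum, ← sum_sub_distrib]
      refine sum_congr rfl fun k hk => ?_
      rw [mem_range] at hk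
      rw [Nat.cast_sub (by omega)]
      ring
    rw [h2] at h1
    linarith
  have h0 : ∀ n, ∑ k ∈ range (n + 1), w k * w (n - k) = 1 := by
    intro n
    induction n with
    | zero => simp [w]
    | succ n ih =>
      have h1 := hr (n + 1)
      have h2 := shift n fun _ => 1
      have h3 := hr n
      simp only [mul_one] at h2
      rw [h2] at h1
      have h4 : ∑ k ∈ range (n + 1), w k * w (n - k) * ((k:ℝ) + 1 / 2) =
          ∑ k ∈ range (n + 1), w k * w (n - k) * (k:ℝ) +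
            1 / 2 * ∑ k ∈ range (n + 1), w k * w (n - k) := by
        rw [mul_sum, ← sum_add_distrib]
        exact sum_congr rfl fun k _ => by ring
      rw [h4, h3, ih] at h1
      push_cast at h1
      have h5 : ((n:ℝ) + 1) / 2 * (∑ k ∈ range (n + 1 + 1), w k * w (n + 1 - k) - 1) = 0 := by
        linarith
      rcases mul_eq_zero.1 h5 with h6 | h6
      · have : (0:ℝ) < ((n:ℝ) + 1) / 2 := by positivity
        linarith
      · linarith
  exact ⟨h0 n, by rw [hr, h0, mul_one]⟩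

theorem sum_one' (n : ℕ) : ∑ k ∈ range (n + 1), w k * w (n - k) * ((n - k : ℕ) : ℝ) = n / 2 := by
  rw [reflect n fun k => (k:ℝ)]
  exact (sum_zero n).2

theorem sum_two (n : ℕ) :
    ∑ k ∈ range (n + 1), w k * w (n - k) * (k:ℝ) ^ 2 = (3 * (n:ℝ) ^ 2 + n) / 8 := by
  induction n with
  | zero => simp
  | succ n ih =>
    have h2 := shift n fun k => (k:ℝ)
    have h3 : ∑ k ∈ range (n + 1 + 1), w k * w (n + 1 - k) * (k:ℝ) ^ 2 =
        ∑ k ∈ range (n + 2), w k * w (n + 1 - k) * ((k:ℝ) * (k:ℝ)) :=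
      sum_congr rfl fun k _ => by ring
    rw [h3, h2]
    have h4 : ∑ k ∈ range (n + 1), w k * w (n - k) * (((k:ℝ) + 1 / 2) * ((k + 1 : ℕ):ℝ)) =
        ∑ k ∈ range (n + 1), w k * w (n - k) * (k:ℝ) ^ 2 +
          3 / 2 * ∑ k ∈ range (n + 1), w k * w (n - k) * (k:ℝ) +
            1 / 2 * ∑ k ∈ range (n + 1), w k * w (n - k) := by
      rw [mul_sum, mul_sum, ← sum_add_distrib, ← sum_add_distrib]
      exact sum_congr rfl fun k _ => by push_cast; ring
    rw [h4, ih, (sum_zero n).1, (sum_zero n).2]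
    push_cast; ring

/-! ### The lines -/

theorem line (j : ℕ) (x : ℝ) : ∑ a ∈ range j, w a * (x - (2 * (a:ℝ) + 1 / 2)) =
    2 * j * w j * (x - (4 * (j:ℝ) - 1) / 6) := by
  induction j with
  | zero => simp
  | succ j ih =>
    rw [sum_range_succ, ih]
    have h := w_succ j
    push_cast
    linear_combination (-(x - (4 * ((j:ℝ) + 1) - 1) / 6)) * h

/-- the parabola -/
noncomputable def Q (i : ℕ) (s : ℝ) : ℝ :=
  w i * ((2 * (i:ℝ) + 1) * (4 * i + 3) / 3 - (2 * i + 1) * s + s ^ 2 / 4)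

theorem Q_sum (M : ℕ) (s : ℝ) : ∑ b ∈ range (M + 1), w b * Q (M - b) s =
    (2 * ((M:ℝ) + 1) - s) ^ 2 / 4 := by
  have h1 : ∀ b, w b * Q (M - b) s = w b * w (M - b) *
      ((fun i : ℕ => ((2 * (i:ℝ) + 1) * (4 * i + 3) / 3 - (2 * i + 1) * s + s ^ 2 / 4)) (M - b)) := by
    intro b
    unfold Q; ring
  simp only [h1]
  rw [reflect M (fun i : ℕ => ((2 * (i:ℝ) + 1) * (4 * i + 3) / 3 - (2 * i + 1) * s + s ^ 2 / 4))]
  have h2 : ∑ k ∈ range (M + 1), w k * w (M - k) *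
      ((2 * (k:ℝ) + 1) * (4 * k + 3) / 3 - (2 * k + 1) * s + s ^ 2 / 4) =
      8 / 3 * ∑ k ∈ range (M + 1), w k * w (M - k) * (k:ℝ) ^ 2 +
      (10 / 3 - 2 * s) * ∑ k ∈ range (M + 1), w k * w (M - k) * (k:ℝ) +
      (1 - s + s ^ 2 / 4) * ∑ k ∈ range (M + 1), w k * w (M - k) := by
    rw [mul_sum, mul_sum, mul_sum, ← sum_add_distrib, ← sum_add_distrib]
    exact sum_congr rfl fun k _ => by ring
  rw [h2, sum_two, (sum_zero M).1, (sum_zero M).2]
  ring

theorem Q_nonneg (i : ℕ) {s : ℝ} (hs2 : s ≤ 2) : 0 ≤ Q i s := by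
  have h3 : Q i s = w i * ((1 - s / 2) ^ 2 + 2 * i * ((4 * (i:ℝ) - 1) / 3 + (2 - s))) := by
    rw [Q]; ring
  rw [h3]
  refine mul_nonneg (w_pos i).le (add_nonneg (sq_nonneg _) ?_)
  rcases Nat.eq_zero_or_pos i with h | h
  · rw [h]; simp
  · have h1 : (1:ℝ) ≤ i := by exact_mod_cast h
    exact mul_nonneg (by positivity) (by linarith)

theorem low {i j : ℕ} (hj : j ≤ i) {s l : ℝ} (hs2 : s ≤ 2) (hl : 0 < l) (hl1 : l ≤ 1) :
    2 * j * w j * (l * (2 * i + 3 / 2 - s) - l ^ 3 * ((4 * (j:ℝ) - 1) / 6)) ≤ Q i s := by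
  rcases Nat.eq_zero_or_pos j with hj00 | hj00
  · subst hj00
    simpa using Q_nonneg i hs2
  have hj11 : (1:ℝ) ≤ j := by exact_mod_cast hj00
  set z : ℝ := 2 * i + 3 / 2 - s with hz
  have hji : (j:ℝ) ≤ i := by exact_mod_cast hj
  have hz1 : 2 * (i:ℝ) - 1 / 2 ≤ z := by rw [hz]; linarith
  have hw := w_pos j
  have hj0 : (0:ℝ) ≤ j := Nat.cast_nonneg j
  -- first step: `l = 1`
  have h1 : 2 * j * w j * (l * z - l ^ 3 * ((4 * (j:ℝ) - 1) / 6)) ≤
      2 * j * w j * (z - (4 * (j:ℝ) - 1) / 6) := by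
    refine mul_le_mul_of_nonneg_left ?_ (by positivity)
    have h2 : z - (4 * (j:ℝ) - 1) / 6 - (l * z - l ^ 3 * ((4 * (j:ℝ) - 1) / 6)) =
        (1 - l) * (z - (4 * (j:ℝ) - 1) / 6 * (1 + l + l ^ 2)) := by ring
    have h3 : (4 * (j:ℝ) - 1) / 6 * (1 + l + l ^ 2) ≤ z := by
      have h5 : l ^ 2 ≤ 1 := by nlinarith
      have h6 : (4 * (j:ℝ) - 1) / 6 * (1 + l + l ^ 2) ≤ (4 * (j:ℝ) - 1) / 6 * 3 :=
        mul_le_mul_of_nonneg_left (by linarith) (by linarith)
      linarith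
    nlinarith [mul_nonneg (sub_nonneg.2 hl1) (sub_nonneg.2 h3)]
  -- second step: `j = i`
  have h2 : 2 * j * w j * (z - (4 * (j:ℝ) - 1) / 6) ≤ 2 * i * w i * (z - (4 * (i:ℝ) - 1) / 6) := by
    rw [← line, ← line]
    refine sum_le_sum_of_subset_of_nonneg (range_mono hj) fun a ha ha' => ?_
    rw [mem_range] at ha
    have h3 : (a:ℝ) + 1 ≤ i := by exact_mod_cast ha
    exact mul_nonneg (w_pos a).le (by linarith)
  refine h1.trans (h2.trans ?_)
  have h3 : Q i s - 2 * i * w i * (z - (4 * (i:ℝ) - 1) / 6) = w i * (1 - s / 2) ^ 2 := by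
    rw [hz, Q]; ring
  nlinarith [mul_nonneg (w_pos i).le (sq_nonneg (1 - s / 2))]

theorem high {i j : ℕ} (hj : i + 1 ≤ j) {s l : ℝ} (hs0 : 0 ≤ s) (hs2 : s ≤ 2) (hl : 0 < l) :
    2 * j * w j * (l * (2 * i + 3 / 2 - s) - l ^ 3 * ((4 * (j:ℝ) - 1) / 6)) ≤ Q i s := by
  set z : ℝ := 2 * i + 3 / 2 - s with hz
  have hj1 : (i:ℝ) + 1 ≤ j := by exact_mod_cast hj
  have hi0 : (0:ℝ) ≤ i := Nat.cast_nonneg i
  have hN : 0 < 2 * (j:ℝ) - 1 / 2 := by linarith
  have hwj := w_pos j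
  have hl3 : 0 < l ^ 3 := by positivity
  rcases le_or_gt z 0 with hz0 | hz0
  · refine le_trans ?_ (Q_nonneg i hs2)
    refine mul_nonpos_of_nonneg_of_nonpos (by positivity) ?_
    have h1 : l * z ≤ 0 := mul_nonpos_of_nonneg_of_nonpos hl.le hz0
    have h2 : 0 ≤ l ^ 3 * ((4 * (j:ℝ) - 1) / 6) := mul_nonneg hl3.le (by linarith)
    linarith
  · -- optimize in `l`
    have h1 : ∀ k : ℕ, 1 ≤ k → l * z - l ^ 3 * ((4 * (k:ℝ) - 1) / 6) ≤
        2 / 3 * (z * √(z / (2 * (k:ℝ) - 1 / 2))) := by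
      intro k hk
      have hk1 : (1:ℝ) ≤ k := by exact_mod_cast hk
      have hNk : 0 < 2 * (k:ℝ) - 1 / 2 := by linarith
      set r := √(z / (2 * (k:ℝ) - 1 / 2)) with hr
      have hr0 : 0 ≤ r := Real.sqrt_nonneg _
      have hr2 : z = r ^ 2 * (2 * (k:ℝ) - 1 / 2) := by
        rw [hr, Real.sq_sqrt (by positivity), div_mul_cancel₀ _ hNk.ne']
      have h2 : 2 / 3 * (z * r) - (l * z - l ^ 3 * ((4 * (k:ℝ) - 1) / 6)) =
          (2 * (k:ℝ) - 1 / 2) / 3 * ((l - r) ^ 2 * (l + 2 * r)) := by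
        rw [hr2]; ring
      have h3 : 0 ≤ (2 * (k:ℝ) - 1 / 2) / 3 * ((l - r) ^ 2 * (l + 2 * r)) := by positivity
      linarith
    -- the factor decreases
    have h2 : ∀ k : ℕ, i + 1 ≤ k → 2 * k * w k * √(z / (2 * (k:ℝ) - 1 / 2)) ≤
        (2 * (i:ℝ) + 1) * w i * √(z / (2 * (i:ℝ) + 3 / 2)) := by
      intro k hk
      induction k, hk using Nat.le_induction with
      | base =>
        have h := w_succ i
        have e : 2 * ((i + 1 : ℕ) : ℝ) - 1 / 2 = 2 * (i:ℝ) + 3 / 2 := by push_cast; ring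
        rw [e]
        refine le_of_eq ?_
        push_cast
        linear_combination √(z / (2 * (i:ℝ) + 3 / 2)) * h
      | succ k hk ih =>
        refine le_trans ?_ ih
        have hk1 : (1:ℝ) ≤ k := by
          have : 1 ≤ k := by omega
          exact_mod_cast this
        have hNk : 0 < 2 * (k:ℝ) - 1 / 2 := by linarith
        have h := w_succ k
        have e : 2 * ((k + 1 : ℕ) : ℝ) - 1 / 2 = 2 * (k:ℝ) + 3 / 2 := by push_cast; ring
        rw [e]
        have h3 : 2 * ((k + 1 : ℕ) : ℝ) * w (k + 1) = (2 * (k:ℝ) + 1) * w k := by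
          push_cast; linarith
        rw [h3]
        have h4 : (2 * (k:ℝ) + 1) * √(z / (2 * (k:ℝ) + 3 / 2)) ≤
            2 * k * √(z / (2 * (k:ℝ) - 1 / 2)) := by
          refine (pow_le_pow_iff_left₀ (by positivity) (by positivity) two_ne_zero).1 ?_
          rw [mul_pow, mul_pow, Real.sq_sqrt (by positivity), Real.sq_sqrt (by positivity),
            ← mul_div_assoc, ← mul_div_assoc, div_le_div_iff₀ (by positivity) hNk]
          nlinarith [mul_pos hz0 (by positivity : (0:ℝ) < k)]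
        have h5 := mul_le_mul_of_nonneg_left h4 (w_pos k).le
        nlinarith
    have h3 := mul_le_mul_of_nonneg_left (h1 j (by omega))
      (by positivity : (0:ℝ) ≤ 2 * j * w j)
    have h4 : 2 * j * w j * (2 / 3 * (z * √(z / (2 * (j:ℝ) - 1 / 2)))) =
        2 / 3 * z * (2 * j * w j * √(z / (2 * (j:ℝ) - 1 / 2))) := by ring
    rw [h4] at h3
    refine h3.trans ?_
    refine (mul_le_mul_of_nonneg_left (h2 j hj) (by positivity)).trans ?_
    -- the last step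
    set N : ℝ := 2 * (i:ℝ) + 3 / 2 with hNd
    have hN0 : 0 < N := by positivity
    have hzN : z = N - s := by rw [hz]
    have h4N : 0 < 4 * N - s := by linarith
    have h3N : 0 ≤ 4 * N - 3 * s := by linarith
    have h5 : √(z / N) ≤ (4 * N - 3 * s) / (4 * N - s) := by
      rw [Real.sqrt_le_left (by positivity), div_pow, div_le_div_iff₀ hN0 (by positivity), hzN]
      nlinarith [pow_nonneg hs0 3]
    have hwi := w_pos i
    have h6 : 2 / 3 * z * ((2 * (i:ℝ) + 1) * w i * √(z / N)) ≤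
        2 / 3 * z * ((2 * (i:ℝ) + 1) * w i * ((4 * N - 3 * s) / (4 * N - s))) :=
      mul_le_mul_of_nonneg_left (mul_le_mul_of_nonneg_left h5 (by positivity)) (by positivity)
    refine h6.trans ?_
    have h7 : (Q i s - 2 / 3 * z * ((2 * (i:ℝ) + 1) * w i * ((4 * N - 3 * s) / (4 * N - s)))) *
        (4 * N - s) = w i * (s ^ 2 / 4 * (2 - s)) := by
      have e : 2 * (i:ℝ) + 1 = N - 1 / 2 := by rw [hNd]; ring
      have e2 : 4 * (i:ℝ) + 3 = 2 * N := by rw [hNd]; ring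
      have e3 : (4 * N - 3 * s) / (4 * N - s) * (4 * N - s) = 4 * N - 3 * s :=
        div_mul_cancel₀ _ h4N.ne'
      rw [Q, e, e2, hzN]
      linear_combination (-(2 / 3 * (N - s) * ((N - 1 / 2) * w i))) * e3
    have h8 : 0 ≤ w i * (s ^ 2 / 4 * (2 - s)) := by
      have : 0 ≤ 2 - s := by linarith
      positivity
    rw [← h7] at h8
    have h9 := nonneg_of_mul_nonneg_left h8 h4N
    linarith

/-- **The key inequality.** -/
theorem key (i j : ℕ) {s l : ℝ} (hs0 : 0 ≤ s) (hs2 : s ≤ 2) (hl : 0 < l) (hl1 : l ≤ 1) :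
    2 * j * w j * (l * (2 * i + 3 / 2 - s) - l ^ 3 * ((4 * (j:ℝ) - 1) / 6)) ≤ Q i s := by
  rcases Nat.lt_or_ge i j with h | h
  · exact high h hs0 hs2 hl
  · exact low h hs2 hl hl1

/-! ### The Riesz mean -/

theorem pos_part (A : ℕ) {X l : ℝ} (hl : 0 < l) : ∃ j : ℕ,
    ∑ a ∈ range A, w a * max (X - l * (2 * (a:ℝ) + 1 / 2)) 0 =
      ∑ a ∈ range j, w a * (X - l * (2 * (a:ℝ) + 1 / 2)) := by
  induction A with
  | zero => exact ⟨0, by simp⟩
  | succ A ih =>
    rcases le_or_gt (X - l * (2 * (A:ℝ) + 1 / 2)) 0 with h | h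
    · obtain ⟨j, hj⟩ := ih
      refine ⟨j, ?_⟩
      rw [sum_range_succ, max_eq_right h, mul_zero, add_zero, hj]
    · refine ⟨A + 1, sum_congr rfl fun a ha => ?_⟩
      rw [mem_range] at ha
      have h1 : (a:ℝ) ≤ A := by exact_mod_cast (by omega : a ≤ A)
      have h2 : l * (2 * (a:ℝ) + 1 / 2) ≤ l * (2 * (A:ℝ) + 1 / 2) :=
        mul_le_mul_of_nonneg_left (by linarith) hl.le
      rw [max_eq_left (by linarith)]

theorem riesz_le {l : ℝ} (hl : 0 < l) (hl1 : l ≤ 1) (A B : ℕ) {μ : ℝ} (hμ : 0 ≤ μ) :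
    ∑ b ∈ range B, w b * ∑ a ∈ range A, w a *
      max (μ - l * (2 * (a:ℝ) + 1 / 2) - l⁻¹ * (2 * (b:ℝ) + 1 / 2)) 0 ≤ μ ^ 2 / 4 := by
  set K : ℕ := ⌈l * μ / 2⌉₊ with hK
  set s : ℝ := 2 * K - l * μ with hs
  have hs0 : 0 ≤ s := by
    have := Nat.le_ceil (l * μ / 2)
    rw [hs]; linarith
  have hs2 : s ≤ 2 := by
    have := (Nat.ceil_lt_add_one (by positivity : 0 ≤ l * μ / 2)).le
    rw [hs]; linarith
  -- the bounds of the inner sums
  set g : ℕ → ℝ := fun b => if b < K then Q (K - 1 - b) s else 0 with hg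
  have hg0 : ∀ b, 0 ≤ g b := by
    intro b
    rw [hg]; dsimp only
    split_ifs
    · exact Q_nonneg _ hs2
    · exact le_rfl
  have h1 : ∀ b : ℕ, l ^ 2 * ∑ a ∈ range A, w a *
      max (μ - l * (2 * (a:ℝ) + 1 / 2) - l⁻¹ * (2 * (b:ℝ) + 1 / 2)) 0 ≤ g b := by
    intro b
    set X : ℝ := μ - l⁻¹ * (2 * (b:ℝ) + 1 / 2) with hX
    have hlX : l * X = l * μ - (2 * (b:ℝ) + 1 / 2) := by
      rw [hX, mul_sub, ← mul_assoc, mul_inv_cancel₀ hl.ne', one_mul]
    have e1 : ∀ a : ℕ, μ - l * (2 * (a:ℝ) + 1 / 2) - l⁻¹ * (2 * (b:ℝ) + 1 / 2) =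
        X - l * (2 * (a:ℝ) + 1 / 2) := by
      intro a; rw [hX]; ring
    simp only [e1]
    obtain ⟨j, hj⟩ := pos_part A (X := X) hl
    rw [hj]
    have e2 : l ^ 2 * ∑ a ∈ range j, w a * (X - l * (2 * (a:ℝ) + 1 / 2)) =
        2 * j * w j * (l * (l * X) - l ^ 3 * ((4 * (j:ℝ) - 1) / 6)) := by
      have e3 : ∑ a ∈ range j, w a * (X - l * (2 * (a:ℝ) + 1 / 2)) =
          l * ∑ a ∈ range j, w a * (X / l - (2 * (a:ℝ) + 1 / 2)) := by
        rw [mul_sum]
        refine sum_congr rfl fun a _ => ?_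
        field_simp
      rw [e3, line]
      field_simp
    rw [e2, hlX, hg]
    dsimp only
    split_ifs with hb
    · have e4 : l * μ - (2 * (b:ℝ) + 1 / 2) = 2 * ((K - 1 - b : ℕ) : ℝ) + 3 / 2 - s := by
        have : ((K - 1 - b : ℕ) : ℝ) = (K:ℝ) - 1 - b := by
          rw [Nat.cast_sub (by omega), Nat.cast_sub (by omega)]; norm_num
        rw [this, hs]; ring
      rw [e4]
      exact key _ j hs0 hs2 hl hl1
    · have hb' : (K:ℝ) ≤ b := by exact_mod_cast (by omega : K ≤ b)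
      rcases Nat.eq_zero_or_pos j with hj0 | hj0
      · rw [hj0]; simp
      · have hj1 : (1:ℝ) ≤ j := by exact_mod_cast hj0
        refine mul_nonpos_of_nonneg_of_nonpos (mul_nonneg (by positivity) (w_pos j).le) ?_
        have h2 : l * (l * μ - (2 * (b:ℝ) + 1 / 2)) ≤ 0 :=
          mul_nonpos_of_nonneg_of_nonpos hl.le (by rw [hs] at hs0; linarith)
        have h3 : 0 ≤ l ^ 3 * ((4 * (j:ℝ) - 1) / 6) := mul_nonneg (by positivity) (by linarith)
        linarith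
  have h2 : ∑ b ∈ range B, w b * g b ≤ (l * μ) ^ 2 / 4 := by
    have h3 : ∑ b ∈ range B, w b * g b ≤ ∑ b ∈ range (max B K), w b * g b :=
      sum_le_sum_of_subset_of_nonneg (range_mono (le_max_left _ _)) fun b _ _ =>
        mul_nonneg (w_pos b).le (hg0 b)
    have h4 : ∑ b ∈ range (max B K), w b * g b = ∑ b ∈ range K, w b * g b := by
      refine (sum_subset (range_mono (le_max_right _ _)) fun b _ hb => ?_).symm
      rw [mem_range] at hb
      rw [hg]; dsimp only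
      rw [if_neg hb, mul_zero]
    refine h3.trans (h4.le.trans ?_)
    rcases Nat.eq_zero_or_pos K with hK0 | hK0
    · rw [hK0]; simp; positivity
    · obtain ⟨M, hM⟩ : ∃ M, K = M + 1 := ⟨K - 1, by omega⟩
      rw [hM]
      have h5 : ∀ b ∈ range (M + 1), w b * g b = w b * Q (M - b) s := by
        intro b hb
        rw [mem_range] at hb
        rw [hg]; dsimp only
        rw [if_pos (by omega), hM, Nat.add_sub_cancel]
      rw [sum_congr rfl h5, Q_sum]
      have h6 : 2 * ((M:ℝ) + 1) - s = l * μ := by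
        rw [hs, hM]; push_cast; ring
      rw [h6]
  have h3 : l ^ 2 * ∑ b ∈ range B, w b * ∑ a ∈ range A, w a *
      max (μ - l * (2 * (a:ℝ) + 1 / 2) - l⁻¹ * (2 * (b:ℝ) + 1 / 2)) 0 ≤
      ∑ b ∈ range B, w b * g b := by
    rw [mul_sum]
    refine sum_le_sum fun b _ => ?_
    rw [mul_left_comm]
    exact mul_le_mul_of_nonneg_left (h1 b) (w_pos b).le
  have h4 : l ^ 2 * ∑ b ∈ range B, w b * ∑ a ∈ range A, w a *
      max (μ - l * (2 * (a:ℝ) + 1 / 2) - l⁻¹ * (2 * (b:ℝ) + 1 / 2)) 0 ≤ l ^ 2 * (μ ^ 2 / 4) := by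
    refine (h3.trans h2).trans (le_of_eq ?_)
    ring
  exact le_of_mul_le_mul_left h4 (by positivity)

/-- **The Riesz mean**, for all ratios. -/
theorem riesz {l : ℝ} (hl : 0 < l) (A B : ℕ) {μ : ℝ} (hμ : 0 ≤ μ) :
    ∑ a ∈ range A, ∑ b ∈ range B, w a * w b *
      max (μ - (l * (2 * (a:ℝ) + 1 / 2) + l⁻¹ * (2 * (b:ℝ) + 1 / 2))) 0 ≤ μ ^ 2 / 4 := by
  rcases le_or_gt l 1 with h | h
  · refine le_trans (le_of_eq ?_) (riesz_le hl h A B hμ)
    rw [sum_comm]
    refine sum_congr rfl fun b _ => ?_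
    rw [mul_sum]
    refine sum_congr rfl fun a _ => ?_
    rw [sub_sub]; ring
  · have h1 : l⁻¹ ≤ 1 := inv_le_one_of_one_le₀ h.le
    have h2 : 0 < l⁻¹ := inv_pos.2 hl
    refine le_trans (le_of_eq ?_) (riesz_le h2 h1 B A hμ)
    refine sum_congr rfl fun a _ => ?_
    rw [mul_sum]
    refine sum_congr rfl fun b _ => ?_
    rw [inv_inv, sub_sub, add_comm (l * _) (l⁻¹ * _)]
    ring

end Pool.Agent.H45.LT.Gn
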