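import Mathlib
import Pool.Agent.H45.LT.Gn1

set_option autoImplicit false

/-!
# The quadratic inequality for numbers and for operators
-/

open Finset
open scoped ComplexConjugate

namespace Pool.Agent.H45.LT.Gn

/-- the inequality for numbers -/
theorem scal {N : ℕ} (a b : Fin N → ℕ) (q : Fin N → ℝ) (hq : ∀ n, 0 ≤ q n)
    (hg : ∀ A B : ℕ, ∑ n, (if a n = A ∧ b n = B then q n else 0) ≤ 1) {l : ℝ} (hl : 0 < l) :
    (∑ n, w (a n) * w (b n) * q n) ^ 2 ≤ ∑ n, w (a n) * w (b n) * q n *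
      (l * (2 * (a n : ℝ) + 1 / 2) + l⁻¹ * (2 * (b n : ℝ) + 1 / 2)) := by
  set Φ := ∑ n, w (a n) * w (b n) * q n with hΦ
  have hwq : ∀ n, 0 ≤ w (a n) * w (b n) * q n := fun n =>
    mul_nonneg (mul_nonneg (w_pos _).le (w_pos _).le) (hq n)
  have hΦ0 : 0 ≤ Φ := sum_nonneg fun n _ => hwq n
  set ε : ℕ → ℕ → ℝ := fun A B => l * (2 * (A : ℝ) + 1 / 2) + l⁻¹ * (2 * (B : ℝ) + 1 / 2)
    with hε
  have h1 : ∑ n, w (a n) * w (b n) * q n * (2 * Φ - ε (a n) (b n)) ≤ (2 * Φ) ^ 2 / 4 := by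
    set A0 := univ.sup a + 1 with hA0
    set B0 := univ.sup b + 1 with hB0
    have h2 : ∀ n, w (a n) * w (b n) * q n * (2 * Φ - ε (a n) (b n)) ≤
        ∑ A ∈ range A0, ∑ B ∈ range B0, w A * w B * max (2 * Φ - ε A B) 0 *
          (if a n = A ∧ b n = B then q n else 0) := by
      intro n
      have ha : a n ∈ range A0 := mem_range.2 (Nat.lt_succ_of_le (le_sup (mem_univ n)))
      have hb : b n ∈ range B0 := mem_range.2 (Nat.lt_succ_of_le (le_sup (mem_univ n)))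
      rw [sum_eq_single_of_mem (a n) ha, sum_eq_single_of_mem (b n) hb, if_pos ⟨rfl, rfl⟩]
      · have h3 := mul_le_mul_of_nonneg_left (le_max_left (2 * Φ - ε (a n) (b n)) 0) (hwq n)
        refine h3.trans (le_of_eq ?_)
        ring
      · intro B _ hB
        rw [if_neg (fun h => hB h.2.symm), mul_zero]
      · intro A _ hA
        refine sum_eq_zero fun B _ => ?_
        rw [if_neg (fun h => hA h.1.symm), mul_zero]
    calc ∑ n, w (a n) * w (b n) * q n * (2 * Φ - ε (a n) (b n))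
        ≤ ∑ n, ∑ A ∈ range A0, ∑ B ∈ range B0, w A * w B * max (2 * Φ - ε A B) 0 *
          (if a n = A ∧ b n = B then q n else 0) := sum_le_sum fun n _ => h2 n
      _ = ∑ A ∈ range A0, ∑ B ∈ range B0, w A * w B * max (2 * Φ - ε A B) 0 *
          ∑ n, (if a n = A ∧ b n = B then q n else 0) := by
          rw [sum_comm]
          refine sum_congr rfl fun A _ => ?_
          rw [sum_comm]
          refine sum_congr rfl fun B _ => ?_
          exact (mul_sum _ _ _).symm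
      _ ≤ ∑ A ∈ range A0, ∑ B ∈ range B0, w A * w B * max (2 * Φ - ε A B) 0 := by
          refine sum_le_sum fun A _ => sum_le_sum fun B _ => ?_
          exact mul_le_of_le_one_right (mul_nonneg (mul_nonneg (w_pos A).le (w_pos B).le)
            (le_max_right _ _)) (hg A B)
      _ ≤ (2 * Φ) ^ 2 / 4 := riesz hl A0 B0 (by positivity)
  have h3 : ∑ n, w (a n) * w (b n) * q n * (2 * Φ - ε (a n) (b n)) =
      2 * Φ * Φ - ∑ n, w (a n) * w (b n) * q n * ε (a n) (b n) := by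
    have h4 : 2 * Φ * Φ = ∑ n, w (a n) * w (b n) * q n * (2 * Φ) := by
      rw [← sum_mul, ← hΦ]; ring
    rw [h4, ← sum_sub_distrib]
    exact sum_congr rfl fun n _ => by ring
  rw [h3] at h1
  have h5 : Φ ^ 2 = 2 * Φ * Φ - (2 * Φ) ^ 2 / 4 := by ring
  linarith

variable {E : Type*} [NormedAddCommGroup E] [InnerProductSpace ℂ E]

/-- the operator `∑ C_n |f_n⟩⟨f_n|` -/
noncomputable def TT {N : ℕ} (f : Fin N → E) (C : Fin N → ℝ) : E →ₗ[ℂ] E :=
  ∑ n, (C n : ℂ) • ((innerSL ℂ (f n)).toLinearMap.smulRight (f n))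

theorem TT_apply {N : ℕ} (f : Fin N → E) (C : Fin N → ℝ) (v : E) :
    TT f C v = ∑ n, (C n : ℂ) • ((inner ℂ (f n) v : ℂ) • f n) := by
  unfold TT
  rw [LinearMap.sum_apply]
  rfl

theorem TT_symm {N : ℕ} (f : Fin N → E) (C : Fin N → ℝ) : (TT f C).IsSymmetric := by
  intro x y
  rw [TT_apply, TT_apply, sum_inner, inner_sum]
  refine sum_congr rfl fun n _ => ?_
  rw [inner_smul_left, inner_smul_left, inner_smul_right, inner_smul_right, Complex.conj_ofReal,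
    inner_conj_symm]
  ring

theorem norm_conj_mul (z : ℂ) : conj z * z = ((‖z‖ ^ 2 : ℝ) : ℂ) := by
  rw [Complex.conj_mul']; push_cast; rfl

theorem inner_flip (x y : E) : (inner ℂ x y : ℂ) * inner ℂ y x = ((‖(inner ℂ y x : ℂ)‖ ^ 2 : ℝ) : ℂ) := by
  rw [← inner_conj_symm x y, norm_conj_mul]

/-- the sum of the squares of the eigenvalues -/
theorem spec [FiniteDimensional ℂ E] {N : ℕ} (f : Fin N → E) (C : Fin N → ℝ) :
    ∃ (d : ℕ) (b : OrthonormalBasis (Fin d) ℂ E),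
      ∑ n, ∑ n', C n * C n' * ‖(inner ℂ (f n) (f n') : ℂ)‖ ^ 2 =
        ∑ i, (∑ n, C n * ‖(inner ℂ (b i) (f n) : ℂ)‖ ^ 2) ^ 2 := by
  have hT := TT_symm f C
  set b := hT.eigenvectorBasis rfl with hb
  set μ := hT.eigenvalues rfl with hμ
  have hTb : ∀ i, TT f C (b i) = (μ i : ℂ) • b i := fun i => hT.apply_eigenvectorBasis rfl i
  have h1 : ∀ i, μ i = ∑ n, C n * ‖(inner ℂ (b i) (f n) : ℂ)‖ ^ 2 := by
    intro i
    have e1 : (inner ℂ (b i) (TT f C (b i)) : ℂ) = (μ i : ℂ) := by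
      rw [hTb, inner_smul_right, inner_self_eq_norm_sq_to_K, b.norm_eq_one]
      simp
    rw [TT_apply, inner_sum] at e1
    have e2 : ∑ n, (inner ℂ (b i) ((C n : ℂ) • ((inner ℂ (f n) (b i) : ℂ) • f n)) : ℂ) =
        ((∑ n, C n * ‖(inner ℂ (b i) (f n) : ℂ)‖ ^ 2 : ℝ) : ℂ) := by
      rw [Complex.ofReal_sum]
      refine sum_congr rfl fun n _ => ?_
      rw [inner_smul_right, inner_smul_right, inner_flip]
      push_cast; rfl
    rw [e2] at e1
    exact_mod_cast e1.symm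
  have h2 : ∀ n, ∑ n', C n' * ‖(inner ℂ (f n) (f n') : ℂ)‖ ^ 2 =
      ∑ i, μ i * ‖(inner ℂ (b i) (f n) : ℂ)‖ ^ 2 := by
    intro n
    have e1 : (inner ℂ (f n) (TT f C (f n)) : ℂ) =
        ((∑ n', C n' * ‖(inner ℂ (f n) (f n') : ℂ)‖ ^ 2 : ℝ) : ℂ) := by
      rw [TT_apply, inner_sum, Complex.ofReal_sum]
      refine sum_congr rfl fun n' _ => ?_
      rw [inner_smul_right, inner_smul_right, inner_flip]
      push_cast; rfl
    have e2 : (inner ℂ (f n) (TT f C (f n)) : ℂ) =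
        ((∑ i, μ i * ‖(inner ℂ (b i) (f n) : ℂ)‖ ^ 2 : ℝ) : ℂ) := by
      rw [← b.sum_inner_mul_inner, Complex.ofReal_sum]
      refine sum_congr rfl fun i _ => ?_
      rw [← hT (b i) (f n), hTb, inner_smul_left, Complex.conj_ofReal]
      have e3 := inner_flip (f n) (b i)
      push_cast at e3 ⊢
      linear_combination (μ i : ℂ) * e3
    rw [e1] at e2
    exact_mod_cast e2
  refine ⟨_, b, ?_⟩
  have h3 : ∀ n, ∑ n', C n * C n' * ‖(inner ℂ (f n) (f n') : ℂ)‖ ^ 2 =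
      ∑ i, C n * (μ i * ‖(inner ℂ (b i) (f n) : ℂ)‖ ^ 2) := by
    intro n
    rw [← mul_sum, ← h2, mul_sum]
    exact sum_congr rfl fun n' _ => by ring
  simp only [h3]
  rw [sum_comm]
  refine sum_congr rfl fun i _ => ?_
  rw [← h1, sq]
  nth_rw 3 [h1]
  rw [mul_sum]
  exact sum_congr rfl fun n _ => by ring

/-- the coefficients -/
noncomputable def CC {N : ℕ} (a b : Fin N → ℕ) (ν : Fin N → ℝ) (k j : ℕ) (n : Fin N) : ℝ :=
  if k ≤ a n ∧ j ≤ b n then ν n * (w (a n - k) * w (b n - j)) else 0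

theorem oper_fin [FiniteDimensional ℂ E] {N : ℕ} (f : Fin N → E) (a b : Fin N → ℕ)
    (ν : Fin N → ℝ) (hν : ∀ n, 0 ≤ ν n ∧ ν n ≤ 1)
    (ho : ∀ n n', a n = a n' → b n = b n' →
      (inner ℂ (f n) (f n') : ℂ) = if n = n' then (1:ℂ) else 0) (k j : ℕ) {l : ℝ} (hl : 0 < l) :
    ∑ n, ∑ n', CC a b ν k j n * CC a b ν k j n' * ‖(inner ℂ (f n) (f n') : ℂ)‖ ^ 2 ≤
      ∑ n, CC a b ν k j n * (l * (2 * ((a n - k : ℕ) : ℝ) + 1 / 2) +
        l⁻¹ * (2 * ((b n - j : ℕ) : ℝ) + 1 / 2)) := by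
  obtain ⟨d, e, h⟩ := spec f (CC a b ν k j)
  rw [h]
  set ε : Fin N → ℝ := fun n => l * (2 * ((a n - k : ℕ) : ℝ) + 1 / 2) +
        l⁻¹ * (2 * ((b n - j : ℕ) : ℝ) + 1 / 2) with hε
  have hn : ∀ n, ∑ i, ‖(inner ℂ (e i) (f n) : ℂ)‖ ^ 2 = 1 := by
    intro n
    rw [e.sum_sq_norm_inner_right]
    have h1 := ho n n rfl rfl
    rw [if_pos rfl, inner_self_eq_norm_sq_to_K] at h1
    have h2 : ((‖f n‖ ^ 2 : ℝ) : ℂ) = 1 := by rw [← h1]; push_cast; rfl
    exact_mod_cast h2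
  have key : ∀ i, (∑ n, CC a b ν k j n * ‖(inner ℂ (e i) (f n) : ℂ)‖ ^ 2) ^ 2 ≤
      ∑ n, CC a b ν k j n * ‖(inner ℂ (e i) (f n) : ℂ)‖ ^ 2 * ε n := by
    intro i
    set q : Fin N → ℝ := fun n => if k ≤ a n ∧ j ≤ b n then
      ν n * ‖(inner ℂ (e i) (f n) : ℂ)‖ ^ 2 else 0 with hq
    have hq0 : ∀ n, 0 ≤ q n := by
      intro n
      rw [hq]; dsimp only
      split_ifs
      · exact mul_nonneg (hν n).1 (sq_nonneg _)
      · exact le_rfl
    have e1 : ∀ n, CC a b ν k j n * ‖(inner ℂ (e i) (f n) : ℂ)‖ ^ 2 =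
        w (a n - k) * w (b n - j) * q n := by
      intro n
      rw [hq, CC]; dsimp only
      split_ifs <;> ring
    simp only [e1]
    refine scal (fun n => a n - k) (fun n => b n - j) q hq0 (fun A B => ?_) hl
    -- Bessel's inequality
    set p : Fin N → Prop := fun n => a n = A + k ∧ b n = B + j with hp
    have hv : Orthonormal ℂ (fun n : {n // p n} => f n.1) := by
      rw [orthonormal_iff_ite]
      rintro ⟨n, h1, h2⟩ ⟨n', h3, h4⟩
      rw [ho n n' (by omega) (by omega)]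
      simp only [Subtype.mk.injEq]
    have hbes := hv.sum_inner_products_le (x := e i) (s := univ)
    rw [e.norm_eq_one, one_pow] at hbes
    refine le_trans ?_ hbes
    have e2 : ∑ x : {n // p n}, ‖(inner ℂ (f x.1) (e i) : ℂ)‖ ^ 2 =
        ∑ n ∈ univ.filter p, ‖(inner ℂ (f n) (e i) : ℂ)‖ ^ 2 :=
      (sum_subtype (univ.filter p) (fun x => by simp) fun n =>
        ‖(inner ℂ (f n) (e i) : ℂ)‖ ^ 2).symm
    rw [e2, sum_filter]
    refine sum_le_sum fun n _ => ?_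
    rw [hq]; dsimp only
    by_cases h1 : a n - k = A ∧ b n - j = B
    · rw [if_pos h1]
      by_cases h2 : k ≤ a n ∧ j ≤ b n
      · rw [if_pos h2, if_pos (show p n from ⟨by omega, by omega⟩)]
        rw [← inner_conj_symm, RCLike.norm_conj]
        exact mul_le_of_le_one_left (sq_nonneg _) (hν n).2
      · rw [if_neg h2]
        split_ifs
        · positivity
        · exact le_rfl
    · rw [if_neg h1]
      split_ifs
      · positivity
      · exact le_rfl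
  refine (sum_le_sum fun i _ => key i).trans (le_of_eq ?_)
  rw [sum_comm]
  refine sum_congr rfl fun n _ => ?_
  have h1 : ∀ i, CC a b ν k j n * ‖(inner ℂ (e i) (f n) : ℂ)‖ ^ 2 * ε n =
      CC a b ν k j n * ε n * ‖(inner ℂ (e i) (f n) : ℂ)‖ ^ 2 := fun i => by ring
  simp only [h1]
  rw [← mul_sum, hn, mul_one]

theorem oper {N : ℕ} (f : Fin N → E) (a b : Fin N → ℕ)
    (ν : Fin N → ℝ) (hν : ∀ n, 0 ≤ ν n ∧ ν n ≤ 1)
    (ho : ∀ n n', a n = a n' → b n = b n' →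
      (inner ℂ (f n) (f n') : ℂ) = if n = n' then (1:ℂ) else 0) (k j : ℕ) {l : ℝ} (hl : 0 < l) :
    ∑ n, ∑ n', CC a b ν k j n * CC a b ν k j n' * ‖(inner ℂ (f n) (f n') : ℂ)‖ ^ 2 ≤
      ∑ n, CC a b ν k j n * (l * (2 * ((a n - k : ℕ) : ℝ) + 1 / 2) +
        l⁻¹ * (2 * ((b n - j : ℕ) : ℝ) + 1 / 2)) := by
  set S := Submodule.span ℂ (Set.range f) with hS
  have : FiniteDimensional ℂ S := FiniteDimensional.span_of_finite ℂ (Set.finite_range f)
  have hf : ∀ n, f n ∈ S := fun n => Submodule.subset_span ⟨n, rfl⟩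
  exact oper_fin (fun n => (⟨f n, hf n⟩ : S)) a b ν hν ho k j hl

end Pool.Agent.H45.LT.Gn
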