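import Mathlib
import Pool.Agent.H45.LT.Osc5

set_option autoImplicit false

/-!
# The cases of equality
-/

open MeasureTheory Set Real

namespace Pool.Agent.H45.LT.Osc

variable {N : ℕ} {k : Fin N → ℕ} {c : Fin N → ℕ → ℂ} {ν : Fin N → ℝ}

theorem cont_zero {f : (Fin 2 → ℝ) → ℝ} (hf : Continuous f) (hi : Integrable f)
    (h0 : ∀ x, 0 ≤ f x) (h : ∫ x, f x = 0) (x : Fin 2 → ℝ) : f x = 0 := by
  by_contra hx
  have := integral_pos_of_integrable_nonneg_nonzero hf hi h0 hx
  linarith

theorem st_norm_int (k : ℕ) (c : ℕ → ℂ) :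
    Integrable (fun x => ‖st k c x‖ ^ 2) ∧
    ∫ x, ‖st k c x‖ ^ 2 = ∑ a ∈ Finset.range (k + 1), ‖c a‖ ^ 2 := by
  have hi : ∀ a b : ℕ, Integrable fun x => Psi k a x * Psi k b x := fun a b => by
    simp only [Psi_mul]; exact G_int one_pos _ _
  have h := int_sq (s := Finset.range (k + 1)) c (fun a x => Psi k a x) (fun _ => 1)
    (fun a _ b _ => by simpa only [mul_one] using hi a b)
  simp only [mul_one] at h
  refine ⟨h.1, h.2.trans ?_⟩
  have h1 := diag (s := Finset.range (k + 1)) c fun _ => 1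
  simp only [one_mul] at h1
  rw [← h1]
  refine Finset.sum_congr rfl fun a ha => Finset.sum_congr rfl fun b hb => ?_
  congr 1
  simp only [Psi_mul]
  rw [G_eq, ortho, ortho]
  rw [Finset.mem_range] at ha hb
  by_cases e : a = b
  · rw [if_pos e, if_pos (by omega), mul_one]
  · rw [if_neg e, zero_mul]

theorem rho_int (l : ℕ) : Integrable (rho l) ∧ ∫ x, rho l x = (l:ℝ) + 1 := by
  have hi : ∀ a : ℕ, Integrable fun x => Psi l a x * Psi l a x := fun a => by
    simp only [Psi_mul]; exact G_int one_pos _ _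
  constructor
  · unfold rho
    exact integrable_finsetSum _ fun a _ => hi a
  · unfold rho
    rw [integral_finsetSum _ fun a _ => hi a]
    have h1 : ∀ a ∈ Finset.range (l + 1), ∫ x, Psi l a x * Psi l a x = 1 := by
      intro a _
      simp only [Psi_mul]
      rw [G_eq, ortho, ortho, if_pos rfl, if_pos rfl, mul_one]
    rw [Finset.sum_congr rfl h1]
    simp

theorem Sys.lev_int (H : Sys k c ν) (l : ℕ) : Integrable (lev k c ν l) ∧
    ∫ x, lev k c ν l x = ∑ m, (if k m = l then ν m else 0) := by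
  have hi : ∀ m, Integrable fun x => (if k m = l then ν m * ‖st (k m) (c m) x‖ ^ 2 else 0) := by
    intro m
    split_ifs
    · exact (st_norm_int (k m) (c m)).1.const_mul _
    · exact integrable_zero _ _ _
  constructor
  · unfold lev
    exact integrable_finsetSum _ fun m _ => hi m
  · unfold lev
    rw [integral_finsetSum _ fun m _ => hi m]
    refine Finset.sum_congr rfl fun m _ => ?_
    split_ifs
    · rw [integral_const_mul, (st_norm_int (k m) (c m)).2, H.norm m, mul_one]
    · exact integral_zero _ _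

/-- a level is filled if and only if its density is maximal -/
theorem Sys.filled_iff (H : Sys k c ν) (l : ℕ) :
    (∀ x, lev k c ν l x = rho l x) ↔ ∑ m, (if k m = l then ν m else 0) = (l:ℝ) + 1 := by
  have h1 := H.lev_int l
  have h2 := rho_int l
  constructor
  · intro h
    rw [← h1.2, ← h2.2]
    exact integral_congr_ae (ae_of_all _ h)
  · intro h x
    have h3 : ∫ x, (rho l x - lev k c ν l x) = 0 := by
      rw [integral_sub h2.1 h1.1, h1.2, h2.2, h, sub_self]
    have h4 := cont_zero ((rho_cont l).sub (lev_cont k c ν l)) (h2.1.sub h1.1)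
      (fun x => sub_nonneg.2 (H.lev_le l x)) h3 x
    have h5 : rho l x - lev k c ν l x = 0 := h4
    linarith

theorem st_analytic (k : ℕ) (c : ℕ → ℂ) : AnalyticOnNhd ℝ (st k c) univ := by
  have hh : ∀ n : ℕ, ∀ i : Fin 2, AnalyticOnNhd ℝ (fun x : Fin 2 → ℝ => h n (x i)) univ := by
    intro n i x _
    have e0 : AnalyticAt ℝ (fun x : Fin 2 → ℝ => x i) x :=
      (ContinuousLinearMap.proj (R := ℝ) (φ := fun _ : Fin 2 => ℝ) i).analyticAt x
    have e1 : AnalyticAt ℝ (fun x : Fin 2 → ℝ => Polynomial.aeval (x i) (P n)) x :=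
      e0.aeval_polynomial (P n)
    have e2 : AnalyticAt ℝ (fun x : Fin 2 → ℝ => Real.exp (-(x i) ^ 2 / 2)) x := by
      have e3 : AnalyticAt ℝ (fun x : Fin 2 → ℝ => -(x i) ^ 2 / 2) x :=
        (e0.pow 2).neg.div_const
      exact e3.rexp'
    have e4 := e1.mul e2
    have e5 : ((fun x : Fin 2 → ℝ => Polynomial.aeval (x i) (P n)) *
        fun x : Fin 2 → ℝ => Real.exp (-(x i) ^ 2 / 2)) = fun x : Fin 2 → ℝ => h n (x i) := by
      funext y
      simp only [Pi.mul_apply, Polynomial.coe_aeval_eq_eval, h]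
    rw [e5] at e4
    exact e4
  intro x hx
  have h1 : ∀ a ∈ Finset.range (k + 1), AnalyticAt ℝ (fun x => c a * (Psi k a x : ℂ)) x := by
    intro a _
    have e1 : AnalyticAt ℝ (Psi k a) x := (hh a 0 x hx).mul (hh (k - a) 1 x hx)
    have e2 : AnalyticAt ℝ (fun x => (Psi k a x : ℂ)) x :=
      (Complex.ofRealCLM.analyticAt _).comp e1
    exact analyticAt_const.mul e2
  exact Finset.analyticAt_fun_sum _ h1

theorem Sys.dense (H : Sys k c ν) (n : Fin N) {g : (Fin 2 → ℝ) → ℝ} (hg : Continuous g)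
    (h : ∀ x, ‖st (k n) (c n) x‖ ^ 2 * g x = 0) (x : Fin 2 → ℝ) : g x = 0 := by
  by_contra hx
  have h1 : ∀ᶠ y in nhds x, g y ≠ 0 := hg.continuousAt.eventually_ne hx
  have h2 : st (k n) (c n) =ᶠ[nhds x] 0 := by
    filter_upwards [h1] with y hy
    have h3 := h y
    rcases mul_eq_zero.1 h3 with h4 | h4
    · exact norm_eq_zero.1 (pow_eq_zero_iff (two_ne_zero)|>.1 h4)
    · exact absurd h4 hy
  have h3 := (st_analytic (k n) (c n)).eqOn_zero_of_preconnected_of_eventuallyEq_zero
    isPreconnected_univ (mem_univ x) h2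
  have h4 := (st_norm_int (k n) (c n)).2
  rw [H.norm n] at h4
  have h5 : ∫ x, ‖st (k n) (c n) x‖ ^ 2 = 0 := by
    have : ∀ x, ‖st (k n) (c n) x‖ ^ 2 = 0 := fun x => by
      rw [h3 (mem_univ x)]; simp
    simp only [this, integral_zero]
  linarith

theorem gap_cont (k : Fin N → ℕ) (c : Fin N → ℕ → ℂ) (ν : Fin N → ℝ) (K : ℕ) :
    Continuous (gap k c ν K) := by
  unfold gap
  exact (continuous_const.mul (continuous_finsetSum _ fun l _ =>
    (rho_cont l).sub (lev_cont k c ν l))).add ((rho_cont K).sub (lev_cont k c ν K))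

theorem Sys.gap_zero_iff (H : Sys k c ν) (K : ℕ) :
    (∀ x, gap k c ν K x = 0) ↔
      ∀ l ≤ K, ∑ m, (if k m = l then ν m else 0) = (l:ℝ) + 1 := by
  constructor
  · intro h l hl
    rw [← H.filled_iff]
    intro x
    have h1 : ∀ l ∈ Finset.range K, 0 ≤ rho l x - lev k c ν l x :=
      fun l _ => sub_nonneg.2 (H.lev_le l x)
    have h2 := Finset.sum_nonneg h1
    have h3 := sub_nonneg.2 (H.lev_le K x)
    have h4 := h x
    unfold gap at h4
    rcases Nat.lt_or_eq_of_le hl with h5 | h5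
    · have h6 : ∑ l ∈ Finset.range K, (rho l x - lev k c ν l x) = 0 := by linarith
      have h7 := (Finset.sum_eq_zero_iff_of_nonneg h1).1 h6 l (Finset.mem_range.2 h5)
      linarith
    · subst h5; linarith
  · intro h x
    have h1 : ∀ l ≤ K, rho l x - lev k c ν l x = 0 := fun l hl => by
      rw [(H.filled_iff l).2 (h l hl) x, sub_self]
    unfold gap
    rw [h1 K le_rfl, Finset.sum_eq_zero fun l hl => h1 l (Finset.mem_range.1 hl).le]
    ring

/-- **Equality holds exactly for the filled shells.** -/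
theorem Sys.eq_iff (H : Sys k c ν) :
    2 * π * ∫ x, (∑ n, ν n * ‖st (k n) (c n) x‖ ^ 2) ^ 2 = ∑ n, ν n * ((k n : ℝ) + 1) ↔
      ∃ K : ℕ, (∀ n, ν n ≠ 0 → k n < K) ∧
        ∀ l < K, ∑ m, (if k m = l then ν m else 0) = (l:ℝ) + 1 := by
  have hd := H.deficit
  set F : (Fin 2 → ℝ) → ℝ := fun x => ∑ n, ν n * (‖st (k n) (c n) x‖ ^ 2 * gap k c ν (k n) x)
    with hF
  have hF0 : ∀ x, 0 ≤ F x := fun x => Finset.sum_nonneg fun n _ => mul_nonneg (H.nonneg n)
      (mul_nonneg (sq_nonneg _) (H.gap_nonneg _ x))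
  have hFc : Continuous F := continuous_finsetSum _ fun n _ => continuous_const.mul
    (((st_cont (k n) (c n)).norm.pow 2).mul (gap_cont k c ν (k n)))
  have hFi : Integrable F := by
    have h1 := (right_int k c ν).sub H.left_int
    refine h1.congr (ae_of_all _ fun x => ?_)
    show ∑ n, ν n * (‖st (k n) (c n) x‖ ^ 2 * dens (k n) x) -
      (∑ n, ν n * ‖st (k n) (c n) x‖ ^ 2) ^ 2 = _
    rw [point_eq]; simp only [hF]; ring
  constructor
  · intro h
    have h1 : ∫ x, F x = 0 := by
      rw [h, sub_self] at hd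
      have h2 : (0:ℝ) < 2 * π := by positivity
      rcases mul_eq_zero.1 hd.symm with h3 | h3
      · exact absurd h3 h2.ne'
      · exact h3
    have h2 := cont_zero hFc hFi hF0 h1
    have h3 : ∀ n, ν n ≠ 0 → ∀ l ≤ k n, ∑ m, (if k m = l then ν m else 0) = (l:ℝ) + 1 := by
      intro n hn
      rw [← H.gap_zero_iff]
      refine H.dense n (gap_cont k c ν (k n)) fun x => ?_
      have h4 := (Finset.sum_eq_zero_iff_of_nonneg (fun n _ => mul_nonneg (H.nonneg n)
        (mul_nonneg (sq_nonneg _) (H.gap_nonneg _ x)))).1 (h2 x) n (Finset.mem_univ n)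
      exact (mul_eq_zero.1 h4).resolve_left hn
    refine ⟨Finset.univ.sup fun n => if ν n ≠ 0 then k n + 1 else 0, fun n hn => ?_, fun l hl => ?_⟩
    · have h4 := Finset.le_sup (f := fun n => if ν n ≠ 0 then k n + 1 else 0) (Finset.mem_univ n)
      simp only [if_pos hn] at h4
      omega
    · rw [Finset.lt_sup_iff] at hl
      obtain ⟨n, -, hn⟩ := hl
      by_cases h4 : ν n ≠ 0
      · rw [if_pos h4] at hn
        exact h3 n h4 l (by omega)
      · rw [if_neg h4] at hn
        omega
  · rintro ⟨K, hK1, hK2⟩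
    have h1 : ∀ x, F x = 0 := by
      intro x
      refine Finset.sum_eq_zero fun n _ => ?_
      by_cases hn : ν n = 0
      · rw [hn, zero_mul]
      · have h3 := (H.gap_zero_iff (k n)).2 (fun l hl => hK2 l (by have := hK1 n hn; omega)) x
        rw [h3]; ring
    have h2 : ∫ x, F x = 0 := by simp only [h1, integral_zero]
    rw [h2, mul_zero] at hd
    linarith

end Pool.Agent.H45.LT.Osc
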