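import Mathlib
import Pool.Agent.H45.LT.Osc6

set_option autoImplicit false

/-!
# The constants and the form with the exponent of the general inequality
-/

open MeasureTheory Set Real

namespace Pool.Agent.H45.LT.Osc

theorem kcl2 : ((2:ℕ):ℝ) / ((2:ℕ) + 2) * ((2 * Real.pi) ^ 2 /
    (volume (Metric.ball (0 : EuclideanSpace ℝ (Fin 2)) 1)).toReal ^ ((2 : ℝ) / (2:ℕ))) =
      2 * π := by
  rw [EuclideanSpace.volume_ball_fin_two]
  have h1 : ((ENNReal.ofReal 1 ^ 2 * ENNReal.ofReal π)).toReal = π := by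
    rw [ENNReal.ofReal_one, one_pow, one_mul, ENNReal.toReal_ofReal pi_pos.le]
  rw [h1]
  have h2 : (2:ℝ) / ((2:ℕ):ℝ) = 1 := by norm_num
  rw [h2, Real.rpow_one]
  have := pi_pos
  field_simp
  norm_num

theorem expo (t : ℝ) : t ^ (1 + 2 / (((2:ℕ):ℝ)) : ℝ) = t ^ 2 := by
  have h : (1 + 2 / (((2:ℕ):ℝ)) : ℝ) = ((2:ℕ):ℝ) := by norm_num
  rw [h, Real.rpow_natCast]

theorem h_eq (n : ℕ) (t : ℝ) : h n t = 1 / √(n.factorial * √π) *
    ((Polynomial.hermite n).map (Int.castRingHom ℝ)).eval (√2 * t) * Real.exp (-t ^ 2 / 2) := by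
  simp only [h, P, Polynomial.eval_mul, Polynomial.eval_C, Polynomial.eval_comp, Polynomial.eval_X]

/-- `h_n' = √(n/2) h_(n-1) - √((n+1)/2) h_(n+1)` in the form `√2 h_n' = √n h_(n-1) - √(n+1) h_(n+1)` -/
theorem h'_eq (n : ℕ) (t : ℝ) :
    h' n t = 1 / √2 * (√(n:ℝ) * h (n - 1) t - √((n:ℝ) + 1) * h (n + 1) t) := by
  simp only [h', P_flow, h, Polynomial.eval_mul, Polynomial.eval_sub, Polynomial.eval_C]
  ring

theorem h_X (n : ℕ) (t : ℝ) :
    t * h n t = 1 / √2 * (√(n:ℝ) * h (n - 1) t + √((n:ℝ) + 1) * h (n + 1) t) := by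
  have h1 := congrArg (Polynomial.eval t) (P_rec' n)
  simp only [Polynomial.eval_mul, Polynomial.eval_sub, Polynomial.eval_C, Polynomial.eval_X] at h1
  have h2 : (0:ℝ) < √2 := Real.sqrt_pos.2 (by norm_num)
  simp only [h]
  have h3 : √((n:ℝ) + 1) * ((P (n + 1)).eval t * Real.exp (-t ^ 2 / 2)) =
      (√2 * (t * (P n).eval t) - √(n:ℝ) * (P (n - 1)).eval t) * Real.exp (-t ^ 2 / 2) := by
    rw [← h1]; ring
  rw [h3]
  field_simp
  ring

/-- the differential equation of the Hermite functions -/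
theorem h_ode (n : ℕ) (t : ℝ) : deriv (deriv (h n)) t = (t ^ 2 - (2 * n + 1)) * h n t := by
  have h0 : deriv (h n) = h' n := funext fun t => (h_deriv n t).deriv
  rw [h0]
  have hs := sqrt2
  have h2 : (0:ℝ) < √2 := Real.sqrt_pos.2 (by norm_num)
  -- `h' = √2 √n h_(n-1) - t h_n`
  have h1 : ∀ t, h' n t = √2 * √(n:ℝ) * h (n - 1) t - t * h n t := by
    intro t
    simp only [h', h, P_deriv', Polynomial.eval_mul, Polynomial.eval_sub, Polynomial.eval_C,
      Polynomial.eval_X]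
    ring
  have h3 : h' n = fun t => √2 * √(n:ℝ) * h (n - 1) t - t * h n t := funext h1
  have h4 : HasDerivAt (h' n) (√2 * √(n:ℝ) * h' (n - 1) t - (1 * h n t + t * h' n t)) t := by
    rw [h3]
    have e1 := (h_deriv (n - 1) t).const_mul (√2 * √(n:ℝ))
    have e2 := (hasDerivAt_id t).mul (h_deriv n t)
    have e3 := e1.sub e2
    rw [h3] at e3
    exact e3
  rw [h4.deriv]
  rcases Nat.eq_zero_or_pos n with hn | hn
  · subst hn
    have h5 := h1 t
    simp only [Nat.cast_zero, Real.sqrt_zero, mul_zero, zero_mul, zero_sub] at h5 ⊢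
    rw [h5]; ring
  · -- `h_(n-1)' = t h_(n-1) - √2 √n h_n`
    have h5 : h' (n - 1) t = t * h (n - 1) t - √2 * √(n:ℝ) * h n t := by
      have e1 := h'_eq (n - 1) t
      have e2 := h_X (n - 1) t
      have e3 : n - 1 + 1 = n := by omega
      have e4 : (((n - 1 : ℕ):ℝ) + 1) = n := by
        rw [Nat.cast_sub (by omega)]; push_cast; ring
      rw [e3, e4] at e1 e2
      rw [e1, e2]
      have e5 : 1 / √2 * (√2 * √2) = √2 := by field_simp
      rw [hs] at e5
      linear_combination (-(√(n:ℝ) * h n t)) * e5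
    have h6 := h1 t
    have h7 : √(n:ℝ) * √(n:ℝ) = n := Real.mul_self_sqrt (by positivity)
    rw [h5, h6]
    linear_combination (-(√(n:ℝ) * √(n:ℝ) * h n t)) * hs - 2 * h n t * h7

theorem h_ortho (m n : ℕ) : ∫ t, h m t * h n t = if m = n then 1 else 0 := by
  rw [← ortho m n, E]
  refine integral_congr_ae (ae_of_all _ fun t => ?_)
  simp only [h, Polynomial.eval_mul, ← exp2]; ring

end Pool.Agent.H45.LT.Osc
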