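import Mathlib
import Pool.Agent.H45.LT.Gn2
import Pool.Agent.H45.LT.Osc7

set_option autoImplicit false

/-!
# The quartic integrals of the Hermite functions
-/

open Finset
open scoped ComplexConjugate

namespace Pool.Agent.H45.LT.Gn

/-- `w_(a - k)`, zero for `k > a` -/
noncomputable def ws (a k : ℕ) : ℝ := if k ≤ a then w (a - k) else 0

/-- `∑_k w_k w_(a - k) g_k` -/
noncomputable def L (a : ℕ) (g : ℕ → ℝ) : ℝ := ∑ k ∈ range (a + 1), w k * w (a - k) * g k

theorem L_rec (a : ℕ) (g : ℕ → ℝ) : 4 * ((a:ℝ) + 1) * L (a + 1) g =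
    (4 * (a:ℝ) + 2) * (L a g + L a fun k => g (k + 1)) - 4 * a * L (a - 1) fun k => g (k + 1) := by
  -- the coefficient of `g_k` for `1 ≤ k ≤ a`
  have mid : ∀ k ∈ range a, 4 * ((a:ℝ) + 1) * (w (k + 1) * w (a - k) * g (k + 1)) =
      (4 * (a:ℝ) + 2) * (w (k + 1) * w (a - (k + 1)) * g (k + 1) + w k * w (a - k) * g (k + 1)) -
        4 * a * (w k * w (a - 1 - k) * g (k + 1)) := by
    intro k hk
    rw [mem_range] at hk
    obtain ⟨i, rfl⟩ : ∃ i, a = k + 1 + i := ⟨a - (k + 1), by omega⟩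
    rw [show k + 1 + i - (k + 1) = i by omega, show k + 1 + i - k = i + 1 by omega,
      show k + 1 + i - 1 - k = i by omega]
    have h1 := w_succ k
    have h2 := w_succ i
    have h3 : w (k + 1) = w k * ((2 * (k:ℝ) + 1) / (2 * (k:ℝ) + 2)) := rfl
    have h4 : w (i + 1) = w i * ((2 * (i:ℝ) + 1) / (2 * (i:ℝ) + 2)) := rfl
    rw [h3, h4]
    push_cast
    have e1 : (2 * (k:ℝ) + 2) ≠ 0 := by positivity
    have e2 : (2 * (i:ℝ) + 2) ≠ 0 := by positivity
    field_simp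
    ring
  unfold L
  rw [show a + 1 + 1 = a + 2 by ring, sum_range_succ', sum_range_succ]
  have h5 : ∑ k ∈ range (a + 1), w k * w (a - k) * g k =
      ∑ k ∈ range a, w (k + 1) * w (a - (k + 1)) * g (k + 1) + w 0 * w a * g 0 := by
    rw [sum_range_succ']; rfl
  have h6 : ∑ k ∈ range (a + 1), w k * w (a - k) * g (k + 1) =
      ∑ k ∈ range a, w k * w (a - k) * g (k + 1) + w a * w 0 * g (a + 1) := by
    rw [sum_range_succ, Nat.sub_self]
  have h7 : 4 * (a:ℝ) * ∑ k ∈ range (a - 1 + 1), w k * w (a - 1 - k) * g (k + 1) =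
      4 * (a:ℝ) * ∑ k ∈ range a, w k * w (a - 1 - k) * g (k + 1) := by
    rcases Nat.eq_zero_or_pos a with h | h
    · rw [h]; simp
    · rw [show a - 1 + 1 = a by omega]
  rw [h5, h6, h7]
  have h8 : ∀ k ∈ range a, w (k + 1) * w (a + 1 - (k + 1)) * g (k + 1) =
      w (k + 1) * w (a - k) * g (k + 1) := by
    intro k _
    rw [show a + 1 - (k + 1) = a - k by omega]
  rw [sum_congr rfl h8]
  have h9 := sum_congr rfl mid
  rw [← mul_sum, sum_sub_distrib, ← mul_sum, ← mul_sum, sum_add_distrib] at h9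
  have h10 := w_succ a
  rw [show a + 1 - (a + 1) = 0 by omega, Nat.sub_zero]
  linear_combination h9 + (2 * w 0 * g 0 + 2 * w 0 * g (a + 1)) * h10

theorem ws_shift (c k : ℕ) : ws c (k + 1) = if c = 0 then 0 else ws (c - 1) k := by
  unfold ws
  rcases Nat.eq_zero_or_pos c with h | h
  · rw [h]; simp
  · have hc : ¬ c = 0 := by omega
    by_cases h1 : k + 1 ≤ c
    · rw [if_pos h1, if_neg hc, if_pos (by omega : k ≤ c - 1),
        show c - (k + 1) = c - 1 - k by omega]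
    · rw [if_neg h1, if_neg hc, if_neg (by omega : ¬ k ≤ c - 1)]

theorem L_shift (a c : ℕ) : (L a fun k => ws c (k + 1)) = if c = 0 then 0 else L a (ws (c - 1)) := by
  unfold L
  simp only [ws_shift]
  split_ifs <;> simp

open PowerSeries in
theorem J_three (a : ℕ) : (C (4 * ((a:ℝ) + 1)) : PowerSeries ℝ) * Osc.JS (a + 1) (a + 1) =
    C (4 * (a:ℝ) + 2) * ((1 + X) * Osc.JS a a) - C (4 * (a:ℝ)) * (X * Osc.JS (a - 1) (a - 1)) := by
  have hs : ∀ n : ℕ, (C √((n:ℝ) + 1) : PowerSeries ℝ) * C √((n:ℝ) + 1) = C ((n:ℝ) + 1) := by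
    intro n
    rw [← map_mul, Real.mul_self_sqrt (by positivity)]
  have hs' : ∀ n : ℕ, (C √(n:ℝ) : PowerSeries ℝ) * C √(n:ℝ) = C (n:ℝ) := by
    intro n
    rw [← map_mul, Real.mul_self_sqrt (by positivity)]
  -- the off-diagonal series
  set O : ℕ → PowerSeries ℝ := fun n => C √(n:ℝ) * (C √((n:ℝ) + 1) * Osc.JS (n + 1) (n - 1)) with hO
  have e1 : ∀ n : ℕ, (1 - X) * O n = C ((n:ℝ) + 1) * ((1 + X) * Osc.JS n n) -
      C 2 * (C ((n:ℝ) + 1) * Osc.JS (n + 1) (n + 1)) := by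
    intro n
    have h := Osc.JS_rec n (n + 1)
    rw [Nat.add_sub_cancel, Osc.JS_symm (n - 1) (n + 1)] at h
    push_cast at h
    rw [map_mul] at h
    rw [hO]; dsimp only
    linear_combination (C √((n:ℝ) + 1) : PowerSeries ℝ) * h +
      ((1 + X) * Osc.JS n n - C 2 * Osc.JS (n + 1) (n + 1)) * hs n
  have e2 : ∀ n : ℕ, C 2 * O (n + 1) = -(C ((n:ℝ) + 1) * ((1 - X) * Osc.JS n n)) +
      (1 + X) * O n := by
    intro n
    have h := Osc.JS_rec (n + 1) n
    rw [Nat.add_sub_cancel] at h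
    push_cast at h
    rw [map_mul] at h
    rw [hO]; dsimp only
    rw [Nat.add_sub_cancel]
    push_cast
    linear_combination (C √((n:ℝ) + 1) : PowerSeries ℝ) * h - (1 - X) * Osc.JS n n * hs n
  have h2 : (C 2 : PowerSeries ℝ) = 2 := map_ofNat C 2
  have h4 : (C 4 : PowerSeries ℝ) = 4 := map_ofNat C 4
  rcases a with _ | n
  · have h := e1 0
    have h0 : O 0 = 0 := by rw [hO]; simp
    rw [h0] at h
    simp only [Nat.cast_zero, zero_add, mul_zero, map_zero, zero_mul, sub_zero, map_one, one_mul,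
      mul_one] at h ⊢
    rw [h4, h2]
    rw [h2] at h
    linear_combination 2 * h
  · have f1 := e1 (n + 1)
    have f2 := e1 n
    have f3 := e2 n
    rw [Nat.add_sub_cancel]
    push_cast at f1 ⊢
    simp only [map_add, map_mul, map_one, h2, h4] at f1 f2 f3 ⊢
    linear_combination 2 * f1 - (1 - X) * f3 - (1 + X) * f2

theorem J_three' (a c : ℕ) : 4 * ((a:ℝ) + 1) * Osc.J (a + 1) (a + 1) c =
    (4 * (a:ℝ) + 2) * (Osc.J a a c + if c = 0 then 0 else Osc.J a a (c - 1)) -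
      4 * a * (if c = 0 then 0 else Osc.J (a - 1) (a - 1) (c - 1)) := by
  have h := congrArg (PowerSeries.coeff c) (J_three a)
  rcases c with _ | c
  · simp only [Osc.JS, map_sub, PowerSeries.coeff_C_mul, add_mul, one_mul, map_add,
      PowerSeries.coeff_mk, PowerSeries.coeff_zero_X_mul, mul_zero] at h
    simp only [if_true, mul_zero]
    linarith
  · simp only [Osc.JS, map_sub, PowerSeries.coeff_C_mul, add_mul, one_mul, map_add,
      PowerSeries.coeff_mk, PowerSeries.coeff_succ_X_mul] at h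
    rw [if_neg (by omega), if_neg (by omega), Nat.add_sub_cancel]
    linarith

theorem J_base (c : ℕ) : Osc.J 0 0 c = Osc.J 0 0 0 * w c := by
  induction c with
  | zero => rw [w, mul_one]
  | succ c ih =>
    have h := Osc.J_succ c
    have h2 := w_succ c
    have h3 : (0:ℝ) < 2 * ((c:ℝ) + 1) := by positivity
    refine mul_left_cancel₀ h3.ne' ?_
    rw [h, ih]
    linear_combination (-(Osc.J 0 0 0)) * h2

/-- **The quartic integrals.** -/
theorem J_form (a : ℕ) : (∀ c, Osc.J a a c = Osc.J 0 0 0 * L a (ws c)) ∧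
    ∀ c, Osc.J (a + 1) (a + 1) c = Osc.J 0 0 0 * L (a + 1) (ws c) := by
  have h0 : ∀ c, Osc.J 0 0 c = Osc.J 0 0 0 * L 0 (ws c) := by
    intro c
    rw [J_base]
    simp [L, ws, w]
  have step : ∀ a, (∀ c, Osc.J a a c = Osc.J 0 0 0 * L a (ws c)) →
      (∀ c, 4 * (a:ℝ) * Osc.J (a - 1) (a - 1) c = Osc.J 0 0 0 * (4 * a * L (a - 1) (ws c))) →
      ∀ c, Osc.J (a + 1) (a + 1) c = Osc.J 0 0 0 * L (a + 1) (ws c) := by
    intro a ha hb c
    have h := J_three' a c
    have h2 := L_rec a (ws c)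
    rw [L_shift, L_shift] at h2
    have h3 : (0:ℝ) < 4 * ((a:ℝ) + 1) := by positivity
    refine mul_left_cancel₀ h3.ne' ?_
    rw [h, mul_left_comm, h2, ha c]
    rcases Nat.eq_zero_or_pos c with hc | hc
    · rw [if_pos hc, if_pos hc, if_pos hc, if_pos hc]; ring
    · rw [if_neg (by omega), if_neg (by omega), if_neg (by omega), if_neg (by omega), ha (c - 1)]
      linear_combination (-1 : ℝ) * hb (c - 1)
  induction a with
  | zero =>
    refine ⟨h0, step 0 h0 fun c => by simp⟩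
  | succ a ih =>
    refine ⟨ih.2, step (a + 1) ih.2 fun c => ?_⟩
    rw [Nat.add_sub_cancel, ih.1 c]; ring

/-! ### The sum -/

theorem CC_eq {N : ℕ} (a b : Fin N → ℕ) (ν : Fin N → ℝ) (k j : ℕ) (n : Fin N) :
    CC a b ν k j n = ν n * (ws (a n) k * ws (b n) j) := by
  unfold CC ws
  by_cases h1 : k ≤ a n <;> by_cases h2 : j ≤ b n <;> simp [h1, h2]

theorem L_range {a K : ℕ} (h : a < K) (g : ℕ → ℝ) :
    ∑ k ∈ range K, w k * (ws a k * g k) = L a g := by
  unfold L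
  have h1 : ∑ k ∈ range (a + 1), w k * w (a - k) * g k =
      ∑ k ∈ range (a + 1), w k * (ws a k * g k) := by
    refine sum_congr rfl fun k hk => ?_
    rw [mem_range] at hk
    unfold ws
    rw [if_pos (by omega)]; ring
  rw [h1]
  refine (sum_subset (range_mono (by omega)) fun k _ hk => ?_).symm
  rw [mem_range] at hk
  unfold ws
  rw [if_neg (by omega)]; ring

variable {E : Type*} [NormedAddCommGroup E] [InnerProductSpace ℂ E]

/-- **The sum over all pairs.** -/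
theorem total {N : ℕ} (f : Fin N → E) (a b : Fin N → ℕ)
    (ν : Fin N → ℝ) (hν : ∀ n, 0 ≤ ν n ∧ ν n ≤ 1)
    (ho : ∀ n n', a n = a n' → b n = b n' →
      (inner ℂ (f n) (f n') : ℂ) = if n = n' then (1:ℂ) else 0) {l : ℝ} (hl : 0 < l) :
    ∑ n, ∑ n', ν n * ν n' * ‖(inner ℂ (f n) (f n') : ℂ)‖ ^ 2 *
      (L (a n) (ws (a n')) * L (b n) (ws (b n'))) ≤
      ∑ n, ν n * (l * ((a n : ℝ) + 1 / 2) + l⁻¹ * ((b n : ℝ) + 1 / 2)) := by
  set K := (univ.sup a) + (univ.sup b) + 1 with hK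
  have ha : ∀ n, a n < K := fun n => by
    have := le_sup (f := a) (mem_univ n)
    omega
  have hb : ∀ n, b n < K := fun n => by
    have := le_sup (f := b) (mem_univ n)
    omega
  have h1 : ∑ n, ∑ n', ν n * ν n' * ‖(inner ℂ (f n) (f n') : ℂ)‖ ^ 2 *
      (L (a n) (ws (a n')) * L (b n) (ws (b n'))) =
      ∑ k ∈ range K, ∑ j ∈ range K, w k * w j * ∑ n, ∑ n', CC a b ν k j n * CC a b ν k j n' *
        ‖(inner ℂ (f n) (f n') : ℂ)‖ ^ 2 := by
    have h2 : ∀ n n', ν n * ν n' * ‖(inner ℂ (f n) (f n') : ℂ)‖ ^ 2 *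
        (L (a n) (ws (a n')) * L (b n) (ws (b n'))) =
        ∑ k ∈ range K, ∑ j ∈ range K, w k * w j * (CC a b ν k j n * CC a b ν k j n' *
        ‖(inner ℂ (f n) (f n') : ℂ)‖ ^ 2) := by
      intro n n'
      rw [← L_range (ha n), ← L_range (hb n), sum_mul_sum, mul_sum]
      refine sum_congr rfl fun k _ => ?_
      rw [mul_sum]
      refine sum_congr rfl fun j _ => ?_
      rw [CC_eq, CC_eq]; ring
    simp only [h2]
    have h3 : ∀ n, ∑ n', ∑ k ∈ range K, ∑ j ∈ range K, w k * w j * (CC a b ν k j n *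
        CC a b ν k j n' * ‖(inner ℂ (f n) (f n') : ℂ)‖ ^ 2) =
        ∑ k ∈ range K, ∑ j ∈ range K, ∑ n', w k * w j * (CC a b ν k j n *
        CC a b ν k j n' * ‖(inner ℂ (f n) (f n') : ℂ)‖ ^ 2) := by
      intro n
      rw [sum_comm]
      exact sum_congr rfl fun k _ => sum_comm
    simp only [h3]
    rw [sum_comm]
    refine sum_congr rfl fun k _ => ?_
    rw [sum_comm]
    refine sum_congr rfl fun j _ => ?_
    rw [mul_sum]
    refine sum_congr rfl fun n _ => ?_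
    rw [mul_sum]
  rw [h1]
  have h2 : ∀ k ∈ range K, ∀ j ∈ range K, w k * w j * ∑ n, ∑ n', CC a b ν k j n *
      CC a b ν k j n' * ‖(inner ℂ (f n) (f n') : ℂ)‖ ^ 2 ≤ w k * w j *
      ∑ n, CC a b ν k j n * (l * (2 * ((a n - k : ℕ) : ℝ) + 1 / 2) +
        l⁻¹ * (2 * ((b n - j : ℕ) : ℝ) + 1 / 2)) := fun k _ j _ =>
    mul_le_mul_of_nonneg_left (oper f a b ν hν ho k j hl)
      (mul_nonneg (w_pos k).le (w_pos j).le)
  refine (sum_le_sum fun k hk => sum_le_sum fun j hj => h2 k hk j hj).trans (le_of_eq ?_)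
  -- the first moments
  have m0 : ∀ a, a < K → ∑ k ∈ range K, w k * ws a k = 1 := by
    intro a ha
    have h := L_range ha fun _ => 1
    simp only [mul_one] at h
    rw [h]
    unfold L
    simp only [mul_one]
    exact (sum_zero a).1
  have m1 : ∀ a, a < K → ∑ k ∈ range K, w k * ws a k * (2 * ((a - k : ℕ) : ℝ) + 1 / 2) =
      (a:ℝ) + 1 / 2 := by
    intro a ha
    have h := L_range ha fun k => 2 * ((a - k : ℕ) : ℝ) + 1 / 2
    have h' : ∑ k ∈ range K, w k * ws a k * (2 * ((a - k : ℕ) : ℝ) + 1 / 2) =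
        ∑ k ∈ range K, w k * (ws a k * (2 * ((a - k : ℕ) : ℝ) + 1 / 2)) :=
      sum_congr rfl fun k _ => by ring
    rw [h', h]
    unfold L
    have h3 : ∑ k ∈ range (a + 1), w k * w (a - k) * (2 * ((a - k : ℕ) : ℝ) + 1 / 2) =
        2 * ∑ k ∈ range (a + 1), w k * w (a - k) * ((a - k : ℕ) : ℝ) +
          1 / 2 * ∑ k ∈ range (a + 1), w k * w (a - k) := by
      rw [mul_sum, mul_sum, ← sum_add_distrib]
      exact sum_congr rfl fun k _ => by ring
    rw [h3, sum_one', (sum_zero a).1]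
    ring
  have h3 : ∀ k j, w k * w j * ∑ n, CC a b ν k j n * (l * (2 * ((a n - k : ℕ) : ℝ) + 1 / 2) +
        l⁻¹ * (2 * ((b n - j : ℕ) : ℝ) + 1 / 2)) =
      ∑ n, (ν n * l * (w k * ws (a n) k * (2 * ((a n - k : ℕ) : ℝ) + 1 / 2)) *
        (w j * ws (b n) j) + ν n * l⁻¹ * (w k * ws (a n) k) *
        (w j * ws (b n) j * (2 * ((b n - j : ℕ) : ℝ) + 1 / 2))) := by
    intro k j
    rw [mul_sum]
    refine sum_congr rfl fun n _ => ?_
    rw [CC_eq]; ring
  simp only [h3]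
  have h4 : ∀ k, ∑ j ∈ range K, ∑ n, (ν n * l * (w k * ws (a n) k *
        (2 * ((a n - k : ℕ) : ℝ) + 1 / 2)) *
        (w j * ws (b n) j) + ν n * l⁻¹ * (w k * ws (a n) k) *
        (w j * ws (b n) j * (2 * ((b n - j : ℕ) : ℝ) + 1 / 2))) =
      ∑ n, (ν n * l * (w k * ws (a n) k * (2 * ((a n - k : ℕ) : ℝ) + 1 / 2)) +
        ν n * l⁻¹ * (w k * ws (a n) k) * ((b n : ℝ) + 1 / 2)) := by
    intro k
    rw [sum_comm]
    refine sum_congr rfl fun n _ => ?_
    rw [sum_add_distrib, ← mul_sum, ← mul_sum, m0 _ (hb n), m1 _ (hb n), mul_one]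
  simp only [h4]
  rw [sum_comm]
  refine sum_congr rfl fun n _ => ?_
  have h5 : ∀ k, ν n * l * (w k * ws (a n) k * (2 * ((a n - k : ℕ) : ℝ) + 1 / 2)) +
        ν n * l⁻¹ * (w k * ws (a n) k) * ((b n : ℝ) + 1 / 2) =
      ν n * l * (w k * ws (a n) k * (2 * ((a n - k : ℕ) : ℝ) + 1 / 2)) +
        ν n * l⁻¹ * ((b n : ℝ) + 1 / 2) * (w k * ws (a n) k) := fun k => by ring
  simp only [h5]
  rw [sum_add_distrib, ← mul_sum, ← mul_sum, m0 _ (ha n), m1 _ (ha n)]
  ring

end Pool.Agent.H45.LT.Gn
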