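import Mathlib
import Pool.Agent.H45.LT.Ly4
import Pool.Agent.H45.LT.Osc7

set_option autoImplicit false

/-!
# Orthonormality on the product space, and the case of two dimensions
-/

open MeasureTheory Set Filter Topology Real
open scoped Matrix
open LTd (pd Kcl Mat)

namespace Pool.Agent.H45.LT.Ly

open Osc (st Psi rho dens vec pt vec_inner pt_norm nsq Psi_mul G_int G_eq ortho)

variable {m : ℕ}

theorem PsiPsi_eq {K a b : ℕ} (_ : a ≤ K) (_ : b ≤ K) :
    ∫ x, Psi K a x * Psi K b x = if a = b then 1 else 0 := by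
  simp only [Psi_mul]
  rw [G_eq, ortho, ortho]
  by_cases e : a = b
  · rw [if_pos e, if_pos (by omega), mul_one]
  · rw [if_neg e, zero_mul]

theorem UU_inner (K : ℕ) {g g' : ℕ → (Fin m → ℝ) → ℂ} (hg : ∀ a, Continuous (g a))
    (hg' : ∀ a, Continuous (g' a)) (hc : ∀ a, HasCompactSupport (g a)) :
    ∫ p, (starRingEnd ℂ) (UU K g p) * UU K g' p =
      ∑ a ∈ Finset.range (K + 1), ∫ y, (starRingEnd ℂ) (g a y) * g' a y := by
  have h1 : ∀ p : Sp m, (starRingEnd ℂ) (UU K g p) * UU K g' p =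
      ∑ a ∈ Finset.range (K + 1), ∑ b ∈ Finset.range (K + 1),
        ((Psi K a p.1 * Psi K b p.1 : ℝ) : ℂ) * ((starRingEnd ℂ) (g a p.2) * g' b p.2) := by
    intro p
    unfold UU st
    rw [map_sum, Finset.sum_mul_sum]
    refine Finset.sum_congr rfl fun a _ => Finset.sum_congr rfl fun b _ => ?_
    rw [map_mul, Complex.conj_ofReal]
    push_cast; ring
  simp only [h1]
  have hy : ∀ a b, Integrable fun y => (starRingEnd ℂ) (g a y) * g' b y := by
    intro a b
    have h1 : Continuous fun y => (starRingEnd ℂ) (g a y) * g' b y :=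
      (Complex.continuous_conj.comp (hg a)).mul (hg' b)
    have h2 : HasCompactSupport fun y => (starRingEnd ℂ) (g a y) * g' b y :=
      ((hc a).comp_left (g := fun z : ℂ => (starRingEnd ℂ) z) (by simp)).mul_right
    exact h1.integrable_of_hasCompactSupport h2
  have hx : ∀ a b, Integrable fun x => ((Psi K a x * Psi K b x : ℝ) : ℂ) := fun a b =>
    (PsiPsi_int K a b).ofReal
  have hi : ∀ a b, Integrable fun p : Sp m =>
      ((Psi K a p.1 * Psi K b p.1 : ℝ) : ℂ) * ((starRingEnd ℂ) (g a p.2) * g' b p.2) :=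
    fun a b => (hx a b).mul_prod (hy a b)
  rw [integral_finsetSum _ fun a _ => integrable_finsetSum _ fun b _ => hi a b]
  refine Finset.sum_congr rfl fun a ha => ?_
  rw [integral_finsetSum _ fun b _ => hi a b]
  have h2 : ∀ b ∈ Finset.range (K + 1), ∫ p : Sp m,
      ((Psi K a p.1 * Psi K b p.1 : ℝ) : ℂ) * ((starRingEnd ℂ) (g a p.2) * g' b p.2) =
      (if a = b then ∫ y, (starRingEnd ℂ) (g a y) * g' b y else 0) := by
    intro b hb
    rw [Finset.mem_range] at ha hb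
    have h3 := integral_prod_mul (μ := (volume : Measure (Fin 2 → ℝ)))
      (ν := (volume : Measure (Fin m → ℝ))) (fun x => ((Psi K a x * Psi K b x : ℝ) : ℂ))
      (fun y => (starRingEnd ℂ) (g a y) * g' b y)
    refine h3.trans ?_
    rw [integral_complex_ofReal, PsiPsi_eq (show a ≤ K by omega) (show b ≤ K by omega)]
    split_ifs
    · simp
    · simp
  rw [Finset.sum_congr rfl h2, Finset.sum_ite_eq, if_pos ha]

/-! ### Two dimensions -/

theorem int_zero {F : Type*} [NormedAddCommGroup F] [NormedSpace ℝ F] [CompleteSpace F]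
    (f : (Fin 0 → ℝ) → F) : ∫ y, f y = f default := by
  rw [MeasureTheory.Measure.volume_pi_eq_dirac (default : Fin 0 → ℝ), integral_dirac]

variable {N : ℕ} {k : Fin N → ℕ} {φ : Fin N → ℕ → (Fin 0 → ℝ) → ℂ} {ν : Fin N → ℝ}

theorem SysY.sys (H : SysY k φ ν) : Osc.Sys k (fun n a => φ n a default) ν := by
  refine ⟨fun n n' h => ?_, H.nonneg, H.le_one⟩
  have h1 := H.ortho n n' h
  simp only [int_zero] at h1
  exact h1

theorem UU_zero (K : ℕ) (g : ℕ → (Fin 0 → ℝ) → ℂ) (p : Sp 0) :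
    UU K g p = st K (fun a => g a default) p.1 := by
  unfold UU
  rw [Subsingleton.elim p.2 default]

theorem SysY.dens_zero (H : SysY k φ ν) :
    ∫ p : Sp 0, (∑ n, ν n * ‖UU (k n) (φ n) p‖ ^ 2) ^ (1 + 2 / ((0 + 2 : ℕ) : ℝ)) =
      ∫ x, (∑ n, ν n * ‖st (k n) (fun a => φ n a default) x‖ ^ 2) ^ 2 := by
  have h := integral_prod _ H.main.1
  refine h.trans ?_
  refine integral_congr_ae (Eventually.of_forall fun x => ?_)
  dsimp only
  rw [int_zero]
  simp only [UU_zero]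
  exact Osc.expo _

theorem SysY.kin_zero (H : SysY k φ ν) :
    ∑ n, ν n * ((∑ q : Fin 2, ∫ p, ‖fderiv ℝ (UU (k n) (φ n)) p (Pi.single q 1, 0)‖ ^ 2) +
        ∑ q : Fin 0, ∫ p, ‖fderiv ℝ (UU (k n) (φ n)) p (0, Pi.single q 1)‖ ^ 2) =
      ∑ n, ν n * ((k n : ℝ) + 1) := by
  refine Finset.sum_congr rfl fun n _ => ?_
  rw [UU_kx (k n) (H.cd n) (H.cs n), H.norm n]
  simp

theorem SysY.eq_iff (H : SysY k φ ν) :
    Kcl 2 * ∫ p : Sp 0, (∑ n, ν n * ‖UU (k n) (φ n) p‖ ^ 2) ^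
        (1 + 2 / ((0 + 2 : ℕ) : ℝ)) =
      ∑ n, ν n * ((∑ q : Fin 2, ∫ p, ‖fderiv ℝ (UU (k n) (φ n)) p (Pi.single q 1, 0)‖ ^ 2) +
        ∑ q : Fin 0, ∫ p, ‖fderiv ℝ (UU (k n) (φ n)) p (0, Pi.single q 1)‖ ^ 2) ↔
      ∃ K : ℕ, (∀ n, ν n ≠ 0 → k n < K) ∧
        ∀ l < K, ∑ m, (if k m = l then ν m else 0) = (l:ℝ) + 1 := by
  rw [H.dens_zero, H.kin_zero, show Kcl 2 = 2 * π from Osc.kcl2]
  exact H.sys.eq_iff

end Pool.Agent.H45.LT.Ly
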