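import Mathlib

set_option autoImplicit false

/-!
# The weights of the Schur test for the lowest Landau level
-/

open Finset

namespace Pool.Agent.H45.LT.LL

/-- the probability that the first `k + l` tosses of a coin show `k` heads -/
noncomputable def pr (k l : ℕ) : ℝ := (Nat.choose (k + l) k : ℝ) / 2 ^ (k + l)

/-- the tail of the negative binomial series -/
noncomputable def tl (k l : ℕ) : ℝ := 2 * (∑ j ∈ range (k + 1), (Nat.choose l j : ℝ)) / 2 ^ l

theorem choose_sum_succ (k R : ℕ) :
    ∑ j ∈ range (k + 1), (Nat.choose (R + 1) j : ℝ) =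
      2 * (∑ j ∈ range (k + 1), (Nat.choose R j : ℝ)) - Nat.choose R k := by
  induction k with
  | zero => simp; norm_num
  | succ k ih =>
    rw [sum_range_succ, ih, sum_range_succ (fun j => (Nat.choose R j : ℝ)) (k + 1),
      Nat.choose_succ_succ]
    push_cast
    ring

theorem series (k R : ℕ) :
    ∑ M ∈ range R, (Nat.choose M k : ℝ) / 2 ^ M + tl k R = 2 := by
  induction R with
  | zero =>
    unfold tl
    simp only [range_zero, sum_empty, pow_zero, zero_add, div_one]
    rw [sum_range_succ']
    simp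
  | succ R ih =>
    have h : (Nat.choose R k : ℝ) / 2 ^ R + tl k (R + 1) = tl k R := by
      unfold tl
      rw [choose_sum_succ, pow_succ]
      field_simp
      ring
    rw [sum_range_succ, add_assoc, h, ih]

theorem tl_nonneg (k l : ℕ) : 0 ≤ tl k l := by unfold tl; positivity

theorem tl_le (k l : ℕ) : tl k l ≤ 2 := by
  have h := series k l
  have h2 : 0 ≤ ∑ M ∈ range l, (Nat.choose M k : ℝ) / 2 ^ M :=
    sum_nonneg fun M _ => by positivity
  linarith

/-- the partial sums starting from `l` -/
theorem shifted (k l J : ℕ) :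
    ∑ j ∈ range J, (Nat.choose (j + l) k : ℝ) / 2 ^ (j + l) ≤ tl k l := by
  have h1 := series k l
  have h2 := series k (l + J)
  have h3 : ∑ M ∈ range (l + J), (Nat.choose M k : ℝ) / 2 ^ M =
      ∑ M ∈ range l, (Nat.choose M k : ℝ) / 2 ^ M +
      ∑ j ∈ range J, (Nat.choose (l + j) k : ℝ) / 2 ^ (l + j) := by
    rw [sum_range_add]
  have h4 := tl_nonneg k (l + J)
  have h5 : ∑ j ∈ range J, (Nat.choose (j + l) k : ℝ) / 2 ^ (j + l) =
      ∑ j ∈ range J, (Nat.choose (l + j) k : ℝ) / 2 ^ (l + j) :=
    sum_congr rfl fun j _ => by rw [add_comm]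
  rw [h5]
  linarith

theorem tl_zero (l : ℕ) : tl 0 l = 2 / 2 ^ l := by
  unfold tl; simp

theorem tl_one (l : ℕ) : tl 1 l = 2 * (1 + l) / 2 ^ l := by
  unfold tl
  simp [sum_range_succ]

theorem tl_next (k : ℕ) : tl k (k + 1) = 2 - 1 / 2 ^ k := by
  unfold tl
  have h1 : ∑ j ∈ range (k + 2), (Nat.choose (k + 1) j : ℝ) = 2 ^ (k + 1) := by
    have := Nat.sum_range_choose (k + 1)
    exact_mod_cast this
  rw [sum_range_succ, Nat.choose_self] at h1
  have h2 : ∑ j ∈ range (k + 1), (Nat.choose (k + 1) j : ℝ) = 2 ^ (k + 1) - 1 := by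
    push_cast at h1
    linarith
  rw [h2, pow_succ]
  field_simp

theorem pr_comm (k l : ℕ) : pr k l = pr l k := by
  unfold pr
  rw [add_comm l k, Nat.choose_symm_add]

theorem pr_nonneg (k l : ℕ) : 0 ≤ pr k l := by unfold pr; positivity

/-- the row sums up to the diagonal -/
theorem row (k : ℕ) : ∑ l ∈ range k, pr k l = 1 - pr k k := by
  have h1 : ∑ l ∈ range (k + 1), pr k l = 1 := by
    have h2 := series k (2 * k + 1)
    have h3 : ∑ M ∈ range (2 * k + 1), (Nat.choose M k : ℝ) / 2 ^ M =
        ∑ l ∈ range (k + 1), pr k l := by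
      rw [show 2 * k + 1 = k + (k + 1) by ring, sum_range_add]
      have h4 : ∑ M ∈ range k, (Nat.choose M k : ℝ) / 2 ^ M = 0 := by
        refine sum_eq_zero fun M hM => ?_
        rw [Nat.choose_eq_zero_of_lt (mem_range.1 hM)]
        simp
      rw [h4, zero_add]
      rfl
    have h5 : tl k (2 * k + 1) = 1 := by
      unfold tl
      have h6 : ∑ j ∈ range (k + 1), (Nat.choose (2 * k + 1) j : ℝ) = 4 ^ k := by
        have := Nat.sum_range_choose_halfway k
        exact_mod_cast this
      rw [h6, pow_succ, pow_mul]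
      have : (4:ℝ) ^ k ≠ 0 := by positivity
      norm_num
      field_simp
    rw [h3, h5] at h2
    linarith
  rw [sum_range_succ] at h1
  linarith

theorem pr00 : pr 0 0 = 1 := by unfold pr; norm_num
theorem pr11 : pr 1 1 = 1 / 2 := by unfold pr; norm_num [Nat.choose]
theorem pr22 : pr 2 2 = 3 / 8 := by unfold pr; norm_num [Nat.choose]
theorem pr33 : pr 3 3 = 5 / 16 := by unfold pr; norm_num [Nat.choose]

/-- the weights for the first secondary diagonal -/
noncomputable def kap (d j : ℕ) : ℝ := if d = 1 ∧ 2 ≤ j then 4 / 5 else 1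

theorem kap_pos (d j : ℕ) : 0 < kap d j := by
  unfold kap; split_ifs <;> norm_num

theorem kap_le (d j : ℕ) : kap d j ≤ 1 := by
  unfold kap; split_ifs <;> norm_num

/-- the bound needed for the pair `k < l` -/
noncomputable def hh (k l : ℕ) : ℝ := ((k:ℝ) + l - 2) / 2 + pr k k + pr l l

theorem hh_comm (k l : ℕ) : hh k l = hh l k := by unfold hh; ring

/-- **The Schur test.** -/
theorem schur (k l J : ℕ) (h : k < l) :
    ∑ j ∈ range J, (Nat.choose (j + l) k : ℝ) / 2 ^ (j + l) *
      (kap (l - k) j / kap (l - k) k) ≤ hh k l := by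
  have hpk := pr_nonneg k k
  have hpl := pr_nonneg l l
  by_cases hd : l - k = 1
  · obtain rfl : l = k + 1 := by omega
    rw [hd]
    rcases Nat.lt_or_ge k 2 with hk | hk
    · have hkk : kap 1 k = 1 := by unfold kap; rw [if_neg (by omega)]
      rw [hkk]
      simp only [div_one]
      -- bound by `J + 2` terms
      have h1 : ∑ j ∈ range J, (Nat.choose (j + (k + 1)) k : ℝ) / 2 ^ (j + (k + 1)) * kap 1 j ≤
          ∑ j ∈ range (2 + J), (Nat.choose (j + (k + 1)) k : ℝ) / 2 ^ (j + (k + 1)) * kap 1 j := by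
        refine sum_le_sum_of_subset_of_nonneg (range_mono (by omega)) fun j _ _ => ?_
        have := kap_pos 1 j
        positivity
      refine h1.trans ?_
      rw [sum_range_add]
      have h2 : ∑ j ∈ range J, (Nat.choose (2 + j + (k + 1)) k : ℝ) / 2 ^ (2 + j + (k + 1)) *
          kap 1 (2 + j) ≤ tl k (k + 3) * (4 / 5) := by
        have h3 : ∑ j ∈ range J, (Nat.choose (2 + j + (k + 1)) k : ℝ) / 2 ^ (2 + j + (k + 1)) *
          kap 1 (2 + j) = (∑ j ∈ range J, (Nat.choose (j + (k + 3)) k : ℝ) / 2 ^ (j + (k + 3))) *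
            (4 / 5) := by
          rw [sum_mul]
          refine sum_congr rfl fun j _ => ?_
          unfold kap
          rw [if_pos (by omega), show 2 + j + (k + 1) = j + (k + 3) by ring]
        rw [h3]
        exact mul_le_mul_of_nonneg_right (shifted k (k + 3) J) (by norm_num)
      have e0 : kap 1 0 = 1 := by unfold kap; rw [if_neg (by omega)]
      have e1 : kap 1 1 = 1 := by unfold kap; rw [if_neg (by omega)]
      have h4 : ∑ j ∈ range 2, (Nat.choose (j + (k + 1)) k : ℝ) / 2 ^ (j + (k + 1)) * kap 1 j =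
          (Nat.choose (k + 1) k : ℝ) / 2 ^ (k + 1) + (Nat.choose (k + 2) k : ℝ) / 2 ^ (k + 2) := by
        rw [sum_range_succ, sum_range_one, e0, e1, mul_one, mul_one, zero_add,
          show 1 + (k + 1) = k + 2 by ring]
      rw [h4]
      generalize (∑ j ∈ range J, (Nat.choose (2 + j + (k + 1)) k : ℝ) / 2 ^ (2 + j + (k + 1)) *
          kap 1 (2 + j)) = S at h2 ⊢
      have hh0 : hh 0 1 = 1 := by unfold hh; rw [pr00, pr11]; norm_num
      have hh1 : hh 1 2 = 11 / 8 := by unfold hh; rw [pr11, pr22]; norm_num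
      interval_cases k
      · have t0 : tl 0 (0 + 3) = 1 / 4 := by rw [tl_zero]; norm_num
        rw [t0] at h2
        have hh0' : hh 0 (0 + 1) = 1 := hh0
        rw [hh0']
        norm_num
        linarith
      · have t1 : tl 1 (1 + 3) = 5 / 8 := by rw [tl_one]; norm_num
        rw [t1] at h2
        have hh1' : hh 1 (1 + 1) = 11 / 8 := hh1
        rw [hh1']
        norm_num [Nat.choose]
        linarith
    · have hkk : kap 1 k = 4 / 5 := by unfold kap; rw [if_pos (by omega)]
      rw [hkk]
      have h1 : ∑ j ∈ range J, (Nat.choose (j + (k + 1)) k : ℝ) / 2 ^ (j + (k + 1)) *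
          (kap 1 j / (4 / 5)) ≤ tl k (k + 1) * (5 / 4) := by
        refine le_trans ?_ (mul_le_mul_of_nonneg_right (shifted k (k + 1) J)
          (by norm_num : (0:ℝ) ≤ 5 / 4))
        rw [sum_mul]
        refine sum_le_sum fun j _ => mul_le_mul_of_nonneg_left ?_ (by positivity)
        have := kap_le 1 j
        rw [div_le_iff₀ (by norm_num)]
        linarith
      refine h1.trans ?_
      rw [tl_next]
      unfold hh
      rcases Nat.lt_or_ge k 3 with hk3 | hk3
      · obtain rfl : k = 2 := by omega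
        rw [pr22, pr33]
        norm_num
      · have h3 : (3:ℝ) ≤ k := by exact_mod_cast hk3
        have h4 : (0:ℝ) < 1 / 2 ^ k := by positivity
        push_cast
        linarith
  · have h1 : ∀ j, kap (l - k) j = 1 := fun j => by unfold kap; rw [if_neg (by omega)]
    simp only [h1, div_one, mul_one]
    refine (shifted k l J).trans ?_
    have hl : k + 2 ≤ l := by omega
    have hl' : (k:ℝ) + 2 ≤ l := by exact_mod_cast hl
    unfold hh
    rcases Nat.lt_or_ge k 2 with hk | hk
    · interval_cases k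
      · rw [tl_zero, pr00]
        have h2 : (4:ℝ) ≤ 2 ^ l := by
          calc (4:ℝ) = 2 ^ 2 := by norm_num
            _ ≤ 2 ^ l := pow_le_pow_right₀ (by norm_num) (by omega)
        have h3 : (2:ℝ) / 2 ^ l ≤ 1 / 2 := by
          rw [div_le_iff₀ (by positivity)]; linarith
        push_cast at hl' ⊢
        linarith
      · rw [tl_one, pr11]
        have h2 : (8:ℝ) ≤ 2 ^ l := by
          calc (8:ℝ) = 2 ^ 3 := by norm_num
            _ ≤ 2 ^ l := pow_le_pow_right₀ (by norm_num) (by omega)
        push_cast at hl' ⊢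
        have h3 : 2 * (1 + (l:ℝ)) / 2 ^ l ≤ (l:ℝ) / 2 := by
          rw [div_le_iff₀ (by positivity)]
          nlinarith
        linarith
    · have h2 := tl_le k l
      have h3 : (2:ℝ) ≤ k := by exact_mod_cast hk
      linarith

end Pool.Agent.H45.LT.LL
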