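import Mathlib
import Pool.Agent.H45.LT.LL1

set_option autoImplicit false

/-!
# The abstract inequality for the lowest Landau level
-/

open Finset

namespace Pool.Agent.H45.LT.LL

/-- the quartic integrals of the normalized functions, times `2π`; `l + k' = l' + k` -/
noncomputable def W (l k l' k' : ℕ) : ℝ :=
  (Nat.factorial (l + k') : ℝ) / 2 ^ (l + k') /
    (√(Nat.factorial l) * √(Nat.factorial k) * (√(Nat.factorial l') * √(Nat.factorial k')))

theorem W_nonneg (l k l' k' : ℕ) : 0 ≤ W l k l' k' := by unfold W; positivity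

theorem W_diag (l l' : ℕ) : W l l l' l' = pr l l' := by
  unfold W pr
  rw [Real.mul_self_sqrt (by positivity), Real.mul_self_sqrt (by positivity),
    Nat.cast_choose ℝ (show l ≤ l + l' by omega), show l + l' - l = l' by omega]
  field_simp

/-- the weight in the Schur test, `lo < hi` -/
noncomputable def om (hi lo j : ℕ) : ℝ :=
  (Nat.choose (j + hi) lo : ℝ) / 2 ^ (j + hi) * (kap (hi - lo) j / kap (hi - lo) lo)

theorem om_nonneg (hi lo j : ℕ) : 0 ≤ om hi lo j := by
  have := kap_pos (hi - lo) j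
  have := kap_pos (hi - lo) lo
  unfold om; positivity

/-- the weight of the first pair of a quadruple -/
noncomputable def Om (l k l' k' : ℕ) : ℝ := if k < l then om l k k' else om k l l'

theorem Om_nonneg (l k l' k' : ℕ) : 0 ≤ Om l k l' k' := by
  unfold Om; split_ifs <;> exact om_nonneg _ _ _

theorem om_mul {hi lo hi' lo' : ℕ} (h : lo < hi) (e : hi + lo' = hi' + lo) :
    om hi lo lo' * om hi' lo' lo = W hi lo hi' lo' ^ 2 := by
  have hk := kap_pos (hi - lo) lo
  have hk' := kap_pos (hi - lo) lo'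
  have e2 : hi' - lo' = hi - lo := by omega
  unfold om W
  rw [e2]
  have c1 : (Nat.choose (lo' + hi) lo : ℝ) = (Nat.factorial (hi + lo') : ℝ) /
      (Nat.factorial lo * Nat.factorial hi') := by
    rw [Nat.cast_choose ℝ (show lo ≤ lo' + hi by omega), show lo' + hi - lo = hi' by omega,
      add_comm lo' hi]
  have c2 : (Nat.choose (lo + hi') lo' : ℝ) = (Nat.factorial (hi + lo') : ℝ) /
      (Nat.factorial lo' * Nat.factorial hi) := by
    rw [Nat.cast_choose ℝ (show lo' ≤ lo + hi' by omega), show lo + hi' - lo' = hi by omega,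
      show lo + hi' = hi + lo' by omega]
  rw [c1, c2, show lo + hi' = hi + lo' by omega, add_comm lo' hi]
  have s1 := Real.sq_sqrt (show (0:ℝ) ≤ (Nat.factorial hi : ℝ) by positivity)
  have s2 := Real.sq_sqrt (show (0:ℝ) ≤ (Nat.factorial lo : ℝ) by positivity)
  have s3 := Real.sq_sqrt (show (0:ℝ) ≤ (Nat.factorial hi' : ℝ) by positivity)
  have s4 := Real.sq_sqrt (show (0:ℝ) ≤ (Nat.factorial lo' : ℝ) by positivity)
  rw [div_pow, div_pow, mul_pow, mul_pow, mul_pow, s1, s2, s3, s4]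
  have f1 : (0:ℝ) < (Nat.factorial hi : ℝ) := by positivity
  have f2 : (0:ℝ) < (Nat.factorial lo : ℝ) := by positivity
  have f3 : (0:ℝ) < (Nat.factorial hi' : ℝ) := by positivity
  have f4 : (0:ℝ) < (Nat.factorial lo' : ℝ) := by positivity
  field_simp

theorem W_swap (l k l' k' : ℕ) (e : l + k' = l' + k) : W l k l' k' = W k l k' l' := by
  unfold W
  rw [show k + l' = l + k' by omega, mul_comm (√(Nat.factorial l : ℝ)),
    mul_comm (√(Nat.factorial l' : ℝ))]

theorem Om_mul {l k l' k' : ℕ} (h : l ≠ k) (e : l + k' = l' + k) :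
    Om l k l' k' * Om l' k' l k = W l k l' k' ^ 2 := by
  unfold Om
  rcases lt_or_gt_of_ne h with h1 | h1
  · rw [if_neg (by omega), if_neg (by omega), W_swap l k l' k' e]
    exact om_mul h1 (by omega)
  · rw [if_pos h1, if_pos (by omega)]
    exact om_mul h1 e

theorem amgm {w p q x y z : ℝ} (hp : 0 ≤ p) (hq : 0 ≤ q) (hx : 0 ≤ x) (hy : 0 ≤ y)
    (h : p * q = w ^ 2) (hz : z ^ 2 ≤ x * y) : w * z ≤ (p * x + q * y) / 2 := by
  have h1 : (w * z) ^ 2 ≤ ((p * x + q * y) / 2) ^ 2 := by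
    have h2 : (w * z) ^ 2 ≤ (p * x) * (q * y) := by
      rw [mul_pow, ← h]
      nlinarith [mul_nonneg hp hq]
    nlinarith [sq_nonneg (p * x - q * y)]
  have h3 : 0 ≤ (p * x + q * y) / 2 := by positivity
  exact le_of_sq_le_sq' h1 h3
where
  le_of_sq_le_sq' {a b : ℝ} (h : a ^ 2 ≤ b ^ 2) (hb : 0 ≤ b) : a ≤ b :=
    le_trans (le_abs_self a) (abs_le_of_sq_le_sq h hb)

theorem Om_row (K : ℕ) {l k : ℕ} (h : l ≠ k) :
    ∑ l' ∈ range K, ∑ k' ∈ range K, (if l + k' = l' + k then Om l k l' k' else 0) ≤ hh l k := by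
  rcases lt_or_gt_of_ne h with h1 | h1
  · rw [hh_comm] 
    have h2 : ∀ l' ∈ range K, ∑ k' ∈ range K, (if l + k' = l' + k then Om l k l' k' else 0) ≤
        om k l l' := by
      intro l' _
      have h3 : ∀ k', (if l + k' = l' + k then Om l k l' k' else 0) =
          if l' + k - l = k' then om k l l' else 0 := by
        intro k'
        unfold Om
        rw [if_neg (show ¬ k < l by omega)]
        by_cases e : l + k' = l' + k
        · rw [if_pos e, if_pos (by omega)]
        · rw [if_neg e, if_neg (by omega)]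
      simp only [h3]
      rw [sum_ite_eq]
      split_ifs
      · exact le_rfl
      · exact om_nonneg _ _ _
    refine (sum_le_sum h2).trans ?_
    rw [hh_comm]
    exact schur l k K h1
  · rw [sum_comm]
    have h2 : ∀ k' ∈ range K, ∑ l' ∈ range K, (if l + k' = l' + k then Om l k l' k' else 0) ≤
        om l k k' := by
      intro k' _
      have h3 : ∀ l', (if l + k' = l' + k then Om l k l' k' else 0) =
          if l + k' - k = l' then om l k k' else 0 := by
        intro l'
        unfold Om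
        rw [if_pos h1]
        by_cases e : l + k' = l' + k
        · rw [if_pos e, if_pos (by omega)]
        · rw [if_neg e, if_neg (by omega)]
      simp only [h3]
      rw [sum_ite_eq]
      split_ifs
      · exact le_rfl
      · exact om_nonneg _ _ _
    refine (sum_le_sum h2).trans ?_
    rw [hh_comm]
    exact schur k l K h1

/-- the quadruple sum -/
noncomputable def Q (K : ℕ) (Z : ℕ → ℕ → ℕ → ℕ → ℝ) : ℝ :=
  ∑ l ∈ range K, ∑ k ∈ range K, ∑ l' ∈ range K, ∑ k' ∈ range K,
    (if l + k' = l' + k then W l k l' k' * Z l k l' k' else 0)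

theorem off_le (K : ℕ) (a2 : ℕ → ℕ → ℝ) (Z : ℕ → ℕ → ℕ → ℕ → ℝ)
    (ha : ∀ l k, 0 ≤ a2 l k) (hZ : ∀ l k l' k', Z l k l' k' ^ 2 ≤ a2 l k * a2 l' k') :
    ∑ l ∈ range K, ∑ k ∈ range K, ∑ l' ∈ range K, ∑ k' ∈ range K,
      (if l + k' = l' + k ∧ l ≠ k then W l k l' k' * Z l k l' k' else 0) ≤
    ∑ l ∈ range K, ∑ k ∈ range K, (if l = k then 0 else hh l k * a2 l k) := by
  set A : ℕ → ℕ → ℕ → ℕ → ℝ := fun l k l' k' =>
    if l + k' = l' + k ∧ l ≠ k then Om l k l' k' * a2 l k else 0 with hA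
  have h1 : ∀ l k l' k', (if l + k' = l' + k ∧ l ≠ k then W l k l' k' * Z l k l' k' else 0) ≤
      (A l k l' k' + A l' k' l k) / 2 := by
    intro l k l' k'
    simp only [hA]
    by_cases e : l + k' = l' + k ∧ l ≠ k
    · rw [if_pos e, if_pos e, if_pos (by omega)]
      exact amgm (Om_nonneg _ _ _ _) (Om_nonneg _ _ _ _) (ha _ _) (ha _ _)
        (Om_mul e.2 e.1) (hZ _ _ _ _)
    · rw [if_neg e, if_neg e, if_neg (by omega)]
      norm_num
  have h2 : ∑ l ∈ range K, ∑ k ∈ range K, ∑ l' ∈ range K, ∑ k' ∈ range K, A l' k' l k =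
      ∑ l ∈ range K, ∑ k ∈ range K, ∑ l' ∈ range K, ∑ k' ∈ range K, A l k l' k' := by
    have e1 : ∀ (B : ℕ → ℕ → ℕ → ℕ → ℝ),
        ∑ l ∈ range K, ∑ k ∈ range K, ∑ l' ∈ range K, ∑ k' ∈ range K, B l k l' k' =
        ∑ p ∈ range K ×ˢ range K, ∑ q ∈ range K ×ˢ range K, B p.1 p.2 q.1 q.2 := by
      intro B
      rw [sum_product]
      refine sum_congr rfl fun l _ => sum_congr rfl fun k _ => ?_
      rw [sum_product]
    rw [e1, e1, sum_comm]
  have h3 : ∑ l ∈ range K, ∑ k ∈ range K, ∑ l' ∈ range K, ∑ k' ∈ range K,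
      (if l + k' = l' + k ∧ l ≠ k then W l k l' k' * Z l k l' k' else 0) ≤
      ∑ l ∈ range K, ∑ k ∈ range K, ∑ l' ∈ range K, ∑ k' ∈ range K, A l k l' k' := by
    have h4 : ∑ l ∈ range K, ∑ k ∈ range K, ∑ l' ∈ range K, ∑ k' ∈ range K,
        (A l k l' k' + A l' k' l k) / 2 =
        ∑ l ∈ range K, ∑ k ∈ range K, ∑ l' ∈ range K, ∑ k' ∈ range K, A l k l' k' := by
      have h5 : ∑ l ∈ range K, ∑ k ∈ range K, ∑ l' ∈ range K, ∑ k' ∈ range K,
        (A l k l' k' + A l' k' l k) / 2 =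
        (∑ l ∈ range K, ∑ k ∈ range K, ∑ l' ∈ range K, ∑ k' ∈ range K, A l k l' k' +
        ∑ l ∈ range K, ∑ k ∈ range K, ∑ l' ∈ range K, ∑ k' ∈ range K, A l' k' l k) / 2 := by
        rw [← sum_add_distrib, sum_div]
        refine sum_congr rfl fun l _ => ?_
        rw [← sum_add_distrib, sum_div]
        refine sum_congr rfl fun k _ => ?_
        rw [← sum_add_distrib, sum_div]
        refine sum_congr rfl fun l' _ => ?_
        rw [← sum_add_distrib, sum_div]
      rw [h5, h2]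
      ring
    rw [← h4]
    exact sum_le_sum fun l _ => sum_le_sum fun k _ => sum_le_sum fun l' _ =>
      sum_le_sum fun k' _ => h1 l k l' k'
  refine h3.trans (sum_le_sum fun l _ => sum_le_sum fun k _ => ?_)
  by_cases e : l = k
  · rw [if_pos e]
    refine le_of_eq (sum_eq_zero fun l' _ => sum_eq_zero fun k' _ => ?_)
    simp only [hA]
    rw [if_neg (by omega)]
  · rw [if_neg e]
    have h4 : ∑ l' ∈ range K, ∑ k' ∈ range K, A l k l' k' =
        (∑ l' ∈ range K, ∑ k' ∈ range K, (if l + k' = l' + k then Om l k l' k' else 0)) *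
          a2 l k := by
      rw [sum_mul]
      refine sum_congr rfl fun l' _ => ?_
      rw [sum_mul]
      refine sum_congr rfl fun k' _ => ?_
      simp only [hA]
      by_cases e' : l + k' = l' + k
      · rw [if_pos ⟨e', e⟩, if_pos e']
      · rw [if_neg (by tauto), if_neg e', zero_mul]
    rw [h4]
    exact mul_le_mul_of_nonneg_right (Om_row K e) (ha l k)

theorem tri_sum (B : ℕ → ℕ → ℝ) (K : ℕ) : ∑ l ∈ range K, ∑ l' ∈ range K, B l l' =
    ∑ k ∈ range K, (B k k + ∑ l ∈ range k, (B k l + B l k)) := by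
  induction K with
  | zero => simp
  | succ K ih =>
    rw [sum_range_succ, sum_range_succ (fun k => B k k + ∑ l ∈ range k, (B k l + B l k)), ← ih,
      sum_range_succ (fun l' => B K l')]
    have e : ∑ l ∈ range K, ∑ l' ∈ range (K + 1), B l l' =
        ∑ l ∈ range K, ∑ l' ∈ range K, B l l' + ∑ l ∈ range K, B l K := by
      rw [← sum_add_distrib]
      exact sum_congr rfl fun l _ => sum_range_succ _ _
    rw [e, sum_add_distrib]
    ring

theorem diag_le (K : ℕ) (τ : ℕ → ℝ) (a2 : ℕ → ℕ → ℝ) (Z : ℕ → ℕ → ℕ → ℕ → ℝ)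
    (hD1 : ∀ k < K, ∀ l < K, Z k k l l ≤ τ k) (hD2 : ∀ k < K, ∀ l < K, Z k k l l ≤ τ l)
    (hDD : ∀ k, Z k k k k = a2 k k) :
    ∑ l ∈ range K, ∑ l' ∈ range K, pr l l' * Z l l l' l' ≤
      ∑ k ∈ range K, (pr k k * a2 k k + 2 * (1 - pr k k) * τ k) := by
  set B : ℕ → ℕ → ℝ := fun l l' => pr l l' * Z l l l' l' with hB
  have h1 := tri_sum B K
  rw [h1]
  refine sum_le_sum fun k hk => ?_
  rw [mem_range] at hk
  have h2 : ∑ l ∈ range k, (B k l + B l k) ≤ ∑ l ∈ range k, 2 * pr k l * τ k := by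
    refine sum_le_sum fun l hl => ?_
    rw [mem_range] at hl
    have h3 := mul_le_mul_of_nonneg_left (hD1 k hk l (by omega)) (pr_nonneg k l)
    have h4 := mul_le_mul_of_nonneg_left (hD2 l (by omega) k hk) (pr_nonneg k l)
    simp only [hB]
    rw [pr_comm l k]
    linarith
  have h3 : ∑ l ∈ range k, 2 * pr k l * τ k = 2 * (1 - pr k k) * τ k := by
    rw [← row k, mul_sum, sum_mul]
  have h4 : B k k = pr k k * a2 k k := by simp only [hB]; rw [hDD]
  linarith

/-- **The abstract inequality.** -/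
theorem abstract_ineq (K : ℕ) (τ : ℕ → ℝ) (a2 : ℕ → ℕ → ℝ) (Z : ℕ → ℕ → ℕ → ℕ → ℝ)
    (ha : ∀ l k, 0 ≤ a2 l k) (hs : ∀ l k, a2 l k = a2 k l)
    (hZ : ∀ l k l' k', Z l k l' k' ^ 2 ≤ a2 l k * a2 l' k')
    (hD1 : ∀ k < K, ∀ l < K, Z k k l l ≤ τ k) (hD2 : ∀ k < K, ∀ l < K, Z k k l l ≤ τ l)
    (hDD : ∀ k, Z k k k k = a2 k k)
    (hrow : ∀ k < K, ∑ l ∈ range K, a2 k l ≤ τ k) :
    Q K Z ≤ ∑ k ∈ range K, ((k:ℝ) + 1) * τ k := by
  have h1 : Q K Z = ∑ l ∈ range K, ∑ l' ∈ range K, pr l l' * Z l l l' l' +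
      ∑ l ∈ range K, ∑ k ∈ range K, ∑ l' ∈ range K, ∑ k' ∈ range K,
      (if l + k' = l' + k ∧ l ≠ k then W l k l' k' * Z l k l' k' else 0) := by
    unfold Q
    rw [← sum_add_distrib]
    refine sum_congr rfl fun l hl => ?_
    have h2 : ∑ l' ∈ range K, pr l l' * Z l l l' l' =
        ∑ k ∈ range K, (if l = k then ∑ l' ∈ range K, pr l l' * Z l l l' l' else 0) := by
      rw [sum_ite_eq, if_pos hl]
    rw [h2, ← sum_add_distrib]
    refine sum_congr rfl fun k hk => ?_
    by_cases e : l = k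
    · subst e
      rw [if_pos rfl, ← sum_add_distrib]
      refine sum_congr rfl fun l' hl' => ?_
      have h3 : ∑ k' ∈ range K, (if l + k' = l' + l ∧ l ≠ l then W l l l' k' * Z l l l' k' else 0)
          = 0 := sum_eq_zero fun k' _ => by rw [if_neg (by tauto)]
      rw [h3, add_zero]
      have h4 : ∀ k', (if l + k' = l' + l then W l l l' k' * Z l l l' k' else 0) =
          if l' = k' then pr l l' * Z l l l' l' else 0 := by
        intro k'
        by_cases e : l' = k'
        · subst e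
          rw [if_pos (by omega), if_pos rfl, W_diag]
        · rw [if_neg (by omega), if_neg e]
      simp only [h4]
      rw [sum_ite_eq, if_pos hl']
    · rw [if_neg e, zero_add]
      refine sum_congr rfl fun l' _ => sum_congr rfl fun k' _ => ?_
      by_cases e' : l + k' = l' + k
      · rw [if_pos e', if_pos ⟨e', e⟩]
      · rw [if_neg e', if_neg (by tauto)]
  have h2 := diag_le K τ a2 Z hD1 hD2 hDD
  have h3 := off_le K a2 Z ha hZ
  -- symmetrization
  have h4 : ∑ l ∈ range K, ∑ k ∈ range K, (if l = k then 0 else hh l k * a2 l k) =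
      ∑ k ∈ range K, ((k:ℝ) - 1 + 2 * pr k k) * (∑ l ∈ range K, a2 k l - a2 k k) := by
    set C : ℕ → ℕ → ℝ := fun k l => if k = l then 0 else ((k:ℝ) - 1 + 2 * pr k k) / 2 * a2 k l
      with hC
    have e1 : ∀ l k, (if l = k then 0 else hh l k * a2 l k) = C l k + C k l := by
      intro l k
      simp only [hC]
      by_cases e : l = k
      · rw [if_pos e, if_pos e, if_pos e.symm]; ring
      · rw [if_neg e, if_neg e, if_neg (Ne.symm e), hs k l]
        unfold hh
        ring
    have e2 : ∑ l ∈ range K, ∑ k ∈ range K, C k l = ∑ l ∈ range K, ∑ k ∈ range K, C l k :=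
      sum_comm
    simp only [e1, sum_add_distrib]
    rw [e2, ← sum_add_distrib]
    refine sum_congr rfl fun k hk => ?_
    have e3 : ∑ l ∈ range K, C k l =
        ((k:ℝ) - 1 + 2 * pr k k) / 2 * (∑ l ∈ range K, a2 k l - a2 k k) := by
      have e4 : ∀ l, C k l = ((k:ℝ) - 1 + 2 * pr k k) / 2 * a2 k l -
          (if k = l then ((k:ℝ) - 1 + 2 * pr k k) / 2 * a2 k k else 0) := by
        intro l
        simp only [hC]
        by_cases e : k = l
        · subst e; rw [if_pos rfl, if_pos rfl]; ring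
        · rw [if_neg e, if_neg e]; ring
      simp only [e4, sum_sub_distrib]
      rw [sum_ite_eq, if_pos hk, ← mul_sum]
      ring
    rw [e3]; ring
  rw [h1]
  have h5 : ∀ k ∈ range K, (pr k k * a2 k k + 2 * (1 - pr k k) * τ k) +
      ((k:ℝ) - 1 + 2 * pr k k) * (∑ l ∈ range K, a2 k l - a2 k k) ≤ ((k:ℝ) + 1) * τ k := by
    intro k hk
    have hr := hrow k (mem_range.1 hk)
    have hak := ha k k
    have hp := pr_nonneg k k
    have hc : 0 ≤ (k:ℝ) - 1 + pr k k := by
      rcases Nat.eq_zero_or_pos k with h | h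
      · subst h; rw [pr00]; norm_num
      · have : (1:ℝ) ≤ k := by exact_mod_cast h
        linarith
    have hc2 : 0 ≤ (k:ℝ) - 1 + 2 * pr k k := by linarith
    have h6 := mul_le_mul_of_nonneg_left hr hc2
    have h7 := mul_nonneg hc hak
    nlinarith
  have h6 := sum_le_sum h5
  rw [sum_add_distrib] at h6
  rw [h4] at h3
  linarith

end Pool.Agent.H45.LT.LL
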