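import Mathlib
import Pool.Agent.H45.LT.LL2

set_option autoImplicit false

/-!
# The inequality for density matrices on the lowest Landau level with values in a Hilbert space
-/

open Finset
open scoped ComplexConjugate

namespace Pool.Agent.H45.LT.LL

section coord

variable {N : ℕ} {ι : Type*} [Fintype ι]

/-- the inner products of the components -/
noncomputable def GG (c : Fin N → ℕ → ι → ℂ) (n : Fin N) (k : ℕ) (n' : Fin N) (k' : ℕ) : ℂ :=
  ∑ a, conj (c n k a) * c n' k' a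

/-- the block of the density matrix -/
noncomputable def TT (ν : Fin N → ℝ) (c : Fin N → ℕ → ι → ℂ) (l k : ℕ) :
    EuclideanSpace ℂ (ι × ι) :=
  WithLp.toLp 2 fun p => ∑ n, (ν n : ℂ) * (c n l p.1 * conj (c n k p.2))

theorem GG_conj (c : Fin N → ℕ → ι → ℂ) (n : Fin N) (k : ℕ) (n' : Fin N) (k' : ℕ) :
    conj (GG c n k n' k') = GG c n' k' n k := by
  unfold GG
  rw [map_sum]
  refine sum_congr rfl fun a _ => ?_
  rw [map_mul, Complex.conj_conj, mul_comm]

theorem TT_inner (ν : Fin N → ℝ) (c : Fin N → ℕ → ι → ℂ) (l k l' k' : ℕ) :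
    (inner ℂ (TT ν c l k) (TT ν c l' k') : ℂ) =
      ∑ n, ∑ n', ((ν n * ν n' : ℝ) : ℂ) * (GG c n l n' l' * conj (GG c n k n' k')) := by
  rw [EuclideanSpace.inner_eq_star_dotProduct, dotProduct]
  simp only [TT, Pi.star_apply, RCLike.star_def, map_sum, map_mul, Complex.conj_conj,
    Complex.conj_ofReal]
  rw [Fintype.sum_prod_type]
  have h1 : ∀ a b, (∑ n', (ν n' : ℂ) * (c n' l' a * conj (c n' k' b))) *
      (∑ n, (ν n : ℂ) * (conj (c n l a) * c n k b)) =
      ∑ n, ∑ n', ((ν n * ν n' : ℝ) : ℂ) * ((conj (c n l a) * c n' l' a) *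
        (c n k b * conj (c n' k' b))) := by
    intro a b
    rw [mul_comm, sum_mul_sum]
    refine sum_congr rfl fun n _ => sum_congr rfl fun n' _ => ?_
    push_cast
    ring
  simp only [h1]
  have h2 : ∀ n n', ((ν n * ν n' : ℝ) : ℂ) * (GG c n l n' l' * conj (GG c n k n' k')) =
      ∑ a, ∑ b, ((ν n * ν n' : ℝ) : ℂ) * ((conj (c n l a) * c n' l' a) *
        (c n k b * conj (c n' k' b))) := by
    intro n n'
    unfold GG
    rw [map_sum, sum_mul_sum, mul_sum]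
    refine sum_congr rfl fun a _ => ?_
    rw [mul_sum]
    refine sum_congr rfl fun b _ => ?_
    rw [map_mul, Complex.conj_conj]
  simp only [h2]
  -- exchange of the sums
  have h3 : ∀ F : Fin N → Fin N → ι → ι → ℂ, ∑ a, ∑ b, ∑ n, ∑ n', F n n' a b =
      ∑ n, ∑ n', ∑ a, ∑ b, F n n' a b := by
    intro F
    have e1 : ∀ a, ∑ b, ∑ n, ∑ n', F n n' a b = ∑ n, ∑ n', ∑ b, F n n' a b := by
      intro a
      rw [sum_comm]
      refine sum_congr rfl fun n _ => ?_
      rw [sum_comm]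
    simp only [e1]
    rw [sum_comm]
    refine sum_congr rfl fun n _ => ?_
    rw [sum_comm]
  exact h3 _

/-- the real parts of the traces -/
noncomputable def ZZ (ν : Fin N → ℝ) (c : Fin N → ℕ → ι → ℂ) (l k l' k' : ℕ) : ℝ :=
  (∑ n, ∑ n', ((ν n * ν n' : ℝ) : ℂ) * (GG c n l n' l' * conj (GG c n k n' k'))).re

theorem ZZ_eq (ν : Fin N → ℝ) (c : Fin N → ℕ → ι → ℂ) (l k l' k' : ℕ) :
    ZZ ν c l k l' k' = (inner ℂ (TT ν c l k) (TT ν c l' k') : ℂ).re := by
  rw [TT_inner]; rfl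

theorem ZZ_self (ν : Fin N → ℝ) (c : Fin N → ℕ → ι → ℂ) (l k : ℕ) :
    ZZ ν c l k l k = ‖TT ν c l k‖ ^ 2 := by
  rw [ZZ_eq, inner_self_eq_norm_sq_to_K]
  norm_cast

theorem ZZ_sq (ν : Fin N → ℝ) (c : Fin N → ℕ → ι → ℂ) (l k l' k' : ℕ) :
    ZZ ν c l k l' k' ^ 2 ≤ ZZ ν c l k l k * ZZ ν c l' k' l' k' := by
  rw [ZZ_self, ZZ_self, ← mul_pow, ZZ_eq, ← sq_abs]
  refine pow_le_pow_left₀ (abs_nonneg _) ?_ 2
  exact (Complex.abs_re_le_norm _).trans (norm_inner_le_norm _ _)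

theorem ZZ_symm (ν : Fin N → ℝ) (c : Fin N → ℕ → ι → ℂ) (l k : ℕ) :
    ZZ ν c l k l k = ZZ ν c k l k l := by
  unfold ZZ
  rw [Complex.re_sum, Complex.re_sum]
  refine sum_congr rfl fun n _ => ?_
  rw [Complex.re_sum, Complex.re_sum]
  refine sum_congr rfl fun n' _ => ?_
  rw [Complex.re_ofReal_mul, Complex.re_ofReal_mul]
  congr 1
  simp only [Complex.mul_re, Complex.conj_re, Complex.conj_im]
  ring

theorem ZZ_diag (ν : Fin N → ℝ) (c : Fin N → ℕ → ι → ℂ) (k l : ℕ) :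
    ZZ ν c k k l l = ∑ n, ∑ n', ν n * ν n' * ‖GG c n k n' l‖ ^ 2 := by
  unfold ZZ
  rw [Complex.re_sum]
  refine sum_congr rfl fun n _ => ?_
  rw [Complex.re_sum]
  refine sum_congr rfl fun n' _ => ?_
  rw [Complex.re_ofReal_mul, Complex.mul_conj, Complex.ofReal_re, Complex.normSq_eq_norm_sq]

variable {K : ℕ} {ν : Fin N → ℝ} {c : Fin N → ℕ → ι → ℂ}

theorem bessel (ho : ∀ n n', ∑ k ∈ range K, GG c n k n' k = if n = n' then 1 else 0)
    (g : ι → ℂ) {l : ℕ} (hl : l < K) :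
    ∑ n', ‖∑ a, conj (g a) * c n' l a‖ ^ 2 ≤ ∑ a, ‖g a‖ ^ 2 := by
  classical
  let w : Fin N → EuclideanSpace ℂ (Fin K × ι) := fun n => WithLp.toLp 2 fun p => c n p.1 p.2
  let x : EuclideanSpace ℂ (Fin K × ι) :=
    WithLp.toLp 2 fun p => if p.1 = ⟨l, hl⟩ then g p.2 else 0
  have hw : Orthonormal ℂ w := by
    rw [orthonormal_iff_ite]
    intro n n'
    rw [EuclideanSpace.inner_eq_star_dotProduct, dotProduct, Fintype.sum_prod_type]
    have h := ho n n'
    rw [sum_range] at h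
    rw [← h]
    refine sum_congr rfl fun k _ => ?_
    unfold GG
    refine sum_congr rfl fun a _ => ?_
    simp only [w, Pi.star_apply, RCLike.star_def]
    ring
  have h1 := hw.sum_inner_products_le (x := x) (s := univ)
  have h2 : ‖x‖ ^ 2 = ∑ a, ‖g a‖ ^ 2 := by
    rw [EuclideanSpace.norm_sq_eq, Fintype.sum_prod_type,
      Fintype.sum_eq_single (⟨l, hl⟩ : Fin K)]
    · simp only [x, if_true]
    · intro k hk
      simp only [x, if_neg hk, norm_zero]
      simp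
  rw [h2] at h1
  refine le_trans (le_of_eq (sum_congr rfl fun n _ => ?_)) h1
  congr 1
  rw [← Complex.norm_conj, map_sum, EuclideanSpace.inner_eq_star_dotProduct, dotProduct,
    Fintype.sum_prod_type, Fintype.sum_eq_single (⟨l, hl⟩ : Fin K)]
  · congr 1
    refine sum_congr rfl fun a _ => ?_
    simp only [x, w, if_true, Pi.star_apply, RCLike.star_def, map_mul, Complex.conj_conj]
  · intro k hk
    refine sum_eq_zero fun a _ => ?_
    simp only [x, if_neg hk, zero_mul]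

theorem GG_self (c : Fin N → ℕ → ι → ℂ) (n : Fin N) (k : ℕ) :
    GG c n k n k = ((∑ a, ‖c n k a‖ ^ 2 : ℝ) : ℂ) := by
  unfold GG
  push_cast
  refine sum_congr rfl fun a _ => ?_
  rw [mul_comm, Complex.mul_conj, Complex.normSq_eq_norm_sq]
  push_cast; rfl

theorem coord_ineq (hν : ∀ n, 0 ≤ ν n ∧ ν n ≤ 1)
    (ho : ∀ n n', ∑ k ∈ range K, GG c n k n' k = if n = n' then 1 else 0) :
    Q K (ZZ ν c) ≤ ∑ k ∈ range K, ((k:ℝ) + 1) * ∑ n, ν n * ∑ a, ‖c n k a‖ ^ 2 := by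
  have hD1 : ∀ k < K, ∀ l < K, ZZ ν c k k l l ≤ ∑ n, ν n * ∑ a, ‖c n k a‖ ^ 2 := by
    intro k _ l hl
    rw [ZZ_diag]
    refine sum_le_sum fun n _ => ?_
    have h1 : ∑ n', ν n * ν n' * ‖GG c n k n' l‖ ^ 2 ≤ ν n * ∑ n', ‖GG c n k n' l‖ ^ 2 := by
      rw [mul_sum]
      refine sum_le_sum fun n' _ => ?_
      rw [mul_assoc]
      refine mul_le_mul_of_nonneg_left ?_ (hν n).1
      exact mul_le_of_le_one_left (sq_nonneg _) (hν n').2
    exact h1.trans (mul_le_mul_of_nonneg_left (bessel ho (c n k) hl) (hν n).1)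
  refine abstract_ineq K (fun k => ∑ n, ν n * ∑ a, ‖c n k a‖ ^ 2) (fun l k => ZZ ν c l k l k)
    (ZZ ν c) (fun l k => by rw [ZZ_self]; positivity) (ZZ_symm ν c) (ZZ_sq ν c) hD1 ?_
    (fun k => rfl) ?_
  · intro k hk l hl
    have h : ZZ ν c k k l l = ZZ ν c l l k k := by
      rw [ZZ_diag, ZZ_diag, sum_comm]
      refine sum_congr rfl fun n _ => sum_congr rfl fun n' _ => ?_
      rw [← GG_conj c n l n' k, Complex.norm_conj]
      ring
    rw [h]
    exact hD1 l hl k hk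
  · intro k hk
    have h1 : ∑ l ∈ range K, ZZ ν c k l k l =
        (∑ n, ∑ n', ((ν n * ν n' : ℝ) : ℂ) * (GG c n k n' k *
          conj (∑ l ∈ range K, GG c n l n' l))).re := by
      unfold ZZ
      rw [← Complex.re_sum]
      congr 1
      rw [sum_comm]
      refine sum_congr rfl fun n _ => ?_
      rw [sum_comm]
      refine sum_congr rfl fun n' _ => ?_
      rw [map_sum, mul_sum, mul_sum]
    rw [h1, Complex.re_sum]
    refine sum_le_sum fun n _ => ?_
    rw [Finset.sum_eq_single n]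
    · rw [ho, if_pos rfl, map_one, mul_one, GG_self, ← Complex.ofReal_mul, Complex.ofReal_re]
      have h2 : 0 ≤ ∑ a, ‖c n k a‖ ^ 2 := sum_nonneg fun a _ => sq_nonneg _
      refine mul_le_mul_of_nonneg_right ?_ h2
      exact mul_le_of_le_one_right (hν n).1 (hν n).2
    · intro n' _ hn'
      rw [ho, if_neg (Ne.symm hn'), map_zero, mul_zero, mul_zero]
    · intro h; exact absurd (mem_univ n) h

end coord

/-- **The inequality in a Hilbert space.** -/
theorem hilbert_ineq {E : Type*} [NormedAddCommGroup E] [InnerProductSpace ℂ E] {N K : ℕ}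
    (w : Fin N → ℕ → E) {ν : Fin N → ℝ} (hν : ∀ n, 0 ≤ ν n ∧ ν n ≤ 1)
    (ho : ∀ n n', ∑ k ∈ range K, (inner ℂ (w n k) (w n' k) : ℂ) = if n = n' then 1 else 0) :
    ∑ l ∈ range K, ∑ k ∈ range K, ∑ l' ∈ range K, ∑ k' ∈ range K,
      (if l + k' = l' + k then W l k l' k' * (∑ n, ∑ n', ((ν n * ν n' : ℝ) : ℂ) *
        ((inner ℂ (w n l) (w n' l') : ℂ) * conj (inner ℂ (w n k) (w n' k') : ℂ))).re else 0) ≤
      ∑ k ∈ range K, ((k:ℝ) + 1) * ∑ n, ν n * ‖w n k‖ ^ 2 := by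
  classical
  set S : Submodule ℂ E := Submodule.span ℂ (Set.range fun p : Fin N × Fin K => w p.1 p.2) with hS
  have hfin : FiniteDimensional ℂ S := FiniteDimensional.span_of_finite ℂ (Set.finite_range _)
  set b := stdOrthonormalBasis ℂ S with hb
  set c : Fin N → ℕ → Fin (Module.finrank ℂ S) → ℂ := fun n k a => inner ℂ (b a : E) (w n k)
    with hc
  have hmem : ∀ n, ∀ k < K, w n k ∈ S := fun n k hk =>
    Submodule.subset_span ⟨(n, ⟨k, hk⟩), rfl⟩
  have hG : ∀ n, ∀ k < K, ∀ n', ∀ k' < K, GG c n k n' k' = inner ℂ (w n k) (w n' k') := by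
    intro n k hk n' k' hk'
    have h := b.sum_inner_mul_inner (⟨w n k, hmem n k hk⟩ : S) ⟨w n' k', hmem n' k' hk'⟩
    unfold GG
    have h2 : (inner ℂ (⟨w n k, hmem n k hk⟩ : S) (⟨w n' k', hmem n' k' hk'⟩ : S) : ℂ) =
        inner ℂ (w n k) (w n' k') := rfl
    rw [← h2, ← h]
    refine sum_congr rfl fun a _ => ?_
    rw [hc]
    dsimp only
    rw [inner_conj_symm]
    rfl
  have hn : ∀ n, ∀ k < K, ∑ a, ‖c n k a‖ ^ 2 = ‖w n k‖ ^ 2 := by
    intro n k hk
    have h1 := GG_self c n k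
    rw [hG n k hk n k hk, inner_self_eq_norm_sq_to_K] at h1
    have h2 : ((∑ a, ‖c n k a‖ ^ 2 : ℝ) : ℂ) = ((‖w n k‖ ^ 2 : ℝ) : ℂ) := by
      rw [← h1]; push_cast; rfl
    exact Complex.ofReal_injective h2
  have h := coord_ineq (K := K) (c := c) hν (by
    intro n n'
    rw [← ho n n']
    refine sum_congr rfl fun k hk => ?_
    rw [mem_range] at hk
    exact hG n k hk n' k hk)
  have e1 : ∑ k ∈ range K, ((k:ℝ) + 1) * ∑ n, ν n * ∑ a, ‖c n k a‖ ^ 2 =
      ∑ k ∈ range K, ((k:ℝ) + 1) * ∑ n, ν n * ‖w n k‖ ^ 2 := by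
    refine sum_congr rfl fun k hk => ?_
    rw [mem_range] at hk
    congr 1
    refine sum_congr rfl fun n _ => ?_
    rw [hn n k hk]
  rw [e1] at h
  refine le_trans (le_of_eq ?_) h
  unfold Q
  refine sum_congr rfl fun l hl => sum_congr rfl fun k hk => sum_congr rfl fun l' hl' =>
    sum_congr rfl fun k' hk' => ?_
  rw [mem_range] at hl hk hl' hk'
  split_ifs
  · congr 1
    unfold ZZ
    congr 1
    refine sum_congr rfl fun n _ => sum_congr rfl fun n' _ => ?_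
    rw [hG n l hl n' l' hl', hG n k hk n' k' hk']
  · rfl

end Pool.Agent.H45.LT.LL
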