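import Mathlib
import Pool.Agent.H45.LT.LL2

set_option autoImplicit false

/-!
# Gaussian moments in the plane, and the normalized functions of the lowest Landau level
-/

open MeasureTheory Real
open scoped ComplexConjugate

namespace Pool.Agent.H45.LT.LL

/-- the complex coordinate -/
noncomputable def zz (x : Fin 2 → ℝ) : ℂ := (x 0 : ℂ) + (x 1 : ℂ) * Complex.I

theorem zz_eq (x : Fin 2 → ℝ) : zz x = Complex.measurableEquivPi.symm x := rfl

theorem norm_zz (x : Fin 2 → ℝ) : ‖zz x‖ ^ 2 = x 0 ^ 2 + x 1 ^ 2 := by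
  rw [Complex.sq_norm, Complex.normSq_apply]
  simp [zz]
  ring

theorem mp_zz : MeasurePreserving zz := Complex.volume_preserving_equiv_pi.symm

theorem int_zz {F : ℂ → ℂ} : ∫ x, F (zz x) = ∫ z, F z :=
  Complex.volume_preserving_equiv_pi.symm.integral_comp' F

theorem abs_le_zz (x : Fin 2 → ℝ) (q : Fin 2) : |x q| ≤ ‖zz x‖ := by
  have h := norm_zz x
  have h0 := norm_nonneg (zz x)
  rw [← Real.sqrt_sq_eq_abs, ← Real.sqrt_sq h0]
  refine Real.sqrt_le_sqrt ?_
  rw [h]
  fin_cases q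
  · simp; positivity
  · simp; positivity

theorem int_pow (j : ℕ) {c : ℝ} (hc : 0 < c) :
    ∫ z : ℂ, ‖z‖ ^ j * rexp (-(c * ‖z‖ ^ 2)) = π * c ^ (-((j:ℝ) + 2) / 2) *
      Real.Gamma (((j:ℝ) + 2) / 2) := by
  have h := Complex.integral_rpow_mul_exp_neg_mul_rpow (p := 2) (q := j) (b := c) (by norm_num)
    (by have : (0:ℝ) ≤ j := Nat.cast_nonneg j; linarith) hc
  rw [show 2 * π / 2 = π by ring] at h
  rw [← h]
  refine integral_congr_ae (Filter.Eventually.of_forall fun z => ?_)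
  dsimp only
  rw [Real.rpow_natCast, Real.rpow_two, neg_mul]

theorem intg_pow (j : ℕ) {c : ℝ} (hc : 0 < c) :
    Integrable (fun z : ℂ => ‖z‖ ^ j * rexp (-(c * ‖z‖ ^ 2))) := by
  by_contra h
  have h1 := integral_undef h
  rw [int_pow j hc] at h1
  have h2 : 0 < π * c ^ (-((j:ℝ) + 2) / 2) * Real.Gamma (((j:ℝ) + 2) / 2) := by
    have h3 : 0 < Real.Gamma (((j:ℝ) + 2) / 2) := Real.Gamma_pos_of_pos (by positivity)
    positivity
  linarith

theorem int_even (j : ℕ) {c : ℝ} (hc : 0 < c) :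
    ∫ z : ℂ, ‖z‖ ^ (2 * j) * rexp (-(c * ‖z‖ ^ 2)) = π * (Nat.factorial j) / c ^ (j + 1) := by
  rw [int_pow _ hc]
  have e1 : (((2 * j : ℕ) : ℝ) + 2) / 2 = (j:ℝ) + 1 := by push_cast; ring
  have e2 : -(((2 * j : ℕ) : ℝ) + 2) / 2 = -((j + 1 : ℕ) : ℝ) := by push_cast; ring
  rw [e1, e2, Real.Gamma_nat_eq_factorial, Real.rpow_neg hc.le, Real.rpow_natCast]
  field_simp

/-- the moments -/
theorem mom (a b : ℕ) {c : ℝ} (hc : 0 < c) :
    ∫ z : ℂ, z ^ a * conj z ^ b * (rexp (-(c * ‖z‖ ^ 2)) : ℂ) =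
      if a = b then ((π * (Nat.factorial a) / c ^ (a + 1) : ℝ) : ℂ) else 0 := by
  by_cases h : a = b
  · subst h
    rw [if_pos rfl, ← int_even a hc, ← integral_complex_ofReal]
    refine integral_congr_ae (Filter.Eventually.of_forall fun z => ?_)
    dsimp only
    rw [← mul_pow, Complex.mul_conj, Complex.normSq_eq_norm_sq]
    push_cast
    rw [pow_mul]
  · rw [if_neg h]
    set t : ℝ := π / ((a:ℝ) - b) with ht
    have hab : ((a:ℝ) - b) ≠ 0 := sub_ne_zero.2 (by exact_mod_cast h)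
    set u : Circle := Circle.exp t with hu
    have h1 : ∫ z : ℂ, (rotation u z) ^ a * conj (rotation u z) ^ b *
        (rexp (-(c * ‖rotation u z‖ ^ 2)) : ℂ) =
        ∫ z : ℂ, z ^ a * conj z ^ b * (rexp (-(c * ‖z‖ ^ 2)) : ℂ) := by
      have h2 := (rotation u).measurePreserving
      exact h2.integral_comp (rotation u).toHomeomorph.measurableEmbedding
        (fun z : ℂ => z ^ a * conj z ^ b * (rexp (-(c * ‖z‖ ^ 2)) : ℂ))
    have h3 : (u : ℂ) ^ a * conj (u : ℂ) ^ b = -1 := by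
      rw [hu, Circle.coe_exp, ← Complex.exp_conj, ← Complex.exp_nat_mul, ← Complex.exp_nat_mul,
        ← Complex.exp_add]
      have e : (a:ℂ) * (t * Complex.I) + (b:ℂ) * conj ((t:ℂ) * Complex.I) = π * Complex.I := by
        rw [map_mul, Complex.conj_ofReal, Complex.conj_I, ht]
        have hab' : ((a:ℂ) - b) ≠ 0 := by exact_mod_cast hab
        push_cast
        field_simp
        ring
      rw [e, Complex.exp_pi_mul_I]
    have h4 : ∀ z : ℂ, (rotation u z) ^ a * conj (rotation u z) ^ b *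
        (rexp (-(c * ‖rotation u z‖ ^ 2)) : ℂ) =
        -(z ^ a * conj z ^ b * (rexp (-(c * ‖z‖ ^ 2)) : ℂ)) := by
      intro z
      rw [LinearIsometryEquiv.norm_map, rotation_apply, map_mul, mul_pow, mul_pow]
      linear_combination (z ^ a * conj z ^ b * (rexp (-(c * ‖z‖ ^ 2)) : ℂ)) * h3
    simp only [h4] at h1
    rw [integral_neg] at h1
    linear_combination (-1/2 : ℂ) * h1

theorem momz (a b : ℕ) {c : ℝ} (hc : 0 < c) :
    ∫ x, zz x ^ a * conj (zz x) ^ b * (rexp (-(c * ‖zz x‖ ^ 2)) : ℂ) =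
      if a = b then ((π * (Nat.factorial a) / c ^ (a + 1) : ℝ) : ℂ) else 0 := by
  rw [← mom a b hc]
  exact int_zz (F := fun z => z ^ a * conj z ^ b * (rexp (-(c * ‖z‖ ^ 2)) : ℂ))

theorem zz_cont : Continuous zz := by unfold zz; fun_prop

theorem gi (i j m : ℕ) (q : Fin 2) {c : ℝ} (hc : 0 < c) :
    Integrable fun x : Fin 2 → ℝ => zz x ^ i * conj (zz x) ^ j * (x q : ℂ) ^ m *
      (rexp (-(c * ‖zz x‖ ^ 2)) : ℂ) := by
  have h1 : Integrable fun x : Fin 2 → ℝ => ‖zz x‖ ^ (i + j + m) * rexp (-(c * ‖zz x‖ ^ 2)) :=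
    mp_zz.integrable_comp_of_integrable (intg_pow (i + j + m) hc)
  refine h1.mono' ?_ (Filter.Eventually.of_forall fun x => ?_)
  · refine Continuous.aestronglyMeasurable ?_
    have := zz_cont
    fun_prop
  · rw [norm_mul, norm_mul, norm_mul, norm_pow, norm_pow, norm_pow, Complex.norm_conj,
      Complex.norm_real, Complex.norm_real, Real.norm_eq_abs, Real.norm_eq_abs, Real.abs_exp,
      pow_add, pow_add]
    refine mul_le_mul_of_nonneg_right ?_ (by positivity)
    exact mul_le_mul_of_nonneg_left (pow_le_pow_left₀ (abs_nonneg _) (abs_le_zz x q) _)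
      (by positivity)

theorem gi0 (i j : ℕ) {c : ℝ} (hc : 0 < c) :
    Integrable fun x : Fin 2 → ℝ => zz x ^ i * conj (zz x) ^ j *
      (rexp (-(c * ‖zz x‖ ^ 2)) : ℂ) := by
  have h := gi i j 0 0 hc
  simpa using h

/-- the normalization -/
noncomputable def cf (b : ℝ) (k : ℕ) : ℝ := √(b ^ (k + 1) / (π * Nat.factorial k))

theorem cf_sq {b : ℝ} (hb : 0 < b) (k : ℕ) : cf b k * cf b k = b ^ (k + 1) / (π * Nat.factorial k) :=
  Real.mul_self_sqrt (by positivity)

theorem cf_pos {b : ℝ} (hb : 0 < b) (k : ℕ) : 0 < cf b k := Real.sqrt_pos.2 (by positivity)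

/-- the normalized functions of the lowest Landau level -/
noncomputable def ez (b : ℝ) (k : ℕ) (x : Fin 2 → ℝ) : ℂ :=
  (cf b k : ℂ) * zz x ^ k * (rexp (-(b / 2 * ‖zz x‖ ^ 2)) : ℂ)

theorem ez_cont (b : ℝ) (k : ℕ) : Continuous (ez b k) := by
  have := zz_cont
  unfold ez
  fun_prop

theorem exp_half (b r : ℝ) : (rexp (-(b / 2 * r)) : ℂ) * (rexp (-(b / 2 * r)) : ℂ) =
    (rexp (-(b * r)) : ℂ) := by
  rw [← Complex.ofReal_mul, ← Real.exp_add]
  congr 2
  ring

theorem ez_mul (b : ℝ) (k l : ℕ) (x : Fin 2 → ℝ) : ez b k x * conj (ez b l x) =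
    ((cf b k * cf b l : ℝ) : ℂ) * (zz x ^ k * conj (zz x) ^ l *
      (rexp (-(b * ‖zz x‖ ^ 2)) : ℂ)) := by
  rw [← exp_half]
  unfold ez
  rw [map_mul, map_mul, map_pow, Complex.conj_ofReal, Complex.conj_ofReal]
  push_cast
  ring

theorem ez_int {b : ℝ} (hb : 0 < b) (k l : ℕ) :
    Integrable fun x => ez b k x * conj (ez b l x) := by
  simp only [ez_mul]
  exact (gi0 k l hb).const_mul _

theorem ez_ortho {b : ℝ} (hb : 0 < b) (k l : ℕ) :
    ∫ x, ez b k x * conj (ez b l x) = if k = l then 1 else 0 := by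
  simp only [ez_mul]
  rw [integral_const_mul, momz k l hb]
  by_cases h : k = l
  · subst h
    rw [if_pos rfl, if_pos rfl, cf_sq hb, ← Complex.ofReal_mul]
    rw [← Complex.ofReal_one]
    congr 1
    field_simp
  · rw [if_neg h, if_neg h, mul_zero]

/-- the quartic integrals -/
theorem ez_four {b : ℝ} (hb : 0 < b) (l k l' k' : ℕ) :
    Integrable (fun x => conj (ez b l x) * ez b l' x * (ez b k x * conj (ez b k' x))) ∧
    ∫ x, conj (ez b l x) * ez b l' x * (ez b k x * conj (ez b k' x)) =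
      if l + k' = l' + k then ((b / (2 * π) * W l k l' k' : ℝ) : ℂ) else 0 := by
  have h2b : 0 < 2 * b := by positivity
  have h1 : ∀ x, conj (ez b l x) * ez b l' x * (ez b k x * conj (ez b k' x)) =
      ((cf b l * cf b l' * (cf b k * cf b k') : ℝ) : ℂ) *
        (zz x ^ (l' + k) * conj (zz x) ^ (l + k') * (rexp (-(2 * b * ‖zz x‖ ^ 2)) : ℂ)) := by
    intro x
    rw [show conj (ez b l x) * ez b l' x = ez b l' x * conj (ez b l x) by ring, ez_mul, ez_mul]
    have h2 : (rexp (-(2 * b * ‖zz x‖ ^ 2)) : ℂ) =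
        (rexp (-(b * ‖zz x‖ ^ 2)) : ℂ) * (rexp (-(b * ‖zz x‖ ^ 2)) : ℂ) := by
      rw [← Complex.ofReal_mul, ← Real.exp_add]
      congr 2
      ring
    rw [h2]
    push_cast
    ring
  simp only [h1]
  refine ⟨(gi0 (l' + k) (l + k') h2b).const_mul _, ?_⟩
  rw [integral_const_mul, momz _ _ h2b]
  by_cases h : l + k' = l' + k
  · rw [if_pos h, if_pos h.symm, ← Complex.ofReal_mul]
    congr 1
    -- the squares of the constants
    have hpi := Real.pi_pos
    have hs : ∀ j : ℕ, cf b j = √(b ^ (j + 1)) / (√π * √(Nat.factorial j)) := by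
      intro j
      unfold cf
      rw [Real.sqrt_div (by positivity), Real.sqrt_mul (by positivity)]
    have hb4 : √(b ^ (l + 1)) * √(b ^ (l' + 1)) * (√(b ^ (k + 1)) * √(b ^ (k' + 1))) =
        b ^ (l + k' + 2) := by
      rw [← Real.sqrt_mul (by positivity), ← Real.sqrt_mul (by positivity),
        ← Real.sqrt_mul (by positivity)]
      have e : b ^ (l + 1) * b ^ (l' + 1) * (b ^ (k + 1) * b ^ (k' + 1)) =
          (b ^ (l + k' + 2)) ^ 2 := by
        rw [← pow_add, ← pow_add, ← pow_add, ← pow_mul]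
        congr 1
        omega
      rw [e, Real.sqrt_sq (by positivity)]
    have hp4 : √π * √π * (√π * √π) = π * π := by
      rw [Real.mul_self_sqrt hpi.le]
    rw [hs, hs, hs, hs]
    unfold W
    rw [← h]
    have e1 : √(b ^ (l + 1)) / (√π * √(Nat.factorial l)) *
        (√(b ^ (l' + 1)) / (√π * √(Nat.factorial l'))) *
        (√(b ^ (k + 1)) / (√π * √(Nat.factorial k)) *
        (√(b ^ (k' + 1)) / (√π * √(Nat.factorial k')))) =
        (√(b ^ (l + 1)) * √(b ^ (l' + 1)) * (√(b ^ (k + 1)) * √(b ^ (k' + 1)))) /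
        ((√π * √π * (√π * √π)) * (√(Nat.factorial l) * √(Nat.factorial k) *
        (√(Nat.factorial l') * √(Nat.factorial k')))) := by
      field_simp
    rw [e1, hb4, hp4, mul_pow]
    have f1 : (0:ℝ) < √(Nat.factorial l) := Real.sqrt_pos.2 (by positivity)
    have f2 : (0:ℝ) < √(Nat.factorial k) := Real.sqrt_pos.2 (by positivity)
    have f3 : (0:ℝ) < √(Nat.factorial l') := Real.sqrt_pos.2 (by positivity)
    have f4 : (0:ℝ) < √(Nat.factorial k') := Real.sqrt_pos.2 (by positivity)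
    field_simp
    ring
  · rw [if_neg h, if_neg (Ne.symm h), mul_zero]

end Pool.Agent.H45.LT.LL
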