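import Mathlib
import Pool.Agent.H45.LT.LL4

set_option autoImplicit false

/-!
# The derivatives of the functions of the lowest Landau level
-/

open MeasureTheory Real
open scoped ComplexConjugate

namespace Pool.Agent.H45.LT.LL

/-- the complex coordinate as a linear map -/
noncomputable def zzL : (Fin 2 → ℝ) →L[ℝ] ℂ :=
  Complex.ofRealCLM.comp (ContinuousLinearMap.proj (R := ℝ) (φ := fun _ : Fin 2 => ℝ) 0) +
    Complex.I • Complex.ofRealCLM.comp
      (ContinuousLinearMap.proj (R := ℝ) (φ := fun _ : Fin 2 => ℝ) 1)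

theorem zzL_apply (x : Fin 2 → ℝ) : zzL x = zz x := by
  simp [zzL, zz, mul_comm]

theorem zz_hd (x : Fin 2 → ℝ) : HasFDerivAt zz zzL x := by
  have h : zz = fun x => zzL x := funext fun x => (zzL_apply x).symm
  rw [h]
  exact zzL.hasFDerivAt

/-- the unit vectors -/
def eps (q : Fin 2) : ℂ := if q = 0 then 1 else Complex.I

theorem zz_single (q : Fin 2) : zz (Pi.single q 1) = eps q := by
  fin_cases q <;> simp [zz, eps]

/-- the partial derivatives -/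
noncomputable def dz (b : ℝ) (q : Fin 2) (k : ℕ) (x : Fin 2 → ℝ) : ℂ :=
  (cf b k : ℂ) * ((k:ℂ) * zz x ^ (k - 1) * eps q - b * (x q : ℂ) * zz x ^ k) *
    (rexp (-(b / 2 * ‖zz x‖ ^ 2)) : ℂ)

theorem gauss_hd (b : ℝ) (x : Fin 2 → ℝ) : HasFDerivAt (fun x : Fin 2 → ℝ =>
    rexp (-(b / 2 * ‖zz x‖ ^ 2))) (rexp (-(b / 2 * ‖zz x‖ ^ 2)) •
    (-(b * x 0) • (ContinuousLinearMap.proj (R := ℝ) (φ := fun _ : Fin 2 => ℝ) 0) +
     (-(b * x 1)) • (ContinuousLinearMap.proj (R := ℝ) (φ := fun _ : Fin 2 => ℝ) 1))) x := by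
  simp only [norm_zz]
  have h0 : HasFDerivAt (fun x : Fin 2 → ℝ => x 0)
      (ContinuousLinearMap.proj (R := ℝ) (φ := fun _ : Fin 2 => ℝ) 0) x := hasFDerivAt_apply 0 x
  have h1 : HasFDerivAt (fun x : Fin 2 → ℝ => x 1)
      (ContinuousLinearMap.proj (R := ℝ) (φ := fun _ : Fin 2 => ℝ) 1) x := hasFDerivAt_apply 1 x
  have h2 : HasFDerivAt (fun x : Fin 2 → ℝ => rexp (-(b / 2 * (x 0 ^ 2 + x 1 ^ 2)))) _ x :=
    ((((h0.pow 2).add (h1.pow 2)).const_mul (b / 2)).neg).exp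
  refine h2.congr_fderiv ?_
  ext v
  have e1 : rexp ((-fun y : Fin 2 → ℝ => b / 2 * (((fun x : Fin 2 → ℝ => x 0 ^ 2) +
      fun x : Fin 2 → ℝ => x 1 ^ 2) y)) x) = rexp (-(b / 2 * (x 0 ^ 2 + x 1 ^ 2))) := rfl
  simp only [_root_.add_apply, _root_.smul_apply, _root_.neg_apply, smul_eq_mul,
    ContinuousLinearMap.proj_apply, nsmul_eq_mul]
  rw [e1]
  push_cast
  ring

theorem ez_diff (b : ℝ) (k : ℕ) : Differentiable ℝ (ez b k) := by
  intro x
  unfold ez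
  have h1 := ((zz_hd x).pow k).differentiableAt
  have h2 : DifferentiableAt ℝ (fun x : Fin 2 → ℝ => (rexp (-(b / 2 * ‖zz x‖ ^ 2)) : ℂ)) x :=
    (Complex.ofRealCLM.hasFDerivAt.comp x (gauss_hd b x)).differentiableAt
  exact (h1.const_mul _).mul h2

theorem ez_fd (b : ℝ) (k : ℕ) (x : Fin 2 → ℝ) (q : Fin 2) :
    fderiv ℝ (ez b k) x (Pi.single q 1) = dz b q k x := by
  have h1 := ((zz_hd x).pow k).const_mul (cf b k : ℂ)
  have h2 : HasFDerivAt (fun x : Fin 2 → ℝ => (rexp (-(b / 2 * ‖zz x‖ ^ 2)) : ℂ)) _ x :=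
    Complex.ofRealCLM.hasFDerivAt.comp x (gauss_hd b x)
  have h3 := h1.mul h2
  have h4 : fderiv ℝ (ez b k) x = _ := h3.fderiv
  rw [h4]
  simp only [_root_.add_apply, _root_.smul_apply, ContinuousLinearMap.comp_apply,
    ContinuousLinearMap.proj_apply, smul_eq_mul, Complex.ofRealCLM_apply, zzL_apply, zz_single,
    nsmul_eq_mul]
  unfold dz
  fin_cases q
  · simp [eps]
    ring
  · simp [eps]
    ring

theorem eps_conj (q : Fin 2) : eps q * conj (eps q) = 1 := by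
  fin_cases q <;> simp [eps]

theorem dz_mul (b : ℝ) (q : Fin 2) (k l : ℕ) (x : Fin 2 → ℝ) :
    dz b q k x * conj (dz b q l x) = ((cf b k * cf b l : ℝ) : ℂ) * (
      ((k:ℂ) * l) * (zz x ^ (k - 1) * conj (zz x) ^ (l - 1) * (x q : ℂ) ^ 0 *
        (rexp (-(b * ‖zz x‖ ^ 2)) : ℂ)) -
      (b * k * eps q) * (zz x ^ (k - 1) * conj (zz x) ^ l * (x q : ℂ) ^ 1 *
        (rexp (-(b * ‖zz x‖ ^ 2)) : ℂ)) -
      (b * l * conj (eps q)) * (zz x ^ k * conj (zz x) ^ (l - 1) * (x q : ℂ) ^ 1 *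
        (rexp (-(b * ‖zz x‖ ^ 2)) : ℂ)) +
      ((b:ℂ) * b) * (zz x ^ k * conj (zz x) ^ l * (x q : ℂ) ^ 2 *
        (rexp (-(b * ‖zz x‖ ^ 2)) : ℂ))) := by
  rw [← exp_half]
  unfold dz
  simp only [map_mul, map_sub, map_pow, Complex.conj_ofReal, map_natCast]
  have h := eps_conj q
  push_cast
  linear_combination ((cf b k : ℂ) * (cf b l : ℂ) * ((k:ℂ) * l * (zz x ^ (k - 1) *
    conj (zz x) ^ (l - 1))) * (Complex.exp (-((b:ℂ) / 2 * (‖zz x‖:ℂ) ^ 2)) *
    Complex.exp (-((b:ℂ) / 2 * (‖zz x‖:ℂ) ^ 2)))) * h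

theorem dz_int {b : ℝ} (hb : 0 < b) (q : Fin 2) (k l : ℕ) :
    Integrable fun x => dz b q k x * conj (dz b q l x) := by
  simp only [dz_mul]
  exact (((((gi _ _ 0 q hb).const_mul _).sub ((gi _ _ 1 q hb).const_mul _)).sub
    ((gi _ _ 1 q hb).const_mul _)).add ((gi _ _ 2 q hb).const_mul _)).const_mul _

theorem zz_sum1 (x : Fin 2 → ℝ) : (x 0 : ℂ) * eps 0 + (x 1 : ℂ) * eps 1 = zz x := by
  simp [eps, zz]

theorem zz_sum2 (x : Fin 2 → ℝ) :
    (x 0 : ℂ) * conj (eps 0) + (x 1 : ℂ) * conj (eps 1) = conj (zz x) := by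
  simp [eps, zz]

theorem zz_sum3 (x : Fin 2 → ℝ) : (x 0 : ℂ) ^ 2 + (x 1 : ℂ) ^ 2 = zz x * conj (zz x) := by
  rw [Complex.mul_conj, Complex.normSq_eq_norm_sq, norm_zz]
  push_cast; ring

theorem kpow (k : ℕ) (z : ℂ) : (k:ℂ) * (z ^ (k - 1) * z) = k * z ^ k := by
  rcases k with _ | k
  · simp
  · rw [Nat.add_sub_cancel, pow_succ]

theorem dz_sum (b : ℝ) (k l : ℕ) (x : Fin 2 → ℝ) :
    dz b 0 k x * conj (dz b 0 l x) + dz b 1 k x * conj (dz b 1 l x) =
      ((cf b k * cf b l : ℝ) : ℂ) * (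
      (2 * (k:ℂ) * l) * (zz x ^ (k - 1) * conj (zz x) ^ (l - 1) *
        (rexp (-(b * ‖zz x‖ ^ 2)) : ℂ)) -
      (b * (k + l)) * (zz x ^ k * conj (zz x) ^ l * (rexp (-(b * ‖zz x‖ ^ 2)) : ℂ)) +
      ((b:ℂ) * b) * (zz x ^ (k + 1) * conj (zz x) ^ (l + 1) *
        (rexp (-(b * ‖zz x‖ ^ 2)) : ℂ))) := by
  rw [dz_mul, dz_mul]
  have h1 := zz_sum1 x
  have h2 := zz_sum2 x
  have h3 := zz_sum3 x
  have h4 := kpow k (zz x)
  have h5 := kpow l (conj (zz x))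
  set E : ℂ := (rexp (-(b * ‖zz x‖ ^ 2)) : ℂ)
  set c : ℂ := ((cf b k * cf b l : ℝ) : ℂ)
  linear_combination (-(c * b * k * zz x ^ (k - 1) * conj (zz x) ^ l * E)) * h1 -
    (c * b * l * zz x ^ k * conj (zz x) ^ (l - 1) * E) * h2 +
    (c * b * b * zz x ^ k * conj (zz x) ^ l * E) * h3 -
    (c * b * conj (zz x) ^ l * E) * h4 - (c * b * zz x ^ k * E) * h5

theorem dz_kin {b : ℝ} (hb : 0 < b) (k l : ℕ) :
    (∫ x, dz b 0 k x * conj (dz b 0 l x)) + (∫ x, dz b 1 k x * conj (dz b 1 l x)) =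
      if k = l then ((b * (k + 1) : ℝ) : ℂ) else 0 := by
  rw [← integral_add (dz_int hb 0 k l) (dz_int hb 1 k l)]
  simp only [dz_sum]
  rw [integral_const_mul, integral_add, integral_sub, integral_const_mul, integral_const_mul,
    integral_const_mul, momz _ _ hb, momz _ _ hb, momz _ _ hb]
  · by_cases h : k = l
    · subst h
      rw [if_pos rfl, if_pos rfl, if_pos rfl, if_pos rfl, cf_sq hb]
      rcases k with _ | k
      · simp
        have hb' : (b:ℂ) ≠ 0 := by exact_mod_cast hb.ne'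
        have hpi : (π:ℂ) ≠ 0 := by exact_mod_cast Real.pi_pos.ne'
        field_simp
      · rw [Nat.add_sub_cancel]
        have hb' : (b:ℂ) ≠ 0 := by exact_mod_cast hb.ne'
        have hpi : (π:ℂ) ≠ 0 := by exact_mod_cast Real.pi_pos.ne'
        have hf : ((Nat.factorial k : ℕ) : ℂ) ≠ 0 := by exact_mod_cast (Nat.factorial_pos k).ne'
        have hk : ((k:ℂ) + 1) ≠ 0 := by exact_mod_cast Nat.succ_ne_zero k
        rw [Nat.factorial_succ (k + 1), Nat.factorial_succ k]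
        push_cast
        field_simp
        ring
    · rw [if_neg h, if_neg h, if_neg (by omega : ¬ (k + 1 = l + 1))]
      by_cases h2 : k - 1 = l - 1
      · rw [if_pos h2]
        have h3 : k = 0 ∨ l = 0 := by omega
        rcases h3 with h3 | h3
        · subst h3; simp
        · subst h3; simp
      · rw [if_neg h2]; simp
  · exact (gi0 _ _ hb).const_mul _
  · exact (gi0 _ _ hb).const_mul _
  · exact ((gi0 _ _ hb).const_mul _).sub ((gi0 _ _ hb).const_mul _)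
  · exact (gi0 _ _ hb).const_mul _

end Pool.Agent.H45.LT.LL
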