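import Mathlib
import Pool.Agent.H45.LT.LL3
import Pool.Agent.H45.LT.LL5
import Pool.Agent.H45.LT.Ly4

set_option autoImplicit false

/-!
# The real and the complex Gram matrix; products of functions of the two groups of variables
-/

open MeasureTheory Real
open scoped ComplexConjugate Matrix
open LTd (Kcl Mat PSD specP)

namespace Pool.Agent.H45.LT.LL

open Ly (Gr RI Gr_psd RI_d RI_c RI_l RI_r Sp slice2C)

/-- a psd matrix of order `2 N`: the square of the real part of the trace form -/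
theorem psd_double {N : ℕ} {M : Mat (N + N)} (hM : PSD M) :
    ∑ i, ∑ j, M i j ^ 2 ≤ ∑ n : Fin N, ∑ n' : Fin N,
      ((M (Fin.castAdd N n) (Fin.castAdd N n') + M (Fin.natAdd N n) (Fin.natAdd N n')) ^ 2 +
       (M (Fin.castAdd N n) (Fin.natAdd N n') - M (Fin.natAdd N n) (Fin.castAdd N n')) ^ 2) := by
  obtain ⟨V, r, hV, hV', hr, hR⟩ := specP hM
  set A : Fin (N + N) → Fin (N + N) → ℝ := fun i c => √(r c) * V i c with hA
  have hMA : ∀ i j, M i j = ∑ c, A i c * A j c := by
    intro i j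
    have h1 : M i j = (V * Matrix.diagonal r * Vᵀ) i j := by rw [← hR]
    rw [h1, Matrix.mul_apply]
    refine Finset.sum_congr rfl fun c _ => ?_
    rw [Matrix.mul_diagonal, Matrix.transpose_apply, hA]
    dsimp only
    have h2 := Real.mul_self_sqrt (hr c)
    linear_combination (-(V i c * V j c)) * h2
  set a : Fin N → Fin (N + N) → ℝ := fun n c => A (Fin.castAdd N n) c with ha
  set b : Fin N → Fin (N + N) → ℝ := fun n c => A (Fin.natAdd N n) c with hb
  have e1 : ∀ n n', M (Fin.castAdd N n) (Fin.castAdd N n') = ∑ c, a n c * a n' c :=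
    fun n n' => hMA _ _
  have e2 : ∀ n n', M (Fin.natAdd N n) (Fin.natAdd N n') = ∑ c, b n c * b n' c :=
    fun n n' => hMA _ _
  have e3 : ∀ n n', M (Fin.castAdd N n) (Fin.natAdd N n') = ∑ c, a n c * b n' c :=
    fun n n' => hMA _ _
  have e4 : ∀ n n', M (Fin.natAdd N n) (Fin.castAdd N n') = ∑ c, b n c * a n' c :=
    fun n n' => hMA _ _
  set X : Fin (N + N) → Fin (N + N) → ℝ := fun c d => ∑ n, a n c * b n d with hX
  have h1 : ∑ n, ∑ n', (∑ c, a n c * a n' c) * (∑ d, b n d * b n' d) =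
      ∑ c, ∑ d, X c d * X c d := by
    have h2 : ∀ c d, X c d * X c d = ∑ n, ∑ n', (a n c * a n' c) * (b n d * b n' d) := by
      intro c d
      rw [hX]
      dsimp only
      rw [Finset.sum_mul_sum]
      exact Finset.sum_congr rfl fun n _ => Finset.sum_congr rfl fun n' _ => by ring
    simp only [h2, Finset.sum_mul_sum]
    rw [Finset.sum_congr rfl fun n _ => Finset.sum_comm, Finset.sum_comm]
    refine Finset.sum_congr rfl fun c _ => ?_
    rw [Finset.sum_congr rfl fun n _ => Finset.sum_comm, Finset.sum_comm]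
  have h2 : ∑ n, ∑ n', (∑ c, a n c * b n' c) * (∑ d, b n d * a n' d) =
      ∑ c, ∑ d, X c d * X d c := by
    have h2 : ∀ c d, X c d * X d c = ∑ n, ∑ n', (a n c * b n' c) * (b n d * a n' d) := by
      intro c d
      rw [hX]
      dsimp only
      rw [Finset.sum_mul_sum]
      exact Finset.sum_congr rfl fun n _ => Finset.sum_congr rfl fun n' _ => by ring
    simp only [h2, Finset.sum_mul_sum]
    rw [Finset.sum_congr rfl fun n _ => Finset.sum_comm, Finset.sum_comm]
    refine Finset.sum_congr rfl fun c _ => ?_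
    rw [Finset.sum_congr rfl fun n _ => Finset.sum_comm, Finset.sum_comm]
  have h3 : ∑ c, ∑ d, (X c d - X d c) ^ 2 =
      2 * (∑ c, ∑ d, X c d * X c d) - 2 * ∑ c, ∑ d, X c d * X d c := by
    have h4 : ∑ c, ∑ d, X d c * X d c = ∑ c, ∑ d, X c d * X c d := Finset.sum_comm
    have h5 : ∑ c, ∑ d, (X c d - X d c) ^ 2 = (∑ c, ∑ d, X c d * X c d) +
        (∑ c, ∑ d, X d c * X d c) - 2 * ∑ c, ∑ d, X c d * X d c := by
      rw [Finset.mul_sum, ← Finset.sum_add_distrib, ← Finset.sum_sub_distrib]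
      refine Finset.sum_congr rfl fun c _ => ?_
      rw [Finset.mul_sum, ← Finset.sum_add_distrib, ← Finset.sum_sub_distrib]
      exact Finset.sum_congr rfl fun d _ => by ring
    rw [h5, h4]; ring
  have h4 : 0 ≤ ∑ c, ∑ d, (X c d - X d c) ^ 2 :=
    Finset.sum_nonneg fun c _ => Finset.sum_nonneg fun d _ => sq_nonneg _
  have h5 : ∑ n : Fin N, ∑ n' : Fin N,
      ((M (Fin.castAdd N n) (Fin.castAdd N n') + M (Fin.natAdd N n) (Fin.natAdd N n')) ^ 2 +
       (M (Fin.castAdd N n) (Fin.natAdd N n') - M (Fin.natAdd N n) (Fin.castAdd N n')) ^ 2) =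
      (∑ i, ∑ j, M i j ^ 2) +
      (2 * (∑ n, ∑ n', (∑ c, a n c * a n' c) * (∑ d, b n d * b n' d)) -
        2 * ∑ n, ∑ n', (∑ c, a n c * b n' c) * (∑ d, b n d * a n' d)) := by
    have e5 : ∑ i, ∑ j, M i j ^ 2 = ∑ n : Fin N, ∑ n' : Fin N,
        (M (Fin.castAdd N n) (Fin.castAdd N n') ^ 2 + M (Fin.castAdd N n) (Fin.natAdd N n') ^ 2 +
        (M (Fin.natAdd N n) (Fin.castAdd N n') ^ 2 +
          M (Fin.natAdd N n) (Fin.natAdd N n') ^ 2)) := by
      rw [Fin.sum_univ_add, ← Finset.sum_add_distrib]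
      refine Finset.sum_congr rfl fun n _ => ?_
      rw [Fin.sum_univ_add, Fin.sum_univ_add, ← Finset.sum_add_distrib, ← Finset.sum_add_distrib,
        ← Finset.sum_add_distrib]
    rw [e5, Finset.mul_sum, Finset.mul_sum, ← Finset.sum_sub_distrib, ← Finset.sum_add_distrib]
    refine Finset.sum_congr rfl fun n _ => ?_
    rw [Finset.mul_sum, Finset.mul_sum, ← Finset.sum_sub_distrib, ← Finset.sum_add_distrib]
    refine Finset.sum_congr rfl fun n' _ => ?_
    rw [← e1, ← e2, ← e3, ← e4]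
    ring
  rw [h5, h1, h2]
  linarith

theorem gramC {m N : ℕ} {v : Fin N → (Fin m → ℝ) → ℂ} (hv : ∀ i, Continuous (v i))
    (hc : ∀ i, HasCompactSupport (v i)) :
    ∑ i, ∑ j, Gr (RI v) i j ^ 2 ≤ ∑ n, ∑ n', ‖∫ y, conj (v n y) * v n' y‖ ^ 2 := by
  have hcR : ∀ i, Continuous (RI v i) := by
    intro i
    refine Fin.addCases (fun i => ?_) (fun i => ?_) i
    · rw [RI_l]; exact Complex.continuous_re.comp (hv i)
    · rw [RI_r]; exact Complex.continuous_im.comp (hv i)
  refine (psd_double (Gr_psd (RI v) hcR (RI_c hc))).trans (le_of_eq ?_)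
  refine Finset.sum_congr rfl fun n _ => Finset.sum_congr rfl fun n' _ => ?_
  have hint : ∀ i j, Integrable fun y => RI v i y * RI v j y := fun i j =>
    ((hcR i).mul (hcR j)).integrable_of_hasCompactSupport ((RI_c hc i).mul_right)
  have hcx : Integrable fun y => conj (v n y) * v n' y := by
    have h1 : Continuous fun y => conj (v n y) * v n' y :=
      (Complex.continuous_conj.comp (hv n)).mul (hv n')
    have h2 : HasCompactSupport fun y => conj (v n y) * v n' y :=
      ((hc n).comp_left (g := fun z : ℂ => conj z) (by simp)).mul_right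
    exact h1.integrable_of_hasCompactSupport h2
  rw [Ly.normsq]
  have e1 : (∫ y, conj (v n y) * v n' y).re =
      Gr (RI v) (Fin.castAdd N n) (Fin.castAdd N n') +
        Gr (RI v) (Fin.natAdd N n) (Fin.natAdd N n') := by
    refine (integral_re hcx).symm.trans ?_
    simp only [Gr, Matrix.of_apply]
    rw [← integral_add (hint _ _) (hint _ _)]
    refine integral_congr_ae (Filter.Eventually.of_forall fun y => ?_)
    simp only [RI_l, RI_r]
    simp
  have e2 : (∫ y, conj (v n y) * v n' y).im =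
      Gr (RI v) (Fin.castAdd N n) (Fin.natAdd N n') -
        Gr (RI v) (Fin.natAdd N n) (Fin.castAdd N n') := by
    refine (integral_im hcx).symm.trans ?_
    simp only [Gr, Matrix.of_apply]
    rw [← integral_sub (hint _ _) (hint _ _)]
    refine integral_congr_ae (Filter.Eventually.of_forall fun y => ?_)
    simp only [RI_l, RI_r]
    simp
    ring
  rw [e1, e2]

/-! ### Products -/

variable {m : ℕ}

theorem yint {f g : (Fin m → ℝ) → ℂ} (hf : Continuous f) (hg : Continuous g)
    (hc : HasCompactSupport f) : Integrable fun y => conj (f y) * g y := by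
  have h1 : Continuous fun y => conj (f y) * g y :=
    (Complex.continuous_conj.comp hf).mul hg
  have h2 : HasCompactSupport fun y => conj (f y) * g y :=
    (hc.comp_left (g := fun z : ℂ => conj z) (by simp)).mul_right
  exact h1.integrable_of_hasCompactSupport h2

theorem prodC {g g' : ℕ → (Fin m → ℝ) → ℂ} (hg : ∀ a, Continuous (g a))
    (hg' : ∀ a, Continuous (g' a)) (hc : ∀ a, HasCompactSupport (g a)) (s : Finset ℕ)
    (A B : ℕ → (Fin 2 → ℝ) → ℂ) (hA : ∀ a b, Integrable fun x => B b x * conj (A a x)) :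
    Integrable (fun p : Sp m => conj (∑ a ∈ s, g a p.2 * A a p.1) * ∑ b ∈ s, g' b p.2 * B b p.1) ∧
    ∫ p : Sp m, conj (∑ a ∈ s, g a p.2 * A a p.1) * ∑ b ∈ s, g' b p.2 * B b p.1 =
      ∑ a ∈ s, ∑ b ∈ s, (∫ x, B b x * conj (A a x)) * ∫ y, conj (g a y) * g' b y := by
  have h1 : ∀ p : Sp m, conj (∑ a ∈ s, g a p.2 * A a p.1) * ∑ b ∈ s, g' b p.2 * B b p.1 =
      ∑ a ∈ s, ∑ b ∈ s, (B b p.1 * conj (A a p.1)) * (conj (g a p.2) * g' b p.2) := by
    intro p
    rw [map_sum, Finset.sum_mul_sum]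
    refine Finset.sum_congr rfl fun a _ => Finset.sum_congr rfl fun b _ => ?_
    rw [map_mul]; ring
  simp only [h1]
  have hi : ∀ a b, Integrable fun p : Sp m =>
      (B b p.1 * conj (A a p.1)) * (conj (g a p.2) * g' b p.2) := fun a b =>
    (hA a b).mul_prod (yint (hg a) (hg' b) (hc a))
  refine ⟨integrable_finsetSum _ fun a _ => integrable_finsetSum _ fun b _ => hi a b, ?_⟩
  rw [integral_finsetSum _ fun a _ => integrable_finsetSum _ fun b _ => hi a b]
  refine Finset.sum_congr rfl fun a _ => ?_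
  rw [integral_finsetSum _ fun b _ => hi a b]
  refine Finset.sum_congr rfl fun b _ => ?_
  exact integral_prod_mul (μ := (volume : Measure (Fin 2 → ℝ)))
    (ν := (volume : Measure (Fin m → ℝ))) (fun x => B b x * conj (A a x))
    (fun y => conj (g a y) * g' b y)

theorem conj_self (z : ℂ) : conj z * z = ((‖z‖ ^ 2 : ℝ) : ℂ) := by
  rw [mul_comm, Complex.mul_conj, Complex.normSq_eq_norm_sq]

theorem prodN {g : ℕ → (Fin m → ℝ) → ℂ} (hg : ∀ a, Continuous (g a))
    (hc : ∀ a, HasCompactSupport (g a)) (s : Finset ℕ)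
    (A : ℕ → (Fin 2 → ℝ) → ℂ) (hA : ∀ a b, Integrable fun x => A b x * conj (A a x)) :
    Integrable (fun p : Sp m => ‖∑ a ∈ s, g a p.2 * A a p.1‖ ^ 2) ∧
    ((∫ p : Sp m, ‖∑ a ∈ s, g a p.2 * A a p.1‖ ^ 2 : ℝ) : ℂ) =
      ∑ a ∈ s, ∑ b ∈ s, (∫ x, A b x * conj (A a x)) * ∫ y, conj (g a y) * g b y := by
  obtain ⟨h1, h2⟩ := prodC hg hg hc s A A hA
  simp only [conj_self] at h1 h2
  refine ⟨?_, ?_⟩
  · exact h1.re.congr (Filter.Eventually.of_forall fun p => Complex.ofReal_re _)
  · rw [← h2, integral_complex_ofReal]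

end Pool.Agent.H45.LT.LL
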