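import Mathlib
import Pool.Agent.H45.LT.LL6

set_option autoImplicit false

/-!
# The inequality on the slices for functions which need not have compact support
-/

open MeasureTheory Set Filter Topology Real
open scoped ComplexConjugate Matrix
open LTd (Kcl)

namespace Pool.Agent.H45.LT.Tr

open Ly (Gr RI slice2C)
open LL (gramC)

variable {m N : ℕ}

/-- a cutoff function -/
noncomputable def chi0 (m : ℕ) : ContDiffBump (0 : Fin m → ℝ) := ⟨1, 2, one_pos, one_lt_two⟩

/-- the scaled cutoff function -/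
noncomputable def chi (m k : ℕ) (y : Fin m → ℝ) : ℝ := chi0 m ((1 / ((k:ℝ) + 1)) • y)

theorem eps_pos (k : ℕ) : (0:ℝ) < 1 / ((k:ℝ) + 1) := by positivity

theorem chi_contDiff (m k : ℕ) : ContDiff ℝ 1 (chi m k) := by
  unfold chi
  exact (chi0 m).contDiff.comp (contDiff_const_smul _)

theorem chi_cs (m k : ℕ) : HasCompactSupport (chi m k) := by
  have h := (chi0 m).hasCompactSupport.comp_smul (eps_pos k).ne'
  exact h

theorem chi_nonneg (m k : ℕ) (y : Fin m → ℝ) : 0 ≤ chi m k y := (chi0 m).nonneg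

theorem chi_le_one (m k : ℕ) (y : Fin m → ℝ) : chi m k y ≤ 1 := (chi0 m).le_one

theorem chi_eventually (m : ℕ) (y : Fin m → ℝ) : ∀ᶠ k : ℕ in atTop, chi m k y = 1 := by
  obtain ⟨K, hK⟩ := exists_nat_gt ‖y‖
  filter_upwards [eventually_ge_atTop K] with k hk
  refine (chi0 m).one_of_mem_closedBall ?_
  rw [mem_closedBall_zero_iff, norm_smul, Real.norm_eq_abs, abs_of_pos (eps_pos k)]
  show 1 / ((k:ℝ) + 1) * ‖y‖ ≤ 1
  rw [one_div, inv_mul_le_iff₀ (by positivity), mul_one]
  have : (K:ℝ) ≤ k := by exact_mod_cast hk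
  linarith

theorem chi_bound (m : ℕ) : ∃ M : ℝ, 0 ≤ M ∧ ∀ (k : ℕ) (y : Fin m → ℝ) (q : Fin m),
    |fderiv ℝ (chi m k) y (Pi.single q 1)| ≤ M / ((k:ℝ) + 1) := by
  have hc : Continuous (fderiv ℝ (chi0 m)) :=
    ((chi0 m).contDiff (n := 1)).continuous_fderiv (by norm_num)
  have hs : HasCompactSupport (fderiv ℝ (chi0 m)) := (chi0 m).hasCompactSupport.fderiv (𝕜 := ℝ)
  obtain ⟨M, hM⟩ := hs.exists_bound_of_continuous hc
  refine ⟨|M|, abs_nonneg _, fun k y q => ?_⟩
  have h1 : HasFDerivAt (chi m k) ((fderiv ℝ (chi0 m) ((1 / ((k:ℝ) + 1)) • y)).comp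
      ((1 / ((k:ℝ) + 1)) • ContinuousLinearMap.id ℝ (Fin m → ℝ))) y := by
    have h2 : HasFDerivAt (chi0 m : (Fin m → ℝ) → ℝ) (fderiv ℝ (chi0 m)
        ((1 / ((k:ℝ) + 1)) • y)) ((1 / ((k:ℝ) + 1)) • y) :=
      (((chi0 m).contDiff (n := 1)).differentiable (by norm_num) _).hasFDerivAt
    have h3 : HasFDerivAt (fun y : Fin m → ℝ => (1 / ((k:ℝ) + 1)) • y)
        ((1 / ((k:ℝ) + 1)) • ContinuousLinearMap.id ℝ (Fin m → ℝ)) y :=
      ((1 / ((k:ℝ) + 1)) • ContinuousLinearMap.id ℝ (Fin m → ℝ)).hasFDerivAt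
    exact h2.comp y h3
  rw [h1.fderiv, ContinuousLinearMap.comp_apply, _root_.smul_apply,
    ContinuousLinearMap.id_apply, map_smul, smul_eq_mul, abs_mul, abs_of_pos (eps_pos k)]
  have h4 : |fderiv ℝ (chi0 m) ((1 / ((k:ℝ) + 1)) • y) (Pi.single q 1)| ≤ |M| := by
    have h5 := (fderiv ℝ (chi0 m) ((1 / ((k:ℝ) + 1)) • y)).le_opNorm (Pi.single q 1)
    have h6 : ‖(Pi.single q (1:ℝ) : Fin m → ℝ)‖ = 1 := by
      rw [Pi.norm_single, norm_one]
    rw [h6, mul_one, Real.norm_eq_abs] at h5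
    exact h5.trans ((hM _).trans (le_abs_self M))
  rw [div_eq_mul_one_div |M|, mul_comm]
  exact mul_le_mul_of_nonneg_right h4 (eps_pos k).le

theorem conj_int {f g : (Fin m → ℝ) → ℂ} (hf : Continuous f) (hg : Continuous g)
    (h2f : Integrable fun y => ‖f y‖ ^ 2) (h2g : Integrable fun y => ‖g y‖ ^ 2) :
    Integrable fun y => conj (f y) * g y := by
  refine (h2f.add h2g).mono' ((Complex.continuous_conj.comp hf).mul hg).aestronglyMeasurable
    (Eventually.of_forall fun y => ?_)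
  rw [norm_mul, RCLike.norm_conj, Pi.add_apply]
  nlinarith [sq_nonneg (‖f y‖ - ‖g y‖), sq_nonneg (‖f y‖), sq_nonneg (‖g y‖)]

/-- **The inequality on the slices.** -/
theorem slice_H1 {v : Fin N → (Fin m → ℝ) → ℂ} (hv : ∀ n, ContDiff ℝ 1 (v n))
    (h2 : ∀ n, Integrable fun y => ‖v n y‖ ^ 2)
    (h3 : ∀ n q, Integrable fun y => ‖fderiv ℝ (v n) y (Pi.single q 1)‖ ^ 2) :
    Integrable (fun y => (∑ n, ‖v n y‖ ^ 2) ^ (1 + 2 / ((m + 2 : ℕ) : ℝ))) ∧
    Kcl (m + 2) * ∫ y, (∑ n, ‖v n y‖ ^ 2) ^ (1 + 2 / ((m + 2 : ℕ) : ℝ)) ≤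
      (∑ n, ∑ q, ∫ y, ‖fderiv ℝ (v n) y (Pi.single q 1)‖ ^ 2) +
        2 * π * ∑ n, ∑ n', ‖∫ y, conj (v n y) * v n' y‖ ^ 2 := by
  have hK : 0 < Kcl (m + 2) := Pool.Agent.N674.LT.Kcl_pos (by omega)
  set pw : ℝ := 1 + 2 / ((m + 2 : ℕ) : ℝ) with hpw
  have hpw0 : 0 < pw := by rw [hpw]; positivity
  obtain ⟨M, hM0, hM⟩ := chi_bound m
  set w : ℕ → Fin N → (Fin m → ℝ) → ℂ := fun k n y => chi m k y • v n y with hw
  have hwd : ∀ k n, ContDiff ℝ 1 (w k n) := fun k n => (chi_contDiff m k).smul (hv n)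
  have hwc : ∀ k n, HasCompactSupport (w k n) := fun k n => (chi_cs m k).smul_right
  have hwn : ∀ k n y, ‖w k n y‖ ^ 2 = chi m k y ^ 2 * ‖v n y‖ ^ 2 := by
    intro k n y
    rw [hw]
    dsimp only
    rw [norm_smul, mul_pow, Real.norm_eq_abs, sq_abs]
  have hfd : ∀ k n y (q : Fin m), fderiv ℝ (w k n) y (Pi.single q 1) =
      chi m k y • fderiv ℝ (v n) y (Pi.single q 1) +
        (fderiv ℝ (chi m k) y (Pi.single q 1)) • v n y := by
    intro k n y q
    have e1 : DifferentiableAt ℝ (chi m k) y := (chi_contDiff m k).differentiable (by norm_num) y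
    have e2 : DifferentiableAt ℝ (v n) y := (hv n).differentiable (by norm_num) y
    have e3 : fderiv ℝ (w k n) y = _ := (e1.hasFDerivAt.smul e2.hasFDerivAt).fderiv
    rw [e3]
    simp only [_root_.add_apply, _root_.smul_apply, ContinuousLinearMap.smulRight_apply]
  -- the bounds for the cut off functions
  have hk : ∀ k, Kcl (m + 2) * ∫ y, (∑ n, ‖w k n y‖ ^ 2) ^ pw ≤
      (∑ n, ∑ q, ∫ y, ‖fderiv ℝ (w k n) y (Pi.single q 1)‖ ^ 2) +
        2 * π * ∑ n, ∑ n', ‖∫ y, conj (w k n y) * w k n' y‖ ^ 2 := by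
    intro k
    have h := slice2C (hwd k) (hwc k)
    have h' := gramC (fun n => (hwd k n).continuous) (hwc k)
    have h'' := mul_le_mul_of_nonneg_left h' (show (0:ℝ) ≤ 2 * π by positivity)
    linarith
  -- the limits
  have hchi : ∀ y : Fin m → ℝ, Tendsto (fun k => chi m k y) atTop (𝓝 1) := fun y =>
    tendsto_const_nhds.congr' ((chi_eventually m y).mono fun k hk => hk.symm)
  have hdchi : ∀ (y : Fin m → ℝ) (q : Fin m),
      Tendsto (fun k => fderiv ℝ (chi m k) y (Pi.single q 1)) atTop (𝓝 0) := by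
    intro y q
    refine squeeze_zero_norm (fun k => ?_) (a := fun k : ℕ => M / ((k:ℝ) + 1)) ?_
    · rw [Real.norm_eq_abs]; exact hM k y q
    · exact tendsto_const_div_atTop_nhds_zero_nat M |>.comp (tendsto_add_atTop_nat 1) |>.congr
        fun k => by simp
  have hlimd : ∀ n (q : Fin m), Tendsto (fun k => ∫ y, ‖fderiv ℝ (w k n) y (Pi.single q 1)‖ ^ 2)
      atTop (𝓝 (∫ y, ‖fderiv ℝ (v n) y (Pi.single q 1)‖ ^ 2)) := by
    intro n q
    refine tendsto_integral_of_dominated_convergence (fun y =>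
      2 * ‖fderiv ℝ (v n) y (Pi.single q 1)‖ ^ 2 + 2 * M ^ 2 * ‖v n y‖ ^ 2) (fun k => ?_)
      (((h3 n q).const_mul 2).add ((h2 n).const_mul (2 * M ^ 2))) (fun k => ?_) ?_
    · exact ((((hwd k n).continuous_fderiv (by norm_num)).clm_apply
        continuous_const).norm.pow 2).aestronglyMeasurable
    · refine Eventually.of_forall fun y => ?_
      rw [Real.norm_of_nonneg (sq_nonneg _), hfd]
      have a1 : ‖chi m k y • fderiv ℝ (v n) y (Pi.single q 1)‖ ≤
          ‖fderiv ℝ (v n) y (Pi.single q 1)‖ := by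
        rw [norm_smul, Real.norm_eq_abs, abs_of_nonneg (chi_nonneg m k y)]
        exact mul_le_of_le_one_left (norm_nonneg _) (chi_le_one m k y)
      have a2 : ‖fderiv ℝ (chi m k) y (Pi.single q 1) • v n y‖ ≤ M * ‖v n y‖ := by
        rw [norm_smul, Real.norm_eq_abs]
        refine mul_le_mul_of_nonneg_right ((hM k y q).trans ?_) (norm_nonneg _)
        exact div_le_self hM0 (by
          have : (0:ℝ) ≤ k := Nat.cast_nonneg k
          linarith)
      have a3 := norm_add_le (chi m k y • fderiv ℝ (v n) y (Pi.single q 1))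
        (fderiv ℝ (chi m k) y (Pi.single q 1) • v n y)
      have a4 : ‖chi m k y • fderiv ℝ (v n) y (Pi.single q 1) +
          fderiv ℝ (chi m k) y (Pi.single q 1) • v n y‖ ≤
          ‖fderiv ℝ (v n) y (Pi.single q 1)‖ + M * ‖v n y‖ := by linarith
      have a5 := pow_le_pow_left₀ (norm_nonneg _) a4 2
      nlinarith [sq_nonneg (‖fderiv ℝ (v n) y (Pi.single q 1)‖ - M * ‖v n y‖)]
    · refine Eventually.of_forall fun y => ?_
      have b1 : Tendsto (fun k => chi m k y • fderiv ℝ (v n) y (Pi.single q 1) +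
          fderiv ℝ (chi m k) y (Pi.single q 1) • v n y) atTop
          (𝓝 ((1:ℝ) • fderiv ℝ (v n) y (Pi.single q 1) + (0:ℝ) • v n y)) :=
        ((hchi y).smul_const _).add ((hdchi y q).smul_const _)
      rw [one_smul, zero_smul, add_zero] at b1
      simp only [hfd]
      exact (b1.norm).pow 2
  have hlimg : ∀ n n', Tendsto (fun k => ‖∫ y, conj (w k n y) * w k n' y‖ ^ 2)
      atTop (𝓝 (‖∫ y, conj (v n y) * v n' y‖ ^ 2)) := by
    intro n n'
    refine ((?_ : Tendsto (fun k => ∫ y, conj (w k n y) * w k n' y) atTop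
      (𝓝 (∫ y, conj (v n y) * v n' y))).norm).pow 2
    have hcc := conj_int (hv n).continuous (hv n').continuous (h2 n) (h2 n')
    refine tendsto_integral_of_dominated_convergence (fun y => ‖conj (v n y) * v n' y‖)
      (fun k => ?_) hcc.norm (fun k => ?_) ?_
    · exact ((Complex.continuous_conj.comp (hwd k n).continuous).mul
        (hwd k n').continuous).aestronglyMeasurable
    · refine Eventually.of_forall fun y => ?_
      rw [hw]
      dsimp only
      rw [norm_mul, norm_mul, RCLike.norm_conj, RCLike.norm_conj, norm_smul, norm_smul,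
        Real.norm_eq_abs, abs_of_nonneg (chi_nonneg m k y)]
      have c1 := chi_nonneg m k y
      have c2 := chi_le_one m k y
      exact mul_le_mul (mul_le_of_le_one_left (norm_nonneg _) c2)
        (mul_le_of_le_one_left (norm_nonneg _) c2) (by positivity) (norm_nonneg _)
    · refine Eventually.of_forall fun y => ?_
      have d1 : ∀ n, Tendsto (fun k => w k n y) atTop (𝓝 (v n y)) := by
        intro n
        have := (hchi y).smul_const (v n y)
        rwa [one_smul] at this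
      exact ((Complex.continuous_conj.tendsto _).comp (d1 n)).mul (d1 n')
  set B : ℝ := (∑ n, ∑ q, ∫ y, ‖fderiv ℝ (v n) y (Pi.single q 1)‖ ^ 2) +
        2 * π * ∑ n, ∑ n', ‖∫ y, conj (v n y) * v n' y‖ ^ 2 with hB
  set Bk : ℕ → ℝ := fun k => (∑ n, ∑ q, ∫ y, ‖fderiv ℝ (w k n) y (Pi.single q 1)‖ ^ 2) +
        2 * π * ∑ n, ∑ n', ‖∫ y, conj (w k n y) * w k n' y‖ ^ 2 with hBk
  have hlim : Tendsto Bk atTop (𝓝 B) := by
    refine Tendsto.add ?_ (Tendsto.const_mul _ ?_)
    · exact tendsto_finsetSum _ fun n _ => tendsto_finsetSum _ fun q _ => hlimd n q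
    · exact tendsto_finsetSum _ fun n _ => tendsto_finsetSum _ fun n' _ => hlimg n n'
  -- Fatou
  set F : (Fin m → ℝ) → ℝ := fun y => (∑ n, ‖v n y‖ ^ 2) ^ pw with hF
  set Fk : ℕ → (Fin m → ℝ) → ℝ := fun k y => (∑ n, ‖w k n y‖ ^ 2) ^ pw with hFk
  have hF0 : ∀ y, 0 ≤ F y := fun y =>
    Real.rpow_nonneg (Finset.sum_nonneg fun n _ => sq_nonneg _) _
  have hFk0 : ∀ k y, 0 ≤ Fk k y := fun k y =>
    Real.rpow_nonneg (Finset.sum_nonneg fun n _ => sq_nonneg _) _
  have hFc : Continuous F := by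
    refine Continuous.rpow_const ?_ fun p => Or.inr hpw0.le
    exact continuous_finsetSum _ fun n _ => ((hv n).continuous.norm.pow 2)
  have hFkc : ∀ k, Continuous (Fk k) := by
    intro k
    refine Continuous.rpow_const ?_ fun p => Or.inr hpw0.le
    exact continuous_finsetSum _ fun n _ => ((hwd k n).continuous.norm.pow 2)
  have hFks : ∀ k, HasCompactSupport (Fk k) := by
    intro k
    refine HasCompactSupport.intro (K := tsupport (chi m k)) (chi_cs m k) fun y hy => ?_
    have e : chi m k y = 0 := image_eq_zero_of_notMem_tsupport hy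
    show (∑ n, ‖w k n y‖ ^ 2) ^ pw = 0
    rw [Finset.sum_eq_zero fun n _ => ?_, Real.zero_rpow hpw0.ne']
    rw [hwn, e]; simp
  have hFki : ∀ k, Integrable (Fk k) := fun k =>
    (hFkc k).integrable_of_hasCompactSupport (hFks k)
  have hpt : ∀ y, Tendsto (fun k => ENNReal.ofReal (Fk k y)) atTop (𝓝 (ENNReal.ofReal (F y))) := by
    intro y
    refine tendsto_const_nhds.congr' ((chi_eventually m y).mono fun k hk => ?_)
    show ENNReal.ofReal (F y) = ENNReal.ofReal (Fk k y)
    rw [hF, hFk]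
    dsimp only
    simp only [hwn, hk, one_pow, one_mul]
  have hfat : ∫⁻ y, ENNReal.ofReal (F y) ≤ ENNReal.ofReal (B / Kcl (m + 2)) := by
    have f1 : ∀ y, ENNReal.ofReal (F y) = liminf (fun k => ENNReal.ofReal (Fk k y)) atTop :=
      fun y => (hpt y).liminf_eq.symm
    calc ∫⁻ y, ENNReal.ofReal (F y)
        = ∫⁻ y, liminf (fun k => ENNReal.ofReal (Fk k y)) atTop := lintegral_congr f1
      _ ≤ liminf (fun k => ∫⁻ y, ENNReal.ofReal (Fk k y)) atTop :=
          lintegral_liminf_le fun k => (hFkc k).measurable.ennreal_ofReal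
      _ ≤ liminf (fun k => ENNReal.ofReal (Bk k / Kcl (m + 2))) atTop := by
          refine liminf_le_liminf (Eventually.of_forall fun k => ?_)
          rw [← ofReal_integral_eq_lintegral_ofReal (hFki k) (Eventually.of_forall (hFk0 k))]
          refine ENNReal.ofReal_le_ofReal ?_
          rw [le_div_iff₀ hK, mul_comm]
          exact hk k
      _ = ENNReal.ofReal (B / Kcl (m + 2)) :=
          ((ENNReal.continuous_ofReal.tendsto _).comp (hlim.div_const _)).liminf_eq
  have hFi : Integrable F := by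
    refine ⟨hFc.aestronglyMeasurable, ?_⟩
    rw [hasFiniteIntegral_iff_ofReal (Eventually.of_forall hF0)]
    exact hfat.trans_lt ENNReal.ofReal_lt_top
  refine ⟨hFi, ?_⟩
  have hB0 : 0 ≤ B / Kcl (m + 2) := by
    refine div_nonneg ?_ hK.le
    rw [hB]
    refine add_nonneg (Finset.sum_nonneg fun n _ => Finset.sum_nonneg fun q _ =>
      integral_nonneg fun y => sq_nonneg _) ?_
    exact mul_nonneg (by positivity) (Finset.sum_nonneg fun n _ => Finset.sum_nonneg fun n' _ =>
      sq_nonneg _)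
  have g1 : ∫ y, F y ≤ B / Kcl (m + 2) := by
    rw [integral_eq_lintegral_of_nonneg_ae (Eventually.of_forall hF0) hFc.aestronglyMeasurable]
    exact ENNReal.toReal_le_of_le_ofReal hB0 hfat
  rw [le_div_iff₀ hK, mul_comm] at g1
  exact g1

end Pool.Agent.H45.LT.Tr
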