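import Mathlib

set_option autoImplicit false

/-!
# Finite sums of square integrable functions with time dependent phases
-/

open MeasureTheory Set Filter Topology Real
open scoped ComplexConjugate

namespace Pool.Agent.H45.LT.Tr

theorem conj_self' (z : ℂ) : z * conj z = ((‖z‖ ^ 2 : ℝ) : ℂ) := by
  rw [Complex.mul_conj, Complex.normSq_eq_norm_sq]

section

variable {X ι : Type*} [MeasurableSpace X] {μ : Measure X} {s : Finset ι} {Φ : ι → X → ℂ}

omit [MeasurableSpace X] in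
theorem quad_expand (c : ι → ℂ) (x : X) :
    ((‖∑ i ∈ s, c i * Φ i x‖ ^ 2 : ℝ) : ℂ) =
      ∑ i ∈ s, ∑ j ∈ s, (c i * conj (c j)) * (Φ i x * conj (Φ j x)) := by
  rw [← conj_self', map_sum, Finset.sum_mul_sum]
  refine Finset.sum_congr rfl fun i _ => Finset.sum_congr rfl fun j _ => ?_
  rw [map_mul]; ring

theorem quad_int (hi : ∀ i ∈ s, ∀ j ∈ s, Integrable (fun x => Φ i x * conj (Φ j x)) μ)
    (c : ι → ℂ) : Integrable (fun x => ‖∑ i ∈ s, c i * Φ i x‖ ^ 2) μ := by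
  have h1 : Integrable (fun x => ((‖∑ i ∈ s, c i * Φ i x‖ ^ 2 : ℝ) : ℂ)) μ := by
    simp only [quad_expand]
    exact integrable_finsetSum _ fun i hi' => integrable_finsetSum _ fun j hj =>
      (hi i hi' j hj).const_mul _
  exact h1.re.congr (Eventually.of_forall fun x => Complex.ofReal_re _)

theorem quad_eq (hi : ∀ i ∈ s, ∀ j ∈ s, Integrable (fun x => Φ i x * conj (Φ j x)) μ)
    (c : ι → ℂ) : ((∫ x, ‖∑ i ∈ s, c i * Φ i x‖ ^ 2 ∂μ : ℝ) : ℂ) =
      ∑ i ∈ s, ∑ j ∈ s, (c i * conj (c j)) * ∫ x, Φ i x * conj (Φ j x) ∂μ := by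
  rw [← integral_complex_ofReal]
  simp only [quad_expand]
  rw [integral_finsetSum _ fun i hi' => integrable_finsetSum _ fun j hj =>
      (hi i hi' j hj).const_mul _]
  refine Finset.sum_congr rfl fun i hi' => ?_
  rw [integral_finsetSum _ fun j hj => (hi i hi' j hj).const_mul _]
  exact Finset.sum_congr rfl fun j _ => integral_const_mul _ _

theorem quad_cont (hi : ∀ i ∈ s, ∀ j ∈ s, Integrable (fun x => Φ i x * conj (Φ j x)) μ)
    {c : ℝ → ι → ℂ} (hc : ∀ i, Continuous fun t => c t i) :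
    Continuous fun t => ∫ x, ‖∑ i ∈ s, c t i * Φ i x‖ ^ 2 ∂μ := by
  have h1 : (fun t => ∫ x, ‖∑ i ∈ s, c t i * Φ i x‖ ^ 2 ∂μ) = fun t =>
      (∑ i ∈ s, ∑ j ∈ s, (c t i * conj (c t j)) * ∫ x, Φ i x * conj (Φ j x) ∂μ).re := by
    funext t
    rw [← quad_eq hi, Complex.ofReal_re]
  rw [h1]
  refine Complex.continuous_re.comp (continuous_finsetSum _ fun i _ =>
    continuous_finsetSum _ fun j _ => ?_)
  exact ((hc i).mul (Complex.continuous_conj.comp (hc j))).mul continuous_const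

end

/-- the phases -/
noncomputable def ph (k : ℤ) (t : ℝ) : ℂ := Complex.exp ((k:ℂ) * Complex.I * t)

theorem ph_cont (k : ℤ) : Continuous (ph k) := by unfold ph; fun_prop

theorem ph_conj (k : ℤ) (t : ℝ) : conj (ph k t) = ph (-k) t := by
  unfold ph
  rw [← Complex.exp_conj]
  congr 1
  simp

theorem ph_mul (k l : ℤ) (t : ℝ) : ph k t * ph l t = ph (k + l) t := by
  unfold ph
  rw [← Complex.exp_add]
  congr 1
  push_cast
  ring

theorem ph_int (k : ℤ) : ∫ t in (0:ℝ)..(2 * π), ph k t = if k = 0 then ((2 * π : ℝ) : ℂ) else 0 := by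
  by_cases hk : k = 0
  · subst hk
    simp [ph]
  · rw [if_neg hk]
    have h1 : ((k:ℂ) * Complex.I) ≠ 0 := mul_ne_zero (by exact_mod_cast hk) Complex.I_ne_zero
    unfold ph
    rw [integral_exp_mul_complex h1]
    have h2 : Complex.exp ((k:ℂ) * Complex.I * ((2 * π : ℝ) : ℂ)) = 1 := by
      rw [Complex.exp_eq_one_iff]
      exact ⟨k, by push_cast; ring⟩
    rw [h2]
    simp

/-- **Parseval.** -/
theorem parseval {X ι : Type*} [MeasurableSpace X] {μ : Measure X} {s : Finset ι}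
    {Φ : ι → X → ℂ} {φ : ι → ℤ}
    (hφ : ∀ i ∈ s, ∀ j ∈ s, φ i = φ j → i = j)
    (hi : ∀ i ∈ s, ∀ j ∈ s, Integrable (fun x => Φ i x * conj (Φ j x)) μ) :
    ∫ t in (0:ℝ)..(2 * π), ∫ x, ‖∑ i ∈ s, ph (φ i) t * Φ i x‖ ^ 2 ∂μ =
      2 * π * ∑ i ∈ s, ∫ x, ‖Φ i x‖ ^ 2 ∂μ := by
  classical
  have h1 : ((∫ t in (0:ℝ)..(2 * π), ∫ x, ‖∑ i ∈ s, ph (φ i) t * Φ i x‖ ^ 2 ∂μ : ℝ) : ℂ) =
      ((2 * π * ∑ i ∈ s, ∫ x, ‖Φ i x‖ ^ 2 ∂μ : ℝ) : ℂ) := by
    rw [← intervalIntegral.integral_ofReal]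
    simp only [quad_eq hi]
    have hcont : ∀ i j, Continuous fun t : ℝ => (ph (φ i) t * conj (ph (φ j) t)) *
        ∫ x, Φ i x * conj (Φ j x) ∂μ := fun i j =>
      ((ph_cont _).mul (Complex.continuous_conj.comp (ph_cont _))).mul continuous_const
    rw [intervalIntegral.integral_finsetSum fun i _ =>
      (continuous_finsetSum _ fun j _ => hcont i j).intervalIntegrable _ _]
    rw [Complex.ofReal_mul, Complex.ofReal_sum, Finset.mul_sum]
    refine Finset.sum_congr rfl fun i hi' => ?_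
    rw [intervalIntegral.integral_finsetSum fun j _ => (hcont i j).intervalIntegrable _ _]
    have h2 : ∀ j ∈ s, ∫ t in (0:ℝ)..(2 * π), (ph (φ i) t * conj (ph (φ j) t)) *
        ∫ x, Φ i x * conj (Φ j x) ∂μ =
        if i = j then ((2 * π : ℝ) : ℂ) * ∫ x, Φ i x * conj (Φ i x) ∂μ else 0 := by
      intro j hj
      rw [intervalIntegral.integral_mul_const]
      simp only [ph_conj, ph_mul, ph_int]
      by_cases h : i = j
      · subst h
        rw [if_pos (by ring), if_pos rfl]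
      · rw [if_neg fun h' => h (hφ i hi' j hj (by linarith)), if_neg h, zero_mul]
    rw [Finset.sum_congr rfl h2, Finset.sum_ite_eq, if_pos hi']
    simp only [conj_self']
    rw [integral_complex_ofReal]
  exact Complex.ofReal_injective h1

end Pool.Agent.H45.LT.Tr
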