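import Mathlib
import Pool.Agent.H45.LT.Tr1
import Pool.Agent.H45.LT.Tr4
import Pool.Agent.H45.LT.Ly5

set_option autoImplicit false

/-!
# The functions on the product space
-/

open MeasureTheory Filter Topology Real Finset
open scoped ComplexConjugate ENNReal

namespace Pool.Agent.H45.LT.Tr

open Osc (st Psi rho dPsi)
open Ly (Sp)

variable {m J N K : ℕ} {c : Fin N → ℕ → ℕ → Fin J → ℂ} {ν : Fin N → ℝ}

/-! ### Products -/

theorem prod_int {A A' : (Fin 2 → ℝ) → ℂ} {B B' : (Fin m → ℝ) → ℂ}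
    (hA : MemLp A 2 volume) (hA' : MemLp A' 2 volume)
    (hB : MemLp B 2 volume) (hB' : MemLp B' 2 volume) :
    Integrable (fun p : Sp m => A p.1 * B p.2 * conj (A' p.1 * B' p.2)) ∧
    ∫ p : Sp m, A p.1 * B p.2 * conj (A' p.1 * B' p.2) =
      (∫ x, A x * conj (A' x)) * ∫ y, B y * conj (B' y) := by
  have h1 : (fun p : Sp m => A p.1 * B p.2 * conj (A' p.1 * B' p.2)) =
      fun p : Sp m => (A p.1 * conj (A' p.1)) * (B p.2 * conj (B' p.2)) := by
    funext p
    rw [map_mul]; ring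
  rw [h1]
  exact ⟨(L2_prod hA hA').mul_prod (L2_prod hB hB'),
    integral_prod_mul (μ := (volume : Measure (Fin 2 → ℝ)))
      (ν := (volume : Measure (Fin m → ℝ))) (fun x => A x * conj (A' x))
      (fun y => B y * conj (B' y))⟩

theorem prod_L2 {A : (Fin 2 → ℝ) → ℂ} {B : (Fin m → ℝ) → ℂ} (hA : MemLp A 2 volume)
    (hB : MemLp B 2 volume) (hm : AEStronglyMeasurable (fun p : Sp m => A p.1 * B p.2) volume) :
    MemLp (fun p : Sp m => A p.1 * B p.2) 2 volume := by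
  rw [memLp_two_iff_integrable_sq_norm hm]
  have h := (prod_int hA hA hB hB).1
  simp only [conj_self'] at h
  exact h.re.congr (Eventually.of_forall fun x => Complex.ofReal_re _)

/-- the family of the transversal functions -/
structure Fam {m J : ℕ} (e : Fin J → (Fin m → ℝ) → ℂ) : Prop where
  cd : ∀ j, ContDiff ℝ 1 (e j)
  L2 : ∀ j, Integrable fun y => ‖e j y‖ ^ 2
  dL2 : ∀ j q, Integrable fun y => ‖fderiv ℝ (e j) y (Pi.single q 1)‖ ^ 2
  ortho : ∀ i j, ∫ y, conj (e i y) * e j y = if i = j then 1 else 0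

variable {e : Fin J → (Fin m → ℝ) → ℂ}

theorem Fam.mem (F : Fam e) (j : Fin J) : MemLp (e j) 2 volume :=
  (memLp_two_iff_integrable_sq_norm (F.cd j).continuous.aestronglyMeasurable).2 (F.L2 j)

theorem Fam.dcont (F : Fam e) (j : Fin J) (q : Fin m) :
    Continuous fun y => fderiv ℝ (e j) y (Pi.single q 1) :=
  ((F.cd j).continuous_fderiv (by norm_num)).clm_apply continuous_const

theorem Fam.dmem (F : Fam e) (j : Fin J) (q : Fin m) :
    MemLp (fun y => fderiv ℝ (e j) y (Pi.single q 1)) 2 volume :=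
  (memLp_two_iff_integrable_sq_norm (F.dcont j q).aestronglyMeasurable).2 (F.dL2 j q)

theorem Fam.ortho' (F : Fam e) (i j : Fin J) :
    ∫ y, e i y * conj (e j y) = if i = j then 1 else 0 := by
  rw [← show (∫ y, conj (e j y) * e i y) = ∫ y, e i y * conj (e j y) from
    integral_congr_ae (Eventually.of_forall fun y => mul_comm _ _), F.ortho]
  simp only [eq_comm]

/-! ### The coefficients as functions in the plane -/

/-- the coefficients at the time `t` -/
noncomputable def kap (K : ℕ) (c : Fin N → ℕ → ℕ → Fin J → ℂ) (g : Fin J → ℝ) (n : Fin N)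
    (j : Fin J) (t : ℝ) (x : Fin 2 → ℝ) : ℂ :=
  Complex.exp (-(g j * t * Complex.I)) * ∑ l ∈ range K, ph (-(l:ℤ)) t * FF c n l j x

/-- the derivatives of the components -/
noncomputable def DF (c : Fin N → ℕ → ℕ → Fin J → ℂ) (q : Fin 2) (n : Fin N) (l : ℕ) (j : Fin J)
    (x : Fin 2 → ℝ) : ℂ := ∑ a ∈ range (l + 1), c n l a j * (dPsi q l a x : ℂ)

/-- the derivatives of the coefficients at the time `t` -/
noncomputable def dkap (K : ℕ) (c : Fin N → ℕ → ℕ → Fin J → ℂ) (g : Fin J → ℝ) (q : Fin 2)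
    (n : Fin N) (j : Fin J) (t : ℝ) (x : Fin 2 → ℝ) : ℂ :=
  Complex.exp (-(g j * t * Complex.I)) * ∑ l ∈ range K, ph (-(l:ℤ)) t * DF c q n l j x

theorem st_diff (k : ℕ) (c : ℕ → ℂ) : Differentiable ℝ (st k c) := fun x =>
  (Osc.st_analytic k c x (Set.mem_univ x)).differentiableAt

theorem kap_hd (c : Fin N → ℕ → ℕ → Fin J → ℂ) (g : Fin J → ℝ) (n : Fin N)
    (j : Fin J) (t : ℝ) (x : Fin 2 → ℝ) : HasFDerivAt (kap K c g n j t)
      (Complex.exp (-(g j * t * Complex.I)) • ∑ l ∈ range K, ph (-(l:ℤ)) t •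
        fderiv ℝ (st l fun a => c n l a j) x) x := by
  unfold kap FF
  exact (HasFDerivAt.fun_sum fun l _ => ((st_diff l _ x).hasFDerivAt).const_mul _).const_mul _

theorem kap_fd (c : Fin N → ℕ → ℕ → Fin J → ℂ) (g : Fin J → ℝ) (q : Fin 2) (n : Fin N)
    (j : Fin J) (t : ℝ) (x : Fin 2 → ℝ) :
    fderiv ℝ (kap K c g n j t) x (Pi.single q 1) = dkap K c g q n j t x := by
  rw [(kap_hd c g n j t x).fderiv, _root_.smul_apply, _root_.sum_apply, smul_eq_mul]
  unfold dkap DF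
  congr 1
  refine sum_congr rfl fun l _ => ?_
  rw [_root_.smul_apply, smul_eq_mul, Osc.st_fderiv]

theorem FF_cont (c : Fin N → ℕ → ℕ → Fin J → ℂ) (n : Fin N) (l : ℕ) (j : Fin J) :
    Continuous (FF c n l j) := Osc.st_cont l _

theorem DF_cont (c : Fin N → ℕ → ℕ → Fin J → ℂ) (q : Fin 2) (n : Fin N) (l : ℕ) (j : Fin J) :
    Continuous (DF c q n l j) := by
  unfold DF
  exact continuous_finsetSum _ fun a _ => continuous_const.mul
    (Complex.continuous_ofReal.comp (dPsi_cont q l a))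

theorem DF_L2 (c : Fin N → ℕ → ℕ → Fin J → ℂ) (q : Fin 2) (n : Fin N) (l : ℕ) (j : Fin J) :
    MemLp (DF c q n l j) 2 volume := by
  have h : MemLp (fun x => ∑ a ∈ range (l + 1), c n l a j * (dPsi q l a x : ℂ)) 2 volume :=
    memLp_finsetSum _ fun a _ => (dPsi_L2 q l a).const_mul _
  exact h

theorem kap_cont (c : Fin N → ℕ → ℕ → Fin J → ℂ) (g : Fin J → ℝ) (n : Fin N)
    (j : Fin J) (t : ℝ) : Continuous (kap K c g n j t) := by
  unfold kap
  exact continuous_const.mul (continuous_finsetSum _ fun l _ =>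
    continuous_const.mul (FF_cont c n l j))

theorem dkap_cont (c : Fin N → ℕ → ℕ → Fin J → ℂ) (g : Fin J → ℝ) (q : Fin 2) (n : Fin N)
    (j : Fin J) (t : ℝ) : Continuous (dkap K c g q n j t) := by
  unfold dkap
  exact continuous_const.mul (continuous_finsetSum _ fun l _ =>
    continuous_const.mul (DF_cont c q n l j))

theorem kap_L2 (c : Fin N → ℕ → ℕ → Fin J → ℂ) (g : Fin J → ℝ) (n : Fin N)
    (j : Fin J) (t : ℝ) : MemLp (kap K c g n j t) 2 volume := by
  have h : MemLp (fun x => Complex.exp (-(g j * t * Complex.I)) *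
      ∑ l ∈ range K, ph (-(l:ℤ)) t * FF c n l j x) 2 volume :=
    (memLp_finsetSum _ fun l _ => (FF_L2 c n l j).const_mul _).const_mul _
  exact h

theorem dkap_L2 (c : Fin N → ℕ → ℕ → Fin J → ℂ) (g : Fin J → ℝ) (q : Fin 2) (n : Fin N)
    (j : Fin J) (t : ℝ) : MemLp (dkap K c g q n j t) 2 volume := by
  have h : MemLp (fun x => Complex.exp (-(g j * t * Complex.I)) *
      ∑ l ∈ range K, ph (-(l:ℤ)) t * DF c q n l j x) 2 volume :=
    (memLp_finsetSum _ fun l _ => (DF_L2 c q n l j).const_mul _).const_mul _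
  exact h

theorem norm_phase (r t : ℝ) : ‖Complex.exp (-(r * t * Complex.I))‖ = 1 := by
  have h : -((r:ℂ) * t * Complex.I) = ((-(r * t) : ℝ) : ℂ) * Complex.I := by push_cast; ring
  rw [h, Complex.norm_exp_ofReal_mul_I]

/-! ### The functions -/

/-- the functions on the product space at the time `t` -/
noncomputable def UT (K : ℕ) (c : Fin N → ℕ → ℕ → Fin J → ℂ) (g : Fin J → ℝ)
    (e : Fin J → (Fin m → ℝ) → ℂ) (t : ℝ) (n : Fin N) (p : Sp m) : ℂ :=
  ∑ j, kap K c g n j t p.1 * e j p.2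

theorem UT_cont (F : Fam e) (c : Fin N → ℕ → ℕ → Fin J → ℂ) (g : Fin J → ℝ) (t : ℝ) (n : Fin N) :
    Continuous (UT K c g e t n) := by
  unfold UT
  exact continuous_finsetSum _ fun j _ => ((kap_cont c g n j t).comp continuous_fst).mul
    ((F.cd j).continuous.comp continuous_snd)

theorem UT_hd (F : Fam e) (c : Fin N → ℕ → ℕ → Fin J → ℂ) (g : Fin J → ℝ) (t : ℝ) (n : Fin N)
    (p : Sp m) : HasFDerivAt (UT K c g e t n) (∑ j,
      (kap K c g n j t p.1 • ((fderiv ℝ (e j) p.2).comp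
        (ContinuousLinearMap.snd ℝ (Fin 2 → ℝ) (Fin m → ℝ))) +
      (e j p.2) • ((fderiv ℝ (kap K c g n j t) p.1).comp
        (ContinuousLinearMap.fst ℝ (Fin 2 → ℝ) (Fin m → ℝ))))) p := by
  unfold UT
  refine HasFDerivAt.fun_sum fun j _ => ?_
  have h1 : HasFDerivAt (fun p : Sp m => e j p.2) ((fderiv ℝ (e j) p.2).comp
      (ContinuousLinearMap.snd ℝ (Fin 2 → ℝ) (Fin m → ℝ))) p :=
    (((F.cd j).differentiable (by norm_num)) p.2).hasFDerivAt.comp p hasFDerivAt_snd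
  have h2 : HasFDerivAt (fun p : Sp m => kap K c g n j t p.1)
      ((fderiv ℝ (kap K c g n j t) p.1).comp
        (ContinuousLinearMap.fst ℝ (Fin 2 → ℝ) (Fin m → ℝ))) p :=
    (kap_hd c g n j t p.1).differentiableAt.hasFDerivAt.comp p hasFDerivAt_fst
  exact h2.mul h1

theorem UT_dx (F : Fam e) (c : Fin N → ℕ → ℕ → Fin J → ℂ) (g : Fin J → ℝ) (t : ℝ) (n : Fin N)
    (p : Sp m) (q : Fin 2) : fderiv ℝ (UT K c g e t n) p (Pi.single q 1, 0) =
      ∑ j, dkap K c g q n j t p.1 * e j p.2 := by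
  rw [(UT_hd F c g t n p).fderiv, _root_.sum_apply]
  refine sum_congr rfl fun j _ => ?_
  simp only [_root_.add_apply, _root_.smul_apply, ContinuousLinearMap.comp_apply,
    ContinuousLinearMap.coe_fst', ContinuousLinearMap.coe_snd', map_zero,
    kap_fd, smul_eq_mul, mul_zero, zero_add]
  ring

theorem UT_dy (F : Fam e) (c : Fin N → ℕ → ℕ → Fin J → ℂ) (g : Fin J → ℝ) (t : ℝ) (n : Fin N)
    (p : Sp m) (q : Fin m) : fderiv ℝ (UT K c g e t n) p (0, Pi.single q 1) =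
      ∑ j, kap K c g n j t p.1 * fderiv ℝ (e j) p.2 (Pi.single q 1) := by
  rw [(UT_hd F c g t n p).fderiv, _root_.sum_apply]
  refine sum_congr rfl fun j _ => ?_
  simp only [_root_.add_apply, _root_.smul_apply, ContinuousLinearMap.comp_apply,
    ContinuousLinearMap.coe_fst', ContinuousLinearMap.coe_snd', map_zero,
    smul_eq_mul, mul_zero, add_zero]

/-! ### The kinetic energy in the plane -/

theorem prod_ortho (F : Fam e) {A : Fin J → (Fin 2 → ℝ) → ℂ} (hA : ∀ j, MemLp (A j) 2 volume) :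
    ∫ p : Sp m, ‖∑ j, A j p.1 * e j p.2‖ ^ 2 = ∑ j, ∫ x, ‖A j x‖ ^ 2 := by
  have h := quad_eq (s := (univ : Finset (Fin J))) (μ := (volume : Measure (Sp m)))
    (Φ := fun j p => A j p.1 * e j p.2)
    (fun i _ j _ => (prod_int (hA i) (hA j) (F.mem i) (F.mem j)).1) (fun _ => 1)
  simp only [one_mul, map_one] at h
  have h2 : ((∫ p : Sp m, ‖∑ j, A j p.1 * e j p.2‖ ^ 2 : ℝ) : ℂ) =
      ((∑ j, ∫ x, ‖A j x‖ ^ 2 : ℝ) : ℂ) := by
    rw [h, Complex.ofReal_sum]
    refine sum_congr rfl fun i hi => ?_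
    have h3 : ∀ j, ∫ p : Sp m, A i p.1 * e i p.2 * conj (A j p.1 * e j p.2) =
        if i = j then ∫ x, A i x * conj (A i x) else 0 := by
      intro j
      rw [(prod_int (hA i) (hA j) (F.mem i) (F.mem j)).2, F.ortho']
      split_ifs with h4
      · rw [h4, mul_one]
      · rw [mul_zero]
    rw [sum_congr rfl fun j _ => h3 j, sum_ite_eq, if_pos hi]
    simp only [conj_self']
    rw [integral_complex_ofReal]
  exact Complex.ofReal_injective h2

theorem dkap_sq (c : Fin N → ℕ → ℕ → Fin J → ℂ) (g : Fin J → ℝ) (q : Fin 2) (n : Fin N)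
    (j : Fin J) (t : ℝ) (x : Fin 2 → ℝ) : ‖dkap K c g q n j t x‖ ^ 2 =
      ‖∑ l ∈ range K, ph (-(l:ℤ)) t * DF c q n l j x‖ ^ 2 := by
  unfold dkap
  rw [norm_mul, norm_phase, one_mul]

/-- the kinetic energy in the plane at the time `t` -/
noncomputable def kx (K : ℕ) (c : Fin N → ℕ → ℕ → Fin J → ℂ) (ν : Fin N → ℝ) (t : ℝ) : ℝ :=
  ∑ n, ν n * ∑ q : Fin 2, ∑ j, ∫ x, ‖∑ l ∈ range K, ph (-(l:ℤ)) t * DF c q n l j x‖ ^ 2

theorem UT_kx (F : Fam e) (c : Fin N → ℕ → ℕ → Fin J → ℂ) (g : Fin J → ℝ) (ν : Fin N → ℝ)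
    (t : ℝ) : ∑ n, ν n * ∑ q : Fin 2, ∫ p : Sp m, ‖fderiv ℝ (UT K c g e t n) p
      (Pi.single q 1, 0)‖ ^ 2 = kx K c ν t := by
  unfold kx
  refine sum_congr rfl fun n _ => ?_
  congr 1
  refine sum_congr rfl fun q _ => ?_
  simp only [UT_dx F]
  rw [prod_ortho F fun j => dkap_L2 c g q n j t]
  simp only [dkap_sq]

theorem term_cont (c : Fin N → ℕ → ℕ → Fin J → ℂ) (q : Fin 2) (n : Fin N) (j : Fin J) :
    Continuous fun t => ∫ x, ‖∑ l ∈ range K, ph (-(l:ℤ)) t * DF c q n l j x‖ ^ 2 :=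
  quad_cont (fun l _ l' _ => L2_prod (DF_L2 c q n l j) (DF_L2 c q n l' j)) fun _ => ph_cont _

theorem kx_cont (K : ℕ) (c : Fin N → ℕ → ℕ → Fin J → ℂ) (ν : Fin N → ℝ) :
    Continuous (kx K c ν) := by
  unfold kx
  exact continuous_finsetSum _ fun n _ => continuous_const.mul
    (continuous_finsetSum _ fun q _ => continuous_finsetSum _ fun j _ => term_cont c q n j)

theorem kx_time (K : ℕ) (c : Fin N → ℕ → ℕ → Fin J → ℂ) (ν : Fin N → ℝ) :
    ∫ t in (0:ℝ)..(2 * π), kx K c ν t = 2 * π * TX K c ν := by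
  unfold kx TX
  have hc2 : ∀ (n : Fin N) (q : Fin 2), Continuous fun t => ∑ j, ∫ x,
      ‖∑ l ∈ range K, ph (-(l:ℤ)) t * DF c q n l j x‖ ^ 2 := fun n q =>
    continuous_finsetSum _ fun j _ => term_cont c q n j
  have hc1 : ∀ n : Fin N, Continuous fun t => ν n * ∑ q : Fin 2, ∑ j, ∫ x,
      ‖∑ l ∈ range K, ph (-(l:ℤ)) t * DF c q n l j x‖ ^ 2 := fun n =>
    continuous_const.mul (continuous_finsetSum _ fun q _ => hc2 n q)
  rw [intervalIntegral.integral_finsetSum fun n _ => (hc1 n).intervalIntegrable _ _, mul_sum]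
  refine sum_congr rfl fun n _ => ?_
  rw [intervalIntegral.integral_const_mul, mul_left_comm]
  congr 1
  rw [intervalIntegral.integral_finsetSum fun q _ => (hc2 n q).intervalIntegrable _ _]
  have h1 : ∀ q : Fin 2, ∫ t in (0:ℝ)..(2 * π), ∑ j, ∫ x,
      ‖∑ l ∈ range K, ph (-(l:ℤ)) t * DF c q n l j x‖ ^ 2 =
      ∑ j, 2 * π * ∑ l ∈ range K, ∫ x, ‖DF c q n l j x‖ ^ 2 := by
    intro q
    rw [intervalIntegral.integral_finsetSum fun j _ => (term_cont c q n j).intervalIntegrable _ _]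
    refine sum_congr rfl fun j _ => ?_
    exact parseval (φ := fun l : ℕ => -(l:ℤ)) (fun l _ l' _ h => by
      have h' : -(l:ℤ) = -(l':ℤ) := h
      omega) (fun l _ l' _ => L2_prod (DF_L2 c q n l j) (DF_L2 c q n l' j))
  simp only [h1]
  rw [sum_comm]
  simp only [← mul_sum]
  congr 1
  have h2 : ∀ j, ∑ q : Fin 2, ∑ l ∈ range K, ∫ x, ‖DF c q n l j x‖ ^ 2 =
      ∑ l ∈ range K, ((l:ℝ) + 1) * ∑ a ∈ range (l + 1), ‖c n l a j‖ ^ 2 := by
    intro j
    rw [sum_comm]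
    refine sum_congr rfl fun l _ => ?_
    have h3 := Osc.st_kin l fun a => c n l a j
    simp only [Osc.st_fderiv] at h3
    exact h3
  rw [sum_congr rfl fun j _ => h2 j, sum_comm]
  exact sum_congr rfl fun l _ => by rw [mul_sum]

end Pool.Agent.H45.LT.Tr
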