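import Mathlib
import Pool.Agent.H45.LT.Tr5

set_option autoImplicit false

/-!
# The inequality at a fixed time, and its average over the time
-/

open MeasureTheory Filter Topology Real Finset
open scoped ComplexConjugate ENNReal
open LTd (Kcl)

namespace Pool.Agent.H45.LT.Tr

open Osc (st Psi rho dPsi)
open Ly (Sp)

variable {m J N K : ℕ} {c : Fin N → ℕ → ℕ → Fin J → ℂ} {ν : Fin N → ℝ}
  {e : Fin J → (Fin m → ℝ) → ℂ}

/-! ### Orthonormality -/

theorem Psi_ortho {l a l' a' : ℕ} (ha : a ≤ l) (ha' : a' ≤ l') :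
    ∫ x, (Psi l a x : ℂ) * conj (Psi l' a' x : ℂ) = if l = l' ∧ a = a' then 1 else 0 := by
  have h1 : ∀ x, (Psi l a x : ℂ) * conj (Psi l' a' x : ℂ) = ((Psi l a x * Psi l' a' x : ℝ) : ℂ) := by
    intro x
    rw [Complex.conj_ofReal]; push_cast; rfl
  simp only [h1]
  rw [integral_complex_ofReal]
  simp only [Osc.Psi_mul]
  rw [Osc.G_eq, Osc.ortho, Osc.ortho]
  by_cases h2 : a = a'
  · by_cases h3 : l = l'
    · rw [if_pos h2, if_pos (by omega), if_pos ⟨h3, h2⟩]; norm_num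
    · rw [if_pos h2, if_neg (by omega), if_neg fun h => h3 h.1]; norm_num
  · have h3 : ¬(l = l' ∧ a = a') := fun h => h2 h.2
    rw [if_neg h2, if_neg h3]; norm_num

theorem plane_inner (K : ℕ) (c d : ℕ → ℕ → ℂ) :
    ∫ x, (∑ l ∈ range K, st l (c l) x) * conj (∑ l ∈ range K, st l (d l) x) =
      ∑ l ∈ range K, ∑ a ∈ range (l + 1), c l a * conj (d l a) := by
  have h1 : ∀ x, (∑ l ∈ range K, st l (c l) x) * conj (∑ l ∈ range K, st l (d l) x) =
      ∑ l ∈ range K, ∑ l' ∈ range K, ∑ a ∈ range (l + 1), ∑ a' ∈ range (l' + 1),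
        (c l a * conj (d l' a')) * ((Psi l a x : ℂ) * conj (Psi l' a' x : ℂ)) := by
    intro x
    rw [map_sum, sum_mul_sum]
    refine sum_congr rfl fun l _ => sum_congr rfl fun l' _ => ?_
    unfold st
    rw [map_sum, sum_mul_sum]
    refine sum_congr rfl fun a _ => sum_congr rfl fun a' _ => ?_
    rw [map_mul]; ring
  simp only [h1]
  have hi : ∀ l l' a a', Integrable fun x =>
      (c l a * conj (d l' a')) * ((Psi l a x : ℂ) * conj (Psi l' a' x : ℂ)) := fun l l' a a' =>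
    (L2_prod (Psi_L2 l a) (Psi_L2 l' a')).const_mul _
  rw [integral_finsetSum _ fun l _ => integrable_finsetSum _ fun l' _ =>
    integrable_finsetSum _ fun a _ => integrable_finsetSum _ fun a' _ => hi l l' a a']
  refine sum_congr rfl fun l hl => ?_
  rw [integral_finsetSum _ fun l' _ =>
    integrable_finsetSum _ fun a _ => integrable_finsetSum _ fun a' _ => hi l l' a a']
  have h2 : ∀ l' ∈ range K, ∫ x, ∑ a ∈ range (l + 1), ∑ a' ∈ range (l' + 1),
        (c l a * conj (d l' a')) * ((Psi l a x : ℂ) * conj (Psi l' a' x : ℂ)) =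
      if l = l' then ∑ a ∈ range (l + 1), c l a * conj (d l a) else 0 := by
    intro l' _
    rw [integral_finsetSum _ fun a _ => integrable_finsetSum _ fun a' _ => hi l l' a a']
    have h3 : ∀ a ∈ range (l + 1), ∫ x, ∑ a' ∈ range (l' + 1),
        (c l a * conj (d l' a')) * ((Psi l a x : ℂ) * conj (Psi l' a' x : ℂ)) =
        if l = l' then c l a * conj (d l a) else 0 := by
      intro a ha
      rw [integral_finsetSum _ fun a' _ => hi l l' a a']
      have h4 : ∀ a' ∈ range (l' + 1), ∫ x,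
          (c l a * conj (d l' a')) * ((Psi l a x : ℂ) * conj (Psi l' a' x : ℂ)) =
          if a = a' then (if l = l' then c l a * conj (d l' a') else 0) else 0 := by
        intro a' ha'
        rw [mem_range] at ha ha'
        rw [integral_const_mul, Psi_ortho (by omega) (by omega)]
        by_cases h5 : a = a'
        · by_cases h6 : l = l'
          · rw [if_pos ⟨h6, h5⟩, if_pos h5, if_pos h6, mul_one]
          · rw [if_neg fun h => h6 h.1, if_pos h5, if_neg h6, mul_zero]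
        · rw [if_neg fun h => h5 h.2, if_neg h5, mul_zero]
      rw [sum_congr rfl h4]
      by_cases h6 : l = l'
      · subst h6
        rw [sum_ite_eq, if_pos ha]
      · simp [h6]
    rw [sum_congr rfl h3]
    split_ifs
    · rfl
    · exact sum_const_zero
  rw [sum_congr rfl h2, sum_ite_eq, if_pos hl]

theorem UT_inner (F : Fam e) (c : Fin N → ℕ → ℕ → Fin J → ℂ) (g : Fin J → ℝ) (n n' : Fin N) :
    ∫ p : Sp m, conj (UT K c g e 0 n p) * UT K c g e 0 n' p =
      ∑ l ∈ range K, ∑ a ∈ range (l + 1), ∑ j, conj (c n l a j) * c n' l a j := by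
  have h1 : ∀ p : Sp m, conj (UT K c g e 0 n p) * UT K c g e 0 n' p =
      ∑ i, ∑ j, (kap K c g n' i 0 p.1 * e i p.2) * conj (kap K c g n j 0 p.1 * e j p.2) := by
    intro p
    unfold UT
    rw [mul_comm, map_sum, sum_mul_sum]
  simp only [h1]
  have hi : ∀ i j, Integrable fun p : Sp m =>
      (kap K c g n' i 0 p.1 * e i p.2) * conj (kap K c g n j 0 p.1 * e j p.2) := fun i j =>
    (prod_int (kap_L2 c g n' i 0) (kap_L2 c g n j 0) (F.mem i) (F.mem j)).1
  rw [integral_finsetSum _ fun i _ => integrable_finsetSum _ fun j _ => hi i j]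
  have h2 : ∀ i, ∫ p : Sp m, ∑ j, (kap K c g n' i 0 p.1 * e i p.2) *
      conj (kap K c g n j 0 p.1 * e j p.2) =
      ∑ l ∈ range K, ∑ a ∈ range (l + 1), conj (c n l a i) * c n' l a i := by
    intro i
    rw [integral_finsetSum _ fun j _ => hi i j]
    have h3 : ∀ j, ∫ p : Sp m, (kap K c g n' i 0 p.1 * e i p.2) *
        conj (kap K c g n j 0 p.1 * e j p.2) =
        if i = j then ∫ x, kap K c g n' i 0 x * conj (kap K c g n i 0 x) else 0 := by
      intro j
      rw [(prod_int (kap_L2 c g n' i 0) (kap_L2 c g n j 0) (F.mem i) (F.mem j)).2, F.ortho']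
      split_ifs with h
      · rw [h, mul_one]
      · rw [mul_zero]
    rw [sum_congr rfl fun j _ => h3 j, sum_ite_eq, if_pos (mem_univ i)]
    have h4 : ∀ n x, kap K c g n i 0 x = ∑ l ∈ range K, st l (fun a => c n l a i) x := by
      intro n x
      unfold kap FF
      simp [ph]
    simp only [h4]
    rw [plane_inner K (fun l a => c n' l a i) fun l a => c n l a i]
    exact sum_congr rfl fun l _ => sum_congr rfl fun a _ => mul_comm _ _
  simp only [h2]
  rw [sum_comm]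
  exact sum_congr rfl fun l _ => sum_comm

/-! ### The kinetic energy in the other variables -/

/-- the kinetic energy in the other variables at the time `t` -/
noncomputable def ky (K : ℕ) (c : Fin N → ℕ → ℕ → Fin J → ℂ) (g : Fin J → ℝ)
    (e : Fin J → (Fin m → ℝ) → ℂ) (ν : Fin N → ℝ) (t : ℝ) : ℝ :=
  ∑ n, ν n * ∑ q : Fin m, ∫ p : Sp m,
    ‖∑ j, kap K c g n j t p.1 * fderiv ℝ (e j) p.2 (Pi.single q 1)‖ ^ 2

theorem UT_ky (F : Fam e) (c : Fin N → ℕ → ℕ → Fin J → ℂ) (g : Fin J → ℝ) (ν : Fin N → ℝ)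
    (t : ℝ) : ∑ n, ν n * ∑ q : Fin m, ∫ p : Sp m, ‖fderiv ℝ (UT K c g e t n) p
      (0, Pi.single q 1)‖ ^ 2 = ky K c g e ν t := by
  unfold ky
  simp only [UT_dy F]

theorem ky_expand (c : Fin N → ℕ → ℕ → Fin J → ℂ) (g : Fin J → ℝ) (n : Fin N) (q : Fin m) (t : ℝ)
    (p : Sp m) : ∑ j, kap K c g n j t p.1 * fderiv ℝ (e j) p.2 (Pi.single q 1) =
      ∑ i ∈ (univ : Finset (Fin J)) ×ˢ range K,
        (Complex.exp (-(g i.1 * t * Complex.I)) * ph (-(i.2:ℤ)) t) *
        (FF c n i.2 i.1 p.1 * fderiv ℝ (e i.1) p.2 (Pi.single q 1)) := by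
  rw [sum_product]
  refine sum_congr rfl fun j _ => ?_
  unfold kap
  rw [mul_sum, sum_mul]
  exact sum_congr rfl fun l _ => by ring

theorem ky_prod (F : Fam e) (c : Fin N → ℕ → ℕ → Fin J → ℂ) (n : Fin N) (q : Fin m) :
    ∀ i ∈ (univ : Finset (Fin J)) ×ˢ range K, ∀ j ∈ (univ : Finset (Fin J)) ×ˢ range K,
      Integrable (fun p : Sp m => (FF c n i.2 i.1 p.1 * fderiv ℝ (e i.1) p.2 (Pi.single q 1)) *
        conj (FF c n j.2 j.1 p.1 * fderiv ℝ (e j.1) p.2 (Pi.single q 1))) := fun i _ j _ =>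
  (prod_int (FF_L2 c n i.2 i.1) (FF_L2 c n j.2 j.1) (F.dmem i.1 q) (F.dmem j.1 q)).1

theorem ky_int (F : Fam e) (c : Fin N → ℕ → ℕ → Fin J → ℂ) (g : Fin J → ℝ) (n : Fin N)
    (q : Fin m) (t : ℝ) : Integrable fun p : Sp m =>
      ‖∑ j, kap K c g n j t p.1 * fderiv ℝ (e j) p.2 (Pi.single q 1)‖ ^ 2 := by
  simp only [ky_expand]
  exact quad_int (ky_prod F c n q) _

theorem ky_cont (F : Fam e) (K : ℕ) (c : Fin N → ℕ → ℕ → Fin J → ℂ) (g : Fin J → ℝ)
    (ν : Fin N → ℝ) : Continuous (ky K c g e ν) := by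
  unfold ky
  refine continuous_finsetSum _ fun n _ => continuous_const.mul
    (continuous_finsetSum _ fun q _ => ?_)
  simp only [ky_expand]
  refine quad_cont (c := fun t (i : Fin J × ℕ) =>
    Complex.exp (-(g i.1 * t * Complex.I)) * ph (-(i.2:ℤ)) t) (ky_prod F c n q) fun i => ?_
  have := ph_cont (-(i.2:ℤ))
  fun_prop

/-! ### The slices -/

/-- the slices of the weighted functions -/
noncomputable def slT (K : ℕ) (c : Fin N → ℕ → ℕ → Fin J → ℂ) (g : Fin J → ℝ)
    (e : Fin J → (Fin m → ℝ) → ℂ) (ν : Fin N → ℝ) (t : ℝ) (x : Fin 2 → ℝ) (n : Fin N)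
    (y : Fin m → ℝ) : ℂ := (√(ν n) : ℂ) * ∑ j, kap K c g n j t x * e j y

theorem slT_norm (H : SysT K c ν) (g : Fin J → ℝ) (t : ℝ) (x : Fin 2 → ℝ) (n : Fin N)
    (y : Fin m → ℝ) : ‖slT K c g e ν t x n y‖ ^ 2 = ν n * ‖UT K c g e t n (x, y)‖ ^ 2 := by
  rw [slT, norm_mul, mul_pow, Complex.norm_real, Real.norm_eq_abs, sq_abs,
    Real.sq_sqrt (H.nu n).1]
  rfl

theorem slT_hd (F : Fam e) (g : Fin J → ℝ) (t : ℝ) (x : Fin 2 → ℝ) (n : Fin N)
    (y : Fin m → ℝ) : HasFDerivAt (slT K c g e ν t x n)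
      ((√(ν n) : ℂ) • ∑ j, kap K c g n j t x • fderiv ℝ (e j) y) y := by
  unfold slT
  exact (HasFDerivAt.fun_sum fun j _ =>
    ((((F.cd j).differentiable (by norm_num)) y).hasFDerivAt).const_mul _).const_mul _

theorem slT_fd (F : Fam e) (g : Fin J → ℝ) (t : ℝ) (x : Fin 2 → ℝ) (n : Fin N)
    (y : Fin m → ℝ) (q : Fin m) : fderiv ℝ (slT K c g e ν t x n) y (Pi.single q 1) =
      (√(ν n) : ℂ) * ∑ j, kap K c g n j t x * fderiv ℝ (e j) y (Pi.single q 1) := by
  rw [(slT_hd F g t x n y).fderiv, _root_.smul_apply, _root_.sum_apply, smul_eq_mul]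
  congr 1

theorem slT_cd (F : Fam e) (g : Fin J → ℝ) (t : ℝ) (x : Fin 2 → ℝ) (n : Fin N) :
    ContDiff ℝ 1 (slT K c g e ν t x n) := by
  unfold slT
  exact contDiff_const.mul (ContDiff.sum fun j _ => contDiff_const.mul (F.cd j))

theorem slT_L2 (F : Fam e) (g : Fin J → ℝ) (t : ℝ) (x : Fin 2 → ℝ) (n : Fin N) :
    Integrable fun y => ‖slT K c g e ν t x n y‖ ^ 2 := by
  have h : MemLp (fun y => (√(ν n) : ℂ) * ∑ j, kap K c g n j t x * e j y) 2 volume :=
    (memLp_finsetSum _ fun j _ => (F.mem j).const_mul _).const_mul _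
  exact sq_int h

theorem slT_dL2 (F : Fam e) (g : Fin J → ℝ) (t : ℝ) (x : Fin 2 → ℝ) (n : Fin N) (q : Fin m) :
    Integrable fun y => ‖fderiv ℝ (slT K c g e ν t x n) y (Pi.single q 1)‖ ^ 2 := by
  simp only [slT_fd F]
  have h : MemLp (fun y => (√(ν n) : ℂ) * ∑ j, kap K c g n j t x *
      fderiv ℝ (e j) y (Pi.single q 1)) 2 volume :=
    (memLp_finsetSum _ fun j _ => (F.dmem j q).const_mul _).const_mul _
  exact sq_int h

theorem slT_inner (F : Fam e) (g : Fin J → ℝ) (t : ℝ) (x : Fin 2 → ℝ) (n n' : Fin N) :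
    ∫ y, conj (slT K c g e ν t x n y) * slT K c g e ν t x n' y =
      ((√(ν n) * √(ν n') : ℝ) : ℂ) * GT K c t n n' x := by
  have h1 : ∀ y, conj (slT K c g e ν t x n y) * slT K c g e ν t x n' y =
      ((√(ν n) * √(ν n') : ℝ) : ℂ) * ∑ i, ∑ j,
        (conj (kap K c g n i t x) * kap K c g n' j t x) * (conj (e i y) * e j y) := by
    intro y
    unfold slT
    rw [map_mul, map_sum, Complex.conj_ofReal, mul_mul_mul_comm, sum_mul_sum]
    congr 1
    · push_cast; rfl
    · refine sum_congr rfl fun i _ => sum_congr rfl fun j _ => ?_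
      rw [map_mul]; ring
  simp only [h1]
  rw [integral_const_mul]
  congr 1
  have hi : ∀ i j, Integrable fun y =>
      (conj (kap K c g n i t x) * kap K c g n' j t x) * (conj (e i y) * e j y) := fun i j =>
    (conj_int (F.cd i).continuous (F.cd j).continuous (F.L2 i) (F.L2 j)).const_mul _
  rw [integral_finsetSum _ fun i _ => integrable_finsetSum _ fun j _ => hi i j]
  have h2 : ∀ i, ∫ y, ∑ j, (conj (kap K c g n i t x) * kap K c g n' j t x) *
      (conj (e i y) * e j y) = conj (kap K c g n i t x) * kap K c g n' i t x := by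
    intro i
    rw [integral_finsetSum _ fun j _ => hi i j]
    simp only [integral_const_mul, F.ortho, mul_ite, mul_one, mul_zero]
    rw [sum_ite_eq, if_pos (mem_univ i)]
  simp only [h2]
  exact gram_time c g n n' x t

/-- the density -/
noncomputable def dns (K : ℕ) (c : Fin N → ℕ → ℕ → Fin J → ℂ) (g : Fin J → ℝ)
    (e : Fin J → (Fin m → ℝ) → ℂ) (ν : Fin N → ℝ) (t : ℝ) (p : Sp m) : ℝ :=
  ∑ n, ν n * ‖UT K c g e t n p‖ ^ 2

theorem SysT.slice (H : SysT K c ν) (F : Fam e) (g : Fin J → ℝ) (t : ℝ) (x : Fin 2 → ℝ) :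
    Integrable (fun y => dns K c g e ν t (x, y) ^ (1 + 2 / ((m + 2 : ℕ) : ℝ))) ∧
    Kcl (m + 2) * ∫ y, dns K c g e ν t (x, y) ^ (1 + 2 / ((m + 2 : ℕ) : ℝ)) ≤
      (∑ n, ν n * ∑ q, ∫ y, ‖∑ j, kap K c g n j t x *
        fderiv ℝ (e j) y (Pi.single q 1)‖ ^ 2) +
      2 * π * ∑ n, ∑ n', ν n * ν n' * ‖GT K c t n n' x‖ ^ 2 := by
  have h := slice_H1 (v := slT K c g e ν t x) (slT_cd F g t x) (slT_L2 F g t x) (slT_dL2 F g t x)
  simp only [slT_norm H] at h
  refine ⟨h.1, h.2.trans (le_of_eq ?_)⟩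
  congr 1
  · refine sum_congr rfl fun n _ => ?_
    rw [mul_sum]
    refine sum_congr rfl fun q _ => ?_
    rw [← integral_const_mul]
    refine integral_congr_ae (Eventually.of_forall fun y => ?_)
    dsimp only
    rw [slT_fd F, norm_mul, mul_pow, Complex.norm_real, Real.norm_eq_abs, sq_abs,
      Real.sq_sqrt (H.nu n).1]
  · congr 1
    refine sum_congr rfl fun n _ => sum_congr rfl fun n' _ => ?_
    rw [slT_inner F, norm_mul, mul_pow, Complex.norm_real, Real.norm_eq_abs, sq_abs, mul_pow,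
      Real.sq_sqrt (H.nu n).1, Real.sq_sqrt (H.nu n').1]

end Pool.Agent.H45.LT.Tr
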