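import Mathlib
import Pool.Agent.H45.LT.Tr6

set_option autoImplicit false

/-!
# The inequality averaged over a period
-/

open MeasureTheory Filter Topology Real Finset
open scoped ComplexConjugate ENNReal
open LTd (Kcl)

namespace Pool.Agent.H45.LT.Tr

open Osc (st Psi rho dPsi)
open Ly (Sp)

variable {m J N K : ℕ} {c : Fin N → ℕ → ℕ → Fin J → ℂ} {ν : Fin N → ℝ}
  {e : Fin J → (Fin m → ℝ) → ℂ}

theorem UT_jcont (F : Fam e) (c : Fin N → ℕ → ℕ → Fin J → ℂ) (g : Fin J → ℝ) (n : Fin N) :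
    Continuous fun q : ℝ × Sp m => UT K c g e q.1 n q.2 := by
  unfold UT kap
  refine continuous_finsetSum _ fun j _ => ?_
  refine Continuous.mul (Continuous.mul ?_ ?_) ?_
  · fun_prop
  · exact continuous_finsetSum _ fun l _ => ((ph_cont _).comp continuous_fst).mul
      ((FF_cont c n l j).comp (continuous_fst.comp continuous_snd))
  · exact (F.cd j).continuous.comp (continuous_snd.comp continuous_snd)

theorem dns_jcont (F : Fam e) (c : Fin N → ℕ → ℕ → Fin J → ℂ) (g : Fin J → ℝ) (ν : Fin N → ℝ) :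
    Continuous fun q : ℝ × Sp m => dns K c g e ν q.1 q.2 := by
  unfold dns
  exact continuous_finsetSum _ fun n _ => continuous_const.mul
    (((UT_jcont F c g n).norm).pow 2)

/-- the right side of the inequality at the point `x` of the plane -/
noncomputable def Rx (K : ℕ) (c : Fin N → ℕ → ℕ → Fin J → ℂ) (g : Fin J → ℝ)
    (e : Fin J → (Fin m → ℝ) → ℂ) (ν : Fin N → ℝ) (t : ℝ) (x : Fin 2 → ℝ) : ℝ :=
  (∑ n, ν n * ∑ q, ∫ y, ‖∑ j, kap K c g n j t x * fderiv ℝ (e j) y (Pi.single q 1)‖ ^ 2) +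
      2 * π * ∑ n, ∑ n', ν n * ν n' * ‖GT K c t n n' x‖ ^ 2

theorem Rx_int (F : Fam e) (c : Fin N → ℕ → ℕ → Fin J → ℂ) (g : Fin J → ℝ) (ν : Fin N → ℝ)
    (t : ℝ) : Integrable (Rx K c g e ν t) ∧ ∫ x, Rx K c g e ν t x = ky K c g e ν t +
      2 * π * ∑ n, ∑ n', ν n * ν n' * ∫ x, ‖GT K c t n n' x‖ ^ 2 := by
  have i1 : ∀ n q, Integrable fun x => ∫ y,
      ‖∑ j, kap K c g n j t x * fderiv ℝ (e j) y (Pi.single q 1)‖ ^ 2 := fun n q =>
    (ky_int F c g n q t).integral_prod_left
  have i2 : Integrable fun x => ∑ n, ν n * ∑ q, ∫ y,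
      ‖∑ j, kap K c g n j t x * fderiv ℝ (e j) y (Pi.single q 1)‖ ^ 2 :=
    integrable_finsetSum _ fun n _ => (integrable_finsetSum _ fun q _ => i1 n q).const_mul _
  have i3 : Integrable fun x => ∑ n, ∑ n', ν n * ν n' * ‖GT K c t n n' x‖ ^ 2 :=
    integrable_finsetSum _ fun n _ => integrable_finsetSum _ fun n' _ =>
      (GT_int K c t n n').const_mul _
  refine ⟨i2.add (i3.const_mul _), ?_⟩
  unfold Rx
  rw [integral_add i2 (i3.const_mul _), integral_const_mul]
  congr 1
  · rw [integral_finsetSum _ fun n _ => (integrable_finsetSum _ fun q _ => i1 n q).const_mul _]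
    unfold ky
    refine sum_congr rfl fun n _ => ?_
    rw [integral_const_mul, integral_finsetSum _ fun q _ => i1 n q]
    congr 1
    refine sum_congr rfl fun q _ => ?_
    exact (integral_prod _ (ky_int F c g n q t)).symm
  · congr 1
    rw [integral_finsetSum _ fun n _ => integrable_finsetSum _ fun n' _ =>
      (GT_int K c t n n').const_mul _]
    refine sum_congr rfl fun n _ => ?_
    rw [integral_finsetSum _ fun n' _ => (GT_int K c t n n').const_mul _]
    exact sum_congr rfl fun n' _ => integral_const_mul _ _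

theorem slab {P : Sp m → ℝ} (hc : Continuous P) (h0 : ∀ p, 0 ≤ P p) {R : (Fin 2 → ℝ) → ℝ}
    (hR : Integrable R) {κ : ℝ} (hκ : 0 < κ) (hy : ∀ x, Integrable fun y => P (x, y))
    (hsl : ∀ x, κ * ∫ y, P (x, y) ≤ R x) : Integrable P ∧ κ * ∫ p, P p ≤ ∫ x, R x := by
  have hPi : Integrable P := by
    have hm : AEStronglyMeasurable P ((volume : Measure (Fin 2 → ℝ)).prod
      (volume : Measure (Fin m → ℝ))) := hc.aestronglyMeasurable
    refine (integrable_prod_iff hm).2 ⟨Eventually.of_forall hy, ?_⟩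
    have e1 : (fun x => ∫ y, ‖P (x, y)‖) = fun x => ∫ y, P (x, y) := by
      funext x
      refine integral_congr_ae (Eventually.of_forall fun y => ?_)
      exact Real.norm_of_nonneg (h0 _)
    rw [e1]
    refine (hR.const_mul κ⁻¹).mono' hm.integral_prod_right' ?_
    refine Eventually.of_forall fun x => ?_
    have h1 : 0 ≤ ∫ y, P (x, y) := integral_nonneg fun y => h0 _
    rw [Real.norm_of_nonneg h1, ← div_eq_inv_mul, le_div_iff₀ hκ, mul_comm]
    exact hsl x
  refine ⟨hPi, ?_⟩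
  have h1 : ∫ p, P p = ∫ x, ∫ y, P (x, y) := integral_prod P hPi
  rw [h1, ← integral_const_mul]
  refine integral_mono ?_ hR hsl
  exact (hPi.integral_prod_left).const_mul _

theorem dns_nonneg (H : SysT K c ν) (g : Fin J → ℝ) (t : ℝ) (p : Sp m) :
    0 ≤ dns K c g e ν t p :=
  sum_nonneg fun n _ => mul_nonneg (H.nu n).1 (by positivity)

theorem dns_pow_cont (F : Fam e) (g : Fin J → ℝ) (t : ℝ) {w : ℝ} (hw : 0 ≤ w) :
    Continuous (fun p : Sp m => dns K c g e ν t p ^ w) := by
  have h : Continuous fun p : Sp m => dns K c g e ν t p := by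
    unfold dns
    exact continuous_finsetSum _ fun n _ => continuous_const.mul ((UT_cont F c g t n).norm.pow 2)
  exact h.rpow_const fun _ => Or.inr hw

theorem SysT.fixed (H : SysT K c ν) (F : Fam e) (g : Fin J → ℝ) (t : ℝ) :
    Integrable (fun p : Sp m => dns K c g e ν t p ^ (1 + 2 / ((m + 2 : ℕ) : ℝ))) ∧
    Kcl (m + 2) * ∫ p, dns K c g e ν t p ^ (1 + 2 / ((m + 2 : ℕ) : ℝ)) ≤
      ky K c g e ν t + 2 * π * ∑ n, ∑ n', ν n * ν n' * ∫ x, ‖GT K c t n n' x‖ ^ 2 := by
  have hK : 0 < Kcl (m + 2) := Pool.Agent.N674.LT.Kcl_pos (by omega)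
  have hpw : (0:ℝ) ≤ 1 + 2 / ((m + 2 : ℕ) : ℝ) := by positivity
  have hR := Rx_int (K := K) F c g ν t
  have h := slab (dns_pow_cont (K := K) (c := c) (ν := ν) F g t hpw)
    (fun p => Real.rpow_nonneg (dns_nonneg H g t p) _) hR.1 hK
    (fun x => (H.slice F g t x).1) fun x => (H.slice F g t x).2
  exact ⟨h.1, h.2.trans (le_of_eq hR.2)⟩

/-- the integral of the power of the density at the time `t` -/
noncomputable def dT (K : ℕ) (c : Fin N → ℕ → ℕ → Fin J → ℂ) (g : Fin J → ℝ)
    (e : Fin J → (Fin m → ℝ) → ℂ) (ν : Fin N → ℝ) (t : ℝ) : ℝ :=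
  ∫ p, dns K c g e ν t p ^ (1 + 2 / ((m + 2 : ℕ) : ℝ))

theorem dT_meas (F : Fam e) (g : Fin J → ℝ) : StronglyMeasurable (dT K c g e ν) := by
  have hpw : (0:ℝ) ≤ 1 + 2 / ((m + 2 : ℕ) : ℝ) := by positivity
  have h1 : Continuous (Function.uncurry fun (t : ℝ) (p : Sp m) =>
      dns K c g e ν t p ^ (1 + 2 / ((m + 2 : ℕ) : ℝ))) :=
    (dns_jcont F c g ν).rpow_const fun p => Or.inr hpw
  exact h1.stronglyMeasurable.integral_prod_right

/-- the right side of the inequality at the time `t` -/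
noncomputable def RT (K : ℕ) (c : Fin N → ℕ → ℕ → Fin J → ℂ) (g : Fin J → ℝ)
    (e : Fin J → (Fin m → ℝ) → ℂ) (ν : Fin N → ℝ) (t : ℝ) : ℝ :=
  ky K c g e ν t + 2 * π * ∑ n, ∑ n', ν n * ν n' * ∫ x, ‖GT K c t n n' x‖ ^ 2

theorem RT_cont (F : Fam e) (g : Fin J → ℝ) : Continuous (RT K c g e ν) := by
  unfold RT
  exact (ky_cont F K c g ν).add (continuous_const.mul (continuous_finsetSum _ fun n _ =>
    continuous_finsetSum _ fun n' _ => continuous_const.mul (GT_cont K c n n')))

theorem SysT.dT_le (H : SysT K c ν) (F : Fam e) (g : Fin J → ℝ) (t : ℝ) :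
    Kcl (m + 2) * dT K c g e ν t ≤ RT K c g e ν t := (H.fixed F g t).2

theorem SysT.dT_int (H : SysT K c ν) (F : Fam e) (g : Fin J → ℝ) (a b : ℝ) :
    IntervalIntegrable (dT K c g e ν) volume a b := by
  have hK : 0 < Kcl (m + 2) := Pool.Agent.N674.LT.Kcl_pos (by omega)
  have hle := H.dT_le F g
  have h0 : ∀ t, 0 ≤ dT K c g e ν t := fun t => integral_nonneg fun p =>
    Real.rpow_nonneg (dns_nonneg H g t p) _
  have hG : Continuous fun t => (Kcl (m + 2))⁻¹ * RT K c g e ν t :=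
    continuous_const.mul (RT_cont F g)
  refine (hG.intervalIntegrable a b).mono_fun' (dT_meas F g).aestronglyMeasurable ?_
  refine Eventually.of_forall fun t => ?_
  dsimp only
  rw [Real.norm_of_nonneg (h0 t), ← div_eq_inv_mul, le_div_iff₀ hK, mul_comm]
  exact hle t

/-- **The inequality averaged over a period.** -/
theorem SysT.average (H : SysT K c ν) (F : Fam e) (g : Fin J → ℝ) :
    Kcl (m + 2) * ∫ t in (0:ℝ)..(2 * π), dT K c g e ν t ≤
      ∫ t in (0:ℝ)..(2 * π), (kx K c ν t + ky K c g e ν t) := by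
  have hG : Continuous fun t => 2 * π * ∑ n, ∑ n', ν n * ν n' * ∫ x, ‖GT K c t n n' x‖ ^ 2 :=
    continuous_const.mul (continuous_finsetSum _ fun n _ =>
      continuous_finsetSum _ fun n' _ => continuous_const.mul (GT_cont K c n n'))
  have h1 : ∫ t in (0:ℝ)..(2 * π), Kcl (m + 2) * dT K c g e ν t ≤
      ∫ t in (0:ℝ)..(2 * π), RT K c g e ν t :=
    intervalIntegral.integral_mono_on (by positivity) ((H.dT_int F g _ _).const_mul _)
      ((RT_cont F g).intervalIntegrable _ _) fun t _ => H.dT_le F g t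
  rw [intervalIntegral.integral_const_mul] at h1
  refine h1.trans ?_
  unfold RT
  rw [intervalIntegral.integral_add ((ky_cont F K c g ν).intervalIntegrable _ _)
    (hG.intervalIntegrable _ _),
    intervalIntegral.integral_add ((kx_cont K c ν).intervalIntegrable _ _)
    ((ky_cont F K c g ν).intervalIntegrable _ _), kx_time, intervalIntegral.integral_const_mul]
  linarith [H.gram_le]

end Pool.Agent.H45.LT.Tr
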