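import Mathlib
import Pool.Agent.H45.LT.Tr8

set_option autoImplicit false

/-!
# Finitely supported coefficients
-/

open MeasureTheory Filter Topology Real Finset
open scoped ComplexConjugate ENNReal
open LTd (Kcl)

namespace Pool.Agent.H45.LT.Tr

open Osc (st Psi rho dPsi)
open Ly (Sp)

theorem sum_supp {ι M : Type*} [AddCommMonoid M] [DecidableEq ι] (s : Finset (ℕ × ℕ × ι))
    (S : Finset ι) (K : ℕ) (hs : ∀ i ∈ s, i.1 + i.2.1 < K ∧ i.2.2 ∈ S) (f : ℕ × ℕ × ι → M)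
    (hf : ∀ i, i ∉ s → f i = 0) :
    ∑ i ∈ s, f i = ∑ l ∈ range K, ∑ a ∈ range (l + 1), ∑ j ∈ S, f (a, l - a, j) := by
  have h1 : ∑ l ∈ range K, ∑ a ∈ range (l + 1), ∑ j ∈ S, f (a, l - a, j) =
      ∑ x ∈ ((range K).sigma fun l => range (l + 1)) ×ˢ S,
        f (x.1.2, x.1.1 - x.1.2, x.2) := by
    rw [sum_product, sum_sigma]
  have h2 : ∀ x ∈ ((range K).sigma fun l => range (l + 1)) ×ˢ S,
      ∀ y ∈ ((range K).sigma fun l => range (l + 1)) ×ˢ S,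
      ((x.1.2, x.1.1 - x.1.2, x.2) : ℕ × ℕ × ι) = (y.1.2, y.1.1 - y.1.2, y.2) → x = y := by
    rintro ⟨⟨l, a⟩, j⟩ hx ⟨⟨l', a'⟩, j'⟩ hy h
    simp only [mem_product, mem_sigma, mem_range, Prod.mk.injEq] at hx hy h
    obtain ⟨h3, h4, h5⟩ := h
    have h6 : l = l' := by omega
    subst h6; subst h3; subst h5; rfl
  rw [h1, ← sum_image (f := f) (g := fun x : ((_ : ℕ) × ℕ) × ι => ((x.1.2, x.1.1 - x.1.2, x.2)
    : ℕ × ℕ × ι)) h2]
  refine sum_subset (fun i hi => ?_) fun i _ hi => hf i hi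
  rw [mem_image]
  obtain ⟨h3, h4⟩ := hs i hi
  refine ⟨(⟨i.1 + i.2.1, i.1⟩, i.2.2), ?_, ?_⟩
  · simp only [mem_product, mem_sigma, mem_range]
    exact ⟨⟨h3, by omega⟩, h4⟩
  · simp

theorem sum_fin {κ M : Type*} [AddCommMonoid M] (s : Finset κ) (f : κ → M) :
    ∑ n ∈ s, f n = ∑ n : Fin s.card, f (s.equivFin.symm n) := by
  rw [← sum_coe_sort s f]
  exact (Equiv.sum_comp s.equivFin.symm (fun x : s => f x)).symm

variable {m : ℕ} {ι κ : Type} [DecidableEq ι] [DecidableEq κ]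

/-- A family of orthonormal functions in the Sobolev space. -/
structure FamG (e : ι → (Fin m → ℝ) → ℂ) : Prop where
  cd : ∀ j, ContDiff ℝ 1 (e j)
  L2 : ∀ j, Integrable fun y => ‖e j y‖ ^ 2
  dL2 : ∀ j q, Integrable fun y => ‖fderiv ℝ (e j) y (Pi.single q 1)‖ ^ 2
  ortho : ∀ i j, ∫ y, conj (e i y) * e j y = if i = j then 1 else 0

theorem FamG.fam {e : ι → (Fin m → ℝ) → ℂ} (F : FamG e) {J : ℕ} {ψ : Fin J → ι}
    (hψ : Function.Injective ψ) : Fam fun j => e (ψ j) :=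
  ⟨fun j => F.cd _, fun j => F.L2 _, fun j => F.dL2 _, fun i j => by
    rw [F.ortho]; simp only [hψ.eq_iff]⟩

/-- the functions with the oscillation in the plane -/
noncomputable def wv (e : ι → (Fin m → ℝ) → ℂ) (c : ℕ × ℕ × ι →₀ ℂ) (t : ℝ) (p : Sp m) : ℂ :=
  c.sum fun i z => z * Complex.exp (-((i.1 + i.2.1 : ℕ) * t * Complex.I)) *
    ((Osc.h i.1 (p.1 0) * Osc.h i.2.1 (p.1 1) : ℝ) : ℂ) * e i.2.2 p.2

theorem UT_eq (e : ι → (Fin m → ℝ) → ℂ) {N : ℕ} (c : Fin N → (ℕ × ℕ × ι →₀ ℂ)) (S : Finset ι)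
    (K : ℕ) (n : Fin N) (hs : ∀ i ∈ (c n).support, i.1 + i.2.1 < K ∧ i.2.2 ∈ S) (t : ℝ) :
    UT K (fun n l a j => c n (a, l - a, (S.equivFin.symm j : ι))) (fun _ => 0)
      (fun j => e (S.equivFin.symm j)) t n = wv e (c n) t := by
  funext p
  unfold wv Finsupp.sum
  rw [sum_supp (c n).support S K hs]
  · have h1 : ∀ l ∈ range K, ∀ a ∈ range (l + 1), ∑ j ∈ S, c n (a, l - a, j) *
        Complex.exp (-((a + (l - a) : ℕ) * t * Complex.I)) *
        ((Osc.h a (p.1 0) * Osc.h (l - a) (p.1 1) : ℝ) : ℂ) * e j p.2 =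
        ∑ j : Fin S.card, c n (a, l - a, (S.equivFin.symm j : ι)) * ph (-(l:ℤ)) t *
          (Psi l a p.1 : ℂ) * e (S.equivFin.symm j) p.2 := by
      intro l _ a ha
      rw [sum_fin]
      refine sum_congr rfl fun j _ => ?_
      have h2 : a + (l - a) = l := by rw [mem_range] at ha; omega
      rw [h2]
      unfold ph Psi
      congr 3
      push_cast; ring_nf
    refine Eq.trans ?_ (sum_congr rfl fun l hl => sum_congr rfl fun a ha => h1 l hl a ha).symm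
    unfold UT kap FF st
    have h3 : ∀ l ∈ range K, ∑ a ∈ range (l + 1), ∑ j : Fin S.card,
        c n (a, l - a, (S.equivFin.symm j : ι)) * ph (-(l:ℤ)) t *
          (Psi l a p.1 : ℂ) * e (S.equivFin.symm j) p.2 = ∑ j : Fin S.card, ∑ a ∈ range (l + 1),
        c n (a, l - a, (S.equivFin.symm j : ι)) * ph (-(l:ℤ)) t *
          (Psi l a p.1 : ℂ) * e (S.equivFin.symm j) p.2 := fun l _ => sum_comm
    rw [sum_congr rfl h3, sum_comm]
    refine sum_congr rfl fun j _ => ?_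
    simp only [Complex.ofReal_zero, zero_mul, neg_zero, Complex.exp_zero, one_mul]
    rw [sum_mul]
    refine sum_congr rfl fun l _ => ?_
    rw [mul_sum, sum_mul]
    exact sum_congr rfl fun a _ => by ring
  · intro i hi
    rw [Finsupp.notMem_support_iff.1 hi]
    ring

/-- all levels of a finite set of functions -/
def lev (c : κ → (ℕ × ℕ × ι →₀ ℂ)) (s : Finset κ) : ℕ :=
  s.sup fun n => (c n).support.sup fun i => i.1 + i.2.1 + 1

/-- all labels of a finite set of functions -/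
def lab (c : κ → (ℕ × ℕ × ι →₀ ℂ)) (s : Finset κ) : Finset ι :=
  s.biUnion fun n => (c n).support.image fun i => i.2.2

omit [DecidableEq κ] in
theorem lev_lab (c : κ → (ℕ × ℕ × ι →₀ ℂ)) (s : Finset κ) {n : κ} (hn : n ∈ s) :
    ∀ i ∈ (c n).support, i.1 + i.2.1 < lev c s ∧ i.2.2 ∈ lab c s := by
  intro i hi
  constructor
  · have h1 : i.1 + i.2.1 + 1 ≤ (c n).support.sup fun i => i.1 + i.2.1 + 1 :=
      le_sup (f := fun i : ℕ × ℕ × ι => i.1 + i.2.1 + 1) hi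
    have h2 : ((c n).support.sup fun i => i.1 + i.2.1 + 1) ≤ lev c s :=
      le_sup (f := fun n => (c n).support.sup fun i => i.1 + i.2.1 + 1) hn
    omega
  · exact mem_biUnion.2 ⟨n, hn, mem_image.2 ⟨i, hi, rfl⟩⟩

theorem fin_avg {e : ℝ → ι → (Fin m → ℝ) → ℂ} {c : κ → (ℕ × ℕ × ι →₀ ℂ)} {ν : κ → ℝ}
    (F : ∀ t ∈ Set.Icc (0:ℝ) (2 * π), FamG (e t))
    (ho : ∀ n n', ∫ p, conj (wv (e 0) (c n) 0 p) * wv (e 0) (c n') 0 p =
      if n = n' then 1 else 0) (hν : ∀ n, 0 ≤ ν n ∧ ν n ≤ 1) (s : Finset κ) :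
    ENNReal.ofReal (Kcl (m + 2)) * ∫⁻ t in Set.Icc (0:ℝ) (2 * π), ∫⁻ p,
      (∑ n ∈ s, ENNReal.ofReal (ν n) * ‖wv (e t) (c n) t p‖ₑ ^ 2) ^
        (1 + 2 / ((m + 2 : ℕ) : ℝ)) ≤
    ∫⁻ t in Set.Icc (0:ℝ) (2 * π),
      ∑ n ∈ s, ENNReal.ofReal (ν n) * lkin (wv (e t) (c n) t) := by
  set S := lab c s with hS
  set K := lev c s with hK
  set c' : Fin s.card → (ℕ × ℕ × ι →₀ ℂ) := fun n => c (s.equivFin.symm n) with hc'
  set C : Fin s.card → ℕ → ℕ → Fin S.card → ℂ :=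
    fun n l a j => c' n (a, l - a, (S.equivFin.symm j : ι)) with hC
  have hU : ∀ (t : ℝ) (n : Fin s.card), UT K C (fun _ => 0)
      (fun j => e t (S.equivFin.symm j)) t n = wv (e t) (c' n) t := fun t n =>
    UT_eq (e t) c' S K n (lev_lab c s (s.equivFin.symm n).2) t
  have hinj : Function.Injective fun j : Fin S.card => ((S.equivFin.symm j : S) : ι) :=
    Subtype.val_injective.comp S.equivFin.symm.injective
  have hF : ∀ t ∈ Set.Icc (0:ℝ) (2 * π), Fam fun j : Fin S.card => e t (S.equivFin.symm j) :=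
    fun t ht => (F t ht).fam hinj
  have h0 : (0:ℝ) ∈ Set.Icc (0:ℝ) (2 * π) := ⟨le_rfl, by positivity⟩
  have H : SysT K C fun n => ν (s.equivFin.symm n) := by
    refine ⟨fun n n' => ?_, fun n => hν _⟩
    rw [← UT_inner (hF 0 h0) C (fun _ => 0) n n', hU, hU, hc', ho]
    have h1 : ((s.equivFin.symm n : s) : κ) = s.equivFin.symm n' ↔ n = n' := by
      rw [Subtype.val_injective.eq_iff, s.equivFin.symm.injective.eq_iff]
    simp only [h1]
  have h := H.lavg hF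
  simp only [lden, hU] at h
  have e1 : ∀ t p, ∑ n ∈ s, ENNReal.ofReal (ν n) * ‖wv (e t) (c n) t p‖ₑ ^ 2 =
      ∑ n : Fin s.card, ENNReal.ofReal (ν (s.equivFin.symm n)) * ‖wv (e t) (c' n) t p‖ₑ ^ 2 :=
    fun t p => sum_fin s fun n => ENNReal.ofReal (ν n) * ‖wv (e t) (c n) t p‖ₑ ^ 2
  have e2 : ∀ t, ∑ n ∈ s, ENNReal.ofReal (ν n) * lkin (wv (e t) (c n) t) =
      ∑ n : Fin s.card, ENNReal.ofReal (ν (s.equivFin.symm n)) * lkin (wv (e t) (c' n) t) :=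
    fun t => sum_fin s fun n => ENNReal.ofReal (ν n) * lkin (wv (e t) (c n) t)
  simp only [e1, e2]
  exact h

end Pool.Agent.H45.LT.Tr
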