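import Mathlib
import Pool.Agent.H45.LT.Tr10

set_option autoImplicit false

/-!
# The products of the Hermite functions
-/

open MeasureTheory Filter Topology Real Finset
open scoped ComplexConjugate ENNReal

namespace Pool.Agent.H45.LT.Tr

variable {m : ℕ}

/-- the product of Hermite functions -/
noncomputable def hp (α : Fin m → ℕ) (y : Fin m → ℝ) : ℂ := ((∏ i, Osc.h (α i) (y i) : ℝ) : ℂ)

theorem gg_int (p q : Polynomial ℝ) : Integrable fun t : ℝ =>
    (p.eval t * Real.exp (-t ^ 2 / 2)) * (q.eval t * Real.exp (-t ^ 2 / 2)) := by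
  refine (Osc.gint one_pos (p * q)).congr (Eventually.of_forall fun t => ?_)
  dsimp only
  rw [Polynomial.eval_mul, ← Osc.exp2]; ring

theorem h_cd (n : ℕ) : ContDiff ℝ 1 (Osc.h n) := by
  unfold Osc.h
  refine ContDiff.mul ?_ ?_
  · have h := (Osc.P n).contDiff_aeval (𝕜 := ℝ) (n := 1)
    simpa using h
  · fun_prop

theorem hp_cd (α : Fin m → ℕ) : ContDiff ℝ 1 (hp α) := by
  have h1 : ContDiff ℝ 1 fun y : Fin m → ℝ => ∏ i, Osc.h (α i) (y i) :=
    contDiff_prod fun i _ => (h_cd (α i)).comp (contDiff_apply ℝ ℝ i)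
  exact Complex.ofRealCLM.contDiff.comp h1

/-- the factors of the derivative -/
noncomputable def df (α : Fin m → ℕ) (q i : Fin m) (t : ℝ) : ℝ :=
  if i = q then Osc.h' (α i) t else Osc.h (α i) t

theorem hp_fd (α : Fin m → ℕ) (y : Fin m → ℝ) (q : Fin m) :
    fderiv ℝ (hp α) y (Pi.single q 1) = ((∏ i, df α q i (y i) : ℝ) : ℂ) := by
  have h1 : ∀ i ∈ (univ : Finset (Fin m)), HasFDerivAt (fun y : Fin m → ℝ => Osc.h (α i) (y i))
      (Osc.h' (α i) (y i) • (ContinuousLinearMap.proj i : (Fin m → ℝ) →L[ℝ] ℝ)) y := by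
    intro i _
    have h2 : HasFDerivAt (fun y : Fin m → ℝ => y i)
      (ContinuousLinearMap.proj i : (Fin m → ℝ) →L[ℝ] ℝ) y :=
      (ContinuousLinearMap.proj i : (Fin m → ℝ) →L[ℝ] ℝ).hasFDerivAt
    exact (Osc.h_deriv (α i) (y i)).comp_hasFDerivAt y h2
  have h3 := HasFDerivAt.finsetProd h1
  have h4 : HasFDerivAt (hp α) (Complex.ofRealCLM.comp (∑ i ∈ (univ : Finset (Fin m)),
      (∏ j ∈ univ.erase i, Osc.h (α j) (y j)) • (Osc.h' (α i) (y i) •
        (ContinuousLinearMap.proj i : (Fin m → ℝ) →L[ℝ] ℝ)))) y :=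
    Complex.ofRealCLM.hasFDerivAt.comp y h3
  rw [h4.fderiv, ContinuousLinearMap.comp_apply, _root_.sum_apply, Complex.ofRealCLM_apply]
  congr 1
  have h5 : ∀ i, ((∏ j ∈ univ.erase i, Osc.h (α j) (y j)) • (Osc.h' (α i) (y i) •
      (ContinuousLinearMap.proj i : (Fin m → ℝ) →L[ℝ] ℝ))) (Pi.single q 1) =
      if i = q then ∏ i, df α q i (y i) else 0 := by
    intro i
    simp only [_root_.smul_apply, ContinuousLinearMap.proj_apply, smul_eq_mul]
    split_ifs with h6
    · subst h6
      rw [Pi.single_eq_same, mul_one, ← mul_prod_erase univ _ (mem_univ i), mul_comm]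
      congr 1
      · unfold df; rw [if_pos rfl]
      · refine prod_congr rfl fun j hj => ?_
        unfold df
        rw [if_neg (ne_of_mem_erase hj)]
    · rw [Pi.single_eq_of_ne h6, mul_zero, mul_zero]
  simp only [h5]
  rw [sum_ite_eq', if_pos (mem_univ q)]

theorem hp_fam : FamG (hp : (Fin m → ℕ) → (Fin m → ℝ) → ℂ) := by
  refine ⟨hp_cd, fun α => ?_, fun α q => ?_, fun α β => ?_⟩
  · have h1 : Integrable fun y : Fin m → ℝ => ∏ i, (Osc.h (α i) (y i) * Osc.h (α i) (y i)) :=
      Integrable.fintype_prod (f := fun i t => Osc.h (α i) t * Osc.h (α i) t)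
        fun i => gg_int _ _
    refine h1.congr (Eventually.of_forall fun y => ?_)
    dsimp only
    unfold hp
    rw [Complex.norm_real, Real.norm_eq_abs, sq_abs, prod_mul_distrib, sq]
  · have h1 : Integrable fun y : Fin m → ℝ => ∏ i, (df α q i (y i) * df α q i (y i)) := by
      refine Integrable.fintype_prod (f := fun i t => df α q i t * df α q i t) fun i => ?_
      unfold df
      split_ifs
      · exact gg_int _ _
      · exact gg_int _ _
    refine h1.congr (Eventually.of_forall fun y => ?_)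
    dsimp only
    rw [hp_fd, Complex.norm_real, Real.norm_eq_abs, sq_abs, prod_mul_distrib, sq]
  · have h1 : ∀ y : Fin m → ℝ, conj (hp α y) * hp β y =
        ((∏ i, (Osc.h (α i) (y i) * Osc.h (β i) (y i)) : ℝ) : ℂ) := by
      intro y
      unfold hp
      rw [Complex.conj_ofReal, ← Complex.ofReal_mul, prod_mul_distrib]
    simp only [h1]
    rw [integral_complex_ofReal,
      integral_fintype_prod_volume_eq_prod fun i t => Osc.h (α i) t * Osc.h (β i) t]
    simp only [Osc.h_ortho]
    by_cases h2 : α = β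
    · subst h2; simp
    · rw [if_neg h2]
      obtain ⟨i, hi⟩ := Function.ne_iff.1 h2
      rw [prod_eq_zero (mem_univ i) (if_neg hi)]
      norm_num

end Pool.Agent.H45.LT.Tr
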