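import Mathlib
import Pool.Agent.H45.LT.Osc3

set_option autoImplicit false

/-!
# The generating functions for the oscillator with the frequencies one and two
-/

open MeasureTheory Set Real

namespace Pool.Agent.H45.LT.Os2

open PowerSeries
open Osc (J JS)

/-- the coefficients of `(1 - X)^(-1/2)` -/
noncomputable def w (n : ℕ) : ℝ := ∏ i ∈ Finset.range n, (2 * (i:ℝ) + 1) / (2 * i + 2)

theorem J_w (n : ℕ) : J 0 0 n = J 0 0 0 * w n := by
  induction n with
  | zero => simp [w]
  | succ n ih =>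
    have h := Osc.J_succ n
    have hn : (0:ℝ) < 2 * (n:ℝ) + 2 := by positivity
    have h2 : w (n + 1) = w n * ((2 * (n:ℝ) + 1) / (2 * n + 2)) := by
      unfold w
      rw [Finset.prod_range_succ]
    rw [h2, ← mul_assoc, ← ih, mul_div_assoc', eq_div_iff hn.ne']
    linarith

/-- the power series `(1 - X)^(-1/2)` -/
noncomputable def wS : PowerSeries ℝ := PowerSeries.mk w

theorem JS_wS : JS 0 0 = (C (J 0 0 0) : PowerSeries ℝ) * wS := by
  ext n
  rw [JS, coeff_mk, coeff_C_mul, wS, coeff_mk, J_w]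

theorem wS_sq : (1 - X) * (wS * wS) = (1 : PowerSeries ℝ) := by
  have h := Osc.JS_base
  rw [JS_wS] at h
  have h1 : (C (2 * π) : PowerSeries ℝ) * ((1 - X) * (C (J 0 0 0) * wS * (C (J 0 0 0) * wS))) =
      C (2 * π * J 0 0 0 ^ 2) * ((1 - X) * (wS * wS)) := by
    rw [map_mul (C) (2 * π) (J 0 0 0 ^ 2), map_pow]; ring
  rw [h1, Osc.J_start, map_one, one_mul] at h
  exact h

/-- the substitution of `X²` -/
noncomputable def x2 : PowerSeries ℝ →ₐ[ℝ] PowerSeries ℝ := expand 2 two_ne_zero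

theorem x2_coeff (φ : PowerSeries ℝ) (n : ℕ) :
    coeff n (x2 φ) = if 2 ∣ n then coeff (n / 2) φ else 0 := coeff_expand 2 two_ne_zero φ

theorem x2_X : x2 X = X ^ 2 := by
  ext n
  rw [x2_coeff, coeff_X_pow]
  by_cases h : 2 ∣ n
  · rw [if_pos h, coeff_X]
    congr 1
    rw [eq_iff_iff]
    omega
  · rw [if_neg h, if_neg (by omega)]

theorem x2_poly (r : Polynomial ℝ) :
    x2 (r : PowerSeries ℝ) = ((Polynomial.expand ℝ 2 r : Polynomial ℝ) : PowerSeries ℝ) := by
  ext n
  rw [x2_coeff]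
  simp only [Polynomial.coeff_coe, Polynomial.coeff_expand two_pos]

theorem x2_const (φ : PowerSeries ℝ) : constantCoeff (x2 φ) = constantCoeff φ := by
  rw [← coeff_zero_eq_constantCoeff_apply, x2_coeff, if_pos (by simp)]
  simp

theorem wS_const : constantCoeff wS = 1 := by
  rw [← coeff_zero_eq_constantCoeff_apply, wS, coeff_mk, w]
  simp

/-- `(1 - X) (1 - X)^(-1/2) (1 - X²)^(-1/2) = (1 + X)^(-1/2)` -/
theorem key : (1 - X) * (wS * x2 wS) = evalNegHom wS := by
  have h1 : x2 ((1 - X) * (wS * wS)) = 1 := by rw [wS_sq, map_one]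
  rw [map_mul, map_mul, map_sub, map_one, x2_X] at h1
  have h2 : evalNegHom ((1 - X) * (wS * wS)) = (1 : PowerSeries ℝ) := by rw [wS_sq, map_one]
  rw [map_mul, map_mul, map_sub, map_one, evalNegHom_X] at h2
  set A : PowerSeries ℝ := (1 - X) * (wS * x2 wS) with hA
  set B : PowerSeries ℝ := evalNegHom wS with hB
  have h3 : (1 + X) * (A * A) = (1 : PowerSeries ℝ) := by
    rw [hA]
    linear_combination (1 - X ^ 2) * (x2 wS * x2 wS) * wS_sq + h1
  have h4 : (1 + X) * (B * B) = (1 : PowerSeries ℝ) := by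
    rwa [sub_neg_eq_add] at h2
  have h5 : (1 + X : PowerSeries ℝ) ≠ 0 := by
    intro h
    have := congrArg constantCoeff h
    simp at this
  have h6 : A * A = B * B := mul_left_cancel₀ h5 (h3.trans h4.symm)
  rcases mul_self_eq_mul_self_iff.1 h6 with h | h
  · exact h
  · exfalso
    have h7 := congrArg constantCoeff h
    have h8 : constantCoeff B = 1 := by
      rw [hB, ← coeff_zero_eq_constantCoeff_apply, evalNegHom, coeff_rescale,
        coeff_zero_eq_constantCoeff_apply, wS_const]; simp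
    rw [map_neg, h8, hA] at h7
    simp only [map_mul, map_sub, map_one, constantCoeff_X, sub_zero, one_mul, wS_const,
      x2_const] at h7
    norm_num at h7

/-! ### Weighted sums -/

theorem gsum {S G : PowerSeries ℝ} (h : (1 - X) * S = G) (k : ℕ) :
    2 * ∑ l ∈ Finset.range k, coeff l S + coeff k S =
      ∑ j ∈ Finset.range (k + 1), (2 * (k:ℝ) + 1 - 2 * j) * coeff j G := by
  have h0 : coeff 0 S = coeff 0 G := by
    have := congrArg (coeff 0) h
    rwa [sub_mul, one_mul, map_sub, coeff_zero_X_mul, sub_zero] at this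
  have h1 : ∀ l, coeff (l + 1) S = coeff l S + coeff (l + 1) G := by
    intro l
    have := congrArg (coeff (l + 1)) h
    rw [sub_mul, one_mul, map_sub, coeff_succ_X_mul] at this
    linarith
  have h2 : ∀ l, coeff l S = ∑ j ∈ Finset.range (l + 1), coeff j G := by
    intro l
    induction l with
    | zero => simp [h0]
    | succ l ih => rw [h1, ih, Finset.sum_range_succ _ (l + 1)]
  induction k with
  | zero => simp [h0]
  | succ k ih =>
    rw [Finset.sum_range_succ, Finset.sum_range_succ _ (k + 1)]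
    have h3 : ∑ j ∈ Finset.range (k + 1), (2 * ((k + 1 : ℕ):ℝ) + 1 - 2 * j) * coeff j G =
        ∑ j ∈ Finset.range (k + 1), (2 * (k:ℝ) + 1 - 2 * j) * coeff j G +
        2 * ∑ j ∈ Finset.range (k + 1), coeff j G := by
      rw [Finset.mul_sum, ← Finset.sum_add_distrib]
      refine Finset.sum_congr rfl fun j _ => ?_
      push_cast; ring
    rw [h3, ← ih, h1, ← h2]
    push_cast; ring

theorem tri (k : ℕ) (f : ℕ → ℕ → ℝ) :
    ∑ j ∈ Finset.range (k + 1), ∑ i ∈ Finset.range (j + 1), f i (j - i) =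
      ∑ i ∈ Finset.range (k + 1), ∑ m ∈ Finset.range (k - i + 1), f i m := by
  have h1 : ∑ j ∈ Finset.range (k + 1), ∑ i ∈ Finset.range (j + 1), f i (j - i) =
      ∑ i ∈ Finset.range (k + 1), ∑ j ∈ Finset.Ico i (k + 1), f i (j - i) := by
    refine Finset.sum_comm' fun j i => ?_
    simp only [Finset.mem_range, Finset.mem_Ico]
    omega
  rw [h1]
  refine Finset.sum_congr rfl fun i hi => ?_
  rw [Finset.mem_range] at hi
  rw [Finset.sum_Ico_eq_sum_range]
  have h2 : k + 1 - i = k - i + 1 := by omega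
  rw [h2]
  refine Finset.sum_congr rfl fun m _ => ?_
  rw [Nat.add_sub_cancel_left]

/-- the weighted sums of the coefficients of a product -/
theorem gsum_mul {S : PowerSeries ℝ} (R : Polynomial ℝ) {b : ℕ → ℝ}
    (h : (1 - X) * S = (R : PowerSeries ℝ) * PowerSeries.mk b) (k : ℕ) :
    2 * ∑ l ∈ Finset.range k, coeff l S + coeff k S =
      ∑ i ∈ Finset.range (k + 1), R.coeff i *
        ∑ m ∈ Finset.range (k - i + 1), (2 * ((k - i : ℕ) : ℝ) + 1 - 2 * m) * b m := by
  rw [gsum h k]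
  have h1 : ∀ j ∈ Finset.range (k + 1), (2 * (k:ℝ) + 1 - 2 * j) *
      coeff j ((R : PowerSeries ℝ) * PowerSeries.mk b) =
      ∑ i ∈ Finset.range (j + 1), (2 * (k:ℝ) + 1 - 2 * ((i + (j - i) : ℕ) : ℝ)) *
        (R.coeff i * b (j - i)) := by
    intro j _
    rw [coeff_mul, Finset.Nat.sum_antidiagonal_eq_sum_range_succ_mk, Finset.mul_sum]
    refine Finset.sum_congr rfl fun i hi => ?_
    rw [Finset.mem_range] at hi
    rw [Polynomial.coeff_coe, coeff_mk, show i + (j - i) = j by omega]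
  rw [Finset.sum_congr rfl h1, tri k fun i m => (2 * (k:ℝ) + 1 - 2 * ((i + m : ℕ) : ℝ)) *
    (R.coeff i * b m)]
  refine Finset.sum_congr rfl fun i hi => ?_
  rw [Finset.mul_sum]
  refine Finset.sum_congr rfl fun m _ => ?_
  rw [Finset.mem_range] at hi
  have h2 : ((k - i : ℕ) : ℝ) = (k:ℝ) - i := by rw [Nat.cast_sub (by omega)]
  rw [h2]
  push_cast; ring

theorem ucl {r : ℝ} (hr : 0 ≤ r) (n : ℕ) :
    ∑ m ∈ Finset.range (n + 1), (2 * (n:ℝ) + 1 - 2 * m) * (-r) ^ m =
      2 / (1 + r) * ((n:ℝ) + 1) - (1 - r) / (1 + r) ^ 2 -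
        r * (1 - r) / (1 + r) ^ 2 * (-r) ^ n := by
  have h0 : (1 + r) ≠ 0 := by positivity
  have hg : ∀ n : ℕ, ∑ m ∈ Finset.range (n + 1), (-r) ^ m = (1 - (-r) ^ (n + 1)) / (1 + r) := by
    intro n
    rw [eq_div_iff h0]
    induction n with
    | zero => simp
    | succ n ih => rw [Finset.sum_range_succ, add_mul, ih]; ring
  induction n with
  | zero =>
    simp
    field_simp
    ring
  | succ n ih =>
    rw [Finset.sum_range_succ]
    have h3 : ∑ m ∈ Finset.range (n + 1), (2 * ((n + 1 : ℕ):ℝ) + 1 - 2 * m) * (-r) ^ m =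
        ∑ m ∈ Finset.range (n + 1), (2 * (n:ℝ) + 1 - 2 * m) * (-r) ^ m +
        2 * ∑ m ∈ Finset.range (n + 1), (-r) ^ m := by
      rw [Finset.mul_sum, ← Finset.sum_add_distrib]
      refine Finset.sum_congr rfl fun j _ => ?_
      push_cast; ring
    rw [h3, ih, hg]
    push_cast
    field_simp
    ring

end Pool.Agent.H45.LT.Os2
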