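import Mathlib
import Pool.Agent.H45.LT.Tw1

set_option autoImplicit false

/-!
# The polynomials of the quartic integrals, their values, and positivity
-/

open MeasureTheory Set Real

namespace Pool.Agent.H45.LT.Os2

open PowerSeries (C X)
open Osc (J JS)

/-- the polynomial with `JS a a' = Q a a' JS 0 0` -/
noncomputable def Q (a a' : ℕ) : Polynomial ℝ := (Osc.good _ a a' le_rfl).choose

theorem Q_spec (a a' : ℕ) : JS a a' = (Q a a' : PowerSeries ℝ) * JS 0 0 ∧
    (∀ i, a + a' < 2 * i → (Q a a').coeff i = 0) ∧ (Q a a').eval 1 = (if a = a' then 1 else 0) ∧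
    (a = a' → 2 * (Polynomial.derivative (Q a a')).eval 1 = (a:ℝ)) :=
  (Osc.good _ a a' le_rfl).choose_spec

theorem JS_ne : JS 0 0 ≠ 0 := by
  intro h
  have := Osc.JS_base
  rw [h] at this
  simp at this

theorem Q_uniq {p q : Polynomial ℝ} (h : (p : PowerSeries ℝ) * JS 0 0 = (q : PowerSeries ℝ) *
    JS 0 0) : p = q :=
  Polynomial.coe_injective ℝ (mul_right_cancel₀ JS_ne h)

theorem Q_symm (a a' : ℕ) : Q a a' = Q a' a := by
  refine Q_uniq ?_
  rw [← (Q_spec a a').1, ← (Q_spec a' a).1, Osc.JS_symm]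

theorem Q_zero : Q 0 0 = 1 := by
  refine Q_uniq ?_
  rw [← (Q_spec 0 0).1]
  simp

theorem Q_rec (a a' : ℕ) : Polynomial.C (2 * √((a:ℝ) + 1)) * Q (a + 1) a' =
    -((1 - Polynomial.X) * (Polynomial.C √(a:ℝ) * Q (a - 1) a')) +
      (1 + Polynomial.X) * (Polynomial.C √(a':ℝ) * Q a (a' - 1)) := by
  refine Q_uniq ?_
  have h := Osc.JS_rec a a'
  rw [(Q_spec (a + 1) a').1, (Q_spec (a - 1) a').1, (Q_spec a (a' - 1)).1] at h
  push_cast
  linear_combination h

/-- the coefficients of `exp ((x - 1) z² / 2)` -/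
noncomputable def ee (x : ℝ) : ℕ → ℝ
  | 0 => 1
  | 1 => 0
  | (j + 2) => (x - 1) / ((j:ℝ) + 2) * ee x j

theorem ee_step (x : ℝ) (j : ℕ) : ((j:ℝ) + 2) * ee x (j + 2) = (x - 1) * ee x j := by
  have h : (j:ℝ) + 2 ≠ 0 := by positivity
  rw [ee]; field_simp

theorem ee_odd (x : ℝ) : ∀ j : ℕ, Odd j → ee x j = 0
  | 0, h => by simp at h
  | 1, _ => rfl
  | (j + 2), h => by
    rw [ee, ee_odd x j (by rcases h with ⟨i, hi⟩; exact ⟨i - 1, by omega⟩), mul_zero]

/-- `(1 + x) ^ k / k!` -/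
noncomputable def dd (x : ℝ) : ℕ → ℝ
  | 0 => 1
  | (k + 1) => dd x k * (1 + x) / ((k:ℝ) + 1)

theorem dd_step (x : ℝ) (k : ℕ) : ((k:ℝ) + 1) * dd x (k + 1) = (1 + x) * dd x k := by
  have h : (k:ℝ) + 1 ≠ 0 := by positivity
  rw [dd]; field_simp

theorem dd_nonneg {x : ℝ} (hx : 0 ≤ 1 + x) (k : ℕ) : 0 ≤ dd x k := by
  induction k with
  | zero => rw [dd]; norm_num
  | succ k ih => rw [dd]; positivity

theorem dd_sign {x : ℝ} (hx : 1 + x ≤ 0) (k : ℕ) : 0 ≤ (-1) ^ k * dd x k := by
  induction k with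
  | zero => rw [dd]; norm_num
  | succ k ih =>
    rw [dd, show (-1:ℝ) ^ (k + 1) * (dd x k * (1 + x) / ((k:ℝ) + 1)) =
      ((-1) ^ k * dd x k) * (-(1 + x)) / ((k:ℝ) + 1) by ring]
    have : 0 ≤ -(1 + x) := by linarith
    positivity

/-- the coefficients -/
noncomputable def Ex (x : ℝ) (a k : ℕ) : ℝ := if k ≤ a then ee x (a - k) else 0

theorem Ex_succ (x : ℝ) (a k : ℕ) : Ex x (a + 1) (k + 1) = Ex x a k := by
  unfold Ex
  by_cases h : k ≤ a
  · rw [if_pos h, if_pos (by omega), Nat.add_sub_add_right]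
  · rw [if_neg h, if_neg (by omega)]

theorem Ex_step (x : ℝ) (a k : ℕ) : ((a:ℝ) + 1 - k) * Ex x (a + 1) k =
    (x - 1) * (if a = 0 then 0 else Ex x (a - 1) k) := by
  unfold Ex
  rcases lt_trichotomy k (a + 1) with h | h | h
  · rw [if_pos (by omega)]
    rcases Nat.lt_or_ge k a with h1 | h1
    · rw [if_neg (by omega), if_pos (by omega)]
      obtain ⟨j, rfl⟩ : ∃ j, a = k + 1 + j := ⟨a - (k + 1), by omega⟩
      rw [show k + 1 + j + 1 - k = j + 2 by omega, show k + 1 + j - 1 - k = j by omega,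
        ← ee_step]
      push_cast; ring
    · have h2 : k = a := by omega
      subst h2
      rw [show k + 1 - k = 1 by omega]
      have h3 : ee x 1 = 0 := rfl
      rw [h3, mul_zero]
      split_ifs with h4 h5
      · simp
      · omega
      · simp
  · subst h
    push_cast
    rw [if_pos le_rfl, if_neg (show ¬ (a + 1 ≤ a - 1) by omega)]
    simp
  · rw [if_neg (by omega), if_neg (show ¬ (k ≤ a - 1) by omega)]
    simp

/-- the normalized values of the polynomials, for `N ≥ a` -/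
noncomputable def TT (N : ℕ) (x : ℝ) (a a' : ℕ) : ℝ :=
  ∑ k ∈ Finset.range (N + 1), Ex x a k * Ex x a' k * dd x k

theorem TT_rec {N : ℕ} (x : ℝ) {a a' : ℕ} (ha : a + 1 ≤ N) :
    ((a:ℝ) + 1) * TT N x (a + 1) a' = (x - 1) * (if a = 0 then 0 else TT N x (a - 1) a') +
      (1 + x) * (if a' = 0 then 0 else TT N x a (a' - 1)) := by
  have h1 : ((a:ℝ) + 1) * TT N x (a + 1) a' =
      ∑ k ∈ Finset.range (N + 1), (((a:ℝ) + 1 - k) * Ex x (a + 1) k) * (Ex x a' k * dd x k) +
      ∑ k ∈ Finset.range (N + 1), (k:ℝ) * (Ex x (a + 1) k * Ex x a' k * dd x k) := by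
    unfold TT
    rw [Finset.mul_sum, ← Finset.sum_add_distrib]
    exact Finset.sum_congr rfl fun k _ => by ring
  rw [h1]
  congr 1
  · simp only [Ex_step]
    unfold TT
    split_ifs with h
    · simp
    · rw [Finset.mul_sum]
      exact Finset.sum_congr rfl fun k _ => by ring
  · rw [Finset.sum_range_succ']
    simp only [Nat.cast_zero, zero_mul, add_zero]
    have h2 : ∀ k ∈ Finset.range N, ((k + 1 : ℕ) : ℝ) * (Ex x (a + 1) (k + 1) *
        Ex x a' (k + 1) * dd x (k + 1)) = (1 + x) * (Ex x a k * Ex x a' (k + 1) * dd x k) := by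
      intro k _
      rw [Ex_succ]
      push_cast
      linear_combination (Ex x a k * Ex x a' (k + 1)) * dd_step x k
    rw [Finset.sum_congr rfl h2, ← Finset.mul_sum]
    congr 1
    rcases a' with _ | a'
    · rw [if_pos rfl]
      refine Finset.sum_eq_zero fun k _ => ?_
      have : Ex x 0 (k + 1) = 0 := by unfold Ex; rw [if_neg (by omega)]
      rw [this]; ring
    · rw [if_neg (by omega), Nat.add_sub_cancel]
      simp only [Ex_succ]
      unfold TT
      rw [Finset.sum_range_succ]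
      have : Ex x a N = 0 := by unfold Ex; rw [if_neg (by omega)]
      rw [this]; ring

theorem TT_symm (N : ℕ) (x : ℝ) (a a' : ℕ) : TT N x a a' = TT N x a' a := by
  unfold TT
  exact Finset.sum_congr rfl fun k _ => by ring

theorem TT_zero (N : ℕ) (x : ℝ) : TT N x 0 0 = 1 := by
  unfold TT
  rw [Finset.sum_range_succ']
  have h1 : ∀ k ∈ Finset.range N, Ex x 0 (k + 1) * Ex x 0 (k + 1) * dd x (k + 1) = 0 := by
    intro k _
    have : Ex x 0 (k + 1) = 0 := by unfold Ex; rw [if_neg (by omega)]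
    rw [this]; ring
  rw [Finset.sum_eq_zero h1]
  simp [Ex, ee, dd]

/-- the normalization -/
noncomputable def bb : ℕ → ℝ
  | 0 => 1
  | (a + 1) => bb a * √((a:ℝ) + 1) / √2

theorem bb_pred {a : ℕ} (h : a ≠ 0) : √(a:ℝ) * bb (a - 1) = √2 * bb a := by
  obtain ⟨b, rfl⟩ : ∃ b, a = b + 1 := ⟨a - 1, by omega⟩
  have h2 : (0:ℝ) < √2 := Real.sqrt_pos.2 (by norm_num)
  rw [Nat.add_sub_cancel, bb]
  push_cast
  field_simp

/-- **The values of the polynomials.** -/
theorem Q_eval (x : ℝ) (N : ℕ) : ∀ n a a' : ℕ, a + a' ≤ n → a + a' ≤ N →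
    (Q a a').eval x = bb a * bb a' * TT N x a a' := by
  intro n
  induction n with
  | zero =>
    intro a a' h _
    obtain ⟨rfl, rfl⟩ : a = 0 ∧ a' = 0 := by omega
    rw [Q_zero, TT_zero]
    simp [bb]
  | succ n ih =>
    -- the step for the first index
    have step : ∀ a a' : ℕ, a + 1 + a' ≤ n + 1 → a + 1 + a' ≤ N →
        (Q (a + 1) a').eval x = bb (a + 1) * bb a' * TT N x (a + 1) a' := by
      intro a a' h hN
      have h0 : (0:ℝ) < (a:ℝ) + 1 := by positivity
      have hs : (0:ℝ) < √((a:ℝ) + 1) := Real.sqrt_pos.2 h0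
      have hs2 : √((a:ℝ) + 1) * √((a:ℝ) + 1) = (a:ℝ) + 1 := Real.mul_self_sqrt h0.le
      have h2 : (0:ℝ) < √2 := Real.sqrt_pos.2 (by norm_num)
      have h22 : √2 * √2 = (2:ℝ) := Real.mul_self_sqrt (by norm_num)
      have hrec := congrArg (Polynomial.eval x) (Q_rec a a')
      simp only [Polynomial.eval_mul, Polynomial.eval_add, Polynomial.eval_neg,
        Polynomial.eval_sub, Polynomial.eval_one, Polynomial.eval_X, Polynomial.eval_C] at hrec
      have e1 : √(a:ℝ) * (Q (a - 1) a').eval x =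
          √2 * bb a * bb a' * (if a = 0 then 0 else TT N x (a - 1) a') := by
        by_cases ha : a = 0
        · simp [ha]
        · rw [if_neg ha, ih (a - 1) a' (by omega) (by omega)]
          linear_combination (bb a' * TT N x (a - 1) a') * bb_pred ha
      have e2 : √(a':ℝ) * (Q a (a' - 1)).eval x =
          √2 * bb a * bb a' * (if a' = 0 then 0 else TT N x a (a' - 1)) := by
        by_cases ha : a' = 0
        · simp [ha]
        · rw [if_neg ha, ih a (a' - 1) (by omega) (by omega)]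
          linear_combination (bb a * TT N x a (a' - 1)) * bb_pred ha
      rw [e1, e2] at hrec
      have hT := TT_rec (N := N) x (a := a) (a' := a') (by omega)
      have h5 : 2 * √((a:ℝ) + 1) * (Q (a + 1) a').eval x =
          √2 * bb a * bb a' * (((a:ℝ) + 1) * TT N x (a + 1) a') := by
        rw [hrec, hT]; ring
      have h6 : bb (a + 1) = bb a * √((a:ℝ) + 1) / √2 := rfl
      have h7 : 2 * √((a:ℝ) + 1) ≠ 0 := by positivity
      apply mul_left_cancel₀ h7
      rw [h5, h6]
      have h8 : bb a * √((a:ℝ) + 1) / √2 = bb a * √((a:ℝ) + 1) * √2 / 2 := by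
        rw [div_eq_div_iff h2.ne' two_ne_zero]
        linear_combination (-(bb a * √((a:ℝ) + 1))) * h22
      rw [h8]
      linear_combination (-(√2 * bb a * bb a' * TT N x (a + 1) a')) * hs2
    intro a a' h hN
    rcases a with _ | a
    · rcases a' with _ | a'
      · rw [Q_zero, TT_zero]; simp [bb]
      · rw [Q_symm, step a' 0 (by omega) (by omega), TT_symm]; ring
    · exact step a a' h hN

theorem Q_val (x : ℝ) {N a a' : ℕ} (h : a + a' ≤ N) :
    (Q a a').eval x = bb a * bb a' * TT N x a a' := Q_eval x N _ a a' le_rfl h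

end Pool.Agent.H45.LT.Os2
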