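import Mathlib
import Pool.Agent.H45.LT.Tw2

set_option autoImplicit false

/-!
# The inequality for the levels
-/

open MeasureTheory Set Filter Topology Real

namespace Pool.Agent.H45.LT.Os2

open Osc (J JS)

/-! ### Two integrals -/

theorem s_cont : Continuous fun θ : ℝ => 1 / (1 + sin θ ^ 2) := by
  refine continuous_const.div (by fun_prop) fun θ => ?_
  positivity

theorem s_cont2 : Continuous fun θ : ℝ => (1 - sin θ ^ 2) / (1 + sin θ ^ 2) ^ 2 := by
  refine Continuous.div (by fun_prop) (by fun_prop) fun θ => ?_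
  positivity

theorem int1 : ∫ θ in (0:ℝ)..π, 1 / (1 + sin θ ^ 2) = π / √2 := by
  have hper : Function.Periodic (fun θ : ℝ => 1 / (1 + sin θ ^ 2)) π := by
    intro θ
    simp only [Real.sin_add_pi, neg_sq]
  have h1 := hper.intervalIntegral_add_eq 0 (-(π / 2))
  rw [zero_add, show -(π / 2) + π = π / 2 by ring] at h1
  rw [h1]
  have h2 : (0:ℝ) < √2 := Real.sqrt_pos.2 (by norm_num)
  have h22 : √2 * √2 = (2:ℝ) := Real.mul_self_sqrt (by norm_num)
  have hF : ∀ θ ∈ Ioo (-(π / 2)) (π / 2),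
      HasDerivAt (fun θ => arctan (√2 * tan θ) / √2) (1 / (1 + sin θ ^ 2)) θ := by
    intro θ hθ
    have hc : 0 < cos θ := Real.cos_pos_of_mem_Ioo hθ
    have h3 := ((Real.hasDerivAt_tan hc.ne').const_mul √2).arctan.div_const √2
    refine h3.congr_deriv ?_
    have h4 : cos θ ^ 2 = 1 - sin θ ^ 2 := by
      have := Real.sin_sq_add_cos_sq θ; linarith
    have h5 : 1 + (√2 * tan θ) ^ 2 = (1 + sin θ ^ 2) / cos θ ^ 2 := by
      rw [Real.tan_eq_sin_div_cos, mul_pow, div_pow, sq √2, h22, eq_div_iff (by positivity),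
        add_mul, mul_assoc, div_mul_cancel₀ _ (by positivity), h4]
      ring
    rw [h5]
    have h6 : (0:ℝ) < 1 + sin θ ^ 2 := by positivity
    field_simp
  have hb : Tendsto (fun θ => arctan (√2 * tan θ) / √2) (𝓝[<] (π / 2)) (𝓝 (π / 2 / √2)) := by
    have h3 : Tendsto (fun θ => √2 * tan θ) (𝓝[<] (π / 2)) atTop :=
      Real.tendsto_tan_pi_div_two.const_mul_atTop h2
    exact ((Real.tendsto_arctan_atTop.comp h3).mono_right nhdsWithin_le_nhds).div_const _
  have ha : Tendsto (fun θ => arctan (√2 * tan θ) / √2) (𝓝[>] (-(π / 2)))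
      (𝓝 (-(π / 2) / √2)) := by
    have h3 : Tendsto (fun θ => √2 * tan θ) (𝓝[>] (-(π / 2))) atBot :=
      Real.tendsto_tan_neg_pi_div_two.const_mul_atBot h2
    exact ((Real.tendsto_arctan_atBot.comp h3).mono_right nhdsWithin_le_nhds).div_const _
  rw [intervalIntegral.integral_eq_sub_of_hasDerivAt_of_tendsto (by linarith [pi_pos]) hF
    (s_cont.intervalIntegrable _ _) ha hb]
  ring

theorem int2 : ∫ θ in (0:ℝ)..π, (1 - sin θ ^ 2) / (1 + sin θ ^ 2) ^ 2 = π / √2 / 2 := by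
  have hG : ∀ θ ∈ uIcc (0:ℝ) π, HasDerivAt (fun θ => 1 / 2 * (sin θ * cos θ / (1 + sin θ ^ 2)))
      ((1 - sin θ ^ 2) / (1 + sin θ ^ 2) ^ 2 - 1 / 2 * (1 / (1 + sin θ ^ 2))) θ := by
    intro θ _
    have h6 : (0:ℝ) < 1 + sin θ ^ 2 := by positivity
    have h7 := (((Real.hasDerivAt_sin θ).mul (Real.hasDerivAt_cos θ)).div
      (((Real.hasDerivAt_sin θ).pow 2).const_add 1) h6.ne').const_mul (1 / 2 : ℝ)
    refine h7.congr_deriv ?_
    have h4 : cos θ ^ 2 = 1 - sin θ ^ 2 := by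
      have := Real.sin_sq_add_cos_sq θ; linarith
    simp only [Pi.mul_apply, Pi.pow_apply]
    field_simp
    push_cast
    ring_nf
    rw [h4]
    ring
  have hi : IntervalIntegrable (fun θ => (1 - sin θ ^ 2) / (1 + sin θ ^ 2) ^ 2 -
      1 / 2 * (1 / (1 + sin θ ^ 2))) volume 0 π :=
    (s_cont2.sub (continuous_const.mul s_cont)).intervalIntegrable _ _
  have h1 := intervalIntegral.integral_eq_sub_of_hasDerivAt hG hi
  have hi1 : IntervalIntegrable (fun θ : ℝ => (1 - sin θ ^ 2) / (1 + sin θ ^ 2) ^ 2)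
      volume 0 π := s_cont2.intervalIntegrable _ _
  have hi2 : IntervalIntegrable (fun θ : ℝ => 1 / 2 * (1 / (1 + sin θ ^ 2))) volume 0 π :=
    (continuous_const.mul s_cont).intervalIntegrable _ _
  rw [intervalIntegral.integral_sub hi1 hi2,
    intervalIntegral.integral_const_mul, int1] at h1
  simp only [Real.sin_pi, Real.sin_zero, zero_mul, zero_div, mul_zero, sub_zero] at h1
  linarith

theorem w_int (n : ℕ) : ∫ θ in (0:ℝ)..π, sin θ ^ (2 * n) = π * w n := integral_sin_pow_even n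

/-! ### The weighted sums -/

/-- the weighted sums for `R (1 + X)^(-1/2)` -/
noncomputable def US (k : ℕ) (R : Polynomial ℝ) : ℝ :=
  ∑ i ∈ Finset.range (k + 1), R.coeff i *
    ∑ m ∈ Finset.range (k - i + 1), (2 * ((k - i : ℕ) : ℝ) + 1 - 2 * m) * ((-1) ^ m * w m)

/-- `∑ R_i (-r)^(k-i)` -/
noncomputable def Hr (k : ℕ) (R : Polynomial ℝ) (r : ℝ) : ℝ :=
  ∑ i ∈ Finset.range (k + 1), R.coeff i * (-r) ^ (k - i)

theorem eval_one_sum {k : ℕ} {R : Polynomial ℝ} (h : ∀ i, k < i → R.coeff i = 0) :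
    R.eval 1 = ∑ i ∈ Finset.range (k + 1), R.coeff i ∧
    (Polynomial.derivative R).eval 1 = ∑ i ∈ Finset.range (k + 1), (i:ℝ) * R.coeff i := by
  have h1 : R = ∑ j ∈ Finset.range (k + 1), Polynomial.monomial j (R.coeff j) := by
    refine Polynomial.as_sum_range' R (k + 1) ?_
    rw [Nat.lt_succ_iff, Polynomial.natDegree_le_iff_coeff_eq_zero]
    exact fun i hi => h i hi
  constructor
  · conv_lhs => rw [h1]
    rw [Polynomial.eval_finsetSum]
    simp
  · conv_lhs => rw [h1]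
    rw [Polynomial.derivative_sum, Polynomial.eval_finsetSum]
    refine Finset.sum_congr rfl fun j _ => ?_
    rw [Polynomial.derivative_monomial]
    simp [mul_comm]

theorem Hr_eval {k : ℕ} {R : Polynomial ℝ} (h : ∀ i, k < i → R.coeff i = 0) {r : ℝ}
    (hr : r ≠ 0) : Hr k R r = (-r) ^ k * R.eval (-(1 / r)) := by
  have h1 : R = ∑ j ∈ Finset.range (k + 1), Polynomial.monomial j (R.coeff j) := by
    refine Polynomial.as_sum_range' R (k + 1) ?_
    rw [Nat.lt_succ_iff, Polynomial.natDegree_le_iff_coeff_eq_zero]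
    exact fun i hi => h i hi
  conv_rhs => rw [h1]
  rw [Polynomial.eval_finsetSum, Finset.mul_sum]
  unfold Hr
  refine Finset.sum_congr rfl fun i hi => ?_
  rw [Finset.mem_range] at hi
  rw [Polynomial.eval_monomial]
  have h2 : (-r) ^ k = (-r) ^ (k - i) * (-r) ^ i := by rw [← pow_add]; congr 1; omega
  have h3 : (-r) ^ i * (-(1 / r)) ^ i = 1 := by
    rw [← mul_pow]
    have : -r * -(1 / r) = 1 := by field_simp
    rw [this, one_pow]
  rw [h2]
  linear_combination (-(R.coeff i * (-r) ^ (k - i))) * h3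

/-- the integrand -/
noncomputable def ig (k : ℕ) (R : Polynomial ℝ) (r : ℝ) : ℝ :=
  2 / (1 + r) * (((k:ℝ) + 1) * R.eval 1 - (Polynomial.derivative R).eval 1) -
    (1 - r) / (1 + r) ^ 2 * R.eval 1 - r * (1 - r) / (1 + r) ^ 2 * Hr k R r

theorem ig_eq {k : ℕ} {R : Polynomial ℝ} (h : ∀ i, k < i → R.coeff i = 0) {r : ℝ}
    (hr : 0 ≤ r) : ∑ i ∈ Finset.range (k + 1), R.coeff i *
    ∑ m ∈ Finset.range (k - i + 1), (2 * ((k - i : ℕ) : ℝ) + 1 - 2 * m) * (-r) ^ m =
      ig k R r := by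
  obtain ⟨h1, h2⟩ := eval_one_sum h
  unfold ig Hr
  rw [h1, h2]
  simp only [Finset.mul_sum, ← Finset.sum_sub_distrib]
  refine Finset.sum_congr rfl fun i hi => ?_
  rw [Finset.mem_range] at hi
  have h3 := ucl hr (k - i)
  rw [← Finset.mul_sum, h3]
  have h4 : ((k - i : ℕ) : ℝ) = (k:ℝ) - i := by rw [Nat.cast_sub (by omega)]
  rw [h4]
  ring

theorem ig_cont (k : ℕ) (R : Polynomial ℝ) : Continuous fun θ : ℝ => ig k R (sin θ ^ 2) := by
  unfold ig Hr
  have h1 : ∀ θ : ℝ, 1 + sin θ ^ 2 ≠ 0 := fun θ => by positivity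
  have h2 : ∀ θ : ℝ, (1 + sin θ ^ 2) ^ 2 ≠ 0 := fun θ => by positivity
  refine Continuous.sub (Continuous.sub ?_ ?_) ?_
  · exact (continuous_const.div (by fun_prop) h1).mul continuous_const
  · exact ((by fun_prop : Continuous fun θ : ℝ => 1 - sin θ ^ 2).div (by fun_prop) h2).mul
      continuous_const
  · refine Continuous.mul (Continuous.div (by fun_prop) (by fun_prop) h2) ?_
    exact continuous_finsetSum _ fun i _ => continuous_const.mul (by fun_prop)

theorem US_int {k : ℕ} {R : Polynomial ℝ} (h : ∀ i, k < i → R.coeff i = 0) :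
    π * US k R = ∫ θ in (0:ℝ)..π, ig k R (sin θ ^ 2) := by
  have h1 : ∀ θ : ℝ, ig k R (sin θ ^ 2) = ∑ i ∈ Finset.range (k + 1), R.coeff i *
      ∑ m ∈ Finset.range (k - i + 1), (2 * ((k - i : ℕ) : ℝ) + 1 - 2 * m) *
        ((-1) ^ m * sin θ ^ (2 * m)) := by
    intro θ
    rw [← ig_eq h (by positivity)]
    refine Finset.sum_congr rfl fun i _ => ?_
    congr 1
    refine Finset.sum_congr rfl fun m _ => ?_
    rw [neg_pow, ← pow_mul]
  have hc : ∀ m : ℕ, Continuous fun θ : ℝ => (-1:ℝ) ^ m * sin θ ^ (2 * m) := fun m => by fun_prop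
  simp only [h1]
  have hj : ∀ i m : ℕ, IntervalIntegrable (fun θ : ℝ => (2 * ((k - i : ℕ) : ℝ) + 1 - 2 * m) *
      ((-1:ℝ) ^ m * sin θ ^ (2 * m))) volume 0 π := fun i m =>
    (continuous_const.mul (hc m)).intervalIntegrable _ _
  have hj2 : ∀ i : ℕ, Continuous fun θ : ℝ => ∑ m ∈ Finset.range (k - i + 1),
      (2 * ((k - i : ℕ) : ℝ) + 1 - 2 * m) * ((-1:ℝ) ^ m * sin θ ^ (2 * m)) := fun i =>
    continuous_finsetSum _ fun m _ => continuous_const.mul (hc m)
  have hj3 : ∀ i : ℕ, IntervalIntegrable (fun θ : ℝ => R.coeff i *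
      ∑ m ∈ Finset.range (k - i + 1), (2 * ((k - i : ℕ) : ℝ) + 1 - 2 * m) *
        ((-1:ℝ) ^ m * sin θ ^ (2 * m))) volume 0 π := fun i =>
    (continuous_const.mul (hj2 i)).intervalIntegrable _ _
  rw [intervalIntegral.integral_finsetSum fun i _ => hj3 i]
  unfold US
  rw [Finset.mul_sum]
  refine Finset.sum_congr rfl fun i _ => ?_
  rw [intervalIntegral.integral_const_mul,
    intervalIntegral.integral_finsetSum fun m _ => hj i m, mul_left_comm, Finset.mul_sum]
  congr 1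
  refine Finset.sum_congr rfl fun m _ => ?_
  rw [intervalIntegral.integral_const_mul, intervalIntegral.integral_const_mul, w_int]
  ring

/-- **The bound for the weighted sums.** -/
theorem US_le {k : ℕ} {R : Polynomial ℝ} (h : ∀ i, k < i → R.coeff i = 0) {M : ℝ}
    (h1 : R.eval 1 = M) (h2 : 2 * (Polynomial.derivative R).eval 1 = (k:ℝ) * M)
    (h3 : ∀ s : ℝ, 1 ≤ s → 0 ≤ (-1) ^ k * R.eval (-s)) :
    √2 * US k R ≤ ((k:ℝ) + 3 / 2) * M := by
  have hpi := pi_pos
  have hs2 : (0:ℝ) < √2 := Real.sqrt_pos.2 (by norm_num)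
  have hs22 : √2 * √2 = (2:ℝ) := Real.mul_self_sqrt (by norm_num)
  have hpt : ∀ θ ∈ Icc (0:ℝ) π, ig k R (sin θ ^ 2) ≤
      (((k:ℝ) + 2) * M) * (1 / (1 + sin θ ^ 2)) -
        M * ((1 - sin θ ^ 2) / (1 + sin θ ^ 2) ^ 2) := by
    intro θ _
    set r := sin θ ^ 2 with hr
    have hr0 : 0 ≤ r := by positivity
    have hr1 : r ≤ 1 := Real.sin_sq_le_one θ
    have hH : 0 ≤ r * (1 - r) / (1 + r) ^ 2 * Hr k R r := by
      rcases hr0.eq_or_lt with h0 | h0
      · rw [← h0]; simp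
      · have h5 : 0 ≤ Hr k R r := by
          rw [Hr_eval h h0.ne']
          have h6 := h3 (1 / r) (by rw [le_div_iff₀ h0]; linarith)
          have h7 : (-r) ^ k * Polynomial.eval (-(1 / r)) R =
              r ^ k * ((-1) ^ k * Polynomial.eval (-(1 / r)) R) := by
            rw [neg_pow r]; ring
          rw [h7]
          exact mul_nonneg (by positivity) h6
        have h6 : 0 ≤ 1 - r := by linarith
        positivity
    unfold ig
    rw [h1]
    have h8 : (Polynomial.derivative R).eval 1 = (k:ℝ) * M / 2 := by linarith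
    rw [h8]
    have h9 : (2:ℝ) / (1 + r) * (((k:ℝ) + 1) * M - (k:ℝ) * M / 2) =
        (((k:ℝ) + 2) * M) * (1 / (1 + r)) := by ring
    have h10 : (1 - r) / (1 + r) ^ 2 * M = M * ((1 - r) / (1 + r) ^ 2) := by ring
    rw [h9, h10]
    linarith
  have hi : IntervalIntegrable (fun θ => (((k:ℝ) + 2) * M) * (1 / (1 + sin θ ^ 2)) -
        M * ((1 - sin θ ^ 2) / (1 + sin θ ^ 2) ^ 2)) volume 0 π :=
    ((continuous_const.mul s_cont).sub (continuous_const.mul s_cont2)).intervalIntegrable _ _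
  have h4 := intervalIntegral.integral_mono_on hpi.le ((ig_cont k R).intervalIntegrable _ _) hi hpt
  have hi1 : IntervalIntegrable (fun θ : ℝ => (((k:ℝ) + 2) * M) * (1 / (1 + sin θ ^ 2)))
      volume 0 π := (continuous_const.mul s_cont).intervalIntegrable _ _
  have hi2 : IntervalIntegrable (fun θ : ℝ => M * ((1 - sin θ ^ 2) / (1 + sin θ ^ 2) ^ 2))
      volume 0 π := (continuous_const.mul s_cont2).intervalIntegrable _ _
  rw [← US_int h, intervalIntegral.integral_sub hi1 hi2,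
    intervalIntegral.integral_const_mul, intervalIntegral.integral_const_mul, int1, int2] at h4
  have h5 : ((k:ℝ) + 2) * M * (π / √2) - M * (π / √2 / 2) =
      π * ((((k:ℝ) + 3 / 2) * M) / √2) := by ring
  rw [h5] at h4
  have h6 := le_of_mul_le_mul_left h4 hpi
  rw [le_div_iff₀ hs2] at h6
  linarith

end Pool.Agent.H45.LT.Os2
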