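import Mathlib
import Pool.Agent.H45.LT.Tw3
import Pool.Agent.H45.LT.Osc4

set_option autoImplicit false

/-!
# The inequality for the levels of the oscillator with the frequencies one and two
-/

open MeasureTheory Set Filter Topology Real

namespace Pool.Agent.H45.LT.Os2

open Osc (J JS)

/-- `2 π ∫ Ψ_b Ψ_b' ρ_l` for the states of the level `k` and the density of the level `l` -/
noncomputable def W2 (k b b' l : ℕ) : ℝ :=
  2 * π * (√2 * ∑ d ∈ Finset.range (l / 2 + 1), J (k - 2 * b) (k - 2 * b') (l - 2 * d) * J b b' d)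

theorem coeff_S (a a' b b' l : ℕ) : PowerSeries.coeff l (JS a a' * x2 (JS b b')) =
    ∑ d ∈ Finset.range (l / 2 + 1), J a a' (l - 2 * d) * J b b' d := by
  rw [mul_comm, PowerSeries.coeff_mul, Finset.Nat.sum_antidiagonal_eq_sum_range_succ_mk]
  have h1 : ∀ i ∈ Finset.range l.succ, PowerSeries.coeff i (x2 (JS b b')) *
      PowerSeries.coeff (l - i) (JS a a') =
      if 2 ∣ i then J a a' (l - i) * J b b' (i / 2) else 0 := by
    intro i _
    rw [x2_coeff]
    simp only [JS, PowerSeries.coeff_mk]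
    split_ifs
    · ring
    · ring
  rw [Finset.sum_congr rfl h1, ← Finset.sum_filter]
  refine Finset.sum_nbij' (fun i => i / 2) (fun d => 2 * d) ?_ ?_ ?_ ?_ ?_
  · intro i hi
    simp only [Finset.mem_filter, Finset.mem_range] at hi ⊢
    omega
  · intro d hd
    simp only [Finset.mem_filter, Finset.mem_range] at hd ⊢
    omega
  · intro i hi
    simp only [Finset.mem_filter, Finset.mem_range] at hi
    show 2 * (i / 2) = i
    omega
  · intro d _
    show 2 * d / 2 = d
    omega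
  · intro i hi
    simp only [Finset.mem_filter, Finset.mem_range] at hi
    show J a a' (l - i) * J b b' (i / 2) = J a a' (l - 2 * (i / 2)) * J b b' (i / 2)
    rw [show 2 * (i / 2) = i by omega]

theorem neg_wS : PowerSeries.evalNegHom wS = PowerSeries.mk fun m => (-1) ^ m * w m := by
  ext m
  rw [PowerSeries.evalNegHom, PowerSeries.coeff_rescale, wS, PowerSeries.coeff_mk,
    PowerSeries.coeff_mk]

/-- the polynomials of the states of a level -/
noncomputable def R2 (k b b' : ℕ) : Polynomial ℝ :=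
  Q (k - 2 * b) (k - 2 * b') * Polynomial.expand ℝ 2 (Q b b')

theorem W2_US (k b b' : ℕ) :
    2 * ∑ l ∈ Finset.range k, W2 k b b' l + W2 k b b' k = √2 * US k (R2 k b b') := by
  set S : PowerSeries ℝ := PowerSeries.C (2 * π) *
    (JS (k - 2 * b) (k - 2 * b') * x2 (JS b b')) with hS
  have h1 : (1 - PowerSeries.X) * S = (R2 k b b' : PowerSeries ℝ) *
      PowerSeries.mk fun m => (-1) ^ m * w m := by
    have h2 : x2 (PowerSeries.C (J 0 0 0) : PowerSeries ℝ) = PowerSeries.C (J 0 0 0) :=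
      x2.commutes (J 0 0 0)
    have h3 : (PowerSeries.C (2 * π) * (PowerSeries.C (J 0 0 0) * PowerSeries.C (J 0 0 0)) :
        PowerSeries ℝ) = 1 := by
      rw [← map_mul, ← map_mul, ← sq, Osc.J_start, map_one]
    have h4 : x2 (JS b b') = ((Polynomial.expand ℝ 2 (Q b b') : Polynomial ℝ) : PowerSeries ℝ) *
        (PowerSeries.C (J 0 0 0) * x2 wS) := by
      rw [(Q_spec b b').1, map_mul x2, x2_poly, JS_wS, map_mul x2, h2]
    rw [hS, (Q_spec (k - 2 * b) (k - 2 * b')).1, h4, JS_wS, ← neg_wS, ← key, R2,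
      Polynomial.coe_mul]
    linear_combination ((1 - PowerSeries.X) * ((Q (k - 2 * b) (k - 2 * b') : PowerSeries ℝ) * wS *
      (((Polynomial.expand ℝ 2 (Q b b') : Polynomial ℝ) : PowerSeries ℝ) * x2 wS))) * h3
  have h2 := gsum_mul (R2 k b b') h1 k
  have h3 : ∀ l, W2 k b b' l = √2 * PowerSeries.coeff l S := by
    intro l
    rw [hS, PowerSeries.coeff_C_mul, coeff_S, W2]; ring
  simp only [h3]
  rw [← Finset.mul_sum]
  unfold US
  rw [← h2]; ring

/-! ### The hermitian combinations -/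

/-- the combination of the polynomials -/
noncomputable def ZZ (k : ℕ) (c : ℕ → ℂ) : Polynomial ℝ :=
  ∑ b ∈ Finset.range (k / 2 + 1), ∑ b' ∈ Finset.range (k / 2 + 1),
    Polynomial.C (c b * (starRingEnd ℂ) (c b')).re * R2 k b b'

theorem US_ZZ (k : ℕ) (c : ℕ → ℂ) : US k (ZZ k c) =
    ∑ b ∈ Finset.range (k / 2 + 1), ∑ b' ∈ Finset.range (k / 2 + 1),
      (c b * (starRingEnd ℂ) (c b')).re * US k (R2 k b b') := by
  unfold US
  simp only [ZZ, Polynomial.finsetSum_coeff, Polynomial.coeff_C_mul, Finset.sum_mul]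
  rw [Finset.sum_comm]
  refine Finset.sum_congr rfl fun b _ => ?_
  rw [Finset.sum_comm]
  refine Finset.sum_congr rfl fun b' _ => ?_
  rw [Finset.mul_sum]
  refine Finset.sum_congr rfl fun i _ => ?_
  ring

theorem R2_deg {k b b' : ℕ} (hb : 2 * b ≤ k) (hb' : 2 * b' ≤ k) (i : ℕ) (hi : k < i) :
    (R2 k b b').coeff i = 0 := by
  rw [R2, Polynomial.coeff_mul]
  refine Finset.sum_eq_zero fun x hx => ?_
  rw [Finset.HasAntidiagonal.mem_antidiagonal] at hx
  rw [Polynomial.coeff_expand two_pos]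
  by_cases h1 : (k - 2 * b) + (k - 2 * b') < 2 * x.1
  · rw [(Q_spec _ _).2.1 _ h1, zero_mul]
  · split_ifs with h2
    · rw [(Q_spec b b').2.1 (x.2 / 2) (by omega), mul_zero]
    · rw [mul_zero]

theorem ZZ_deg (k : ℕ) (c : ℕ → ℂ) (i : ℕ) (hi : k < i) : (ZZ k c).coeff i = 0 := by
  simp only [ZZ, Polynomial.finsetSum_coeff, Polynomial.coeff_C_mul]
  refine Finset.sum_eq_zero fun b hb => Finset.sum_eq_zero fun b' hb' => ?_
  rw [Finset.mem_range] at hb hb'
  rw [R2_deg (by omega) (by omega) i hi, mul_zero]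

theorem R2_one {k b b' : ℕ} (hb : 2 * b ≤ k) (hb' : 2 * b' ≤ k) :
    (R2 k b b').eval 1 = (if b = b' then 1 else 0) ∧
    2 * (Polynomial.derivative (R2 k b b')).eval 1 = (if b = b' then (k:ℝ) else 0) := by
  have h1 := (Q_spec (k - 2 * b) (k - 2 * b')).2.2.1
  have h2 := (Q_spec b b').2.2.1
  constructor
  · rw [R2, Polynomial.eval_mul, Polynomial.expand_eval, one_pow, h1, h2]
    by_cases h : b = b'
    · rw [if_pos h, if_pos (by omega), mul_one]
    · rw [if_neg h, mul_zero]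
  · rw [R2, Polynomial.derivative_mul, Polynomial.derivative_expand]
    simp only [Polynomial.eval_add, Polynomial.eval_mul, Polynomial.expand_eval, one_pow, h1, h2,
      Polynomial.eval_pow, Polynomial.eval_X, Polynomial.eval_natCast]
    by_cases h : b = b'
    · have h3 := (Q_spec (k - 2 * b) (k - 2 * b')).2.2.2 (by omega)
      have h4 := (Q_spec b b').2.2.2 h
      rw [if_pos h, if_pos h, if_pos (by omega)]
      have h5 : ((k - 2 * b : ℕ) : ℝ) = (k:ℝ) - 2 * b := by
        rw [Nat.cast_sub hb]; push_cast; ring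
      rw [h5] at h3
      push_cast
      linear_combination h3 + 2 * h4
    · rw [if_neg h, if_neg h, if_neg (by omega)]; ring

theorem ZZ_one (k : ℕ) (c : ℕ → ℂ) :
    (ZZ k c).eval 1 = ∑ b ∈ Finset.range (k / 2 + 1), ‖c b‖ ^ 2 ∧
    2 * (Polynomial.derivative (ZZ k c)).eval 1 =
      (k:ℝ) * ∑ b ∈ Finset.range (k / 2 + 1), ‖c b‖ ^ 2 := by
  have h1 := Osc.diag (s := Finset.range (k / 2 + 1)) c fun _ => 1
  have h2 := Osc.diag (s := Finset.range (k / 2 + 1)) c fun _ => (k:ℝ)
  simp only [one_mul] at h1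
  constructor
  · rw [← h1]
    simp only [ZZ, Polynomial.eval_finsetSum, Polynomial.eval_mul, Polynomial.eval_C]
    refine Finset.sum_congr rfl fun b hb => Finset.sum_congr rfl fun b' hb' => ?_
    rw [Finset.mem_range] at hb hb'
    rw [(R2_one (show 2 * b ≤ k by omega) (show 2 * b' ≤ k by omega)).1]
  · rw [Finset.mul_sum, ← h2]
    simp only [ZZ, Polynomial.derivative_sum, Polynomial.derivative_C_mul,
      Polynomial.eval_finsetSum, Polynomial.eval_mul, Polynomial.eval_C, Finset.mul_sum]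
    refine Finset.sum_congr rfl fun b hb => Finset.sum_congr rfl fun b' hb' => ?_
    rw [Finset.mem_range] at hb hb'
    rw [← (R2_one (show 2 * b ≤ k by omega) (show 2 * b' ≤ k by omega)).2]
    ring

theorem ZZ_sign (k : ℕ) (c : ℕ → ℂ) {s : ℝ} (hs : 1 ≤ s) : 0 ≤ (-1) ^ k * (ZZ k c).eval (-s) := by
  set N := 2 * k with hN
  set v : ℕ → ℕ → ℕ → ℝ := fun i j b =>
    bb (k - 2 * b) * Ex (-s) (k - 2 * b) i * (bb b * Ex (s ^ 2) b j) with hv
  have h1 : (ZZ k c).eval (-s) = ∑ i ∈ Finset.range (N + 1), ∑ j ∈ Finset.range (N + 1),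
      dd (-s) i * dd (s ^ 2) j *
        ‖∑ b ∈ Finset.range (k / 2 + 1), c b * (v i j b : ℂ)‖ ^ 2 := by
    have h2 : ∀ b ∈ Finset.range (k / 2 + 1), ∀ b' ∈ Finset.range (k / 2 + 1),
        (R2 k b b').eval (-s) = ∑ i ∈ Finset.range (N + 1), ∑ j ∈ Finset.range (N + 1),
          dd (-s) i * dd (s ^ 2) j * (v i j b * v i j b') := by
      intro b hb b' hb'
      rw [Finset.mem_range] at hb hb'
      rw [R2, Polynomial.eval_mul, Polynomial.expand_eval, neg_sq,
        Q_val (-s) (N := N) (show (k - 2 * b) + (k - 2 * b') ≤ N by omega),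
        Q_val (s ^ 2) (N := N) (show b + b' ≤ N by omega), TT, TT]
      have h3 : ∀ A B : ℝ, A * (∑ i ∈ Finset.range (N + 1), Ex (-s) (k - 2 * b) i *
          Ex (-s) (k - 2 * b') i * dd (-s) i) * (B * ∑ j ∈ Finset.range (N + 1),
          Ex (s ^ 2) b j * Ex (s ^ 2) b' j * dd (s ^ 2) j) =
          (∑ i ∈ Finset.range (N + 1), A * (Ex (-s) (k - 2 * b) i *
          Ex (-s) (k - 2 * b') i * dd (-s) i)) * ∑ j ∈ Finset.range (N + 1),
          B * (Ex (s ^ 2) b j * Ex (s ^ 2) b' j * dd (s ^ 2) j) := by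
        intro A B
        rw [Finset.mul_sum, Finset.mul_sum]
      rw [h3, Finset.sum_mul_sum]
      refine Finset.sum_congr rfl fun i _ => Finset.sum_congr rfl fun j _ => ?_
      simp only [hv]; ring
    simp only [ZZ, Polynomial.eval_finsetSum, Polynomial.eval_mul, Polynomial.eval_C]
    have h4 : ∀ i j, dd (-s) i * dd (s ^ 2) j *
        ‖∑ b ∈ Finset.range (k / 2 + 1), c b * (v i j b : ℂ)‖ ^ 2 =
        ∑ b ∈ Finset.range (k / 2 + 1), ∑ b' ∈ Finset.range (k / 2 + 1),
          (c b * (starRingEnd ℂ) (c b')).re * (dd (-s) i * dd (s ^ 2) j * (v i j b * v i j b')) := by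
      intro i j
      rw [Osc.nsq, Finset.mul_sum]
      refine Finset.sum_congr rfl fun b _ => ?_
      rw [Finset.mul_sum]
      refine Finset.sum_congr rfl fun b' _ => by ring
    simp only [h4]
    have h5 : ∀ b ∈ Finset.range (k / 2 + 1), ∑ b' ∈ Finset.range (k / 2 + 1),
        (c b * (starRingEnd ℂ) (c b')).re * (R2 k b b').eval (-s) =
        ∑ b' ∈ Finset.range (k / 2 + 1), ∑ i ∈ Finset.range (N + 1),
          ∑ j ∈ Finset.range (N + 1), (c b * (starRingEnd ℂ) (c b')).re *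
            (dd (-s) i * dd (s ^ 2) j * (v i j b * v i j b')) := by
      intro b hb
      refine Finset.sum_congr rfl fun b' hb' => ?_
      rw [h2 b hb b' hb', Finset.mul_sum]
      refine Finset.sum_congr rfl fun i _ => ?_
      rw [Finset.mul_sum]
    rw [Finset.sum_congr rfl h5]
    -- interchange the sums
    have h6 : ∀ F : ℕ → ℕ → ℕ → ℕ → ℝ,
        ∑ b ∈ Finset.range (k / 2 + 1), ∑ b' ∈ Finset.range (k / 2 + 1),
          ∑ i ∈ Finset.range (N + 1), ∑ j ∈ Finset.range (N + 1), F b b' i j =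
        ∑ i ∈ Finset.range (N + 1), ∑ j ∈ Finset.range (N + 1),
          ∑ b ∈ Finset.range (k / 2 + 1), ∑ b' ∈ Finset.range (k / 2 + 1), F b b' i j := by
      intro F
      have e1 : ∀ b, ∑ b' ∈ Finset.range (k / 2 + 1), ∑ i ∈ Finset.range (N + 1),
          ∑ j ∈ Finset.range (N + 1), F b b' i j = ∑ i ∈ Finset.range (N + 1),
          ∑ j ∈ Finset.range (N + 1), ∑ b' ∈ Finset.range (k / 2 + 1), F b b' i j := by
        intro b
        rw [Finset.sum_comm]
        exact Finset.sum_congr rfl fun i _ => Finset.sum_comm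
      simp only [e1]
      rw [Finset.sum_comm]
      exact Finset.sum_congr rfl fun i _ => Finset.sum_comm
    exact h6 _
  rw [h1, Finset.mul_sum]
  refine Finset.sum_nonneg fun i _ => ?_
  rw [Finset.mul_sum]
  refine Finset.sum_nonneg fun j _ => ?_
  have h2 : 0 ≤ dd (s ^ 2) j := dd_nonneg (by positivity) j
  have h3 : 0 ≤ (-1) ^ i * dd (-s) i := dd_sign (by linarith) i
  by_cases h : Even (k + i)
  · have h4 : ((-1:ℝ)) ^ k = (-1) ^ i := by
      have h5 : ((-1:ℝ)) ^ (k + i) = 1 := h.neg_one_pow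
      have h6 : ((-1:ℝ)) ^ i * (-1) ^ i = 1 := by rw [← mul_pow]; norm_num
      rw [pow_add] at h5
      calc ((-1:ℝ)) ^ k = (-1) ^ k * ((-1) ^ i * (-1) ^ i) := by rw [h6, mul_one]
        _ = (-1) ^ i := by rw [← mul_assoc, h5, one_mul]
    rw [h4]
    have h5 : (-1) ^ i * (dd (-s) i * dd (s ^ 2) j *
        ‖∑ b ∈ Finset.range (k / 2 + 1), c b * (v i j b : ℂ)‖ ^ 2) =
        ((-1) ^ i * dd (-s) i) * dd (s ^ 2) j *
        ‖∑ b ∈ Finset.range (k / 2 + 1), c b * (v i j b : ℂ)‖ ^ 2 := by ring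
    rw [h5]
    positivity
  · have h4 : ∀ b ∈ Finset.range (k / 2 + 1), c b * (v i j b : ℂ) = 0 := by
      intro b hb
      rw [Finset.mem_range] at hb
      have h5 : Ex (-s) (k - 2 * b) i = 0 := by
        unfold Ex
        split_ifs with h6
        · refine ee_odd _ _ ?_
          rw [Nat.not_even_iff_odd] at h
          obtain ⟨t, ht⟩ := h
          rw [Nat.odd_iff]
          omega
        · rfl
      have h6 : v i j b = 0 := by simp only [hv, h5]; ring
      rw [h6]; simp
    rw [Finset.sum_eq_zero h4]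
    simp

/-- **The inequality for a level.** -/
theorem level_sum (k : ℕ) (c : ℕ → ℂ) :
    ∑ b ∈ Finset.range (k / 2 + 1), ∑ b' ∈ Finset.range (k / 2 + 1),
      (c b * (starRingEnd ℂ) (c b')).re * (2 * ∑ l ∈ Finset.range k, W2 k b b' l + W2 k b b' k) ≤
      ((k:ℝ) + 3 / 2) * ∑ b ∈ Finset.range (k / 2 + 1), ‖c b‖ ^ 2 := by
  have h1 := US_le (ZZ_deg k c) (ZZ_one k c).1 (ZZ_one k c).2 fun s hs => ZZ_sign k c hs
  refine le_trans (le_of_eq ?_) h1
  rw [US_ZZ, Finset.mul_sum]
  refine Finset.sum_congr rfl fun b _ => ?_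
  rw [Finset.mul_sum]
  refine Finset.sum_congr rfl fun b' _ => ?_
  rw [W2_US]; ring

end Pool.Agent.H45.LT.Os2
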