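import Mathlib
import Pool.Agent.H45.LT.Tw4
import Pool.Agent.H45.LT.Osc7

set_option autoImplicit false

/-!
# The stationary states of the oscillator with the frequencies one and two
-/

open MeasureTheory Set Real Polynomial

namespace Pool.Agent.H45.LT.Os2

open Osc (J E P h h')

theorem s2pos : (0:ℝ) < √2 := Real.sqrt_pos.2 (by norm_num)

theorem s4 : √(√2) * √(√2) = √2 := Real.mul_self_sqrt s2pos.le

theorem scale_int (f : ℝ → ℝ) : ∫ t, √2 * f (√2 * t) = ∫ t, f t := by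
  rw [integral_const_mul, Measure.integral_comp_mul_left, smul_eq_mul, abs_inv,
    abs_of_pos s2pos, ← mul_assoc, mul_inv_cancel₀ s2pos.ne', one_mul]

theorem scale_integrable {f : ℝ → ℝ} (hf : Integrable f) :
    Integrable fun t => √2 * f (√2 * t) :=
  (hf.comp_mul_left' s2pos.ne').const_mul _

/-- a product of polynomials and a Gaussian, scaled in the second variable -/
noncomputable def G2 (b : ℝ) (p q : ℝ[X]) (x : Fin 2 → ℝ) : ℝ :=
  (p.eval (x 0) * Real.exp (-b * x 0 ^ 2)) *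
    (√2 * (q.eval (√2 * x 1) * Real.exp (-b * (√2 * x 1) ^ 2)))

theorem G2_int {b : ℝ} (hb : 0 < b) (p q : ℝ[X]) : Integrable (G2 b p q) :=
  Osc.integrable2 (Osc.gint hb p) (scale_integrable (Osc.gint hb q))

theorem G2_eq (b : ℝ) (p q : ℝ[X]) : ∫ x, G2 b p q x = E b p * E b q := by
  have h1 := Osc.int2 (fun t => p.eval t * Real.exp (-b * t ^ 2))
    (fun t => √2 * (q.eval (√2 * t) * Real.exp (-b * (√2 * t) ^ 2)))
  have h2 := scale_int fun t => q.eval t * Real.exp (-b * t ^ 2)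
  rw [h2] at h1
  exact h1

/-- the products of the Hermite functions: the states of the level `k` -/
noncomputable def Psi (k a : ℕ) (x : Fin 2 → ℝ) : ℝ :=
  √(√2) * (h (k - 2 * a) (x 0) * h a (√2 * x 1))

theorem Psi_mul (k a k' a' : ℕ) (x : Fin 2 → ℝ) : Psi k a x * Psi k' a' x =
    G2 1 (P (k - 2 * a) * P (k' - 2 * a')) (P a * P a') x := by
  have h1 : Psi k a x * Psi k' a' x = (√(√2) * √(√2)) *
      ((h (k - 2 * a) (x 0) * h (k' - 2 * a') (x 0)) * (h a (√2 * x 1) * h a' (√2 * x 1))) := by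
    simp only [Psi]; ring
  rw [h1, s4]
  simp only [G2, h, eval_mul, ← Osc.exp2]; ring

theorem Psi_four (k a a' l c : ℕ) (x : Fin 2 → ℝ) :
    Psi k a x * Psi k a' x * (Psi l c x * Psi l c x) =
      √2 * G2 2 (P (k - 2 * a) * P (k - 2 * a') * (P (l - 2 * c) * P (l - 2 * c)))
        (P a * P a' * (P c * P c)) x := by
  rw [Psi_mul, Psi_mul]
  simp only [G2, eval_mul, ← Osc.exp4]; ring

/-- the density of the level `l` -/
noncomputable def rho (l : ℕ) (x : Fin 2 → ℝ) : ℝ :=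
  ∑ c ∈ Finset.range (l / 2 + 1), Psi l c x * Psi l c x

theorem Psi_rho_eq (k a a' l : ℕ) : (fun x => Psi k a x * Psi k a' x * rho l x) = fun x =>
      ∑ c ∈ Finset.range (l / 2 + 1),
        √2 * G2 2 (P (k - 2 * a) * P (k - 2 * a') * (P (l - 2 * c) * P (l - 2 * c)))
        (P a * P a' * (P c * P c)) x := by
  funext x
  rw [rho, Finset.mul_sum]
  exact Finset.sum_congr rfl fun c _ => Psi_four k a a' l c x

theorem Psi_rho_int (k a a' l : ℕ) : Integrable fun x => Psi k a x * Psi k a' x * rho l x := by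
  rw [Psi_rho_eq]
  exact integrable_finsetSum _ fun c _ => (G2_int two_pos _ _).const_mul _

theorem Psi_rho (k a a' l : ℕ) :
    2 * π * ∫ x, Psi k a x * Psi k a' x * rho l x = W2 k a a' l := by
  rw [W2]
  congr 1
  rw [Psi_rho_eq, integral_finsetSum _ fun c _ => (G2_int two_pos _ _).const_mul _,
    Finset.mul_sum]
  refine Finset.sum_congr rfl fun c _ => ?_
  rw [integral_const_mul, G2_eq]
  rfl

/-- the density `2 ∑_(l < k) ρ_l + ρ_k` -/
noncomputable def dens (k : ℕ) (x : Fin 2 → ℝ) : ℝ :=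
  2 * ∑ l ∈ Finset.range k, rho l x + rho k x

theorem Psi_dens_eq (k a a' : ℕ) (x : Fin 2 → ℝ) : Psi k a x * Psi k a' x * dens k x =
    2 * ∑ l ∈ Finset.range k, Psi k a x * Psi k a' x * rho l x +
      Psi k a x * Psi k a' x * rho k x := by
  rw [dens, ← Finset.mul_sum]; ring

theorem Psi_dens_int (k a a' : ℕ) :
    Integrable fun x => Psi k a x * Psi k a' x * dens k x := by
  simp only [Psi_dens_eq]
  exact ((integrable_finsetSum _ fun l _ => Psi_rho_int k a a' l).const_mul 2).add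
    (Psi_rho_int k a a' k)

theorem Psi_dens (k a a' : ℕ) :
    2 * π * ∫ x, Psi k a x * Psi k a' x * dens k x =
      2 * ∑ l ∈ Finset.range k, W2 k a a' l + W2 k a a' k := by
  simp only [Psi_dens_eq]
  rw [integral_add ((integrable_finsetSum _ fun l _ => Psi_rho_int k a a' l).const_mul 2)
    (Psi_rho_int k a a' k), integral_const_mul,
    integral_finsetSum _ fun l _ => Psi_rho_int k a a' l, ← Psi_rho,
    mul_add, ← mul_assoc, mul_comm (2 * π) 2, mul_assoc 2 (2 * π), Finset.mul_sum]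
  simp only [Psi_rho]

/-- the states of the level `k` -/
noncomputable def st (k : ℕ) (c : ℕ → ℂ) (x : Fin 2 → ℝ) : ℂ :=
  ∑ a ∈ Finset.range (k / 2 + 1), c a * (Psi k a x : ℂ)

theorem st_dens (k : ℕ) (c : ℕ → ℂ) :
    Integrable (fun x => ‖st k c x‖ ^ 2 * dens k x) ∧
    2 * π * ∫ x, ‖st k c x‖ ^ 2 * dens k x ≤
      ((k:ℝ) + 3 / 2) * ∑ a ∈ Finset.range (k / 2 + 1), ‖c a‖ ^ 2 := by
  have hh := Osc.int_sq (s := Finset.range (k / 2 + 1)) c (fun a x => Psi k a x) (dens k)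
    (fun a _ b _ => Psi_dens_int k a b)
  refine ⟨hh.1, ?_⟩
  have h1 : ∫ x, ‖st k c x‖ ^ 2 * dens k x = _ := hh.2
  rw [h1]
  refine le_trans (le_of_eq ?_) (level_sum k c)
  rw [Finset.mul_sum]
  refine Finset.sum_congr rfl fun a _ => ?_
  rw [Finset.mul_sum]
  refine Finset.sum_congr rfl fun b _ => ?_
  rw [← Psi_dens k a b]
  ring

theorem Psi_cont (k a : ℕ) : Continuous (Psi k a) := by
  unfold Psi
  exact continuous_const.mul (((Osc.h_cont _).comp (continuous_apply 0)).mul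
    ((Osc.h_cont a).comp (continuous_const.mul (continuous_apply 1))))

theorem st_cont (k : ℕ) (c : ℕ → ℂ) : Continuous (st k c) := by
  unfold st
  refine continuous_finsetSum _ fun a _ => ?_
  exact continuous_const.mul (Complex.continuous_ofReal.comp (Psi_cont k a))

/-! ### The kinetic energy -/

/-- the derivatives of the products -/
noncomputable def dPsi (q : Fin 2) (k a : ℕ) (x : Fin 2 → ℝ) : ℝ :=
  if q = 0 then √(√2) * (h' (k - 2 * a) (x 0) * h a (√2 * x 1))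
  else √(√2) * (h (k - 2 * a) (x 0) * (√2 * h' a (√2 * x 1)))

/-- the derivative of the products -/
noncomputable def DPsi (k a : ℕ) (x : Fin 2 → ℝ) : (Fin 2 → ℝ) →L[ℝ] ℝ :=
  √(√2) • (h (k - 2 * a) (x 0) • (h' a (√2 * x 1) •
      (√2 • (ContinuousLinearMap.proj 1 : (Fin 2 → ℝ) →L[ℝ] ℝ))) +
      h a (√2 * x 1) • (h' (k - 2 * a) (x 0) •
        (ContinuousLinearMap.proj 0 : (Fin 2 → ℝ) →L[ℝ] ℝ)))

theorem Psi_fderiv (k a : ℕ) (x : Fin 2 → ℝ) : HasFDerivAt (Psi k a) (DPsi k a x) x := by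
  have e0 : HasFDerivAt (fun x : Fin 2 → ℝ => x 0)
      (ContinuousLinearMap.proj 0 : (Fin 2 → ℝ) →L[ℝ] ℝ) x := hasFDerivAt_apply 0 x
  have e1 : HasFDerivAt (fun x : Fin 2 → ℝ => √2 * x 1)
      (√2 • (ContinuousLinearMap.proj 1 : (Fin 2 → ℝ) →L[ℝ] ℝ)) x :=
    (hasFDerivAt_apply 1 x).const_mul √2
  have h0 := (Osc.h_deriv (k - 2 * a) (x 0)).comp_hasFDerivAt x e0
  have h1 := (Osc.h_deriv a (√2 * x 1)).comp_hasFDerivAt x e1
  exact (h0.mul h1).const_mul _

theorem DPsi_single (k a : ℕ) (x : Fin 2 → ℝ) (q : Fin 2) :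
    DPsi k a x (Pi.single q 1) = dPsi q k a x := by
  simp only [DPsi, dPsi, _root_.add_apply, _root_.smul_apply,
    ContinuousLinearMap.proj_apply, smul_eq_mul]
  fin_cases q
  · simp; ring
  · simp
    left; ring

theorem st_hd (k : ℕ) (c : ℕ → ℂ) (x : Fin 2 → ℝ) : HasFDerivAt (st k c)
    (∑ a ∈ Finset.range (k / 2 + 1), c a • (Complex.ofRealCLM.comp (DPsi k a x))) x := by
  have h1 : ∀ a ∈ Finset.range (k / 2 + 1), HasFDerivAt (fun x => c a * (Psi k a x : ℂ))
      (c a • (Complex.ofRealCLM.comp (DPsi k a x))) x := by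
    intro a _
    exact ((Complex.ofRealCLM.hasFDerivAt.comp x (Psi_fderiv k a x)).const_mul (c a))
  exact HasFDerivAt.fun_sum h1

theorem st_diff (k : ℕ) (c : ℕ → ℂ) : Differentiable ℝ (st k c) := fun x =>
  (st_hd k c x).differentiableAt

theorem st_fderiv (k : ℕ) (c : ℕ → ℂ) (x : Fin 2 → ℝ) (q : Fin 2) :
    fderiv ℝ (st k c) x (Pi.single q 1) =
      ∑ a ∈ Finset.range (k / 2 + 1), c a * (dPsi q k a x : ℂ) := by
  rw [(st_hd k c x).fderiv, _root_.sum_apply]
  refine Finset.sum_congr rfl fun a _ => ?_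
  simp only [_root_.smul_apply, ContinuousLinearMap.comp_apply, smul_eq_mul,
    Complex.ofRealCLM_apply, DPsi_single]

theorem dPsi_eq (k a b : ℕ) :
    ((fun x => dPsi 0 k a x * dPsi 0 k b x) = G2 1
      ((derivative (P (k - 2 * a)) - X * P (k - 2 * a)) *
        (derivative (P (k - 2 * b)) - X * P (k - 2 * b))) (P a * P b)) ∧
    ((fun x => dPsi 1 k a x * dPsi 1 k b x) = fun x => 2 * G2 1 (P (k - 2 * a) * P (k - 2 * b))
      ((derivative (P a) - X * P a) * (derivative (P b) - X * P b)) x) := by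
  constructor
  · funext x
    have h1 : dPsi 0 k a x * dPsi 0 k b x = (√(√2) * √(√2)) *
        ((h' (k - 2 * a) (x 0) * h' (k - 2 * b) (x 0)) * (h a (√2 * x 1) * h b (√2 * x 1))) := by
      simp only [dPsi, if_true]; ring
    rw [h1, s4]
    simp only [G2, h, h', eval_mul, ← Osc.exp2]; ring
  · funext x
    have h1 : dPsi 1 k a x * dPsi 1 k b x = (√(√2) * √(√2)) * (√2 * √2) *
        ((h (k - 2 * a) (x 0) * h (k - 2 * b) (x 0)) *
          (h' a (√2 * x 1) * h' b (√2 * x 1))) := by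
      simp only [dPsi, if_neg (show ¬ ((1 : Fin 2) = 0) by decide)]; ring
    rw [h1, s4, Osc.sqrt2]
    simp only [G2, h, h', eval_mul, ← Osc.exp2]; ring

theorem dPsi_mul_int (q : Fin 2) (k a b : ℕ) :
    Integrable fun x => dPsi q k a x * dPsi q k b x := by
  fin_cases q
  · show Integrable fun x => dPsi 0 k a x * dPsi 0 k b x
    rw [(dPsi_eq k a b).1]
    exact G2_int one_pos _ _
  · show Integrable fun x => dPsi 1 k a x * dPsi 1 k b x
    rw [(dPsi_eq k a b).2]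
    exact (G2_int one_pos _ _).const_mul _

theorem dPsi_mul (k : ℕ) {a b : ℕ} (ha : 2 * a ≤ k) (hb : 2 * b ≤ k) :
    (∫ x, dPsi 0 k a x * dPsi 0 k b x = if a = b then ((k:ℝ) - 2 * a) + 1 / 2 else 0) ∧
    (∫ x, dPsi 1 k a x * dPsi 1 k b x = if a = b then 2 * (a:ℝ) + 1 else 0) := by
  constructor
  · rw [(dPsi_eq k a b).1, G2_eq]
    by_cases e : a = b
    · subst e
      rw [Osc.flow_sq, Osc.ortho, if_pos rfl, if_pos rfl, mul_one, Nat.cast_sub ha]
      push_cast; ring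
    · rw [Osc.ortho a, if_neg e, if_neg e, mul_zero]
  · rw [(dPsi_eq k a b).2, integral_const_mul, G2_eq]
    by_cases e : a = b
    · subst e
      rw [Osc.flow_sq, Osc.ortho, if_pos rfl, if_pos rfl]
      ring
    · rw [Osc.ortho (k - 2 * a), if_neg (by omega), if_neg e]; ring

/-- the kinetic energy of a state is `(k + 3 / 2) ∑ |c_a|²` -/
theorem st_kin (k : ℕ) (c : ℕ → ℂ) :
    ∑ q : Fin 2, ∫ x, ‖fderiv ℝ (st k c) x (Pi.single q 1)‖ ^ 2 =
      ((k:ℝ) + 3 / 2) * ∑ a ∈ Finset.range (k / 2 + 1), ‖c a‖ ^ 2 := by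
  have h1 : ∀ q : Fin 2, ∫ x, ‖fderiv ℝ (st k c) x (Pi.single q 1)‖ ^ 2 =
      ∑ a ∈ Finset.range (k / 2 + 1), ∑ b ∈ Finset.range (k / 2 + 1),
        (c a * (starRingEnd ℂ) (c b)).re * ∫ x, dPsi q k a x * dPsi q k b x := by
    intro q
    have h2 := (Osc.int_sq (s := Finset.range (k / 2 + 1)) c (fun a x => dPsi q k a x)
      (fun _ => 1) (fun a _ b _ => by simpa only [mul_one] using dPsi_mul_int q k a b)).2
    simp only [mul_one] at h2
    simp only [st_fderiv]
    exact h2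
  rw [Fin.sum_univ_two, h1, h1]
  have h3 : ∑ a ∈ Finset.range (k / 2 + 1), ∑ b ∈ Finset.range (k / 2 + 1),
      (c a * (starRingEnd ℂ) (c b)).re * ∫ x, dPsi 0 k a x * dPsi 0 k b x =
      ∑ a ∈ Finset.range (k / 2 + 1), (((k:ℝ) - 2 * a) + 1 / 2) * ‖c a‖ ^ 2 := by
    rw [← Osc.diag c fun a => ((k:ℝ) - 2 * a) + 1 / 2]
    refine Finset.sum_congr rfl fun a ha => Finset.sum_congr rfl fun b hb => ?_
    rw [Finset.mem_range] at ha hb
    rw [(dPsi_mul k (show 2 * a ≤ k by omega) (show 2 * b ≤ k by omega)).1]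
  have h4 : ∑ a ∈ Finset.range (k / 2 + 1), ∑ b ∈ Finset.range (k / 2 + 1),
      (c a * (starRingEnd ℂ) (c b)).re * ∫ x, dPsi 1 k a x * dPsi 1 k b x =
      ∑ a ∈ Finset.range (k / 2 + 1), (2 * (a:ℝ) + 1) * ‖c a‖ ^ 2 := by
    rw [← Osc.diag c fun a => 2 * (a:ℝ) + 1]
    refine Finset.sum_congr rfl fun a ha => Finset.sum_congr rfl fun b hb => ?_
    rw [Finset.mem_range] at ha hb
    rw [(dPsi_mul k (show 2 * a ≤ k by omega) (show 2 * b ≤ k by omega)).2]
  rw [h3, h4, ← Finset.sum_add_distrib, Finset.mul_sum]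
  exact Finset.sum_congr rfl fun a _ => by ring

theorem Psi_ortho_real {l a l' a' : ℕ} (ha : 2 * a ≤ l) (ha' : 2 * a' ≤ l') :
    ∫ x, Psi l a x * Psi l' a' x = if l = l' ∧ a = a' then 1 else 0 := by
  simp only [Psi_mul]
  rw [G2_eq, Osc.ortho, Osc.ortho]
  by_cases h2 : a = a'
  · by_cases h3 : l = l'
    · rw [if_pos h2, if_pos (by omega), if_pos ⟨h3, h2⟩]; norm_num
    · rw [if_pos h2, if_neg (by omega), if_neg fun h => h3 h.1]; norm_num
  · have h3 : ¬(l = l' ∧ a = a') := fun h => h2 h.2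
    rw [if_neg h2, if_neg h3]; norm_num

end Pool.Agent.H45.LT.Os2
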