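import Mathlib
import Pool.Agent.H45.LT.Tw5
import Pool.Agent.H45.LT.Tr2

set_option autoImplicit false

/-!
# The pointwise inequality

Bessel's inequality for the frequencies of the Gram matrix, and the ordering of the levels.
-/

open MeasureTheory Filter Topology Real Finset
open scoped ComplexConjugate

namespace Pool.Agent.H45.LT.Tz

open Os2 (st Psi rho)
open Tr (ph ph_cont ph_conj ph_mul ph_int conj_self')

variable {J N : ℕ}

/-- the components of a function in the levels -/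
noncomputable def FF (c : Fin N → ℕ → ℕ → Fin J → ℂ) (n : Fin N) (l : ℕ) (j : Fin J)
    (x : Fin 2 → ℝ) : ℂ := st l (fun a => c n l a j) x

/-- the contributions of two levels to the Gram matrix -/
noncomputable def AA (c : Fin N → ℕ → ℕ → Fin J → ℂ) (n n' : Fin N) (l l' : ℕ)
    (x : Fin 2 → ℝ) : ℂ := ∑ j, conj (FF c n l j x) * FF c n' l' j x

/-- the components of the Gram matrix to the frequency `z` -/
noncomputable def be (K : ℕ) (c : Fin N → ℕ → ℕ → Fin J → ℂ) (z : ℤ) (n n' : Fin N)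
    (x : Fin 2 → ℝ) : ℂ :=
  ∑ l ∈ range K, ∑ l' ∈ range K, if (l:ℤ) - l' = z then AA c n n' l l' x else 0

theorem AA_conj (c : Fin N → ℕ → ℕ → Fin J → ℂ) (n n' : Fin N) (l l' : ℕ)
    (x : Fin 2 → ℝ) : conj (AA c n n' l l' x) = AA c n' n l' l x := by
  unfold AA
  rw [map_sum]
  refine sum_congr rfl fun j _ => ?_
  rw [map_mul, Complex.conj_conj, mul_comm]

theorem be_conj (K : ℕ) (c : Fin N → ℕ → ℕ → Fin J → ℂ) (z : ℤ) (n n' : Fin N)
    (x : Fin 2 → ℝ) : conj (be K c z n n' x) = be K c (-z) n' n x := by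
  have hbe : be K c (-z) n' n x = ∑ l ∈ range K, ∑ l' ∈ range K,
      if (l':ℤ) - l = -z then AA c n' n l' l x else 0 := sum_comm
  rw [hbe]
  unfold be
  rw [map_sum]
  refine sum_congr rfl fun l _ => ?_
  rw [map_sum]
  refine sum_congr rfl fun l' _ => ?_
  by_cases h : (l:ℤ) - l' = z
  · rw [if_pos h, if_pos (by omega), AA_conj]
  · rw [if_neg h, if_neg (by omega), map_zero]

/-- the index type -/
abbrev Ix (K J : ℕ) : Type := Σ l : Fin K, Fin (l.1 / 2 + 1) × Fin J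

theorem sum_Ix {M : Type*} [AddCommMonoid M] (K : ℕ) (f : ℕ → ℕ → Fin J → M) :
    ∑ i : Ix K J, f i.1 i.2.1 i.2.2 = ∑ l ∈ range K, ∑ a ∈ range (l / 2 + 1), ∑ j, f l a j := by
  rw [Fintype.sum_sigma, Finset.sum_range]
  refine sum_congr rfl fun l _ => ?_
  rw [Fintype.sum_prod_type, Finset.sum_range]

/-- the hypotheses on the coefficients -/
structure SysT {J N : ℕ} (K : ℕ) (c : Fin N → ℕ → ℕ → Fin J → ℂ) (ν : Fin N → ℝ) : Prop where
  ortho : ∀ n n', ∑ l ∈ range K, ∑ a ∈ range (l / 2 + 1), ∑ j, conj (c n l a j) * c n' l a j =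
    if n = n' then 1 else 0
  nu : ∀ n, 0 ≤ ν n ∧ ν n ≤ 1

theorem single_sq {K : ℕ} (z : ℤ) (l' : ℕ) (f : ℕ → ℂ) :
    ‖∑ l ∈ range K, (if (l:ℤ) - l' = z then f l else 0)‖ ^ 2 =
      ∑ l ∈ range K, (if (l:ℤ) - l' = z then ‖f l‖ ^ 2 else 0) := by
  by_cases h : ∃ l ∈ range K, (l:ℤ) - l' = z
  · obtain ⟨l, hl, h⟩ := h
    have h2 : ∀ b ∈ range K, b ≠ l → ¬ ((b:ℤ) - l' = z) := by
      intro b _ hb h3
      exact hb (by omega)
    rw [sum_eq_single_of_mem l hl fun b hb hb' => by rw [if_neg (h2 b hb hb')],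
      sum_eq_single_of_mem l hl fun b hb hb' => by rw [if_neg (h2 b hb hb')], if_pos h, if_pos h]
  · push Not at h
    rw [sum_eq_zero fun l hl => by rw [if_neg (h l hl)],
      sum_eq_zero fun l hl => by rw [if_neg (h l hl)]]
    simp

variable {K : ℕ} {c : Fin N → ℕ → ℕ → Fin J → ℂ} {ν : Fin N → ℝ}

theorem FF_eq (c : Fin N → ℕ → ℕ → Fin J → ℂ) (n : Fin N) (l : ℕ) (j : Fin J)
    (x : Fin 2 → ℝ) : FF c n l j x = ∑ a ∈ range (l / 2 + 1), c n l a j * (Psi l a x : ℂ) := rfl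

/-- the mass of the component in a level -/
noncomputable def fF (c : Fin N → ℕ → ℕ → Fin J → ℂ) (n : Fin N) (l : ℕ) (x : Fin 2 → ℝ) : ℝ :=
  ∑ j, ‖FF c n l j x‖ ^ 2

theorem fF_nonneg (c : Fin N → ℕ → ℕ → Fin J → ℂ) (n : Fin N) (l : ℕ) (x : Fin 2 → ℝ) :
    0 ≤ fF c n l x := sum_nonneg fun _ _ => sq_nonneg _

theorem SysT.bessel (H : SysT K c ν) (z : ℤ) (n : Fin N) (x : Fin 2 → ℝ) :
    ∑ n', ‖be K c z n n' x‖ ^ 2 ≤ ∑ l ∈ range K, ∑ l' ∈ range K,
      (if (l:ℤ) - l' = z then rho l' x * fF c n l x else 0) := by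
  set V : Fin N → EuclideanSpace ℂ (Ix K J) := fun n =>
    WithLp.toLp 2 fun i => c n i.1 i.2.1 i.2.2 with hV
  set S : ℕ → Fin J → ℂ := fun l' j => ∑ l ∈ range K, if (l:ℤ) - l' = z then FF c n l j x else 0
    with hS
  set η : EuclideanSpace ℂ (Ix K J) :=
    WithLp.toLp 2 fun i => (Psi i.1 i.2.1 x : ℂ) * S i.1 i.2.2 with hη
  have hVo : Orthonormal ℂ V := by
    rw [orthonormal_iff_ite]
    intro n n'
    rw [PiLp.inner_apply, ← H.ortho n n', ← sum_Ix K fun l a j => conj (c n l a j) * c n' l a j]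
    refine sum_congr rfl fun i _ => ?_
    rw [RCLike.inner_apply, mul_comm]
  have h1 := hVo.sum_inner_products_le (x := η) (s := Finset.univ)
  have h2 : ∀ n', ‖(inner ℂ (V n') η : ℂ)‖ = ‖be K c z n n' x‖ := by
    intro n'
    rw [← RCLike.norm_conj (inner ℂ (V n') η : ℂ), inner_conj_symm]
    congr 1
    rw [PiLp.inner_apply]
    have e1 : ∀ i : Ix K J, (inner ℂ (η i) (V n' i) : ℂ) =
        conj ((Psi i.1 i.2.1 x : ℂ) * S i.1 i.2.2) * c n' i.1 i.2.1 i.2.2 := by
      intro i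
      rw [RCLike.inner_apply, mul_comm]
    rw [sum_congr rfl fun i _ => e1 i,
      sum_Ix K fun l a j => conj ((Psi l a x : ℂ) * S l j) * c n' l a j]
    have hbe : be K c z n n' x = ∑ l' ∈ range K, ∑ l ∈ range K,
        if (l:ℤ) - l' = z then AA c n n' l l' x else 0 := sum_comm
    rw [hbe]
    unfold AA
    refine sum_congr rfl fun l' _ => ?_
    rw [sum_comm]
    have e2 : ∀ j : Fin J, ∑ a ∈ range (l' / 2 + 1), conj ((Psi l' a x : ℂ) * S l' j) * c n' l' a j =
        conj (S l' j) * FF c n' l' j x := by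
      intro j
      rw [FF_eq, mul_sum]
      refine sum_congr rfl fun a _ => ?_
      rw [map_mul, Complex.conj_ofReal]; ring
    rw [sum_congr rfl fun j _ => e2 j]
    have e3 : ∀ j : Fin J, conj (S l' j) * FF c n' l' j x = ∑ l ∈ range K,
        if (l:ℤ) - l' = z then conj (FF c n l j x) * FF c n' l' j x else 0 := by
      intro j
      rw [hS]
      dsimp only
      rw [map_sum, sum_mul]
      refine sum_congr rfl fun l _ => ?_
      split_ifs
      · rfl
      · rw [map_zero, zero_mul]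
    rw [sum_congr rfl fun j _ => e3 j, sum_comm]
    refine sum_congr rfl fun l _ => ?_
    split_ifs
    · rfl
    · exact sum_const_zero
  have h3 : ‖η‖ ^ 2 = ∑ l' ∈ range K, ∑ l ∈ range K,
      (if (l:ℤ) - l' = z then rho l' x * fF c n l x else 0) := by
    rw [EuclideanSpace.norm_sq_eq]
    have e1 : ∀ i : Ix K J, ‖η i‖ ^ 2 =
        Psi i.1 i.2.1 x * Psi i.1 i.2.1 x * ‖S i.1 i.2.2‖ ^ 2 := by
      intro i
      show ‖(Psi i.1 i.2.1 x : ℂ) * S i.1 i.2.2‖ ^ 2 = _
      rw [norm_mul, mul_pow, Complex.norm_real, Real.norm_eq_abs, sq_abs]; ring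
    rw [sum_congr rfl fun i _ => e1 i,
      sum_Ix K fun l a j => Psi l a x * Psi l a x * ‖S l j‖ ^ 2]
    refine sum_congr rfl fun l' _ => ?_
    have e2 : ∑ a ∈ range (l' / 2 + 1), ∑ j, Psi l' a x * Psi l' a x * ‖S l' j‖ ^ 2 =
        rho l' x * ∑ j, ‖S l' j‖ ^ 2 := by
      unfold rho
      rw [sum_mul]
      refine sum_congr rfl fun a _ => ?_
      rw [mul_sum]
    rw [e2]
    have e3 : ∀ j : Fin J, ‖S l' j‖ ^ 2 = ∑ l ∈ range K,
        if (l:ℤ) - l' = z then ‖FF c n l j x‖ ^ 2 else 0 := fun j => single_sq z l' _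
    rw [sum_congr rfl fun j _ => e3 j, sum_comm, mul_sum]
    refine sum_congr rfl fun l _ => ?_
    split_ifs
    · rfl
    · rw [sum_const_zero, mul_zero]
  rw [h3, sum_comm] at h1
  simp only [h2] at h1
  exact h1

/-- the weights of the frequencies -/
noncomputable def wt (z : ℤ) : ℝ := if z = 0 then 1 else if 0 < z then 2 else 0

theorem wt_add (z : ℤ) : wt z + wt (-z) = 2 := by
  unfold wt
  rcases lt_trichotomy z 0 with h | h | h
  · rw [if_neg (by omega : ¬ z = 0), if_neg (by omega : ¬ 0 < z), if_neg (by omega : ¬ -z = 0),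
      if_pos (by omega : 0 < -z)]; norm_num
  · subst h; norm_num
  · rw [if_neg (by omega : ¬ z = 0), if_pos (by omega : 0 < z), if_neg (by omega : ¬ -z = 0),
      if_neg (by omega : ¬ 0 < -z)]; norm_num

theorem wt_nonneg (z : ℤ) : 0 ≤ wt z := by
  unfold wt
  split_ifs <;> norm_num

/-- weighted sums of the squares of the components of the Gram matrix -/
noncomputable def Sw (K : ℕ) (c : Fin N → ℕ → ℕ → Fin J → ℂ) (ν : Fin N → ℝ) (w : ℤ → ℝ)
    (x : Fin 2 → ℝ) : ℝ :=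
  ∑ n, ∑ n', ν n * ν n' * ∑ z ∈ Icc (-(K:ℤ)) K, w z * ‖be K c z n n' x‖ ^ 2

theorem Sw_neg (w : ℤ → ℝ) (x : Fin 2 → ℝ) :
    Sw K c ν (fun z => w (-z)) x = Sw K c ν w x := by
  unfold Sw
  rw [sum_comm]
  refine sum_congr rfl fun n' _ => sum_congr rfl fun n _ => ?_
  rw [mul_comm (ν n) (ν n')]
  congr 1
  refine sum_bij' (fun z _ => -z) (fun z _ => -z) ?_ ?_ ?_ ?_ ?_
  · intro z hz; rw [mem_Icc] at hz ⊢; omega
  · intro z hz; rw [mem_Icc] at hz ⊢; omega
  · intro z _; exact neg_neg z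
  · intro z _; exact neg_neg z
  · intro z _
    dsimp only
    rw [← be_conj, RCLike.norm_conj]

theorem Sw_one (x : Fin 2 → ℝ) : Sw K c ν (fun _ => 1) x = Sw K c ν wt x := by
  have h1 := Sw_neg (K := K) (c := c) (ν := ν) wt x
  have h2 : Sw K c ν wt x + Sw K c ν (fun z => wt (-z)) x = 2 * Sw K c ν (fun _ => 1) x := by
    unfold Sw
    rw [← sum_add_distrib, mul_sum]
    refine sum_congr rfl fun n _ => ?_
    rw [← sum_add_distrib, mul_sum]
    refine sum_congr rfl fun n' _ => ?_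
    rw [← mul_add, ← sum_add_distrib, mul_left_comm, mul_sum (a := (2:ℝ))]
    congr 1
    refine sum_congr rfl fun z _ => ?_
    linear_combination ‖be K c z n n' x‖ ^ 2 * wt_add z
  linarith

theorem wt_sum {l : ℕ} (hl : l < K) (x : Fin 2 → ℝ) :
    ∑ l' ∈ range K, wt ((l:ℤ) - l') * rho l' x = Os2.dens l x := by
  have h1 : ∀ l' ∈ range K, wt ((l:ℤ) - l') * rho l' x =
      (if l' < l then 2 * rho l' x else 0) + (if l' = l then rho l' x else 0) := by
    intro l' _
    unfold wt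
    rcases lt_trichotomy l' l with h | h | h
    · rw [if_neg (by omega), if_pos (by omega), if_pos h, if_neg (by omega)]; ring
    · subst h; rw [if_pos (by omega), if_neg (by omega), if_pos rfl]; ring
    · rw [if_neg (by omega), if_neg (by omega), if_neg (by omega), if_neg (by omega)]; ring
  rw [sum_congr rfl h1, sum_add_distrib, sum_ite_eq' , if_pos (mem_range.2 hl)]
  unfold Os2.dens
  congr 1
  rw [mul_sum, ← sum_filter]
  refine sum_congr ?_ fun _ _ => rfl
  ext l'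
  simp only [mem_filter, mem_range]
  omega

/-- **The pointwise inequality.** -/
theorem SysT.pointwise (H : SysT K c ν) (x : Fin 2 → ℝ) :
    Sw K c ν (fun _ => 1) x ≤ ∑ n, ν n * ∑ l ∈ range K, fF c n l x * Os2.dens l x := by
  rw [Sw_one]
  unfold Sw
  refine sum_le_sum fun n _ => ?_
  have h1 : ∑ n', ν n * ν n' * ∑ z ∈ Icc (-(K:ℤ)) K, wt z * ‖be K c z n n' x‖ ^ 2 =
      ν n * ∑ z ∈ Icc (-(K:ℤ)) K, wt z * ∑ n', ν n' * ‖be K c z n n' x‖ ^ 2 := by
    rw [mul_sum]
    simp only [mul_sum]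
    rw [sum_comm]
    refine sum_congr rfl fun z _ => sum_congr rfl fun n' _ => ?_
    ring
  rw [h1]
  refine mul_le_mul_of_nonneg_left ?_ (H.nu n).1
  have h2 : ∀ z ∈ Icc (-(K:ℤ)) K, wt z * ∑ n', ν n' * ‖be K c z n n' x‖ ^ 2 ≤
      wt z * ∑ l ∈ range K, ∑ l' ∈ range K,
        (if (l:ℤ) - l' = z then rho l' x * fF c n l x else 0) := by
    intro z _
    refine mul_le_mul_of_nonneg_left ?_ (wt_nonneg z)
    refine (sum_le_sum fun n' _ => ?_).trans (H.bessel z n x)
    exact mul_le_of_le_one_left (sq_nonneg _) (H.nu n').2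
  refine (sum_le_sum h2).trans (le_of_eq ?_)
  simp only [mul_sum]
  rw [sum_comm]
  refine sum_congr rfl fun l hl => ?_
  rw [sum_comm, ← wt_sum (mem_range.1 hl), mul_sum]
  refine sum_congr rfl fun l' hl' => ?_
  rw [mem_range] at hl hl'
  rw [sum_eq_single_of_mem ((l:ℤ) - l') (mem_Icc.2 ⟨by omega, by omega⟩)]
  · rw [if_pos rfl]; ring
  · intro z _ hz
    rw [if_neg (Ne.symm hz), mul_zero]

/-- the Gram matrix at the time `t` -/
theorem gram_time (c : Fin N → ℕ → ℕ → Fin J → ℂ) (g : Fin J → ℝ) (n n' : Fin N)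
    (x : Fin 2 → ℝ) (t : ℝ) :
    ∑ j, conj (Complex.exp (-(g j * t * Complex.I)) * ∑ l ∈ range K, ph (-(l:ℤ)) t * FF c n l j x) *
        (Complex.exp (-(g j * t * Complex.I)) * ∑ l ∈ range K, ph (-(l:ℤ)) t * FF c n' l j x) =
      ∑ z ∈ Icc (-(K:ℤ)) K, ph z t * be K c z n n' x := by
  have h1 : ∀ j, conj (Complex.exp (-(g j * t * Complex.I))) *
      Complex.exp (-(g j * t * Complex.I)) = 1 := by
    intro j
    rw [← Complex.exp_conj, ← Complex.exp_add]
    simp
  have h2 : ∀ j, conj (Complex.exp (-(g j * t * Complex.I)) *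
      ∑ l ∈ range K, ph (-(l:ℤ)) t * FF c n l j x) *
      (Complex.exp (-(g j * t * Complex.I)) * ∑ l ∈ range K, ph (-(l:ℤ)) t * FF c n' l j x) =
      ∑ l ∈ range K, ∑ l' ∈ range K,
        ph ((l:ℤ) - l') t * (conj (FF c n l j x) * FF c n' l' j x) := by
    intro j
    rw [map_mul, mul_mul_mul_comm, h1, one_mul, map_sum, sum_mul_sum]
    refine sum_congr rfl fun l _ => sum_congr rfl fun l' _ => ?_
    rw [map_mul, ph_conj, neg_neg]
    have h3 := ph_mul (l:ℤ) (-(l':ℤ)) t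
    rw [← sub_eq_add_neg] at h3
    rw [← h3]
    ring
  simp only [h2]
  rw [sum_comm]
  have h3 : ∀ z ∈ Icc (-(K:ℤ)) K, ph z t * be K c z n n' x = ∑ l ∈ range K, ∑ l' ∈ range K,
      if (l:ℤ) - l' = z then ph z t * AA c n n' l l' x else 0 := by
    intro z _
    unfold be
    rw [mul_sum]
    refine sum_congr rfl fun l _ => ?_
    rw [mul_sum]
    refine sum_congr rfl fun l' _ => ?_
    split_ifs
    · rfl
    · rw [mul_zero]
  rw [sum_congr rfl h3]
  refine Eq.trans ?_ Finset.sum_comm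
  refine sum_congr rfl fun l hl => ?_
  refine Finset.sum_comm.trans (Eq.trans ?_ Finset.sum_comm)
  refine sum_congr rfl fun l' hl' => ?_
  rw [mem_range] at hl hl'
  rw [sum_eq_single_of_mem ((l:ℤ) - l') (mem_Icc.2 ⟨by omega, by omega⟩)
    (fun z _ hz => by rw [if_neg (Ne.symm hz)]), if_pos rfl]
  unfold AA
  rw [mul_sum]

end Pool.Agent.H45.LT.Tz
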