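import Mathlib
import Pool.Agent.H45.LT.Tz3

set_option autoImplicit false

/-!
# Integration over the plane and over the time
-/

open MeasureTheory Filter Topology Real Finset
open scoped ComplexConjugate ENNReal

namespace Pool.Agent.H45.LT.Tz

open Os2 (st Psi rho dPsi)
open Tr (ph ph_cont ph_conj ph_mul ph_int conj_self' quad_expand quad_int quad_eq quad_cont parseval)

variable {J N K : ℕ} {c : Fin N → ℕ → ℕ → Fin J → ℂ} {ν : Fin N → ℝ}

instance : ENNReal.HolderTriple 4 4 2 := ⟨by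
  have h4 : (4:ℝ≥0∞) = 2 * 2 := by norm_num
  rw [h4, ENNReal.mul_inv (by simp) (by simp), ← two_mul, ← mul_assoc,
    ENNReal.mul_inv_cancel (by simp) (by simp), one_mul]⟩

theorem Psi_L4 (l a : ℕ) : MemLp (fun x => (Psi l a x : ℂ)) 4 volume := by
  have hm : AEStronglyMeasurable (fun x => (Psi l a x : ℂ)) volume :=
    (Complex.continuous_ofReal.comp (Os2.Psi_cont l a)).aestronglyMeasurable
  rw [← integrable_norm_rpow_iff hm (by simp) (by simp)]
  have h1 : Integrable fun x => Psi l a x * Psi l a x * (Psi l a x * Psi l a x) := by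
    have h2 : (fun x => Psi l a x * Psi l a x * (Psi l a x * Psi l a x)) = fun x => _ :=
      funext fun x => Os2.Psi_four l a a l a x
    rw [h2]
    exact (Os2.G2_int (by norm_num) _ _).const_mul _
  refine h1.congr (Eventually.of_forall fun x => ?_)
  have e : (4:ℝ≥0∞).toReal = ((4:ℕ):ℝ) := by simp
  simp only [e, Real.rpow_natCast, Complex.norm_real, Real.norm_eq_abs]
  rw [show |Psi l a x| ^ 4 = (|Psi l a x| ^ 2) ^ 2 by ring, sq_abs]
  ring

theorem memLp_two_of {f : (Fin 2 → ℝ) → ℝ} (hf : Continuous f)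
    (h : Integrable fun x => f x * f x) : MemLp (fun x => (f x : ℂ)) 2 volume := by
  have hm : AEStronglyMeasurable (fun x => (f x : ℂ)) volume :=
    (Complex.continuous_ofReal.comp hf).aestronglyMeasurable
  rw [memLp_two_iff_integrable_sq_norm hm]
  refine h.congr (Eventually.of_forall fun x => ?_)
  simp only [Complex.norm_real, Real.norm_eq_abs, sq_abs]
  ring

theorem Psi_L2 (l a : ℕ) : MemLp (fun x => (Psi l a x : ℂ)) 2 volume :=
  memLp_two_of (Os2.Psi_cont l a) (by simp only [Os2.Psi_mul]; exact Os2.G2_int one_pos _ _)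

theorem dPsi_cont (q : Fin 2) (l a : ℕ) : Continuous (dPsi q l a) := by
  unfold dPsi
  split_ifs
  · exact continuous_const.mul (((Osc.h'_cont _).comp (continuous_apply 0)).mul
      ((Osc.h_cont a).comp (continuous_const.mul (continuous_apply 1))))
  · exact continuous_const.mul (((Osc.h_cont _).comp (continuous_apply 0)).mul
      (continuous_const.mul ((Osc.h'_cont a).comp (continuous_const.mul (continuous_apply 1)))))

theorem dPsi_L2 (q : Fin 2) (l a : ℕ) : MemLp (fun x => (dPsi q l a x : ℂ)) 2 volume :=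
  memLp_two_of (dPsi_cont q l a) (Os2.dPsi_mul_int q l a a)

theorem FF_L2 (c : Fin N → ℕ → ℕ → Fin J → ℂ) (n : Fin N) (l : ℕ) (j : Fin J) :
    MemLp (FF c n l j) 2 volume := by
  have h : MemLp (fun x => ∑ a ∈ range (l / 2 + 1), c n l a j * (Psi l a x : ℂ)) 2 volume :=
    memLp_finsetSum _ fun a _ => (Psi_L2 l a).const_mul _
  exact h

theorem FF_L4 (c : Fin N → ℕ → ℕ → Fin J → ℂ) (n : Fin N) (l : ℕ) (j : Fin J) :
    MemLp (FF c n l j) 4 volume := by
  have h : MemLp (fun x => ∑ a ∈ range (l / 2 + 1), c n l a j * (Psi l a x : ℂ)) 4 volume :=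
    memLp_finsetSum _ fun a _ => (Psi_L4 l a).const_mul _
  exact h

theorem conj_memLp {p : ℝ≥0∞} {f : (Fin 2 → ℝ) → ℂ} (hf : MemLp f p volume) :
    MemLp (fun x => conj (f x)) p volume := by
  refine hf.of_le (Complex.continuous_conj.comp_aestronglyMeasurable hf.1)
    (Eventually.of_forall fun x => ?_)
  rw [RCLike.norm_conj]

theorem AA_L2 (c : Fin N → ℕ → ℕ → Fin J → ℂ) (n n' : Fin N) (l l' : ℕ) :
    MemLp (AA c n n' l l') 2 volume := by
  have h : MemLp (fun x => ∑ j, conj (FF c n l j x) * FF c n' l' j x) 2 volume :=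
    memLp_finsetSum _ fun j _ => (FF_L4 c n' l' j).mul (conj_memLp (FF_L4 c n l j))
  exact h

theorem be_L2 (K : ℕ) (c : Fin N → ℕ → ℕ → Fin J → ℂ) (z : ℤ) (n n' : Fin N) :
    MemLp (be K c z n n') 2 volume := by
  have h : MemLp (fun x => ∑ l ∈ range K, ∑ l' ∈ range K,
      if (l:ℤ) - l' = z then AA c n n' l l' x else 0) 2 volume := by
    refine memLp_finsetSum _ fun l _ => memLp_finsetSum _ fun l' _ => ?_
    split_ifs
    · exact AA_L2 c n n' l l'
    · exact MemLp.zero'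
  exact h

theorem L2_prod {X : Type*} [MeasurableSpace X] {μ : Measure X} {f g : X → ℂ}
    (hf : MemLp f 2 μ) (hg : MemLp g 2 μ) : Integrable (fun x => f x * conj (g x)) μ := by
  have hg' : MemLp (fun x => conj (g x)) 2 μ := by
    refine hg.of_le (Complex.continuous_conj.comp_aestronglyMeasurable hg.1)
      (Eventually.of_forall fun x => ?_)
    rw [RCLike.norm_conj]
  exact hf.integrable_mul hg'

/-! ### The Gram matrices -/

/-- the Gram matrix at the time `t` -/
noncomputable def GT (K : ℕ) (c : Fin N → ℕ → ℕ → Fin J → ℂ) (t : ℝ) (n n' : Fin N)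
    (x : Fin 2 → ℝ) : ℂ := ∑ z ∈ Finset.Icc (-(K:ℤ)) K, ph z t * be K c z n n' x

theorem GT_int (K : ℕ) (c : Fin N → ℕ → ℕ → Fin J → ℂ) (t : ℝ) (n n' : Fin N) :
    Integrable fun x => ‖GT K c t n n' x‖ ^ 2 :=
  quad_int (fun z _ w _ => L2_prod (be_L2 K c z n n') (be_L2 K c w n n')) _

theorem GT_cont (K : ℕ) (c : Fin N → ℕ → ℕ → Fin J → ℂ) (n n' : Fin N) :
    Continuous fun t => ∫ x, ‖GT K c t n n' x‖ ^ 2 :=
  quad_cont (fun z _ w _ => L2_prod (be_L2 K c z n n') (be_L2 K c w n n')) fun z => ph_cont z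

theorem GT_time (K : ℕ) (c : Fin N → ℕ → ℕ → Fin J → ℂ) (n n' : Fin N) :
    ∫ t in (0:ℝ)..(2 * π), ∫ x, ‖GT K c t n n' x‖ ^ 2 =
      2 * π * ∑ z ∈ Finset.Icc (-(K:ℤ)) K, ∫ x, ‖be K c z n n' x‖ ^ 2 :=
  parseval (φ := fun z : ℤ => z) (fun _ _ _ _ h => h)
    (fun z _ w _ => L2_prod (be_L2 K c z n n') (be_L2 K c w n n'))

theorem sq_int {X : Type*} [MeasurableSpace X] {μ : Measure X} {f : X → ℂ}
    (hf : MemLp f 2 μ) : Integrable (fun x => ‖f x‖ ^ 2) μ :=
  (memLp_two_iff_integrable_sq_norm hf.1).1 hf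

theorem Sw_integral (K : ℕ) (c : Fin N → ℕ → ℕ → Fin J → ℂ) (ν : Fin N → ℝ) :
    Integrable (Sw K c ν fun _ => 1) ∧
    ∫ x, Sw K c ν (fun _ => 1) x = ∑ n, ∑ n', ν n * ν n' *
      ∑ z ∈ Finset.Icc (-(K:ℤ)) K, ∫ x, ‖be K c z n n' x‖ ^ 2 := by
  have hi : ∀ n n' (z : ℤ), Integrable fun x => (1:ℝ) * ‖be K c z n n' x‖ ^ 2 := fun n n' z =>
    (sq_int (be_L2 K c z n n')).const_mul 1
  unfold Sw
  refine ⟨integrable_finsetSum _ fun n _ => integrable_finsetSum _ fun n' _ =>
    (integrable_finsetSum _ fun z _ => hi n n' z).const_mul _, ?_⟩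
  rw [integral_finsetSum _ fun n _ => integrable_finsetSum _ fun n' _ =>
    (integrable_finsetSum _ fun z _ => hi n n' z).const_mul _]
  refine sum_congr rfl fun n _ => ?_
  rw [integral_finsetSum _ fun n' _ =>
    (integrable_finsetSum _ fun z _ => hi n n' z).const_mul _]
  refine sum_congr rfl fun n' _ => ?_
  rw [integral_const_mul, integral_finsetSum _ fun z _ => hi n n' z]
  simp only [one_mul]

/-- the kinetic energy in the two variables, averaged over the time -/
noncomputable def TX (K : ℕ) (c : Fin N → ℕ → ℕ → Fin J → ℂ) (ν : Fin N → ℝ) : ℝ :=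
  ∑ n, ν n * ∑ l ∈ range K, ((l:ℝ) + 3 / 2) * ∑ j, ∑ a ∈ range (l / 2 + 1), ‖c n l a j‖ ^ 2

theorem fF_dens (c : Fin N → ℕ → ℕ → Fin J → ℂ) (n : Fin N) (l : ℕ) :
    Integrable (fun x => fF c n l x * Os2.dens l x) ∧
    2 * π * ∫ x, fF c n l x * Os2.dens l x ≤
      ((l:ℝ) + 3 / 2) * ∑ j, ∑ a ∈ range (l / 2 + 1), ‖c n l a j‖ ^ 2 := by
  have hi : ∀ j, Integrable fun x => ‖FF c n l j x‖ ^ 2 * Os2.dens l x := fun j =>
    (Os2.st_dens l fun a => c n l a j).1
  unfold fF
  simp only [sum_mul]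
  refine ⟨integrable_finsetSum _ fun j _ => hi j, ?_⟩
  rw [integral_finsetSum _ fun j _ => hi j, mul_sum, mul_sum]
  exact sum_le_sum fun j _ => (Os2.st_dens l fun a => c n l a j).2

theorem SysT.gram_le (H : SysT K c ν) :
    2 * π * ∫ t in (0:ℝ)..(2 * π), ∑ n, ∑ n', ν n * ν n' * ∫ x, ‖GT K c t n n' x‖ ^ 2 ≤
      2 * π * TX K c ν := by
  have hpi : (0:ℝ) < 2 * π := by positivity
  refine mul_le_mul_of_nonneg_left ?_ hpi.le
  have hct : ∀ n n', Continuous fun t => ν n * ν n' * ∫ x, ‖GT K c t n n' x‖ ^ 2 := fun n n' =>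
    continuous_const.mul (GT_cont K c n n')
  have hct' : ∀ n, Continuous fun t => ∑ n', ν n * ν n' * ∫ x, ‖GT K c t n n' x‖ ^ 2 := fun n =>
    continuous_finsetSum _ fun n' _ => hct n n'
  rw [intervalIntegral.integral_finsetSum fun n _ => (hct' n).intervalIntegrable _ _]
  have h1 : ∀ n, ∫ t in (0:ℝ)..(2 * π), ∑ n', ν n * ν n' * ∫ x, ‖GT K c t n n' x‖ ^ 2 =
      2 * π * ∑ n', ν n * ν n' * ∑ z ∈ Finset.Icc (-(K:ℤ)) K, ∫ x, ‖be K c z n n' x‖ ^ 2 := by
    intro n
    rw [intervalIntegral.integral_finsetSum fun n' _ => (hct n n').intervalIntegrable _ _,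
      mul_sum]
    refine sum_congr rfl fun n' _ => ?_
    rw [intervalIntegral.integral_const_mul, GT_time]
    ring
  simp only [h1]
  rw [← mul_sum, ← (Sw_integral K c ν).2]
  have hi : Integrable fun x => ∑ n, ν n * ∑ l ∈ range K, fF c n l x * Os2.dens l x :=
    integrable_finsetSum _ fun n _ => (integrable_finsetSum _ fun l _ =>
      (fF_dens c n l).1).const_mul _
  have h2 : ∫ x, Sw K c ν (fun _ => 1) x ≤
      ∫ x, ∑ n, ν n * ∑ l ∈ range K, fF c n l x * Os2.dens l x :=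
    integral_mono (Sw_integral K c ν).1 hi fun x => H.pointwise x
  refine (mul_le_mul_of_nonneg_left h2 hpi.le).trans ?_
  rw [integral_finsetSum _ fun n _ => (integrable_finsetSum _ fun l _ =>
      (fF_dens c n l).1).const_mul _, mul_sum]
  unfold TX
  refine sum_le_sum fun n _ => ?_
  rw [integral_const_mul, integral_finsetSum _ fun l _ => (fF_dens c n l).1, mul_left_comm,
    mul_sum]
  exact mul_le_mul_of_nonneg_left (sum_le_sum fun l _ => (fF_dens c n l).2) (H.nu n).1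

end Pool.Agent.H45.LT.Tz
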