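import Mathlib
import Pool.Agent.H45.LT.Tz7

set_option autoImplicit false

/-!
# The averaged inequality with lower integrals, for a moving family in the other variables
-/

open MeasureTheory Filter Topology Real Finset
open scoped ComplexConjugate ENNReal
open LTd (Kcl)

namespace Pool.Agent.H45.LT.Tz

open Os2 (st Psi rho dPsi)
open Tr (ph ph_cont ph_conj ph_mul ph_int conj_self' quad_expand quad_int quad_eq quad_cont parseval
  conj_int slice_H1)
open Ly (Sp)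

variable {m J N K : ℕ} {c : Fin N → ℕ → ℕ → Fin J → ℂ} {ν : Fin N → ℝ}
  {e : Fin J → (Fin m → ℝ) → ℂ}

theorem en_sq (z : ℂ) : ‖z‖ₑ ^ 2 = ENNReal.ofReal (‖z‖ ^ 2) := by
  rw [ENNReal.ofReal_pow (norm_nonneg z), ofReal_norm]

theorem dx_int (F : Fam e) (c : Fin N → ℕ → ℕ → Fin J → ℂ) (g : Fin J → ℝ) (t : ℝ) (n : Fin N)
    (q : Fin 2) : Integrable fun p : Sp m =>
      ‖fderiv ℝ (UT K c g e t n) p (Pi.single q 1, 0)‖ ^ 2 := by
  simp only [UT_dx F]
  have h := quad_int (s := (univ : Finset (Fin J))) (μ := (volume : Measure (Sp m)))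
    (Φ := fun j p => dkap K c g q n j t p.1 * e j p.2)
    (fun i _ j _ => (prod_int (dkap_L2 c g q n i t) (dkap_L2 c g q n j t)
      (F.mem i) (F.mem j)).1) (fun _ => 1)
  simp only [one_mul] at h
  exact h

theorem dy_int (F : Fam e) (c : Fin N → ℕ → ℕ → Fin J → ℂ) (g : Fin J → ℝ) (t : ℝ) (n : Fin N)
    (q : Fin m) : Integrable fun p : Sp m =>
      ‖fderiv ℝ (UT K c g e t n) p (0, Pi.single q 1)‖ ^ 2 := by
  simp only [UT_dy F]
  exact ky_int F c g n q t

/-- the kinetic energy as a lower integral -/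
noncomputable def lkin (u : Sp m → ℂ) : ℝ≥0∞ :=
  ∫⁻ p, ((∑ q : Fin 2, ‖fderiv ℝ u p (Pi.single q 1, 0)‖ₑ ^ 2) +
    ∑ q : Fin m, ‖fderiv ℝ u p (0, Pi.single q 1)‖ₑ ^ 2)

theorem lkin_eq (F : Fam e) (c : Fin N → ℕ → ℕ → Fin J → ℂ) (g : Fin J → ℝ) (t : ℝ) (n : Fin N) :
    lkin (UT K c g e t n) = ENNReal.ofReal
      ((∑ q : Fin 2, ∫ p : Sp m, ‖fderiv ℝ (UT K c g e t n) p (Pi.single q 1, 0)‖ ^ 2) +
        ∑ q : Fin m, ∫ p : Sp m, ‖fderiv ℝ (UT K c g e t n) p (0, Pi.single q 1)‖ ^ 2) := by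
  have h1 : ∀ p : Sp m, (∑ q : Fin 2, ‖fderiv ℝ (UT K c g e t n) p (Pi.single q 1, 0)‖ₑ ^ 2) +
      ∑ q : Fin m, ‖fderiv ℝ (UT K c g e t n) p (0, Pi.single q 1)‖ₑ ^ 2 = ENNReal.ofReal
      ((∑ q : Fin 2, ‖fderiv ℝ (UT K c g e t n) p (Pi.single q 1, 0)‖ ^ 2) +
        ∑ q : Fin m, ‖fderiv ℝ (UT K c g e t n) p (0, Pi.single q 1)‖ ^ 2) := by
    intro p
    rw [ENNReal.ofReal_add (by positivity) (by positivity),
      ENNReal.ofReal_sum_of_nonneg fun _ _ => by positivity,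
      ENNReal.ofReal_sum_of_nonneg fun _ _ => by positivity]
    simp only [en_sq]
  have i1 : Integrable fun p : Sp m =>
      ∑ q : Fin 2, ‖fderiv ℝ (UT K c g e t n) p (Pi.single q 1, 0)‖ ^ 2 :=
    integrable_finsetSum _ fun q _ => dx_int F c g t n q
  have i2 : Integrable fun p : Sp m =>
      ∑ q : Fin m, ‖fderiv ℝ (UT K c g e t n) p (0, Pi.single q 1)‖ ^ 2 :=
    integrable_finsetSum _ fun q _ => dy_int F c g t n q
  have i3 : Integrable fun p : Sp m =>
      (∑ q : Fin 2, ‖fderiv ℝ (UT K c g e t n) p (Pi.single q 1, 0)‖ ^ 2) +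
      ∑ q : Fin m, ‖fderiv ℝ (UT K c g e t n) p (0, Pi.single q 1)‖ ^ 2 := i1.add i2
  unfold lkin
  simp only [h1]
  rw [← ofReal_integral_eq_lintegral_ofReal i3
    (Eventually.of_forall fun p => by dsimp only [Pi.zero_apply]; positivity)]
  congr 1
  rw [integral_add i1 i2, integral_finsetSum _ fun q _ => dx_int F c g t n q,
    integral_finsetSum _ fun q _ => dy_int F c g t n q]

theorem lkin_sum (H : SysT K c ν) (F : Fam e) (g : Fin J → ℝ) (t : ℝ) :
    ∑ n, ENNReal.ofReal (ν n) * lkin (UT K c g e t n) =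
      ENNReal.ofReal (kx K c ν t) + ENNReal.ofReal (ky K c g e ν t) := by
  have h0 : 0 ≤ kx K c ν t := by
    unfold kx
    exact sum_nonneg fun n _ => mul_nonneg (H.nu n).1 (sum_nonneg fun q _ =>
      sum_nonneg fun j _ => integral_nonneg fun x => by positivity)
  have h1 : 0 ≤ ky K c g e ν t := by
    unfold ky
    exact sum_nonneg fun n _ => mul_nonneg (H.nu n).1 (sum_nonneg fun q _ =>
      integral_nonneg fun x => by positivity)
  rw [← ENNReal.ofReal_add h0 h1, ← UT_kx F c g ν t, ← UT_ky F c g ν t, ← sum_add_distrib,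
    ENNReal.ofReal_sum_of_nonneg fun n _ => ?_]
  · refine sum_congr rfl fun n _ => ?_
    rw [← mul_add, ENNReal.ofReal_mul (H.nu n).1, lkin_eq F]
  · refine add_nonneg (mul_nonneg (H.nu n).1 ?_) (mul_nonneg (H.nu n).1 ?_)
    · exact sum_nonneg fun q _ => integral_nonneg fun x => by positivity
    · exact sum_nonneg fun q _ => integral_nonneg fun x => by positivity

/-- the power of the density as a lower integral -/
noncomputable def lden (w : ℝ) (ν : Fin N → ℝ) (u : Fin N → Sp m → ℂ) : ℝ≥0∞ :=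
  ∫⁻ p, (∑ n, ENNReal.ofReal (ν n) * ‖u n p‖ₑ ^ 2) ^ w

theorem lden_eq (H : SysT K c ν) (F : Fam e) (g : Fin J → ℝ) (t : ℝ) :
    lden (1 + 2 / ((m + 2 : ℕ) : ℝ)) ν (UT K c g e t) = ENNReal.ofReal (dT K c g e ν t) := by
  have hpw : (0:ℝ) ≤ 1 + 2 / ((m + 2 : ℕ) : ℝ) := by positivity
  have h := (H.fixed F g t).1
  unfold lden dT
  rw [ofReal_integral_eq_lintegral_ofReal h
    (Eventually.of_forall fun p => Real.rpow_nonneg (dns_nonneg H g t p) _)]
  refine lintegral_congr fun p => ?_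
  rw [← ENNReal.ofReal_rpow_of_nonneg (dns_nonneg H g t p) hpw]
  congr 1
  unfold dns
  rw [ENNReal.ofReal_sum_of_nonneg fun n _ => mul_nonneg (H.nu n).1 (by positivity)]
  refine sum_congr rfl fun n _ => ?_
  rw [ENNReal.ofReal_mul (H.nu n).1, en_sq]

/-- the part of the right side which comes from the plane -/
noncomputable def gt2 (K : ℕ) (c : Fin N → ℕ → ℕ → Fin J → ℂ) (ν : Fin N → ℝ) (t : ℝ) : ℝ :=
  2 * π * ∑ n, ∑ n', ν n * ν n' * ∫ x, ‖GT K c t n n' x‖ ^ 2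

theorem gt2_cont (K : ℕ) (c : Fin N → ℕ → ℕ → Fin J → ℂ) (ν : Fin N → ℝ) :
    Continuous (gt2 K c ν) :=
  continuous_const.mul (continuous_finsetSum _ fun n _ =>
      continuous_finsetSum _ fun n' _ => continuous_const.mul (GT_cont K c n n'))

theorem gt2_nonneg (H : SysT K c ν) (t : ℝ) : 0 ≤ gt2 K c ν t := by
  unfold gt2
  refine mul_nonneg (by positivity) (sum_nonneg fun n _ => sum_nonneg fun n' _ =>
    mul_nonneg (mul_nonneg (H.nu n).1 (H.nu n').1) (integral_nonneg fun x => by positivity))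

theorem kx_nonneg (H : SysT K c ν) (t : ℝ) : 0 ≤ kx K c ν t := by
  unfold kx
  exact sum_nonneg fun n _ => mul_nonneg (H.nu n).1 (sum_nonneg fun q _ =>
      sum_nonneg fun j _ => integral_nonneg fun x => by positivity)

theorem ky_nonneg (H : SysT K c ν) (g : Fin J → ℝ) (t : ℝ) : 0 ≤ ky K c g e ν t := by
  unfold ky
  exact sum_nonneg fun n _ => mul_nonneg (H.nu n).1 (sum_nonneg fun q _ =>
      integral_nonneg fun x => by positivity)

theorem gt2_le (H : SysT K c ν) :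
    ∫⁻ t in Set.Icc (0:ℝ) (2 * π), ENNReal.ofReal (gt2 K c ν t) ≤
      ∫⁻ t in Set.Icc (0:ℝ) (2 * π), ENNReal.ofReal (kx K c ν t) := by
  have hpi : (0:ℝ) ≤ 2 * π := by positivity
  have h1 : ∀ {f : ℝ → ℝ}, Continuous f → (∀ t, 0 ≤ f t) →
      ∫⁻ t in Set.Icc (0:ℝ) (2 * π), ENNReal.ofReal (f t) =
        ENNReal.ofReal (∫ t in (0:ℝ)..(2 * π), f t) := by
    intro f hf h0
    rw [intervalIntegral.integral_of_le hpi, ← integral_Icc_eq_integral_Ioc,
      ofReal_integral_eq_lintegral_ofReal (hf.integrableOn_Icc) (Eventually.of_forall h0)]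
  rw [h1 (gt2_cont K c ν) (gt2_nonneg H), h1 (kx_cont K c ν) (kx_nonneg H)]
  refine ENNReal.ofReal_le_ofReal ?_
  rw [kx_time]
  unfold gt2
  rw [intervalIntegral.integral_const_mul]
  exact H.gram_le

/-- **The averaged inequality, for a moving orthonormal family in the other variables.** -/
theorem SysT.lavg (H : SysT K c ν) {E : ℝ → Fin J → (Fin m → ℝ) → ℂ}
    (F : ∀ t ∈ Set.Icc (0:ℝ) (2 * π), Fam (E t)) :
    ENNReal.ofReal (Kcl (m + 2)) * ∫⁻ t in Set.Icc (0:ℝ) (2 * π),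
      lden (1 + 2 / ((m + 2 : ℕ) : ℝ)) ν (UT K c (fun _ => 0) (E t) t) ≤
    ∫⁻ t in Set.Icc (0:ℝ) (2 * π),
      ∑ n, ENNReal.ofReal (ν n) * lkin (UT K c (fun _ => 0) (E t) t n) := by
  have hK : 0 < Kcl (m + 2) := Pool.Agent.N674.LT.Kcl_pos (by omega)
  have hI : MeasurableSet (Set.Icc (0:ℝ) (2 * π)) := measurableSet_Icc
  have hmx : Measurable fun t => ENNReal.ofReal (kx K c ν t) :=
    (kx_cont K c ν).measurable.ennreal_ofReal
  have hmg : Measurable fun t => ENNReal.ofReal (gt2 K c ν t) :=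
    (gt2_cont K c ν).measurable.ennreal_ofReal
  have hr : ∫⁻ t in Set.Icc (0:ℝ) (2 * π),
      ∑ n, ENNReal.ofReal (ν n) * lkin (UT K c (fun _ => 0) (E t) t n) =
      (∫⁻ t in Set.Icc (0:ℝ) (2 * π), ENNReal.ofReal (kx K c ν t)) +
      ∫⁻ t in Set.Icc (0:ℝ) (2 * π), ENNReal.ofReal (ky K c (fun _ => 0) (E t) ν t) := by
    rw [← lintegral_add_left hmx]
    exact setLIntegral_congr_fun hI fun t ht => lkin_sum H (F t ht) _ t
  rw [hr, ← lintegral_const_mul' _ _ ENNReal.ofReal_ne_top]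
  have h2 : ∫⁻ t in Set.Icc (0:ℝ) (2 * π), ENNReal.ofReal (Kcl (m + 2)) *
      lden (1 + 2 / ((m + 2 : ℕ) : ℝ)) ν (UT K c (fun _ => 0) (E t) t) ≤
      ∫⁻ t in Set.Icc (0:ℝ) (2 * π), (ENNReal.ofReal (gt2 K c ν t) +
        ENNReal.ofReal (ky K c (fun _ => 0) (E t) ν t)) := by
    refine setLIntegral_mono' hI fun t ht => ?_
    rw [lden_eq H (F t ht), ← ENNReal.ofReal_mul hK.le, ← ENNReal.ofReal_add (gt2_nonneg H t)
      (ky_nonneg H _ t)]
    refine ENNReal.ofReal_le_ofReal ?_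
    rw [add_comm (gt2 K c ν t)]
    exact (H.fixed (F t ht) (fun _ => 0) t).2
  refine h2.trans ?_
  rw [lintegral_add_left hmg]
  exact add_le_add_left (gt2_le H) _

end Pool.Agent.H45.LT.Tz
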