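import Mathlib
import Pool.Agent.H45.LT.Tz9

set_option autoImplicit false

/-!
# Infinite rank, and stationary states
-/

open MeasureTheory Filter Topology Real Finset
open scoped ComplexConjugate ENNReal
open LTd (Kcl)

namespace Pool.Agent.H45.LT.Tz

open Os2 (st Psi rho dPsi)
open Tr (ph ph_cont ph_conj ph_mul ph_int conj_self' quad_expand quad_int quad_eq quad_cont parseval
  conj_int slice_H1)
open Ly (Sp)

variable {m : ℕ} {ι κ : Type}

theorem rpow_iSup {α : Type*} (f : α → ℝ≥0∞) {w : ℝ} (hw : 0 < w) :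
    (⨆ i, f i) ^ w = ⨆ i, f i ^ w :=
  (ENNReal.orderIsoRpow w hw).map_iSup f

theorem wv_meas {e : ℝ → ι → (Fin m → ℝ) → ℂ}
    (he : ∀ j, Measurable fun q : ℝ × (Fin m → ℝ) => e q.1 j q.2) (c : ℕ × ℕ × ι →₀ ℂ) :
    Measurable fun q : ℝ × Sp m => wv (e q.1) c q.1 q.2 := by
  unfold wv Finsupp.sum
  refine Finset.measurable_sum _ fun i _ => ?_
  have h1 : Measurable fun q : ℝ × Sp m => e q.1 i.2.2 q.2.2 :=
    (he i.2.2).comp (measurable_fst.prodMk (measurable_snd.comp measurable_snd))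
  have h2 : Continuous fun q : ℝ × Sp m => c i *
      Complex.exp (-((i.1 + 2 * i.2.1 : ℕ) * q.1 * Complex.I)) *
      ((√(√2) * (Osc.h i.1 (q.2.1 0) * Osc.h i.2.1 (√2 * q.2.1 1)) : ℝ) : ℂ) := by
    refine Continuous.mul ?_ (Complex.continuous_ofReal.comp ?_)
    · fun_prop
    · exact continuous_const.mul
        (((Osc.h_cont _).comp (by fun_prop)).mul ((Osc.h_cont _).comp (by fun_prop)))
  exact h2.measurable.mul h1

theorem iSup_lint [Countable κ] {X : Type*} [MeasurableSpace X] (μ : Measure X)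
    {f : Finset κ → X → ℝ≥0∞} (hf : ∀ s, Measurable (f s)) (hm : Monotone f) :
    ∫⁻ x, ⨆ s, f s x ∂μ = ⨆ s, ∫⁻ x, f s x ∂μ :=
  lintegral_iSup_directed (fun s => (hf s).aemeasurable) hm.directed_le

variable [DecidableEq ι] [DecidableEq κ]

theorem inf_avg [Countable κ] {e : ℝ → ι → (Fin m → ℝ) → ℂ} {c : κ → (ℕ × ℕ × ι →₀ ℂ)}
    {ν : κ → ℝ} (he : ∀ j, Measurable fun q : ℝ × (Fin m → ℝ) => e q.1 j q.2)
    (F : ∀ t ∈ Set.Icc (0:ℝ) (2 * π), FamG (e t))
    (ho : ∀ n n', ∫ p, conj (wv (e 0) (c n) 0 p) * wv (e 0) (c n') 0 p =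
      if n = n' then 1 else 0) (hν : ∀ n, 0 ≤ ν n ∧ ν n ≤ 1) :
    ENNReal.ofReal (Kcl (m + 2)) * ∫⁻ t in Set.Icc (0:ℝ) (2 * π), ∫⁻ p,
      (∑' n, ENNReal.ofReal (ν n) * ‖wv (e t) (c n) t p‖ₑ ^ 2) ^
        (1 + 2 / ((m + 2 : ℕ) : ℝ)) ≤
    ∫⁻ t in Set.Icc (0:ℝ) (2 * π),
      ∑' n, ENNReal.ofReal (ν n) * lkin (wv (e t) (c n) t) := by
  have hw : (0:ℝ) < 1 + 2 / ((m + 2 : ℕ) : ℝ) := by positivity
  have hfin := fin_avg F ho hν
  generalize (1 + 2 / ((m + 2 : ℕ) : ℝ)) = w at hw hfin ⊢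
  set A : Finset κ → ℝ × Sp m → ℝ≥0∞ := fun s q =>
    (∑ n ∈ s, ENNReal.ofReal (ν n) * ‖wv (e q.1) (c n) q.1 q.2‖ₑ ^ 2) ^ w with hA
  have hAm : ∀ s, Measurable (A s) := fun s => by
    refine Measurable.pow_const (Finset.measurable_sum _ fun n _ => ?_) _
    exact ((wv_meas he (c n)).enorm.pow_const 2).const_mul _
  have hAmono : Monotone A := fun s s' hss q =>
    ENNReal.rpow_le_rpow (sum_le_sum_of_subset hss) hw.le
  have h1 : ∀ (t : ℝ) (p : Sp m), (∑' n, ENNReal.ofReal (ν n) * ‖wv (e t) (c n) t p‖ₑ ^ 2) ^ w =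
      ⨆ s, A s (t, p) := by
    intro t p
    rw [ENNReal.tsum_eq_iSup_sum, rpow_iSup _ hw]
  have h2 : ∀ t : ℝ, ∫⁻ p : Sp m, ⨆ s, A s (t, p) = ⨆ s, ∫⁻ p : Sp m, A s (t, p) := fun t =>
    iSup_lint volume (f := fun s p => A s (t, p)) (fun s => (hAm s).comp measurable_prodMk_left)
      fun s s' hss p => hAmono hss (t, p)
  have h3 : ∫⁻ t in Set.Icc (0:ℝ) (2 * π), ⨆ s, ∫⁻ p : Sp m, A s (t, p) =
      ⨆ s, ∫⁻ t in Set.Icc (0:ℝ) (2 * π), ∫⁻ p : Sp m, A s (t, p) :=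
    iSup_lint _ (f := fun s t => ∫⁻ p : Sp m, A s (t, p))
      (fun s => (hAm s).lintegral_prod_right') fun s s' hss t =>
        lintegral_mono fun p => hAmono hss (t, p)
  simp only [h1, h2]
  rw [h3, ENNReal.mul_iSup]
  refine iSup_le fun s => (hfin s).trans ?_
  exact lintegral_mono fun t => ENNReal.sum_le_tsum s

/-! ### Stationary states -/

theorem phase_norm (r t : ℝ) : ‖Complex.exp (-(r * t * Complex.I))‖ = 1 := norm_phase r t

theorem phase_fam {e : ι → (Fin m → ℝ) → ℂ} (F : FamG e) (g : ι → ℝ) (t : ℝ) :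
    FamG fun j y => Complex.exp (-(g j * t * Complex.I)) * e j y := by
  have hd : ∀ j y, fderiv ℝ (fun y => Complex.exp (-(g j * t * Complex.I)) * e j y) y =
      Complex.exp (-(g j * t * Complex.I)) • fderiv ℝ (e j) y := fun j y =>
    ((((F.cd j).differentiable (by norm_num)) y).hasFDerivAt.const_mul _).fderiv
  refine ⟨fun j => contDiff_const.mul (F.cd j), fun j => ?_, fun j q => ?_, fun i j => ?_⟩
  · refine (F.L2 j).congr (Eventually.of_forall fun y => ?_)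
    dsimp only
    rw [norm_mul, phase_norm, one_mul]
  · refine (F.dL2 j q).congr (Eventually.of_forall fun y => ?_)
    dsimp only
    rw [hd, _root_.smul_apply, norm_smul, phase_norm, one_mul]
  · have h1 : ∀ y, conj (Complex.exp (-(g i * t * Complex.I)) * e i y) *
        (Complex.exp (-(g j * t * Complex.I)) * e j y) =
        (conj (Complex.exp (-(g i * t * Complex.I))) * Complex.exp (-(g j * t * Complex.I))) *
          (conj (e i y) * e j y) := by
      intro y; rw [map_mul]; ring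
    simp only [h1]
    rw [integral_const_mul, F.ortho]
    split_ifs with h
    · subst h
      rw [mul_one, mul_comm, conj_self', phase_norm]; norm_num
    · rw [mul_zero]

omit [DecidableEq ι] in
theorem wv_stat (e : ι → (Fin m → ℝ) → ℂ) (g : ι → ℝ) (c : ℕ × ℕ × ι →₀ ℂ) {E : ℝ}
    (hE : ∀ i ∈ c.support, ((i.1 + 2 * i.2.1 : ℕ) : ℝ) + g i.2.2 = E) (t : ℝ) (p : Sp m) :
    wv (fun j y => Complex.exp (-(g j * t * Complex.I)) * e j y) c t p =
      Complex.exp (-(E * t * Complex.I)) * wv e c 0 p := by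
  unfold wv Finsupp.sum
  rw [mul_sum]
  refine sum_congr rfl fun i hi => ?_
  rw [← hE i hi]
  have h1 : Complex.exp (-((((((i.1 + 2 * i.2.1 : ℕ) : ℝ) + g i.2.2 : ℝ)) : ℂ) * t * Complex.I)) =
      Complex.exp (-((i.1 + 2 * i.2.1 : ℕ) * t * Complex.I)) *
        Complex.exp (-(g i.2.2 * t * Complex.I)) := by
    rw [← Complex.exp_add]
    congr 1
    push_cast; ring
  rw [h1]
  simp only [Complex.ofReal_zero, mul_zero, zero_mul, neg_zero, Complex.exp_zero, mul_one]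
  ring

theorem lkin_phase (u : Sp m → ℂ) (hu : Differentiable ℝ u) {z : ℂ} (hz : ‖z‖ = 1) :
    lkin (fun p => z * u p) = lkin u := by
  have hz' : ‖z‖ₑ = 1 := by
    rw [← ofReal_norm, hz, ENNReal.ofReal_one]
  have hd : ∀ p, fderiv ℝ (fun p => z * u p) p = z • fderiv ℝ u p := fun p =>
    ((hu p).hasFDerivAt.const_mul _).fderiv
  unfold lkin
  simp only [hd, _root_.smul_apply, enorm_smul, hz', one_mul]

theorem wv_diff {e : ι → (Fin m → ℝ) → ℂ} (F : FamG e) (c : ℕ × ℕ × ι →₀ ℂ) (t : ℝ) :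
    Differentiable ℝ (wv e c t) := by
  have h1 := UT_eq (m := m) e (fun _ : Fin 1 => c) (lab (fun _ : Fin 1 => c) univ)
    (lev (fun _ : Fin 1 => c) univ) 0
    (lev_lab (fun _ : Fin 1 => c) (univ : Finset (Fin 1)) (mem_univ 0)) t
  rw [← h1]
  intro p
  exact (UT_hd (F.fam (ψ := fun j : Fin (lab (fun _ : Fin 1 => c) univ).card =>
    (((lab (fun _ : Fin 1 => c) univ).equivFin.symm j : lab (fun _ : Fin 1 => c) univ) : ι))
    (Subtype.val_injective.comp (Equiv.injective _))) _ _ t 0 p).differentiableAt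

theorem stat_ineq [Countable κ] {e : ι → (Fin m → ℝ) → ℂ} {g : ι → ℝ}
    {c : κ → (ℕ × ℕ × ι →₀ ℂ)} {ν : κ → ℝ} (F : FamG e)
    (ho : ∀ n n', ∫ p, conj (wv e (c n) 0 p) * wv e (c n') 0 p =
      if n = n' then 1 else 0) (hν : ∀ n, 0 ≤ ν n ∧ ν n ≤ 1)
    (hE : ∀ n, ∃ E : ℝ, ∀ i ∈ (c n).support, ((i.1 + 2 * i.2.1 : ℕ) : ℝ) + g i.2.2 = E) :
    ENNReal.ofReal (Kcl (m + 2)) * ∫⁻ p,
      (∑' n, ENNReal.ofReal (ν n) * ‖wv e (c n) 0 p‖ₑ ^ 2) ^ (1 + 2 / ((m + 2 : ℕ) : ℝ)) ≤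
    ∑' n, ENNReal.ofReal (ν n) * lkin (wv e (c n) 0) := by
  choose E hE using hE
  have hm : ∀ j, Measurable fun q : ℝ × (Fin m → ℝ) =>
      Complex.exp (-(g j * q.1 * Complex.I)) * e j q.2 := fun j => by
    refine Continuous.measurable (Continuous.mul ?_ ((F.cd j).continuous.comp continuous_snd))
    fun_prop
  have he0 : (fun (j : ι) (y : Fin m → ℝ) => Complex.exp (-(g j * (0:ℝ) * Complex.I)) * e j y) =
      e := by
    funext j y; simp
  have h := inf_avg (e := fun t j y => Complex.exp (-(g j * t * Complex.I)) * e j y) (c := c)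
    (ν := ν) hm (fun t _ => phase_fam F g t) (by rw [he0]; exact ho) hν
  have e1 : ∀ (t : ℝ) (n : κ) (p : Sp m), ‖wv (fun j y => Complex.exp (-(g j * t * Complex.I)) * e j y) (c n) t p‖ₑ =
      ‖wv e (c n) 0 p‖ₑ := by
    intro t n p
    rw [wv_stat e g (c n) (hE n), enorm_mul, ← ofReal_norm, phase_norm, ENNReal.ofReal_one,
      one_mul]
  have e2 : ∀ (t : ℝ) (n : κ), lkin (wv (fun j y => Complex.exp (-(g j * t * Complex.I)) * e j y) (c n) t) =
      lkin (wv e (c n) 0) := by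
    intro t n
    have e3 : wv (fun j y => Complex.exp (-(g j * t * Complex.I)) * e j y) (c n) t =
        fun p => Complex.exp (-(E n * t * Complex.I)) * wv e (c n) 0 p := by
      funext p; exact wv_stat e g (c n) (hE n) t p
    rw [e3, lkin_phase _ (wv_diff F (c n) 0) (phase_norm _ _)]
  simp only [e1, e2] at h
  rw [setLIntegral_const, setLIntegral_const, ← mul_assoc] at h
  have hv : volume (Set.Icc (0:ℝ) (2 * π)) ≠ 0 := by
    rw [Real.volume_Icc, sub_zero]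
    exact (ENNReal.ofReal_pos.2 (by positivity)).ne'
  have hv' : volume (Set.Icc (0:ℝ) (2 * π)) ≠ ⊤ := by
    rw [Real.volume_Icc]; exact ENNReal.ofReal_ne_top
  exact (ENNReal.mul_le_mul_iff_left hv hv').1 h

end Pool.Agent.H45.LT.Tz
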