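import Mathlib
import Pool.Agent.H45.LT.Tz10
import Pool.Agent.H45.LT.Tr11

set_option autoImplicit false

/-!
# The eigenfunctions of the anisotropic oscillators
-/

open MeasureTheory Filter Topology Real Finset
open scoped ComplexConjugate ENNReal

namespace Pool.Agent.H45.LT.Tz

variable {m : ℕ}

theorem sc_int {s : ℝ} (hs : 0 < s) (f : ℝ → ℝ) : ∫ t, s * f (s * t) = ∫ t, f t := by
  rw [integral_const_mul, Measure.integral_comp_mul_left, smul_eq_mul, abs_inv,
    abs_of_pos hs, ← mul_assoc, mul_inv_cancel₀ hs.ne', one_mul]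

theorem sc_integrable {s : ℝ} (hs : 0 < s) {f : ℝ → ℝ} (hf : Integrable f) :
    Integrable fun t => s * f (s * t) :=
  (hf.comp_mul_left' hs.ne').const_mul _

/-- the `n`-th eigenfunction of the oscillator with the frequency `ω` -/
noncomputable def hs (w : ℝ) (n : ℕ) (t : ℝ) : ℝ := √(√w) * Osc.h n (√w * t)

/-- its derivative -/
noncomputable def hs' (w : ℝ) (n : ℕ) (t : ℝ) : ℝ := √(√w) * (√w * Osc.h' n (√w * t))

theorem hs_deriv (w : ℝ) (n : ℕ) (t : ℝ) : HasDerivAt (hs w n) (hs' w n t) t := by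
  have h1 : HasDerivAt (fun t : ℝ => √w * t) (√w) t := by
    simpa using (hasDerivAt_id t).const_mul (√w)
  have h2 : HasDerivAt (fun t => Osc.h n (√w * t)) (Osc.h' n (√w * t) * √w) t :=
    (Osc.h_deriv n (√w * t)).comp t h1
  have h3 := h2.const_mul (√(√w))
  refine h3.congr_deriv ?_
  unfold hs'; ring

theorem hs_one (n : ℕ) : hs 1 n = Osc.h n := by
  funext t; simp [hs]

theorem hs_two (a b : ℕ) (x y : ℝ) : hs 1 a x * hs 2 b y = √(√2) * (Osc.h a x * Osc.h b (√2 * y)) := by
  rw [hs_one, hs]; ring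

theorem hs_sq {w : ℝ} (hw : 0 < w) : 0 < √w := Real.sqrt_pos.2 hw

theorem hs_mul {w : ℝ} (hw : 0 < w) (m n : ℕ) (t : ℝ) :
    hs w m t * hs w n t = √w * (Osc.h m (√w * t) * Osc.h n (√w * t)) := by
  have h1 : √(√w) * √(√w) = √w := Real.mul_self_sqrt (hs_sq hw).le
  rw [hs, hs]
  linear_combination (Osc.h m (√w * t) * Osc.h n (√w * t)) * h1

theorem hs_ortho {w : ℝ} (hw : 0 < w) (m n : ℕ) :
    ∫ t, hs w m t * hs w n t = if m = n then 1 else 0 := by
  simp only [hs_mul hw]
  rw [sc_int (hs_sq hw) fun t => Osc.h m t * Osc.h n t, Osc.h_ortho]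

theorem hs_int {w : ℝ} (hw : 0 < w) (m n : ℕ) : Integrable fun t => hs w m t * hs w n t := by
  simp only [hs_mul hw]
  exact sc_integrable (hs_sq hw) (f := fun t => Osc.h m t * Osc.h n t) (Tr.gg_int _ _)

theorem hs'_int {w : ℝ} (hw : 0 < w) (m n : ℕ) : Integrable fun t => hs' w m t * hs' w n t := by
  have h1 : √(√w) * √(√w) = √w := Real.mul_self_sqrt (hs_sq hw).le
  have h2 : ∀ t, hs' w m t * hs' w n t =
      √w ^ 2 * (√w * (Osc.h' m (√w * t) * Osc.h' n (√w * t))) := by
    intro t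
    rw [hs', hs']
    linear_combination (√w ^ 2 * (Osc.h' m (√w * t) * Osc.h' n (√w * t))) * h1
  simp only [h2]
  exact (sc_integrable (hs_sq hw) (f := fun t => Osc.h' m t * Osc.h' n t)
    (Tr.gg_int _ _)).const_mul _

theorem hs_cd (w : ℝ) (n : ℕ) : ContDiff ℝ 1 (hs w n) := by
  unfold hs
  exact contDiff_const.mul ((Tr.h_cd n).comp (contDiff_const.mul contDiff_id))

theorem hs_ode {w : ℝ} (hw : 0 < w) (n : ℕ) (t : ℝ) :
    deriv (deriv (hs w n)) t = (w ^ 2 * t ^ 2 - w * (2 * n + 1)) * hs w n t := by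
  have h0 : deriv (hs w n) = hs' w n := funext fun t => (hs_deriv w n t).deriv
  have h1 : HasDerivAt (fun t : ℝ => √w * t) (√w) t := by
    simpa using (hasDerivAt_id t).const_mul (√w)
  have e0 : deriv (Osc.h n) = Osc.h' n := funext fun t => (Osc.h_deriv n t).deriv
  have e1 : HasDerivAt (Osc.h' n) (((√w * t) ^ 2 - (2 * n + 1)) * Osc.h n (√w * t)) (√w * t) := by
    have hd : Differentiable ℝ (Osc.h' n) := by
      have : ContDiff ℝ 1 (Osc.h' n) := by
        unfold Osc.h'
        refine ContDiff.mul ?_ ?_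
        · have h := (Polynomial.derivative (Osc.P n) - Polynomial.X * Osc.P n).contDiff_aeval
            (𝕜 := ℝ) (n := 1)
          simpa using h
        · fun_prop
      exact this.differentiable (by norm_num)
    have h2 := (hd (√w * t)).hasDerivAt
    rw [← e0, Osc.h_ode] at h2
    rw [← e0]
    exact h2
  have h2 : HasDerivAt (fun t => Osc.h' n (√w * t))
      ((((√w * t) ^ 2 - (2 * n + 1)) * Osc.h n (√w * t)) * √w) t := e1.comp t h1
  have h3 : HasDerivAt (hs' w n) (√(√w) * (√w * ((((√w * t) ^ 2 - (2 * n + 1)) *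
      Osc.h n (√w * t)) * √w))) t := (h2.const_mul (√w)).const_mul (√(√w))
  have h4 : √w * √w = w := Real.mul_self_sqrt hw.le
  rw [h0, h3.deriv, hs]
  linear_combination (√(√w) * Osc.h n (√w * t) * (t ^ 2 * (√w * √w + w) - (2 * n + 1))) * h4

/-! ### The products -/

/-- the products of the eigenfunctions -/
noncomputable def hsp (w : Fin m → ℝ) (α : Fin m → ℕ) (y : Fin m → ℝ) : ℂ :=
  ((∏ i, hs (w i) (α i) (y i) : ℝ) : ℂ)

theorem hsp_cd (w : Fin m → ℝ) (α : Fin m → ℕ) : ContDiff ℝ 1 (hsp w α) := by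
  have h1 : ContDiff ℝ 1 fun y : Fin m → ℝ => ∏ i, hs (w i) (α i) (y i) :=
    contDiff_prod fun i _ => (hs_cd (w i) (α i)).comp (contDiff_apply ℝ ℝ i)
  exact Complex.ofRealCLM.contDiff.comp h1

/-- the factors of the derivative -/
noncomputable def dfs (w : Fin m → ℝ) (α : Fin m → ℕ) (q i : Fin m) (t : ℝ) : ℝ :=
  if i = q then hs' (w i) (α i) t else hs (w i) (α i) t

theorem hsp_fd (w : Fin m → ℝ) (α : Fin m → ℕ) (y : Fin m → ℝ) (q : Fin m) :
    fderiv ℝ (hsp w α) y (Pi.single q 1) = ((∏ i, dfs w α q i (y i) : ℝ) : ℂ) := by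
  have h1 : ∀ i ∈ (univ : Finset (Fin m)),
      HasFDerivAt (fun y : Fin m → ℝ => hs (w i) (α i) (y i))
      (hs' (w i) (α i) (y i) • (ContinuousLinearMap.proj i : (Fin m → ℝ) →L[ℝ] ℝ)) y := by
    intro i _
    have h2 : HasFDerivAt (fun y : Fin m → ℝ => y i)
      (ContinuousLinearMap.proj i : (Fin m → ℝ) →L[ℝ] ℝ) y :=
      (ContinuousLinearMap.proj i : (Fin m → ℝ) →L[ℝ] ℝ).hasFDerivAt
    have h3 := HasDerivAt.comp_hasFDerivAt (h₂ := hs (w i) (α i)) y
      (hs_deriv (w i) (α i) (y i)) h2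
    exact h3
  have h3 := HasFDerivAt.finsetProd h1
  have h4 : HasFDerivAt (hsp w α) (Complex.ofRealCLM.comp (∑ i ∈ (univ : Finset (Fin m)),
      (∏ j ∈ univ.erase i, hs (w j) (α j) (y j)) • (hs' (w i) (α i) (y i) •
        (ContinuousLinearMap.proj i : (Fin m → ℝ) →L[ℝ] ℝ)))) y :=
    Complex.ofRealCLM.hasFDerivAt.comp y h3
  rw [h4.fderiv, ContinuousLinearMap.comp_apply, _root_.sum_apply, Complex.ofRealCLM_apply]
  congr 1
  have h5 : ∀ i, ((∏ j ∈ univ.erase i, hs (w j) (α j) (y j)) • (hs' (w i) (α i) (y i) •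
      (ContinuousLinearMap.proj i : (Fin m → ℝ) →L[ℝ] ℝ))) (Pi.single q 1) =
      if i = q then ∏ i, dfs w α q i (y i) else 0 := by
    intro i
    simp only [_root_.smul_apply, ContinuousLinearMap.proj_apply, smul_eq_mul]
    split_ifs with h6
    · subst h6
      rw [Pi.single_eq_same, mul_one, ← mul_prod_erase univ _ (mem_univ i), mul_comm]
      congr 1
      · unfold dfs; rw [if_pos rfl]
      · refine prod_congr rfl fun j hj => ?_
        unfold dfs
        rw [if_neg (ne_of_mem_erase hj)]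
    · rw [Pi.single_eq_of_ne h6, mul_zero, mul_zero]
  simp only [h5]
  rw [sum_ite_eq', if_pos (mem_univ q)]

theorem hsp_fam {w : Fin m → ℝ} (hw : ∀ i, 0 < w i) :
    FamG (hsp w : (Fin m → ℕ) → (Fin m → ℝ) → ℂ) := by
  refine ⟨hsp_cd w, fun α => ?_, fun α q => ?_, fun α β => ?_⟩
  · have h1 : Integrable fun y : Fin m → ℝ =>
        ∏ i, (hs (w i) (α i) (y i) * hs (w i) (α i) (y i)) :=
      Integrable.fintype_prod (f := fun i t => hs (w i) (α i) t * hs (w i) (α i) t)
        fun i => hs_int (hw i) _ _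
    refine h1.congr (Eventually.of_forall fun y => ?_)
    dsimp only
    unfold hsp
    rw [Complex.norm_real, Real.norm_eq_abs, sq_abs, prod_mul_distrib, sq]
  · have h1 : Integrable fun y : Fin m → ℝ => ∏ i, (dfs w α q i (y i) * dfs w α q i (y i)) := by
      refine Integrable.fintype_prod (f := fun i t => dfs w α q i t * dfs w α q i t) fun i => ?_
      unfold dfs
      split_ifs
      · exact hs'_int (hw i) _ _
      · exact hs_int (hw i) _ _
    refine h1.congr (Eventually.of_forall fun y => ?_)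
    dsimp only
    rw [hsp_fd, Complex.norm_real, Real.norm_eq_abs, sq_abs, prod_mul_distrib, sq]
  · have h1 : ∀ y : Fin m → ℝ, conj (hsp w α y) * hsp w β y =
        ((∏ i, (hs (w i) (α i) (y i) * hs (w i) (β i) (y i)) : ℝ) : ℂ) := by
      intro y
      unfold hsp
      rw [Complex.conj_ofReal, ← Complex.ofReal_mul, prod_mul_distrib]
    simp only [h1]
    rw [integral_complex_ofReal,
      integral_fintype_prod_volume_eq_prod fun i t => hs (w i) (α i) t * hs (w i) (β i) t]
    simp only [hs_ortho (hw _)]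
    by_cases h2 : α = β
    · subst h2; simp
    · rw [if_neg h2]
      obtain ⟨i, hi⟩ := Function.ne_iff.1 h2
      rw [prod_eq_zero (mem_univ i) (if_neg hi)]
      norm_num

end Pool.Agent.H45.LT.Tz
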