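import Mathlib
import Pool.Agent.H45.LT.Gn3
import Pool.Agent.H45.LT.Tz11

set_option autoImplicit false

/-!
# Density matrices which commute with two one-dimensional oscillators
-/

open MeasureTheory Filter Topology Real Finset
open scoped ComplexConjugate ENNReal
open LTd (Kcl)

namespace Pool.Agent.H45.LT.Gn

open Ly (Sp)
open Tr (lkin)
open Tz (hs hs')

variable {m N : ℕ}

/-- the product of two eigenfunctions -/
noncomputable def H (α β : ℝ) (a b : ℕ) (x : Fin 2 → ℝ) : ℝ := hs α a (x 0) * hs β b (x 1)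

theorem hs_cont (α : ℝ) (n : ℕ) : Continuous (hs α n) := (Tz.hs_cd α n).continuous

theorem H_cont (α β : ℝ) (a b : ℕ) : Continuous (H α β a b) :=
  ((hs_cont α a).comp (continuous_apply 0)).mul ((hs_cont β b).comp (continuous_apply 1))

theorem quart1 {α : ℝ} (hα : 0 < α) (a c : ℕ) :
    Integrable (fun t => hs α a t * hs α a t * (hs α c t * hs α c t)) ∧
    ∫ t, hs α a t * hs α a t * (hs α c t * hs α c t) = √α * Osc.J a a c := by
  set g : ℝ → ℝ := fun t => (Osc.P a * Osc.P a * (Osc.P c * Osc.P c)).eval t *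
    Real.exp (-2 * t ^ 2) with hg
  have hgi : Integrable g := Osc.gint two_pos _
  have h1 : ∀ t, hs α a t * hs α a t * (hs α c t * hs α c t) = √α * (√α * g (√α * t)) := by
    intro t
    rw [Tz.hs_mul hα, Tz.hs_mul hα, hg]
    simp only [Osc.h, Polynomial.eval_mul, ← Osc.exp4, ← Osc.exp2]
    ring
  simp only [h1]
  refine ⟨(Tz.sc_integrable (Tz.hs_sq hα) hgi).const_mul _, ?_⟩
  rw [integral_const_mul, Tz.sc_int (Tz.hs_sq hα)]
  rfl

theorem H_two {α β : ℝ} (hα : 0 < α) (hβ : 0 < β) (a b a' b' : ℕ) :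
    Integrable (fun x => H α β a b x * H α β a' b' x) ∧
    ∫ x, H α β a b x * H α β a' b' x = if a = a' ∧ b = b' then 1 else 0 := by
  have h1 : ∀ x, H α β a b x * H α β a' b' x = (fun t => hs α a t * hs α a' t) (x 0) *
      (fun t => hs β b t * hs β b' t) (x 1) := by
    intro x
    unfold H; ring
  simp only [h1]
  refine ⟨Osc.integrable2 (Tz.hs_int hα a a') (Tz.hs_int hβ b b'), ?_⟩
  have h2 := Osc.int2 (fun t => hs α a t * hs α a' t) (fun t => hs β b t * hs β b' t)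
  refine h2.trans ?_
  rw [Tz.hs_ortho hα, Tz.hs_ortho hβ]
  by_cases h1 : a = a' <;> by_cases h2 : b = b' <;> simp [h1, h2]

theorem H_four {α β : ℝ} (hα : 0 < α) (hβ : 0 < β) (a b a' b' : ℕ) :
    Integrable (fun x => H α β a b x ^ 2 * H α β a' b' x ^ 2) ∧
    ∫ x, H α β a b x ^ 2 * H α β a' b' x ^ 2 =
      √α * Osc.J a a a' * (√β * Osc.J b b b') := by
  have h1 : ∀ x, H α β a b x ^ 2 * H α β a' b' x ^ 2 =
      (fun t => hs α a t * hs α a t * (hs α a' t * hs α a' t)) (x 0) *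
      (fun t => hs β b t * hs β b t * (hs β b' t * hs β b' t)) (x 1) := by
    intro x
    unfold H; ring
  simp only [h1]
  refine ⟨Osc.integrable2 (quart1 hα a a').1 (quart1 hβ b b').1, ?_⟩
  have h2 := Osc.int2 (fun t => hs α a t * hs α a t * (hs α a' t * hs α a' t))
    (fun t => hs β b t * hs β b t * (hs β b' t * hs β b' t))
  refine h2.trans ?_
  rw [(quart1 hα a a').2, (quart1 hβ b b').2]

/-- A function in the Sobolev space. -/
structure Sob (φ : (Fin m → ℝ) → ℂ) : Prop where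
  cd : ContDiff ℝ 1 φ
  L2 : Integrable fun y => ‖φ y‖ ^ 2
  dL2 : ∀ q, Integrable fun y => ‖fderiv ℝ φ y (Pi.single q 1)‖ ^ 2

/-- the kinetic energy in the other variables -/
noncomputable def Ty (φ : (Fin m → ℝ) → ℂ) : ℝ :=
  ∑ q, ∫ y, ‖fderiv ℝ φ y (Pi.single q 1)‖ ^ 2

theorem Ty_nonneg (φ : (Fin m → ℝ) → ℂ) : 0 ≤ Ty φ :=
  sum_nonneg fun _ _ => integral_nonneg fun _ => sq_nonneg _

/-- the product functions -/
noncomputable def pf (α β : ℝ) (a b : ℕ) (φ : (Fin m → ℝ) → ℂ) (p : Sp m) : ℂ :=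
  ((H α β a b p.1 : ℝ) : ℂ) * φ p.2

theorem pf_inner {α β : ℝ} (hα : 0 < α) (hβ : 0 < β) (a b a' b' : ℕ)
    (φ φ' : (Fin m → ℝ) → ℂ) :
    ∫ p : Sp m, conj (pf α β a b φ p) * pf α β a' b' φ' p =
      (if a = a' ∧ b = b' then 1 else 0) * ∫ y, conj (φ y) * φ' y := by
  have h1 : ∀ p : Sp m, conj (pf α β a b φ p) * pf α β a' b' φ' p =
      ((H α β a b p.1 * H α β a' b' p.1 : ℝ) : ℂ) * (conj (φ p.2) * φ' p.2) := by
    intro p
    unfold pf
    rw [map_mul, Complex.conj_ofReal]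
    push_cast; ring
  simp only [h1]
  have h2 := integral_prod_mul (μ := (volume : Measure (Fin 2 → ℝ)))
    (ν := (volume : Measure (Fin m → ℝ)))
    (fun x => ((H α β a b x * H α β a' b' x : ℝ) : ℂ)) (fun y => conj (φ y) * φ' y)
  refine h2.trans ?_
  rw [integral_complex_ofReal, (H_two hα hβ a b a' b').2]
  split_ifs <;> simp

theorem Sob.mem {φ : (Fin m → ℝ) → ℂ} (S : Sob φ) : MemLp φ 2 volume :=
  (memLp_two_iff_integrable_sq_norm S.cd.continuous.aestronglyMeasurable).2 S.L2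

/-- the sum over all pairs, with the quartic integrals -/
theorem pairs {α β : ℝ} (hα : 0 < α) (hβ : 0 < β) (a b : Fin N → ℕ)
    (φ : Fin N → (Fin m → ℝ) → ℂ) (S : ∀ n, Sob (φ n)) (ν : Fin N → ℝ)
    (hν : ∀ n, 0 ≤ ν n ∧ ν n ≤ 1)
    (ho : ∀ n n', a n = a n' → b n = b n' →
      ∫ y, conj (φ n y) * φ n' y = if n = n' then 1 else 0) :
    2 * π * ∑ n, ∑ n', ν n * ν n' * ‖∫ y, conj (φ n y) * φ n' y‖ ^ 2 *
      (√α * Osc.J (a n) (a n) (a n') * (√β * Osc.J (b n) (b n) (b n'))) ≤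
      ∑ n, ν n * (α * ((a n : ℝ) + 1 / 2) + β * ((b n : ℝ) + 1 / 2)) := by
  have hin : ∀ n n', (inner ℂ ((S n).mem.toLp (φ n)) ((S n').mem.toLp (φ n')) : ℂ) =
      ∫ y, conj (φ n y) * φ n' y := by
    intro n n'
    rw [L2.inner_def]
    refine integral_congr_ae ?_
    filter_upwards [(S n).mem.coeFn_toLp, (S n').mem.coeFn_toLp] with y h1 h2
    rw [h1, h2, RCLike.inner_apply]
    ring
  set l : ℝ := √α / √β with hl
  have hsα : 0 < √α := Real.sqrt_pos.2 hα
  have hsβ : 0 < √β := Real.sqrt_pos.2 hβ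
  have hl0 : 0 < l := div_pos hsα hsβ
  have h := total (fun n => (S n).mem.toLp (φ n)) a b ν hν
    (fun n n' h1 h2 => by rw [hin]; exact ho n n' h1 h2) hl0
  simp only [hin] at h
  have hJ := Osc.J_start
  have e1 : ∀ n n', ν n * ν n' * ‖∫ y, conj (φ n y) * φ n' y‖ ^ 2 *
      (√α * Osc.J (a n) (a n) (a n') * (√β * Osc.J (b n) (b n) (b n'))) =
      Osc.J 0 0 0 ^ 2 * (√α * √β) * (ν n * ν n' * ‖∫ y, conj (φ n y) * φ n' y‖ ^ 2 *
      (L (a n) (ws (a n')) * L (b n) (ws (b n')))) := by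
    intro n n'
    rw [(J_form (a n)).1, (J_form (b n)).1]; ring
  have e2 : 2 * π * ∑ n, ∑ n', ν n * ν n' * ‖∫ y, conj (φ n y) * φ n' y‖ ^ 2 *
      (√α * Osc.J (a n) (a n) (a n') * (√β * Osc.J (b n) (b n) (b n'))) =
      √α * √β * ∑ n, ∑ n', ν n * ν n' * ‖∫ y, conj (φ n y) * φ n' y‖ ^ 2 *
      (L (a n) (ws (a n')) * L (b n) (ws (b n'))) := by
    simp only [e1]
    have e3 : ∀ n, ∑ n', Osc.J 0 0 0 ^ 2 * (√α * √β) * (ν n * ν n' *
        ‖∫ y, conj (φ n y) * φ n' y‖ ^ 2 * (L (a n) (ws (a n')) * L (b n) (ws (b n')))) =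
        Osc.J 0 0 0 ^ 2 * (√α * √β) * ∑ n', ν n * ν n' *
        ‖∫ y, conj (φ n y) * φ n' y‖ ^ 2 * (L (a n) (ws (a n')) * L (b n) (ws (b n'))) :=
      fun n => (mul_sum _ _ _).symm
    simp only [e3]
    rw [← mul_sum]
    linear_combination (√α * √β * ∑ n, ∑ n', ν n * ν n' *
      ‖∫ y, conj (φ n y) * φ n' y‖ ^ 2 * (L (a n) (ws (a n')) * L (b n) (ws (b n')))) * hJ
  rw [e2]
  refine (mul_le_mul_of_nonneg_left h (by positivity)).trans (le_of_eq ?_)
  rw [mul_sum]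
  refine sum_congr rfl fun n _ => ?_
  have hα2 : √α * √α = α := Real.mul_self_sqrt hα.le
  have hβ2 : √β * √β = β := Real.mul_self_sqrt hβ.le
  have e4 : √α * √β * l = α := by
    rw [hl]; field_simp; rw [sq]; exact hα2
  have e5 : √α * √β * l⁻¹ = β := by
    rw [hl, inv_div]; field_simp; rw [sq]; exact hβ2
  linear_combination (ν n * ((a n : ℝ) + 1 / 2)) * e4 + (ν n * ((b n : ℝ) + 1 / 2)) * e5

/-- **The inequality** for finitely many functions. -/
theorem fin_main {α β : ℝ} (hα : 0 < α) (hβ : 0 < β) (a b : Fin N → ℕ)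
    (φ : Fin N → (Fin m → ℝ) → ℂ) (S : ∀ n, Sob (φ n)) (ν : Fin N → ℝ)
    (hν : ∀ n, 0 ≤ ν n ∧ ν n ≤ 1)
    (ho : ∀ n n', a n = a n' → b n = b n' →
      ∫ y, conj (φ n y) * φ n' y = if n = n' then 1 else 0) :
    ENNReal.ofReal (Kcl (m + 2)) * ∫⁻ p : Sp m, (∑ n, ENNReal.ofReal (ν n) *
      ‖pf α β (a n) (b n) (φ n) p‖ₑ ^ 2) ^ (1 + 2 / ((m + 2 : ℕ) : ℝ)) ≤
    ENNReal.ofReal (∑ n, ν n * (α * ((a n : ℝ) + 1 / 2) + β * ((b n : ℝ) + 1 / 2) +
      Ty (φ n))) := by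
  have hK : 0 < Kcl (m + 2) := Pool.Agent.N674.LT.Kcl_pos (by omega)
  set pw : ℝ := 1 + 2 / ((m + 2 : ℕ) : ℝ) with hpw
  have hpw0 : 0 < pw := by rw [hpw]; positivity
  set F : (Fin 2 → ℝ) → (Fin m → ℝ) → ℝ := fun x y =>
    (∑ n, ν n * H α β (a n) (b n) x ^ 2 * ‖φ n y‖ ^ 2) ^ pw with hF
  have hin0 : ∀ x y, 0 ≤ ∑ n, ν n * H α β (a n) (b n) x ^ 2 * ‖φ n y‖ ^ 2 := fun x y =>
    sum_nonneg fun n _ => mul_nonneg (mul_nonneg (hν n).1 (sq_nonneg _)) (sq_nonneg _)
  have hF0 : ∀ x y, 0 ≤ F x y := fun x y => Real.rpow_nonneg (hin0 x y) _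
  -- pointwise
  have h1 : ∀ p : Sp m, (∑ n, ENNReal.ofReal (ν n) * ‖pf α β (a n) (b n) (φ n) p‖ₑ ^ 2) ^ pw =
      ENNReal.ofReal (F p.1 p.2) := by
    intro p
    rw [hF]; dsimp only
    rw [← ENNReal.ofReal_rpow_of_nonneg (hin0 p.1 p.2) hpw0.le, ENNReal.ofReal_sum_of_nonneg]
    · congr 1
      refine sum_congr rfl fun n _ => ?_
      rw [Tr.en_sq, ← ENNReal.ofReal_mul (hν n).1]
      congr 1
      unfold pf
      rw [norm_mul, mul_pow, Complex.norm_real, Real.norm_eq_abs, sq_abs]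
      ring
    · exact fun n _ => mul_nonneg (mul_nonneg (hν n).1 (sq_nonneg _)) (sq_nonneg _)
  simp only [h1]
  have hFc : Continuous fun p : Sp m => F p.1 p.2 := by
    rw [hF]
    refine Continuous.rpow_const ?_ fun p => Or.inr hpw0.le
    refine continuous_finsetSum _ fun n _ => ?_
    exact (continuous_const.mul (((H_cont α β (a n) (b n)).comp continuous_fst).pow 2)).mul
      (((S n).cd.continuous.comp continuous_snd).norm.pow 2)
  have h2 : ∫⁻ p : Sp m, ENNReal.ofReal (F p.1 p.2) =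
      ∫⁻ x : Fin 2 → ℝ, ∫⁻ y : Fin m → ℝ, ENNReal.ofReal (F x y) :=
    lintegral_prod _ hFc.measurable.ennreal_ofReal.aemeasurable
  -- the slices
  set R : (Fin 2 → ℝ) → ℝ := fun x => (∑ n, ν n * Ty (φ n) * (H α β (a n) (b n) x *
    H α β (a n) (b n) x)) + 2 * π * ∑ n, ∑ n', ν n * ν n' *
      ‖∫ y, conj (φ n y) * φ n' y‖ ^ 2 * (H α β (a n) (b n) x ^ 2 * H α β (a n') (b n') x ^ 2)
    with hR
  have hR0 : ∀ x, 0 ≤ R x := by
    intro x
    rw [hR]; dsimp only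
    refine add_nonneg (sum_nonneg fun n _ => mul_nonneg (mul_nonneg (hν n).1 (Ty_nonneg _))
      (mul_self_nonneg _)) (mul_nonneg (by positivity) (sum_nonneg fun n _ => sum_nonneg
      fun n' _ => mul_nonneg (mul_nonneg (mul_nonneg (hν n).1 (hν n').1) (sq_nonneg _))
      (by positivity)))
  have h3 : ∀ x, ENNReal.ofReal (Kcl (m + 2)) * ∫⁻ y, ENNReal.ofReal (F x y) ≤
      ENNReal.ofReal (R x) := by
    intro x
    set v : Fin N → (Fin m → ℝ) → ℂ := fun n y =>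
      ((√(ν n) * H α β (a n) (b n) x : ℝ) : ℂ) * φ n y with hv
    have hvn : ∀ n y, ‖v n y‖ ^ 2 = ν n * H α β (a n) (b n) x ^ 2 * ‖φ n y‖ ^ 2 := by
      intro n y
      rw [hv]; dsimp only
      rw [norm_mul, mul_pow, Complex.norm_real, Real.norm_eq_abs, sq_abs, mul_pow,
        Real.sq_sqrt (hν n).1]
    have hvd : ∀ n y (q : Fin m), ‖fderiv ℝ (v n) y (Pi.single q 1)‖ ^ 2 =
        ν n * H α β (a n) (b n) x ^ 2 * ‖fderiv ℝ (φ n) y (Pi.single q 1)‖ ^ 2 := by
      intro n y q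
      have e1 : HasFDerivAt (v n) (((√(ν n) * H α β (a n) (b n) x : ℝ) : ℂ) •
          fderiv ℝ (φ n) y) y :=
        (((S n).cd.differentiable (by norm_num) y).hasFDerivAt).const_mul _
      rw [e1.fderiv, _root_.smul_apply, smul_eq_mul, norm_mul, mul_pow, Complex.norm_real,
        Real.norm_eq_abs, sq_abs, mul_pow, Real.sq_sqrt (hν n).1]
    have hsl := Tr.slice_H1 (v := v) (fun n => contDiff_const.mul (S n).cd)
      (fun n => by simp only [hvn]; exact (S n).L2.const_mul _)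
      (fun n q => by simp only [hvd]; exact ((S n).dL2 q).const_mul _)
    have hG : ∀ n n', ‖∫ y, conj (v n y) * v n' y‖ ^ 2 = ν n * ν n' *
        ‖∫ y, conj (φ n y) * φ n' y‖ ^ 2 *
        (H α β (a n) (b n) x ^ 2 * H α β (a n') (b n') x ^ 2) := by
      intro n n'
      have e1 : ∀ y, conj (v n y) * v n' y = ((√(ν n) * H α β (a n) (b n) x *
          (√(ν n') * H α β (a n') (b n') x) : ℝ) : ℂ) * (conj (φ n y) * φ n' y) := by
        intro y
        rw [hv]; dsimp only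
        rw [map_mul, Complex.conj_ofReal]
        push_cast; ring
      simp only [e1]
      rw [integral_const_mul, norm_mul, mul_pow, Complex.norm_real, Real.norm_eq_abs, sq_abs,
        mul_pow, mul_pow, mul_pow, Real.sq_sqrt (hν n).1, Real.sq_sqrt (hν n').1]
      ring
    simp only [hvn, hvd, hG] at hsl
    obtain ⟨hi, hle⟩ := hsl
    rw [← ofReal_integral_eq_lintegral_ofReal hi (ae_of_all _ fun y => hF0 x y),
      ← ENNReal.ofReal_mul hK.le]
    refine ENNReal.ofReal_le_ofReal (hle.trans (le_of_eq ?_))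
    rw [hR]; dsimp only
    congr 1
    refine sum_congr rfl fun n _ => ?_
    simp only [integral_const_mul]
    rw [← mul_sum]
    unfold Ty
    ring
  rw [h2, ← lintegral_const_mul' _ _ ENNReal.ofReal_ne_top]
  refine (lintegral_mono h3).trans ?_
  -- the integral
  have i1 : ∀ n, Integrable fun x => ν n * Ty (φ n) * (H α β (a n) (b n) x *
      H α β (a n) (b n) x) := fun n => (H_two hα hβ (a n) (b n) (a n) (b n)).1.const_mul _
  have i2 : ∀ n n', Integrable fun x => ν n * ν n' * ‖∫ y, conj (φ n y) * φ n' y‖ ^ 2 *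
      (H α β (a n) (b n) x ^ 2 * H α β (a n') (b n') x ^ 2) := fun n n' =>
    (H_four hα hβ (a n) (b n) (a n') (b n')).1.const_mul _
  have i3 : Integrable fun x => ∑ n, ν n * Ty (φ n) * (H α β (a n) (b n) x *
      H α β (a n) (b n) x) := integrable_finsetSum _ fun n _ => i1 n
  have i4 : Integrable fun x => ∑ n, ∑ n', ν n * ν n' * ‖∫ y, conj (φ n y) * φ n' y‖ ^ 2 *
      (H α β (a n) (b n) x ^ 2 * H α β (a n') (b n') x ^ 2) :=
    integrable_finsetSum _ fun n _ => integrable_finsetSum _ fun n' _ => i2 n n'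
  have i5 : Integrable R := i3.add (i4.const_mul _)
  rw [← ofReal_integral_eq_lintegral_ofReal i5 (ae_of_all _ hR0)]
  refine ENNReal.ofReal_le_ofReal ?_
  have e1 : ∫ x, R x = (∑ n, ν n * Ty (φ n)) + 2 * π * ∑ n, ∑ n', ν n * ν n' *
      ‖∫ y, conj (φ n y) * φ n' y‖ ^ 2 *
      (√α * Osc.J (a n) (a n) (a n') * (√β * Osc.J (b n) (b n) (b n'))) := by
    rw [hR]
    rw [integral_add i3 (i4.const_mul _), integral_const_mul,
      integral_finsetSum _ fun n _ => i1 n,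
      integral_finsetSum _ fun n _ => integrable_finsetSum _ fun n' _ => i2 n n']
    congr 1
    · refine sum_congr rfl fun n _ => ?_
      rw [integral_const_mul, (H_two hα hβ (a n) (b n) (a n) (b n)).2, if_pos ⟨rfl, rfl⟩, mul_one]
    · congr 1
      refine sum_congr rfl fun n _ => ?_
      rw [integral_finsetSum _ fun n' _ => i2 n n']
      refine sum_congr rfl fun n' _ => ?_
      rw [integral_const_mul, (H_four hα hβ (a n) (b n) (a n') (b n')).2]
  rw [e1]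
  have h5 := pairs hα hβ a b φ S ν hν ho
  have e2 : ∑ n, ν n * (α * ((a n : ℝ) + 1 / 2) + β * ((b n : ℝ) + 1 / 2) + Ty (φ n)) =
      ∑ n, ν n * (α * ((a n : ℝ) + 1 / 2) + β * ((b n : ℝ) + 1 / 2)) +
        ∑ n, ν n * Ty (φ n) := by
    rw [← sum_add_distrib]
    exact sum_congr rfl fun n _ => by ring
  rw [e2]
  linarith

end Pool.Agent.H45.LT.Gn
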