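import Mathlib
import Pool.Agent.H45.LT.Gn4

set_option autoImplicit false

/-!
# The kinetic energy of product functions, and infinite rank
-/

open MeasureTheory Filter Topology Real Finset
open scoped ComplexConjugate ENNReal
open LTd (Kcl)

namespace Pool.Agent.H45.LT.Gn

open Ly (Sp)
open Tr (lkin)
open Tz (hs hs')

variable {m N : ℕ}

theorem hs'_sq {α : ℝ} (hα : 0 < α) (a : ℕ) :
    ∫ t, hs' α a t * hs' α a t = α * ((a:ℝ) + 1 / 2) := by
  have h0 : √(√α) * √(√α) = √α := Real.mul_self_sqrt (Tz.hs_sq hα).le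
  have h1 : √α * √α = α := Real.mul_self_sqrt hα.le
  set g : ℝ → ℝ := fun t => Osc.h' a t * Osc.h' a t with hg
  have h2 : ∀ t, hs' α a t * hs' α a t = α * (√α * g (√α * t)) := by
    intro t
    rw [Tz.hs', hg]
    linear_combination (√α ^ 2 * (Osc.h' a (√α * t) * Osc.h' a (√α * t))) * h0 +
      (√α * (Osc.h' a (√α * t) * Osc.h' a (√α * t))) * h1
  simp only [h2]
  rw [integral_const_mul, Tz.sc_int (Tz.hs_sq hα)]
  congr 1
  rw [← Osc.flow_sq a, Osc.E]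
  refine integral_congr_ae (ae_of_all _ fun t => ?_)
  rw [hg]
  simp only [Osc.h', Polynomial.eval_mul, ← Osc.exp2]
  ring

/-- the derivatives of the products -/
noncomputable def dH (α β : ℝ) (a b : ℕ) (q : Fin 2) (x : Fin 2 → ℝ) : ℝ :=
  if q = 0 then hs' α a (x 0) * hs β b (x 1) else hs α a (x 0) * hs' β b (x 1)

theorem hs'_cont (α : ℝ) (n : ℕ) : Continuous (hs' α n) := by
  unfold Tz.hs'
  exact continuous_const.mul (continuous_const.mul ((Osc.h'_cont n).comp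
    (continuous_const.mul continuous_id)))

theorem dH_cont (α β : ℝ) (a b : ℕ) (q : Fin 2) : Continuous (dH α β a b q) := by
  unfold dH
  split_ifs
  · exact ((hs'_cont α a).comp (continuous_apply 0)).mul ((hs_cont β b).comp (continuous_apply 1))
  · exact ((hs_cont α a).comp (continuous_apply 0)).mul ((hs'_cont β b).comp (continuous_apply 1))

theorem H_fd (α β : ℝ) (a b : ℕ) (x : Fin 2 → ℝ) :
    HasFDerivAt (H α β a b)
      (hs α a (x 0) • (hs' β b (x 1) • (ContinuousLinearMap.proj 1 : (Fin 2 → ℝ) →L[ℝ] ℝ)) +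
        hs β b (x 1) • (hs' α a (x 0) • (ContinuousLinearMap.proj 0 : (Fin 2 → ℝ) →L[ℝ] ℝ)))
      x := by
  have p0 : HasFDerivAt (fun x : Fin 2 → ℝ => x 0)
      (ContinuousLinearMap.proj 0 : (Fin 2 → ℝ) →L[ℝ] ℝ) x :=
    (ContinuousLinearMap.proj (R := ℝ) (φ := fun _ : Fin 2 => ℝ) 0).hasFDerivAt
  have p1 : HasFDerivAt (fun x : Fin 2 → ℝ => x 1)
      (ContinuousLinearMap.proj 1 : (Fin 2 → ℝ) →L[ℝ] ℝ) x :=
    (ContinuousLinearMap.proj (R := ℝ) (φ := fun _ : Fin 2 => ℝ) 1).hasFDerivAt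
  have h0 : HasFDerivAt (hs α a ∘ fun x : Fin 2 → ℝ => x 0)
      (hs' α a (x 0) • (ContinuousLinearMap.proj 0 : (Fin 2 → ℝ) →L[ℝ] ℝ)) x :=
    HasDerivAt.comp_hasFDerivAt x (Tz.hs_deriv α a (x 0)) p0
  have h1 : HasFDerivAt (hs β b ∘ fun x : Fin 2 → ℝ => x 1)
      (hs' β b (x 1) • (ContinuousLinearMap.proj 1 : (Fin 2 → ℝ) →L[ℝ] ℝ)) x :=
    HasDerivAt.comp_hasFDerivAt x (Tz.hs_deriv β b (x 1)) p1
  exact h0.mul h1

theorem H_dq (α β : ℝ) (a b : ℕ) (x : Fin 2 → ℝ) (q : Fin 2) :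
    fderiv ℝ (H α β a b) x (Pi.single q 1) = dH α β a b q x := by
  rw [(H_fd α β a b x).fderiv]
  simp only [_root_.add_apply, _root_.smul_apply, ContinuousLinearMap.proj_apply, smul_eq_mul]
  unfold dH
  fin_cases q
  · simp; ring
  · simp

theorem pf_fd {φ : (Fin m → ℝ) → ℂ} (S : Sob φ) (α β : ℝ) (a b : ℕ) (p : Sp m) :
    HasFDerivAt (pf α β a b φ)
      (((H α β a b p.1 : ℝ) : ℂ) • ((fderiv ℝ φ p.2).comp
        (ContinuousLinearMap.snd ℝ (Fin 2 → ℝ) (Fin m → ℝ))) +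
      φ p.2 • ((Complex.ofRealCLM.comp (fderiv ℝ (H α β a b) p.1)).comp
        (ContinuousLinearMap.fst ℝ (Fin 2 → ℝ) (Fin m → ℝ)))) p := by
  have h1 : HasFDerivAt (fun p : Sp m => ((H α β a b p.1 : ℝ) : ℂ))
      ((Complex.ofRealCLM.comp (fderiv ℝ (H α β a b) p.1)).comp
        (ContinuousLinearMap.fst ℝ (Fin 2 → ℝ) (Fin m → ℝ))) p := by
    have e1 : HasFDerivAt (H α β a b) (fderiv ℝ (H α β a b) p.1) p.1 :=
      (H_fd α β a b p.1).differentiableAt.hasFDerivAt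
    have e2 : HasFDerivAt (fun x => ((H α β a b x : ℝ) : ℂ))
        (Complex.ofRealCLM.comp (fderiv ℝ (H α β a b) p.1)) p.1 :=
      Complex.ofRealCLM.hasFDerivAt.comp p.1 e1
    exact e2.comp p (hasFDerivAt_fst (𝕜 := ℝ) (p := p))
  have h2 : HasFDerivAt (fun p : Sp m => φ p.2) ((fderiv ℝ φ p.2).comp
        (ContinuousLinearMap.snd ℝ (Fin 2 → ℝ) (Fin m → ℝ))) p :=
    ((S.cd.differentiable (by norm_num) p.2).hasFDerivAt).comp p (hasFDerivAt_snd (p := p))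
  exact h1.mul h2

theorem pf_dx {φ : (Fin m → ℝ) → ℂ} (S : Sob φ) (α β : ℝ) (a b : ℕ) (p : Sp m) (q : Fin 2) :
    fderiv ℝ (pf α β a b φ) p (Pi.single q 1, 0) = ((dH α β a b q p.1 : ℝ) : ℂ) * φ p.2 := by
  rw [(pf_fd S α β a b p).fderiv]
  simp only [_root_.add_apply, _root_.smul_apply, ContinuousLinearMap.comp_apply,
    ContinuousLinearMap.coe_fst', ContinuousLinearMap.coe_snd', map_zero, smul_zero, zero_add,
    Complex.ofRealCLM_apply, H_dq, smul_eq_mul]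
  ring

theorem pf_dy {φ : (Fin m → ℝ) → ℂ} (S : Sob φ) (α β : ℝ) (a b : ℕ) (p : Sp m) (q : Fin m) :
    fderiv ℝ (pf α β a b φ) p (0, Pi.single q 1) =
      ((H α β a b p.1 : ℝ) : ℂ) * fderiv ℝ φ p.2 (Pi.single q 1) := by
  rw [(pf_fd S α β a b p).fderiv]
  simp only [_root_.add_apply, _root_.smul_apply, ContinuousLinearMap.comp_apply,
    ContinuousLinearMap.coe_fst', ContinuousLinearMap.coe_snd', map_zero, smul_eq_mul, mul_zero,
    add_zero]

theorem dH_sq {α β : ℝ} (hα : 0 < α) (hβ : 0 < β) (a b : ℕ) :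
    Integrable (fun x => dH α β a b 0 x ^ 2 + dH α β a b 1 x ^ 2) ∧
    ∫ x, (dH α β a b 0 x ^ 2 + dH α β a b 1 x ^ 2) =
      α * ((a:ℝ) + 1 / 2) + β * ((b:ℝ) + 1 / 2) := by
  have h0 : ∀ x, dH α β a b 0 x ^ 2 = (fun t => hs' α a t * hs' α a t) (x 0) *
      (fun t => hs β b t * hs β b t) (x 1) := by
    intro x
    unfold dH
    rw [if_pos rfl]; ring
  have h1 : ∀ x, dH α β a b 1 x ^ 2 = (fun t => hs α a t * hs α a t) (x 0) *
      (fun t => hs' β b t * hs' β b t) (x 1) := by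
    intro x
    unfold dH
    rw [if_neg (by decide)]; ring
  have i0 : Integrable fun x => dH α β a b 0 x ^ 2 := by
    simp only [h0]
    exact Osc.integrable2 (Tz.hs'_int hα a a) (Tz.hs_int hβ b b)
  have i1 : Integrable fun x => dH α β a b 1 x ^ 2 := by
    simp only [h1]
    exact Osc.integrable2 (Tz.hs_int hα a a) (Tz.hs'_int hβ b b)
  refine ⟨i0.add i1, ?_⟩
  rw [integral_add i0 i1]
  simp only [h0, h1]
  have e0 := Osc.int2 (fun t => hs' α a t * hs' α a t) (fun t => hs β b t * hs β b t)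
  have e1 := Osc.int2 (fun t => hs α a t * hs α a t) (fun t => hs' β b t * hs' β b t)
  rw [e0, e1, hs'_sq hα, hs'_sq hβ, Tz.hs_ortho hα, Tz.hs_ortho hβ, if_pos rfl, if_pos rfl]
  ring

/-- the kinetic energy of a product function -/
theorem pf_kin {α β : ℝ} (hα : 0 < α) (hβ : 0 < β) (a b : ℕ) {φ : (Fin m → ℝ) → ℂ} (S : Sob φ)
    (hn : ∫ y, ‖φ y‖ ^ 2 = 1) : lkin (pf α β a b φ) = ENNReal.ofReal
      (α * ((a:ℝ) + 1 / 2) + β * ((b:ℝ) + 1 / 2) + Ty φ) := by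
  have h1 : ∀ p : Sp m, (∑ q : Fin 2, ‖fderiv ℝ (pf α β a b φ) p (Pi.single q 1, 0)‖ₑ ^ 2) +
      ∑ q : Fin m, ‖fderiv ℝ (pf α β a b φ) p (0, Pi.single q 1)‖ₑ ^ 2 =
      ENNReal.ofReal (dH α β a b 0 p.1 ^ 2 + dH α β a b 1 p.1 ^ 2) *
        ENNReal.ofReal (‖φ p.2‖ ^ 2) +
      ENNReal.ofReal (H α β a b p.1 * H α β a b p.1) *
        ENNReal.ofReal (∑ q : Fin m, ‖fderiv ℝ φ p.2 (Pi.single q 1)‖ ^ 2) := by
    intro p
    simp only [pf_dx S, pf_dy S, Fin.sum_univ_two, Tr.en_sq, norm_mul, mul_pow,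
      Complex.norm_real, Real.norm_eq_abs, sq_abs]
    congr 1
    · rw [← ENNReal.ofReal_add (by positivity) (by positivity),
        ← ENNReal.ofReal_mul (by positivity)]
      congr 1; ring
    · rw [← ENNReal.ofReal_sum_of_nonneg fun _ _ => by positivity,
        ← ENNReal.ofReal_mul (mul_self_nonneg _), ← mul_sum]
      congr 1; ring
  unfold lkin
  simp only [h1]
  have hHc := H_cont α β a b
  have hdc : Continuous fun x => dH α β a b 0 x ^ 2 + dH α β a b 1 x ^ 2 :=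
    ((dH_cont α β a b 0).pow 2).add ((dH_cont α β a b 1).pow 2)
  have hφc := S.cd.continuous
  have hφd : Continuous fun y => ∑ q : Fin m, ‖fderiv ℝ φ y (Pi.single q 1)‖ ^ 2 :=
    continuous_finsetSum _ fun q _ => ((S.cd.continuous_fderiv (by norm_num)).clm_apply
      continuous_const).norm.pow 2
  rw [lintegral_add_left]
  · have e1 : ∫⁻ p : Sp m, ENNReal.ofReal (dH α β a b 0 p.1 ^ 2 + dH α β a b 1 p.1 ^ 2) *
        ENNReal.ofReal (‖φ p.2‖ ^ 2) =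
        (∫⁻ x, ENNReal.ofReal (dH α β a b 0 x ^ 2 + dH α β a b 1 x ^ 2)) *
        ∫⁻ y, ENNReal.ofReal (‖φ y‖ ^ 2) :=
      lintegral_prod_mul hdc.measurable.ennreal_ofReal.aemeasurable
        (hφc.norm.pow 2).measurable.ennreal_ofReal.aemeasurable
    have e2 : ∫⁻ p : Sp m, ENNReal.ofReal (H α β a b p.1 * H α β a b p.1) *
        ENNReal.ofReal (∑ q : Fin m, ‖fderiv ℝ φ p.2 (Pi.single q 1)‖ ^ 2) =
        (∫⁻ x, ENNReal.ofReal (H α β a b x * H α β a b x)) *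
        ∫⁻ y, ENNReal.ofReal (∑ q : Fin m, ‖fderiv ℝ φ y (Pi.single q 1)‖ ^ 2) :=
      lintegral_prod_mul (hHc.mul hHc).measurable.ennreal_ofReal.aemeasurable
        hφd.measurable.ennreal_ofReal.aemeasurable
    rw [e1, e2]
    rw [← ofReal_integral_eq_lintegral_ofReal (dH_sq hα hβ a b).1
        (ae_of_all _ fun x => by positivity),
      ← ofReal_integral_eq_lintegral_ofReal S.L2 (ae_of_all _ fun x => by positivity),
      ← ofReal_integral_eq_lintegral_ofReal (H_two hα hβ a b a b).1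
        (ae_of_all _ fun x => mul_self_nonneg _),
      ← ofReal_integral_eq_lintegral_ofReal (integrable_finsetSum _ fun q _ => S.dL2 q)
        (ae_of_all _ fun x => by positivity),
      (dH_sq hα hβ a b).2, hn, (H_two hα hβ a b a b).2, if_pos ⟨rfl, rfl⟩,
      integral_finsetSum _ fun q _ => S.dL2 q, ENNReal.ofReal_one, mul_one, one_mul]
    change _ + ENNReal.ofReal (Ty φ) = _
    rw [← ENNReal.ofReal_add (by positivity) (Ty_nonneg φ)]
  · exact ((hdc.comp continuous_fst).measurable.ennreal_ofReal).mul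
      ((hφc.norm.pow 2).comp continuous_snd).measurable.ennreal_ofReal

variable {κ : Type} [DecidableEq κ]

theorem set_main {α β : ℝ} (hα : 0 < α) (hβ : 0 < β) (a b : κ → ℕ)
    (φ : κ → (Fin m → ℝ) → ℂ) (S : ∀ n, Sob (φ n)) (ν : κ → ℝ)
    (hν : ∀ n, 0 ≤ ν n ∧ ν n ≤ 1)
    (ho : ∀ n n', ∫ p : Sp m, conj (pf α β (a n) (b n) (φ n) p) *
      pf α β (a n') (b n') (φ n') p = if n = n' then 1 else 0) (s : Finset κ) :
    ENNReal.ofReal (Kcl (m + 2)) * ∫⁻ p : Sp m, (∑ n ∈ s, ENNReal.ofReal (ν n) *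
      ‖pf α β (a n) (b n) (φ n) p‖ₑ ^ 2) ^ (1 + 2 / ((m + 2 : ℕ) : ℝ)) ≤
    ∑ n ∈ s, ENNReal.ofReal (ν n) * lkin (pf α β (a n) (b n) (φ n)) := by
  have ho' : ∀ n n', a n = a n' → b n = b n' →
      ∫ y, conj (φ n y) * φ n' y = if n = n' then 1 else 0 := by
    intro n n' h1 h2
    rw [← ho n n', pf_inner hα hβ, if_pos ⟨h1, h2⟩, one_mul]
  have hn : ∀ n, ∫ y, ‖φ n y‖ ^ 2 = 1 := by
    intro n
    have h := ho' n n rfl rfl
    rw [if_pos rfl] at h
    have h2 : ∀ y, conj (φ n y) * φ n y = ((‖φ n y‖ ^ 2 : ℝ) : ℂ) := fun y => norm_conj_mul _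
    simp only [h2] at h
    rw [integral_complex_ofReal] at h
    exact_mod_cast h
  set ψ : Fin s.card → κ := fun i => s.equivFin.symm i with hψ
  have hψi : ∀ i j, ψ i = ψ j ↔ i = j := by
    intro i j
    rw [hψ]
    dsimp only
    rw [Subtype.val_injective.eq_iff, s.equivFin.symm.injective.eq_iff]
  have h := fin_main hα hβ (fun i => a (ψ i)) (fun i => b (ψ i)) (fun i => φ (ψ i))
    (fun i => S (ψ i)) (fun i => ν (ψ i)) (fun i => hν (ψ i)) (fun i j h1 h2 => by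
      rw [ho' _ _ h1 h2]; simp only [hψi])
  have e1 : ∀ p : Sp m, ∑ n ∈ s, ENNReal.ofReal (ν n) * ‖pf α β (a n) (b n) (φ n) p‖ₑ ^ 2 =
      ∑ i : Fin s.card, ENNReal.ofReal (ν (ψ i)) *
        ‖pf α β (a (ψ i)) (b (ψ i)) (φ (ψ i)) p‖ₑ ^ 2 := fun p =>
    Tr.sum_fin s fun n => ENNReal.ofReal (ν n) * ‖pf α β (a n) (b n) (φ n) p‖ₑ ^ 2
  have e2 : ∑ n ∈ s, ENNReal.ofReal (ν n) * lkin (pf α β (a n) (b n) (φ n)) =
      ∑ i : Fin s.card, ENNReal.ofReal (ν (ψ i)) *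
        lkin (pf α β (a (ψ i)) (b (ψ i)) (φ (ψ i))) :=
    Tr.sum_fin s fun n => ENNReal.ofReal (ν n) * lkin (pf α β (a n) (b n) (φ n))
  simp only [e1]
  rw [e2]
  refine h.trans (le_of_eq ?_)
  rw [ENNReal.ofReal_sum_of_nonneg]
  · refine sum_congr rfl fun i _ => ?_
    rw [pf_kin hα hβ _ _ (S _) (hn _), ENNReal.ofReal_mul (hν _).1]
  · intro i _
    have := Ty_nonneg (φ (ψ i))
    exact mul_nonneg (hν _).1 (by positivity)

/-- **The inequality**, of finite or infinite rank. -/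
theorem inf_main [Countable κ] {α β : ℝ} (hα : 0 < α) (hβ : 0 < β) (a b : κ → ℕ)
    (φ : κ → (Fin m → ℝ) → ℂ) (S : ∀ n, Sob (φ n)) (ν : κ → ℝ)
    (hν : ∀ n, 0 ≤ ν n ∧ ν n ≤ 1)
    (ho : ∀ n n', ∫ p : Sp m, conj (pf α β (a n) (b n) (φ n) p) *
      pf α β (a n') (b n') (φ n') p = if n = n' then 1 else 0) :
    ENNReal.ofReal (Kcl (m + 2)) * ∫⁻ p : Sp m, (∑' n, ENNReal.ofReal (ν n) *
      ‖pf α β (a n) (b n) (φ n) p‖ₑ ^ 2) ^ (1 + 2 / ((m + 2 : ℕ) : ℝ)) ≤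
    ∑' n, ENNReal.ofReal (ν n) * lkin (pf α β (a n) (b n) (φ n)) := by
  have hw : (0:ℝ) < 1 + 2 / ((m + 2 : ℕ) : ℝ) := by positivity
  have hfin := set_main hα hβ a b φ S ν hν ho
  generalize (1 + 2 / ((m + 2 : ℕ) : ℝ)) = w' at hw hfin ⊢
  set A : Finset κ → Sp m → ℝ≥0∞ := fun s p =>
    (∑ n ∈ s, ENNReal.ofReal (ν n) * ‖pf α β (a n) (b n) (φ n) p‖ₑ ^ 2) ^ w' with hA
  have hpm : ∀ n, Measurable (pf α β (a n) (b n) (φ n) : Sp m → ℂ) := fun n =>
    ((Complex.continuous_ofReal.comp ((H_cont α β (a n) (b n)).comp continuous_fst)).mul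
      ((S n).cd.continuous.comp continuous_snd)).measurable
  have hAm : ∀ s, Measurable (A s) := fun s =>
    Measurable.pow_const (Finset.measurable_sum _ fun n _ =>
      ((hpm n).enorm.pow_const 2).const_mul _) _
  have hAmono : Monotone A := fun s s' hss q =>
    ENNReal.rpow_le_rpow (sum_le_sum_of_subset hss) hw.le
  have h1 : ∀ p : Sp m, (∑' n, ENNReal.ofReal (ν n) *
      ‖pf α β (a n) (b n) (φ n) p‖ₑ ^ 2) ^ w' = ⨆ s, A s p := by
    intro p
    rw [ENNReal.tsum_eq_iSup_sum, Tr.rpow_iSup _ hw]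
  simp only [h1]
  rw [Tr.iSup_lint volume hAm hAmono, ENNReal.mul_iSup]
  exact iSup_le fun s => (hfin s).trans (ENNReal.sum_le_tsum s)

end Pool.Agent.H45.LT.Gn
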