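import Mathlib
import Pool.Agent.H45.LT.Gn5

set_option autoImplicit false

/-!
# Stationary states without resonances
-/

open MeasureTheory Filter Topology Real Finset
open scoped ComplexConjugate ENNReal
open LTd (Kcl)

namespace Pool.Agent.H45.LT.Gn

open Ly (Sp)
open Tr (lkin)
open Tz (hs hs' hsp FamG)

variable {m : ℕ} {ι κ : Type}

theorem Sob.sum (s : Finset ι) {e : ι → (Fin m → ℝ) → ℂ} (h : ∀ i ∈ s, Sob (e i)) (c : ι → ℂ) :
    Sob (fun y => ∑ i ∈ s, c i * e i y) := by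
  have hcd : ContDiff ℝ 1 fun y => ∑ i ∈ s, c i * e i y :=
    ContDiff.sum fun i hi => contDiff_const.mul (h i hi).cd
  refine ⟨hcd, ?_, fun q => ?_⟩
  · refine (memLp_two_iff_integrable_sq_norm hcd.continuous.aestronglyMeasurable).1 ?_
    exact memLp_finsetSum s fun i hi => ((h i hi).mem.const_mul (c i))
  · have hd : ∀ y, fderiv ℝ (fun y => ∑ i ∈ s, c i * e i y) y (Pi.single q 1) =
        ∑ i ∈ s, c i * fderiv ℝ (e i) y (Pi.single q 1) := by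
      intro y
      have h1 : HasFDerivAt (fun y => ∑ i ∈ s, c i * e i y)
          (∑ i ∈ s, c i • fderiv ℝ (e i) y) y :=
        HasFDerivAt.fun_sum fun i hi =>
          (((h i hi).cd.differentiable (by norm_num) y).hasFDerivAt).const_mul _
      rw [h1.fderiv, _root_.sum_apply]
      simp only [_root_.smul_apply, smul_eq_mul]
    have hc : Continuous fun y => fderiv ℝ (fun y => ∑ i ∈ s, c i * e i y) y (Pi.single q 1) :=
      (hcd.continuous_fderiv (by norm_num)).clm_apply continuous_const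
    refine (memLp_two_iff_integrable_sq_norm hc.aestronglyMeasurable).1 ?_
    simp only [hd]
    refine memLp_finsetSum s fun i hi => MemLp.const_mul ?_ (c i)
    have hci : Continuous fun y => fderiv ℝ (e i) y (Pi.single q 1) :=
      ((h i hi).cd.continuous_fderiv (by norm_num)).clm_apply continuous_const
    exact (memLp_two_iff_integrable_sq_norm hci.aestronglyMeasurable).2 ((h i hi).dL2 q)

/-- finite sums of products -/
noncomputable def uf (α β : ℝ) (e : ι → (Fin m → ℝ) → ℂ) (c : ℕ × ℕ × ι →₀ ℂ) (p : Sp m) : ℂ :=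
  c.sum fun i z => z * ((hs α i.1 (p.1 0) * hs β i.2.1 (p.1 1) : ℝ) : ℂ) * e i.2.2 p.2

theorem uf_eq (α β : ℝ) (e : ι → (Fin m → ℝ) → ℂ) (c : ℕ × ℕ × ι →₀ ℂ) {a b : ℕ}
    (h : ∀ i ∈ c.support, i.1 = a ∧ i.2.1 = b) :
    uf α β e c = pf α β a b fun y => ∑ i ∈ c.support, c i * e i.2.2 y := by
  funext p
  unfold uf pf Finsupp.sum H
  rw [mul_sum]
  refine sum_congr rfl fun i hi => ?_
  dsimp only
  rw [(h i hi).1, (h i hi).2]
  ring

variable [DecidableEq ι] [DecidableEq κ]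

omit [DecidableEq ι] in
theorem single_pair {α β : ℝ} {g : ι → ℝ}
    (hg : ∀ (i j : ι) (k l : ℤ), α * k + β * l + (g i - g j) = 0 → k = 0 ∧ l = 0)
    (c : ℕ × ℕ × ι →₀ ℂ) (hE : ∃ E : ℝ, ∀ i ∈ c.support, α * i.1 + β * i.2.1 + g i.2.2 = E) :
    ∃ a b : ℕ, ∀ i ∈ c.support, i.1 = a ∧ i.2.1 = b := by
  obtain ⟨E, hE⟩ := hE
  rcases c.support.eq_empty_or_nonempty with h0 | ⟨j, hj⟩
  · exact ⟨0, 0, fun i hi => by rw [h0] at hi; simp at hi⟩
  · refine ⟨j.1, j.2.1, fun i hi => ?_⟩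
    have h1 := hg i.2.2 j.2.2 ((i.1 : ℤ) - j.1) ((i.2.1 : ℤ) - j.2.1) (by
      push_cast
      linarith [hE i hi, hE j hj])
    omega

/-- **The inequality** for the stationary states, if there are no resonances. -/
theorem nonres [Countable κ] {α β : ℝ} (hα : 0 < α) (hβ : 0 < β)
    {e : ι → (Fin m → ℝ) → ℂ} (F : FamG e) {g : ι → ℝ}
    (hg : ∀ (i j : ι) (k l : ℤ), α * k + β * l + (g i - g j) = 0 → k = 0 ∧ l = 0)
    (c : κ → (ℕ × ℕ × ι →₀ ℂ)) (ν : κ → ℝ)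
    (hE : ∀ n, ∃ E : ℝ, ∀ i ∈ (c n).support, α * i.1 + β * i.2.1 + g i.2.2 = E)
    (ho : ∀ n n', ∫ p, conj (uf α β e (c n) p) * uf α β e (c n') p =
      if n = n' then 1 else 0) (hν : ∀ n, 0 ≤ ν n ∧ ν n ≤ 1) :
    ENNReal.ofReal (Kcl (m + 2)) * ∫⁻ p,
      (∑' n, ENNReal.ofReal (ν n) * ‖uf α β e (c n) p‖ₑ ^ 2) ^ (1 + 2 / ((m + 2 : ℕ) : ℝ)) ≤
    ∑' n, ENNReal.ofReal (ν n) * lkin (uf α β e (c n)) := by
  have h1 : ∀ n, ∃ a b : ℕ, ∀ i ∈ (c n).support, i.1 = a ∧ i.2.1 = b := fun n =>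
    single_pair hg (c n) (hE n)
  choose a b hab using h1
  have h2 : ∀ n, uf α β e (c n) = pf α β (a n) (b n)
      fun y => ∑ i ∈ (c n).support, c n i * e i.2.2 y := fun n => uf_eq α β e (c n) (hab n)
  simp only [h2] at ho ⊢
  refine inf_main hα hβ a b _ (fun n => ?_) ν hν ho
  exact Sob.sum (c n).support (e := fun i : ℕ × ℕ × ι => e i.2.2)
    (fun i _ => ⟨F.cd _, F.L2 _, F.dL2 _⟩) (fun i => c n i)

/-- **The inequality** for oscillators without resonances. -/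
theorem osc [Countable κ] {α β : ℝ} (hα : 0 < α) (hβ : 0 < β) {w : Fin m → ℝ}
    (hw : ∀ q, 0 < w q)
    (hg : ∀ (k l : ℤ) (z : Fin m → ℤ), α * k + β * l + ∑ q, w q * z q = 0 → k = 0 ∧ l = 0)
    (c : κ → (ℕ × ℕ × (Fin m → ℕ) →₀ ℂ)) (ν : κ → ℝ)
    (hE : ∀ n, ∃ E : ℝ, ∀ i ∈ (c n).support,
      α * i.1 + β * i.2.1 + ∑ q, w q * i.2.2 q = E)
    (ho : ∀ n n', ∫ p, conj (uf α β (hsp w) (c n) p) * uf α β (hsp w) (c n') p =
      if n = n' then 1 else 0) (hν : ∀ n, 0 ≤ ν n ∧ ν n ≤ 1) :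
    ENNReal.ofReal (Kcl (m + 2)) * ∫⁻ p,
      (∑' n, ENNReal.ofReal (ν n) * ‖uf α β (hsp w) (c n) p‖ₑ ^ 2) ^
        (1 + 2 / ((m + 2 : ℕ) : ℝ)) ≤
    ∑' n, ENNReal.ofReal (ν n) * lkin (uf α β (hsp w) (c n)) := by
  refine nonres hα hβ (Tz.hsp_fam hw) (g := fun γ : Fin m → ℕ => ∑ q, w q * γ q)
    (fun γ δ k l h => hg k l (fun q => (γ q : ℤ) - δ q) ?_) c ν hE ho hν
  rw [← h]
  push_cast
  simp only [mul_sub, sum_sub_distrib]

end Pool.Agent.H45.LT.Gn
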