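import Mathlib

set_option autoImplicit false

/-!
# Almost all frequencies have no resonances
-/

open MeasureTheory Finset

namespace Pool.Agent.H45.LT.Gn

theorem ae_nonres (m : ℕ) : ∀ᵐ ω : Fin (m + 2) → ℝ, ∀ (k l : ℤ) (z : Fin m → ℤ),
    ω 0 * k + ω 1 * l + ∑ q : Fin m, ω q.succ.succ * z q = 0 → k = 0 ∧ l = 0 := by
  have h1 : ∀ n : Fin (m + 2) → ℤ, n ≠ 0 →
      ∀ᵐ ω : Fin (m + 2) → ℝ, ∑ q, (n q : ℝ) * ω q ≠ 0 := by
    intro n hn
    set f : (Fin (m + 2) → ℝ) →ₗ[ℝ] ℝ := ∑ q, (n q : ℝ) • LinearMap.proj q with hf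
    have hfa : ∀ ω, f ω = ∑ q, (n q : ℝ) * ω q := by
      intro ω
      rw [hf, LinearMap.sum_apply]
      simp
    have hk : LinearMap.ker f ≠ ⊤ := by
      intro h
      obtain ⟨i, hi⟩ := Function.ne_iff.1 hn
      have h2 : f (Pi.single i 1) = 0 := by
        rw [← LinearMap.mem_ker, h]; trivial
      rw [hfa] at h2
      simp only [Pi.single_apply, mul_ite, mul_one, mul_zero, sum_ite_eq', mem_univ, if_true] at h2
      exact hi (by exact_mod_cast h2)
    have h3 := Measure.addHaar_submodule (volume : Measure (Fin (m + 2) → ℝ)) (LinearMap.ker f) hk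
    rw [ae_iff]
    convert h3 using 2
    ext ω
    simp [hfa]
  have h2 : ∀ᵐ ω : Fin (m + 2) → ℝ, ∀ n : Fin (m + 2) → ℤ, n ≠ 0 → ∑ q, (n q : ℝ) * ω q ≠ 0 := by
    rw [ae_all_iff]
    intro n
    by_cases hn : n = 0
    · exact Filter.Eventually.of_forall fun ω h => absurd hn h
    · filter_upwards [h1 n hn] with ω hω _
      exact hω
  filter_upwards [h2] with ω hω k l z h
  by_contra hc
  refine hω (Fin.cons k (Fin.cons l z)) ?_ ?_
  · intro h0
    refine hc ⟨?_, ?_⟩
    · have := congrFun h0 0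
      simpa using this
    · have := congrFun h0 1
      simpa using this
  · rw [Fin.sum_univ_succ, Fin.sum_univ_succ]
    simp only [Fin.cons_zero, Fin.cons_succ]
    rw [← h]
    have e1 : (Fin.succ 0 : Fin (m + 2)) = 1 := rfl
    rw [e1, ← add_assoc]
    congr 1
    · ring
    · exact sum_congr rfl fun q _ => mul_comm _ _

end Pool.Agent.H45.LT.Gn
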