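import Mathlib
import Pool.Agent.H45.LT.LL6

set_option autoImplicit false

/-!
# The inequality for functions in the lowest Landau level
-/

open MeasureTheory Set Filter Topology Real
open scoped ComplexConjugate Matrix
open LTd (Kcl Mat PSD specP)

namespace Pool.Agent.H45.LT.LL

open Ly (Gr RI Sp slice2C fam_cs fd_cont fd_cs)

/-- a function of the lowest Landau level -/
noncomputable def sv (b : ℝ) (K : ℕ) (c : ℕ → ℂ) (x : Fin 2 → ℝ) : ℂ :=
  ∑ k ∈ Finset.range K, c k * ez b k x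

variable {m : ℕ}

/-- the functions on the product space -/
noncomputable def VV (b : ℝ) (K : ℕ) (g : ℕ → (Fin m → ℝ) → ℂ) (p : Sp m) : ℂ :=
  sv b K (fun a => g a p.2) p.1

theorem VV_cont (b : ℝ) (K : ℕ) {g : ℕ → (Fin m → ℝ) → ℂ} (hg : ∀ a, Continuous (g a)) :
    Continuous (VV b K g) := by
  unfold VV sv
  exact continuous_finsetSum _ fun a _ => ((hg a).comp continuous_snd).mul
    ((ez_cont b a).comp continuous_fst)

theorem VV_sq {b : ℝ} (hb : 0 < b) (K : ℕ) {g : ℕ → (Fin m → ℝ) → ℂ} (hg : ∀ a, Continuous (g a))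
    (hc : ∀ a, HasCompactSupport (g a)) : Integrable fun p : Sp m => ‖VV b K g p‖ ^ 2 :=
  (prodN hg hc (Finset.range K) (ez b) fun k l => ez_int hb l k).1

theorem VV_inner {b : ℝ} (hb : 0 < b) (K : ℕ) {g g' : ℕ → (Fin m → ℝ) → ℂ}
    (hg : ∀ a, Continuous (g a)) (hg' : ∀ a, Continuous (g' a))
    (hc : ∀ a, HasCompactSupport (g a)) :
    ∫ p, conj (VV b K g p) * VV b K g' p =
      ∑ a ∈ Finset.range K, ∫ y, conj (g a y) * g' a y := by
  have h := (prodC hg hg' hc (Finset.range K) (ez b) (ez b) fun k l => ez_int hb l k).2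
  refine h.trans ?_
  refine Finset.sum_congr rfl fun a ha => ?_
  simp only [ez_ortho hb, ite_mul, one_mul, zero_mul]
  rw [Finset.sum_ite_eq' , if_pos ha]

theorem VV_fderiv (b : ℝ) (K : ℕ) {g : ℕ → (Fin m → ℝ) → ℂ} (hg : ∀ a, ContDiff ℝ 1 (g a))
    (p : Sp m) :
    HasFDerivAt (VV b K g) (∑ a ∈ Finset.range K,
      (g a p.2 • ((fderiv ℝ (ez b a) p.1).comp
        (ContinuousLinearMap.fst ℝ (Fin 2 → ℝ) (Fin m → ℝ))) +
      (ez b a p.1) • ((fderiv ℝ (g a) p.2).comp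
        (ContinuousLinearMap.snd ℝ (Fin 2 → ℝ) (Fin m → ℝ))))) p := by
  unfold VV sv
  refine HasFDerivAt.fun_sum fun a _ => ?_
  have h1 : HasFDerivAt (fun p : Sp m => g a p.2) ((fderiv ℝ (g a) p.2).comp
      (ContinuousLinearMap.snd ℝ (Fin 2 → ℝ) (Fin m → ℝ))) p :=
    (((hg a).differentiable (by norm_num)) p.2).hasFDerivAt.comp p hasFDerivAt_snd
  have h2 : HasFDerivAt (fun p : Sp m => ez b a p.1) ((fderiv ℝ (ez b a) p.1).comp
        (ContinuousLinearMap.fst ℝ (Fin 2 → ℝ) (Fin m → ℝ))) p :=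
    (ez_diff b a p.1).hasFDerivAt.comp p hasFDerivAt_fst
  exact h1.mul h2

theorem VV_dx (b : ℝ) (K : ℕ) {g : ℕ → (Fin m → ℝ) → ℂ} (hg : ∀ a, ContDiff ℝ 1 (g a)) (p : Sp m)
    (q : Fin 2) : fderiv ℝ (VV b K g) p (Pi.single q 1, 0) =
      ∑ a ∈ Finset.range K, g a p.2 * dz b q a p.1 := by
  rw [(VV_fderiv b K hg p).fderiv, _root_.sum_apply]
  refine Finset.sum_congr rfl fun a _ => ?_
  simp only [_root_.add_apply, _root_.smul_apply, ContinuousLinearMap.comp_apply,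
    ContinuousLinearMap.coe_fst', ContinuousLinearMap.coe_snd', map_zero,
    ez_fd, smul_eq_mul, mul_zero, add_zero]

theorem VV_dy (b : ℝ) (K : ℕ) {g : ℕ → (Fin m → ℝ) → ℂ} (hg : ∀ a, ContDiff ℝ 1 (g a)) (p : Sp m)
    (q : Fin m) : fderiv ℝ (VV b K g) p (0, Pi.single q 1) =
      VV b K (fun a y => fderiv ℝ (g a) y (Pi.single q 1)) p := by
  rw [(VV_fderiv b K hg p).fderiv, _root_.sum_apply]
  unfold VV sv
  refine Finset.sum_congr rfl fun a _ => ?_
  simp only [_root_.add_apply, _root_.smul_apply, ContinuousLinearMap.comp_apply,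
    ContinuousLinearMap.coe_fst', ContinuousLinearMap.coe_snd', map_zero,
    smul_eq_mul, mul_zero, zero_add]
  ring

theorem self_int (f : (Fin m → ℝ) → ℂ) : ∫ y, conj (f y) * f y = ((∫ y, ‖f y‖ ^ 2 : ℝ) : ℂ) := by
  simp only [conj_self]
  rw [integral_complex_ofReal]

theorem VV_kx {b : ℝ} (hb : 0 < b) (K : ℕ) {g : ℕ → (Fin m → ℝ) → ℂ}
    (hg : ∀ a, ContDiff ℝ 1 (g a)) (hc : ∀ a, HasCompactSupport (g a)) :
    ∑ q : Fin 2, ∫ p, ‖fderiv ℝ (VV b K g) p (Pi.single q 1, 0)‖ ^ 2 =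
      b * ∑ a ∈ Finset.range K, ((a:ℝ) + 1) * ∫ y, ‖g a y‖ ^ 2 := by
  have hgc : ∀ a, Continuous (g a) := fun a => (hg a).continuous
  have h1 : ∀ q : Fin 2, ((∫ p, ‖fderiv ℝ (VV b K g) p (Pi.single q 1, 0)‖ ^ 2 : ℝ) : ℂ) =
      ∑ a ∈ Finset.range K, ∑ a' ∈ Finset.range K,
        (∫ x, dz b q a' x * conj (dz b q a x)) * ∫ y, conj (g a y) * g a' y := by
    intro q
    simp only [VV_dx b K hg]
    exact (prodN hgc hc (Finset.range K) (dz b q) fun k l => dz_int hb q l k).2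
  have h2 : ((∑ q : Fin 2, ∫ p, ‖fderiv ℝ (VV b K g) p (Pi.single q 1, 0)‖ ^ 2 : ℝ) : ℂ) =
      ((b * ∑ a ∈ Finset.range K, ((a:ℝ) + 1) * ∫ y, ‖g a y‖ ^ 2 : ℝ) : ℂ) := by
    rw [Fin.sum_univ_two, Complex.ofReal_add, h1, h1, ← Finset.sum_add_distrib,
      Complex.ofReal_mul, Complex.ofReal_sum, Finset.mul_sum]
    refine Finset.sum_congr rfl fun a ha => ?_
    rw [← Finset.sum_add_distrib]
    have h3 : ∀ a', (∫ x, dz b 0 a' x * conj (dz b 0 a x)) * (∫ y, conj (g a y) * g a' y) +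
        (∫ x, dz b 1 a' x * conj (dz b 1 a x)) * (∫ y, conj (g a y) * g a' y) =
        if a' = a then ((b * (a + 1) : ℝ) : ℂ) * (∫ y, conj (g a y) * g a y) else 0 := by
      intro a'
      rw [← add_mul, dz_kin hb]
      split_ifs with h
      · rw [h]
      · rw [zero_mul]
    simp only [h3]
    rw [Finset.sum_ite_eq', if_pos ha, self_int, ← Complex.ofReal_mul, ← Complex.ofReal_mul]
    congr 1
    ring
  exact Complex.ofReal_injective h2

/-- the hypotheses -/
structure SysL {m N : ℕ} (b : ℝ) (K : ℕ) (φ : Fin N → ℕ → (Fin m → ℝ) → ℂ) (ν : Fin N → ℝ) :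
    Prop where
  hb : 0 < b
  cd : ∀ n a, ContDiff ℝ 1 (φ n a)
  cs : ∀ n a, HasCompactSupport (φ n a)
  ortho : ∀ n n', ∑ a ∈ Finset.range K,
    ∫ y, conj (φ n a y) * φ n' a y = if n = n' then 1 else 0
  nu : ∀ n, 0 ≤ ν n ∧ ν n ≤ 1

variable {N K : ℕ} {b : ℝ} {φ : Fin N → ℕ → (Fin m → ℝ) → ℂ} {ν : Fin N → ℝ}

/-- the inner products of the transversal functions -/
noncomputable def II (φ : Fin N → ℕ → (Fin m → ℝ) → ℂ) (n : Fin N) (l : ℕ) (n' : Fin N)
    (l' : ℕ) : ℂ := ∫ y, conj (φ n l y) * φ n' l' y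

theorem sv_y_cont (b : ℝ) (K : ℕ) {g : ℕ → (Fin m → ℝ) → ℂ} (hg : ∀ a, Continuous (g a))
    (x : Fin 2 → ℝ) : Continuous fun y => sv b K (fun a => g a y) x := by
  unfold sv
  exact continuous_finsetSum _ fun a _ => (hg a).mul continuous_const

theorem sv_y_cs (b : ℝ) (K : ℕ) {g : ℕ → (Fin m → ℝ) → ℂ} (hc : ∀ a, HasCompactSupport (g a))
    (x : Fin 2 → ℝ) : HasCompactSupport fun y => sv b K (fun a => g a y) x := by
  refine fam_cs (Finset.range K) g hc _ fun y hy => ?_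
  unfold sv
  refine Finset.sum_eq_zero fun a ha => ?_
  dsimp only
  rw [hy a ha, zero_mul]

theorem sv_inner (H : SysL b K φ ν) (x : Fin 2 → ℝ) (n n' : Fin N) :
    ∫ y, conj (sv b K (fun a => φ n a y) x) * sv b K (fun a => φ n' a y) x =
      ∑ l ∈ Finset.range K, ∑ l' ∈ Finset.range K,
        conj (ez b l x) * ez b l' x * II φ n l n' l' := by
  have hcont : ∀ n a, Continuous (φ n a) := fun n a => (H.cd n a).continuous
  have h1 : ∀ y, conj (sv b K (fun a => φ n a y) x) * sv b K (fun a => φ n' a y) x =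
      ∑ l ∈ Finset.range K, ∑ l' ∈ Finset.range K,
        conj (ez b l x) * ez b l' x * (conj (φ n l y) * φ n' l' y) := by
    intro y
    unfold sv
    rw [map_sum, Finset.sum_mul_sum]
    refine Finset.sum_congr rfl fun a _ => Finset.sum_congr rfl fun b _ => ?_
    rw [map_mul]; ring
  simp only [h1]
  have hi : ∀ l l', Integrable fun y =>
      conj (ez b l x) * ez b l' x * (conj (φ n l y) * φ n' l' y) := fun l l' =>
    (yint (hcont n l) (hcont n' l') (H.cs n l)).const_mul _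
  rw [integral_finsetSum _ fun a _ => integrable_finsetSum _ fun b _ => hi a b]
  refine Finset.sum_congr rfl fun l _ => ?_
  rw [integral_finsetSum _ fun b _ => hi l b]
  refine Finset.sum_congr rfl fun l' _ => ?_
  rw [integral_const_mul]
  rfl

/-- the square of the operators on the slices -/
noncomputable def R2 (b : ℝ) (K : ℕ) (φ : Fin N → ℕ → (Fin m → ℝ) → ℂ) (ν : Fin N → ℝ)
    (x : Fin 2 → ℝ) : ℝ :=
  ∑ n, ∑ n', ν n * ν n' *
    ‖∫ y, conj (sv b K (fun a => φ n a y) x) * sv b K (fun a => φ n' a y) x‖ ^ 2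

/-- the slices of the weighted functions -/
noncomputable def sl (b : ℝ) (K : ℕ) (φ : Fin N → ℕ → (Fin m → ℝ) → ℂ) (ν : Fin N → ℝ)
    (x : Fin 2 → ℝ) (n : Fin N) (y : Fin m → ℝ) : ℂ :=
  (√(ν n) : ℂ) * sv b K (fun a => φ n a y) x

theorem sl_norm (H : SysL b K φ ν) (x : Fin 2 → ℝ) (n : Fin N) (y : Fin m → ℝ) :
    ‖sl b K φ ν x n y‖ ^ 2 = ν n * ‖sv b K (fun a => φ n a y) x‖ ^ 2 := by
  rw [sl, norm_mul, mul_pow, Complex.norm_real, Real.norm_eq_abs, sq_abs,
    Real.sq_sqrt (H.nu n).1]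

theorem sv_y_fderiv (b : ℝ) (K : ℕ) {g : ℕ → (Fin m → ℝ) → ℂ} (hg : ∀ a, ContDiff ℝ 1 (g a))
    (x : Fin 2 → ℝ) (y : Fin m → ℝ) :
    HasFDerivAt (fun y => sv b K (fun a => g a y) x)
      (∑ a ∈ Finset.range K, (ez b a x) • fderiv ℝ (g a) y) y := by
  unfold sv
  refine HasFDerivAt.fun_sum fun a _ => ?_
  have h1 := (((hg a).differentiable (by norm_num)) y).hasFDerivAt
  exact h1.mul_const (ez b a x)

theorem sl_fderiv (H : SysL b K φ ν) (x : Fin 2 → ℝ) (n : Fin N) (y : Fin m → ℝ) (q : Fin m) :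
    fderiv ℝ (sl b K φ ν x n) y (Pi.single q 1) = (√(ν n) : ℂ) *
      sv b K (fun a => fderiv ℝ (φ n a) y (Pi.single q 1)) x := by
  have h1 := (sv_y_fderiv b K (H.cd n) x y).const_mul (√(ν n) : ℂ)
  have h2 : fderiv ℝ (sl b K φ ν x n) y = _ := h1.fderiv
  rw [h2, _root_.smul_apply, _root_.sum_apply, smul_eq_mul]
  congr 1
  unfold sv
  refine Finset.sum_congr rfl fun a _ => ?_
  rw [_root_.smul_apply, smul_eq_mul, mul_comm]

theorem sl_cd (H : SysL b K φ ν) (x : Fin 2 → ℝ) (n : Fin N) :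
    ContDiff ℝ 1 (sl b K φ ν x n) := by
  unfold sl sv
  exact contDiff_const.mul (ContDiff.sum fun a _ => (H.cd n a).mul contDiff_const)

theorem sl_cs (H : SysL b K φ ν) (x : Fin 2 → ℝ) (n : Fin N) :
    HasCompactSupport (sl b K φ ν x n) :=
  (sv_y_cs b K (H.cs n) x).mul_left

/-- **The inequality on the slices.** -/
theorem SysL.slice (H : SysL b K φ ν) (x : Fin 2 → ℝ) :
    Kcl (m + 2) * ∫ y, (∑ n, ν n * ‖sv b K (fun a => φ n a y) x‖ ^ 2) ^
        (1 + 2 / ((m + 2 : ℕ) : ℝ)) ≤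
      (∑ n, ν n * ∑ q, ∫ y, ‖sv b K (fun a => fderiv ℝ (φ n a) y (Pi.single q 1)) x‖ ^ 2) +
      2 * π * R2 b K φ ν x := by
  have h := slice2C (sl_cd H x) (sl_cs H x)
  have hG := gramC (v := sl b K φ ν x) (fun n => (sl_cd H x n).continuous) (sl_cs H x)
  simp only [sl_norm H] at h
  have e1 : ∑ n, ∑ q, ∫ y, ‖fderiv ℝ (sl b K φ ν x n) y (Pi.single q 1)‖ ^ 2 =
      ∑ n, ν n * ∑ q, ∫ y, ‖sv b K (fun a => fderiv ℝ (φ n a) y (Pi.single q 1)) x‖ ^ 2 := by
    refine Finset.sum_congr rfl fun n _ => ?_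
    rw [Finset.mul_sum]
    refine Finset.sum_congr rfl fun q _ => ?_
    rw [← integral_const_mul]
    refine integral_congr_ae (Eventually.of_forall fun y => ?_)
    dsimp only
    rw [sl_fderiv H, norm_mul, mul_pow, Complex.norm_real, Real.norm_eq_abs, sq_abs,
      Real.sq_sqrt (H.nu n).1]
  rw [e1] at h
  have e2 : ∑ n, ∑ n', ‖∫ y, conj (sl b K φ ν x n y) * sl b K φ ν x n' y‖ ^ 2 =
      R2 b K φ ν x := by
    unfold R2
    refine Finset.sum_congr rfl fun n _ => Finset.sum_congr rfl fun n' _ => ?_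
    have e3 : ∫ y, conj (sl b K φ ν x n y) * sl b K φ ν x n' y =
        ((√(ν n) * √(ν n') : ℝ) : ℂ) *
        ∫ y, conj (sv b K (fun a => φ n a y) x) * sv b K (fun a => φ n' a y) x := by
      rw [← integral_const_mul]
      refine integral_congr_ae (Eventually.of_forall fun y => ?_)
      simp only [sl]
      rw [map_mul, Complex.conj_ofReal]
      push_cast
      ring
    rw [e3, norm_mul, mul_pow, Complex.norm_real, Real.norm_eq_abs, sq_abs, mul_pow,
      Real.sq_sqrt (H.nu n).1, Real.sq_sqrt (H.nu n').1]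
  rw [e2] at hG
  have h3 := mul_le_mul_of_nonneg_left hG (show (0:ℝ) ≤ 2 * π by positivity)
  linarith

theorem R2_eq (H : SysL b K φ ν) (x : Fin 2 → ℝ) : (R2 b K φ ν x : ℂ) =
    ∑ l ∈ Finset.range K, ∑ k ∈ Finset.range K, ∑ l' ∈ Finset.range K, ∑ k' ∈ Finset.range K,
      (conj (ez b l x) * ez b l' x * (ez b k x * conj (ez b k' x))) *
      ∑ n, ∑ n', ((ν n * ν n' : ℝ) : ℂ) * (II φ n l n' l' * conj (II φ n k n' k')) := by
  have h1 : ∀ n n', ((‖∫ y, conj (sv b K (fun a => φ n a y) x) *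
      sv b K (fun a => φ n' a y) x‖ ^ 2 : ℝ) : ℂ) =
      ∑ l ∈ Finset.range K, ∑ k ∈ Finset.range K, ∑ l' ∈ Finset.range K, ∑ k' ∈ Finset.range K,
      (conj (ez b l x) * ez b l' x * (ez b k x * conj (ez b k' x))) *
      (II φ n l n' l' * conj (II φ n k n' k')) := by
    intro n n'
    rw [sv_inner H, ← conj_self, mul_comm, map_sum, Finset.sum_mul_sum]
    refine Finset.sum_congr rfl fun l _ => Finset.sum_congr rfl fun k _ => ?_
    rw [map_sum, Finset.sum_mul_sum]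
    refine Finset.sum_congr rfl fun l' _ => Finset.sum_congr rfl fun k' _ => ?_
    rw [map_mul, map_mul, Complex.conj_conj]
    ring
  unfold R2
  push_cast
  have h2 : ∀ n n', (ν n : ℂ) * (ν n' : ℂ) * ((‖∫ y, conj (sv b K (fun a => φ n a y) x) *
      sv b K (fun a => φ n' a y) x‖ : ℝ) : ℂ) ^ 2 =
      ∑ l ∈ Finset.range K, ∑ k ∈ Finset.range K, ∑ l' ∈ Finset.range K, ∑ k' ∈ Finset.range K,
      (conj (ez b l x) * ez b l' x * (ez b k x * conj (ez b k' x))) *
      ((ν n : ℂ) * (ν n' : ℂ) * (II φ n l n' l' * conj (II φ n k n' k'))) := by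
    intro n n'
    have h3 := h1 n n'
    push_cast at h3
    rw [h3, Finset.mul_sum]
    refine Finset.sum_congr rfl fun l _ => ?_
    rw [Finset.mul_sum]
    refine Finset.sum_congr rfl fun k _ => ?_
    rw [Finset.mul_sum]
    refine Finset.sum_congr rfl fun l' _ => ?_
    rw [Finset.mul_sum]
    refine Finset.sum_congr rfl fun k' _ => ?_
    ring
  simp only [h2]
  have hsw : ∀ F : Fin N → Fin N → ℕ → ℕ → ℕ → ℕ → ℂ,
      ∑ n, ∑ n', ∑ l ∈ Finset.range K, ∑ k ∈ Finset.range K, ∑ l' ∈ Finset.range K,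
        ∑ k' ∈ Finset.range K, F n n' l k l' k' =
      ∑ l ∈ Finset.range K, ∑ k ∈ Finset.range K, ∑ l' ∈ Finset.range K,
        ∑ k' ∈ Finset.range K, ∑ n, ∑ n', F n n' l k l' k' := by
    intro F
    have s1 : ∀ G : Fin N → Fin N → ℕ → ℂ, ∑ n, ∑ n', ∑ l ∈ Finset.range K, G n n' l =
        ∑ l ∈ Finset.range K, ∑ n, ∑ n', G n n' l := by
      intro G
      rw [Finset.sum_congr rfl fun n _ => Finset.sum_comm, Finset.sum_comm]
    rw [s1]
    refine Finset.sum_congr rfl fun l _ => ?_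
    rw [s1]
    refine Finset.sum_congr rfl fun k _ => ?_
    rw [s1]
    refine Finset.sum_congr rfl fun l' _ => ?_
    rw [s1]
  rw [hsw]
  refine Finset.sum_congr rfl fun l _ => Finset.sum_congr rfl fun k _ =>
    Finset.sum_congr rfl fun l' _ => Finset.sum_congr rfl fun k' _ => ?_
  rw [Finset.mul_sum]
  refine Finset.sum_congr rfl fun n _ => ?_
  rw [Finset.mul_sum]

theorem inner_toLp {f g : (Fin m → ℝ) → ℂ} (hf : MemLp f 2 (volume : Measure (Fin m → ℝ)))
    (hg : MemLp g 2 (volume : Measure (Fin m → ℝ))) :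
    (inner ℂ (hf.toLp f) (hg.toLp g) : ℂ) = ∫ y, conj (f y) * g y := by
  rw [MeasureTheory.L2.inner_def]
  refine integral_congr_ae ?_
  filter_upwards [hf.coeFn_toLp, hg.coeFn_toLp] with y h1 h2
  rw [h1, h2, RCLike.inner_apply]
  ring

theorem R2_int (H : SysL b K φ ν) : Integrable (R2 b K φ ν) ∧
    2 * π * ∫ x, R2 b K φ ν x ≤
      b * ∑ k ∈ Finset.range K, ((k:ℝ) + 1) * ∑ n, ν n * ∫ y, ‖φ n k y‖ ^ 2 := by
  have hcont : ∀ n a, Continuous (φ n a) := fun n a => (H.cd n a).continuous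
  have hb := H.hb
  have hi : ∀ (l k l' k' : ℕ) (c : ℂ), Integrable fun x =>
      (conj (ez b l x) * ez b l' x * (ez b k x * conj (ez b k' x))) * c :=
    fun l k l' k' c => (ez_four hb l k l' k').1.mul_const c
  set Z : ℕ → ℕ → ℕ → ℕ → ℂ := fun l k l' k' =>
    ∑ n, ∑ n', ((ν n * ν n' : ℝ) : ℂ) * (II φ n l n' l' * conj (II φ n k n' k')) with hZ
  have hI : Integrable fun x => (R2 b K φ ν x : ℂ) := by
    simp only [R2_eq H]
    exact integrable_finsetSum _ fun l _ => integrable_finsetSum _ fun k _ =>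
      integrable_finsetSum _ fun l' _ => integrable_finsetSum _ fun k' _ => hi l k l' k' _
  have hI' : Integrable (R2 b K φ ν) :=
    hI.re.congr (Filter.Eventually.of_forall fun p => Complex.ofReal_re _)
  refine ⟨hI', ?_⟩
  have h1 : ((∫ x, R2 b K φ ν x : ℝ) : ℂ) =
      ∑ l ∈ Finset.range K, ∑ k ∈ Finset.range K, ∑ l' ∈ Finset.range K, ∑ k' ∈ Finset.range K,
      (if l + k' = l' + k then ((b / (2 * π) * W l k l' k' : ℝ) : ℂ) else 0) * Z l k l' k' := by
    rw [← integral_complex_ofReal]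
    simp only [R2_eq H]
    rw [integral_finsetSum _ fun l _ => integrable_finsetSum _ fun k _ =>
      integrable_finsetSum _ fun l' _ => integrable_finsetSum _ fun k' _ => hi l k l' k' _]
    refine Finset.sum_congr rfl fun l _ => ?_
    rw [integral_finsetSum _ fun k _ =>
      integrable_finsetSum _ fun l' _ => integrable_finsetSum _ fun k' _ => hi l k l' k' _]
    refine Finset.sum_congr rfl fun k _ => ?_
    rw [integral_finsetSum _ fun l' _ => integrable_finsetSum _ fun k' _ => hi l k l' k' _]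
    refine Finset.sum_congr rfl fun l' _ => ?_
    rw [integral_finsetSum _ fun k' _ => hi l k l' k' _]
    refine Finset.sum_congr rfl fun k' _ => ?_
    rw [integral_mul_const, (ez_four hb l k l' k').2]
  have h2 : 2 * π * ∫ x, R2 b K φ ν x = b *
      ∑ l ∈ Finset.range K, ∑ k ∈ Finset.range K, ∑ l' ∈ Finset.range K, ∑ k' ∈ Finset.range K,
      (if l + k' = l' + k then W l k l' k' * (Z l k l' k').re else 0) := by
    have h3 := congrArg Complex.re h1
    rw [Complex.ofReal_re] at h3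
    rw [h3]
    simp only [Complex.re_sum, Finset.mul_sum]
    refine Finset.sum_congr rfl fun l _ => Finset.sum_congr rfl fun k _ =>
      Finset.sum_congr rfl fun l' _ => Finset.sum_congr rfl fun k' _ => ?_
    have hpi := Real.pi_pos
    split_ifs
    · rw [Complex.re_ofReal_mul]
      field_simp
    · simp
  rw [h2]
  refine mul_le_mul_of_nonneg_left ?_ hb.le
  have hm : ∀ n k, MemLp (φ n k) 2 (volume : Measure (Fin m → ℝ)) := fun n k =>
    (hcont n k).memLp_of_hasCompactSupport (H.cs n k)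
  have hin : ∀ n k n' k', (inner ℂ ((hm n k).toLp (φ n k)) ((hm n' k').toLp (φ n' k')) : ℂ) =
      II φ n k n' k' := fun n k n' k' => inner_toLp (hm n k) (hm n' k')
  have hnn : ∀ n k, ‖(hm n k).toLp (φ n k)‖ ^ 2 = ∫ y, ‖φ n k y‖ ^ 2 := by
    intro n k
    have h3 := inner_self_eq_norm_sq_to_K (𝕜 := ℂ) ((hm n k).toLp (φ n k))
    rw [hin, II, self_int] at h3
    have h4 : ((∫ y, ‖φ n k y‖ ^ 2 : ℝ) : ℂ) = ((‖(hm n k).toLp (φ n k)‖ ^ 2 : ℝ) : ℂ) := by
      rw [h3]; push_cast; rfl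
    exact (Complex.ofReal_injective h4).symm
  have h := hilbert_ineq (K := K) (fun n k => (hm n k).toLp (φ n k)) H.nu (by
    intro n n'
    rw [← H.ortho n n']
    exact Finset.sum_congr rfl fun k _ => hin n k n' k)
  simp only [hin, hnn] at h
  exact h

/-- **The kinetic inequality** for density matrices on functions of the lowest Landau level in two
of the variables. -/
theorem SysL.main (H : SysL b K φ ν) :
    Integrable (fun p : Sp m => (∑ n, ν n * ‖VV b K (φ n) p‖ ^ 2) ^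
      (1 + 2 / ((m + 2 : ℕ) : ℝ))) ∧
    Kcl (m + 2) * ∫ p : Sp m, (∑ n, ν n * ‖VV b K (φ n) p‖ ^ 2) ^
        (1 + 2 / ((m + 2 : ℕ) : ℝ)) ≤
      ∑ n, ν n * ((∑ q : Fin 2, ∫ p, ‖fderiv ℝ (VV b K (φ n)) p (Pi.single q 1, 0)‖ ^ 2) +
        ∑ q : Fin m, ∫ p, ‖fderiv ℝ (VV b K (φ n)) p (0, Pi.single q 1)‖ ^ 2) := by
  have hK : 0 < Kcl (m + 2) := Pool.Agent.N674.LT.Kcl_pos (by omega)
  have hb := H.hb
  set pw : ℝ := 1 + 2 / ((m + 2 : ℕ) : ℝ) with hpw
  have hpw0 : 0 < pw := by rw [hpw]; positivity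
  set F : Sp m → ℝ := fun p => (∑ n, ν n * ‖VV b K (φ n) p‖ ^ 2) ^ pw with hF
  have hcont : ∀ n a, Continuous (φ n a) := fun n a => (H.cd n a).continuous
  have hnn : ∀ p : Sp m, 0 ≤ ∑ n, ν n * ‖VV b K (φ n) p‖ ^ 2 := fun p =>
    Finset.sum_nonneg fun n _ => mul_nonneg (H.nu n).1 (sq_nonneg _)
  have hF0 : ∀ p, 0 ≤ F p := fun p => Real.rpow_nonneg (hnn p) _
  have hFc : Continuous F := by
    refine Continuous.rpow_const ?_ fun p => Or.inr hpw0.le
    exact continuous_finsetSum _ fun n _ =>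
      continuous_const.mul ((VV_cont b K (hcont n)).norm.pow 2)
  -- the right hand side on the slices
  have hdc : ∀ n a (q : Fin m), Continuous fun y => fderiv ℝ (φ n a) y (Pi.single q 1) :=
    fun n a q => fd_cont (H.cd n a) q
  have hds : ∀ n a (q : Fin m), HasCompactSupport fun y => fderiv ℝ (φ n a) y (Pi.single q 1) :=
    fun n a q => fd_cs (H.cs n a) q
  have hyint : ∀ n (q : Fin m), Integrable fun p : Sp m =>
      ‖VV b K (fun a y => fderiv ℝ (φ n a) y (Pi.single q 1)) p‖ ^ 2 := fun n q =>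
    VV_sq hb K (fun a => hdc n a q) (fun a => hds n a q)
  set R1 : (Fin 2 → ℝ) → ℝ := fun x => ∑ n, ν n * ∑ q, ∫ y,
    ‖sv b K (fun a => fderiv ℝ (φ n a) y (Pi.single q 1)) x‖ ^ 2 with hR1
  have i1' : ∀ n (q : Fin m), Integrable fun x => ∫ y,
      ‖sv b K (fun a => fderiv ℝ (φ n a) y (Pi.single q 1)) x‖ ^ 2 := fun n q =>
    (hyint n q).integral_prod_left
  have i1 : Integrable R1 := integrable_finsetSum _ fun n _ =>
    (integrable_finsetSum _ fun q _ => i1' n q).const_mul _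
  obtain ⟨i2, hR2⟩ := R2_int H
  have i3 : Integrable fun x => R1 x + 2 * π * R2 b K φ ν x := i1.add (i2.const_mul _)
  have hsl : ∀ x, Kcl (m + 2) * ∫ y, F (x, y) ≤ R1 x + 2 * π * R2 b K φ ν x := fun x => H.slice x
  have hsc : ∀ x, HasCompactSupport fun y => F (x, y) := by
    intro x
    refine HasCompactSupport.intro (K := ⋃ n, tsupport fun y => sv b K (fun a => φ n a y) x)
      (isCompact_iUnion fun n => sv_y_cs b K (H.cs n) x) fun y hy => ?_
    have h1 : ∀ n, sv b K (fun a => φ n a y) x = 0 := fun n =>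
      image_eq_zero_of_notMem_tsupport (f := fun y => sv b K (fun a => φ n a y) x)
        fun h => hy (mem_iUnion.2 ⟨n, h⟩)
    show (∑ n, ν n * ‖VV b K (φ n) (x, y)‖ ^ 2) ^ pw = 0
    rw [Finset.sum_eq_zero fun n _ => ?_, Real.zero_rpow hpw0.ne']
    unfold VV
    rw [h1 n]; simp
  have hFy : ∀ x, Integrable fun y => F (x, y) := fun x =>
    (hFc.comp (Continuous.prodMk_right x)).integrable_of_hasCompactSupport (hsc x)
  have hFi : Integrable F := by
    have hm : AEStronglyMeasurable F ((volume : Measure (Fin 2 → ℝ)).prod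
      (volume : Measure (Fin m → ℝ))) := hFc.aestronglyMeasurable
    refine (integrable_prod_iff hm).2 ⟨Eventually.of_forall hFy, ?_⟩
    have e1 : (fun x => ∫ y, ‖F (x, y)‖) = fun x => ∫ y, F (x, y) := by
      funext x
      refine integral_congr_ae (Eventually.of_forall fun y => ?_)
      exact Real.norm_of_nonneg (hF0 _)
    rw [e1]
    refine (i3.const_mul (Kcl (m + 2))⁻¹).mono' hm.integral_prod_right' ?_
    refine Eventually.of_forall fun x => ?_
    have h0 : 0 ≤ ∫ y, F (x, y) := integral_nonneg fun y => hF0 _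
    rw [Real.norm_of_nonneg h0, ← div_eq_inv_mul, le_div_iff₀ hK, mul_comm]
    exact hsl x
  refine ⟨hFi, ?_⟩
  have h1 : ∫ p, F p = ∫ x, ∫ y, F (x, y) := integral_prod F hFi
  rw [h1, ← integral_const_mul]
  have h2 : ∫ x, Kcl (m + 2) * ∫ y, F (x, y) ≤ ∫ x, (R1 x + 2 * π * R2 b K φ ν x) := by
    refine integral_mono ?_ i3 hsl
    exact (hFi.integral_prod_left).const_mul _
  refine h2.trans ?_
  rw [integral_add i1 (i2.const_mul _), integral_const_mul]
  have e1 : ∫ x, R1 x = ∑ n, ν n *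
      ∑ q : Fin m, ∫ p, ‖fderiv ℝ (VV b K (φ n)) p (0, Pi.single q 1)‖ ^ 2 := by
    rw [hR1, integral_finsetSum _ fun n _ =>
      (integrable_finsetSum _ fun q _ => i1' n q).const_mul _]
    refine Finset.sum_congr rfl fun n _ => ?_
    rw [integral_const_mul, integral_finsetSum _ fun q _ => i1' n q]
    congr 1
    refine Finset.sum_congr rfl fun q _ => ?_
    simp only [VV_dy b K (H.cd n)]
    exact (integral_prod _ (hyint n q)).symm
  have e2 : b * ∑ k ∈ Finset.range K, ((k:ℝ) + 1) * ∑ n, ν n * ∫ y, ‖φ n k y‖ ^ 2 = ∑ n, ν n *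
      ∑ q : Fin 2, ∫ p, ‖fderiv ℝ (VV b K (φ n)) p (Pi.single q 1, 0)‖ ^ 2 := by
    have e3 : ∀ n, ∑ q : Fin 2, ∫ p, ‖fderiv ℝ (VV b K (φ n)) p (Pi.single q 1, 0)‖ ^ 2 = _ :=
      fun n => VV_kx hb K (H.cd n) (H.cs n)
    simp only [e3, Finset.mul_sum]
    rw [Finset.sum_comm]
    exact Finset.sum_congr rfl fun n _ => Finset.sum_congr rfl fun k _ => by ring
  rw [e2] at hR2
  rw [e1]
  refine (add_le_add_right hR2 _).trans (le_of_eq ?_)
  rw [← Finset.sum_add_distrib]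
  refine Finset.sum_congr rfl fun n _ => by ring

end Pool.Agent.H45.LT.LL
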