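import Mathlib
import Pool.Agent.H45.LT.Osc7

set_option autoImplicit false

/-!
# The ladder operators for the coefficients
-/

open scoped ComplexConjugate

namespace Pool.Agent.H45.LT.Mg

/-- the finite sums of products of Hermite functions, by their coefficients -/
abbrev V : Type := (ℕ × ℕ) →₀ ℂ

/-- a real number as a complex number -/
noncomputable def sq (r : ℝ) : ℂ := ((√r : ℝ) : ℂ)

theorem sq_mul {r : ℝ} (hr : 0 ≤ r) : sq r * sq r = (r : ℂ) := by
  unfold sq
  rw [← Complex.ofReal_mul, Real.mul_self_sqrt hr]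

theorem sq_zero : sq 0 = 0 := by simp [sq]

theorem sq_ne {r : ℝ} (hr : 0 < r) : sq r ≠ 0 := by
  unfold sq
  exact_mod_cast (Real.sqrt_pos.2 hr).ne'

noncomputable def up0 : V →ₗ[ℂ] V := Finsupp.linearCombination ℂ fun i : ℕ × ℕ =>
  Finsupp.single (i.1 + 1, i.2) (sq ((i.1:ℝ) + 1))

noncomputable def dn0 : V →ₗ[ℂ] V := Finsupp.linearCombination ℂ fun i : ℕ × ℕ =>
  Finsupp.single (i.1 - 1, i.2) (sq (i.1:ℝ))

noncomputable def up1 : V →ₗ[ℂ] V := Finsupp.linearCombination ℂ fun i : ℕ × ℕ =>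
  Finsupp.single (i.1, i.2 + 1) (sq ((i.2:ℝ) + 1))

noncomputable def dn1 : V →ₗ[ℂ] V := Finsupp.linearCombination ℂ fun i : ℕ × ℕ =>
  Finsupp.single (i.1, i.2 - 1) (sq (i.2:ℝ))

theorem up0_s (i : ℕ × ℕ) (z : ℂ) :
    up0 (Finsupp.single i z) = Finsupp.single (i.1 + 1, i.2) (z * sq ((i.1:ℝ) + 1)) := by
  rw [up0, Finsupp.linearCombination_single, Finsupp.smul_single, smul_eq_mul]

theorem dn0_s (i : ℕ × ℕ) (z : ℂ) :
    dn0 (Finsupp.single i z) = Finsupp.single (i.1 - 1, i.2) (z * sq (i.1:ℝ)) := by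
  rw [dn0, Finsupp.linearCombination_single, Finsupp.smul_single, smul_eq_mul]

theorem up1_s (i : ℕ × ℕ) (z : ℂ) :
    up1 (Finsupp.single i z) = Finsupp.single (i.1, i.2 + 1) (z * sq ((i.2:ℝ) + 1)) := by
  rw [up1, Finsupp.linearCombination_single, Finsupp.smul_single, smul_eq_mul]

theorem dn1_s (i : ℕ × ℕ) (z : ℂ) :
    dn1 (Finsupp.single i z) = Finsupp.single (i.1, i.2 - 1) (z * sq (i.2:ℝ)) := by
  rw [dn1, Finsupp.linearCombination_single, Finsupp.smul_single, smul_eq_mul]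

/-- equality of linear maps on the basis -/
theorem ext_s {W : Type*} [AddCommMonoid W] [Module ℂ W] {f g : V →ₗ[ℂ] W}
    (h : ∀ i z, f (Finsupp.single i z) = g (Finsupp.single i z)) (c : V) : f c = g c := by
  have : f = g := Finsupp.lhom_ext h
  rw [this]

theorem c_00 (c : V) : dn0 (up0 c) = up0 (dn0 c) + c := by
  refine ext_s (f := dn0.comp up0) (g := up0.comp dn0 + LinearMap.id) ?_ c
  intro i z
  simp only [LinearMap.comp_apply, LinearMap.add_apply, LinearMap.id_apply, up0_s, dn0_s]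
  obtain ⟨a, b⟩ := i
  dsimp only
  rw [Nat.add_sub_cancel]
  rcases a with _ | a
  · simp only [Nat.cast_zero, sq_zero, mul_zero, zero_mul, Finsupp.single_zero, zero_add,
      Nat.cast_one]
    have h : sq 1 * sq 1 = ((1:ℝ) : ℂ) := sq_mul (by norm_num)
    rw [mul_assoc, h]; simp
  · rw [Nat.add_sub_cancel, ← Finsupp.single_add]
    congr 1
    push_cast
    have h1 : sq ((a:ℝ) + 1 + 1) * sq ((a:ℝ) + 1 + 1) = (((a:ℝ) + 1 + 1 : ℝ) : ℂ) :=
      sq_mul (by positivity)
    have h2 : sq ((a:ℝ) + 1) * sq ((a:ℝ) + 1) = (((a:ℝ) + 1 : ℝ) : ℂ) := sq_mul (by positivity)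
    push_cast at h1 h2
    linear_combination z * h1 - z * h2

theorem c_11 (c : V) : dn1 (up1 c) = up1 (dn1 c) + c := by
  refine ext_s (f := dn1.comp up1) (g := up1.comp dn1 + LinearMap.id) ?_ c
  intro i z
  simp only [LinearMap.comp_apply, LinearMap.add_apply, LinearMap.id_apply, up1_s, dn1_s]
  obtain ⟨b, a⟩ := i
  dsimp only
  rw [Nat.add_sub_cancel]
  rcases a with _ | a
  · simp only [Nat.cast_zero, sq_zero, mul_zero, zero_mul, Finsupp.single_zero, zero_add,
      Nat.cast_one]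
    have h : sq 1 * sq 1 = ((1:ℝ) : ℂ) := sq_mul (by norm_num)
    rw [mul_assoc, h]; simp
  · rw [Nat.add_sub_cancel, ← Finsupp.single_add]
    congr 1
    push_cast
    have h1 : sq ((a:ℝ) + 1 + 1) * sq ((a:ℝ) + 1 + 1) = (((a:ℝ) + 1 + 1 : ℝ) : ℂ) :=
      sq_mul (by positivity)
    have h2 : sq ((a:ℝ) + 1) * sq ((a:ℝ) + 1) = (((a:ℝ) + 1 : ℝ) : ℂ) := sq_mul (by positivity)
    push_cast at h1 h2
    linear_combination z * h1 - z * h2

theorem c_d0u1 (c : V) : dn0 (up1 c) = up1 (dn0 c) := by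
  refine ext_s (f := dn0.comp up1) (g := up1.comp dn0) ?_ c
  intro i z
  simp only [LinearMap.comp_apply, up1_s, dn0_s]
  congr 1; ring

theorem c_d1u0 (c : V) : dn1 (up0 c) = up0 (dn1 c) := by
  refine ext_s (f := dn1.comp up0) (g := up0.comp dn1) ?_ c
  intro i z
  simp only [LinearMap.comp_apply, up0_s, dn1_s]
  congr 1; ring

/-! ### The circular operators -/

/-- `1 / √2` -/
noncomputable def r2 : ℂ := ((1 / √2 : ℝ) : ℂ)

theorem r2_sq : r2 * r2 = 1 / 2 := by
  unfold r2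
  rw [← Complex.ofReal_mul]
  have h : (1 / √2 * (1 / √2) : ℝ) = 1 / 2 := by
    rw [div_mul_div_comm, Osc.sqrt2, one_mul]
  rw [h]; norm_num

noncomputable def Ap : V →ₗ[ℂ] V := r2 • (up0 + Complex.I • up1)
noncomputable def Am : V →ₗ[ℂ] V := r2 • (up0 - Complex.I • up1)
noncomputable def Bp : V →ₗ[ℂ] V := r2 • (dn0 - Complex.I • dn1)
noncomputable def Bm : V →ₗ[ℂ] V := r2 • (dn0 + Complex.I • dn1)

theorem Ap_a (c : V) : Ap c = r2 • (up0 c + Complex.I • up1 c) := rfl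
theorem Am_a (c : V) : Am c = r2 • (up0 c - Complex.I • up1 c) := rfl
theorem Bp_a (c : V) : Bp c = r2 • (dn0 c - Complex.I • dn1 c) := rfl
theorem Bm_a (c : V) : Bm c = r2 • (dn0 c + Complex.I • dn1 c) := rfl

theorem Bp_Am (c : V) : Bp (Am c) = Am (Bp c) := by
  simp only [Bp_a, Am_a, map_smul, map_sub, map_add, c_00, c_11, c_d0u1, c_d1u0]
  have h := Complex.I_mul_I
  ext i
  simp only [Finsupp.smul_apply, Finsupp.sub_apply, Finsupp.add_apply, smul_eq_mul]
  linear_combination (r2 * r2 * c i) * h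

theorem Bm_Ap (c : V) : Bm (Ap c) = Ap (Bm c) := by
  simp only [Bm_a, Ap_a, map_smul, map_sub, map_add, c_00, c_11, c_d0u1, c_d1u0]
  have h := Complex.I_mul_I
  ext i
  simp only [Finsupp.smul_apply, Finsupp.sub_apply, Finsupp.add_apply, smul_eq_mul]
  linear_combination (r2 * r2 * c i) * h

theorem Bm_Am (c : V) : Bm (Am c) = Am (Bm c) + c := by
  simp only [Bm_a, Am_a, map_smul, map_sub, map_add, c_00, c_11, c_d0u1, c_d1u0]
  have h := Complex.I_mul_I
  have h2 := r2_sq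
  ext i
  simp only [Finsupp.smul_apply, Finsupp.sub_apply, Finsupp.add_apply, smul_eq_mul]
  linear_combination (-(r2 * r2 * c i)) * h + (2 * c i) * h2

/-! ### The coefficients of the Landau functions -/

/-- the coefficients -/
noncomputable def cc : ℕ → ℕ → V
  | 0, 0 => Finsupp.single (0, 0) 1
  | 0, (q + 1) => (sq ((q:ℝ) + 1))⁻¹ • Am (cc 0 q)
  | (p + 1), q => (sq ((p:ℝ) + 1))⁻¹ • Ap (cc p q)

theorem cc_p (p q : ℕ) : sq ((p:ℝ) + 1) • cc (p + 1) q = Ap (cc p q) := by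
  have h := sq_ne (show (0:ℝ) < (p:ℝ) + 1 by positivity)
  rw [cc, smul_smul, mul_inv_cancel₀ h, one_smul]

theorem cc_q (q : ℕ) : sq ((q:ℝ) + 1) • cc 0 (q + 1) = Am (cc 0 q) := by
  have h := sq_ne (show (0:ℝ) < (q:ℝ) + 1 by positivity)
  rw [cc, smul_smul, mul_inv_cancel₀ h, one_smul]

theorem dn_00 : dn0 (cc 0 0) = 0 ∧ dn1 (cc 0 0) = 0 := by
  have h : cc 0 0 = Finsupp.single (0, 0) 1 := by rw [cc]
  rw [h, dn0_s, dn1_s]
  simp [sq_zero]

theorem Bp_zero (q : ℕ) : Bp (cc 0 q) = 0 := by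
  induction q with
  | zero => rw [Bp_a, dn_00.1, dn_00.2]; simp
  | succ q ih =>
    have h := sq_ne (show (0:ℝ) < (q:ℝ) + 1 by positivity)
    have h2 : Bp (sq ((q:ℝ) + 1) • cc 0 (q + 1)) = 0 := by rw [cc_q, Bp_Am, ih, map_zero]
    rw [map_smul] at h2
    exact (smul_eq_zero.1 h2).resolve_left h

theorem Bm_cc (p q : ℕ) : Bm (cc p q) = sq (q:ℝ) • cc p (q - 1) := by
  induction p with
  | zero =>
    induction q with
    | zero => rw [Bm_a, dn_00.1, dn_00.2]; simp [sq_zero]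
    | succ q ih =>
      have h := sq_ne (show (0:ℝ) < (q:ℝ) + 1 by positivity)
      have h2 : sq ((q:ℝ) + 1) • Bm (cc 0 (q + 1)) = ((q:ℂ) + 1) • cc 0 q := by
        rw [← map_smul, cc_q, Bm_Am, ih, map_smul]
        rcases q with _ | q
        · simp [sq_zero]
        · rw [Nat.add_sub_cancel, ← cc_q, smul_smul]
          push_cast
          have h3 : sq ((q:ℝ) + 1) * sq ((q:ℝ) + 1) = (((q:ℝ) + 1 : ℝ) : ℂ) :=
            sq_mul (by positivity)
          rw [h3, add_smul _ _ (cc 0 (q + 1)), one_smul]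
          push_cast; rfl
      have h3 : sq ((q:ℝ) + 1) * sq ((q:ℝ) + 1) = (((q:ℝ) + 1 : ℝ) : ℂ) := sq_mul (by positivity)
      rw [Nat.add_sub_cancel]
      push_cast
      refine smul_right_injective _ h ?_
      dsimp only
      rw [h2, smul_smul, h3]
      push_cast; rfl
  | succ p ih =>
    have h := sq_ne (show (0:ℝ) < (p:ℝ) + 1 by positivity)
    refine smul_right_injective _ h ?_
    dsimp only
    rw [← map_smul, cc_p, Bm_Ap, ih, map_smul, smul_comm, cc_p]

/-! ### The phases -/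

/-- the evolution -/
noncomputable def Mt (t : ℝ) : V →ₗ[ℂ] V := Finsupp.linearCombination ℂ fun i : ℕ × ℕ =>
  Finsupp.single i (Complex.exp (-((i.1 + i.2 : ℕ) * t * Complex.I)))

theorem Mt_s (t : ℝ) (i : ℕ × ℕ) (z : ℂ) : Mt t (Finsupp.single i z) =
    Finsupp.single i (z * Complex.exp (-((i.1 + i.2 : ℕ) * t * Complex.I))) := by
  rw [Mt, Finsupp.linearCombination_single, Finsupp.smul_single, smul_eq_mul]

theorem ex_add (n : ℕ) (t : ℝ) : Complex.exp (-((n + 1 : ℕ) * t * Complex.I)) =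
    Complex.exp (-(t * Complex.I)) * Complex.exp (-(n * t * Complex.I)) := by
  rw [← Complex.exp_add]
  congr 1
  push_cast; ring

theorem Mt_u0 (t : ℝ) (c : V) : Mt t (up0 c) = Complex.exp (-(t * Complex.I)) • up0 (Mt t c) := by
  refine ext_s (f := (Mt t).comp up0) (g := Complex.exp (-(t * Complex.I)) • up0.comp (Mt t)) ?_ c
  intro i z
  simp only [LinearMap.comp_apply, LinearMap.smul_apply, up0_s, Mt_s, Finsupp.smul_single,
    smul_eq_mul]
  have h : i.1 + 1 + i.2 = i.1 + i.2 + 1 := by ring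
  rw [h, ex_add]
  congr 1; ring

theorem Mt_u1 (t : ℝ) (c : V) : Mt t (up1 c) = Complex.exp (-(t * Complex.I)) • up1 (Mt t c) := by
  refine ext_s (f := (Mt t).comp up1) (g := Complex.exp (-(t * Complex.I)) • up1.comp (Mt t)) ?_ c
  intro i z
  simp only [LinearMap.comp_apply, LinearMap.smul_apply, up1_s, Mt_s, Finsupp.smul_single,
    smul_eq_mul]
  have h : i.1 + (i.2 + 1) = i.1 + i.2 + 1 := by ring
  rw [h, ex_add]
  congr 1; ring

theorem Mt_Ap (t : ℝ) (c : V) : Mt t (Ap c) = Complex.exp (-(t * Complex.I)) • Ap (Mt t c) := by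
  rw [Ap_a, Ap_a, map_smul, map_add, map_smul, Mt_u0, Mt_u1]
  ext i
  simp only [Finsupp.smul_apply, Finsupp.add_apply, smul_eq_mul]
  ring

theorem Mt_Am (t : ℝ) (c : V) : Mt t (Am c) = Complex.exp (-(t * Complex.I)) • Am (Mt t c) := by
  rw [Am_a, Am_a, map_smul, map_sub, map_smul, Mt_u0, Mt_u1]
  ext i
  simp only [Finsupp.smul_apply, Finsupp.sub_apply, smul_eq_mul]
  ring

theorem Mt_cc (t : ℝ) (p q : ℕ) :
    Mt t (cc p q) = Complex.exp (-((p + q : ℕ) * t * Complex.I)) • cc p q := by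
  induction p with
  | zero =>
    induction q with
    | zero =>
      have h : cc 0 0 = Finsupp.single (0, 0) 1 := by rw [cc]
      rw [h, Mt_s, Finsupp.smul_single, smul_eq_mul, one_mul, mul_one]
    | succ q ih =>
      have h := sq_ne (show (0:ℝ) < (q:ℝ) + 1 by positivity)
      refine smul_right_injective _ h ?_
      dsimp only
      rw [← map_smul, cc_q, Mt_Am, ih, map_smul, ← cc_q,
        show 0 + (q + 1) = 0 + q + 1 by ring, ex_add, smul_smul, smul_comm]
  | succ p ih =>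
    have h := sq_ne (show (0:ℝ) < (p:ℝ) + 1 by positivity)
    refine smul_right_injective _ h ?_
    dsimp only
    rw [← map_smul, cc_p, Mt_Ap, ih, map_smul, ← cc_p,
      show p + 1 + q = p + q + 1 by ring, ex_add, smul_smul, smul_comm]

end Pool.Agent.H45.LT.Mg
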