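import Mathlib
import Pool.Agent.H45.LT.Mg1

set_option autoImplicit false

/-!
# The explicit formula for the Landau functions, and rotations
-/

open scoped ComplexConjugate

namespace Pool.Agent.H45.LT.Mg

/-- the value at `x` -/
noncomputable def F (x : Fin 2 → ℝ) : V →ₗ[ℂ] ℂ := Finsupp.linearCombination ℂ fun i : ℕ × ℕ =>
  ((Osc.h i.1 (x 0) * Osc.h i.2 (x 1) : ℝ) : ℂ)

theorem F_s (x : Fin 2 → ℝ) (i : ℕ × ℕ) (z : ℂ) :
    F x (Finsupp.single i z) = z * ((Osc.h i.1 (x 0) * Osc.h i.2 (x 1) : ℝ) : ℂ) := by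
  rw [F, Finsupp.linearCombination_single, smul_eq_mul]

theorem hX (n : ℕ) (t : ℝ) : √((n:ℝ) + 1) * Osc.h (n + 1) t + √(n:ℝ) * Osc.h (n - 1) t =
    √2 * (t * Osc.h n t) := by
  rw [Osc.h_X]
  have h2 : (0:ℝ) < √2 := Real.sqrt_pos.2 (by norm_num)
  field_simp
  ring

theorem F_0 (x : Fin 2 → ℝ) (c : V) :
    F x (up0 c) + F x (dn0 c) = ((√2 * x 0 : ℝ) : ℂ) * F x c := by
  refine ext_s (f := (F x).comp up0 + (F x).comp dn0) (g := ((√2 * x 0 : ℝ) : ℂ) • F x) ?_ c
  intro i z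
  simp only [LinearMap.comp_apply, LinearMap.add_apply, LinearMap.smul_apply, up0_s, dn0_s, F_s,
    smul_eq_mul]
  have h := congrArg (fun r : ℝ => (r : ℂ)) (hX i.1 (x 0))
  unfold sq
  push_cast at h ⊢
  linear_combination (z * (Osc.h i.2 (x 1) : ℂ)) * h

theorem F_1 (x : Fin 2 → ℝ) (c : V) :
    F x (up1 c) + F x (dn1 c) = ((√2 * x 1 : ℝ) : ℂ) * F x c := by
  refine ext_s (f := (F x).comp up1 + (F x).comp dn1) (g := ((√2 * x 1 : ℝ) : ℂ) • F x) ?_ c
  intro i z
  simp only [LinearMap.comp_apply, LinearMap.add_apply, LinearMap.smul_apply, up1_s, dn1_s, F_s,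
    smul_eq_mul]
  have h := congrArg (fun r : ℝ => (r : ℂ)) (hX i.2 (x 1))
  unfold sq
  push_cast at h ⊢
  linear_combination (z * (Osc.h i.1 (x 0) : ℂ)) * h

/-- `z = x_0 + i x_1` -/
noncomputable def zz (x : Fin 2 → ℝ) : ℂ := (x 0 : ℂ) + (x 1 : ℂ) * Complex.I

/-- its conjugate -/
noncomputable def zb (x : Fin 2 → ℝ) : ℂ := (x 0 : ℂ) - (x 1 : ℂ) * Complex.I

theorem r2_s : r2 * ((√2 : ℝ) : ℂ) = 1 := by
  unfold r2
  rw [← Complex.ofReal_mul]
  have h2 : (0:ℝ) < √2 := Real.sqrt_pos.2 (by norm_num)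
  rw [one_div, inv_mul_cancel₀ h2.ne']; norm_num

theorem F_z (x : Fin 2 → ℝ) (c : V) : F x (Ap c) + F x (Bm c) = zz x * F x c := by
  have h0 := F_0 x c
  have h1 := F_1 x c
  simp only [Ap_a, Bm_a, map_smul, map_add, smul_eq_mul]
  have h2 := r2_s
  unfold zz
  push_cast at h0 h1
  linear_combination r2 * h0 + r2 * Complex.I * h1 + ((x 0 : ℂ) + (x 1 : ℂ) * Complex.I) *
    F x c * h2

theorem F_zb (x : Fin 2 → ℝ) (c : V) : F x (Am c) + F x (Bp c) = zb x * F x c := by
  have h0 := F_0 x c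
  have h1 := F_1 x c
  simp only [Am_a, Bp_a, map_smul, map_sub, smul_eq_mul]
  have h2 := r2_s
  unfold zb
  push_cast at h0 h1
  linear_combination r2 * h0 - r2 * Complex.I * h1 + ((x 0 : ℂ) - (x 1 : ℂ) * Complex.I) *
    F x c * h2

/-! ### The polynomials -/

/-- `∑ (-1)^k k! (p choose k) (q choose k) z^(p-k) w^(q-k)` -/
noncomputable def kk (p q : ℕ) (z w : ℂ) : ℂ :=
  ∑ k ∈ Finset.range (q + 1), (-1) ^ k * ((k.factorial * p.choose k * q.choose k : ℕ) : ℂ) *
    z ^ (p - k) * w ^ (q - k)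

theorem kk_zero (q : ℕ) (z w : ℂ) : kk 0 q z w = w ^ q := by
  unfold kk
  rw [Finset.sum_eq_single_of_mem 0 (Finset.mem_range.2 (by omega))]
  · simp
  · intro k _ hk
    rw [Nat.choose_eq_zero_of_lt (by omega : 0 < k)]
    simp

theorem kk_succ (p q : ℕ) (z w : ℂ) :
    kk (p + 1) q z w = z * kk p q z w - (q : ℂ) * kk p (q - 1) z w := by
  have h1 : ∀ k, (-1:ℂ) ^ k * ((k.factorial * (p + 1).choose k * q.choose k : ℕ) : ℂ) *
      z ^ (p + 1 - k) * w ^ (q - k) =
      z * ((-1) ^ k * ((k.factorial * p.choose k * q.choose k : ℕ) : ℂ) *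
        z ^ (p - k) * w ^ (q - k)) +
      (if k = 0 then 0 else (-1) ^ k * ((k.factorial * p.choose (k - 1) * q.choose k : ℕ) : ℂ) *
        z ^ (p + 1 - k) * w ^ (q - k)) := by
    intro k
    rcases k with _ | k
    · simp [pow_succ']
      ring
    · rw [if_neg (by omega), Nat.choose_succ_succ', Nat.add_sub_cancel]
      rcases Nat.lt_or_ge p (k + 1) with h | h
      · rw [Nat.choose_eq_zero_of_lt h]
        push_cast; ring
      · rw [show p + 1 - (k + 1) = (p - (k + 1)) + 1 by omega, pow_succ]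
        push_cast; ring
  unfold kk
  simp only [h1]
  rw [Finset.sum_add_distrib, ← Finset.mul_sum, sub_eq_add_neg]
  congr 1
  rw [Finset.sum_range_succ', if_pos rfl, add_zero]
  rcases q with _ | q
  · simp
  · rw [Nat.add_sub_cancel, ← neg_mul, Finset.mul_sum]
    refine Finset.sum_congr rfl fun k hk => ?_
    rw [if_neg (by omega), Nat.add_sub_cancel]
    have h2 : (k + 1) * (q + 1).choose (k + 1) = (q + 1) * q.choose k := by
      have := Nat.add_one_mul_choose_eq q k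
      linarith
    have h3 : (((k + 1).factorial * p.choose k * (q + 1).choose (k + 1) : ℕ) : ℂ) =
        ((q:ℂ) + 1) * ((k.factorial * p.choose k * q.choose k : ℕ) : ℂ) := by
      have h4 : (k + 1).factorial * p.choose k * (q + 1).choose (k + 1) =
          (q + 1) * (k.factorial * p.choose k * q.choose k) := by
        rw [Nat.factorial_succ]
        calc (k + 1) * k.factorial * p.choose k * (q + 1).choose (k + 1)
            = k.factorial * p.choose k * ((k + 1) * (q + 1).choose (k + 1)) := by ring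
          _ = (q + 1) * (k.factorial * p.choose k * q.choose k) := by rw [h2]; ring
      rw [h4]; push_cast; ring
    rw [h3, show p + 1 - (k + 1) = p - k by omega, show q + 1 - (k + 1) = q - k by omega]
    push_cast; ring

/-- the normalization -/
noncomputable def nn (p q : ℕ) : ℝ := 1 / √(Real.pi * p.factorial * q.factorial)

theorem nn_p (p q : ℕ) : √((p:ℝ) + 1) * nn (p + 1) q = nn p q := by
  unfold nn
  have h : Real.pi * ((p + 1).factorial : ℝ) * (q.factorial : ℝ) =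
      ((p:ℝ) + 1) * (Real.pi * p.factorial * q.factorial) := by
    rw [Nat.factorial_succ]; push_cast; ring
  rw [h, Real.sqrt_mul (by positivity)]
  have h1 : (0:ℝ) < √((p:ℝ) + 1) := Real.sqrt_pos.2 (by positivity)
  have h2 : (0:ℝ) < √(Real.pi * p.factorial * q.factorial) := Real.sqrt_pos.2 (by positivity)
  field_simp

theorem nn_q (p q : ℕ) : √((q:ℝ) + 1) * nn p (q + 1) = nn p q := by
  have h : ∀ a b, nn a b = nn b a := by
    intro a b
    unfold nn
    rw [mul_right_comm]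
  rw [h p (q + 1), nn_p, h]

/-- the Landau functions -/
noncomputable def la (p q : ℕ) (x : Fin 2 → ℝ) : ℂ :=
  (nn p q : ℂ) * kk p q (zz x) (zb x) * (Real.exp (-(x 0 ^ 2 + x 1 ^ 2) / 2) : ℂ)

theorem F_cc (x : Fin 2 → ℝ) (p q : ℕ) : F x (cc p q) = la p q x := by
  induction p generalizing q with
  | zero =>
    induction q with
    | zero =>
      have h : cc 0 0 = Finsupp.single (0, 0) 1 := by rw [cc]
      rw [h, F_s, la, kk_zero, pow_zero, mul_one, one_mul]
      simp only [Osc.h, Osc.P_zero, Polynomial.eval_C]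
      have h1 : nn 0 0 = 1 / √(√Real.pi) * (1 / √(√Real.pi)) := by
        unfold nn
        rw [div_mul_div_comm, Real.mul_self_sqrt (Real.sqrt_nonneg _)]
        simp
      have h2 : Real.exp (-(x 0 ^ 2 + x 1 ^ 2) / 2) =
          Real.exp (-x 0 ^ 2 / 2) * Real.exp (-x 1 ^ 2 / 2) := by
        rw [← Real.exp_add]; congr 1; ring
      rw [h1, h2, ← Complex.ofReal_mul]
      congr 1
      ring
    | succ q ih =>
      have h := sq_ne (show (0:ℝ) < (q:ℝ) + 1 by positivity)
      refine mul_left_cancel₀ h ?_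
      have h1 := F_zb x (cc 0 q)
      rw [Bp_zero, map_zero, add_zero, ← cc_q, map_smul, smul_eq_mul, ih] at h1
      rw [h1]
      unfold la sq
      rw [kk_zero, kk_zero, ← nn_q 0 q, pow_succ]
      push_cast; ring
  | succ p ih =>
    have h := sq_ne (show (0:ℝ) < (p:ℝ) + 1 by positivity)
    refine mul_left_cancel₀ h ?_
    have h1 := F_z x (cc p q)
    rw [Bm_cc, ← cc_p, map_smul, map_smul, smul_eq_mul, smul_eq_mul, ih, ih] at h1
    have h2 : sq ((p:ℝ) + 1) * F x (cc (p + 1) q) =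
        zz x * la p q x - sq (q:ℝ) * la p (q - 1) x := by rw [← h1]; ring
    rw [h2]
    unfold la
    rw [kk_succ]
    have h3 : sq ((p:ℝ) + 1) * (nn (p + 1) q : ℂ) = (nn p q : ℂ) := by
      unfold sq
      rw [← Complex.ofReal_mul, nn_p]
    have h4 : sq (q:ℝ) * (nn p (q - 1) : ℂ) = (q : ℂ) * (nn p q : ℂ) := by
      rcases q with _ | q
      · simp [sq_zero]
      · rw [Nat.add_sub_cancel, ← nn_q p q]
        have h5 : sq ((q:ℝ) + 1) * sq ((q:ℝ) + 1) = (((q:ℝ) + 1 : ℝ) : ℂ) :=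
          sq_mul (by positivity)
        have h6 : (((√((q:ℝ) + 1) * nn p (q + 1) : ℝ)) : ℂ) =
            sq ((q:ℝ) + 1) * (nn p (q + 1) : ℂ) := by
          unfold sq; push_cast; rfl
        rw [h6]
        push_cast at h5 ⊢
        linear_combination (nn p (q + 1) : ℂ) * h5
    linear_combination (-((Real.exp (-(x 0 ^ 2 + x 1 ^ 2) / 2) : ℂ) * kk p (q - 1) (zz x)
      (zb x))) * h4 - ((zz x * kk p q (zz x) (zb x) - (q:ℂ) * kk p (q - 1) (zz x) (zb x)) *
      (Real.exp (-(x 0 ^ 2 + x 1 ^ 2) / 2) : ℂ)) * h3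

/-! ### Rotations -/

/-- the rotation -/
noncomputable def rot (θ : ℝ) (x : Fin 2 → ℝ) : Fin 2 → ℝ :=
  ![Real.cos θ * x 0 - Real.sin θ * x 1, Real.sin θ * x 0 + Real.cos θ * x 1]

theorem rot_zz (θ : ℝ) (x : Fin 2 → ℝ) : zz (rot θ x) = Complex.exp (θ * Complex.I) * zz x := by
  rw [Complex.exp_mul_I]
  unfold zz rot
  simp only [Matrix.cons_val_zero, Matrix.cons_val_one]
  push_cast
  linear_combination (-(Complex.sin θ * (x 1 : ℂ))) * Complex.I_mul_I

theorem rot_zb (θ : ℝ) (x : Fin 2 → ℝ) : zb (rot θ x) = Complex.exp (-(θ * Complex.I)) * zb x := by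
  have h : -((θ:ℂ) * Complex.I) = (-(θ:ℂ)) * Complex.I := by ring
  rw [h, Complex.exp_mul_I, Complex.cos_neg, Complex.sin_neg]
  unfold zb rot
  simp only [Matrix.cons_val_zero, Matrix.cons_val_one]
  push_cast
  linear_combination (-(Complex.sin θ * (x 1 : ℂ))) * Complex.I_mul_I

theorem rot_norm (θ : ℝ) (x : Fin 2 → ℝ) : (rot θ x) 0 ^ 2 + (rot θ x) 1 ^ 2 =
    x 0 ^ 2 + x 1 ^ 2 := by
  unfold rot
  simp only [Matrix.cons_val_zero, Matrix.cons_val_one]
  linear_combination (x 0 ^ 2 + x 1 ^ 2) * Real.sin_sq_add_cos_sq θ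

theorem kk_rot (p q : ℕ) (θ : ℝ) (z w : ℂ) :
    kk p q (Complex.exp (θ * Complex.I) * z) (Complex.exp (-(θ * Complex.I)) * w) =
      Complex.exp (((p:ℂ) - q) * θ * Complex.I) * kk p q z w := by
  unfold kk
  rw [Finset.mul_sum]
  refine Finset.sum_congr rfl fun k hk => ?_
  rw [Finset.mem_range] at hk
  rcases Nat.lt_or_ge p k with h | h
  · rw [Nat.choose_eq_zero_of_lt h]; simp
  · rw [mul_pow, mul_pow, ← Complex.exp_nat_mul, ← Complex.exp_nat_mul]
    have h1 : Complex.exp (((p:ℂ) - q) * θ * Complex.I) =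
        Complex.exp (((p - k : ℕ) : ℂ) * (θ * Complex.I)) *
          Complex.exp (((q - k : ℕ) : ℂ) * (-(θ * Complex.I))) := by
      rw [← Complex.exp_add]
      congr 1
      rw [Nat.cast_sub h, Nat.cast_sub (by omega)]
      ring
    rw [h1]; ring

theorem la_rot (p q : ℕ) (θ : ℝ) (x : Fin 2 → ℝ) :
    la p q (rot θ x) = Complex.exp (((p:ℂ) - q) * θ * Complex.I) * la p q x := by
  unfold la
  rw [rot_norm, rot_zz, rot_zb, kk_rot]
  ring

end Pool.Agent.H45.LT.Mg
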