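import Mathlib
import Pool.Agent.H45.LT.Mg2
import Pool.Agent.H45.LT.Tr10

set_option autoImplicit false

/-!
# The evolution of the Landau functions, and rotations of the plane
-/

open MeasureTheory Filter Topology Real Finset
open scoped ComplexConjugate ENNReal
open LTd (Kcl)

namespace Pool.Agent.H45.LT.Mg

open Ly (Sp)
open Tr (wv lkin FamG)

variable {m : ℕ} {ι κ : Type}

/-- the sums of Landau functions -/
noncomputable def lw (e : ι → (Fin m → ℝ) → ℂ) (c : ℕ × ℕ × ι →₀ ℂ) (p : Sp m) : ℂ :=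
  c.sum fun i z => z * la i.1 i.2.1 p.1 * e i.2.2 p.2

/-- the coefficients with respect to the products of Hermite functions -/
noncomputable def cv (c : ℕ × ℕ × ι →₀ ℂ) : ℕ × ℕ × ι →₀ ℂ :=
  c.sum fun i z => z • (cc i.1 i.2.1).mapDomain fun ab : ℕ × ℕ => (ab.1, ab.2, i.2.2)

/-- the evolution as a linear map -/
noncomputable def wL (e : ι → (Fin m → ℝ) → ℂ) (t : ℝ) (p : Sp m) : (ℕ × ℕ × ι →₀ ℂ) →ₗ[ℂ] ℂ :=
  Finsupp.linearCombination ℂ fun i : ℕ × ℕ × ι =>
    Complex.exp (-((i.1 + i.2.1 : ℕ) * t * Complex.I)) *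
    ((Osc.h i.1 (p.1 0) * Osc.h i.2.1 (p.1 1) : ℝ) : ℂ) * e i.2.2 p.2

theorem wv_wL (e : ι → (Fin m → ℝ) → ℂ) (c : ℕ × ℕ × ι →₀ ℂ) (t : ℝ) (p : Sp m) :
    wv e c t p = wL e t p c := by
  rw [wL, Finsupp.linearCombination_apply]
  unfold wv
  refine Finsupp.sum_congr fun i _ => ?_
  rw [smul_eq_mul]; ring

theorem wL_cc (e : ι → (Fin m → ℝ) → ℂ) (t : ℝ) (p : Sp m) (j : ι) (d : V) :
    wL e t p (d.mapDomain fun ab : ℕ × ℕ => (ab.1, ab.2, j)) = F p.1 (Mt t d) * e j p.2 := by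
  rw [wL, Finsupp.linearCombination_mapDomain]
  refine ext_s (g := (LinearMap.mulRight ℂ (e j p.2)).comp ((F p.1).comp (Mt t))) ?_ d
  intro i z
  rw [Finsupp.linearCombination_single]
  simp only [Function.comp_apply, LinearMap.comp_apply, LinearMap.mulRight_apply, Mt_s, F_s,
    smul_eq_mul]
  ring

theorem wv_cv (e : ι → (Fin m → ℝ) → ℂ) (c : ℕ × ℕ × ι →₀ ℂ) (t : ℝ) (p : Sp m) :
    wv e (cv c) t p = c.sum fun i z =>
      z * Complex.exp (-((i.1 + i.2.1 : ℕ) * t * Complex.I)) * la i.1 i.2.1 p.1 * e i.2.2 p.2 := by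
  rw [wv_wL]
  unfold cv Finsupp.sum
  rw [map_sum]
  refine sum_congr rfl fun i _ => ?_
  rw [map_smul, wL_cc, Mt_cc, map_smul, F_cc, smul_eq_mul, smul_eq_mul]
  ring

theorem wv_zero (e : ι → (Fin m → ℝ) → ℂ) (c : ℕ × ℕ × ι →₀ ℂ) : wv e (cv c) 0 = lw e c := by
  funext p
  rw [wv_cv]
  unfold lw
  refine Finsupp.sum_congr fun i _ => ?_
  simp

/-- **The evolution is a rotation.** -/
theorem wv_rot (e : ι → (Fin m → ℝ) → ℂ) (g : ι → ℝ) (c : ℕ × ℕ × ι →₀ ℂ) {Ω E : ℝ}
    (hE : ∀ i ∈ c.support, ((i.1 : ℝ) + i.2.1) + Ω * ((i.1 : ℝ) - i.2.1) + g i.2.2 = E) (t : ℝ)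
    (p : Sp m) :
    wv (fun j y => Complex.exp (-(g j * t * Complex.I)) * e j y) (cv c) t p =
      Complex.exp (-(E * t * Complex.I)) * lw e c (rot (Ω * t) p.1, p.2) := by
  rw [wv_cv]
  unfold lw Finsupp.sum
  rw [mul_sum]
  refine sum_congr rfl fun i hi => ?_
  dsimp only
  rw [la_rot]
  have h1 : Complex.exp (-((i.1 + i.2.1 : ℕ) * t * Complex.I)) *
      Complex.exp (-(g i.2.2 * t * Complex.I)) =
      Complex.exp (-(E * t * Complex.I)) *
        Complex.exp (((i.1:ℂ) - i.2.1) * ((Ω * t : ℝ) : ℂ) * Complex.I) := by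
    rw [← Complex.exp_add, ← Complex.exp_add]
    congr 1
    rw [← hE i hi]
    push_cast; ring
  linear_combination (c i * la i.1 i.2.1 p.1 * e i.2.2 p.2) * h1

/-! ### Rotations of the plane -/

/-- the rotation as a linear map -/
noncomputable def rotL (θ : ℝ) : (Fin 2 → ℝ) →ₗ[ℝ] (Fin 2 → ℝ) :=
  Matrix.toLin' !![Real.cos θ, -Real.sin θ; Real.sin θ, Real.cos θ]

theorem rotL_apply (θ : ℝ) (x : Fin 2 → ℝ) : rotL θ x = rot θ x := by
  rw [rotL, Matrix.toLin'_apply]
  funext i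
  fin_cases i
  · simp [rot, Matrix.mulVec, Matrix.vecHead, Matrix.vecTail]
    ring
  · simp [rot, Matrix.mulVec, Matrix.vecHead, Matrix.vecTail]

theorem rot_mp (θ : ℝ) : MeasurePreserving (rot θ) volume volume := by
  have h1 : rot θ = rotL θ := funext fun x => (rotL_apply θ x).symm
  have hdet : (!![Real.cos θ, -Real.sin θ; Real.sin θ, Real.cos θ] :
      Matrix (Fin 2) (Fin 2) ℝ).det = 1 := by
    rw [Matrix.det_fin_two_of]
    linear_combination Real.sin_sq_add_cos_sq θ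
  have h2 := Real.map_matrix_volume_pi_eq_smul_volume_pi
    (M := !![Real.cos θ, -Real.sin θ; Real.sin θ, Real.cos θ]) (by rw [hdet]; norm_num)
  rw [hdet] at h2
  rw [h1]
  refine ⟨(LinearMap.continuous_of_finiteDimensional (rotL θ)).measurable, ?_⟩
  have h3 : (Measure.map (⇑(rotL θ)) volume : Measure (Fin 2 → ℝ)) = _ := h2
  rw [h3]
  simp

/-- the rotation on the product space -/
noncomputable def rotS (θ : ℝ) : Sp m ≃ₜ Sp m where
  toFun p := (rot θ p.1, p.2)
  invFun p := (rot (-θ) p.1, p.2)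
  left_inv p := by
    refine Prod.ext ?_ rfl
    funext i
    have h := Real.sin_sq_add_cos_sq θ
    fin_cases i
    · simp [rot]
      linear_combination (p.1 0) * h
    · simp [rot]
      linear_combination (p.1 1) * h
  right_inv p := by
    refine Prod.ext ?_ rfl
    funext i
    have h := Real.sin_sq_add_cos_sq θ
    fin_cases i
    · simp [rot]
      linear_combination (p.1 0) * h
    · simp [rot]
      linear_combination (p.1 1) * h
  continuous_toFun := by
    refine Continuous.prodMk ?_ continuous_snd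
    have h1 : rot θ = rotL θ := funext fun x => (rotL_apply θ x).symm
    rw [h1]
    exact (LinearMap.continuous_of_finiteDimensional (rotL θ)).comp continuous_fst
  continuous_invFun := by
    refine Continuous.prodMk ?_ continuous_snd
    have h1 : rot (-θ) = rotL (-θ) := funext fun x => (rotL_apply (-θ) x).symm
    rw [h1]
    exact (LinearMap.continuous_of_finiteDimensional (rotL (-θ))).comp continuous_fst

theorem rotS_apply (θ : ℝ) (p : Sp m) : rotS θ p = (rot θ p.1, p.2) := rfl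

theorem rotS_lint (θ : ℝ) (f : Sp m → ℝ≥0∞) : ∫⁻ p, f (rotS θ p) = ∫⁻ p, f p := by
  have h : MeasurePreserving (rotS (m := m) θ) volume volume :=
    (rot_mp θ).prod (MeasurePreserving.id (volume : Measure (Fin m → ℝ)))
  exact h.lintegral_comp_emb (rotS θ).measurableEmbedding f

theorem en_sq' (z : ℂ) : ‖z‖ₑ ^ 2 = ENNReal.ofReal (‖z‖ ^ 2) := Tr.en_sq z

theorem rot_grad (θ : ℝ) (a b : ℂ) :
    ‖(Real.cos θ : ℂ) * a + (Real.sin θ : ℂ) * b‖ₑ ^ 2 +
      ‖-(Real.sin θ : ℂ) * a + (Real.cos θ : ℂ) * b‖ₑ ^ 2 = ‖a‖ₑ ^ 2 + ‖b‖ₑ ^ 2 := by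
  simp only [en_sq']
  rw [← ENNReal.ofReal_add (by positivity) (by positivity),
    ← ENNReal.ofReal_add (by positivity) (by positivity)]
  congr 1
  simp only [← Complex.normSq_eq_norm_sq, Complex.normSq_apply]
  simp only [Complex.add_re, Complex.add_im, Complex.mul_re, Complex.mul_im, Complex.neg_re,
    Complex.neg_im, Complex.ofReal_re, Complex.ofReal_im]
  linear_combination (a.re ^ 2 + a.im ^ 2 + b.re ^ 2 + b.im ^ 2) * Real.sin_sq_add_cos_sq θ

/-- the derivative of the rotation -/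
noncomputable def rotD (θ : ℝ) : Sp m →L[ℝ] Sp m :=
  ((LinearMap.toContinuousLinearMap (rotL θ)).comp
    (ContinuousLinearMap.fst ℝ (Fin 2 → ℝ) (Fin m → ℝ))).prod
    (ContinuousLinearMap.snd ℝ (Fin 2 → ℝ) (Fin m → ℝ))

theorem rotD_apply (θ : ℝ) (p : Sp m) : rotD θ p = rotS θ p := by
  rw [rotS_apply, ← rotL_apply]
  rfl

theorem lkin_rot (u : Sp m → ℂ) (hu : Differentiable ℝ u) (θ : ℝ) :
    lkin (fun p => u (rotS θ p)) = lkin u := by
  have hd : ∀ p, fderiv ℝ (fun p => u (rotS θ p)) p = (fderiv ℝ u (rotS θ p)).comp (rotD θ) := by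
    intro p
    have h1 : HasFDerivAt (fun p : Sp m => rotS θ p) (rotD θ) p := by
      have h2 : (fun p : Sp m => rotS θ p) = rotD θ := funext fun p => (rotD_apply θ p).symm
      rw [h2]
      exact (rotD θ).hasFDerivAt
    exact ((hu (rotS θ p)).hasFDerivAt.comp p h1).fderiv
  unfold lkin
  simp only [hd, ContinuousLinearMap.comp_apply]
  rw [← rotS_lint θ (fun p => (∑ q : Fin 2, ‖fderiv ℝ u p (Pi.single q 1, 0)‖ₑ ^ 2) +
    ∑ q : Fin m, ‖fderiv ℝ u p (0, Pi.single q 1)‖ₑ ^ 2)]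
  refine lintegral_congr fun p => ?_
  congr 1
  · rw [Fin.sum_univ_two, Fin.sum_univ_two]
    set L := fderiv ℝ u (rotS θ p) with hL
    have e0 : rotD (m := m) θ (Pi.single 0 1, 0) =
        Real.cos θ • ((Pi.single 0 1, 0) : Sp m) + Real.sin θ • ((Pi.single 1 1, 0) : Sp m) := by
      rw [rotD_apply, rotS_apply]
      refine Prod.ext ?_ ?_
      · funext i
        fin_cases i
        · simp [rot]
        · simp [rot]
      · simp
    have e1 : rotD (m := m) θ (Pi.single 1 1, 0) =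
        -Real.sin θ • ((Pi.single 0 1, 0) : Sp m) + Real.cos θ • ((Pi.single 1 1, 0) : Sp m) := by
      rw [rotD_apply, rotS_apply]
      refine Prod.ext ?_ ?_
      · funext i
        fin_cases i
        · simp [rot]
        · simp [rot]
      · simp
    rw [e0, e1, map_add, map_add, map_smul, map_smul, map_smul, map_smul]
    have h := rot_grad θ (L (Pi.single 0 1, 0)) (L (Pi.single 1 1, 0))
    simp only [Complex.real_smul]
    push_cast
    push_cast at h
    exact h
  · refine sum_congr rfl fun q _ => ?_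
    have e0 : rotD (m := m) θ (0, Pi.single q 1) = (0, Pi.single q 1) := by
      rw [rotD_apply, rotS_apply]
      refine Prod.ext ?_ rfl
      funext i
      fin_cases i
      · simp [rot]
      · simp [rot]
    rw [e0]

end Pool.Agent.H45.LT.Mg
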