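import Mathlib
import Pool.Agent.H45.LT.Mg3

set_option autoImplicit false

/-!
# Homogeneous magnetic fields and harmonic traps
-/

open MeasureTheory Filter Topology Real Finset
open scoped ComplexConjugate ENNReal
open LTd (Kcl)

namespace Pool.Agent.H45.LT.Mg

open Ly (Sp)
open Tr (wv lkin FamG)

variable {m : ℕ} {ι κ : Type}

/-- the evolution in the rotating trap -/
noncomputable def bw (Ω : ℝ) (e : ι → (Fin m → ℝ) → ℂ) (c : ℕ × ℕ × ι →₀ ℂ) (t : ℝ) (p : Sp m) :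
    ℂ :=
  c.sum fun i z => z *
    Complex.exp (-(((((i.1:ℝ) + i.2.1) + Ω * ((i.1:ℝ) - i.2.1) : ℝ) : ℂ) * t * Complex.I)) *
    la i.1 i.2.1 p.1 * e i.2.2 p.2

theorem bw_zero (Ω : ℝ) (e : ι → (Fin m → ℝ) → ℂ) (c : ℕ × ℕ × ι →₀ ℂ) :
    bw Ω e c 0 = lw e c := by
  funext p
  unfold bw lw
  refine Finsupp.sum_congr fun i _ => ?_
  simp

theorem bw_eq (Ω : ℝ) (e : ι → (Fin m → ℝ) → ℂ) (c : ℕ × ℕ × ι →₀ ℂ) (t : ℝ) (p : Sp m) :
    bw Ω e c t p = wv e (cv c) t (rotS (-(Ω * t)) p) := by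
  rw [wv_cv]
  unfold bw
  refine Finsupp.sum_congr fun i _ => ?_
  rw [rotS_apply]
  dsimp only
  rw [la_rot]
  have h1 : Complex.exp (-(((((i.1:ℝ) + i.2.1) + Ω * ((i.1:ℝ) - i.2.1) : ℝ) : ℂ) * t *
      Complex.I)) = Complex.exp (-((i.1 + i.2.1 : ℕ) * t * Complex.I)) *
        Complex.exp (((i.1:ℂ) - i.2.1) * ((-(Ω * t) : ℝ) : ℂ) * Complex.I) := by
    rw [← Complex.exp_add]
    congr 1
    push_cast; ring
  rw [h1]; ring

variable [DecidableEq ι]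

theorem bw_lkin {e : ι → (Fin m → ℝ) → ℂ} (F : FamG e) (Ω : ℝ) (c : ℕ × ℕ × ι →₀ ℂ) (t : ℝ) :
    lkin (bw Ω e c t) = lkin (wv e (cv c) t) := by
  have h : bw Ω e c t = fun p => wv e (cv c) t (rotS (-(Ω * t)) p) :=
    funext fun p => bw_eq Ω e c t p
  rw [h, lkin_rot _ (Tr.wv_diff F (cv c) t)]

variable [DecidableEq κ]

/-- **The average over the time.** -/
theorem mag_avg [Countable κ] (Ω : ℝ) {e : ℝ → ι → (Fin m → ℝ) → ℂ} {c : κ → (ℕ × ℕ × ι →₀ ℂ)}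
    {ν : κ → ℝ} (he : ∀ j, Measurable fun q : ℝ × (Fin m → ℝ) => e q.1 j q.2)
    (F : ∀ t ∈ Set.Icc (0:ℝ) (2 * π), FamG (e t))
    (ho : ∀ n n', ∫ p, conj (bw Ω (e 0) (c n) 0 p) * bw Ω (e 0) (c n') 0 p =
      if n = n' then 1 else 0) (hν : ∀ n, 0 ≤ ν n ∧ ν n ≤ 1) :
    ENNReal.ofReal (Kcl (m + 2)) * ∫⁻ t in Set.Icc (0:ℝ) (2 * π), ∫⁻ p,
      (∑' n, ENNReal.ofReal (ν n) * ‖bw Ω (e t) (c n) t p‖ₑ ^ 2) ^
        (1 + 2 / ((m + 2 : ℕ) : ℝ)) ≤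
    ∫⁻ t in Set.Icc (0:ℝ) (2 * π),
      ∑' n, ENNReal.ofReal (ν n) * lkin (bw Ω (e t) (c n) t) := by
  have ho' : ∀ n n', ∫ p, conj (wv (e 0) (cv (c n)) 0 p) * wv (e 0) (cv (c n')) 0 p =
      if n = n' then 1 else 0 := by
    simp only [wv_zero]
    simp only [bw_zero] at ho
    exact ho
  have h := Tr.inf_avg (c := fun n => cv (c n)) he F ho' hν
  have h1 : ∀ t : ℝ, ∫⁻ p : Sp m,
      (∑' n, ENNReal.ofReal (ν n) * ‖bw Ω (e t) (c n) t p‖ₑ ^ 2) ^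
        (1 + 2 / ((m + 2 : ℕ) : ℝ)) = ∫⁻ p : Sp m,
      (∑' n, ENNReal.ofReal (ν n) * ‖wv (e t) (cv (c n)) t p‖ₑ ^ 2) ^
        (1 + 2 / ((m + 2 : ℕ) : ℝ)) := by
    intro t
    simp only [bw_eq]
    exact rotS_lint (-(Ω * t)) fun p => (∑' n, ENNReal.ofReal (ν n) *
      ‖wv (e t) (cv (c n)) t p‖ₑ ^ 2) ^ (1 + 2 / ((m + 2 : ℕ) : ℝ))
  simp only [h1]
  refine h.trans (le_of_eq ?_)
  refine setLIntegral_congr_fun measurableSet_Icc fun t ht => ?_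
  refine tsum_congr fun n => ?_
  rw [bw_lkin (F t ht)]

/-- **Stationary states.** -/
theorem mag_stat [Countable κ] (Ω : ℝ) {e : ι → (Fin m → ℝ) → ℂ} {g : ι → ℝ}
    {c : κ → (ℕ × ℕ × ι →₀ ℂ)} {ν : κ → ℝ} (F : FamG e)
    (ho : ∀ n n', ∫ p, conj (bw Ω e (c n) 0 p) * bw Ω e (c n') 0 p =
      if n = n' then 1 else 0) (hν : ∀ n, 0 ≤ ν n ∧ ν n ≤ 1)
    (hE : ∀ n, ∃ E : ℝ, ∀ i ∈ (c n).support,
      ((i.1 : ℝ) + i.2.1) + Ω * ((i.1 : ℝ) - i.2.1) + g i.2.2 = E) :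
    ENNReal.ofReal (Kcl (m + 2)) * ∫⁻ p,
      (∑' n, ENNReal.ofReal (ν n) * ‖bw Ω e (c n) 0 p‖ₑ ^ 2) ^ (1 + 2 / ((m + 2 : ℕ) : ℝ)) ≤
    ∑' n, ENNReal.ofReal (ν n) * lkin (bw Ω e (c n) 0) := by
  choose E hE using hE
  simp only [bw_zero] at ho ⊢
  have hm : ∀ j, Measurable fun q : ℝ × (Fin m → ℝ) =>
      Complex.exp (-(g j * q.1 * Complex.I)) * e j q.2 := fun j => by
    refine Continuous.measurable (Continuous.mul ?_ ((F.cd j).continuous.comp continuous_snd))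
    fun_prop
  have he0 : (fun (j : ι) (y : Fin m → ℝ) => Complex.exp (-(g j * (0:ℝ) * Complex.I)) * e j y) =
      e := by
    funext j y; simp
  have h := Tr.inf_avg (e := fun t j y => Complex.exp (-(g j * t * Complex.I)) * e j y)
    (c := fun n => cv (c n)) (ν := ν) hm (fun t _ => Tr.phase_fam F g t)
    (by rw [he0]; simp only [wv_zero]; exact ho) hν
  have e1 : ∀ (t : ℝ) (n : κ) (p : Sp m),
      ‖wv (fun j y => Complex.exp (-(g j * t * Complex.I)) * e j y) (cv (c n)) t p‖ₑ =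
      ‖lw e (c n) (rotS (Ω * t) p)‖ₑ := by
    intro t n p
    rw [wv_rot e g (c n) (hE n), enorm_mul, ← ofReal_norm, Tr.phase_norm, ENNReal.ofReal_one,
      one_mul]
    rfl
  have hdiff : ∀ n, Differentiable ℝ (lw e (c n)) := fun n => by
    rw [← wv_zero]
    exact Tr.wv_diff F _ _
  have e2 : ∀ (t : ℝ) (n : κ),
      lkin (wv (fun j y => Complex.exp (-(g j * t * Complex.I)) * e j y) (cv (c n)) t) =
      lkin (lw e (c n)) := by
    intro t n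
    have e3 : wv (fun j y => Complex.exp (-(g j * t * Complex.I)) * e j y) (cv (c n)) t =
        fun p => Complex.exp (-(E n * t * Complex.I)) * lw e (c n) (rotS (Ω * t) p) := by
      funext p; exact wv_rot e g (c n) (hE n) t p
    have hd2 : Differentiable ℝ fun p => lw e (c n) (rotS (Ω * t) p) := by
      have h2 : (fun p : Sp m => rotS (Ω * t) p) = rotD (Ω * t) :=
        funext fun p => (rotD_apply (Ω * t) p).symm
      have h3 : Differentiable ℝ fun p : Sp m => rotS (Ω * t) p := by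
        rw [h2]; exact (rotD (Ω * t)).differentiable
      exact (hdiff n).comp h3
    rw [e3, Tr.lkin_phase _ hd2 (Tr.phase_norm _ _), lkin_rot _ (hdiff n)]
  have e4 : ∀ t : ℝ, ∫⁻ p : Sp m, (∑' n, ENNReal.ofReal (ν n) *
      ‖lw e (c n) (rotS (Ω * t) p)‖ₑ ^ 2) ^ (1 + 2 / ((m + 2 : ℕ) : ℝ)) =
      ∫⁻ p : Sp m, (∑' n, ENNReal.ofReal (ν n) * ‖lw e (c n) p‖ₑ ^ 2) ^
        (1 + 2 / ((m + 2 : ℕ) : ℝ)) := fun t =>
    rotS_lint (Ω * t) fun p => (∑' n, ENNReal.ofReal (ν n) * ‖lw e (c n) p‖ₑ ^ 2) ^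
      (1 + 2 / ((m + 2 : ℕ) : ℝ))
  simp only [e1, e2, e4] at h
  rw [setLIntegral_const, setLIntegral_const, ← mul_assoc] at h
  have hv : volume (Set.Icc (0:ℝ) (2 * π)) ≠ 0 := by
    rw [Real.volume_Icc, sub_zero]
    exact (ENNReal.ofReal_pos.2 (by positivity)).ne'
  have hv' : volume (Set.Icc (0:ℝ) (2 * π)) ≠ ⊤ := by
    rw [Real.volume_Icc]; exact ENNReal.ofReal_ne_top
  exact (ENNReal.mul_le_mul_iff_left hv hv').1 h

end Pool.Agent.H45.LT.Mg
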