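import Mathlib
import Pool.Agent.H45.LT.Mg2

set_option autoImplicit false

/-!
# The Landau functions are orthonormal eigenfunctions
-/

open MeasureTheory
open scoped ComplexConjugate

namespace Pool.Agent.H45.LT.Mg

/-! ### The scalar product of the coefficients -/

/-- the scalar product -/
noncomputable def ip (c : V) : V →ₗ[ℂ] ℂ := Finsupp.linearCombination ℂ fun i : ℕ × ℕ => conj (c i)

theorem ip_s (c : V) (i : ℕ × ℕ) (z : ℂ) : ip c (Finsupp.single i z) = z * conj (c i) := by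
  rw [ip, Finsupp.linearCombination_single, smul_eq_mul]

theorem ip_add (a b d : V) : ip (a + b) d = ip a d + ip b d := by
  refine ext_s (f := ip (a + b)) (g := ip a + ip b) (fun i z => ?_) d
  simp only [LinearMap.add_apply, ip_s, Finsupp.add_apply, map_add]
  ring

theorem ip_sub (a b d : V) : ip (a - b) d = ip a d - ip b d := by
  refine ext_s (f := ip (a - b)) (g := ip a - ip b) (fun i z => ?_) d
  simp only [LinearMap.sub_apply, ip_s, Finsupp.sub_apply, map_sub]
  ring

theorem ip_smul (w : ℂ) (a d : V) : ip (w • a) d = conj w * ip a d := by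
  refine ext_s (f := ip (w • a)) (g := conj w • ip a) (fun i z => ?_) d
  simp only [LinearMap.smul_apply, ip_s, Finsupp.smul_apply, smul_eq_mul, map_mul]
  ring

theorem up0_apply (c : V) (i : ℕ × ℕ) : up0 c i = sq (i.1:ℝ) * c (i.1 - 1, i.2) := by
  refine ext_s (f := (Finsupp.lapply i).comp up0)
    (g := sq (i.1:ℝ) • (Finsupp.lapply (i.1 - 1, i.2) : V →ₗ[ℂ] ℂ)) (fun j w => ?_) c
  obtain ⟨a, b⟩ := i
  obtain ⟨a', b'⟩ := j
  simp only [LinearMap.comp_apply, LinearMap.smul_apply, up0_s, Finsupp.lapply_apply,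
    Finsupp.single_apply, Prod.mk.injEq, smul_eq_mul]
  rcases a with _ | a
  · simp [sq_zero]
  · simp only [Nat.add_sub_cancel, add_left_inj]
    split_ifs with h
    · rw [h.1]; push_cast; ring
    · ring

theorem up1_apply (c : V) (i : ℕ × ℕ) : up1 c i = sq (i.2:ℝ) * c (i.1, i.2 - 1) := by
  refine ext_s (f := (Finsupp.lapply i).comp up1)
    (g := sq (i.2:ℝ) • (Finsupp.lapply (i.1, i.2 - 1) : V →ₗ[ℂ] ℂ)) (fun j w => ?_) c
  obtain ⟨a, b⟩ := i
  obtain ⟨a', b'⟩ := j
  simp only [LinearMap.comp_apply, LinearMap.smul_apply, up1_s, Finsupp.lapply_apply,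
    Finsupp.single_apply, Prod.mk.injEq, smul_eq_mul]
  rcases b with _ | b
  · simp [sq_zero]
  · simp only [Nat.add_sub_cancel, add_left_inj]
    split_ifs with h
    · rw [h.2]; push_cast; ring
    · ring

theorem dn0_apply (c : V) (i : ℕ × ℕ) : dn0 c i = sq ((i.1:ℝ) + 1) * c (i.1 + 1, i.2) := by
  refine ext_s (f := (Finsupp.lapply i).comp dn0)
    (g := sq ((i.1:ℝ) + 1) • (Finsupp.lapply (i.1 + 1, i.2) : V →ₗ[ℂ] ℂ)) (fun j w => ?_) c
  obtain ⟨a, b⟩ := i
  obtain ⟨a', b'⟩ := j
  simp only [LinearMap.comp_apply, LinearMap.smul_apply, dn0_s, Finsupp.lapply_apply,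
    Finsupp.single_apply, Prod.mk.injEq, smul_eq_mul]
  rcases a' with _ | a'
  · simp [sq_zero]
  · simp only [Nat.add_sub_cancel, add_left_inj]
    split_ifs with h
    · rw [h.1]; push_cast; ring
    · ring

theorem dn1_apply (c : V) (i : ℕ × ℕ) : dn1 c i = sq ((i.2:ℝ) + 1) * c (i.1, i.2 + 1) := by
  refine ext_s (f := (Finsupp.lapply i).comp dn1)
    (g := sq ((i.2:ℝ) + 1) • (Finsupp.lapply (i.1, i.2 + 1) : V →ₗ[ℂ] ℂ)) (fun j w => ?_) c
  obtain ⟨a, b⟩ := i
  obtain ⟨a', b'⟩ := j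
  simp only [LinearMap.comp_apply, LinearMap.smul_apply, dn1_s, Finsupp.lapply_apply,
    Finsupp.single_apply, Prod.mk.injEq, smul_eq_mul]
  rcases b' with _ | b'
  · simp [sq_zero]
  · simp only [Nat.add_sub_cancel, add_left_inj]
    split_ifs with h
    · rw [h.2]; push_cast; ring
    · ring

theorem sq_conj (r : ℝ) : conj (sq r) = sq r := Complex.conj_ofReal _

theorem r2_conj : conj r2 = r2 := Complex.conj_ofReal _

theorem ip_up0 (c d : V) : ip (up0 c) d = ip c (dn0 d) := by
  refine ext_s (f := ip (up0 c)) (g := (ip c).comp dn0) (fun i z => ?_) d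
  simp only [LinearMap.comp_apply, ip_s, dn0_s, up0_apply, map_mul, sq_conj]
  ring

theorem ip_up1 (c d : V) : ip (up1 c) d = ip c (dn1 d) := by
  refine ext_s (f := ip (up1 c)) (g := (ip c).comp dn1) (fun i z => ?_) d
  simp only [LinearMap.comp_apply, ip_s, dn1_s, up1_apply, map_mul, sq_conj]
  ring

theorem ip_dn0 (c d : V) : ip (dn0 c) d = ip c (up0 d) := by
  refine ext_s (f := ip (dn0 c)) (g := (ip c).comp up0) (fun i z => ?_) d
  simp only [LinearMap.comp_apply, ip_s, up0_s, dn0_apply, map_mul, sq_conj]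
  ring

theorem ip_dn1 (c d : V) : ip (dn1 c) d = ip c (up1 d) := by
  refine ext_s (f := ip (dn1 c)) (g := (ip c).comp up1) (fun i z => ?_) d
  simp only [LinearMap.comp_apply, ip_s, up1_s, dn1_apply, map_mul, sq_conj]
  ring

theorem ip_Ap (c d : V) : ip (Ap c) d = ip c (Bp d) := by
  rw [Ap_a, Bp_a, ip_smul, ip_add, ip_smul, ip_up0, ip_up1, r2_conj, Complex.conj_I, map_smul,
    map_sub, map_smul, smul_eq_mul, smul_eq_mul]
  ring

theorem ip_Am (c d : V) : ip (Am c) d = ip c (Bm d) := by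
  rw [Am_a, Bm_a, ip_smul, ip_sub, ip_smul, ip_up0, ip_up1, r2_conj, Complex.conj_I, map_smul,
    map_add, map_smul, smul_eq_mul, smul_eq_mul]
  ring

theorem ip_Bp (c d : V) : ip (Bp c) d = ip c (Ap d) := by
  rw [Ap_a, Bp_a, ip_smul, ip_sub, ip_smul, ip_dn0, ip_dn1, r2_conj, Complex.conj_I, map_smul,
    map_add, map_smul, smul_eq_mul, smul_eq_mul]
  ring

theorem ip_Bm (c d : V) : ip (Bm c) d = ip c (Am d) := by
  rw [Am_a, Bm_a, ip_smul, ip_add, ip_smul, ip_dn0, ip_dn1, r2_conj, Complex.conj_I, map_smul,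
    map_sub, map_smul, smul_eq_mul, smul_eq_mul]
  ring

theorem Bp_Ap (c : V) : Bp (Ap c) = Ap (Bp c) + c := by
  simp only [Bp_a, Ap_a, map_smul, map_sub, map_add, c_00, c_11, c_d0u1, c_d1u0]
  have h := Complex.I_mul_I
  have h2 := r2_sq
  ext i
  simp only [Finsupp.smul_apply, Finsupp.sub_apply, Finsupp.add_apply, smul_eq_mul]
  linear_combination (-(r2 * r2 * c i)) * h + (2 * c i) * h2

theorem Bp_cc (p q : ℕ) : Bp (cc p q) = sq (p:ℝ) • cc (p - 1) q := by
  induction p with
  | zero => rw [Bp_zero]; simp [sq_zero]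
  | succ p ih =>
    have h := sq_ne (show (0:ℝ) < (p:ℝ) + 1 by positivity)
    have h3 : sq ((p:ℝ) + 1) * sq ((p:ℝ) + 1) = (((p:ℝ) + 1 : ℝ) : ℂ) := sq_mul (by positivity)
    have h2 : sq ((p:ℝ) + 1) • Bp (cc (p + 1) q) = ((p:ℂ) + 1) • cc p q := by
      rw [← map_smul, cc_p, Bp_Ap, ih, map_smul]
      rcases p with _ | p
      · simp [sq_zero]
      · have h4 : sq ((p:ℝ) + 1) * sq ((p:ℝ) + 1) = (((p:ℝ) + 1 : ℝ) : ℂ) :=
          sq_mul (by positivity)
        rw [Nat.add_sub_cancel, ← cc_p, smul_smul]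
        push_cast
        rw [h4, add_smul _ _ (cc (p + 1) q), one_smul]
        push_cast; rfl
    rw [Nat.add_sub_cancel]
    push_cast
    refine smul_right_injective _ h ?_
    dsimp only
    rw [h2, smul_smul, h3]
    push_cast; rfl

theorem ip_zero_left (d : V) : ip 0 d = 0 := by
  have h := ip_smul 0 0 d
  simpa using h

theorem ip_q (q q' : ℕ) : ip (cc 0 q) (cc 0 q') = if q = q' then 1 else 0 := by
  induction q generalizing q' with
  | zero =>
    rcases q' with _ | q'
    · have h : cc 0 0 = Finsupp.single (0, 0) 1 := by rw [cc]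
      rw [h, ip_s]; simp
    · have h := sq_ne (show (0:ℝ) < (q':ℝ) + 1 by positivity)
      refine mul_left_cancel₀ h ?_
      rw [← smul_eq_mul, ← map_smul, cc_q, ← ip_Bm, Bm_cc]
      simp [sq_zero, ip_zero_left]
  | succ q ih =>
    have h := sq_ne (show (0:ℝ) < (q:ℝ) + 1 by positivity)
    refine mul_left_cancel₀ h ?_
    rw [← sq_conj, ← ip_smul, sq_conj, cc_q, ip_Am, Bm_cc, map_smul, ih, smul_eq_mul]
    rcases q' with _ | q'
    · simp [sq_zero]
    · simp only [Nat.add_sub_cancel, add_left_inj]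
      split_ifs with hq
      · rw [hq]; push_cast; ring
      · ring

theorem ip_cc (p q p' q' : ℕ) : ip (cc p q) (cc p' q') = if p = p' ∧ q = q' then 1 else 0 := by
  induction p generalizing p' with
  | zero =>
    rcases p' with _ | p'
    · rw [ip_q]; simp
    · have h := sq_ne (show (0:ℝ) < (p':ℝ) + 1 by positivity)
      refine mul_left_cancel₀ h ?_
      rw [← smul_eq_mul, ← map_smul, cc_p, ← ip_Bp, Bp_zero, ip_zero_left]
      simp
  | succ p ih =>
    have h := sq_ne (show (0:ℝ) < (p:ℝ) + 1 by positivity)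
    refine mul_left_cancel₀ h ?_
    rw [← sq_conj, ← ip_smul, sq_conj, cc_p, ip_Ap, Bp_cc, map_smul, ih, smul_eq_mul]
    rcases p' with _ | p'
    · simp [sq_zero]
    · simp only [Nat.add_sub_cancel, add_left_inj]
      split_ifs with hq
      · rw [hq.1]; push_cast; ring
      · ring

/-! ### The scalar product of the functions -/

/-- the product of two Hermite functions -/
noncomputable def HH (i : ℕ × ℕ) (x : Fin 2 → ℝ) : ℝ := Osc.h i.1 (x 0) * Osc.h i.2 (x 1)

theorem HH_mul (i j : ℕ × ℕ) (x : Fin 2 → ℝ) : HH i x * HH j x =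
    Osc.G 1 (Osc.P i.1 * Osc.P j.1) (Osc.P i.2 * Osc.P j.2) x := by
  simp only [HH, Osc.G, Osc.h, Polynomial.eval_mul, ← Osc.exp2]; ring

theorem HH_int (i j : ℕ × ℕ) : Integrable fun x => HH i x * HH j x := by
  simp only [HH_mul]
  exact Osc.G_int one_pos _ _

theorem HH_ortho (i j : ℕ × ℕ) : ∫ x, HH i x * HH j x = if i = j then 1 else 0 := by
  simp only [HH_mul]
  rw [Osc.G_eq, Osc.ortho, Osc.ortho]
  obtain ⟨a, b⟩ := i
  obtain ⟨a', b'⟩ := j
  simp only [Prod.mk.injEq]
  by_cases h1 : a = a' <;> by_cases h2 : b = b' <;> simp [h1, h2]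

theorem F_sum (x : Fin 2 → ℝ) (c : V) : F x c = ∑ i ∈ c.support, c i * ((HH i x : ℝ) : ℂ) := by
  rw [F, Finsupp.linearCombination_apply]
  rfl

theorem F_inner (c d : V) : ∫ x, conj (F x c) * F x d = ip c d := by
  have h1 : ∀ x, conj (F x c) * F x d = ∑ i ∈ c.support, ∑ j ∈ d.support,
      (conj (c i) * d j) * (((HH i x * HH j x : ℝ)) : ℂ) := by
    intro x
    rw [F_sum, F_sum, map_sum, Finset.sum_mul_sum]
    refine Finset.sum_congr rfl fun i _ => Finset.sum_congr rfl fun j _ => ?_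
    rw [map_mul, Complex.conj_ofReal]
    push_cast; ring
  have hi : ∀ i j, Integrable fun x => (conj (c i) * d j) * (((HH i x * HH j x : ℝ)) : ℂ) :=
    fun i j => (HH_int i j).ofReal.const_mul _
  simp only [h1]
  rw [integral_finsetSum _ fun i _ => integrable_finsetSum _ fun j _ => hi i j]
  have h2 : ∀ i, ∫ x, ∑ j ∈ d.support, (conj (c i) * d j) * (((HH i x * HH j x : ℝ)) : ℂ) =
      conj (c i) * d i := by
    intro i
    rw [integral_finsetSum _ fun j _ => hi i j]
    have h3 : ∀ j, ∫ x, (conj (c i) * d j) * (((HH i x * HH j x : ℝ)) : ℂ) =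
        if i = j then conj (c i) * d j else 0 := by
      intro j
      rw [integral_const_mul, integral_complex_ofReal, HH_ortho]
      split_ifs <;> simp
    simp only [h3]
    rw [Finset.sum_ite_eq]
    split_ifs with h
    · rfl
    · rw [Finsupp.notMem_support_iff.1 h, mul_zero]
  simp only [h2]
  rw [ip, Finsupp.linearCombination_apply]
  unfold Finsupp.sum
  have h4 : ∑ i ∈ c.support, conj (c i) * d i = ∑ i ∈ c.support ∪ d.support, conj (c i) * d i := by
    refine Finset.sum_subset Finset.subset_union_left fun i _ hi => ?_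
    rw [Finsupp.notMem_support_iff.1 hi]; simp
  have h5 : ∑ i ∈ d.support, d i • conj (c i) = ∑ i ∈ c.support ∪ d.support, d i • conj (c i) := by
    refine Finset.sum_subset Finset.subset_union_right fun i _ hi => ?_
    rw [Finsupp.notMem_support_iff.1 hi]; simp
  rw [h4, h5]
  refine Finset.sum_congr rfl fun i _ => ?_
  rw [smul_eq_mul]; ring

/-- **The Landau functions are orthonormal.** -/
theorem la_ortho (p q p' q' : ℕ) :
    ∫ x, conj (la p q x) * la p' q' x = if p = p' ∧ q = q' then 1 else 0 := by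
  simp only [← F_cc]
  rw [F_inner, ip_cc]

/-! ### The differential equation -/

/-- the sum of the two indices -/
noncomputable def Nn : V →ₗ[ℂ] V := Finsupp.linearCombination ℂ fun i : ℕ × ℕ =>
  Finsupp.single i ((i.1:ℂ) + i.2)

theorem Nn_s (i : ℕ × ℕ) (z : ℂ) :
    Nn (Finsupp.single i z) = Finsupp.single i (z * ((i.1:ℂ) + i.2)) := by
  rw [Nn, Finsupp.linearCombination_single, Finsupp.smul_single, smul_eq_mul]

theorem Nn_u0 (c : V) : Nn (up0 c) = up0 (Nn c) + up0 c := by
  refine ext_s (f := Nn.comp up0) (g := up0.comp Nn + up0) (fun i z => ?_) c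
  simp only [LinearMap.comp_apply, LinearMap.add_apply, up0_s, Nn_s, ← Finsupp.single_add]
  congr 1
  push_cast; ring

theorem Nn_u1 (c : V) : Nn (up1 c) = up1 (Nn c) + up1 c := by
  refine ext_s (f := Nn.comp up1) (g := up1.comp Nn + up1) (fun i z => ?_) c
  simp only [LinearMap.comp_apply, LinearMap.add_apply, up1_s, Nn_s, ← Finsupp.single_add]
  congr 1
  push_cast; ring

theorem Nn_Ap (c : V) : Nn (Ap c) = Ap (Nn c) + Ap c := by
  simp only [Ap_a, map_smul, map_add, Nn_u0, Nn_u1]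
  ext i
  simp only [Finsupp.smul_apply, Finsupp.add_apply, smul_eq_mul]
  ring

theorem Nn_Am (c : V) : Nn (Am c) = Am (Nn c) + Am c := by
  simp only [Am_a, map_smul, map_sub, map_add, Nn_u0, Nn_u1]
  ext i
  simp only [Finsupp.smul_apply, Finsupp.add_apply, Finsupp.sub_apply, smul_eq_mul]
  ring

theorem Nn_cc (p q : ℕ) : Nn (cc p q) = ((p:ℂ) + q) • cc p q := by
  induction p with
  | zero =>
    induction q with
    | zero =>
      have h : cc 0 0 = Finsupp.single (0, 0) 1 := by rw [cc]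
      rw [h, Nn_s]; simp
    | succ q ih =>
      have h := sq_ne (show (0:ℝ) < (q:ℝ) + 1 by positivity)
      refine smul_right_injective _ h ?_
      dsimp only
      rw [← map_smul, cc_q, Nn_Am, ih, map_smul, smul_comm, cc_q]
      push_cast
      ext i
      simp only [Finsupp.smul_apply, Finsupp.add_apply, smul_eq_mul]
      ring
  | succ p ih =>
    have h := sq_ne (show (0:ℝ) < (p:ℝ) + 1 by positivity)
    refine smul_right_injective _ h ?_
    dsimp only
    rw [← map_smul, cc_p, Nn_Ap, ih, map_smul, smul_comm, cc_p]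
    push_cast
    ext i
    simp only [Finsupp.smul_apply, Finsupp.add_apply, smul_eq_mul]
    ring

theorem h'_deriv (n : ℕ) (t : ℝ) :
    HasDerivAt (Osc.h' n) ((t ^ 2 - (2 * n + 1)) * Osc.h n t) t := by
  have h0 : deriv (Osc.h n) = Osc.h' n := funext fun t => (Osc.h_deriv n t).deriv
  have h1 : DifferentiableAt ℝ (Osc.h' n) t := by
    have h2 : Osc.h' n = fun t =>
        1 / √2 * (√(n:ℝ) * Osc.h (n - 1) t - √((n:ℝ) + 1) * Osc.h (n + 1) t) :=
      funext fun t => Osc.h'_eq n t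
    rw [h2]
    have h3 := (Osc.h_deriv (n - 1) t).differentiableAt
    have h4 := (Osc.h_deriv (n + 1) t).differentiableAt
    exact ((h3.const_mul _).sub (h4.const_mul _)).const_mul _
  have h2 := Osc.h_ode n t
  rw [h0] at h2
  rw [← h2]
  exact h1.hasDerivAt

theorem F_pde (c : V) (x : Fin 2 → ℝ) :
    deriv (deriv fun s => F ![s, x 1] c) (x 0) + deriv (deriv fun s => F ![x 0, s] c) (x 1) =
      ((x 0 ^ 2 + x 1 ^ 2 : ℝ) : ℂ) * F x c - 2 * F x (Nn c) - 2 * F x c := by
  have e0 : (fun s => F ![s, x 1] c) =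
      fun s => ∑ i ∈ c.support, (c i * (Osc.h i.2 (x 1) : ℂ)) * ((Osc.h i.1 s : ℝ) : ℂ) := by
    funext s
    rw [F_sum]
    refine Finset.sum_congr rfl fun i _ => ?_
    unfold HH
    simp only [Matrix.cons_val_zero, Matrix.cons_val_one]
    push_cast; ring
  have e1 : (fun s => F ![x 0, s] c) =
      fun s => ∑ i ∈ c.support, (c i * (Osc.h i.1 (x 0) : ℂ)) * ((Osc.h i.2 s : ℝ) : ℂ) := by
    funext s
    rw [F_sum]
    refine Finset.sum_congr rfl fun i _ => ?_
    unfold HH
    simp only [Matrix.cons_val_zero, Matrix.cons_val_one]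
    push_cast; ring
  have d0 : ∀ (w : ℕ × ℕ → ℂ) (k : ℕ × ℕ → ℕ) (s : ℝ),
      deriv (deriv fun s => ∑ i ∈ c.support, w i * ((Osc.h (k i) s : ℝ) : ℂ)) s =
      ∑ i ∈ c.support, w i * (((s ^ 2 - (2 * (k i) + 1)) * Osc.h (k i) s : ℝ) : ℂ) := by
    intro w k s
    have g1 : deriv (fun s => ∑ i ∈ c.support, w i * ((Osc.h (k i) s : ℝ) : ℂ)) =
        fun s => ∑ i ∈ c.support, w i * ((Osc.h' (k i) s : ℝ) : ℂ) := by
      funext s
      exact (HasDerivAt.fun_sum fun i _ =>
        ((Osc.h_deriv (k i) s).ofReal_comp.const_mul (w i))).deriv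
    rw [g1]
    exact (HasDerivAt.fun_sum fun i _ =>
      ((h'_deriv (k i) s).ofReal_comp.const_mul (w i))).deriv
  rw [e0, e1, d0, d0]
  have e2 : F x (Nn c) = ∑ i ∈ c.support, c i * ((i.1:ℂ) + i.2) * ((HH i x : ℝ) : ℂ) := by
    have h1 : Nn c = ∑ i ∈ c.support, Finsupp.single i (c i * ((i.1:ℂ) + i.2)) := by
      rw [Nn, Finsupp.linearCombination_apply]
      unfold Finsupp.sum
      refine Finset.sum_congr rfl fun i _ => ?_
      dsimp only
      rw [Finsupp.smul_single, smul_eq_mul]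
    rw [h1, map_sum]
    refine Finset.sum_congr rfl fun i _ => ?_
    rw [F_s]; rfl
  rw [e2, F_sum, Finset.mul_sum, Finset.mul_sum, Finset.mul_sum, ← Finset.sum_add_distrib,
    ← Finset.sum_sub_distrib, ← Finset.sum_sub_distrib]
  refine Finset.sum_congr rfl fun i _ => ?_
  unfold HH
  push_cast; ring

/-- **The Landau functions are eigenfunctions of the oscillator.** -/
theorem la_pde (p q : ℕ) (x : Fin 2 → ℝ) :
    deriv (deriv fun s => la p q ![s, x 1]) (x 0) + deriv (deriv fun s => la p q ![x 0, s]) (x 1) =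
      (((x 0 ^ 2 + x 1 ^ 2) - 2 * ((p:ℝ) + q + 1) : ℝ) : ℂ) * la p q x := by
  have h := F_pde (cc p q) x
  rw [Nn_cc, map_smul] at h
  simp only [F_cc, smul_eq_mul] at h
  rw [h]
  push_cast; ring

end Pool.Agent.H45.LT.Mg
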