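import Mathlib
import Pool.Agent.H45.LT.Mg4
import Pool.Agent.H45.LT.Mg5

set_option autoImplicit false

/-!
# Dilations: magnetic fields of any strength
-/

open MeasureTheory Filter Topology Real Finset
open scoped ComplexConjugate ENNReal
open LTd (Kcl)

namespace Pool.Agent.H45.LT.Mg

open Ly (Sp)
open Tr (wv lkin FamG)

variable {m : ℕ} {ι κ : Type}

theorem fr_Sp (m : ℕ) : Module.finrank ℝ (Sp m) = m + 2 := by
  rw [Module.finrank_prod, Module.finrank_fin_fun, Module.finrank_fin_fun, add_comm]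

theorem haar_Sp (m : ℕ) : (volume : Measure (Sp m)).IsAddHaarMeasure :=
  Measure.prod.instIsAddHaarMeasure volume volume

theorem lint_dil {r : ℝ} (hr : 0 < r) (f : Sp m → ℝ≥0∞) :
    ∫⁻ p, f (r • p) = ENNReal.ofReal ((r ^ (m + 2))⁻¹) * ∫⁻ p, f p := by
  have := haar_Sp m
  have h1 : ∫⁻ p, f (r • p) = ∫⁻ p, f p ∂(Measure.map (fun p : Sp m => r • p) volume) := by
    have h := (Homeomorph.smulOfNeZero r hr.ne' :
      Sp m ≃ₜ Sp m).measurableEmbedding.lintegral_map (μ := volume) f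
    exact h.symm
  rw [h1]
  have h2 := Measure.map_addHaar_smul (volume : Measure (Sp m)) hr.ne'
  rw [fr_Sp, abs_of_pos (by positivity)] at h2
  rw [h2, lintegral_smul_measure, smul_eq_mul]

theorem int_dil {r : ℝ} (hr : 0 < r) (f : Sp m → ℂ) :
    ∫ p, f (r • p) = (((r ^ (m + 2))⁻¹ : ℝ) : ℂ) * ∫ p, f p := by
  have := haar_Sp m
  have h := Measure.integral_comp_smul (volume : Measure (Sp m)) f r
  rw [fr_Sp, abs_of_pos (by positivity)] at h
  rw [h, Complex.real_smul]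

theorem int_dil_y {r : ℝ} (hr : 0 < r) (f : (Fin m → ℝ) → ℂ) :
    ∫ p, f (r • p) = (((r ^ m)⁻¹ : ℝ) : ℂ) * ∫ p, f p := by
  have h := Measure.integral_comp_smul (volume : Measure (Fin m → ℝ)) f r
  rw [Module.finrank_fin_fun, abs_of_pos (by positivity)] at h
  rw [h, Complex.real_smul]

/-- the dilation of a function -/
noncomputable def DD (r : ℝ) (u : Sp m → ℂ) (p : Sp m) : ℂ :=
  ((√(r ^ (m + 2)) : ℝ) : ℂ) * u (r • p)

theorem DD_inner {r : ℝ} (hr : 0 < r) (u v : Sp m → ℂ) :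
    ∫ p, conj (DD r u p) * DD r v p = ∫ p, conj (u p) * v p := by
  have h1 : ∀ p, conj (DD r u p) * DD r v p =
      ((r ^ (m + 2) : ℝ) : ℂ) * (conj (u (r • p)) * v (r • p)) := by
    intro p
    unfold DD
    have h2 : ((√(r ^ (m + 2)) : ℝ) : ℂ) * ((√(r ^ (m + 2)) : ℝ) : ℂ) =
        ((r ^ (m + 2) : ℝ) : ℂ) := by
      rw [← Complex.ofReal_mul, Real.mul_self_sqrt (by positivity)]
    rw [map_mul, Complex.conj_ofReal]
    linear_combination (conj (u (r • p)) * v (r • p)) * h2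
  simp only [h1]
  rw [integral_const_mul, int_dil hr fun p => conj (u p) * v p, ← mul_assoc, ← Complex.ofReal_mul,
    mul_inv_cancel₀ (by positivity), Complex.ofReal_one, one_mul]

theorem en_DD {r : ℝ} (hr : 0 < r) (u : Sp m → ℂ) (p : Sp m) :
    ‖DD r u p‖ₑ ^ 2 = ENNReal.ofReal (r ^ (m + 2)) * ‖u (r • p)‖ₑ ^ 2 := by
  rw [en_sq', en_sq', ← ENNReal.ofReal_mul (by positivity)]
  congr 1
  unfold DD
  rw [norm_mul, mul_pow, Complex.norm_real, Real.norm_eq_abs, sq_abs,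
    Real.sq_sqrt (by positivity)]

theorem density_DD {r : ℝ} (hr : 0 < r) (ν : κ → ℝ) (u : κ → Sp m → ℂ) :
    ∫⁻ p, (∑' n, ENNReal.ofReal (ν n) * ‖DD r (u n) p‖ₑ ^ 2) ^ (1 + 2 / ((m + 2 : ℕ) : ℝ)) =
    ENNReal.ofReal (r ^ 2) *
      ∫⁻ p, (∑' n, ENNReal.ofReal (ν n) * ‖u n p‖ₑ ^ 2) ^ (1 + 2 / ((m + 2 : ℕ) : ℝ)) := by
  set w : ℝ := 1 + 2 / ((m + 2 : ℕ) : ℝ) with hw
  have hw0 : 0 ≤ w := by positivity
  have h1 : ∀ p, (∑' n, ENNReal.ofReal (ν n) * ‖DD r (u n) p‖ₑ ^ 2) ^ w =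
      ENNReal.ofReal (r ^ (m + 2)) ^ w *
        (∑' n, ENNReal.ofReal (ν n) * ‖u n (r • p)‖ₑ ^ 2) ^ w := by
    intro p
    have h2 : ∀ n, ENNReal.ofReal (ν n) * ‖DD r (u n) p‖ₑ ^ 2 =
        ENNReal.ofReal (r ^ (m + 2)) * (ENNReal.ofReal (ν n) * ‖u n (r • p)‖ₑ ^ 2) := by
      intro n
      rw [en_DD hr]; ring
    simp only [h2]
    rw [ENNReal.tsum_mul_left, ENNReal.mul_rpow_of_nonneg _ _ hw0]
  simp only [h1]
  have hfin : ENNReal.ofReal (r ^ (m + 2)) ^ w ≠ ⊤ :=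
    ENNReal.rpow_ne_top_of_nonneg hw0 ENNReal.ofReal_ne_top
  rw [lintegral_const_mul' _ _ hfin,
    lint_dil hr fun p => (∑' n, ENNReal.ofReal (ν n) * ‖u n p‖ₑ ^ 2) ^ w, ← mul_assoc]
  congr 1
  rw [ENNReal.ofReal_rpow_of_pos (by positivity), ← ENNReal.ofReal_mul (by positivity)]
  congr 1
  have h3 : (r ^ (m + 2)) ^ w = r ^ (m + 4) := by
    rw [← Real.rpow_natCast r (m + 2), ← Real.rpow_mul hr.le, ← Real.rpow_natCast r (m + 4)]
    congr 1
    rw [hw]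
    have h4 : ((m + 2 : ℕ) : ℝ) ≠ 0 := by positivity
    field_simp
    push_cast; ring
  rw [h3]
  field_simp
  ring

theorem lkin_DD {r : ℝ} (hr : 0 < r) {u : Sp m → ℂ} (hu : Differentiable ℝ u) :
    lkin (DD r u) = ENNReal.ofReal (r ^ 2) * lkin u := by
  have hd : ∀ p v, ‖fderiv ℝ (DD r u) p v‖ₑ ^ 2 =
      ENNReal.ofReal (r ^ (m + 2)) * ENNReal.ofReal (r ^ 2) * ‖fderiv ℝ u (r • p) v‖ₑ ^ 2 := by
    intro p v
    have h1 : HasFDerivAt (DD r u) (((√(r ^ (m + 2)) : ℝ) : ℂ) • (r • fderiv ℝ u (r • p))) p := by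
      have h2 : DifferentiableAt ℝ (fun p => u (r • p)) p :=
        (hu (r • p)).comp p (differentiableAt_id.const_smul r)
      have h3 := h2.hasFDerivAt.const_smul (((√(r ^ (m + 2)) : ℝ) : ℂ))
      rw [fderiv_comp_smul] at h3
      exact h3
    rw [h1.fderiv]
    simp only [ContinuousLinearMap.smul_apply, smul_eq_mul, Complex.real_smul]
    rw [en_sq', en_sq', ← ENNReal.ofReal_mul (by positivity), ← ENNReal.ofReal_mul (by positivity)]
    congr 1
    rw [norm_mul, norm_mul, Complex.norm_real, Complex.norm_real, Real.norm_eq_abs,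
      Real.norm_eq_abs, mul_pow, mul_pow, sq_abs, sq_abs, Real.sq_sqrt (by positivity)]
    ring
  unfold lkin
  simp only [hd]
  have h2 : ∀ p : Sp m, (∑ q : Fin 2, ENNReal.ofReal (r ^ (m + 2)) * ENNReal.ofReal (r ^ 2) *
      ‖fderiv ℝ u (r • p) (Pi.single q 1, 0)‖ₑ ^ 2) + ∑ q : Fin m, ENNReal.ofReal (r ^ (m + 2)) *
      ENNReal.ofReal (r ^ 2) * ‖fderiv ℝ u (r • p) (0, Pi.single q 1)‖ₑ ^ 2 =
      ENNReal.ofReal (r ^ (m + 2)) * ENNReal.ofReal (r ^ 2) *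
      ((∑ q : Fin 2, ‖fderiv ℝ u (r • p) (Pi.single q 1, 0)‖ₑ ^ 2) +
        ∑ q : Fin m, ‖fderiv ℝ u (r • p) (0, Pi.single q 1)‖ₑ ^ 2) := by
    intro p
    rw [← mul_sum, ← mul_sum, mul_add]
  simp only [h2]
  rw [lintegral_const_mul' _ _ (ENNReal.mul_ne_top ENNReal.ofReal_ne_top ENNReal.ofReal_ne_top),
    lint_dil hr fun p => ((∑ q : Fin 2, ‖fderiv ℝ u p (Pi.single q 1, 0)‖ₑ ^ 2) +
      ∑ q : Fin m, ‖fderiv ℝ u p (0, Pi.single q 1)‖ₑ ^ 2), ← mul_assoc]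
  congr 1
  rw [mul_right_comm, ← ENNReal.ofReal_mul (by positivity), mul_inv_cancel₀ (by positivity),
    ENNReal.ofReal_one, one_mul]

/-- the dilation of the functions in the other variables -/
noncomputable def ed (r : ℝ) (e : ι → (Fin m → ℝ) → ℂ) (j : ι) (y : Fin m → ℝ) : ℂ :=
  (((√(r ^ m))⁻¹ : ℝ) : ℂ) * e j (r⁻¹ • y)

variable [DecidableEq ι]

theorem ed_fam {e : ι → (Fin m → ℝ) → ℂ} (F : FamG e) {r : ℝ} (hr : 0 < r) : FamG (ed r e) := by
  have hr' : 0 < r⁻¹ := inv_pos.2 hr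
  refine ⟨fun j => ?_, fun j => ?_, fun j q => ?_, fun i j => ?_⟩
  · exact contDiff_const.mul ((F.cd j).comp (contDiff_const_smul r⁻¹))
  · have h1 := ((F.L2 j).comp_smul hr'.ne').const_mul (((√(r ^ m))⁻¹) ^ 2)
    refine h1.congr (ae_of_all _ fun y => ?_)
    dsimp only [ed]
    rw [norm_mul, mul_pow, Complex.norm_real, Real.norm_eq_abs, sq_abs]
  · have h1 := ((F.dL2 j q).comp_smul hr'.ne').const_mul (((√(r ^ m))⁻¹) ^ 2 * (r⁻¹) ^ 2)
    refine h1.congr (ae_of_all _ fun y => ?_)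
    have h4 : HasFDerivAt (ed r e j)
        ((((√(r ^ m))⁻¹ : ℝ) : ℂ) • (r⁻¹ • fderiv ℝ (e j) (r⁻¹ • y))) y := by
      have h2 : DifferentiableAt ℝ (fun y => e j (r⁻¹ • y)) y :=
        ((F.cd j).differentiable (by norm_num) (r⁻¹ • y)).comp y
          (differentiableAt_id.const_smul r⁻¹)
      have h3 := h2.hasFDerivAt.const_smul ((((√(r ^ m))⁻¹ : ℝ) : ℂ))
      rw [fderiv_comp_smul] at h3
      exact h3
    dsimp only
    rw [h4.fderiv]
    simp only [ContinuousLinearMap.smul_apply, smul_eq_mul, Complex.real_smul]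
    rw [norm_mul, norm_mul, Complex.norm_real, Complex.norm_real, Real.norm_eq_abs,
      Real.norm_eq_abs, mul_pow, mul_pow, sq_abs, sq_abs]
    ring
  · have h1 : ∀ y, conj (ed r e i y) * ed r e j y =
        (((r ^ m)⁻¹ : ℝ) : ℂ) * (conj (e i (r⁻¹ • y)) * e j (r⁻¹ • y)) := by
      intro y
      unfold ed
      have h2 : (((√(r ^ m))⁻¹ : ℝ) : ℂ) * (((√(r ^ m))⁻¹ : ℝ) : ℂ) =
          (((r ^ m)⁻¹ : ℝ) : ℂ) := by
        rw [← Complex.ofReal_mul, ← mul_inv, Real.mul_self_sqrt (by positivity)]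
      rw [map_mul, Complex.conj_ofReal]
      linear_combination (conj (e i (r⁻¹ • y)) * e j (r⁻¹ • y)) * h2
    simp only [h1]
    rw [integral_const_mul, int_dil_y hr' fun y => conj (e i y) * e j y, F.ortho, ← mul_assoc,
      ← Complex.ofReal_mul]
    have h3 : (r ^ m)⁻¹ * (r⁻¹ ^ m)⁻¹ = 1 := by
      rw [inv_pow, inv_inv, inv_mul_cancel₀ (by positivity)]
    rw [h3, Complex.ofReal_one, one_mul]

/-! ### The Landau functions for the field `b` -/

/-- the Landau functions -/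
noncomputable def lab (b : ℝ) (p q : ℕ) (x : Fin 2 → ℝ) : ℂ :=
  ((√(b / (π * p.factorial * q.factorial)) : ℝ) : ℂ) * kk p q (√b * zz x) (√b * zb x) *
    ((Real.exp (-(b / 2 * (x 0 ^ 2 + x 1 ^ 2))) : ℝ) : ℂ)

theorem lab_eq {b : ℝ} (hb : 0 < b) (p q : ℕ) (x : Fin 2 → ℝ) :
    lab b p q x = (√b : ℂ) * la p q (√b • x) := by
  unfold lab la
  have h1 : √(b / (π * p.factorial * q.factorial)) = √b * nn p q := by
    unfold nn
    rw [Real.sqrt_div hb.le, mul_one_div]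
  have h2 : zz (√b • x) = √b * zz x := by
    unfold zz
    simp only [Pi.smul_apply, smul_eq_mul]
    push_cast; ring
  have h3 : zb (√b • x) = √b * zb x := by
    unfold zb
    simp only [Pi.smul_apply, smul_eq_mul]
    push_cast; ring
  have h4 : -((√b • x) 0 ^ 2 + (√b • x) 1 ^ 2) / 2 = -(b / 2 * (x 0 ^ 2 + x 1 ^ 2)) := by
    simp only [Pi.smul_apply, smul_eq_mul, mul_pow, Real.sq_sqrt hb.le]
    ring
  rw [h1, h2, h3, h4]
  push_cast; ring

/-- the sums of the products -/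
noncomputable def wb (b : ℝ) (e : ι → (Fin m → ℝ) → ℂ) (c : ℕ × ℕ × ι →₀ ℂ) (p : Sp m) : ℂ :=
  c.sum fun i z => z * lab b i.1 i.2.1 p.1 * e i.2.2 p.2

omit [DecidableEq ι] in
theorem wb_eq {b : ℝ} (hb : 0 < b) (e : ι → (Fin m → ℝ) → ℂ) (c : ℕ × ℕ × ι →₀ ℂ) :
    wb b e c = DD √b (lw (ed √b e) c) := by
  funext p
  have hr : 0 < √b := Real.sqrt_pos.2 hb
  unfold wb DD lw Finsupp.sum
  rw [mul_sum]
  refine sum_congr rfl fun i _ => ?_
  unfold ed
  dsimp only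
  rw [lab_eq hb, Prod.smul_fst, Prod.smul_snd, smul_smul, inv_mul_cancel₀ hr.ne', one_smul]
  have h1 : ((√(√b ^ (m + 2)) : ℝ) : ℂ) * (((√(√b ^ m))⁻¹ : ℝ) : ℂ) = (√b : ℂ) := by
    rw [← Complex.ofReal_mul]
    congr 1
    have h2 : √b ^ (m + 2) = √b ^ m * (√b) ^ 2 := pow_add _ _ _
    have h3 : 0 < √(√b ^ m) := Real.sqrt_pos.2 (by positivity)
    rw [h2, Real.sqrt_mul (by positivity), Real.sqrt_sq hr.le]
    field_simp
  linear_combination (-(c i * la i.1 i.2.1 (√b • p.1) * e i.2.2 p.2)) * h1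

variable [DecidableEq κ]

/-- **Stationary states in a homogeneous magnetic field and a harmonic trap.** -/
theorem mag_b [Countable κ] {b : ℝ} (hb : 0 < b) (Ω : ℝ) {e : ι → (Fin m → ℝ) → ℂ} {g : ι → ℝ}
    {c : κ → (ℕ × ℕ × ι →₀ ℂ)} {ν : κ → ℝ} (F : FamG e)
    (ho : ∀ n n', ∫ p, conj (wb b e (c n) p) * wb b e (c n') p = if n = n' then 1 else 0)
    (hν : ∀ n, 0 ≤ ν n ∧ ν n ≤ 1)
    (hE : ∀ n, ∃ E : ℝ, ∀ i ∈ (c n).support,
      b * (((i.1 : ℝ) + i.2.1) + Ω * ((i.1 : ℝ) - i.2.1)) + g i.2.2 = E) :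
    ENNReal.ofReal (Kcl (m + 2)) * ∫⁻ p,
      (∑' n, ENNReal.ofReal (ν n) * ‖wb b e (c n) p‖ₑ ^ 2) ^ (1 + 2 / ((m + 2 : ℕ) : ℝ)) ≤
    ∑' n, ENNReal.ofReal (ν n) * lkin (wb b e (c n)) := by
  have hr : 0 < √b := Real.sqrt_pos.2 hb
  have Fe := ed_fam F hr
  have ho' : ∀ n n', ∫ p, conj (bw Ω (ed √b e) (c n) 0 p) * bw Ω (ed √b e) (c n') 0 p =
      if n = n' then 1 else 0 := by
    intro n n'
    rw [← ho n n', wb_eq hb, wb_eq hb, DD_inner hr, bw_zero, bw_zero]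
  have h := mag_stat Ω (g := fun j => g j / b) Fe ho' hν (fun n => by
    obtain ⟨E, hE⟩ := hE n
    refine ⟨E / b, fun i hi => ?_⟩
    rw [← hE i hi]
    field_simp)
  simp only [bw_zero] at h
  have hdiff : ∀ n, Differentiable ℝ (lw (ed √b e) (c n)) := fun n => by
    rw [← wv_zero]
    exact Tr.wv_diff Fe _ _
  simp only [wb_eq hb]
  rw [density_DD hr]
  have h2 : ∀ n, ENNReal.ofReal (ν n) * lkin (DD √b (lw (ed √b e) (c n))) =
      ENNReal.ofReal (√b ^ 2) * (ENNReal.ofReal (ν n) * lkin (lw (ed √b e) (c n))) := by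
    intro n
    rw [lkin_DD hr (hdiff n)]; ring
  simp only [h2]
  rw [ENNReal.tsum_mul_left, mul_left_comm]
  exact mul_le_mul_right h _

/-! ### Facts on the Landau functions -/

theorem lab_rot {b : ℝ} (hb : 0 < b) (p q : ℕ) (θ : ℝ) (x : Fin 2 → ℝ) :
    lab b p q (rot θ x) = Complex.exp (((p:ℂ) - q) * θ * Complex.I) * lab b p q x := by
  have h : √b • rot θ x = rot θ (√b • x) := by
    rw [← rotL_apply, ← rotL_apply, map_smul]
  rw [lab_eq hb, lab_eq hb, h, la_rot]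
  ring

theorem lab_ortho {b : ℝ} (hb : 0 < b) (p q p' q' : ℕ) :
    ∫ x, conj (lab b p q x) * lab b p' q' x = if p = p' ∧ q = q' then 1 else 0 := by
  have hr : 0 < √b := Real.sqrt_pos.2 hb
  have h1 : ∀ x, conj (lab b p q x) * lab b p' q' x =
      ((b : ℝ) : ℂ) * (conj (la p q (√b • x)) * la p' q' (√b • x)) := by
    intro x
    rw [lab_eq hb, lab_eq hb, map_mul, Complex.conj_ofReal]
    have h2 : (√b : ℂ) * (√b : ℂ) = ((b : ℝ) : ℂ) := by
      rw [← Complex.ofReal_mul, Real.mul_self_sqrt hb.le]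
    linear_combination (conj (la p q (√b • x)) * la p' q' (√b • x)) * h2
  simp only [h1]
  rw [integral_const_mul, int_dil_y hr fun x => conj (la p q x) * la p' q' x, la_ortho,
    ← mul_assoc, ← Complex.ofReal_mul, Real.sq_sqrt hb.le, mul_inv_cancel₀ hb.ne',
    Complex.ofReal_one, one_mul]

theorem lab_pde {b : ℝ} (hb : 0 < b) (p q : ℕ) (x : Fin 2 → ℝ) :
    deriv (deriv fun s => lab b p q ![s, x 1]) (x 0) +
      deriv (deriv fun s => lab b p q ![x 0, s]) (x 1) =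
      ((b ^ 2 * (x 0 ^ 2 + x 1 ^ 2) - 2 * b * ((p:ℝ) + q + 1) : ℝ) : ℂ) * lab b p q x := by
  have key : ∀ (f : ℝ → ℂ) (t : ℝ), deriv (deriv fun s => (√b : ℂ) * f (√b * s)) t =
      (√b : ℂ) * (b * deriv (deriv f) (√b * t)) := by
    intro f t
    have h1 : (deriv fun s => (√b : ℂ) * f (√b * s)) =
        fun s => (√b : ℂ) * (√b : ℂ) * deriv f (√b * s) := by
      funext s
      rw [deriv_const_mul_field, deriv_comp_mul_left, Complex.real_smul, mul_assoc]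
    rw [h1, deriv_const_mul_field, deriv_comp_mul_left, Complex.real_smul]
    have h2 : (√b : ℂ) * (√b : ℂ) = ((b : ℝ) : ℂ) := by
      rw [← Complex.ofReal_mul, Real.mul_self_sqrt hb.le]
    linear_combination ((√b : ℂ) * deriv (deriv f) (√b * t)) * h2
  have e0 : (fun s => lab b p q ![s, x 1]) =
      fun s => (√b : ℂ) * la p q ![√b * s, (√b • x) 1] := by
    funext s
    rw [lab_eq hb]
    congr 2
    funext i
    fin_cases i <;> simp
  have e1 : (fun s => lab b p q ![x 0, s]) =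
      fun s => (√b : ℂ) * la p q ![(√b • x) 0, √b * s] := by
    funext s
    rw [lab_eq hb]
    congr 2
    funext i
    fin_cases i <;> simp
  have h := la_pde p q (√b • x)
  have k0 := key (fun s => la p q ![s, (√b • x) 1]) (x 0)
  have k1 := key (fun s => la p q ![(√b • x) 0, s]) (x 1)
  rw [e0, e1, k0, k1, lab_eq hb]
  have h3 : (√b • x) 0 = √b * x 0 := rfl
  have h4 : (√b • x) 1 = √b * x 1 := rfl
  rw [h3, h4, mul_pow, mul_pow, Real.sq_sqrt hb.le] at h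
  rw [h3, h4]
  push_cast at h ⊢
  linear_combination ((√b : ℂ) * b) * h

end Pool.Agent.H45.LT.Mg
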