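import Mathlib
import Pool.Agent.H45.LT.Red4

set_option autoImplicit false

/-!
# The kinetic inequality for a reduced density matrix, the limit
-/

open MeasureTheory Set Topology Real
open Filter hiding join
open Pool.Agent.N674.LT (join join_zero join_cons)
open LTd (slice_cont slice_int pd pd_basic bco pp core)

namespace Pool.Agent.H45.LT

/-- the partial integral in the longitudinal variable -/
theorem Fy {m k : ℕ} {w : (Fin (m + k) → ℝ) → ℝ} (hw : Continuous w) (hc : HasCompactSupport w)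
    {f : (Fin k → ℝ) → ℝ} (hf : Continuous f) :
    Continuous (fun y : Fin m → ℝ => ∫ t : Fin k → ℝ, f t * w (join t y)) ∧
    HasCompactSupport (fun y : Fin m → ℝ => ∫ t : Fin k → ℝ, f t * w (join t y)) := by
  obtain ⟨-, -, -, -, M, hM1, hM2⟩ := joinslice hw hc
  constructor
  · have h2 : (fun y : Fin m → ℝ => ∫ t : Fin k → ℝ, f t * w (join t y)) =
        fun y => ∫ t in Metric.closedBall (0 : Fin k → ℝ) M, f t * w (join t y) := by
      funext y
      refine (setIntegral_eq_integral_of_forall_compl_eq_zero fun t ht => ?_).symm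
      rw [mem_closedBall_zero_iff, not_le] at ht
      rw [hM1 t y ht, mul_zero]
    rw [h2]
    refine continuous_parametric_integral_of_continuous
      (f := fun (y : Fin m → ℝ) (t : Fin k → ℝ) => f t * w (join t y)) ?_
      (isCompact_closedBall 0 M)
    exact (hf.comp continuous_snd).mul (hw.comp (join_cont.comp continuous_swap))
  · refine HasCompactSupport.intro (isCompact_closedBall 0 M) fun y hy => ?_
    rw [mem_closedBall_zero_iff, not_le] at hy
    simp only [hM2 _ y hy, mul_zero, integral_zero]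

/-- exchange of the integrations -/
theorem swap {m k : ℕ} {w : (Fin (m + k) → ℝ) → ℝ} (hw : Continuous w) (hc : HasCompactSupport w)
    {f : (Fin k → ℝ) → ℝ} (hf : Continuous f) {b : (Fin m → ℝ) → ℝ} (hb : MemLp b 2 volume) :
    ∫ t : Fin k → ℝ, f t * ∫ y : Fin m → ℝ, w (join t y) * b y =
      ∫ y : Fin m → ℝ, (∫ t : Fin k → ℝ, f t * w (join t y)) * b y := by
  obtain ⟨-, -, -, -, M, hM1, hM2⟩ := joinslice hw hc
  obtain ⟨C, hC⟩ := hc.exists_bound_of_continuous hw
  have hC0 : 0 ≤ C := (norm_nonneg _).trans (hC 0)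
  have hint : Integrable (Function.uncurry fun (t : Fin k → ℝ) (y : Fin m → ℝ) =>
      f t * (w (join t y) * b y)) ((volume : Measure (Fin k → ℝ)).prod volume) := by
    have h1 : Integrable (fun t : Fin k → ℝ => (Metric.closedBall (0 : Fin k → ℝ) M).indicator
        (fun t => |f t|) t) := by
      rw [integrable_indicator_iff measurableSet_closedBall]
      exact (hf.abs.continuousOn).integrableOn_compact (isCompact_closedBall 0 M)
    have h2 := h1.mul_prod (ball_integrable hb C M)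
    refine h2.mono' ?_ (Eventually.of_forall fun q => ?_)
    · have h3 : AEStronglyMeasurable (fun q : (Fin k → ℝ) × (Fin m → ℝ) => b q.2)
          ((volume : Measure (Fin k → ℝ)).prod volume) := hb.1.comp_snd
      exact ((hf.comp continuous_fst).aestronglyMeasurable).mul
        (((hw.comp join_cont).aestronglyMeasurable).mul h3)
    · obtain ⟨t, y⟩ := q
      show ‖f t * (w (join t y) * b y)‖ ≤ _
      by_cases ht : M < ‖t‖
      · rw [hM1 t y ht, zero_mul, mul_zero, norm_zero]
        refine mul_nonneg ?_ ?_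
        · exact Set.indicator_nonneg (fun _ _ => abs_nonneg _) _
        · exact Set.indicator_nonneg (fun _ _ => mul_nonneg hC0 (abs_nonneg _)) _
      · by_cases hy : M < ‖y‖
        · rw [hM2 t y hy, zero_mul, mul_zero, norm_zero]
          refine mul_nonneg ?_ ?_
          · exact Set.indicator_nonneg (fun _ _ => abs_nonneg _) _
          · exact Set.indicator_nonneg (fun _ _ => mul_nonneg hC0 (abs_nonneg _)) _
        · have e1 : (Metric.closedBall (0 : Fin k → ℝ) M).indicator (fun t => |f t|) t = |f t| :=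
            Set.indicator_of_mem (by rw [mem_closedBall_zero_iff]; exact not_lt.1 ht) _
          have e2 : (Metric.closedBall (0 : Fin m → ℝ) M).indicator (fun y => C * |b y|) y =
              C * |b y| :=
            Set.indicator_of_mem (by rw [mem_closedBall_zero_iff]; exact not_lt.1 hy) _
          dsimp only
          rw [e1, e2, norm_mul, norm_mul, Real.norm_eq_abs, Real.norm_eq_abs (b y)]
          exact mul_le_mul_of_nonneg_left (mul_le_mul_of_nonneg_right (hC _) (abs_nonneg _))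
            (abs_nonneg _)
  have h := integral_integral_swap hint
  have e1 : ∀ t : Fin k → ℝ, f t * ∫ y : Fin m → ℝ, w (join t y) * b y =
      ∫ y : Fin m → ℝ, f t * (w (join t y) * b y) := fun t => (integral_const_mul _ _).symm
  have e2 : ∀ y : Fin m → ℝ, (∫ t : Fin k → ℝ, f t * w (join t y)) * b y =
      ∫ t : Fin k → ℝ, f t * (w (join t y) * b y) := by
    intro y
    rw [← integral_mul_const]
    refine integral_congr_ae (Eventually.of_forall fun t => ?_)
    dsimp only
    ring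
  simp_rw [e1, e2]
  exact h

/-- the inequality for finitely many basis functions -/
theorem claim_fin {m K n : ℕ} (w : Fin n → (Fin (m + (K + 1)) → ℝ) → ℝ)
    (hw : ∀ i, ContDiff ℝ 1 (w i)) (hc : ∀ i, HasCompactSupport (w i)) {Λ : ℝ} (hΛ : 0 < Λ)
    (hR : ∀ f : (Fin (K + 1) → ℝ) → ℝ, Continuous f → HasCompactSupport f →
      ∑ i, ∫ y : Fin m → ℝ, (∫ t, f t * w i (join t y)) ^ 2 ≤ Λ * ∫ x, f x ^ 2)
    {ι : Type} (b : ι → (Fin m → ℝ) → ℝ) (hb : ∀ i, MemLp (b i) 2 volume)
    (hP : ∀ f : (Fin m → ℝ) → ℝ, MemLp f 2 volume →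
      HasSum (fun i => (∫ y, f y * b i y) ^ 2) (∫ y, f y ^ 2)) (s : Finset ι) :
    bco (K / 2) (3 / 2) (π ^ 2 / 4) * ∫ t : Fin (K + 1) → ℝ,
        (∑ j, ∑ i ∈ s, (∫ y, w j (join t y) * b i y) ^ 2) ^ pp (3 / 2 + K / 2) ≤
      Λ ^ (pp (3 / 2 + K / 2) - 1) * ∫ t : Fin (K + 1) → ℝ, ∑ l, ∑ j,
        ∫ y : Fin m → ℝ, pd (emb l) (w j) (join t y) ^ 2 := by
  have hL2 : ∀ {g : (Fin m → ℝ) → ℝ}, Continuous g → HasCompactSupport g → MemLp g 2 volume :=
    fun h1 h2 => h1.memLp_of_hasCompactSupport h2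
  have hpar := fun (j : Fin n) (i : ι) => par (hw j) (hc j) (hb i)
  have h := coreD (K := K) (α := Fin n × s)
    (fun q t => ∫ y, w q.1 (join t y) * b q.2 y) (fun q => (hpar q.1 q.2).1)
    (fun q => (hpar q.1 q.2).2.1) hΛ (by
      intro f hf hfs
      rw [Fintype.sum_prod_type]
      refine le_trans (Finset.sum_le_sum fun j _ => ?_) (hR f hf hfs)
      have hF := Fy (hw j).continuous (hc j) hf
      have h1 : ∀ i : s, ∫ t : Fin (K + 1) → ℝ, f t * ∫ y : Fin m → ℝ, w j (join t y) * b i y =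
          ∫ y : Fin m → ℝ, (∫ t : Fin (K + 1) → ℝ, f t * w j (join t y)) * b i y := fun i =>
        swap (hw j).continuous (hc j) hf (hb i)
      simp only [h1]
      have h2 := hP _ (hL2 hF.1 hF.2)
      rw [Finset.sum_coe_sort s (fun i => (∫ y : Fin m → ℝ,
        (∫ t : Fin (K + 1) → ℝ, f t * w j (join t y)) * b i y) ^ 2)]
      exact sum_le_hasSum s (fun i _ => sq_nonneg _) h2)
  have e1 : ∀ t : Fin (K + 1) → ℝ, ∑ q : Fin n × s, (∫ y, w q.1 (join t y) * b q.2 y) ^ 2 =
      ∑ j, ∑ i ∈ s, (∫ y, w j (join t y) * b i y) ^ 2 := by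
    intro t
    rw [Fintype.sum_prod_type]
    refine Finset.sum_congr rfl fun j _ => ?_
    exact Finset.sum_coe_sort s (fun i => (∫ y, w j (join t y) * b i y) ^ 2)
  simp only [e1] at h
  refine h.trans (mul_le_mul_of_nonneg_left ?_ (Real.rpow_nonneg hΛ.le _))
  -- the kinetic energies
  have hpd : ∀ (l : Fin (K + 1)) (j : Fin n), Continuous (pd (emb (m := m) l) (w j)) ∧
      HasCompactSupport (pd (emb (m := m) l) (w j)) := fun l j => pd_basic (hw j) (hc j) _
  have hsq : ∀ {d : ℕ} {g : (Fin d → ℝ) → ℝ}, HasCompactSupport g →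
      HasCompactSupport fun z => g z ^ 2 := fun h =>
    h.comp_left (g := fun t : ℝ => t ^ 2) (by norm_num)
  have hS := fun (l : Fin (K + 1)) (j : Fin n) =>
    joinslice (((hpd l j).1).pow 2) (hsq (hpd l j).2)
  refine integral_mono ?_ ?_ fun t => ?_
  · refine integrable_finsetSum _ fun l _ => integrable_finsetSum _ fun q _ => ?_
    have h3 := pd_basic (hpar q.1 q.2).1 (hpar q.1 q.2).2.1 l
    exact (h3.1.pow 2).integrable_of_hasCompactSupport (hsq h3.2)
  · refine integrable_finsetSum _ fun l _ => integrable_finsetSum _ fun j _ => ?_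
    exact (hS l j).1.integrable_of_hasCompactSupport (hS l j).2.1
  · refine Finset.sum_le_sum fun l _ => ?_
    rw [Fintype.sum_prod_type]
    refine Finset.sum_le_sum fun j _ => ?_
    have h3 : ∀ i : s, pd l (fun t : Fin (K + 1) → ℝ => ∫ y, w j (join t y) * b i y) t =
        ∫ y, pd (emb l) (w j) (join t y) * b i y := fun i => (hpar j i).2.2 l t
    show ∑ i : s, pd l (fun t : Fin (K + 1) → ℝ => ∫ y, w j (join t y) * b i y) t ^ 2 ≤ _
    simp only [h3]
    have h4 := joinslice (hpd l j).1 (hpd l j).2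
    have h5 := hP _ (hL2 (h4.2.2.1 t) (h4.2.2.2.1 t))
    rw [Finset.sum_coe_sort s (fun i => (∫ y, pd (emb l) (w j) (join t y) * b i y) ^ 2)]
    exact sum_le_hasSum s (fun i _ => sq_nonneg _) h5

/-- **The kinetic inequality for a reduced density matrix.** -/
theorem claim {m K n : ℕ} (w : Fin n → (Fin (m + (K + 1)) → ℝ) → ℝ)
    (hw : ∀ i, ContDiff ℝ 1 (w i)) (hc : ∀ i, HasCompactSupport (w i)) {Λ : ℝ} (hΛ : 0 < Λ)
    (hR : ∀ f : (Fin (K + 1) → ℝ) → ℝ, Continuous f → HasCompactSupport f →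
      ∑ i, ∫ y : Fin m → ℝ, (∫ t, f t * w i (join t y)) ^ 2 ≤ Λ * ∫ x, f x ^ 2) :
    bco (K / 2) (3 / 2) (π ^ 2 / 4) * ∫ t : Fin (K + 1) → ℝ,
        (∑ j, ∫ y : Fin m → ℝ, w j (join t y) ^ 2) ^ pp (3 / 2 + K / 2) ≤
      Λ ^ (pp (3 / 2 + K / 2) - 1) * ∫ t : Fin (K + 1) → ℝ, ∑ l, ∑ j,
        ∫ y : Fin m → ℝ, pd (emb l) (w j) (join t y) ^ 2 := by
  obtain ⟨ι, hι, b, hb, hP⟩ := basis m
  set p : ℝ := pp (3 / 2 + (K:ℝ) / 2) with hp
  have hp0 : 0 < p := lt_trans zero_lt_one (pp_gt K)
  have hsq : ∀ {d : ℕ} {g : (Fin d → ℝ) → ℝ}, HasCompactSupport g →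
      HasCompactSupport fun z => g z ^ 2 := fun h =>
    h.comp_left (g := fun t : ℝ => t ^ 2) (by norm_num)
  have hS := fun (j : Fin n) => joinslice (((hw j).continuous).pow 2) (hsq (hc j))
  have hT := fun (j : Fin n) => joinslice (hw j).continuous (hc j)
  have hpar := fun (j : Fin n) (i : ι) => par (hw j) (hc j) (hb i)
  obtain ⟨s, hs⟩ := exists_seq_tendsto (atTop : Filter (Finset ι))
  -- the limit of the densities
  have hlim : ∀ t : Fin (K + 1) → ℝ, Tendsto (fun N => ∑ j, ∑ i ∈ s N,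
      (∫ y, w j (join t y) * b i y) ^ 2) atTop (𝓝 (∑ j, ∫ y : Fin m → ℝ, w j (join t y) ^ 2)) := by
    intro t
    refine tendsto_finsetSum _ fun j _ => ?_
    have h1 := hP _ (((hT j).2.2.1 t).memLp_of_hasCompactSupport ((hT j).2.2.2.1 t))
    have h2 : Tendsto (fun s : Finset ι => ∑ i ∈ s, (∫ y, w j (join t y) * b i y) ^ 2) atTop
        (𝓝 (∫ y : Fin m → ℝ, w j (join t y) ^ 2)) := by
      simpa [HasSum] using h1
    exact h2.comp hs
  have hle : ∀ (t : Fin (K + 1) → ℝ) N, ∑ j, ∑ i ∈ s N,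
      (∫ y, w j (join t y) * b i y) ^ 2 ≤ ∑ j, ∫ y : Fin m → ℝ, w j (join t y) ^ 2 := by
    intro t N
    refine Finset.sum_le_sum fun j _ => ?_
    have h1 := hP _ (((hT j).2.2.1 t).memLp_of_hasCompactSupport ((hT j).2.2.2.1 t))
    exact sum_le_hasSum _ (fun i _ => sq_nonneg _) h1
  have hρc : Continuous fun t : Fin (K + 1) → ℝ =>
      (∑ j, ∫ y : Fin m → ℝ, w j (join t y) ^ 2) ^ p :=
    (continuous_finsetSum _ fun j _ => (hS j).1).rpow_const fun _ => Or.inr hp0.le
  have hρs : HasCompactSupport fun t : Fin (K + 1) → ℝ =>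
      (∑ j, ∫ y : Fin m → ℝ, w j (join t y) ^ 2) ^ p := by
    refine HasCompactSupport.intro (isCompact_iUnion fun j => (hS j).2.1) fun t ht => ?_
    have h1 : ∀ j, ∫ y : Fin m → ℝ, w j (join t y) ^ 2 = 0 := fun j =>
      image_eq_zero_of_notMem_tsupport
        (f := fun t : Fin (K + 1) → ℝ => ∫ y : Fin m → ℝ, w j (join t y) ^ 2)
        fun h => ht (Set.mem_iUnion.2 ⟨j, h⟩)
    simp only [h1, Finset.sum_const_zero]
    exact Real.zero_rpow hp0.ne'
  have hconv : Tendsto (fun N => ∫ t : Fin (K + 1) → ℝ, (∑ j, ∑ i ∈ s N,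
      (∫ y, w j (join t y) * b i y) ^ 2) ^ p) atTop (𝓝 (∫ t : Fin (K + 1) → ℝ,
        (∑ j, ∫ y : Fin m → ℝ, w j (join t y) ^ 2) ^ p)) := by
    refine tendsto_integral_of_dominated_convergence _ (fun N => ?_)
      (hρc.integrable_of_hasCompactSupport hρs) (fun N => Eventually.of_forall fun t => ?_)
      (Eventually.of_forall fun t => ?_)
    · refine Continuous.aestronglyMeasurable ?_
      refine Continuous.rpow_const ?_ fun _ => Or.inr hp0.le
      exact continuous_finsetSum _ fun j _ => continuous_finsetSum _ fun i _ =>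
        (hpar j i).1.continuous.pow 2
    · rw [Real.norm_eq_abs, abs_of_nonneg (Real.rpow_nonneg
        (Finset.sum_nonneg fun j _ => Finset.sum_nonneg fun i _ => sq_nonneg _) _)]
      exact Real.rpow_le_rpow
        (Finset.sum_nonneg fun j _ => Finset.sum_nonneg fun i _ => sq_nonneg _) (hle t N) hp0.le
    · exact (hlim t).rpow_const (Or.inr hp0.le)
  refine le_of_tendsto (hconv.const_mul _) (Eventually.of_forall fun N => ?_)
  exact claim_fin w hw hc hΛ hR b hb hP (s N)

end Pool.Agent.H45.LT
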