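import Mathlib
import Pool.Agent.H45.LT.Red5
import Pool.Graph.R_pool_sql_team_seeded_63374d34.N674.LT.Const
import Pool.Graph.R_seed8.Helper717.LT.P_const_final
import Pool.Graph.R_seed8.Helper717.LT.P_final_thm

set_option autoImplicit false

/-!
# The kinetic inequality with the norm of a reduced density matrix
-/

open MeasureTheory Set Topology Real
open Filter hiding join
open Pool.Agent.N674.LT (join join_zero join_cons cj cj_nonneg P_all JJ_pos Ad Ad_nonneg ad ad_pos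
  key_const Kcl_pos prod_le sum_cs)
open LTd (slice_cont slice_int pd pd_basic bco pp core Kcl)

namespace Pool.Agent.H45.LT

theorem holderG {X : Type*} [MeasurableSpace X] {μ : Measure X} {m j d : ℕ} (hd : m + j = d)
    (hj : 1 ≤ j) (C : ℝ) (hC : 0 ≤ C)
    (F g : X → ℝ) (f : Fin m → X → ℝ) (hF0 : ∀ x, 0 ≤ F x) (hg0 : ∀ x, 0 ≤ g x)
    (hf0 : ∀ k x, 0 ≤ f k x) (hF : Integrable F μ) (hg : Integrable g μ)
    (hf : ∀ k, Integrable (f k) μ)
    (h : ∀ x, F x ^ d ≤ C * g x ^ j * ∏ k, f k x) :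
    (∫ x, F x ∂μ) ^ d ≤ C * (∫ x, g x ∂μ) ^ j * ∏ k, ∫ x, f k x ∂μ := by
  have hd0 : d ≠ 0 := by omega
  have hdr : (0:ℝ) < d := by exact_mod_cast Nat.pos_of_ne_zero hd0
  have hF' : 0 ≤ ∫ x, F x ∂μ := integral_nonneg hF0
  have hg' : 0 ≤ ∫ x, g x ∂μ := integral_nonneg hg0
  have hf' : ∀ k, 0 ≤ ∫ x, f k x ∂μ := fun k => integral_nonneg (hf0 k)
  have key : ENNReal.ofReal (∫ x, F x ∂μ) ≤ ENNReal.ofReal C ^ (1 / (d:ℝ)) *
      (ENNReal.ofReal (∫ x, g x ∂μ) ^ ((j:ℝ) / d) *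
        ∏ k, ENNReal.ofReal (∫ x, f k x ∂μ) ^ (1 / (d:ℝ))) := by
    rw [ofReal_integral_eq_lintegral_ofReal hF (ae_of_all _ hF0),
      ofReal_integral_eq_lintegral_ofReal hg (ae_of_all _ hg0)]
    have e1 : ∀ k, ENNReal.ofReal (∫ x, f k x ∂μ) = ∫⁻ x, ENNReal.ofReal (f k x) ∂μ := fun k =>
      ofReal_integral_eq_lintegral_ofReal (hf k) (ae_of_all _ (hf0 k))
    simp_rw [e1]
    have h1 := ENNReal.lintegral_mul_prod_norm_pow_le (μ := μ) (Finset.univ : Finset (Fin m))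
      (g := fun x => ENNReal.ofReal (g x)) (f := fun k x => ENNReal.ofReal (f k x))
      hg.1.aemeasurable.ennreal_ofReal (fun k _ => (hf k).1.aemeasurable.ennreal_ofReal)
      ((j:ℝ) / d) (p := fun _ => 1 / (d:ℝ)) (by
        rw [Finset.sum_const, Finset.card_univ, Fintype.card_fin, nsmul_eq_mul]
        field_simp
        rw [← hd]; push_cast; ring) (by positivity) (fun _ _ => by positivity)
    refine le_trans ?_ (mul_le_mul_right h1 _)
    rw [← lintegral_const_mul' _ _ (ENNReal.rpow_ne_top_of_nonneg (by positivity)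
      ENNReal.ofReal_ne_top)]
    refine lintegral_mono fun x => ?_
    have h2 : ENNReal.ofReal (F x) = (ENNReal.ofReal (F x ^ d)) ^ (1 / (d:ℝ)) := by
      rw [ENNReal.ofReal_pow (hF0 x), ← ENNReal.rpow_natCast, ← ENNReal.rpow_mul,
        mul_one_div_cancel hdr.ne', ENNReal.rpow_one]
    have h3 : (ENNReal.ofReal (C * g x ^ j * ∏ k, f k x)) ^ (1 / (d:ℝ)) =
        ENNReal.ofReal C ^ (1 / (d:ℝ)) * (ENNReal.ofReal (g x) ^ ((j:ℝ) / d) *
          ∏ k, ENNReal.ofReal (f k x) ^ (1 / (d:ℝ))) := by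
      rw [ENNReal.ofReal_mul (mul_nonneg hC (pow_nonneg (hg0 x) _)), ENNReal.ofReal_mul hC,
        ENNReal.ofReal_prod_of_nonneg (fun k _ => hf0 k x), ENNReal.ofReal_pow (hg0 x),
        ENNReal.mul_rpow_of_nonneg _ _ (by positivity), ENNReal.mul_rpow_of_nonneg _ _
        (by positivity), ← ENNReal.prod_rpow_of_nonneg (by positivity), mul_assoc]
      congr 2
      rw [← ENNReal.rpow_natCast, ← ENNReal.rpow_mul]
      congr 1
      ring
    rw [h2, ← h3]
    exact ENNReal.rpow_le_rpow (ENNReal.ofReal_le_ofReal (h x)) (by positivity)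
  have h4 := pow_le_pow_left' key d
  rw [mul_pow, mul_pow, ← Finset.prod_pow, ← ENNReal.rpow_natCast (ENNReal.ofReal C ^ _),
    ← ENNReal.rpow_mul, one_div_mul_cancel hdr.ne', ENNReal.rpow_one,
    ← ENNReal.rpow_natCast (ENNReal.ofReal (∫ x, g x ∂μ) ^ _), ← ENNReal.rpow_mul,
    div_mul_cancel₀ _ hdr.ne', ENNReal.rpow_natCast, ← ENNReal.ofReal_pow hF',
    ← ENNReal.ofReal_pow hg'] at h4
  have h5 : ∏ k, (ENNReal.ofReal (∫ x, f k x ∂μ) ^ (1 / (d:ℝ))) ^ d =
      ENNReal.ofReal (∏ k, ∫ x, f k x ∂μ) := by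
    rw [ENNReal.ofReal_prod_of_nonneg (fun k _ => hf' k)]
    refine Finset.prod_congr rfl fun k _ => ?_
    rw [← ENNReal.rpow_natCast, ← ENNReal.rpow_mul, one_div_mul_cancel hdr.ne', ENNReal.rpow_one]
  rw [h5, ← ENNReal.ofReal_mul (pow_nonneg hg' _), ← ENNReal.ofReal_mul hC] at h4
  have h6 := (ENNReal.ofReal_le_ofReal_iff (by
    have := Finset.prod_nonneg (fun k (_ : k ∈ (Finset.univ : Finset (Fin m))) => hf' k)
    positivity)).1 h4
  rw [mul_assoc]
  exact h6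

/-- the sum over the coordinates -/
theorem sum_split {m k : ℕ} (f : Fin (m + k) → ℝ) :
    ∑ q, f q = (∑ l : Fin k, f (emb l)) + ∑ l : Fin m, f (emt l) := by
  have h : m + k = k + m := Nat.add_comm m k
  rw [← (finCongr h).symm.sum_comp, Fin.sum_univ_add]
  congr 1
  refine Finset.sum_congr rfl fun l _ => congrArg f ?_
  apply Fin.ext
  simp [emt, Nat.add_comm]

/-- the inequality of the arithmetic and geometric mean -/
theorem amgmG {m k d : ℕ} (hd : m + k = d) (hk : 1 ≤ k) (A : ℝ) (hA : 0 ≤ A) (T : Fin m → ℝ)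
    (hT : ∀ l, 0 ≤ T l) : A ^ k * ∏ l, T l ≤ (k:ℝ) ^ k * ((A + ∑ l, T l) / d) ^ d := by
  have hk0 : (0:ℝ) < k := by exact_mod_cast hk
  have h := prod_le (d := m + k) (by omega) (Fin.addCases T fun _ : Fin k => A / k) (by
    intro q
    refine Fin.addCases (fun i => ?_) (fun i => ?_) q
    · rw [Fin.addCases_left]; exact hT i
    · rw [Fin.addCases_right]; positivity)
  rw [Fin.prod_univ_add, Fin.sum_univ_add] at h
  simp only [Fin.addCases_left, Fin.addCases_right, Finset.prod_const, Finset.sum_const,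
    Finset.card_univ, Fintype.card_fin, nsmul_eq_mul] at h
  rw [hd, mul_div_cancel₀ _ hk0.ne', div_pow] at h
  have h2 := mul_le_mul_of_nonneg_left h (pow_nonneg hk0.le k)
  calc A ^ k * ∏ l, T l = (k:ℝ) ^ k * ((∏ l, T l) * (A ^ k / (k:ℝ) ^ k)) := by
        field_simp
    _ ≤ (k:ℝ) ^ k * (((∑ l, T l) + A) / d) ^ d := h2
    _ = _ := by rw [add_comm A]

theorem bco_pow (K : ℕ) : bco (K / 2) (3 / 2) (π ^ 2 / 4) ^ (K + 1) =
    3 / 4 * Kcl (K + 1) ^ (K + 1) := by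
  rw [LTd.const_final, mul_pow, ← Real.rpow_natCast (_ ^ _), ← Real.rpow_mul (by norm_num)]
  congr 1
  rw [show (1 / ((K:ℝ) + 1)) * ((K + 1 : ℕ) : ℝ) = 1 by push_cast; field_simp, Real.rpow_one]

theorem Ad_split (m k : ℕ) : (∏ i ∈ Finset.range m, cj (k + 1 + i)) * Ad k = Ad (m + k) := by
  unfold Ad
  rw [Nat.add_comm m k, Finset.prod_range_add, mul_comm]
  congr 1
  refine Finset.prod_congr rfl fun i _ => ?_
  congr 1
  omega

/-- **The kinetic inequality with the norm of a reduced density matrix**, real functions. -/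
theorem reduced_real {m K n : ℕ} (w : Fin n → (Fin (m + (K + 1)) → ℝ) → ℝ)
    (hw : ∀ i, ContDiff ℝ 1 (w i)) (hc : ∀ i, HasCompactSupport (w i)) {Λ : ℝ} (hΛ : 0 < Λ)
    (hR : ∀ f : (Fin (K + 1) → ℝ) → ℝ, Continuous f → HasCompactSupport f →
      ∑ i, ∫ y : Fin m → ℝ, (∫ t, f t * w i (join t y)) ^ 2 ≤ Λ * ∫ x, f x ^ 2)
    {σ : ℝ} (hσ : 0 ≤ σ)
    (hs : 4 * (σ ^ (m + (K + 1)) * (ad (K + 1) * Λ ^ 2)) ≤ 3 * ad (m + (K + 1))) :
    σ * Kcl (m + (K + 1)) *
      ∫ x, (∑ i, w i x ^ 2) ^ (1 + 2 / ((m + (K + 1) : ℕ) : ℝ)) ≤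
      ∫ x, ∑ q, ∑ i, pd q (w i) x ^ 2 := by
  obtain ⟨d, hd⟩ : ∃ d, d = m + (K + 1) := ⟨_, rfl⟩
  have hdR : ((m + (K + 1) : ℕ) : ℝ) = d := by rw [hd]
  have hdK : Kcl (m + (K + 1)) = Kcl d := by rw [hd]
  rw [hdR, hdK]
  rw [← hd] at hs
  set p : ℝ := 1 + 2 / (d:ℝ) with hp
  have hd0 : (0:ℝ) < d := by rw [hd]; positivity
  have hp0 : 0 < p := by positivity
  have hwc := fun i => (hw i).continuous
  have hsq : ∀ {d : ℕ} {g : (Fin d → ℝ) → ℝ}, HasCompactSupport g →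
      HasCompactSupport fun z => g z ^ 2 := fun h =>
    h.comp_left (g := fun t : ℝ => t ^ 2) (by norm_num)
  have hpd : ∀ q i, Continuous (pd q (w i)) ∧ HasCompactSupport (pd q (w i)) := fun q i =>
    pd_basic (hw i) (hc i) q
  -- the density
  have hρ := sum_cs (fun i z => w i z ^ 2) (fun i => (hwc i).pow 2) (fun i => hsq (hc i))
  have hρ0 : ∀ z, 0 ≤ ∑ i, w i z ^ 2 := fun z => Finset.sum_nonneg fun i _ => sq_nonneg _
  have hρpc : Continuous fun z => (∑ i, w i z ^ 2) ^ p := hρ.1.rpow_const fun _ => Or.inr hp0.le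
  have hρps : HasCompactSupport fun z => (∑ i, w i z ^ 2) ^ p :=
    hρ.2.comp_left (g := fun t : ℝ => t ^ p) (Real.zero_rpow hp0.ne')
  -- the reduced density
  set r : (Fin (K + 1) → ℝ) → ℝ := fun t => ∑ j, ∫ y : Fin m → ℝ, w j (join t y) ^ 2 with hr
  have hr0 : ∀ t, 0 ≤ r t := fun t =>
    Finset.sum_nonneg fun j _ => integral_nonneg fun y => sq_nonneg _
  have hS := fun (j : Fin n) => joinslice (m := m) (k := K + 1) (f := fun z => w j z ^ 2)
    (((hw j).continuous).pow 2) (hsq (hc j))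
  have hrc : Continuous r := continuous_finsetSum _ fun j _ => (hS j).1
  have hrs : HasCompactSupport r := by
    refine HasCompactSupport.intro (isCompact_iUnion fun j => (hS j).2.1) fun t ht => ?_
    refine Finset.sum_eq_zero fun j _ => ?_
    exact image_eq_zero_of_notMem_tsupport
      (f := fun t : Fin (K + 1) → ℝ => ∫ y : Fin m → ℝ, w j (join t y) ^ 2)
      fun h => ht (Set.mem_iUnion.2 ⟨j, h⟩)
  have hr1 : ∀ t, r t = ∫ y : Fin m → ℝ, ∑ j, w j (join t y) ^ 2 := by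
    intro t
    rw [integral_finsetSum _ fun j _ => ((hS j).2.2.1 t).integrable_of_hasCompactSupport
      ((hS j).2.2.2.1 t)]
  -- the kinetic energies
  have hE : ∀ q, Continuous (fun z => ∑ i, pd q (w i) z ^ 2) ∧
      HasCompactSupport (fun z => ∑ i, pd q (w i) z ^ 2) := fun q =>
    sum_cs (fun i z => pd q (w i) z ^ 2) (fun i => (hpd q i).1.pow 2) (fun i => hsq (hpd q i).2)
  have hEi : ∀ q, Integrable (fun z => ∑ i, pd q (w i) z ^ 2) := fun q =>
    (hE q).1.integrable_of_hasCompactSupport (hE q).2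
  set T : Fin (m + (K + 1)) → ℝ := fun q => ∫ z, ∑ i, pd q (w i) z ^ 2 with hT
  have hT0 : ∀ q, 0 ≤ T q := fun q =>
    integral_nonneg fun z => Finset.sum_nonneg fun i _ => sq_nonneg _
  have hTq : ∀ q, T q = ∫ t : Fin (K + 1) → ℝ, ∫ y : Fin m → ℝ,
      ∑ i, pd q (w i) (join t y) ^ 2 := fun q => fub (K + 1) (hE q).1 (hE q).2
  have hTot : ∫ x, ∑ q, ∑ i, pd q (w i) x ^ 2 = ∑ q, T q :=
    integral_finsetSum _ fun q _ => hEi q
  rw [hTot, sum_split]
  set TF : ℝ := ∑ l : Fin (K + 1), T (emb l) with hTF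
  have hTF0 : 0 ≤ TF := Finset.sum_nonneg fun l _ => hT0 _
  -- the longitudinal part
  have hcl := claim w hw hc hΛ hR
  rw [LTd.final_thm_pp] at hcl
  set I : ℝ := ∫ t : Fin (K + 1) → ℝ, r t ^ (1 + 2 / ((K + 1 : ℕ) : ℝ)) with hI
  have hI0 : 0 ≤ I := integral_nonneg fun t => Real.rpow_nonneg (hr0 t) _
  have hcl2 : bco (K / 2) (3 / 2) (π ^ 2 / 4) * I ≤ Λ ^ (2 / ((K + 1 : ℕ) : ℝ)) * TF := by
    have e1 : ∫ t : Fin (K + 1) → ℝ, ∑ l, ∑ j, ∫ y : Fin m → ℝ,
        pd (emb l) (w j) (join t y) ^ 2 = TF := by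
      have hS2 := fun (l : Fin (K + 1)) (j : Fin n) =>
        joinslice (m := m) (k := K + 1) (f := fun z => pd (emb l) (w j) z ^ 2)
          (((hpd (emb l) j).1).pow 2) (hsq (hpd (emb l) j).2)
      rw [integral_finsetSum _ fun l _ => integrable_finsetSum _ fun j _ =>
        (hS2 l j).1.integrable_of_hasCompactSupport (hS2 l j).2.1]
      refine Finset.sum_congr rfl fun l _ => ?_
      rw [hTq]
      refine integral_congr_ae (Eventually.of_forall fun t => ?_)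
      dsimp only
      rw [integral_finsetSum _ fun j _ => ((hS2 l j).2.2.1 t).integrable_of_hasCompactSupport
        ((hS2 l j).2.2.2.1 t)]
    rw [e1, add_sub_cancel_left] at hcl
    exact hcl
  have hcl3 : 3 / 4 * Kcl (K + 1) ^ (K + 1) * I ^ (K + 1) ≤ Λ ^ 2 * TF ^ (K + 1) := by
    have h1 := pow_le_pow_left₀ (mul_nonneg (le_of_lt (by
      rw [LTd.const_final]
      exact mul_pos (Real.rpow_pos_of_pos (by norm_num) _) (Kcl_pos (by omega)))) hI0) hcl2 (K + 1)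
    rw [mul_pow, mul_pow, bco_pow, ← Real.rpow_natCast (Λ ^ _), ← Real.rpow_mul hΛ.le,
      div_mul_cancel₀ _ (by positivity), Real.rpow_ofNat] at h1
    exact h1
  -- the transversal part
  have hsl : (∫ x, (∑ i, w i x ^ 2) ^ p) ^ d ≤ (∏ i ∈ Finset.range m, cj (K + 1 + 1 + i)) *
      I ^ (K + 1) * ∏ l : Fin m, T (emt l) := by
    have hF := joinslice (m := m) (k := K + 1) hρpc hρps
    rw [fub (K + 1) hρpc hρps]
    simp only [hTq]
    have hS3 := fun l : Fin m => joinslice (m := m) (k := K + 1) (hE (emt l)).1 (hE (emt l)).2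
    refine holderG (X := Fin (K + 1) → ℝ) (μ := volume) (m := m) (j := K + 1) (d := d) hd.symm
      (by omega) _ (Finset.prod_nonneg fun i _ => cj_nonneg _) _ _
      (fun l t => ∫ y : Fin m → ℝ, ∑ i, pd (emt l) (w i) (join t y) ^ 2)
      (fun t => integral_nonneg fun y => Real.rpow_nonneg (hρ0 _) _)
      (fun t => Real.rpow_nonneg (hr0 t) _)
      (fun l t => integral_nonneg fun y => Finset.sum_nonneg fun i _ => sq_nonneg _)
      (hF.1.integrable_of_hasCompactSupport hF.2.1) ?_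
      (fun l => (hS3 l).1.integrable_of_hasCompactSupport (hS3 l).2.1) fun t => ?_
    · refine Continuous.integrable_of_hasCompactSupport
        (hrc.rpow_const fun _ => Or.inr (by positivity)) ?_
      exact hrs.comp_left (g := fun t : ℝ => t ^ (1 + 2 / ((K + 1 : ℕ) : ℝ)))
        (Real.zero_rpow (by positivity))
    · have hP := P_all (fun j hj => JJ_pos hj) m (K + 1) (by omega) n
        (fun i (y : Fin m → ℝ) => w i (join t y)) (fun i => (tslice (hw i) t).1)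
        (fun i => (joinslice (hwc i) (hc i)).2.2.2.1 t)
      have e1 : (r t ^ (1 + 2 / ((K + 1 : ℕ) : ℝ))) ^ (K + 1) =
          (∫ y : Fin m → ℝ, ∑ i, w i (join t y) ^ 2) ^ (K + 1 + 2) := by
        rw [← hr1, ← Real.rpow_natCast, ← Real.rpow_mul (hr0 t), add_mul, one_mul,
          div_mul_cancel₀ _ (by positivity), ← Real.rpow_natCast]
        congr 1
        push_cast
        ring
      rw [e1]
      rw [hdR, ← hd] at hP
      refine hP.trans (le_of_eq ?_)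
      congr 1
      refine Finset.prod_congr rfl fun l _ => ?_
      refine integral_congr_ae (Eventually.of_forall fun y => ?_)
      refine Finset.sum_congr rfl fun i _ => ?_
      rw [(tslice (hw i) t).2 l y]
  -- combination
  have ham := amgmG (m := m) (k := K + 1) (d := d) hd.symm (by omega) TF hTF0
    (fun l : Fin m => T (emt l)) fun l => hT0 _
  set S : ℝ := TF + ∑ l : Fin m, T (emt l) with hSdef
  have hS0 : 0 ≤ S := add_nonneg hTF0 (Finset.sum_nonneg fun l _ => hT0 _)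
  set J : ℝ := ∫ x, (∑ i, w i x ^ 2) ^ p with hJ
  have hJ0 : 0 ≤ J := integral_nonneg fun x => Real.rpow_nonneg (hρ0 x) _
  set C : ℝ := ∏ i ∈ Finset.range m, cj (K + 1 + 1 + i) with hC
  have hC0 : 0 ≤ C := Finset.prod_nonneg fun i _ => cj_nonneg _
  set Pr : ℝ := ∏ l : Fin m, T (emt l) with hPr
  have hPr0 : 0 ≤ Pr := Finset.prod_nonneg fun l _ => hT0 _
  have hKk : 0 < Kcl (K + 1) := Kcl_pos (by omega)
  have hKd : 0 < Kcl d := Kcl_pos (by omega)
  have hk1 := key_const (show 1 ≤ K + 1 by omega)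
  have hk2 := key_const (show 1 ≤ d by omega)
  have hsp := Ad_split m (K + 1)
  rw [← hC, ← hd] at hsp
  have hd1 : 1 ≤ d := by omega
  have hak := ad_pos (K + 1)
  have had := ad_pos d
  have hKkp : 0 < Kcl (K + 1) ^ (K + 1) := pow_pos hKk _
  have hKdp : 0 < Kcl d ^ d := pow_pos hKd _
  -- `3/4 Kcl(k)^k J^d ≤ C Λ² k^k (S/d)^d`
  have h1 : 3 / 4 * Kcl (K + 1) ^ (K + 1) * J ^ d ≤
      C * Λ ^ 2 * (((K + 1 : ℕ) : ℝ) ^ (K + 1) * (S / d) ^ d) := by
    calc 3 / 4 * Kcl (K + 1) ^ (K + 1) * J ^ d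
        ≤ 3 / 4 * Kcl (K + 1) ^ (K + 1) * (C * I ^ (K + 1) * Pr) :=
          mul_le_mul_of_nonneg_left hsl (by positivity)
      _ = C * Pr * (3 / 4 * Kcl (K + 1) ^ (K + 1) * I ^ (K + 1)) := by ring
      _ ≤ C * Pr * (Λ ^ 2 * TF ^ (K + 1)) :=
          mul_le_mul_of_nonneg_left hcl3 (mul_nonneg hC0 hPr0)
      _ = C * Λ ^ 2 * (TF ^ (K + 1) * Pr) := by ring
      _ ≤ _ := mul_le_mul_of_nonneg_left ham (by positivity)
  -- use `k^k = Kcl^k Ad ad`
  have h2 : 3 * J ^ d ≤ 4 * (Ad d * ad (K + 1) * Λ ^ 2 * (S / d) ^ d) := by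
    rw [← hk1] at h1
    rw [← hsp]
    have h3 : Kcl (K + 1) ^ (K + 1) * (3 * J ^ d) ≤ Kcl (K + 1) ^ (K + 1) *
        (4 * (C * Ad (K + 1) * ad (K + 1) * Λ ^ 2 * (S / d) ^ d)) := by
      nlinarith [h1]
    exact le_of_mul_le_mul_left h3 hKkp
  have h3 : (σ * Kcl d * J) ^ d ≤ S ^ d := by
    have e1 : (S / d) ^ d * (d:ℝ) ^ d = S ^ d := by
      rw [← mul_pow, div_mul_cancel₀ _ hd0.ne']
    have h4 : 3 * ((σ * Kcl d * J) ^ d * ad d) ≤ 3 * (S ^ d * ad d) := by
      calc 3 * ((σ * Kcl d * J) ^ d * ad d) = σ ^ d * Kcl d ^ d * ad d * (3 * J ^ d) := by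
            rw [mul_pow, mul_pow]; ring
        _ ≤ σ ^ d * Kcl d ^ d * ad d * (4 * (Ad d * ad (K + 1) * Λ ^ 2 * (S / d) ^ d)) :=
            mul_le_mul_of_nonneg_left h2 (by positivity)
        _ = (4 * (σ ^ d * (ad (K + 1) * Λ ^ 2))) * ((Kcl d ^ d * Ad d * ad d) * (S / d) ^ d) := by
            ring
        _ = (4 * (σ ^ d * (ad (K + 1) * Λ ^ 2))) * S ^ d := by rw [hk2, ← e1]; ring
        _ ≤ (3 * ad d) * S ^ d := mul_le_mul_of_nonneg_right hs (pow_nonneg hS0 _)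
        _ = 3 * (S ^ d * ad d) := by ring
    have h5 : (σ * Kcl d * J) ^ d * ad d ≤ S ^ d * ad d := by linarith
    exact le_of_mul_le_mul_right h5 had
  exact le_of_pow_le_pow_left₀ (by omega) hS0 h3

end Pool.Agent.H45.LT
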