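import Mathlib
import Pool.Agent.H45.LT.Red6
import Pool.Graph.R_seed8.Helper717.LT.P_T_slice
import Pool.Graph.R_pool_sql_team_seeded_2aa45f1a.Q219.LT.Chg

set_option autoImplicit false

/-!
# Complex functions and rotations
-/

open MeasureTheory Set Topology Real Matrix
open Filter hiding join
open Pool.Agent.N674.LT (join join_zero join_cons ad Nd Nd_sq ad_pos ad_succ ad_mono)
open LTd (pd pd_basic Kcl)

namespace Pool.Agent.H45.LT

theorem normsq (z : ℂ) : ‖z‖ ^ 2 = z.re ^ 2 + z.im ^ 2 := by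
  rw [Complex.sq_norm, Complex.normSq_apply]; ring

/-- **The kinetic inequality with the norm of a reduced density matrix**, complex functions. -/
theorem reduced_complex {m k N : ℕ} (hk : 1 ≤ k) (u : Fin N → (Fin (m + k) → ℝ) → ℂ)
    (hu : ∀ i, ContDiff ℝ 1 (u i)) (hc : ∀ i, HasCompactSupport (u i)) {Λ : ℝ} (hΛ : 0 < Λ)
    (hR : ∀ f : (Fin k → ℝ) → ℝ, Continuous f → HasCompactSupport f →
      ∑ i, ∫ y : Fin m → ℝ, ‖∫ t, (f t : ℂ) * u i (join t y)‖ ^ 2 ≤ Λ * ∫ x, f x ^ 2)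
    {σ : ℝ} (hσ : 0 ≤ σ)
    (hs : 4 * (σ ^ (m + k) * (ad k * Λ ^ 2)) ≤ 3 * ad (m + k)) :
    σ * Kcl (m + k) * ∫ x, (∑ i, ‖u i x‖ ^ 2) ^ (1 + 2 / ((m + k : ℕ) : ℝ)) ≤
      ∑ i, ∑ q, ∫ x, ‖fderiv ℝ (u i) x (Pi.single q 1)‖ ^ 2 := by
  obtain ⟨K, rfl⟩ : ∃ K, k = K + 1 := ⟨k - 1, by omega⟩
  let F : Fin (N + N) → (Fin (m + (K + 1)) → ℝ) → ℝ :=
    Fin.append (fun i x => (u i x).re) (fun i x => (u i x).im)
  have hFl : ∀ i, F (Fin.castAdd N i) = fun x => (u i x).re := fun i => Fin.append_left _ _ i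
  have hFr : ∀ i, F (Fin.natAdd N i) = fun x => (u i x).im := fun i => Fin.append_right _ _ i
  have hFd : ∀ i, ContDiff ℝ 1 (F i) := by
    intro i
    refine Fin.addCases (fun i => ?_) (fun i => ?_) i
    · rw [hFl]; exact Complex.reCLM.contDiff.comp (hu i)
    · rw [hFr]; exact Complex.imCLM.contDiff.comp (hu i)
  have hFc : ∀ i, HasCompactSupport (F i) := by
    intro i
    refine Fin.addCases (fun i => ?_) (fun i => ?_) i
    · rw [hFl]; exact (hc i).comp_left (g := Complex.re) Complex.zero_re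
    · rw [hFr]; exact (hc i).comp_left (g := Complex.im) Complex.zero_im
  have hRR : ∀ f : (Fin (K + 1) → ℝ) → ℝ, Continuous f → HasCompactSupport f →
      ∑ i, ∫ y : Fin m → ℝ, (∫ t, f t * F i (join t y)) ^ 2 ≤ Λ * ∫ x, f x ^ 2 := by
    intro f hf hfs
    refine le_trans (le_of_eq ?_) (hR f hf hfs)
    rw [Fin.sum_univ_add, ← Finset.sum_add_distrib]
    refine Finset.sum_congr rfl fun i _ => ?_
    have h1 := Fy (m := m) (hFd (Fin.castAdd N i)).continuous (hFc (Fin.castAdd N i)) hf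
    have h2 := Fy (m := m) (hFd (Fin.natAdd N i)).continuous (hFc (Fin.natAdd N i)) hf
    have hsq : ∀ {g : (Fin m → ℝ) → ℝ}, HasCompactSupport g →
        HasCompactSupport fun z => g z ^ 2 := fun h =>
      h.comp_left (g := fun t : ℝ => t ^ 2) (by norm_num)
    have i1 : Integrable fun y : Fin m → ℝ =>
        (∫ t : Fin (K + 1) → ℝ, f t * F (Fin.castAdd N i) (join t y)) ^ 2 :=
      (h1.1.pow 2).integrable_of_hasCompactSupport (hsq h1.2)
    have i2 : Integrable fun y : Fin m → ℝ =>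
        (∫ t : Fin (K + 1) → ℝ, f t * F (Fin.natAdd N i) (join t y)) ^ 2 :=
      (h2.1.pow 2).integrable_of_hasCompactSupport (hsq h2.2)
    rw [← integral_add i1 i2]
    refine integral_congr_ae (Eventually.of_forall fun y => ?_)
    dsimp only
    have hint : Integrable (fun t : Fin (K + 1) → ℝ => (f t : ℂ) * u i (join t y)) := by
      refine Continuous.integrable_of_hasCompactSupport ?_ ?_
      · exact (Complex.continuous_ofReal.comp hf).mul
          ((hu i).continuous.comp (join_cont.comp (Continuous.prodMk_left y)))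
      · exact (hfs.comp_left (g := fun x : ℝ => (x : ℂ)) Complex.ofReal_zero).mul_right
    rw [normsq]
    have e1 : (∫ t : Fin (K + 1) → ℝ, (f t : ℂ) * u i (join t y)).re =
        ∫ t : Fin (K + 1) → ℝ, f t * F (Fin.castAdd N i) (join t y) := by
      have := integral_re hint
      rw [hFl]
      refine this.symm.trans ?_
      refine integral_congr_ae (Eventually.of_forall fun t => ?_)
      simp
    have e2 : (∫ t : Fin (K + 1) → ℝ, (f t : ℂ) * u i (join t y)).im =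
        ∫ t : Fin (K + 1) → ℝ, f t * F (Fin.natAdd N i) (join t y) := by
      have := integral_im hint
      rw [hFr]
      refine this.symm.trans ?_
      refine integral_congr_ae (Eventually.of_forall fun t => ?_)
      simp
    rw [e1, e2]
  have hH := reduced_real F hFd hFc hΛ hRR hσ hs
  have hFs : ∀ x, ∑ i, F i x ^ 2 = ∑ i, ‖u i x‖ ^ 2 := by
    intro x
    rw [Fin.sum_univ_add, ← Finset.sum_add_distrib]
    simp only [hFl, hFr, normsq]
  have hpdl : ∀ i q x, pd q (fun x => (u i x).re) x = (fderiv ℝ (u i) x (Pi.single q 1)).re := by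
    intro i q x
    unfold pd
    have h1 : HasFDerivAt (fun x => (u i x).re) (Complex.reCLM.comp (fderiv ℝ (u i) x)) x :=
      Complex.reCLM.hasFDerivAt.comp x (((hu i).differentiable (by norm_num)) x).hasFDerivAt
    rw [h1.fderiv]
    rfl
  have hpdr : ∀ i q x, pd q (fun x => (u i x).im) x = (fderiv ℝ (u i) x (Pi.single q 1)).im := by
    intro i q x
    unfold pd
    have h1 : HasFDerivAt (fun x => (u i x).im) (Complex.imCLM.comp (fderiv ℝ (u i) x)) x :=
      Complex.imCLM.hasFDerivAt.comp x (((hu i).differentiable (by norm_num)) x).hasFDerivAt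
    rw [h1.fderiv]
    rfl
  have hGs : ∀ x, ∑ q, ∑ i, pd q (F i) x ^ 2 =
      ∑ i, ∑ q, ‖fderiv ℝ (u i) x (Pi.single q 1)‖ ^ 2 := by
    intro x
    rw [Finset.sum_comm, Fin.sum_univ_add, ← Finset.sum_add_distrib]
    refine Finset.sum_congr rfl fun i _ => ?_
    rw [← Finset.sum_add_distrib]
    simp only [hFl, hFr, hpdl, hpdr, normsq]
  have hI : ∀ i q, Integrable (fun x => ‖fderiv ℝ (u i) x (Pi.single q 1)‖ ^ 2) := by
    intro i q
    have h1 : Continuous fun x => fderiv ℝ (u i) x (Pi.single q 1) :=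
      ((hu i).continuous_fderiv (by norm_num)).clm_apply continuous_const
    have h2 : HasCompactSupport fun x => fderiv ℝ (u i) x (Pi.single q 1) :=
      ((hc i).fderiv (𝕜 := ℝ)).comp_left
        (g := fun L : (Fin (m + (K + 1)) → ℝ) →L[ℝ] ℂ => L (Pi.single q 1)) (by simp)
    have h3 : HasCompactSupport fun x => ‖fderiv ℝ (u i) x (Pi.single q 1)‖ ^ 2 :=
      h2.comp_left (g := fun z : ℂ => ‖z‖ ^ 2) (by simp)
    exact (h1.norm.pow 2).integrable_of_hasCompactSupport h3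
  have hint : ∫ x, ∑ i, ∑ q, ‖fderiv ℝ (u i) x (Pi.single q 1)‖ ^ 2 =
      ∑ i, ∑ q, ∫ x, ‖fderiv ℝ (u i) x (Pi.single q 1)‖ ^ 2 := by
    rw [integral_finsetSum _ (fun i _ => integrable_finsetSum _ (fun q _ => hI i q))]
    refine Finset.sum_congr rfl fun i _ => ?_
    rw [integral_finsetSum _ (fun q _ => hI i q)]
  rw [← hint]
  have h7 := hH
  simp only [hFs] at h7
  refine le_trans h7 (le_of_eq ?_)
  exact integral_congr_ae (Eventually.of_forall hGs)

/-! ### Rotations -/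

open Pool.Agent.Q219.LT in
theorem rot_facts {d : ℕ} {O : Matrix (Fin d) (Fin d) ℝ} (hO : Oᵀ * O = 1) {v : (Fin d → ℝ) → ℂ}
    (hv : ContDiff ℝ 1 v) (hc : HasCompactSupport v) :
    ContDiff ℝ 1 (fun x => v (O *ᵥ x)) ∧ HasCompactSupport (fun x => v (O *ᵥ x)) ∧
    ∑ q, ∫ x, ‖fderiv ℝ (fun x => v (O *ᵥ x)) x (Pi.single q 1)‖ ^ 2 =
      ∑ q, ∫ x, ‖fderiv ℝ v x (Pi.single q 1)‖ ^ 2 := by
  have hdet : O.det ^ 2 = 1 := by
    have h := congrArg Matrix.det hO
    rw [Matrix.det_mul, Matrix.det_transpose, Matrix.det_one] at h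
    rw [sq]; exact h
  have hO' : O * Oᵀ = 1 := mul_eq_one_comm.1 hO
  set L : (Fin d → ℝ) →L[ℝ] (Fin d → ℝ) := LinearMap.toContinuousLinearMap (Matrix.mulVecLin O)
    with hL
  have hLx : ∀ x, L x = O *ᵥ x := fun x => rfl
  have hcomp : ∀ x, O *ᵥ (Oᵀ *ᵥ x) = x := fun x => by
    rw [Matrix.mulVec_mulVec, hO', Matrix.one_mulVec]
  have hcomp' : ∀ x, Oᵀ *ᵥ (O *ᵥ x) = x := fun x => by
    rw [Matrix.mulVec_mulVec, hO, Matrix.one_mulVec]
  have hd : ContDiff ℝ 1 (fun x => v (O *ᵥ x)) := hv.comp L.contDiff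
  have hs : HasCompactSupport (fun x => v (O *ᵥ x)) := by
    refine HasCompactSupport.intro
      (hc.isCompact.image (cont_mul (Oᵀ))) fun x hx => ?_
    refine image_eq_zero_of_notMem_tsupport fun h => hx ⟨O *ᵥ x, h, hcomp' x⟩
  refine ⟨hd, hs, ?_⟩
  have hfd : ∀ x w, fderiv ℝ (fun x => v (O *ᵥ x)) x w = fderiv ℝ v (O *ᵥ x) (O *ᵥ w) := by
    intro x w
    have h1 : HasFDerivAt v (fderiv ℝ v (L x)) (L x) :=
      ((hv.differentiable (by norm_num)) _).hasFDerivAt
    have h2 : HasFDerivAt (fun x => v (L x)) ((fderiv ℝ v (L x)).comp L) x :=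
      h1.comp x L.hasFDerivAt
    have h3 : fderiv ℝ (fun x => v (O *ᵥ x)) x = (fderiv ℝ v (L x)).comp L := h2.fderiv
    rw [h3]
    rfl
  have hI : ∀ {g : (Fin d → ℝ) → ℂ}, ContDiff ℝ 1 g → HasCompactSupport g → ∀ q,
      Integrable (fun x => ‖fderiv ℝ g x (Pi.single q 1)‖ ^ 2) := by
    intro g hg hgc q
    have h1 : Continuous fun x => fderiv ℝ g x (Pi.single q 1) :=
      (hg.continuous_fderiv (by norm_num)).clm_apply continuous_const
    have h2 : HasCompactSupport fun x => fderiv ℝ g x (Pi.single q 1) :=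
      (hgc.fderiv (𝕜 := ℝ)).comp_left
        (g := fun L : (Fin d → ℝ) →L[ℝ] ℂ => L (Pi.single q 1)) (by simp)
    have h3 : HasCompactSupport fun x => ‖fderiv ℝ g x (Pi.single q 1)‖ ^ 2 :=
      h2.comp_left (g := fun z : ℂ => ‖z‖ ^ 2) (by simp)
    exact (h1.norm.pow 2).integrable_of_hasCompactSupport h3
  rw [← integral_finsetSum _ fun q _ => hI hd hs q, ← integral_finsetSum _ fun q _ => hI hv hc q]
  rw [← int_comp hdet (fun x => ∑ q, ‖fderiv ℝ v x (Pi.single q 1)‖ ^ 2)]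
  refine integral_congr_ae (Eventually.of_forall fun x => ?_)
  dsimp only
  simp only [hfd]
  have hcol : ∀ q : Fin d, fderiv ℝ v (O *ᵥ x) (O *ᵥ Pi.single q 1) =
      ∑ r, (O r q : ℂ) * fderiv ℝ v (O *ᵥ x) (Pi.single r 1) := by
    intro q
    have h1 : O *ᵥ (Pi.single q 1 : Fin d → ℝ) = ∑ r, O r q • (Pi.single r 1 : Fin d → ℝ) := by
      funext i
      rw [Matrix.mulVec_single_one, Finset.sum_apply]
      simp [Matrix.col_apply, Pi.single_apply]
    rw [h1, map_sum]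
    refine Finset.sum_congr rfl fun r _ => ?_
    rw [map_smul, Complex.real_smul]
  simp only [hcol, normsq]
  have hre : ∀ q : Fin d, (∑ r, (O r q : ℂ) * fderiv ℝ v (O *ᵥ x) (Pi.single r 1)).re =
      ∑ r, O r q * (fderiv ℝ v (O *ᵥ x) (Pi.single r 1)).re := by
    intro q
    rw [Complex.re_sum]
    exact Finset.sum_congr rfl fun r _ => by simp
  have him : ∀ q : Fin d, (∑ r, (O r q : ℂ) * fderiv ℝ v (O *ᵥ x) (Pi.single r 1)).im =
      ∑ r, O r q * (fderiv ℝ v (O *ᵥ x) (Pi.single r 1)).im := by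
    intro q
    rw [Complex.im_sum]
    exact Finset.sum_congr rfl fun r _ => by simp
  simp only [hre, him]
  rw [Finset.sum_add_distrib, Finset.sum_add_distrib,
    LTd.tsl_rot O hO' (fun r => (fderiv ℝ v (O *ᵥ x) (Pi.single r 1)).re),
    LTd.tsl_rot O hO' (fun r => (fderiv ℝ v (O *ᵥ x) (Pi.single r 1)).im)]

open Pool.Agent.Q219.LT in
/-- **The kinetic inequality with the norm of a reduced density matrix**, general position. -/
theorem reduced_rot {m k N : ℕ} (hk : 1 ≤ k) (u : Fin N → (Fin (m + k) → ℝ) → ℂ)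
    (hu : ∀ i, ContDiff ℝ 1 (u i)) (hc : ∀ i, HasCompactSupport (u i))
    {O : Matrix (Fin (m + k)) (Fin (m + k)) ℝ} (hO : Oᵀ * O = 1) {Λ : ℝ} (hΛ : 0 < Λ)
    (hR : ∀ f : (Fin k → ℝ) → ℝ, Continuous f → HasCompactSupport f →
      ∑ i, ∫ y : Fin m → ℝ, ‖∫ t, (f t : ℂ) * u i (O *ᵥ join t y)‖ ^ 2 ≤ Λ * ∫ x, f x ^ 2)
    {σ : ℝ} (hσ : 0 ≤ σ)
    (hs : 4 * (σ ^ (m + k) * (ad k * Λ ^ 2)) ≤ 3 * ad (m + k)) :
    σ * Kcl (m + k) * ∫ x, (∑ i, ‖u i x‖ ^ 2) ^ (1 + 2 / ((m + k : ℕ) : ℝ)) ≤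
      ∑ i, ∑ q, ∫ x, ‖fderiv ℝ (u i) x (Pi.single q 1)‖ ^ 2 := by
  have hr := fun i => rot_facts hO (hu i) (hc i)
  have h := reduced_complex hk (fun i x => u i (O *ᵥ x)) (fun i => (hr i).1)
    (fun i => (hr i).2.1) hΛ hR hσ hs
  have hdet : O.det ^ 2 = 1 := by
    have h := congrArg Matrix.det hO
    rw [Matrix.det_mul, Matrix.det_transpose, Matrix.det_one] at h
    rw [sq]; exact h
  rw [int_comp hdet (fun x => (∑ i, ‖u i x‖ ^ 2) ^ (1 + 2 / ((m + k : ℕ) : ℝ)))] at h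
  refine h.trans (le_of_eq ?_)
  exact Finset.sum_congr rfl fun i _ => (hr i).2.2

end Pool.Agent.H45.LT
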