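import Mathlib
import Pool.Agent.H45.LT.Red7
import Pool.Graph.R_seed8.Helper717.LT.P_gram_complex

set_option autoImplicit false

/-!
# Systems with a small reduced density matrix
-/

open MeasureTheory Set Topology Real Matrix
open Filter hiding join
open Pool.Agent.N674.LT (join join_zero join_cons ad Nd Nd_sq ad_pos ad_succ ad_mono)
open LTd (pd pd_basic Kcl)

namespace Pool.Agent.H45.LT

theorem ratio43 {d k : ℕ} (hd : 5 ≤ d) (hk : 1 ≤ k) (hkd : k < d) : 4 * ad k ≤ 3 * ad d := by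
  obtain ⟨e, rfl⟩ : ∃ e, d = e + 1 := ⟨d - 1, by omega⟩
  have h1 := ad_mono hk (show k ≤ e by omega)
  rw [ad_succ (by omega)]
  have he : (5:ℝ) ≤ ((e + 1 : ℕ) : ℝ) := by exact_mod_cast hd
  have hpos : (0:ℝ) < ((e + 1 : ℕ) : ℝ) := by linarith
  have h2 : (1 + 2 / ((e + 1 : ℕ) : ℝ)) ^ (e + 1) = ((1 + 2 / ((e + 1 : ℕ) : ℝ)) ^
      ((((e + 1 : ℕ) : ℝ)) / 5)) ^ 5 := by
    rw [← Real.rpow_natCast _ 5, ← Real.rpow_mul (by positivity), ← Real.rpow_natCast]
    congr 1
    push_cast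
    ring
  have h3 : (7 / 5:ℝ) ≤ (1 + 2 / ((e + 1 : ℕ) : ℝ)) ^ ((((e + 1 : ℕ) : ℝ)) / 5) := by
    have h4 := one_add_mul_self_le_rpow_one_add (s := 2 / ((e + 1 : ℕ) : ℝ))
      (by linarith [show (0:ℝ) ≤ 2 / ((e + 1 : ℕ) : ℝ) by positivity])
      (p := (((e + 1 : ℕ) : ℝ)) / 5) (by linarith)
    have h5 : 1 + (((e + 1 : ℕ) : ℝ)) / 5 * (2 / ((e + 1 : ℕ) : ℝ)) = 7 / 5 := by
      field_simp; norm_num
    rw [h5] at h4
    exact h4
  have h4 : (16 / 3:ℝ) ≤ (1 + 2 / ((e + 1 : ℕ) : ℝ)) ^ (e + 1) := by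
    rw [h2]
    have := pow_le_pow_left₀ (by norm_num) h3 5
    norm_num at this ⊢
    linarith
  have h5 := ad_pos e
  nlinarith

/-- Bessel's inequality for a real function and complex orthonormal functions -/
theorem bessel {k N : ℕ} (φ : Fin N → (Fin k → ℝ) → ℂ) (hφ : ∀ n, MemLp (φ n) 2 volume)
    (ho : ∀ i j, ∫ x, (starRingEnd ℂ) (φ i x) * φ j x = if i = j then 1 else 0)
    {f : (Fin k → ℝ) → ℝ} (hf : MemLp f 2 volume) :
    ∑ n, ‖∫ t, (f t : ℂ) * φ n t‖ ^ 2 ≤ ∫ t, f t ^ 2 := by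
  have hr : ∀ n, MemLp (fun t => (φ n t).re) 2 volume := fun n => (hφ n).re
  have hi : ∀ n, MemLp (fun t => (φ n t).im) 2 volume := fun n => (hφ n).im
  have hint : ∀ n, Integrable (fun t => (f t : ℂ) * φ n t) := fun n =>
    (hf.ofReal (K := ℂ)).integrable_mul (hφ n)
  set a : Fin N → ℝ := fun n => ∫ t, f t * (φ n t).re with ha
  set b : Fin N → ℝ := fun n => ∫ t, f t * (φ n t).im with hb
  have e0 : ∀ n, ‖∫ t, (f t : ℂ) * φ n t‖ ^ 2 = a n ^ 2 + b n ^ 2 := by
    intro n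
    rw [normsq]
    have e1 : (∫ t, (f t : ℂ) * φ n t).re = a n := by
      refine (integral_re (hint n)).symm.trans ?_
      exact integral_congr_ae (Eventually.of_forall fun t => by simp)
    have e2 : (∫ t, (f t : ℂ) * φ n t).im = b n := by
      refine (integral_im (hint n)).symm.trans ?_
      exact integral_congr_ae (Eventually.of_forall fun t => by simp)
    rw [e1, e2]
  simp only [e0]
  set S : ℝ := ∑ n, (a n ^ 2 + b n ^ 2) with hS
  have hG := LTd.gram_complex φ hφ ho a b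
  rw [← hS] at hG
  set h : (Fin k → ℝ) → ℝ := fun x => ∑ i, (a i * (φ i x).re + b i * (φ i x).im) with hh
  have hhL : MemLp h 2 volume :=
    memLp_finsetSum _ fun i _ => ((hr i).const_mul (a i)).add ((hi i).const_mul (b i))
  have hfi : Integrable fun t => f t ^ 2 := hf.integrable_sq
  have hhi : Integrable fun t => h t ^ 2 := hhL.integrable_sq
  have hfh : Integrable fun t => f t * h t := hf.integrable_mul hhL
  have e3 : ∫ t, f t * h t = S := by
    have e4 : ∀ t, f t * h t = ∑ i, (a i * (f t * (φ i t).re) + b i * (f t * (φ i t).im)) := by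
      intro t
      rw [hh]
      dsimp only
      rw [Finset.mul_sum]
      exact Finset.sum_congr rfl fun i _ => by ring
    have i1 : ∀ n, Integrable fun t => a n * (f t * (φ n t).re) := fun n =>
      (hf.integrable_mul (hr n)).const_mul _
    have i2 : ∀ n, Integrable fun t => b n * (f t * (φ n t).im) := fun n =>
      (hf.integrable_mul (hi n)).const_mul _
    have i3 : ∀ n, Integrable fun t =>
        a n * (f t * (φ n t).re) + b n * (f t * (φ n t).im) := fun n => (i1 n).add (i2 n)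
    simp_rw [e4]
    rw [integral_finsetSum _ fun n _ => i3 n]
    refine Finset.sum_congr rfl fun n _ => ?_
    rw [integral_add (i1 n) (i2 n), integral_const_mul, integral_const_mul]
    show a n * a n + b n * b n = _
    ring
  have h5 : 0 ≤ ∫ t, (f t - h t) ^ 2 := integral_nonneg fun t => sq_nonneg _
  have h6 : ∫ t, (f t - h t) ^ 2 = (∫ t, f t ^ 2) - 2 * S + ∫ t, h t ^ 2 := by
    have e5 : ∀ t, (f t - h t) ^ 2 = f t ^ 2 - 2 * (f t * h t) + h t ^ 2 := fun t => by ring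
    have i4 : Integrable fun t => 2 * (f t * h t) := hfh.const_mul 2
    have i5 : Integrable fun t => f t ^ 2 - 2 * (f t * h t) := hfi.sub i4
    simp_rw [e5]
    rw [integral_add i5 hhi, integral_sub hfi i4, integral_const_mul, e3]
  linarith

/-- product systems -/
theorem prod_red {m k N : ℕ} (v : Fin N → (Fin k → ℝ) → (Fin m → ℝ) → ℂ)
    (φ : Fin N → (Fin k → ℝ) → ℂ) (hφ : ∀ n, MemLp (φ n) 2 volume)
    (ho : ∀ i j, ∫ x, (starRingEnd ℂ) (φ i x) * φ j x = if i = j then 1 else 0)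
    (g : Fin N → (Fin m → ℝ) → ℂ) (hg : ∀ n, ∫ y, ‖g n y‖ ^ 2 ≤ 1)
    (hv : ∀ n t y, v n t y = φ n t * g n y)
    {f : (Fin k → ℝ) → ℝ} (hf : Continuous f) (hfs : HasCompactSupport f) :
    ∑ n, ∫ y : Fin m → ℝ, ‖∫ t, (f t : ℂ) * v n t y‖ ^ 2 ≤ 1 * ∫ t, f t ^ 2 := by
  rw [one_mul]
  refine le_trans (Finset.sum_le_sum fun n _ => ?_)
    (bessel φ hφ ho (hf.memLp_of_hasCompactSupport hfs))
  have e1 : ∀ y, ‖∫ t, (f t : ℂ) * v n t y‖ ^ 2 =
      ‖∫ t, (f t : ℂ) * φ n t‖ ^ 2 * ‖g n y‖ ^ 2 := by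
    intro y
    have e2 : ∀ t, (f t : ℂ) * v n t y = ((f t : ℂ) * φ n t) * g n y := by
      intro t
      rw [hv]; ring
    simp_rw [e2]
    rw [integral_mul_const, norm_mul, mul_pow]
  simp_rw [e1]
  rw [integral_const_mul]
  exact mul_le_of_le_one_right (sq_nonneg _) (hg n)

/-- few functions -/
theorem few_red {m k N : ℕ} (u : Fin N → (Fin (m + k) → ℝ) → ℂ) (hu : ∀ n, Continuous (u n))
    (hc : ∀ n, HasCompactSupport (u n)) (h1 : ∀ n, ∫ x, ‖u n x‖ ^ 2 ≤ 1)
    {f : (Fin k → ℝ) → ℝ} (hf : Continuous f) (hfs : HasCompactSupport f) :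
    ∑ n, ∫ y : Fin m → ℝ, ‖∫ t, (f t : ℂ) * u n (join t y)‖ ^ 2 ≤ N * ∫ t, f t ^ 2 := by
  have hf2 : MemLp f 2 volume := hf.memLp_of_hasCompactSupport hfs
  have hA : 0 ≤ ∫ t, f t ^ 2 := integral_nonneg fun t => sq_nonneg _
  have key : ∀ n, ∫ y : Fin m → ℝ, ‖∫ t, (f t : ℂ) * u n (join t y)‖ ^ 2 ≤ ∫ t, f t ^ 2 := by
    intro n
    -- everything in terms of `g z = ‖u n z‖ ^ 2`
    have hgc : Continuous fun z => ‖u n z‖ ^ 2 := (hu n).norm.pow 2
    have hgs : HasCompactSupport fun z => ‖u n z‖ ^ 2 :=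
      (hc n).comp_left (g := fun z : ℂ => ‖z‖ ^ 2) (by simp)
    have hnc : Continuous fun z => ‖u n z‖ := (hu n).norm
    have hns : HasCompactSupport fun z => ‖u n z‖ := (hc n).norm
    obtain ⟨M, hM1, hM2⟩ := (joinslice (m := m) (k := k) hgc hgs).2.2.2.2
    -- the slices in the other direction
    have hcy : ∀ y : Fin m → ℝ, Continuous fun t : Fin k → ℝ => ‖u n (join t y)‖ := fun y =>
      hnc.comp (join_cont.comp (Continuous.prodMk_left y))
    have hsy : ∀ y : Fin m → ℝ, HasCompactSupport fun t : Fin k → ℝ => ‖u n (join t y)‖ := by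
      intro y
      refine HasCompactSupport.intro (isCompact_closedBall 0 M) fun t ht => ?_
      rw [mem_closedBall_zero_iff, not_le] at ht
      have := hM1 t y ht
      exact (pow_eq_zero_iff two_ne_zero).1 this
    have hL : ∀ y : Fin m → ℝ, MemLp (fun t : Fin k → ℝ => ‖u n (join t y)‖) 2 volume := fun y =>
      (hcy y).memLp_of_hasCompactSupport (hsy y)
    have hpt : ∀ y : Fin m → ℝ, ‖∫ t, (f t : ℂ) * u n (join t y)‖ ^ 2 ≤
        (∫ t, f t ^ 2) * ∫ t : Fin k → ℝ, ‖u n (join t y)‖ ^ 2 := by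
      intro y
      have h2 : ‖∫ t, (f t : ℂ) * u n (join t y)‖ ≤ ∫ t, |f t| * ‖u n (join t y)‖ := by
        refine (norm_integral_le_integral_norm _).trans (le_of_eq ?_)
        refine integral_congr_ae (Eventually.of_forall fun t => ?_)
        dsimp only
        rw [norm_mul, Complex.norm_real, Real.norm_eq_abs]
      have h3 := Pool.Agent.N674.LT.cs_int (ι := Unit) (μ := (volume : Measure (Fin k → ℝ)))
        (fun _ t => ‖u n (join t y)‖) (fun _ t => |f t|) (fun _ => (hL y).integrable_sq)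
        (fun _ => by simpa using hf2.integrable_sq) (fun _ => (hL y).integrable_mul hf2.abs)
      simp only [Finset.univ_unique, Finset.sum_const, Finset.card_singleton, one_smul,
        sq_abs] at h3
      refine le_trans (pow_le_pow_left₀ (norm_nonneg _) h2 2) ?_
      refine le_trans (le_of_eq ?_) h3
      congr 1
      exact integral_congr_ae (Eventually.of_forall fun t => mul_comm _ _)
    have hcont : Continuous fun y : Fin m → ℝ => ∫ t : Fin k → ℝ, ‖u n (join t y)‖ ^ 2 := by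
      have h4 := (Fy (m := m) (k := k) (w := fun z => ‖u n z‖ ^ 2) hgc hgs
        (f := fun _ => 1) continuous_const).1
      simpa using h4
    have hsupp : HasCompactSupport fun y : Fin m → ℝ =>
        ∫ t : Fin k → ℝ, ‖u n (join t y)‖ ^ 2 := by
      have h4 := (Fy (m := m) (k := k) (w := fun z => ‖u n z‖ ^ 2) hgc hgs
        (f := fun _ => 1) continuous_const).2
      simpa using h4
    have hfub : ∫ y : Fin m → ℝ, ∫ t : Fin k → ℝ, ‖u n (join t y)‖ ^ 2 = ∫ x, ‖u n x‖ ^ 2 := by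
      rw [fub k hgc hgs]
      refine (integral_integral_swap_of_hasCompactSupport ?_ ?_)
      · exact hgc.comp (join_cont.comp continuous_swap)
      · refine HasCompactSupport.intro ((isCompact_closedBall (0 : Fin m → ℝ) M).prod
          (isCompact_closedBall (0 : Fin k → ℝ) M)) fun q hq => ?_
        rw [Set.mem_prod, mem_closedBall_zero_iff, mem_closedBall_zero_iff] at hq
        obtain ⟨y, t⟩ := q
        by_cases hy : ‖y‖ ≤ M
        · exact hM1 t y (not_le.1 fun ht => hq ⟨hy, ht⟩)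
        · exact hM2 t y (not_le.1 hy)
    calc ∫ y : Fin m → ℝ, ‖∫ t, (f t : ℂ) * u n (join t y)‖ ^ 2
        ≤ ∫ y : Fin m → ℝ, (∫ t, f t ^ 2) * ∫ t : Fin k → ℝ, ‖u n (join t y)‖ ^ 2 := by
          refine integral_mono_of_nonneg (Eventually.of_forall fun y => sq_nonneg _)
            ((hcont.integrable_of_hasCompactSupport hsupp).const_mul _)
            (Eventually.of_forall hpt)
      _ = (∫ t, f t ^ 2) * ∫ x, ‖u n x‖ ^ 2 := by rw [integral_const_mul, hfub]
      _ ≤ ∫ t, f t ^ 2 := mul_le_of_le_one_right hA (h1 n)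
  calc ∑ n, ∫ y : Fin m → ℝ, ‖∫ t, (f t : ℂ) * u n (join t y)‖ ^ 2
      ≤ ∑ _n : Fin N, ∫ t, f t ^ 2 := Finset.sum_le_sum fun n _ => key n
    _ = N * ∫ t, f t ^ 2 := by
      rw [Finset.sum_const, Finset.card_univ, Fintype.card_fin, nsmul_eq_mul]

end Pool.Agent.H45.LT
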