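import Mathlib
import Pool.Agent.H45.LT.Tr11
import Pool.Agent.H45.LT.Ly5

set_option autoImplicit false

/-!
# Equality in the plane
-/

open MeasureTheory Filter Topology Real Finset
open scoped ComplexConjugate ENNReal
open LTd (Kcl)

namespace Pool.Agent.H45.LT.Tr

open Osc (st Psi rho dPsi)
open Ly (Sp)

theorem one_fam : FamG (fun (_ : Unit) (_ : Fin 0 → ℝ) => (1:ℂ)) := by
  have hv : (volume : Measure (Fin 0 → ℝ)) = Measure.dirac 0 := Measure.volume_pi_eq_dirac _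
  have hs : Integrable (fun _ : Fin 0 → ℝ => (1:ℝ)) := by
    rw [hv]
    exact integrable_const _
  refine ⟨fun _ => contDiff_const, fun _ => ?_, fun _ q => q.elim0, fun _ _ => ?_⟩
  · simpa using hs
  · rw [hv]; simp

variable {N : ℕ}

theorem wv_UU (c : ℕ × ℕ × Unit →₀ ℂ) (k : ℕ) (hk : ∀ i ∈ c.support, i.1 + i.2.1 = k) :
    wv (fun (_ : Unit) (_ : Fin 0 → ℝ) => (1:ℂ)) c 0 =
      Ly.UU k fun a _ => c (a, k - a, ()) := by
  funext p
  unfold wv Finsupp.sum Ly.UU st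
  have h1 : ∀ x ∈ range (k + 1), ∀ y ∈ range (k + 1),
      ((x, k - x, ()) : ℕ × ℕ × Unit) = (y, k - y, ()) → x = y := by
    intro x _ y _ h
    simp only [Prod.mk.injEq] at h
    exact h.1
  have h2 := sum_image (f := fun i : ℕ × ℕ × Unit =>
    c i * ((Osc.h i.1 (p.1 0) * Osc.h i.2.1 (p.1 1) : ℝ) : ℂ)) h1
  unfold Psi
  refine Eq.trans ?_ h2
  simp only [Complex.ofReal_zero, mul_zero, zero_mul, neg_zero, Complex.exp_zero, mul_one]
  refine sum_subset (fun i hi => ?_) fun i _ hi => ?_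
  · rw [mem_image]
    have h3 := hk i hi
    refine ⟨i.1, mem_range.2 (by omega), ?_⟩
    obtain ⟨a, b, u⟩ := i
    simp only [Prod.mk.injEq, true_and, and_true] at h3 ⊢
    omega
  · rw [Finsupp.notMem_support_iff.1 hi, zero_mul]

theorem plane_eq {k : Fin N → ℕ} {c : Fin N → (ℕ × ℕ × Unit →₀ ℂ)} {ν : Fin N → ℝ}
    (hk : ∀ n, ∀ i ∈ (c n).support, i.1 + i.2.1 = k n)
    (ho : ∀ n n', ∫ p, conj (wv (fun (_ : Unit) (_ : Fin 0 → ℝ) => (1:ℂ)) (c n) 0 p) *
      wv (fun (_ : Unit) (_ : Fin 0 → ℝ) => (1:ℂ)) (c n') 0 p = if n = n' then 1 else 0)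
    (hν : ∀ n, 0 ≤ ν n ∧ ν n ≤ 1) :
    ENNReal.ofReal (Kcl 2) * ∫⁻ p, (∑ n, ENNReal.ofReal (ν n) *
      ‖wv (fun (_ : Unit) (_ : Fin 0 → ℝ) => (1:ℂ)) (c n) 0 p‖ₑ ^ 2) ^
        (1 + 2 / ((0 + 2 : ℕ) : ℝ)) =
      ∑ n, ENNReal.ofReal (ν n) *
        lkin (wv (fun (_ : Unit) (_ : Fin 0 → ℝ) => (1:ℂ)) (c n) 0) ↔
    ∃ K : ℕ, (∀ n, ν n ≠ 0 → k n < K) ∧
        ∀ l < K, ∑ n, (if k n = l then ν n else 0) = (l:ℝ) + 1 := by
  set e : Unit → (Fin 0 → ℝ) → ℂ := fun _ _ => 1 with he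
  have hFG : FamG e := one_fam
  set S := lab c (univ : Finset (Fin N)) with hS
  set K := lev c (univ : Finset (Fin N)) with hK
  set C : Fin N → ℕ → ℕ → Fin S.card → ℂ :=
    fun n l a j => c n (a, l - a, (S.equivFin.symm j : Unit)) with hC
  have hU : ∀ n : Fin N, UT K C (fun _ => 0) (fun j => e (S.equivFin.symm j)) 0 n =
      wv e (c n) 0 := fun n => UT_eq e c S K n (lev_lab c univ (mem_univ n)) 0
  have hinj : Function.Injective fun j : Fin S.card => ((S.equivFin.symm j : S) : Unit) :=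
    Subtype.val_injective.comp S.equivFin.symm.injective
  have hF : Fam fun j : Fin S.card => e (S.equivFin.symm j) := hFG.fam hinj
  have H : SysT K C ν := by
    refine ⟨fun n n' => ?_, hν⟩
    rw [← UT_inner hF C (fun _ => 0) n n', hU, hU, ho]
  have h1 := lden_eq H hF (fun _ => 0) 0
  have h2 := lkin_sum H hF (fun _ => 0) 0
  have hx := UT_kx (K := K) hF C (fun _ => 0) ν 0
  have hy := UT_ky (K := K) hF C (fun _ => 0) ν 0
  unfold lden at h1
  simp only [hU] at h1 h2 hx hy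
  have hK2 : 0 < Kcl 2 := Pool.Agent.N674.LT.Kcl_pos (by norm_num)
  have hd0 : 0 ≤ dT K C (fun _ => 0) (fun j : Fin S.card => e (S.equivFin.symm j)) ν 0 :=
    integral_nonneg fun p => Real.rpow_nonneg (dns_nonneg H _ 0 p) _
  have hd1 : dT K C (fun _ => 0) (fun j : Fin S.card => e (S.equivFin.symm j)) ν 0 =
      ∫ p : Sp 0, (∑ n, ν n * ‖wv e (c n) 0 p‖ ^ 2) ^ (1 + 2 / ((0 + 2 : ℕ) : ℝ)) := by
    unfold dT dns
    simp only [hU]
  rw [h2, ← ENNReal.ofReal_add (kx_nonneg H 0) (ky_nonneg H _ 0), h1,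
    ← ENNReal.ofReal_mul hK2.le, ENNReal.ofReal_eq_ofReal_iff (mul_nonneg hK2.le hd0)
      (add_nonneg (kx_nonneg H 0) (ky_nonneg H _ 0)), hd1, ← hx, ← hy]
  have HY : Ly.SysY k (fun n a (_ : Fin 0 → ℝ) => c n (a, k n - a, ())) ν := by
    refine ⟨fun n a => contDiff_const, fun n a => HasCompactSupport.of_compactSpace _,
      fun n n' hnn => ?_, fun n => (hν n).1, fun n => (hν n).2⟩
    rw [← Ly.UU_inner (k n) (fun a => continuous_const) (fun a => continuous_const)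
      (fun a => HasCompactSupport.of_compactSpace _), ← ho n n', wv_UU (c n) (k n) (hk n),
      wv_UU (c n') (k n') (hk n'), hnn]
  have h := HY.eq_iff
  have hw : ∀ n, wv e (c n) 0 = Ly.UU (k n) fun a _ => c n (a, k n - a, ()) := fun n =>
    wv_UU (c n) (k n) (hk n)
  simp only [hw]
  rw [← sum_add_distrib]
  simp only [← mul_add]
  exact h

end Pool.Agent.H45.LT.Tr
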